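import Pool.Agent.Work.MP_f0e709_co.Defs

set_option autoImplicit false

namespace Pool.Agent.Work.KZ

variable {V : Type*} {G : SimpleGraph V} {k : ℕ}

theorem walk_eq_of_support {u v : V} (p q : G.Walk u v) (h : p.support = q.support) : p = q := by
  exact SimpleGraph.Walk.ext_support h

theorem exists_walk {u v : V} {l : List V} (hl : IsP G l) (hh : l.head? = some u)
    (ht : l.getLast? = some v) :
    ∃ p : G.Walk u v, p.IsPath ∧ p.support = l := by
  have hne : l ≠ [] := by
    rintro rfl
    simp at hh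
  have hu : l.head hne = u := by
    rw [List.head?_eq_some_head hne] at hh
    exact Option.some.inj hh
  have hv : l.getLast hne = v := by
    rw [List.getLast?_eq_some_getLast hne] at ht
    exact Option.some.inj ht
  refine ⟨(SimpleGraph.Walk.ofSupport l hne hl.2).copy hu hv, ?_, ?_⟩
  · rw [SimpleGraph.Walk.isPath_def, SimpleGraph.Walk.support_copy, SimpleGraph.Walk.support_ofSupport]
    exact hl.1
  · rw [SimpleGraph.Walk.support_copy, SimpleGraph.Walk.support_ofSupport]

/-- translation of the walk form of the definition into the list form -/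
theorem pk_of_walk (h : ∀ u v : V, u ≠ v → ∃! p : G.Walk u v, p.IsPath ∧ p.length = k) :
    PK G k := by
  intro u v huv
  obtain ⟨p, ⟨hp, hpl⟩, hpu⟩ := h u v huv
  refine ⟨p.support, ⟨⟨(SimpleGraph.Walk.isPath_def p).1 hp, p.isChain_adj_support⟩, ?_, ?_, ?_⟩, ?_⟩
  · rw [SimpleGraph.Walk.length_support, hpl]
  · rw [List.head?_eq_some_head p.support_ne_nil, SimpleGraph.Walk.head_support]
  · rw [List.getLast?_eq_some_getLast p.support_ne_nil, SimpleGraph.Walk.getLast_support]
  · rintro l ⟨hl, hll, hlh, hlt⟩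
    obtain ⟨q, hq, hql⟩ := exists_walk hl hlh hlt
    have : q = p := by
      apply hpu
      refine ⟨hq, ?_⟩
      have := SimpleGraph.Walk.length_support q
      rw [hql] at this
      omega
    rw [← this, hql]

theorem walk_of_pk (h : PK G k) :
    ∀ u v : V, u ≠ v → ∃! p : G.Walk u v, p.IsPath ∧ p.length = k := by
  intro u v huv
  obtain ⟨l, ⟨hl, hll, hlh, hlt⟩, hlu⟩ := h u v huv
  obtain ⟨p, hp, hpl⟩ := exists_walk hl hlh hlt
  refine ⟨p, ⟨hp, ?_⟩, ?_⟩
  · have := SimpleGraph.Walk.length_support p
    rw [hpl] at this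
    omega
  · rintro q ⟨hq, hql⟩
    apply walk_eq_of_support
    rw [hpl]
    apply hlu
    refine ⟨⟨(SimpleGraph.Walk.isPath_def q).1 hq, q.isChain_adj_support⟩, ?_, ?_, ?_⟩
    · rw [SimpleGraph.Walk.length_support, hql]
    · rw [List.head?_eq_some_head q.support_ne_nil, SimpleGraph.Walk.head_support]
    · rw [List.getLast?_eq_some_getLast q.support_ne_nil, SimpleGraph.Walk.getLast_support]

end Pool.Agent.Work.KZ
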