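import Pool.Agent.Work.MP_f0e709_co.R1c

/-! Circumference, part 4 (helper14, after helper16): no even cycle of length at least `2k`. -/

set_option autoImplicit false

namespace Pool.Agent.Work.KZ

variable {V : Type*} {G : SimpleGraph V} {k : ℕ}

/-- no part of the list `P` is a far ear of the cyclic list `Z` -/
def NoFar (Z P : List V) : Prop :=
  ∀ (A e B : List V) (x y : V) (i j : ℕ), P = A ++ (x :: e ++ [y]) ++ B → Z[i]? = some x → Z[j]? = some y →
    (∀ v ∈ e, v ∉ Z) → cd Z.length i j ≤ e.length + 1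

theorem NoFar.of_infix {Z P Q : List V} (h : NoFar Z P) (hQ : Q <:+: P) : NoFar Z Q := by
  obtain ⟨s, t, hst⟩ := hQ
  intro A e B x y i j hP hi hj he
  refine h (s ++ A) e (B ++ t) x y i j ?_ hi hj he
  rw [← hst, hP]
  simp

theorem near {Z : List V} (hz : Z.Nodup) : ∀ (P : List V) (i j : ℕ) (c d : V), P.head? = some c →
    P.getLast? = some d → Z[i]? = some c → Z[j]? = some d → NoFar Z P → cd Z.length i j + 1 ≤ P.length := by
  intro P
  induction hn : P.length using Nat.strong_induction_on generalizing P with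
  | _ n ih =>
  intro i j c d hc hd hi hj hnf
  obtain ⟨P', rfl⟩ : ∃ P', P = c :: P' := by
    cases P with
    | nil => simp at hc
    | cons a P' => simp at hc; exact ⟨P', by rw [hc]⟩
  by_cases hP' : P' = []
  · subst hP'
    have hcd : c = d := by simpa using hd
    subst hcd
    obtain ⟨h1, h1'⟩ := List.getElem?_eq_some_iff.1 hi
    obtain ⟨h2, h2'⟩ := List.getElem?_eq_some_iff.1 hj
    have : i = j := (List.Nodup.getElem_inj_iff hz).1 (h1'.trans h2'.symm)
    subst this
    simp at hn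
    unfold cd
    omega
  · have hd' : P'.getLast? = some d := by
      rw [show c :: P' = [c] ++ P' by simp, List.getLast?_append_of_ne_nil _ hP'] at hd
      exact hd
    have hdZ : d ∈ Z := List.mem_of_getElem? hj
    obtain ⟨e, x, P'', hPe, hxZ, he⟩ := exists_first (fun v => v ∈ Z) P' ⟨d, List.mem_of_getLast? hd', hdZ⟩
    obtain ⟨m, hm, hmx⟩ := List.getElem_of_mem hxZ
    have hmx' : Z[m]? = some x := by rw [List.getElem?_eq_getElem hm, hmx]
    have h1 := hnf [] e P'' c x i m (by rw [hPe]; simp) hi hmx' he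
    have h2 := ih (x :: P'').length (by rw [← hn, hPe]; simp) (x :: P'') rfl m j x d (by simp) ?_ hmx' hj
      (hnf.of_infix ⟨c :: e, [], by simp [hPe]⟩)
    · have h3 : cd Z.length i j ≤ cd Z.length i m + cd Z.length m j :=
        cd_tri (List.getElem?_eq_some_iff.1 hi).1 hm (List.getElem?_eq_some_iff.1 hj).1
      rw [← hn, hPe]
      simp at h2 ⊢
      omega
    · rw [hPe, show e ++ x :: P'' = e ++ (x :: P'') by rfl, List.getLast?_append_of_ne_nil _ (by simp)] at hd'
      exact hd'

/-- positions visited by a path without far ears -/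
theorem near_mem {Z c : List V} (hz : Z.Nodup) {i j m : ℕ} {x y v : V} (hh : c.head? = some x)
    (ht : c.getLast? = some y) (hi : Z[i]? = some x) (hj : Z[j]? = some y) (hm : Z[m]? = some v)
    (hnf : NoFar Z c) (hv : v ∈ c) : cd Z.length i m + cd Z.length m j + 1 ≤ c.length := by
  obtain ⟨A, B, rfl⟩ := List.append_of_mem hv
  have h1 := near hz (A ++ [v]) i m x v (by
    cases A with
    | nil => simpa using hh
    | cons a A => simpa using hh) (by simp) hi hm (hnf.of_infix ⟨[], B, by simp⟩)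
  have h2 := near hz (v :: B) m j v y (by simp) (by
    rw [List.getLast?_append_of_ne_nil _ (by simp)] at ht
    exact ht) hm hj (hnf.of_infix ⟨A, [], by simp⟩)
  simp at h1 h2 ⊢
  omega

/-- a path with a far ear: the position and the length of the ear -/
theorem PK.far_in (h : PK G k) {l : ℕ} (hL : LM G k l) {Z : List V} (hz : IsCyc G Z) (hzl : Z.length = 2 * l)
    {c : List V} (hc : IsP G c) (hcl : c.length = k + 1) {i j : ℕ} {x y : V} (hh : c.head? = some x)
    (ht : c.getLast? = some y) (hi : Z[i]? = some x) (hj : Z[j]? = some y) (hnf : ¬ NoFar Z c) :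
    ∃ (a b : ℕ) (u v : V) (e : List V), Ear G Z a b u v e ∧ e.length + 1 < cd Z.length a b ∧
      cd Z.length i a + (e.length + 1) + cd Z.length b j ≤ k := by
  unfold NoFar at hnf
  push Not at hnf
  obtain ⟨A, e, B, u, v, a, b, hcA, ha, hb, he, hfar⟩ := hnf
  have hlen : A.length + e.length + B.length + 2 = k + 1 := by
    have := congrArg List.length hcA
    simp at this; omega
  have hE : Ear G Z a b u v e := by
    refine ⟨ha, hb, ?_, he, ?_⟩
    · rw [hcA] at hc
      exact hc.left.right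
    · intro h0
      subst h0
      simp at hfar
      omega
  have hnd := hc.1
  rw [hcA] at hnd
  -- the part before the ear
  have hA : NoFar Z (A ++ [u]) := by
    intro A' e' B' x' y' i' j' hAe hi' hj' he'
    by_contra hcon
    push Not at hcon
    have hl' : A'.length + e'.length + B'.length + 2 = A.length + 1 := by
      have := congrArg List.length hAe
      simp at this; omega
    have hE' : Ear G Z i' j' x' y' e' := by
      refine ⟨hi', hj', ?_, he', ?_⟩
      · have h1 : IsP G (A ++ [u]) := by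
          rw [hcA] at hc
          exact hc.of_prefix ⟨e ++ [v] ++ B, by simp⟩
        rw [hAe] at h1
        exact h1.left.right
      · intro h0
        subst h0
        simp at hcon
        omega
    have hvA : v ∈ A ++ [u] := by
      rcases h.two_far hL hz hzl hE' hE (by omega) hcon hfar with ⟨-, h2, -⟩ | ⟨h2, -, -⟩
      · subst h2
        have : y' = v := by
          have := hj'.symm.trans hb
          simpa using this
        rw [hAe, ← this]; simp
      · subst h2
        have : x' = v := by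
          have := hi'.symm.trans hb
          simpa using this
        rw [hAe, ← this]; simp
    rw [show A ++ (u :: e ++ [v]) ++ B = (A ++ [u]) ++ (e ++ v :: B) by simp, List.nodup_append'] at hnd
    exact ldj hnd.2.2 hvA (by simp)
  have hB : NoFar Z (v :: B) := by
    intro A' e' B' x' y' i' j' hAe hi' hj' he'
    by_contra hcon
    push Not at hcon
    have hl' : A'.length + e'.length + B'.length + 2 = B.length + 1 := by
      have := congrArg List.length hAe
      simp at this; omega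
    have hE' : Ear G Z i' j' x' y' e' := by
      refine ⟨hi', hj', ?_, he', ?_⟩
      · have h1 : IsP G (v :: B) := by
          rw [hcA] at hc
          exact hc.of_suffix ⟨A ++ u :: e, by simp⟩
        rw [hAe] at h1
        exact h1.left.right
      · intro h0
        subst h0
        simp at hcon
        omega
    have huB : u ∈ v :: B := by
      rcases h.two_far hL hz hzl hE' hE (by omega) hcon hfar with ⟨h2, -, -⟩ | ⟨-, h2, -⟩
      · subst h2
        have : x' = u := by
          have := hi'.symm.trans ha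
          simpa using this
        rw [hAe, ← this]; simp
      · subst h2
        have : y' = u := by
          have := hj'.symm.trans ha
          simpa using this
        rw [hAe, ← this]; simp
    rw [show A ++ (u :: e ++ [v]) ++ B = (A ++ u :: e) ++ (v :: B) by simp, List.nodup_append'] at hnd
    exact ldj hnd.2.2 (a := u) (by simp) huB
  refine ⟨a, b, u, v, e, hE, hfar, ?_⟩
  have h1 := near hz.isP.1 (A ++ [u]) i a x u (by
    rw [hcA] at hh
    cases A with
    | nil => simpa using hh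
    | cons a A => simpa using hh) (by simp) hi ha hA
  have h2 := near hz.isP.1 (v :: B) b j v y (by simp) (by
    rw [hcA, show A ++ (u :: e ++ [v]) ++ B = (A ++ u :: e) ++ (v :: B) by simp,
      List.getLast?_append_of_ne_nil _ (by simp)] at ht
    exact ht) hb hj hB
  simp at h1 h2
  omega

/-- the window -/
theorem tail_window {Z : List V} (hz : IsP G Z) (H : V → Prop) (hN : 2 * k + 2 ≤ Z.length)
    (h0 : ∀ x, Z[0]? = some x → H x)
    (hw : ∀ (i : ℕ) (x : V), Z[i]? = some x → H x → i ≤ (k + 2) / 2 ∨ Z.length ≤ i + k / 2) :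
    ∃ (w : V) (t : List V), w ∈ Z ∧ H w ∧ IsP G (w :: t) ∧ (∀ x ∈ t, ¬ H x) ∧ k ≤ t.length := by
  have hex : ∃ x ∈ Z.take (Z.length - k / 2), H x := by
    have h1 : 0 < (Z.take (Z.length - k / 2)).length := by rw [List.length_take]; omega
    refine ⟨(Z.take (Z.length - k / 2))[0], List.getElem_mem _, ?_⟩
    apply h0
    rw [List.getElem_take, List.getElem?_eq_getElem]
  obtain ⟨A, w, t, hA, hwH, ht⟩ := exists_last H _ hex
  have hlen : A.length + t.length + 1 = Z.length - k / 2 := by
    have := congrArg List.length hA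
    rw [List.length_take] at this
    simp at this; omega
  have hwi : Z[A.length]? = some w := by
    have h1 : (Z.take (Z.length - k / 2))[A.length]? = some w := by rw [hA]; simp
    rw [List.getElem?_take] at h1
    split at h1
    · exact h1
    · simp at h1
  have h2 := hw _ _ hwi hwH
  refine ⟨w, t, List.mem_of_getElem? hwi, hwH, ?_, ht, by omega⟩
  have h3 : IsP G (Z.take (Z.length - k / 2)) := hz.take _
  rw [hA] at h3
  exact h3.right

/-- a good location gives a contradiction -/
theorem PK.good_false (h : PK G k) (hk : 3 ≤ k) {l : ℕ} (hL : LM G k l) {Z : List V} (hz : IsCyc G Z)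
    (hzl : Z.length = 2 * l) {z0 z1 z2 : V} (h0 : Z[0]? = some z0) (h1 : Z[1]? = some z1)
    (h2 : Z[2]? = some z2) {c r : List V}
    (hc : IsP G c) (hcl : c.length = k + 1) (hch : c.head? = some z0) (hct : c.getLast? = some z1)
    (hr : IsP G r) (hrl : r.length = k + 1) (hrh : r.head? = some z0) (hrt : r.getLast? = some z2)
    (nc : NoFar Z c) (nr : Even k → NoFar Z r) : False := by
  have hlt := hL.lt
  obtain ⟨Z', hZ'⟩ : ∃ Z', Z = z0 :: z1 :: z2 :: Z' := by
    rcases Z with _ | ⟨a, _ | ⟨b, _ | ⟨c, Z'⟩⟩⟩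
    · simp at h0
    · simp at h1
    · simp at h2
    · simp at h0 h1 h2
      exact ⟨Z', by rw [h0, h1, h2]⟩
  have hzp := hz.isP
  have h01 : G.Adj z0 z1 := by
    rw [hZ'] at hzp
    exact (isP_cons.1 hzp).2.2 z1 (by simp)
  have h12 : G.Adj z1 z2 := by
    rw [hZ'] at hzp
    exact (isP_cons.1 (isP_cons.1 hzp).2.1).2.2 z2 (by simp)
  have h02 : z0 ≠ z2 := by
    have := hzp.1
    rw [hZ'] at this
    simp at this
    tauto
  have hcw : ∀ (i : ℕ) (x : V), Z[i]? = some x → x ∈ c → i ≤ (k + 2) / 2 ∨ Z.length ≤ i + k / 2 := by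
    intro i x hi hx
    have h3 := near_mem hz.isP.1 hch hct h0 h1 hi nc hx
    have h4 := (List.getElem?_eq_some_iff.1 hi).1
    rw [hcl] at h3
    rw [hzl] at h3 h4 ⊢
    unfold cd at h3
    omega
  rcases Nat.even_or_odd k with hke | hko
  · have hrw : ∀ (i : ℕ) (x : V), Z[i]? = some x → x ∈ r → i ≤ (k + 2) / 2 ∨ Z.length ≤ i + k / 2 := by
      intro i x hi hx
      have h3 := near_mem hz.isP.1 hrh hrt h0 h2 hi (nr hke) hx
      have h4 := (List.getElem?_eq_some_iff.1 hi).1
      rw [hrl] at h3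
      rw [hzl] at h3 h4 ⊢
      unfold cd at h3
      omega
    obtain ⟨w, t, -, hw, ht, htH, htl⟩ := tail_window (k := k) hz.isP (fun x => x ∈ c ∨ x ∈ r) (by omega)
      (by
        intro x hx
        have : x = z0 := by
          have := hx.symm.trans h0
          simpa using this
        subst this
        exact Or.inl (List.mem_of_mem_head? (by rw [hch]; rfl)))
      (by
        intro i x hi hx
        rcases hx with hx | hx
        · exact hcw i x hi hx
        · exact hrw i x hi hx)
    have := h.local_tail hk h01 h12 h02 hc hcl hch hct hr hrl hrh hrt hw ht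
      (fun x hx => ⟨fun hx' => htH x hx (Or.inl hx'), fun hx' => htH x hx (Or.inr hx')⟩)
    simp at this
    omega
  · obtain ⟨w, t, -, hw, ht, htH, htl⟩ := tail_window (k := k) hz.isP (fun x => x ∈ c) (by omega)
      (by
        intro x hx
        have : x = z0 := by
          have := hx.symm.trans h0
          simpa using this
        subst this
        exact List.mem_of_mem_head? (by rw [hch]; rfl))
      (by
        intro i x hi hx
        exact hcw i x hi hx)
    obtain ⟨q, hq⟩ := hko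
    have hcyc : IsCyc G c := by
      refine isCyc_of_adj hc (by omega) ?_
      intro a ha b hb
      rw [hct] at ha
      rw [hch] at hb
      have e1 : a = z1 := by simpa using ha.symm
      have e2 : b = z0 := by simpa using hb.symm
      rw [e1, e2]
      exact h01.symm
    exact h.tail_at hcyc (r := q + 1) (by omega) (by omega) hw ht htH (by omega)

theorem getElem?_rotate_half {α : Type*} {Z : List α} {l : ℕ} (hzl : Z.length = 2 * l) (i : ℕ) (hi : i < 2 * l) :
    (Z.rotate l)[i]? = Z[if i < l then i + l else i - l]? := by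
  rw [List.getElem?_rotate (by omega)]
  congr 1
  rw [hzl]
  split
  · rw [Nat.mod_eq_of_lt (by omega)]
  · have : i + l = (i - l) + 2 * l := by omega
    rw [this, Nat.add_mod_right, Nat.mod_eq_of_lt (by omega)]

theorem NoFar.rotate {Z P : List V} {l : ℕ} (hzl : Z.length = 2 * l) (h : NoFar Z P) :
    NoFar (Z.rotate l) P := by
  intro A e B x y i j hP hi hj he
  have hi2 := (List.getElem?_eq_some_iff.1 hi).1
  have hj2 := (List.getElem?_eq_some_iff.1 hj).1
  rw [List.length_rotate, hzl] at hi2 hj2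
  rw [getElem?_rotate_half hzl i hi2] at hi
  rw [getElem?_rotate_half hzl j hj2] at hj
  have := h A e B x y _ _ hP hi hj (fun v hv hv' => he v hv (by rw [List.mem_rotate]; exact hv'))
  rw [List.length_rotate]
  rw [hzl] at this ⊢
  refine le_trans ?_ this
  unfold cd
  split <;> split <;> omega

/-- far ears used at a location -/
theorem PK.far_loc (h : PK G k) {l : ℕ} (hL : LM G k l) {Z : List V} (hz : IsCyc G Z)
    (hzl : Z.length = 2 * l) {i τ : ℕ} (hτ : τ = 1 ∨ (τ = 2 ∧ Even k)) (hil : i + τ < 2 * l) {c : List V} {x y : V}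
    (hc : IsP G c) (hcl : c.length = k + 1) (hh : c.head? = some x)
    (ht : c.getLast? = some y) (hi : Z[i]? = some x) (hj : Z[i + τ]? = some y) (hnf : ¬ NoFar Z c) :
    ∃ (a b : ℕ) (u v : V) (e : List V), Ear G Z a b u v e ∧ e.length + 1 < cd Z.length a b ∧
      cd Z.length i a + (e.length + 1) + cd Z.length b (i + τ) ≤ k ∧ 2 * (e.length + 1) ≤ k := by
  obtain ⟨a, b, u, v, e, hE, hfar, hle⟩ := h.far_in hL hz hzl hc hcl hh ht hi hj hnf
  refine ⟨a, b, u, v, e, hE, hfar, hle, ?_⟩
  have h1 : cd Z.length a b ≤ cd Z.length a i + cd Z.length i b := cd_tri hE.lt.1 (by omega) hE.lt.2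
  have h2 : cd Z.length i b ≤ cd Z.length i (i + τ) + cd Z.length (i + τ) b :=
    cd_tri (by omega) (by omega) hE.lt.2
  have h3 : cd Z.length i (i + τ) ≤ τ := by unfold cd; omega
  rw [cd_comm Z.length a i] at h1
  rw [cd_comm Z.length (i + τ) b] at h2
  rcases hτ with hτ | ⟨hτ, q, hq⟩
  · omega
  · omega

theorem cd_half {l a : ℕ} (ha : a < 2 * l) : l ≤ cd (2 * l) 0 a + cd (2 * l) l a := by
  unfold cd; omega

theorem cd_opp {l τ : ℕ} (hτ : l + τ < 2 * l) : cd (2 * l) 0 (l + τ) = l - τ := by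
  unfold cd; omega

theorem cd_opp2 {l τ : ℕ} (hτ : τ < l) : cd (2 * l) τ l = l - τ := by
  unfold cd; omega

theorem cd_shift {l τ τ' b : ℕ} (hτ : τ = 1 ∨ τ = 2) (hτ' : τ' = 1 ∨ τ' = 2) (hl : 3 < l) (hb : b < 2 * l) :
    l ≤ cd (2 * l) b τ + cd (2 * l) b (l + τ') + 1 := by
  have h1 : cd (2 * l) τ (l + τ') ≤ cd (2 * l) τ b + cd (2 * l) b (l + τ') :=
    cd_tri (by omega) hb (by omega)
  have h2 : l ≤ cd (2 * l) τ (l + τ') + 1 := by unfold cd; omega
  rw [cd_comm _ τ b] at h1
  omega

theorem cd_arc1 {l a : ℕ} (ha : a < 2 * l) (hl : 3 < l) (h : cd (2 * l) 0 a + cd (2 * l) a (l + 2) ≤ l - 2) :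
    (a = 0 ∧ cd (2 * l) 0 a = 0) ∨ (l + 2 ≤ a ∧ cd (2 * l) 0 a + a = 2 * l) := by
  unfold cd at h ⊢
  omega

theorem cd_arc2 {l b : ℕ} (hb : b < 2 * l) (hl : 3 < l) (h : cd (2 * l) b 2 + cd (2 * l) l b ≤ l - 2) :
    2 ≤ b ∧ b ≤ l ∧ cd (2 * l) b 2 + 2 = b := by
  unfold cd at h ⊢
  omega

/-- two far locations, parallel -/
theorem cd_par {k l q a b τ τ' : ℕ} (hk : 3 ≤ k) (hlt : k < l) (ha : a < 2 * l) (hb : b < 2 * l)
    (hτ : τ = 1 ∨ τ = 2) (hτ' : τ' = 1 ∨ τ' = 2) (h1 : cd (2 * l) 0 a + (q + 1) + cd (2 * l) b τ ≤ k)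
    (h2 : cd (2 * l) l a + (q + 1) + cd (2 * l) b (l + τ') ≤ k) : False := by
  have h3 := cd_half ha
  have h4 := cd_shift hτ hτ' (by omega) hb
  omega

/-- two far locations, antiparallel -/
theorem cd_anti {k l q a b τ τ' : ℕ} (hk : 3 ≤ k) (hlt : k < l) (ha : a < 2 * l) (hb : b < 2 * l)
    (hτ : τ = 1 ∨ τ = 2) (hτ' : τ' = 1 ∨ τ' = 2) (hev : τ = 2 → k % 2 = 0) (hp : (q + 1 + a + b) % 2 = 1)
    (h1 : cd (2 * l) 0 a + (q + 1) + cd (2 * l) b τ ≤ k)
    (h2 : cd (2 * l) l b + (q + 1) + cd (2 * l) a (l + τ') ≤ k) : False := by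
  have h3 : cd (2 * l) 0 (l + τ') ≤ cd (2 * l) 0 a + cd (2 * l) a (l + τ') :=
    cd_tri (by omega) ha (by omega)
  have h4 : cd (2 * l) τ l ≤ cd (2 * l) τ b + cd (2 * l) b l := cd_tri (by omega) hb (by omega)
  rw [cd_opp (by omega)] at h3
  rw [cd_opp2 (by omega), cd_comm _ τ b, cd_comm _ b l] at h4
  obtain ⟨e1, e2, e3, e4⟩ : τ = 2 ∧ τ' = 2 ∧ q = 0 ∧ l = k + 1 := by omega
  subst e1; subst e2; subst e3; subst e4
  have h5 := cd_arc1 ha (by omega) (by omega)
  have h6 := cd_arc2 hb (by omega) (by omega)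
  have h7 := hev rfl
  omega

/-- no even cycle longer than `2k` -/
theorem PK.no_LM (h : PK G k) (hk : 3 ≤ k) {l : ℕ} (hL : LM G k l) {Z : List V} (hz : IsCyc G Z)
    (hzl : Z.length = 2 * l) : False := by
  have hlt := hL.lt
  have hget : ∀ i, i < 2 * l → ∃ x, Z[i]? = some x := fun i hi =>
    ⟨Z[i]'(by omega), List.getElem?_eq_getElem (by omega)⟩
  have hne : ∀ {i j : ℕ} {c d : V}, Z[i]? = some c → Z[j]? = some d → i ≠ j → c ≠ d := by
    intro i j c d hi hj hij hcd
    subst hcd
    obtain ⟨h1, h1'⟩ := List.getElem?_eq_some_iff.1 hi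
    obtain ⟨h2, h2'⟩ := List.getElem?_eq_some_iff.1 hj
    exact hij ((List.Nodup.getElem_inj_iff hz.isP.1).1 (h1'.trans h2'.symm))
  obtain ⟨z0, h0⟩ := hget 0 (by omega)
  obtain ⟨z1, h1⟩ := hget 1 (by omega)
  obtain ⟨z2, h2⟩ := hget 2 (by omega)
  obtain ⟨w0, g0⟩ := hget l (by omega)
  obtain ⟨w1, g1⟩ := hget (l + 1) (by omega)
  obtain ⟨w2, g2⟩ := hget (l + 2) (by omega)
  obtain ⟨c, hc, hcl, hch, hct⟩ := h.exists (hne h0 h1 (by omega))
  obtain ⟨r, hr, hrl, hrh, hrt⟩ := h.exists (hne h0 h2 (by omega))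
  obtain ⟨c', hc', hcl', hch', hct'⟩ := h.exists (hne g0 g1 (by omega))
  obtain ⟨r', hr', hrl', hrh', hrt'⟩ := h.exists (hne g0 g2 (by omega))
  by_cases hgood : NoFar Z c ∧ (Even k → NoFar Z r)
  · exact h.good_false hk hL hz hzl h0 h1 h2 hc hcl hch hct hr hrl hrh hrt hgood.1 hgood.2
  by_cases hgood' : NoFar Z c' ∧ (Even k → NoFar Z r')
  · have hz' : IsCyc G (Z.rotate l) := by
      rw [List.rotate_eq_drop_append_take (by omega)]
      apply IsCyc.rot
      rw [List.take_append_drop]
      exact hz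
    refine h.good_false hk hL hz' (by rw [List.length_rotate]; exact hzl) (z0 := w0) (z1 := w1) (z2 := w2) ?_ ?_ ?_
      hc' hcl' hch' hct' hr' hrl' hrh' hrt' (hgood'.1.rotate hzl) (fun hke => (hgood'.2 hke).rotate hzl)
    · rw [getElem?_rotate_half hzl 0 (by omega), if_pos (by omega)]
      simpa using g0
    · rw [getElem?_rotate_half hzl 1 (by omega), if_pos (by omega), Nat.add_comm]
      exact g1
    · rw [getElem?_rotate_half hzl 2 (by omega), if_pos (by omega), Nat.add_comm]
      exact g2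
  -- both locations use the same far ear
  have hE : ∃ τ, (τ = 1 ∨ (τ = 2 ∧ Even k)) ∧ ∃ (a b : ℕ) (u v : V) (e : List V), Ear G Z a b u v e ∧
      e.length + 1 < cd Z.length a b ∧
      cd Z.length 0 a + (e.length + 1) + cd Z.length b (0 + τ) ≤ k ∧ 2 * (e.length + 1) ≤ k := by
    by_cases n1 : NoFar Z c
    · have n2 : ¬ (Even k → NoFar Z r) := fun h3 => hgood ⟨n1, h3⟩
      push Not at n2
      exact ⟨2, Or.inr ⟨rfl, n2.1⟩, h.far_loc hL hz hzl (Or.inr ⟨rfl, n2.1⟩) (by omega) hr hrl hrh hrt h0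
        (by simpa using h2) n2.2⟩
    · exact ⟨1, Or.inl rfl, h.far_loc hL hz hzl (Or.inl rfl) (by omega) hc hcl hch hct h0
        (by simpa using h1) n1⟩
  have hE' : ∃ τ, (τ = 1 ∨ (τ = 2 ∧ Even k)) ∧ ∃ (a b : ℕ) (u v : V) (e : List V), Ear G Z a b u v e ∧
      e.length + 1 < cd Z.length a b ∧
      cd Z.length l a + (e.length + 1) + cd Z.length b (l + τ) ≤ k ∧ 2 * (e.length + 1) ≤ k := by
    by_cases n1 : NoFar Z c'
    · have n2 : ¬ (Even k → NoFar Z r') := fun h3 => hgood' ⟨n1, h3⟩
      push Not at n2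
      exact ⟨2, Or.inr ⟨rfl, n2.1⟩, h.far_loc hL hz hzl (Or.inr ⟨rfl, n2.1⟩) (by omega) hr' hrl' hrh' hrt' g0
        g2 n2.2⟩
    · exact ⟨1, Or.inl rfl, h.far_loc hL hz hzl (Or.inl rfl) (by omega) hc' hcl' hch' hct' g0
        g1 n1⟩
  obtain ⟨τ, hτ, a, b, u, v, e, hEar, hfar, hle, h2q⟩ := hE
  obtain ⟨τ', hτ', a', b', u', v', e', hEar', hfar', hle', h2q'⟩ := hE'
  have hp := h.odd_pos hL hz hzl hEar (by omega)
  have ha := hEar.lt.1
  have hb := hEar.lt.2
  have h2f := h.two_far hL hz hzl hEar hEar' (by omega) hfar hfar'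
  have hτe : τ = 2 → k % 2 = 0 := by
    intro h3
    rcases hτ with h4 | ⟨-, q, hq⟩
    · omega
    · omega
  have hτ1 : τ = 1 ∨ τ = 2 := by rcases hτ with h4 | h4; exact Or.inl h4; exact Or.inr h4.1
  have hτ2 : τ' = 1 ∨ τ' = 2 := by rcases hτ' with h4 | h4; exact Or.inl h4; exact Or.inr h4.1
  clear hτ hτ' hgood hgood' hEar hEar' hfar hfar'
  rw [hzl] at hle hle' ha hb
  rw [Nat.zero_add] at hle
  rcases h2f with ⟨e1, e2, e3⟩ | ⟨e1, e2, e3⟩
  · subst e1; subst e2; subst e3
    exact cd_par hk hlt ha hb hτ1 hτ2 hle hle'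
  · have e4 : e.length = e'.length := by rw [e3]; simp
    subst e1; subst e2
    rw [← e4] at hle'
    exact cd_anti hk hlt ha hb hτ1 hτ2 hτe hp hle hle'

/-- every even cycle has length less than `2k` -/
theorem PK.even_lt (h : PK G k) (hk : 3 ≤ k) {Z : List V} {r : ℕ} (hz : IsCyc G Z) (hzl : Z.length = 2 * r) :
    r < k := by
  by_contra hcon
  push Not at hcon
  have hex : ∃ l, k ≤ l ∧ ∃ Z : List V, IsCyc G Z ∧ Z.length = 2 * l := ⟨r, hcon, Z, hz, hzl⟩
  classical
  obtain ⟨h1, Z0, hz0, hzl0⟩ := Nat.find_spec hex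
  have h2 : ∀ m, m < Nat.find hex → ¬ (k ≤ m ∧ ∃ Z : List V, IsCyc G Z ∧ Z.length = 2 * m) :=
    fun m hm => Nat.find_min hex hm
  set l := Nat.find hex with hl
  have hne : l ≠ k := by
    intro h3
    obtain ⟨p, hp⟩ := List.exists_mem_of_ne_nil Z0 hz0.ne_nil
    exact h.tail_at hz0 hzl0 h3.le hp (IsP.singleton p) (by simp) (by omega)
  refine h.no_LM hk (l := l) ⟨by omega, ?_⟩ hz0 hzl0
  intro Y s hY hYl
  by_contra hcon2
  push Not at hcon2
  exact h2 s hcon2.2 ⟨hcon2.1, Y, hY, hYl⟩

end Pool.Agent.Work.KZ
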