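import Pool.Agent.Work.MP_f0e709_co.R1

/-! Paths ending in a branch vertex (helper14, after helper16): at most `2k - 3` edges. -/

set_option autoImplicit false

namespace Pool.Agent.Work.KZ

variable {V : Type*} {G : SimpleGraph V} {k : ℕ}

/-- a long path closed at its end gives an odd cycle -/
theorem PK.closing_odd (h : PK G k) (hk : 3 ≤ k) {A D M : List V} {w x : V}
    (hP : IsP G (A ++ w :: D ++ [x])) (hH : 2 * k ≤ (A ++ w :: D).length + 2) (hM : IsP G (x :: M ++ [w]))
    (hd : ∀ v ∈ M, v ∉ A ++ w :: D) (hne : M = [] → D ≠ []) : (D.length + M.length) % 2 = 1 := by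
  by_contra hcon
  have hpos : 1 ≤ D.length + M.length := by
    rcases M with _ | ⟨a, M⟩
    · have := List.length_pos_iff.2 (hne rfl)
      omega
    · simp
      omega
  have h1 : IsP G (w :: D ++ [x]) := by
    rw [List.append_assoc] at hP
    exact hP.right
  have h2 : IsP G (w :: M.reverse ++ [x]) := by
    have := hM.reverse
    simpa using this
  have hcyc := two_paths_cyc h1 h2 (by
    intro v hv hv'
    exact hd v (by simpa using hv) (by simp [hv'])) (by simpa using hpos)
  rw [List.reverse_reverse] at hcyc
  have hlen : (w :: (D ++ x :: M)).length = 2 * ((D.length + M.length + 2) / 2) := by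
    simp; omega
  have hrk := h.even_lt hk hcyc hlen
  have hAw : IsP G (w :: A.reverse) := by
    have h3 : IsP G (A ++ [w]) := hP.of_prefix ⟨D ++ [x], by simp⟩
    have := h3.reverse
    simpa using this
  have hnd := hP.1
  refine h.tail_at hcyc hlen hrk.le (p := w) (by simp) hAw ?_ ?_
  · intro v hv hv'
    rw [List.mem_reverse] at hv
    rw [List.append_assoc, List.nodup_append'] at hnd
    rw [List.mem_cons, List.mem_append, List.mem_cons] at hv'
    rcases hv' with h | h | h | h
    · exact ldj hnd.2.2 hv (by simp [h])
    · exact ldj hnd.2.2 hv (by simp [h])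
    · exact ldj hnd.2.2 hv (by simp [h])
    · exact hd v h (by simp [hv])
  · simp at hH ⊢
    omega

/-- two closings at different vertices -/
theorem PK.two_closings_lt (h : PK G k) (hk : 3 ≤ k) {A B D M R : List V} {w w' x : V}
    (hP : IsP G (A ++ w :: (B ++ w' :: D) ++ [x])) (hH : 2 * k ≤ (A ++ w :: (B ++ w' :: D)).length + 2)
    (hM : IsP G (x :: M ++ [w])) (hR : IsP G (x :: R ++ [w']))
    (hdM : ∀ v ∈ M, v ∉ A ++ w :: (B ++ w' :: D)) (hdR : ∀ v ∈ R, v ∉ A ++ w :: (B ++ w' :: D))
    (hMR : ∀ v ∈ M, v ∉ R) (hne : R = [] → D ≠ []) : False := by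
  have c1 := h.closing_odd hk hP hH hM hdM (by simp)
  have c2 := h.closing_odd hk (A := A ++ w :: B) (D := D) (w := w') (x := x) (M := R) (by simpa using hP)
    (by simpa using hH) hR (by
      intro v hv hv'
      exact hdR v hv (by simpa using hv')) hne
  have hnd := hP.1
  have hww' : w ≠ w' := by
    intro h0
    rw [List.append_assoc, List.nodup_append'] at hnd
    have := hnd.2.1
    simp [h0] at this
  have hxl : x ∉ A ++ w :: (B ++ w' :: D) := by
    intro hx
    rw [List.nodup_append'] at hnd
    exact ldj hnd.2.2 hx (by simp)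
  have h1 : IsP G (w :: B ++ [w']) := by
    have : IsP G (A ++ ((w :: B ++ [w']) ++ (D ++ [x]))) := by simpa using hP
    exact this.right.left
  have h2 : IsP G (w :: (M.reverse ++ x :: R) ++ [w']) := by
    have h3 : IsP G ((w :: M.reverse) ++ [x]) := by
      have := hM.reverse
      simpa using this
    have h4 : IsP G (x :: (R ++ [w'])) := by simpa using hR
    have := h3.glue h4 (by
      intro v hv hv'
      rw [List.mem_append, List.mem_singleton] at hv
      rw [List.mem_cons, List.mem_reverse] at hv'
      rcases hv with hv | hv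
      · rcases hv' with hv' | hv'
        · exact hdR v hv (by simp [hv'])
        · exact hMR v hv' hv
      · rcases hv' with hv' | hv'
        · exact hww' (hv'.symm.trans hv)
        · exact hdM v hv' (by simp [hv]))
    simpa using this
  have hcyc := two_paths_cyc h1 h2 (by
    intro v hv hv'
    rw [List.mem_append, List.mem_reverse, List.mem_cons] at hv
    rcases hv with hv | hv | hv
    · exact hdM v hv (by simp [hv'])
    · exact hxl (by simp [← hv, hv'])
    · exact hdR v hv (by simp [hv'])) (by simp; omega)
  have hlen : (w :: (B ++ w' :: (M.reverse ++ x :: R).reverse)).length =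
      2 * ((B.length + M.length + R.length + 3) / 2) := by
    simp at c1 c2 ⊢; omega
  have hrk := h.even_lt hk hcyc hlen
  have t1 : IsP G (w :: A.reverse) := by
    have h3 : IsP G (A ++ [w]) := hP.of_prefix ⟨B ++ w' :: D ++ [x], by simp⟩
    have := h3.reverse
    simpa using this
  have t2 : IsP G (w' :: D) := by
    have : IsP G ((A ++ w :: B) ++ ((w' :: D) ++ [x])) := by simpa using hP
    exact this.right.left
  have hmem : ∀ v, v ∈ (w :: (B ++ w' :: (M.reverse ++ x :: R).reverse)) →
      v ∈ w :: (B ++ [w']) ∨ v ∈ M ∨ v = x ∨ v ∈ R := by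
    intro v hv
    simp at hv ⊢
    tauto
  refine h.two_tails hcyc hlen hrk.le (p := w) (p' := w') (by simp) t1 ?_ (by simp) t2 ?_ ?_
  · intro v hv hv'
    rw [List.mem_reverse] at hv
    rcases hmem v hv' with h | h | h | h
    · have h5 : (A ++ ((w :: (B ++ [w'])) ++ (D ++ [x]))).Nodup := by
        have := hP.1
        simpa using this
      rw [List.nodup_append'] at h5
      exact ldj h5.2.2 hv (List.mem_append_left _ h)
    · exact hdM v h (by simp [hv])
    · exact hxl (by simp [← h, hv])
    · exact hdR v h (by simp [hv])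
  · intro v hv hv'
    rcases hmem v hv' with h | h | h | h
    · have h5 : ((A ++ (w :: (B ++ [w']))) ++ (D ++ [x])).Nodup := by
        have := hP.1
        simpa using this
      rw [List.nodup_append'] at h5
      exact ldj h5.2.2 (List.mem_append_right _ h) (List.mem_append_left _ hv)
    · exact hdM v h (by simp [hv])
    · exact hxl (by simp [← h, hv])
    · exact hdR v h (by simp [hv])
  · simp at hH c1 c2 ⊢
    omega

/-- two closings at the same vertex -/
theorem PK.two_closings_eq (h : PK G k) (hk : 3 ≤ k) {A D M R : List V} {w x : V}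
    (hP : IsP G (A ++ w :: D ++ [x])) (hH : 2 * k ≤ (A ++ w :: D).length + 2)
    (hM : IsP G (x :: M ++ [w])) (hR : IsP G (x :: R ++ [w]))
    (hdM : ∀ v ∈ M, v ∉ A ++ w :: D) (hdR : ∀ v ∈ R, v ∉ A ++ w :: D)
    (hMR : ∀ v ∈ M, v ∉ R) (hneM : M = [] → D ≠ []) (hneR : R = [] → D ≠ []) (hne : 1 ≤ M.length + R.length) :
    False := by
  have c1 := h.closing_odd hk hP hH hM hdM hneM
  have c2 := h.closing_odd hk hP hH hR hdR hneR
  have hnd := hP.1
  have hxl : x ∉ A ++ w :: D := by
    intro hx
    rw [List.nodup_append'] at hnd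
    exact ldj hnd.2.2 hx (by simp)
  have hcyc := two_paths_cyc hM hR (fun v hv hv' => hMR v hv' hv) hne
  have hlen : (x :: (M ++ w :: R.reverse)).length = 2 * ((M.length + R.length + 2) / 2) := by
    simp at c1 c2 ⊢; omega
  have hrk := h.even_lt hk hcyc hlen
  have t1 : IsP G (w :: A.reverse) := by
    have h3 : IsP G (A ++ [w]) := hP.of_prefix ⟨D ++ [x], by simp⟩
    have := h3.reverse
    simpa using this
  have t2 : IsP G (w :: D) := by
    have : IsP G (A ++ ((w :: D) ++ [x])) := by simpa using hP
    exact this.right.left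
  have hmem : ∀ v, v ∈ (x :: (M ++ w :: R.reverse)) → v = w ∨ v ∈ M ∨ v = x ∨ v ∈ R := by
    intro v hv
    simp at hv ⊢
    tauto
  refine h.two_tails hcyc hlen hrk.le (p := w) (p' := w) (by simp) t1 ?_ (by simp) t2 ?_ ?_
  · intro v hv hv'
    rw [List.mem_reverse] at hv
    rcases hmem v hv' with h | h | h | h
    · rw [List.append_assoc, List.nodup_append'] at hnd
      exact ldj hnd.2.2 hv (by simp [h])
    · exact hdM v h (by simp [hv])
    · exact hxl (by simp [← h, hv])
    · exact hdR v h (by simp [hv])
  · intro v hv hv'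
    rcases hmem v hv' with h | h | h | h
    · rw [List.append_assoc, List.nodup_append'] at hnd
      have := hnd.2.1
      simp at this
      subst h
      exact this.1.1 hv
    · exact hdM v h (by simp [hv])
    · exact hxl (by simp [← h, hv])
    · exact hdR v h (by simp [hv])
  · simp at hH c1 c2 ⊢
    omega

/-- two closings of a long path -/
theorem PK.two_closings (h : PK G k) (hk : 3 ≤ k) {l M R : List V} {p w w' x : V}
    (hP : IsP G (l ++ [p] ++ [x])) (hH : 2 * k ≤ (l ++ [p]).length + 2)
    (hM : IsP G (x :: M ++ [w])) (hR : IsP G (x :: R ++ [w'])) (hw : w ∈ l ++ [p]) (hw' : w' ∈ l ++ [p])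
    (hdM : ∀ v ∈ M, v ∉ l ++ [p]) (hdR : ∀ v ∈ R, v ∉ l ++ [p])
    (hMR : ∀ v ∈ M, v ∉ R) (hneM : M = [] → w ≠ p) (hneR : R = [] → w' ≠ p)
    (hne : w = w' → 1 ≤ M.length + R.length) : False := by
  have key : ∀ {A D : List V} {u : V}, l ++ [p] = A ++ u :: D → u ≠ p → D ≠ [] := by
    intro A D u hA hu h0
    subst h0
    have := congrArg List.getLast? hA
    rw [List.getLast?_append_of_ne_nil _ (by simp), List.getLast?_append_of_ne_nil _ (by simp)] at this
    simp at this
    exact hu this.symm
  obtain ⟨A, D, hA⟩ := List.append_of_mem hw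
  by_cases hww : w = w'
  · subst hww
    exact h.two_closings_eq hk (A := A) (D := D) (by rw [← hA]; exact hP) (by rw [← hA]; exact hH) hM hR
      (by rw [← hA]; exact hdM) (by rw [← hA]; exact hdR) hMR (fun h0 => key hA (hneM h0)) (fun h0 => key hA (hneR h0))
      (hne rfl)
  · have h1 : w' ∈ A ∨ w' ∈ D := by
      rw [hA, List.mem_append, List.mem_cons] at hw'
      rcases hw' with h | h | h
      · exact Or.inl h
      · exact absurd h.symm hww
      · exact Or.inr h
    rcases h1 with h1 | h1
    · obtain ⟨A1, B, rfl⟩ := List.append_of_mem h1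
      have hA' : l ++ [p] = A1 ++ w' :: (B ++ w :: D) := by rw [hA]; simp
      exact h.two_closings_lt hk (A := A1) (B := B) (D := D) (M := R) (R := M) (w := w') (w' := w)
        (by rw [← hA']; exact hP) (by rw [← hA']; exact hH) hR hM
        (by rw [← hA']; exact hdR) (by rw [← hA']; exact hdM) (fun v hv hv' => hMR v hv' hv)
        (fun h0 => key hA (hneM h0))
    · obtain ⟨B, D1, rfl⟩ := List.append_of_mem h1
      exact h.two_closings_lt hk (A := A) (B := B) (D := D1) (M := M) (R := R) (w := w) (w' := w')
        (by rw [← hA]; exact hP) (by rw [← hA]; exact hH) hM hR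
        (by rw [← hA]; exact hdM) (by rw [← hA]; exact hdR) hMR
        (fun h0 => key (A := A ++ w :: B) (D := D1) (u := w') (by rw [hA]; simp) (hneR h0))

theorem not_nb {v a b c : V} (ha : G.Adj v a) (hb : G.Adj v b) (hc : G.Adj v c) (hab : a ≠ b) (hac : a ≠ c)
    (hbc : b ≠ c) : ¬ NB G v := by
  intro h
  rcases h a b c ha hb hc with h | h | h
  · exact hab h
  · exact hac h
  · exact hbc h

/-- one step: a long path ending in a branch vertex can be prolonged to another branch vertex -/
theorem PK.branch_step (h : PK G k) (hk : 3 ≤ k) {l : List V} {x : V} (hP : IsP G (l ++ [x])) (hx : ¬ NB G x)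
    (hH : 2 * k ≤ l.length + 2) : ∃ (l' : List V) (x' : V), IsP G (l' ++ [x']) ∧ ¬ NB G x' ∧
      l.length + 1 ≤ l'.length := by
  obtain ⟨l0, p, rfl⟩ : ∃ l0 p, l = l0 ++ [p] := by
    rcases List.eq_nil_or_concat l with h0 | ⟨l0, p, h0⟩
    · subst h0; simp at hH; omega
    · exact ⟨l0, p, by simpa using h0⟩
  have hpx : G.Adj x p := by
    have := (isP_append.1 hP).2.2.2 p (by simp) x (by simp)
    exact this.symm
  obtain ⟨p', hp'⟩ := h.partner_exists hk hpx
  obtain ⟨y, hxy, hyp, hyp'⟩ : ∃ y, G.Adj x y ∧ y ≠ p ∧ y ≠ p' := by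
    unfold NB at hx
    push Not at hx
    obtain ⟨a, b, c, ha, hb, hc, hab, hac, hbc⟩ := hx
    by_cases h1 : a ≠ p ∧ a ≠ p'
    · exact ⟨a, ha, h1⟩
    by_cases h2 : b ≠ p ∧ b ≠ p'
    · exact ⟨b, hb, h2⟩
    refine ⟨c, hc, ?_, ?_⟩
    · rintro rfl
      have h3 : a = p' := by
        by_contra h4
        exact h1 ⟨hac, h4⟩
      have h5 : b = p' := by
        by_contra h4
        exact h2 ⟨hbc, h4⟩
      exact hab (h3.trans h5.symm)
    · rintro rfl
      have h3 : a = p := by
        by_contra h4
        exact h1 ⟨h4, hac⟩
      have h5 : b = p := by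
        by_contra h4
        exact h2 ⟨h4, hbc⟩
      exact hab (h3.trans h5.symm)
  obtain ⟨y', hy'⟩ := h.partner_exists hk hxy
  have hyy' : y ≠ y' := hy'.ne
  have hy'p : y' ≠ p := by
    rintro rfl
    exact hyp' (h.partner_unique hk hy'.symm hp')
  obtain ⟨m, hm, hml⟩ := hy'
  have hC : IsCyc G (x :: (y :: (m ++ [y']))) := hm
  have hCr : IsP G ((y :: (m ++ [y'])) ++ [x]) := by
    have : IsCyc G ([x] ++ (y :: (m ++ [y']))) := by simpa using hm
    exact this.rot.isP
  have hmn : (y :: (m ++ [y'])).Nodup := by
    have := hC.isP.1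
    rw [List.nodup_cons] at this
    exact this.2
  by_cases hmeet : ∃ v ∈ y :: (m ++ [y']), v ∈ l0 ++ [p]
  · exfalso
    obtain ⟨M1, w1, M1', e1, hw1, hM1⟩ := exists_first (fun v => v ∈ l0 ++ [p]) _ hmeet
    obtain ⟨M2', w2, M2, e2, hw2, hM2⟩ := exists_last (fun v => v ∈ l0 ++ [p]) _ hmeet
    have hdis : ∀ v ∈ M1, v ∉ M2.reverse := by
      intro v hv hv'
      rw [List.mem_reverse] at hv'
      have hnd := hmn
      rw [e1, List.nodup_append'] at hnd
      have h5 : M1 ++ (w1 :: M1') = M2' ++ (w2 :: M2) := by rw [← e1, ← e2]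
      rcases List.append_eq_append_iff.1 h5 with ⟨c, -, h6⟩ | ⟨c, h6, h7⟩
      · exact ldj hnd.2.2 hv (by rw [h6]; simp [hv'])
      · rcases c with _ | ⟨c0, c⟩
        · simp at h7
          exact ldj hnd.2.2 hv (by simp [← h7.2, hv'])
        · simp at h7
          rw [← h7.1] at h6
          exact hM1 w2 (by rw [h6]; simp) hw2
    refine h.two_closings hk hP hH (M := M1) (R := M2.reverse) (w := w1) (w' := w2) ?_ ?_ hw1 hw2 hM1
      (fun v hv => hM2 v (by simpa using hv)) hdis ?_ ?_ ?_
    · refine hC.isP.of_prefix ⟨M1', ?_⟩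
      rw [e1]
      simp
    · have h6 : IsP G (M2' ++ (w2 :: M2 ++ [x])) := by
        rw [e2] at hCr
        simpa using hCr
      have := h6.right.reverse
      simpa using this
    · rintro rfl
      rintro rfl
      simp at e1
      exact hyp e1.1
    · intro h7
      have h7' : M2 = [] := by simpa using h7
      subst h7'
      rintro rfl
      have := congrArg List.getLast? e2
      rw [show y :: (m ++ [y']) = (y :: m) ++ [y'] by simp, List.getLast?_append_of_ne_nil _ (by simp),
        List.getLast?_append_of_ne_nil _ (by simp)] at this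
      simp at this
      exact hy'p this
    · intro h7
      by_contra h8
      have h9 : M1 = [] := by
        apply List.length_eq_zero_iff.1
        omega
      have h10 : M2 = [] := by
        have : M2.reverse.length = 0 := by omega
        simpa using this
      subst h9; subst h10
      have := congrArg List.getLast? e2
      rw [show y :: (m ++ [y']) = (y :: m) ++ [y'] by simp, List.getLast?_append_of_ne_nil _ (by simp),
        List.getLast?_append_of_ne_nil _ (by simp)] at this
      simp at this e1
      exact hyy' ((e1.1.trans h7).trans this.symm)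
  · push Not at hmeet
    obtain ⟨m', hm', hml'⟩ := hp'
    obtain ⟨a, b, hab, ha, hb, ha', hb'⟩ := h.two_le_inter hk hC (by simp; omega) hm' (by simp; omega)
    have hex : ∃ v ∈ y :: (m ++ [y']), v ∈ x :: p :: (m' ++ [p']) := by
      rw [List.mem_cons] at ha hb
      rcases ha with ha | ha
      · rcases hb with hb | hb
        · exact absurd (ha.trans hb.symm) hab
        · exact ⟨b, hb, hb'⟩
      · exact ⟨a, ha, ha'⟩
    obtain ⟨E, v, E', hE, hvC, hall⟩ := exists_first (fun v => v ∈ x :: p :: (m' ++ [p'])) _ hex
    have hvM : v ∈ y :: (m ++ [y']) := by rw [hE]; simp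
    have hvl := hmeet v hvM
    have hvx : v ≠ x := by
      rintro rfl
      have := hC.isP.1
      rw [List.nodup_cons] at this
      exact this.1 hvM
    have hvm : v ∈ m' ++ [p'] := by
      rw [List.mem_cons, List.mem_cons] at hvC
      rcases hvC with h1 | h1 | h1
      · exact absurd h1 hvx
      · subst h1
        exact absurd (by simp) hvl
      · exact h1
    have hxEv : IsP G (x :: E ++ [v]) := by
      refine hC.isP.of_prefix ⟨E', ?_⟩
      rw [hE]
      simp
    refine ⟨l0 ++ [p] ++ x :: E, v, ?_, ?_, by simp⟩
    · have := hP.glue (t := E ++ [v]) (by simpa using hxEv) (by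
        intro z hz hz'
        refine hmeet z ?_ hz'
        rw [hE]
        simp at hz ⊢
        tauto)
      simpa using this
    · obtain ⟨S0, T0, hST⟩ := List.append_of_mem hvm
      obtain ⟨S', s, hS⟩ : ∃ S' s, p :: S0 = S' ++ [s] := ⟨_, _, (List.dropLast_append_getLast (by simp)).symm⟩
      obtain ⟨t, T', hT⟩ : ∃ t T', T0 ++ [x] = t :: T' := List.exists_cons_of_ne_nil (by simp)
      obtain ⟨E0, u, hu⟩ : ∃ E0 u, x :: E = E0 ++ [u] := ⟨_, _, (List.dropLast_append_getLast (by simp)).symm⟩
      have hcr : IsP G ((p :: (m' ++ [p'])) ++ [x]) := by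
        have : IsCyc G ([x] ++ (p :: (m' ++ [p']))) := by simpa using hm'
        exact this.rot.isP
      have hlist : (p :: (m' ++ [p'])) ++ [x] = S' ++ [s] ++ ([v] ++ (t :: T')) := by
        rw [← hS, ← hT, hST]
        simp
      have hcr' := hcr
      rw [hlist] at hcr'
      have hsv : G.Adj s v := (isP_append.1 hcr').2.2.2 s (by simp) v (by simp)
      have hvt : G.Adj v t := (isP_append.1 hcr'.right).2.2.2 v (by simp) t (by simp)
      have hst : s ≠ t := by
        have := hcr'.1
        rw [List.nodup_append'] at this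
        rintro rfl
        exact ldj this.2.2 (a := s) (by simp) (by simp)
      have huv : G.Adj u v := by
        rw [hu] at hxEv
        exact (isP_append.1 hxEv).2.2.2 u (by simp) v (by simp)
      have hsC : s ∈ p :: (m' ++ [p']) := by
        have : s ∈ p :: S0 := by rw [hS]; simp
        rw [hST]
        simp at this ⊢
        tauto
      have hxC : x ∉ p :: (m' ++ [p']) := by
        have := hcr.1
        rw [List.nodup_append'] at this
        intro h0
        exact ldj this.2.2 h0 (by simp)
      have htC : t ∈ x :: p :: (m' ++ [p']) := by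
        have : t ∈ T0 ++ [x] := by rw [hT]; simp
        rw [hST]
        simp at this ⊢
        tauto
      rcases E with _ | ⟨e0, E1⟩
      · -- `v = y`
        have hux : u = x := by
          have := congrArg List.getLast? hu
          rw [List.getLast?_append_of_ne_nil _ (by simp)] at this
          simpa using this.symm
        have hvy : y = v := by
          simp at hE
          exact hE.1
        refine not_nb huv.symm hsv.symm hvt ?_ ?_ hst
        · rw [hux]
          rintro rfl
          exact hxC hsC
        · rw [hux]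
          rintro rfl
          rcases T0 with _ | ⟨t0, T1⟩
          · have := congrArg List.getLast? hST
            rw [List.getLast?_append_of_ne_nil _ (by simp), List.getLast?_append_of_ne_nil _ (by simp)] at this
            simp at this
            exact hyp' (hvy.trans this.symm)
          · simp at hT
            apply hxC
            rw [hST, ← hT.1]
            simp
      · have huE : u ∈ e0 :: E1 := by
          have := congrArg List.getLast? hu
          rw [show x :: e0 :: E1 = [x] ++ (e0 :: E1) by simp, List.getLast?_append_of_ne_nil _ (by simp),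
            List.getLast?_append_of_ne_nil _ (by simp)] at this
          exact List.mem_of_getLast? (by rw [this]; rfl)
        have huC := hall u huE
        refine not_nb huv.symm hsv.symm hvt ?_ ?_ hst
        · rintro rfl
          exact huC (by rw [List.mem_cons]; exact Or.inr hsC)
        · rintro rfl
          exact huC htC

/-- (R2): a path which ends in a branch vertex has at most `2k - 3` edges -/
theorem PK.branchEnd [Finite V] (h : PK G k) (hk : 3 ≤ k) : BranchEnd G k := by
  have := Fintype.ofFinite V
  have key : ∀ (N : ℕ) (l : List V) (x : V), IsP G (l ++ [x]) → ¬ NB G x → 2 * k ≤ l.length + 2 →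
      Fintype.card V ≤ l.length + N → False := by
    intro N
    induction N with
    | zero =>
      intro l x hP _ _ hc
      have := hP.1.length_le_card
      simp at this
      omega
    | succ N ih =>
      intro l x hP hx hl hc
      obtain ⟨l', x', h1, h2, h3⟩ := h.branch_step hk hP hx hl
      exact ih l' x' h1 h2 (by omega) (by omega)
  intro l x hP hx
  by_contra hcon
  exact key (Fintype.card V) l x hP hx (by omega) (by omega)

end Pool.Agent.Work.KZ
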