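import Pool.Agent.Work.MP_f0e709_co.T1
import Pool.Agent.Work.MP_f0e709_co.R2

/-! Unconditional form of (P) (helper14): `PFor` holds in every finite `P(k)`-graph with `k ≥ 3`. -/

set_option autoImplicit false

namespace Pool.Agent.Work.KZ

variable {V : Type*} {G : SimpleGraph V} {k : ℕ}

/-- (P), unconditional -/
theorem PK.pfor_all [Fintype V] [DecidableEq V] [DecidableRel G.Adj] (h : PK G k) (hk : 3 ≤ k) : PFor G k :=
  h.pfor hk (h.circ hk) (h.branchEnd hk)

end Pool.Agent.Work.KZ
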