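import Pool.Agent.Work.MP_f0e709_co.T1b

/-! Maximum degree four, part 1 (helper75): the handcuff rule with a tail, two disjoint legs from an odd cycle off a
`(k+1)`-cycle `z` to `z`, and: two odd cycles in different components off `z` are not attached to vertices of `z` which
are consecutive branch vertices at distance at most two. -/

set_option autoImplicit false

namespace Pool.Agent.Work.KZ

variable {V : Type*} {G : SimpleGraph V} {k : ℕ}

/-- handcuff rule with a tail at the smaller cycle, not at the foot -/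
theorem PK.dumb_tail (h : PK G k) {A M1 D1 D2 T : List V} {q1 d : V} {r1 r2 : ℕ}
    (hd : Dumb G A (q1 :: M1) (D1 ++ d :: D2)) (hDl : D1.length + D2.length + 1 = 2 * r1)
    (hAl : A.length = 2 * r2) (h12 : r1 ≤ r2) (hT : IsP G (T ++ [d]))
    (hTX : ∀ v ∈ T, v ∉ A ++ (q1 :: M1) ++ (D1 ++ d :: D2))
    (hTl : T.length + (r1 + r2) + 1 + M1.length = k) : False := by
  have hcl : IsCyc G (q1 :: A) := hd.cyc_left
  have hin1 : IsP G (d :: (D1.reverse ++ (M1.reverse ++ [q1]))) := by
    have h2 : IsP G ((q1 :: M1) ++ D1 ++ [d]) := hd.1.of_infix ⟨A, D2, by simp⟩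
    have := h2.reverse
    simpa using this
  have hin2 : IsP G (d :: (D2 ++ (M1.reverse ++ [q1]))) := by
    have h1 : Dumb G A (q1 :: M1) (D2.reverse ++ d :: D1.reverse) := by
      have := hd.flip
      simpa using this
    have h2 : IsP G ((q1 :: M1) ++ D2.reverse ++ [d]) := h1.1.of_infix ⟨A, D1.reverse, by simp⟩
    have := h2.reverse
    simpa using this
  have hp1 := hT.glue hin1 (by
    intro v hv hv'
    refine hTX v hv' ?_
    simp at hv ⊢
    tauto)
  have hp2 := hT.glue hin2 (by
    intro v hv hv'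
    refine hTX v hv' ?_
    simp at hv ⊢
    tauto)
  have hnd := hd.1.1
  rw [List.append_assoc, List.nodup_append'] at hnd
  refine h.fig8_base (x := q1) (z := d) (T := T) (j := D1.reverse ++ M1.reverse) (j' := D2 ++ M1.reverse)
    (w := A) (t := r1 + r2 - D1.length) (t' := r1 + r2 - D2.length) (by omega) ?_ ?_ hcl ?_ ?_ ?_ ?_ ?_ ?_ ?_ ?_
  · simpa using hp1
  · simpa using hp2
  · intro v hv hv'
    rcases List.mem_append.1 hv' with h1 | h1
    · exact hTX v h1 (by simp [hv])
    · refine hnd.2.2 hv ?_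
      simp at h1 ⊢
      tauto
  · intro v hv hv'
    rcases List.mem_append.1 hv' with h1 | h1
    · exact hTX v h1 (by simp [hv])
    · refine hnd.2.2 hv ?_
      simp at h1 ⊢
      tauto
  · simp; omega
  · simp; omega
  · omega
  · omega
  · omega
  · simp; omega

/-- two disjoint legs from the odd cycle `x :: A1 ++ d :: A2` off `z` to `u` and to `z0 ≠ u` on `z`; all inner vertices
lie in the set `K` -/
structure Legs (G : SimpleGraph V) (z : List V) (K : V → Prop) (u x d z0 : V) (A1 A2 L t : List V) : Prop where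
  cyc : IsCyc G (x :: A1 ++ d :: A2)
  cK : ∀ v ∈ x :: A1 ++ d :: A2, K v
  odd : Odd (A1.length + A2.length)
  leg1 : IsP G (u :: L ++ [x])
  LK : ∀ v ∈ L, K v
  LA : ∀ v ∈ L, v ∉ x :: A1 ++ d :: A2
  leg2 : IsP G (d :: t ++ [z0])
  tK : ∀ v ∈ t, K v
  tA : ∀ v ∈ t, v ∉ x :: A1 ++ d :: A2
  Lt : L.Disjoint t
  hz0 : z0 ∈ z
  hzu : z0 ≠ u

theorem Legs.flip {z : List V} {K : V → Prop} {u x d z0 : V} {A1 A2 L t : List V}
    (h : Legs G z K u x d z0 A1 A2 L t) : Legs G z K u x d z0 A2.reverse A1.reverse L t where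
  cyc := h.cyc.flip
  cK := by
    intro v hv
    apply h.cK
    simp at hv ⊢
    tauto
  odd := by
    have := h.odd
    rw [List.length_reverse, List.length_reverse, add_comm]
    exact this
  leg1 := h.leg1
  LK := h.LK
  LA := by
    intro v hv hv'
    apply h.LA v hv
    simp at hv' ⊢
    tauto
  leg2 := h.leg2
  tK := h.tK
  tA := by
    intro v hv hv'
    apply h.tA v hv
    simp at hv' ⊢
    tauto
  Lt := h.Lt
  hz0 := h.hz0
  hzu := h.hzu

/-- a path which meets a cycle and a set `Z` contains a leg -/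
theorem leg_of_path {Z : V → Prop} {D F : List V} {z1 : V} (hF : IsP G (F ++ [z1]))
    (hFD : ∃ v ∈ F, v ∈ D) (hFZ : ∀ v ∈ F, ¬ Z v) :
    ∃ (D1 D2 t : List V) (d : V), D = D1 ++ d :: D2 ∧ IsP G (d :: t ++ [z1]) ∧
      (∀ v ∈ t, ¬ Z v ∧ v ∉ D) ∧ (∀ v ∈ d :: t, v ∈ F) := by
  obtain ⟨F1, d, t, rfl, hd1, ht⟩ := exists_last (fun v => v ∈ D) F hFD
  obtain ⟨D1, D2, hD⟩ := List.append_of_mem hd1
  refine ⟨D1, D2, t, d, hD, hF.of_suffix ⟨F1, by simp⟩, ?_, ?_⟩
  · intro v hv
    exact ⟨hFZ v (by simp [hv]), ht v hv⟩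
  · intro v hv
    simp only [List.mem_append]
    right; exact hv

/-- a cycle `q :: D` off the `(k+1)`-cycle `z` is joined to `z` from a vertex other than `q` -/
theorem PK.gate1 (h : PK G k) (hk : 3 ≤ k) {z : List V} (hz : IsCyc G z) (hzl : z.length = k + 1)
    {D : List V} {q : V} (hd : IsCyc G (q :: D)) (hX : ∀ v ∈ q :: D, v ∉ z) :
    ∃ (D1 D2 t : List V) (d z0 : V), D = D1 ++ d :: D2 ∧ IsP G (d :: t ++ [z0]) ∧ z0 ∈ z ∧
      (∀ v ∈ t, v ∉ z ∧ v ∉ q :: D) := by
  obtain ⟨u, v, D', hD⟩ : ∃ u v D', D = u :: v :: D' := by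
    have := hd.2.2
    rcases D with _ | ⟨u, _ | ⟨v, D'⟩⟩
    · simp at this
    · simp at this
    · exact ⟨u, v, D', rfl⟩
  have huD : u ∈ D := by rw [hD]; simp
  have hvD : v ∈ D := by rw [hD]; simp
  have hadj : G.Adj u v := by
    have h1 : IsP G (u :: v :: D') := by
      rw [← hD]; exact hd.isP.of_suffix ⟨[q], by simp⟩
    exact (isP_cons.1 h1).2.2 v (by simp)
  obtain ⟨w, hw, hwl, hwh, hwt⟩ := h.exists_cyc (by omega) hadj
  obtain ⟨a, b, -, ha, -, haw, -⟩ := h.two_le_inter hk hz hzl hw hwl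
  obtain ⟨F, z1, R, hw1, hz1, hF⟩ := exists_first (fun x => x ∈ z) w ⟨a, haw, ha⟩
  obtain ⟨R', z2, B, hw2, hz2, hB⟩ := exists_last (fun x => x ∈ z) w ⟨a, haw, ha⟩
  have hvz : v ∉ z := hX v (by simp [hvD])
  have huz : u ∉ z := hX u (by simp [huD])
  have hFn : F ≠ [] := by
    intro h0
    subst h0
    rw [hw1] at hwh
    simp at hwh
    subst hwh
    exact hvz hz1
  have hBn : B ≠ [] := by
    intro h0
    subst h0
    rw [hw2] at hwt
    simp at hwt
    subst hwt
    exact huz hz2
  have hFh : F.head? = some v := by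
    rw [hw1, List.head?_append_of_ne_nil _ hFn] at hwh
    exact hwh
  have hBt : B.getLast? = some u := by
    rw [hw2, show R' ++ z2 :: B = (R' ++ [z2]) ++ B by simp, List.getLast?_append_of_ne_nil _ hBn] at hwt
    exact hwt
  have hFB : F.Disjoint B := by
    have hlen : F.length ≤ R'.length := by
      by_contra hcon
      push Not at hcon
      have h1 : w[R'.length]? = some z2 := by rw [hw2]; simp
      have h2 : z2 ∈ F := by
        rw [hw1, List.getElem?_append_left hcon] at h1
        exact List.mem_of_getElem? h1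
      exact hF z2 h2 hz2
    have hFR : F <+: R' := by
      rw [List.prefix_iff_eq_take]
      have h1 : F = w.take F.length := by rw [hw1]; simp
      have h2 : w.take F.length = R'.take F.length := by rw [hw2, List.take_append_of_le_length hlen]
      rw [← h2, ← h1]
    have hnd := hw.isP.1
    rw [hw2, List.nodup_append'] at hnd
    intro x hx hx'
    exact hnd.2.2 (hFR.subset hx) (by simp [hx'])
  have key : ∀ (F : List V) (z1 : V), IsP G (F ++ [z1]) → (∃ v ∈ F, v ∈ D) → (∀ v ∈ F, v ∉ z) → z1 ∈ z →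
      q ∉ F → ∃ (D1 D2 t : List V) (d z0 : V), D = D1 ++ d :: D2 ∧ IsP G (d :: t ++ [z0]) ∧ z0 ∈ z ∧
      (∀ v ∈ t, v ∉ z ∧ v ∉ q :: D) := by
    intro F z1 h1 h2 h3 h4 h5
    obtain ⟨D1, D2, t, d, g1, g2, g3, g4⟩ := leg_of_path (Z := fun v => v ∈ z) h1 h2 h3
    refine ⟨D1, D2, t, d, z1, g1, g2, h4, ?_⟩
    intro v hv
    refine ⟨(g3 v hv).1, ?_⟩
    intro h6
    rcases List.mem_cons.1 h6 with h7 | h7
    · subst h7
      exact h5 (g4 v (by simp [hv]))
    · exact (g3 v hv).2 h7
  by_cases hqF : q ∈ F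
  · have hqB : q ∉ B := fun hqB => hFB hqF hqB
    refine key B.reverse z2 ?_ ⟨u, by simpa using List.mem_of_getLast? hBt, huD⟩ (fun v hv => hB v (by simpa using hv))
      hz2 (by simpa using hqB)
    have h1 : IsP G (z2 :: B) := hw.isP.of_suffix ⟨R', by rw [hw2]⟩
    have := h1.reverse
    simpa using this
  · refine key F z1 ?_ ⟨v, List.mem_of_mem_head? hFh, hvD⟩ hF hz1 hqF
    exact hw.isP.of_prefix ⟨R, by rw [hw1]; simp⟩

theorem Conn.right {S : V → Prop} {x y : V} (h : Conn G S x y) : S y := by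
  obtain ⟨l, h1, h2, h3, h4⟩ := h
  exact h4 y (List.mem_of_getLast? h3)

/-- two disjoint legs -/
theorem PK.two_legs (h : PK G k) (hk : 3 ≤ k) {z : List V} (hz : IsCyc G z) (hzl : z.length = k + 1)
    (hne : ∀ (Y : List V) (r : ℕ), IsCyc G Y → Y.length = 2 * r → 2 ≤ r →
      ∃ a b, a ≠ b ∧ a ∈ Y ∧ b ∈ Y ∧ a ∈ z ∧ b ∈ z)
    {u y : V} (hu : u ∈ z) (huy : G.Adj u y) (hy : y ∉ z) {O : List V} (hO : IsCyc G O)
    (hOy : ∀ v ∈ O, Conn G (fun v => v ∉ z) y v) :
    ∃ x d z0 A1 A2 L t, Legs G z (fun v => Conn G (fun v => v ∉ z) y v) u x d z0 A1 A2 L t := by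
  obtain ⟨o, ho⟩ := List.exists_mem_of_ne_nil O hO.ne_nil
  obtain ⟨l, hl, hlh, hlt, hlz⟩ := hOy o ho
  have hol : o ∈ l := List.mem_of_getLast? hlt
  have hyl : y ∈ l := List.mem_of_mem_head? (by rw [hlh]; rfl)
  obtain ⟨L, x, l2, rfl, hx, hL⟩ := exists_first (fun v => v ∈ O) l ⟨o, hol, ho⟩
  obtain ⟨D, hD, hDp⟩ := hO.rot_to hx
  have hDK : ∀ v ∈ x :: D, Conn G (fun v => v ∉ z) y v := fun v hv => hOy v (hDp.mem_iff.1 hv)
  have hDz : ∀ v ∈ x :: D, v ∉ z := fun v hv => (hDK v hv).right
  have hLO : ∀ v ∈ L, v ∉ x :: D := fun v hv hv' => hL v hv (hDp.mem_iff.1 hv')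
  have hLK : ∀ v ∈ L, Conn G (fun v => v ∉ z) y v := fun v hv => conn_of_path hl hlz hyl (by simp [hv])
  have hLz : ∀ v ∈ L, v ∉ z := fun v hv => (hLK v hv).right
  have hleg1 : IsP G (u :: L ++ [x]) := by
    have h1 : IsP G (L ++ [x]) := hl.of_prefix ⟨l2, by simp⟩
    show IsP G (u :: (L ++ [x]))
    rw [isP_cons]
    refine ⟨?_, h1, ?_⟩
    · intro hu'
      rcases List.mem_append.1 hu' with h2 | h2
      · exact hLz u h2 hu
      · have : u = x := by simpa using h2
        subst this
        exact hDz u (by simp) hu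
    · intro v hv
      have : v = y := by
        cases L with
        | nil => simp at hlh hv; rw [← hv, hlh]
        | cons w L => simp at hlh hv; rw [← hv, hlh]
      subst this
      exact huy
  obtain ⟨D1, D2, t, d, z0, rfl, hleg2, hz0, ht⟩ := h.gate1 hk hz hzl hD hDz
  have hcyc : IsCyc G (x :: D1 ++ d :: D2) := by simpa using hD
  have hodd' : Odd (x :: D1 ++ d :: D2).length := by
    rcases Nat.even_or_odd' (x :: D1 ++ d :: D2).length with ⟨r, hr | hr⟩
    · exfalso
      have h3 := hcyc.2.2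
      obtain ⟨a, b, -, ha, -, haz, -⟩ := hne _ r hcyc hr (by omega)
      exact hDz a (by simpa using ha) haz
    · exact ⟨r, hr⟩
  have hodd : Odd (D1.length + D2.length) := by
    obtain ⟨r, hr⟩ := hodd'
    have h3 := hcyc.2.2
    simp at hr h3
    exact ⟨r - 1, by omega⟩
  have hxd : x ≠ d := by
    have := hD.isP.1
    intro h0
    subst h0
    simp at this
  have hdz : d ∉ z := hDz d (by simp)
  have htK : ∀ v ∈ t, Conn G (fun v => v ∉ z) y v := by
    intro v hv
    have h1 : IsP G (d :: t) := hleg2.of_prefix ⟨[z0], by simp⟩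
    have h2 : Conn G (fun v => v ∉ z) d v := by
      refine conn_of_path h1 ?_ (by simp) (by simp [hv])
      intro w hw
      rcases List.mem_cons.1 hw with h3 | h3
      · subst h3; exact hdz
      · exact (ht w h3).1
    exact (hDK d (by simp)).trans h2
  -- the legs are disjoint
  have hkey : ¬ ∃ w ∈ t ++ [z0], w ∈ u :: L := by
    intro hex
    obtain ⟨t1, w, t2, hts, hw, ht1⟩ := exists_first (fun v => v ∈ u :: L) (t ++ [z0]) hex
    obtain ⟨P1, P2, hP⟩ := List.append_of_mem hw
    have ht1t : ∀ v ∈ t1, v ∈ t := by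
      have h1 : t1 <+: t := by
        have h2 : t1 ++ w :: t2 = t ++ [z0] := hts.symm
        rcases List.eq_nil_or_concat t2 with h0 | ⟨t3, e, h0⟩
        · subst h0
          have := List.append_inj' h2 (by simp)
          rw [this.1]
        · rw [List.concat_eq_append] at h0
          subst h0
          have h3 : (t1 ++ w :: t3) ++ [e] = t ++ [z0] := by simpa using h2
          have := List.append_inj' h3 (by simp)
          rw [← this.1]
          exact ⟨w :: t3, rfl⟩
      exact fun v hv => h1.subset hv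
    have hP2L : ∀ v ∈ P2, v ∈ L := by
      intro v hv
      cases P1 with
      | nil =>
        simp at hP
        rw [hP.2]; exact hv
      | cons a P1 =>
        simp at hP
        rw [hP.2]; simp [hv]
    have hseg : IsP G (w :: P2 ++ [x]) := by
      refine hleg1.of_suffix ⟨P1, ?_⟩
      rw [hP]
      simp
    have hseg2 : IsP G (d :: t1 ++ [w]) := by
      refine hleg2.of_prefix ⟨t2, ?_⟩
      have : d :: t ++ [z0] = d :: (t1 ++ w :: t2) := by rw [← hts]; simp
      rw [this]
      simp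
    have hear : IsP G ((d :: t1) ++ w :: (P2 ++ [x])) := by
      refine hseg2.glue (by simpa using hseg) ?_
      intro v hv hv'
      rcases List.mem_append.1 hv with h1 | h1
      · rcases List.mem_cons.1 hv' with h2 | h2
        · subst h2
          exact hLO v (hP2L v h1) (by simp)
        · exact ht1 v h2 (by simp [hP2L v h1])
      · have h3 : v = x := by simpa using h1
        rcases List.mem_cons.1 hv' with h2 | h2
        · exact hxd (h3.symm.trans h2)
        · subst h3
          exact (ht v (ht1t v h2)).2 (by simp)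
    have hear' : IsP G (x :: (t1 ++ w :: P2).reverse ++ [d]) := by
      have := hear.reverse
      simpa using this
    have hdis : ∀ v ∈ (t1 ++ w :: P2).reverse, v ∉ (x :: D1 ++ d :: D2) := by
      intro v hv hv'
      have hv2 : v ∈ x :: (D1 ++ d :: D2) := by simpa using hv'
      rw [List.mem_reverse] at hv
      rcases List.mem_append.1 hv with h1 | h1
      · exact (ht v (ht1t v h1)).2 hv2
      · rcases List.mem_cons.1 h1 with h3 | h3
        · subst h3
          rcases List.mem_cons.1 hw with h4 | h4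
          · subst h4
            exact hDz v hv2 hu
          · exact hLO v h4 hv2
        · exact hLO v (hP2L v h3) hv2
    obtain ⟨Y, r, hY, hYl, hr2, -, hYm⟩ := hcyc.even_of_ear hear' hdis (by simp) hodd'
    obtain ⟨a, b, hab, ha, hb, haz, hbz⟩ := hne Y r hY hYl hr2
    have hall : ∀ v ∈ Y, v ∈ z → v = w := by
      intro v hv hvz
      rcases hYm v hv with h1 | h1
      · exact absurd hvz (hDz v (by simpa using h1))
      · rw [List.mem_reverse] at h1
        rcases List.mem_append.1 h1 with h2 | h2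
        · exact absurd hvz (ht v (ht1t v h2)).1
        · rcases List.mem_cons.1 h2 with h3 | h3
          · exact h3
          · exact absurd hvz (hLz v (hP2L v h3))
    exact hab ((hall a ha haz).trans (hall b hb hbz).symm)
  refine ⟨x, d, z0, D1, D2, L, t, hcyc, ?_, hodd, hleg1, hLK, ?_, hleg2, htK, ?_, ?_, hz0, ?_⟩
  · intro v hv
    exact hDK v (by simpa using hv)
  · intro v hv hv'
    exact hLO v hv (by simpa using hv')
  · intro v hv hv'
    exact (ht v hv).2 (by simpa using hv')
  · intro v hv hv'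
    exact hkey ⟨v, by simp [hv'], by simp [hv]⟩
  · intro h0
    exact hkey ⟨z0, by simp, by simp [h0]⟩

end Pool.Agent.Work.KZ
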