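import Pool.Agent.Work.MP_f0e709_co.DF1

/-! Maximum degree four, part 1b (helper75): two odd cycles in different components off a `(k+1)`-cycle are not
attached to two vertices of the cycle at distance at most two which have only non-branch vertices between them. -/

set_option autoImplicit false

namespace Pool.Agent.Work.KZ

variable {V : Type*} {G : SimpleGraph V} {k : ℕ}

theorem PK.apart_core (h : PK G k) (hR1 : Circ G k) {z W1 W2 : List V} {K K' : V → Prop}
    {u u' x d z0 x' d' z0' : V} {A1 A2 L t A1' A2' L' t' : List V}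
    (hP : IsP G (u :: W1 ++ z0 :: W2)) (hPz : ∀ v ∈ u :: W1 ++ z0 :: W2, v ∈ z)
    (hPl : k ≤ W1.length + W2.length + 2) (hu' : (z0 :: W2).getLast? = some u')
    (H : Legs G z K u x d z0 A1 A2 L t) (H' : Legs G z K' u' x' d' z0' A1' A2' L' t')
    (hK : ∀ v, K v → v ∉ z) (hK' : ∀ v, K' v → v ∉ z) (hKK : ∀ v, K v → ¬ K' v)
    (hle : A1.length + A2.length ≤ A1'.length + A2'.length)
    (hpar : Even (A1.length + t.length + W1.length + L.length)) : False := by
  obtain ⟨S, hS⟩ : ∃ S, z0 :: W2 = S ++ [u'] := by
    obtain ⟨ys, hys⟩ := List.getLast?_eq_some_iff.1 hu'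
    exact ⟨ys, hys⟩
  have huz : u ∈ z := hPz u (by simp)
  have hu'z : u' ∈ z := hPz u' (by
    have : u' ∈ z0 :: W2 := by rw [hS]; simp
    simp only [List.mem_append]; right; exact this)
  have hz0z : z0 ∈ z := H.hz0
  have hWz : ∀ v ∈ W2, v ∈ z := fun v hv => hPz v (by simp [hv])
  have hW1z : ∀ v ∈ W1, v ∈ z := fun v hv => hPz v (by simp [hv])
  -- the path into the second cycle
  have hQ : IsP G (u' :: L' ++ x' :: (A1' ++ d' :: A2')) := by
    refine H'.leg1.glue (by simpa using H'.cyc.isP) ?_
    intro v hv hv'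
    have hv2 : v ∈ x' :: A1' ++ d' :: A2' := by simpa using Or.inr hv
    rcases List.mem_cons.1 hv' with h1 | h1
    · subst h1
      exact hK' v (H'.cK v hv2) hu'z
    · exact H'.LA v h1 hv2
  have hQK : ∀ v ∈ L' ++ x' :: (A1' ++ d' :: A2'), K' v := by
    intro v hv
    rcases List.mem_append.1 hv with h1 | h1
    · exact H'.LK v h1
    · exact H'.cK v (by simpa using h1)
  have hT1 : IsP G (z0 :: (W2 ++ (L' ++ x' :: (A1' ++ d' :: A2')))) := by
    have h1 : IsP G (S ++ [u']) := by rw [← hS]; exact hP.right
    have h2 := h1.glue (t := L' ++ x' :: (A1' ++ d' :: A2')) (by simpa using hQ) (by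
      intro v hv hv'
      refine hK' v (hQK v hv) ?_
      have : v ∈ z0 :: W2 := by rw [hS]; simp [hv']
      exact hPz v (by simp only [List.mem_append]; right; exact this))
    have h3 : S ++ u' :: (L' ++ x' :: (A1' ++ d' :: A2')) = (S ++ [u']) ++ (L' ++ x' :: (A1' ++ d' :: A2')) := by
      simp
    rw [h3, ← hS] at h2
    simpa using h2
  -- the even cycle
  have p1 : IsP G ((x :: A1) ++ d :: t) := by
    have h1 : IsP G (x :: A1 ++ [d]) := H.cyc.isP.of_prefix ⟨A2, by simp⟩
    refine h1.glue (H.leg2.of_prefix ⟨[z0], by simp⟩) ?_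
    intro v hv hv'
    exact H.tA v hv (by simp at hv' ⊢; tauto)
  have p2 : IsP G ((u :: L) ++ x :: (A1 ++ d :: t)) := by
    refine H.leg1.glue (by simpa using p1) ?_
    intro v hv hv'
    have hvK : K v := by
      rcases List.mem_append.1 hv with h1 | h1
      · exact H.cK v (by simp [h1])
      · rcases List.mem_cons.1 h1 with h2 | h2
        · subst h2; exact H.cK v (by simp)
        · exact H.tK v h2
    rcases List.mem_cons.1 hv' with h1 | h1
    · subst h1; exact hK v hvK huz
    · rcases List.mem_append.1 hv with h2 | h2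
      · exact H.LA v h1 (by simp [h2])
      · rcases List.mem_cons.1 h2 with h3 | h3
        · subst h3; exact H.LA v h1 (by simp)
        · exact H.Lt h1 h3
  have hYK : ∀ v ∈ L ++ x :: (A1 ++ d :: t), K v := by
    intro v hv
    rcases List.mem_append.1 hv with h1 | h1
    · exact H.LK v h1
    · rcases List.mem_cons.1 h1 with h2 | h2
      · subst h2; exact H.cK v (by simp)
      · rcases List.mem_append.1 h2 with h3 | h3
        · exact H.cK v (by simp [h3])
        · rcases List.mem_cons.1 h3 with h4 | h4
          · subst h4; exact H.cK v (by simp)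
          · exact H.tK v h4
  have p3 : IsP G ((z0 :: W1.reverse) ++ u :: (L ++ x :: (A1 ++ d :: t))) := by
    have h1 : IsP G (u :: W1 ++ [z0]) := hP.of_prefix ⟨W2, by simp⟩
    have h2 : IsP G (z0 :: W1.reverse ++ [u]) := by
      have := h1.reverse
      simpa using this
    refine h2.glue (by simpa using p2) ?_
    intro v hv hv'
    refine hK v (hYK v hv) ?_
    rcases List.mem_cons.1 hv' with h3 | h3
    · subst h3; exact hz0z
    · exact hW1z v (by simpa using h3)
  have hY : IsCyc G (z0 :: (W1.reverse ++ u :: (L ++ x :: (A1 ++ d :: t)))) := by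
    refine ⟨by simpa using p3, ?_, by simp; omega⟩
    intro a ha b hb
    have hb' : b = z0 := by simpa using hb.symm
    subst hb'
    have h1 := (isP_concat.1 H.leg2).2.2 a ?_
    · exact h1
    · rw [show b :: (W1.reverse ++ u :: (L ++ x :: (A1 ++ d :: t)))
        = (b :: (W1.reverse ++ u :: (L ++ x :: A1))) ++ (d :: t) by simp,
        List.getLast?_append_of_ne_nil _ (by simp)] at ha
      exact ha
  obtain ⟨ρ, hρ⟩ := hpar
  have hYl : (z0 :: (W1.reverse ++ u :: (L ++ x :: (A1 ++ d :: t)))).length = 2 * (ρ + 2) := by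
    simp; omega
  have hYk : ρ + 2 ≤ k := by
    have := hR1 _ hY
    rw [hYl] at this
    omega
  have hndP := hP.1
  have c1 : (W2 ++ (L' ++ x' :: (A1' ++ d' :: A2'))).length < k - (ρ + 2) := by
    by_contra hcon
    push Not at hcon
    refine h.even_rule (r := ρ + 2) (by omega) hYk hY hYl
      (t := (W2 ++ (L' ++ x' :: (A1' ++ d' :: A2'))).take (k - (ρ + 2))) ?_ ?_ ?_
    · have := hT1.take (k - (ρ + 2) + 1)
      simpa using this
    · intro v hv hv'
      have hv2 := List.mem_of_mem_take hv
      rcases List.mem_append.1 hv2 with h1 | h1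
      · -- `v ∈ W2`
        rcases List.mem_append.1 hv' with h2 | h2
        · rw [show u :: W1 ++ z0 :: W2 = (u :: W1 ++ [z0]) ++ W2 by simp, List.nodup_append'] at hndP
          exact dj hndP.2.2 (a := v) (by simp at h2 ⊢; tauto) h1
        · rcases List.mem_cons.1 h2 with h3 | h3
          · rw [show u :: W1 ++ z0 :: W2 = (u :: W1 ++ [z0]) ++ W2 by simp, List.nodup_append'] at hndP
            exact dj hndP.2.2 (a := v) (by simp [h3]) h1
          · exact hK v (hYK v h3) (hWz v h1)
      · have hv3 := hQK v h1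
        rcases List.mem_append.1 hv' with h2 | h2
        · exact hK' v hv3 (hW1z v (by simpa using h2))
        · rcases List.mem_cons.1 h2 with h3 | h3
          · subst h3; exact hK' v hv3 huz
          · exact hKK v (hYK v h3) hv3
    · rw [List.length_take]
      omega
  -- the handcuff
  obtain ⟨r1, hr1⟩ := H.odd
  obtain ⟨r2, hr2⟩ := H'.odd
  have hcyc2 : IsP G (d :: (A2 ++ x :: A1)) := by
    have h1 : IsCyc G ((x :: A1) ++ (d :: A2)) := by simpa using H.cyc
    have := h1.rot.isP
    simpa using this
  have q1 : IsP G ((z0 :: t.reverse) ++ d :: (A2 ++ x :: A1)) := by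
    have h1 : IsP G (z0 :: t.reverse ++ [d]) := by
      have := H.leg2.reverse
      simpa using this
    refine h1.glue hcyc2 ?_
    intro v hv hv'
    have hv2 : v ∈ x :: A1 ++ d :: A2 := by simp at hv ⊢; tauto
    rcases List.mem_cons.1 hv' with h2 | h2
    · subst h2; exact hK v (H.cK v hv2) hz0z
    · exact H.tA v (by simpa using h2) hv2
  have hDK : ∀ v ∈ t.reverse ++ d :: (A2 ++ x :: A1), K v := by
    intro v hv
    rcases List.mem_append.1 hv with h1 | h1
    · exact H.tK v (by simpa using h1)
    · exact H.cK v (by simp at h1 ⊢; tauto)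
  have q2 : IsP G (((A1' ++ d' :: A2').reverse ++ x' :: (L'.reverse ++ W2.reverse)) ++
      z0 :: (t.reverse ++ d :: (A2 ++ x :: A1))) := by
    refine IsP.glue ?_ (by simpa using q1) ?_
    · have := hT1.reverse
      simpa using this
    · intro v hv hv'
      have hvK := hDK v hv
      rcases List.mem_append.1 hv' with h1 | h1
      · exact hKK v hvK (hQK v (by simp at h1 ⊢; tauto))
      · rcases List.mem_cons.1 h1 with h2 | h2
        · subst h2
          exact hKK v hvK (hQK v (by simp))
        · rcases List.mem_append.1 h2 with h3 | h3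
          · exact hKK v hvK (hQK v (by simp at h3 ⊢; tauto))
          · exact hK v hvK (hWz v (by simpa using h3))
  have hdumb : Dumb G (A1' ++ d' :: A2').reverse (x' :: (L'.reverse ++ (W2.reverse ++ z0 :: (t.reverse ++ [d]))))
      (A2 ++ x :: A1) := by
    refine ⟨by simpa using q2, ?_, ?_, by simp, ?_, ?_⟩
    · have := H'.cyc.2.2
      simp at this ⊢
      omega
    · have := H.cyc.2.2
      simp at this ⊢
      omega
    · intro a ha b hb
      have hb' : b = x' := by simpa using hb.symm
      subst hb'
      rw [List.head?_reverse] at ha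
      refine H'.cyc.2.1 a ?_ b (by simp)
      rw [show b :: A1' ++ d' :: A2' = [b] ++ (A1' ++ d' :: A2') by simp,
        List.getLast?_append_of_ne_nil _ (by simp)]
      exact ha
    · intro e he b hb
      have hb' : b = d := by
        rw [show x' :: (L'.reverse ++ (W2.reverse ++ z0 :: (t.reverse ++ [d])))
          = (x' :: (L'.reverse ++ (W2.reverse ++ z0 :: t.reverse))) ++ [d] by simp, List.getLast?_concat] at hb
        simpa using hb.symm
      subst hb'
      have h1 : IsP G (x :: A1 ++ [b]) := H.cyc.isP.of_prefix ⟨A2, by simp⟩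
      rw [List.getLast?_append_of_ne_nil _ (by simp)] at he
      exact (isP_concat.1 h1).2.2 e he
  have c2 : k < (r1 + 1 + (r2 + 1)) + 1 + (L'.reverse ++ (W2.reverse ++ z0 :: (t.reverse ++ [d]))).length := by
    by_contra hcon
    push Not at hcon
    have hL0 : IsP G ((W1.reverse ++ u :: L) ++ [x]) := by
      have h1 : IsP G (W1.reverse ++ [u]) := by
        have h2 : IsP G (u :: W1) := hP.left
        have := h2.reverse
        simpa using this
      have h3 := h1.glue (t := L ++ [x]) (by simpa using H.leg1) (by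
        intro v hv hv'
        refine hK v (hYK v ?_) (hW1z v (by simpa using hv'))
        simp at hv ⊢; tauto)
      simpa using h3
    obtain ⟨T, hTs, hTl⟩ : ∃ T, T <:+ (W1.reverse ++ u :: L) ∧
        T.length + (r1 + 1 + (r2 + 1)) + 1 + (L'.reverse ++ (W2.reverse ++ z0 :: (t.reverse ++ [d]))).length = k := by
      refine ⟨(W1.reverse ++ u :: L).drop ((W1.reverse ++ u :: L).length -
        (k - ((r1 + 1 + (r2 + 1)) + 1 + (L'.reverse ++ (W2.reverse ++ z0 :: (t.reverse ++ [d]))).length))),
        List.drop_suffix _ _, ?_⟩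
      rw [List.length_drop]
      simp only [List.length_append, List.length_reverse, List.length_cons, List.length_nil] at hcon ⊢
      omega
    have hT : IsP G (T ++ [x]) := by
      obtain ⟨S', hS'⟩ := hTs
      refine hL0.of_suffix ⟨S', ?_⟩
      rw [← hS']; simp
    refine h.dumb_tail hdumb (r1 := r1 + 1) (r2 := r2 + 1) (by omega) ?_ (by omega) hT ?_ hTl
    · simp; omega
    · intro v hv hv'
      have hv1 : v ∈ W1.reverse ++ u :: L := hTs.subset hv
      have hv2 : (K' v) ∨ v ∈ z0 :: W2 ∨ (v ∈ t ∨ v ∈ x :: A1 ++ d :: A2) := by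
        have h5 : v ∈ (L' ++ x' :: (A1' ++ d' :: A2')) ∨ v ∈ z0 :: W2 ∨ (v ∈ t ∨ v ∈ x :: A1 ++ d :: A2) := by
          simp at hv' ⊢
          tauto
        rcases h5 with h6 | h6
        · exact Or.inl (hQK v h6)
        · exact Or.inr h6
      have hv3 : v ∈ u :: W1 ∨ v ∈ L := by
        simp at hv1 ⊢
        tauto
      have hK2 : ∀ w, (w ∈ t ∨ w ∈ x :: A1 ++ d :: A2) → K w := by
        intro w hw
        rcases hw with h6 | h6
        · exact H.tK w h6
        · exact H.cK w h6
      rcases hv3 with h3 | h3
      · have hvz : v ∈ z := hPz v (by simp only [List.mem_append]; left; exact h3)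
        rcases hv2 with h4 | h4 | h4
        · exact hK' v h4 hvz
        · rw [List.nodup_append'] at hndP
          exact dj hndP.2.2 h3 h4
        · exact hK v (hK2 v h4) hvz
      · have hvK : K v := H.LK v h3
        rcases hv2 with h4 | h4 | h4 | h4
        · exact hKK v hvK h4
        · exact hK v hvK (hPz v (by simp only [List.mem_append]; right; exact h4))
        · exact H.Lt h3 h4
        · exact H.LA v h3 h4
  simp only [List.length_append, List.length_reverse, List.length_cons, List.length_nil] at c1 c2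
  omega

theorem PK.apart_half (h : PK G k) (hR1 : Circ G k) {z W1 W2 : List V} {K K' : V → Prop}
    {u u' x d z0 x' d' z0' : V} {A1 A2 L t A1' A2' L' t' : List V}
    (hP : IsP G (u :: W1 ++ z0 :: W2)) (hPz : ∀ v ∈ u :: W1 ++ z0 :: W2, v ∈ z)
    (hPl : k ≤ W1.length + W2.length + 2) (hu' : (z0 :: W2).getLast? = some u')
    (H : Legs G z K u x d z0 A1 A2 L t) (H' : Legs G z K' u' x' d' z0' A1' A2' L' t')
    (hK : ∀ v, K v → v ∉ z) (hK' : ∀ v, K' v → v ∉ z) (hKK : ∀ v, K v → ¬ K' v)
    (hle : A1.length + A2.length ≤ A1'.length + A2'.length) : False := by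
  rcases Nat.even_or_odd (A1.length + t.length + W1.length + L.length) with hpar | hpar
  · exact h.apart_core hR1 hP hPz hPl hu' H H' hK hK' hKK hle hpar
  · refine h.apart_core hR1 hP hPz hPl hu' H.flip H' hK hK' hKK ?_ ?_
    · simp; omega
    · obtain ⟨r, hr⟩ := H.odd
      obtain ⟨s, hs⟩ := hpar
      rw [List.length_reverse, Nat.even_iff]
      omega

end Pool.Agent.Work.KZ
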