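import Pool.Agent.Work.MP_f0e709_co.T3c

/-! Part (3) of the theorem on long even cycles: the statement. -/

set_option autoImplicit false

namespace Pool.Agent.Work.KZ

variable {V : Type*} {G : SimpleGraph V} {k : ℕ}

/-- a branch vertex of a `P(k)`-graph has two neighbours besides any two given ones -/
theorem PK.two_more (h : PK G k) (hk : 3 ≤ k) {x f1 f3 : V} (hx : ¬ NB G x) (a1 : G.Adj x f1)
    (a3 : G.Adj x f3) (h13 : f1 ≠ f3) :
    ∃ n1 n2, G.Adj x n1 ∧ G.Adj x n2 ∧ n1 ≠ n2 ∧ n1 ≠ f1 ∧ n1 ≠ f3 ∧ n2 ≠ f1 ∧ n2 ≠ f3 := by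
  obtain ⟨n1, b1, c1, c3⟩ : ∃ n1, G.Adj x n1 ∧ n1 ≠ f1 ∧ n1 ≠ f3 := by
    by_contra hcon
    push Not at hcon
    apply hx
    intro a b c ha hb hc
    have key : ∀ u, G.Adj x u → u = f1 ∨ u = f3 := by
      intro u hu
      by_cases h1 : u = f1
      · exact Or.inl h1
      · exact Or.inr (hcon u hu h1)
    rcases key a ha with rfl | rfl <;> rcases key b hb with rfl | rfl <;>
      rcases key c hc with rfl | rfl <;> simp
  obtain ⟨p, hp⟩ := h.partner_exists hk a1
  by_cases hp3 : p = f3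
  · subst hp3
    obtain ⟨q, hq⟩ := h.partner_exists hk b1
    refine ⟨n1, q, b1, hq.adj_right, hq.ne, c1, c3, ?_, ?_⟩
    · rintro rfl
      exact c3 (h.partner_unique hk hq.symm hp)
    · rintro rfl
      exact c1 (h.partner_unique hk hq.symm hp.symm)
  · by_cases hp1 : p = n1
    · subst hp1
      obtain ⟨q, hq⟩ := h.partner_exists hk a3
      refine ⟨p, q, b1, hq.adj_right, ?_, c1, c3, ?_, hq.ne.symm⟩
      · rintro rfl
        exact h13 (h.partner_unique hk hp.symm hq.symm)
      · rintro rfl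
        exact c3 (h.partner_unique hk hp hq.symm)
    · exact ⟨n1, p, b1, hp.adj_right, fun h => hp1 h.symm, c1, c3, hp.ne.symm, hp3⟩

/-- a good branch vertex does not exist -/
theorem PK.no_good {r : ℕ} (h : PK G k) (hk : 3 ≤ k) (hrk : r ≤ k) (hrk2 : k + 1 ≤ 2 * r)
    (hdeg : ∀ Z : List V, IsCyc G Z → Z.length = 2 * r → ∀ w, w ∉ Z → NB G w)
    (hodd : ∀ (u v : V) (a b m : List V), IsCyc G (u :: a ++ v :: b) → (u :: a ++ v :: b).length = 2 * r →
      IsP G (u :: m ++ [v]) → (∀ x ∈ m, x ∉ u :: a ++ v :: b) → (m = [] → a ≠ [] ∧ b ≠ []) →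
      Odd (m.length + a.length))
    {x : V} {c : List V} (hZ : IsCyc G (x :: c)) (hZl : (x :: c).length = 2 * r) (hx : ¬ NB G x)
    (hg : Good G x c) : False := by
  have hlen : 2 ≤ c.length := by
    have := hZ.2.2
    simp at this; omega
  obtain ⟨f1, c', rfl⟩ : ∃ f1 c', c = f1 :: c' := by
    cases c with
    | nil => simp at hlen
    | cons a c => exact ⟨a, c, rfl⟩
  obtain ⟨c0, f3, hc0⟩ : ∃ c0 f3, f1 :: c' = c0 ++ [f3] := by
    rcases List.eq_nil_or_concat (f1 :: c') with h0 | ⟨l, b, h0⟩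
    · simp at h0
    · exact ⟨l, b, by simpa using h0⟩
  have hf1 : (f1 :: c').head? = some f1 := rfl
  have hf3 : (f1 :: c').getLast? = some f3 := by rw [hc0]; exact List.getLast?_concat
  have af1 : G.Adj x f1 := (isP_cons.1 hZ.isP).2.2 f1 (by simp)
  have af3 : G.Adj x f3 := by
    have h1 := hZ.cons_reverse
    exact (isP_cons.1 h1.isP).2.2 f3 (by rw [List.head?_reverse, hf3]; rfl)
  have h13 : f1 ≠ f3 := by
    rintro rfl
    have hnd := hZ.isP.1
    rw [hc0] at hnd
    cases c0 with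
    | nil =>
      have h0 := congrArg List.length hc0
      rw [h0] at hlen
      simp at hlen
    | cons a c0 =>
      simp at hc0
      rw [← hc0.1] at hnd
      simp at hnd
  generalize hcc : f1 :: c' = c at *
  obtain ⟨n1, n2, an1, an2, n12, n11, n13, n21, n23⟩ := h.two_more hk hx af1 af3 h13
  -- reversed cycle
  have hZr : IsCyc G (x :: c.reverse) := hZ.cons_reverse
  have hZrl : (x :: c.reverse).length = 2 * r := by rw [← hZl]; simp
  -- ears and their types
  have ear := fun (n : V) (an : G.Adj x n) (h1 : n ≠ f1) (h3 : n ≠ f3) =>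
    h.ear_at hk hrk hZ hZl an hf1 hf3 h1 h3
  have left2 : ∀ (v v' : V) (a b m a' b' m' : List V), c = a ++ v :: b → IsP G (x :: m ++ [v]) →
      (∀ w ∈ m, w ∉ x :: c) → (m = [] → a ≠ [] ∧ b ≠ []) → (∀ w ∈ a, NB G w) →
      c = a' ++ v' :: b' → IsP G (x :: m' ++ [v']) →
      (∀ w ∈ m', w ∉ x :: c) → (m' = [] → a' ≠ [] ∧ b' ≠ []) → (∀ w ∈ a', NB G w) →
      (m ++ [v]).head? ≠ (m' ++ [v']).head? → False := by
    intro v v' a b m a' b' m' hc hm hmZ hne hN hc' hm' hmZ' hne' hN' hh
    exact h.two_left hk hrk2 hdeg hodd hZ hZl hc hm hmZ hne hN hc' hm' hmZ' hne' hN' hh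
  have right2 : ∀ (v v' : V) (a b m a' b' m' : List V), c = a ++ v :: b → IsP G (x :: m ++ [v]) →
      (∀ w ∈ m, w ∉ x :: c) → (m = [] → a ≠ [] ∧ b ≠ []) → (∀ w ∈ b, NB G w) →
      c = a' ++ v' :: b' → IsP G (x :: m' ++ [v']) →
      (∀ w ∈ m', w ∉ x :: c) → (m' = [] → a' ≠ [] ∧ b' ≠ []) → (∀ w ∈ b', NB G w) →
      (m ++ [v]).head? ≠ (m' ++ [v']).head? → False := by
    intro v v' a b m a' b' m' hc hm hmZ hne hN hc' hm' hmZ' hne' hN' hh
    refine h.two_left hk hrk2 hdeg hodd hZr hZrl (a := b.reverse) (b := a.reverse) (a' := b'.reverse)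
      (b' := a'.reverse) (by rw [hc]; simp) hm ?_ ?_ ?_ (by rw [hc']; simp) hm' ?_ ?_ ?_ hh
    · intro w hw hw'; exact hmZ w hw (by simpa using hw')
    · intro h0; have := hne h0; exact ⟨by simpa using this.2, by simpa using this.1⟩
    · intro w hw; exact hN w (by simpa using hw)
    · intro w hw hw'; exact hmZ' w hw (by simpa using hw')
    · intro h0; have := hne' h0; exact ⟨by simpa using this.2, by simpa using this.1⟩
    · intro w hw; exact hN' w (by simpa using hw)
  -- the main configuration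
  have main : ∀ (n1 n2 y z : V) (A B1 m1 A2 B m2 : List V), n1 ≠ n2 → n1 ≠ f1 → n1 ≠ f3 → n2 ≠ f1 →
      n2 ≠ f3 → G.Adj x n1 → G.Adj x n2 → c = A ++ y :: B1 →
      IsP G (x :: m1 ++ [y]) → (∀ w ∈ m1, w ∉ x :: c) → (m1 = [] → A ≠ [] ∧ B1 ≠ []) →
      (m1 ++ [y]).head? = some n1 → (∀ w ∈ A, NB G w) →
      c = A2 ++ z :: B → IsP G (x :: m2 ++ [z]) → (∀ w ∈ m2, w ∉ x :: c) →
      (m2 = [] → A2 ≠ [] ∧ B ≠ []) → (m2 ++ [z]).head? = some n2 → (∀ w ∈ B, NB G w) → False := by
    intro n1 n2 y z A B1 m1 A2 B m2 n12 n11 n13 n21 n23 an1 an2 hc hm1 hm1Z hne1 hh1 hA hc2 hm2 hm2Z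
      hne2 hh2 hB
    have hnd : c.Nodup := (List.nodup_cons.1 hZ.isP.1).2
    have hxc : x ∉ c := (List.nodup_cons.1 hZ.isP.1).1
    by_cases hyz : y = z
    · subst hyz
      have hnd1 := hnd
      have hnd2 := hnd
      rw [hc, List.nodup_append'] at hnd1
      rw [hc2, List.nodup_append'] at hnd2
      have e := split_unique (hc.symm.trans hc2) (fun hy => hnd1.2.2 hy (by simp))
        (fun hy => hnd2.2.2 hy (by simp))
      obtain ⟨e1, e2⟩ := e
      subst e1
      exact left2 y y A B1 m1 A B m2 hc hm1 hm1Z hne1 hA hc2 hm2 hm2Z hne2 hA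
        (by rw [hh1, hh2]; intro he; exact n12 (Option.some.inj he))
    · have hyN : ¬ NB G y := by
        have h1 : IsCyc G (y :: B1 ++ x :: A) := by
          have h2 := hZ
          rw [hc] at h2
          have : IsCyc G ((x :: A) ++ (y :: B1)) := by simpa using h2
          exact this.rot
        refine not_NB_of_ear (e := m1.reverse) h1 ?_ ?_ ?_
        · simpa using hm1.reverse
        · intro w hw hw'
          refine hm1Z w (by simpa using hw) ?_
          rw [hc]
          simp only [List.cons_append, List.mem_cons, List.mem_append] at hw' ⊢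
          tauto
        · intro h0
          have := hne1 (by simpa using h0)
          exact ⟨this.2, this.1⟩
      have hyA2 : y ∈ A2 := by
        have h1 : y ∈ A2 ++ z :: B := by rw [← hc2, hc]; simp
        simp only [List.mem_append, List.mem_cons] at h1
        rcases h1 with h2 | h2 | h2
        · exact h2
        · exact absurd h2 hyz
        · exact absurd (hB y h2) hyN
      obtain ⟨P, M, hPM⟩ := List.append_of_mem hyA2
      subst hPM
      have hnd1 := hnd
      have hnd2 := hnd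
      rw [hc, List.nodup_append'] at hnd1
      have hc2' : c = P ++ y :: (M ++ z :: B) := by rw [hc2]; simp
      rw [hc2', List.nodup_append'] at hnd2
      obtain ⟨e1, e2⟩ := split_unique (hc.symm.trans hc2') (fun hy => hnd1.2.2 hy (by simp))
        (fun hy => hnd2.2.2 hy (by simp))
      subst e1
      subst e2
      have hndM := hnd2.2.1
      -- all neighbours
      have all : ∀ n, G.Adj x n → n = f1 ∨ n = f3 ∨ n = n1 ∨ n = n2 := by
        intro n hn
        by_contra hcon
        push Not at hcon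
        obtain ⟨a, b, m, v, e1, e2, e3, e4, e5⟩ := ear n hn hcon.1 hcon.2.1
        rcases hg a b m v e1 e2 e3 e4 with h1 | h1
        · refine left2 v y a b m A _ m1 e1 e2 e3 e4 h1 hc hm1 hm1Z hne1 hA ?_
          rw [e5, hh1]; intro he; exact hcon.2.2.1 (Option.some.inj he)
        · refine right2 v z a b m _ B m2 e1 e2 e3 e4 h1 hc2 hm2 hm2Z hne2 hB ?_
          rw [e5, hh2]; intro he; exact hcon.2.2.2 (Option.some.inj he)
      have hN1 : ∀ w ∈ m1, NB G w := fun w hw => hdeg _ hZ hZl w (hm1Z w hw)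
      have hN2 : ∀ w ∈ m2, NB G w := fun w hw => hdeg _ hZ hZl w (hm2Z w hw)
      have hyc : y ∈ c := by rw [hc]; simp
      have hzc : z ∈ c := by rw [hc2]; simp
      have F : Four G x y z A m1 B.reverse m2 f1 n1 f3 n2 := by
        refine ⟨?_, hm1, ?_, hm2, hA, hN1, ?_, hN2, ?_, ?_, ?_, ?_, ?_, ?_, hyz, ?_, ?_, ?_, ?_, ?_, hh1, ?_,
          hh2, n11.symm, h13, n21.symm, n13, n12, n23.symm⟩
        · have h2 := hZ.isP
          rw [hc] at h2
          exact h2.of_prefix ⟨M ++ z :: B, by simp⟩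
        · have h2 := hZr.isP
          rw [hc2] at h2
          exact h2.of_prefix ⟨(A ++ y :: M).reverse, by simp⟩
        · intro w hw; exact hB w (by simpa using hw)
        · intro w hw hw'
          exact hm1Z w hw' (by rw [hc]; simp [hw])
        · intro w hw hw'
          exact hnd2.2.2 hw (by simp at hw' ⊢; tauto)
        · intro w hw hw'
          exact hm2Z w hw' (by rw [hc]; simp [hw])
        · intro w hw hw'
          exact hm1Z w hw (by rw [hc]; simp at hw' ⊢; tauto)
        · intro w hw hw'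
          rcases ear_eq (S := fun u => u ∈ x :: c) hm1 hm2 (by simp) (by simp [hyc]) (by simp)
            (by simp [hzc]) hm1Z hm2Z hN1 hw hw' with ⟨_, _, h3⟩ | ⟨_, h3, _⟩
          · exact hyz h3
          · exact hxc (h3 ▸ hzc)
        · intro w hw hw'
          exact hm2Z w hw' (by rw [hc]; simp at hw ⊢; tauto)
        · intro hy
          exact (List.nodup_cons.1 hndM).1 (by simp at hy ⊢; tauto)
        · intro hy; exact hm2Z y hy (by simp [hyc])
        · intro hz; exact hnd2.2.2 hz (by simp)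
        · intro hz; exact hm1Z z hz (by simp [hzc])
        · rw [← hf1, hc]; cases A <;> simp
        · rw [← hf3, hc2, List.getLast?_append_of_ne_nil _ (by simp), ← List.head?_reverse]; simp
      have o1 : Odd (A.length + m1.length) := by
        have := hodd x y A (M ++ z :: B) m1 (by rw [hc] at hZ; simpa using hZ)
          (by rw [hc] at hZl; simpa using hZl) hm1
          (by intro w hw hw'; exact hm1Z w hw (by rw [hc]; simpa using hw')) hne1
        rw [add_comm]; exact this
      have o2 : Odd (B.reverse.length + m2.length) := by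
        have := hodd x z (A ++ y :: M) B m2 (by rw [hc2] at hZ; simpa using hZ)
          (by rw [hc2] at hZl; simpa using hZl) hm2
          (by intro w hw hw'; exact hm2Z w hw (by rw [hc2]; simpa using hw')) hne2
        obtain ⟨q, hq⟩ := this
        have hl := hZl
        rw [hc2] at hl
        simp at hl hq ⊢
        refine ⟨q + r - 1 - (A.length + (M.length + 1)), ?_⟩
        omega
      -- the matching
      obtain ⟨w, hw⟩ := h.partner_exists hk af1
      rcases all w hw.adj_right with rfl | rfl | rfl | rfl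
      · exact hw.ne rfl
      · -- f1 - f3
        obtain ⟨w', hw'⟩ := h.partner_exists hk an1
        rcases all w' hw'.adj_right with rfl | rfl | rfl | rfl
        · exact n13 (h.partner_unique hk hw'.symm hw)
        · exact n11 (h.partner_unique hk hw'.symm hw.symm)
        · exact hw'.ne rfl
        · exact F.cross h hk hw hw' o1 o2
      · -- f1 - n1
        obtain ⟨w', hw'⟩ := h.partner_exists hk af3
        rcases all w' hw'.adj_right with rfl | rfl | rfl | rfl
        · exact n13 (h.partner_unique hk hw hw'.symm)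
        · exact hw'.ne rfl
        · exact h13 (h.partner_unique hk hw.symm hw'.symm)
        · exact F.same h hk hw hw'
      · -- f1 - n2
        obtain ⟨w', hw'⟩ := h.partner_exists hk an1
        rcases all w' hw'.adj_right with rfl | rfl | rfl | rfl
        · exact n12 (h.partner_unique hk hw'.symm hw)
        · exact F.swapq.cross h hk hw hw' o1 (by rw [add_comm]; exact o2)
        · exact hw'.ne rfl
        · exact n11 (h.partner_unique hk hw'.symm hw.symm)
  obtain ⟨a1, b1, m1, v1, e11, e12, e13, e14, e15⟩ := ear n1 an1 n11 n13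
  obtain ⟨a2, b2, m2, v2, e21, e22, e23, e24, e25⟩ := ear n2 an2 n21 n23
  rcases hg a1 b1 m1 v1 e11 e12 e13 e14 with t1 | t1
  · rcases hg a2 b2 m2 v2 e21 e22 e23 e24 with t2 | t2
    · refine left2 v1 v2 a1 b1 m1 a2 b2 m2 e11 e12 e13 e14 t1 e21 e22 e23 e24 t2 ?_
      rw [e15, e25]; intro he; exact n12 (Option.some.inj he)
    · exact main n1 n2 v1 v2 a1 b1 m1 a2 b2 m2 n12 n11 n13 n21 n23 an1 an2 e11 e12 e13 e14 e15 t1
        e21 e22 e23 e24 e25 t2
  · rcases hg a2 b2 m2 v2 e21 e22 e23 e24 with t2 | t2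
    · exact main n2 n1 v2 v1 a2 b2 m2 a1 b1 m1 n12.symm n21 n23 n11 n13 an2 an1 e21 e22 e23 e24 e25 t2
        e11 e12 e13 e14 e15 t1
    · refine right2 v1 v2 a1 b1 m1 a2 b2 m2 e11 e12 e13 e14 t1 e21 e22 e23 e24 t2 ?_
      rw [e15, e25]; intro he; exact n12 (Option.some.inj he)

/-- **Part (3).** An even cycle `Z` with `k + 1 ≤ |Z| ≤ 2k` such that all branch vertices lie on `Z`, all ears are
of odd type and no two ears cross does not exist (the hypotheses are made for all cycles of this length). -/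
theorem PK.T3 {r : ℕ} (h : PK G k) (hk : 3 ≤ k) (hrk : r ≤ k) (hrk2 : k + 1 ≤ 2 * r)
    (hdeg : ∀ Z : List V, IsCyc G Z → Z.length = 2 * r → ∀ w, w ∉ Z → NB G w)
    (hodd : ∀ (u v : V) (a b m : List V), IsCyc G (u :: a ++ v :: b) → (u :: a ++ v :: b).length = 2 * r →
      IsP G (u :: m ++ [v]) → (∀ x ∈ m, x ∉ u :: a ++ v :: b) → (m = [] → a ≠ [] ∧ b ≠ []) →
      Odd (m.length + a.length))
    (hcross : ∀ (u1 u2 v1 v2 : V) (A B C D m1 m2 : List V),
      IsCyc G (u1 :: A ++ u2 :: B ++ v1 :: C ++ v2 :: D) →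
      (u1 :: A ++ u2 :: B ++ v1 :: C ++ v2 :: D).length = 2 * r →
      IsP G (u1 :: m1 ++ [v1]) → IsP G (u2 :: m2 ++ [v2]) →
      (∀ x ∈ m1, x ∉ u1 :: A ++ u2 :: B ++ v1 :: C ++ v2 :: D) →
      (∀ x ∈ m2, x ∉ u1 :: A ++ u2 :: B ++ v1 :: C ++ v2 :: D) → m1.Disjoint m2 → False)
    {Z : List V} (hZ : IsCyc G Z) (hZl : Z.length = 2 * r) : False := by
  -- a branch vertex on Z
  obtain ⟨x0, c0, hZ0, hZ0l, hx0⟩ : ∃ x c, IsCyc G (x :: c) ∧ (x :: c).length = 2 * r ∧ ¬ NB G x := by
    obtain ⟨u, Z', rfl⟩ : ∃ u Z', Z = u :: Z' := by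
      cases Z with
      | nil => exact absurd rfl hZ.ne_nil
      | cons u Z' => exact ⟨u, Z', rfl⟩
    obtain ⟨v, Z'', rfl⟩ : ∃ v Z'', Z' = v :: Z'' := by
      cases Z' with
      | nil => have := hZ.2.2; simp at this
      | cons v Z'' => exact ⟨v, Z'', rfl⟩
    have huv : G.Adj u v := (isP_cons.1 hZ.isP).2.2 v (by simp)
    obtain ⟨w, l, hl, hll⟩ := h.partner_exists hk huv
    obtain ⟨c, d, a, b, e, h1, h2, h3, h4, _, h6⟩ := h.exists_ear hk hl (by simp; omega)
    have hc : ¬ NB G c := not_NB_of_ear h1 h3 (fun x hx hx' => h4 x hx (h2.mem_iff.1 hx')) h6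
    have hcZ : c ∈ u :: v :: Z'' := by
      by_contra hcon
      exact hc (hdeg _ hZ hZl c hcon)
    obtain ⟨c', h7, h8⟩ := hZ.rot_to hcZ
    exact ⟨c, c', h7, by rw [h8.length_eq, hZl], hc⟩
  by_cases hg : Good G x0 c0
  · exact h.no_good hk hrk hrk2 hdeg hodd hZ0 hZ0l hx0 hg
  · unfold Good at hg
    push Not at hg
    obtain ⟨a', b', m', v', hc, hm', hmW', _, hw1, _⟩ := hg
    subst hc
    obtain ⟨x, c, h1, h2, h3, h4⟩ := exists_good hdeg hcross a'.length x0 v' a' b' m' (by simpa using hZ0)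
      (by simpa using hZ0l) hm' (by intro w hw hw'; exact hmW' w hw (by simpa using hw')) le_rfl hw1
    exact h.no_good hk hrk hrk2 hdeg hodd h1 h2 h3 h4

end Pool.Agent.Work.KZ
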