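import Pool.Agent.Work.MP_f0e709_co.T3

/-! Long arcs force chords (helper47, note 2273): two adjacent vertices `b`, `c` with at most two neighbours on a
`(k+1)`-cycle `C` force a chord of `C`; every `P(k)`-graph, `k ≥ 4`, has two adjacent branch vertices. -/

set_option autoImplicit false

namespace Pool.Agent.Work.KZ

variable {V : Type*} {G : SimpleGraph V} {k : ℕ}

/-- the longest common prefix of two lists -/
theorem common_prefix {α : Type*} (l m : List α) :
    ∃ s l' m', l = s ++ l' ∧ m = s ++ m' ∧ (∀ a ∈ l'.head?, ∀ b ∈ m'.head?, a ≠ b) := by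
  induction l generalizing m with
  | nil => exact ⟨[], [], m, rfl, rfl, by simp⟩
  | cons x l ih =>
    cases m with
    | nil => exact ⟨[], x :: l, [], rfl, rfl, by simp⟩
    | cons y m =>
      by_cases hxy : x = y
      · subst hxy
        obtain ⟨s, l', m', h1, h2, h3⟩ := ih m
        exact ⟨x :: s, l', m', by rw [h1]; rfl, by rw [h2]; rfl, h3⟩
      · exact ⟨[], x :: l, y :: m, rfl, rfl, by simpa using hxy⟩

/-- rule for an `n`-cycle and an `(n+2)`-cycle (`n = k + 1`): if they share a path with at least two edges ending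
at `u`, then the vertex of the long cycle after `u` lies on the short one -/
theorem PK.rule13 (h : PK G k) (hk : 1 ≤ k) {T R1 R2 : List V} {x w u y : V}
    (hC : IsCyc G (T ++ x :: w :: u :: R1)) (hCl : (T ++ x :: w :: u :: R1).length = k + 1)
    (hG : IsCyc G (T ++ x :: w :: u :: y :: R2))
    (hGl : (T ++ x :: w :: u :: y :: R2).length = k + 3) :
    y ∈ T ++ x :: w :: u :: R1 := by
  by_contra hy
  have P1' : IsP G ((x :: T.reverse ++ R1.reverse) ++ [u]) := by
    have h1 : IsCyc G ((T ++ [x, w]) ++ (u :: R1)) := by simpa using hC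
    have h2 : IsCyc G ((u :: R1) ++ (T ++ [x, w])) := h1.rot
    have h3 : IsP G ((u :: R1) ++ (T ++ [x])) := h2.isP.of_prefix ⟨[w], by simp⟩
    have := h3.reverse
    simpa using this
  have huy : G.Adj u y := by
    have h1 : IsP G ((T ++ [x, w]) ++ (u :: y :: R2)) := by simpa using hG.isP
    exact (isP_cons.1 h1.right).2.2 y (by simp)
  have P1 : IsP G ((x :: T.reverse ++ R1.reverse ++ [u]) ++ [y]) := by
    rw [isP_concat]
    refine ⟨P1', ?_, ?_⟩
    · intro hy'
      apply hy
      simp only [List.mem_append, List.mem_cons, List.mem_reverse, List.not_mem_nil, or_false,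
        List.cons_append] at hy' ⊢
      tauto
    · intro a ha
      rw [List.getLast?_concat] at ha
      simp at ha
      subst ha
      exact huy
  have P2 : IsP G ((x :: T.reverse ++ R2.reverse) ++ [y]) := by
    have h1 : IsCyc G ((T ++ [x, w, u]) ++ (y :: R2)) := by simpa using hG
    have h2 : IsCyc G ((y :: R2) ++ (T ++ [x, w, u])) := h1.rot
    have h3 : IsP G ((y :: R2) ++ (T ++ [x])) := h2.isP.of_prefix ⟨[w, u], by simp⟩
    have := h3.reverse
    simpa using this
  have heq := h.uniq P1 P2 (by simp at hCl ⊢; omega) (by simp at hGl ⊢; omega) (by simp)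
    (by rw [List.getLast?_concat, List.getLast?_concat]) hk
  have hu : u ∈ (x :: T.reverse ++ R2.reverse) ++ [y] := by
    rw [← heq]
    simp
  have hnd := hG.isP.1
  rw [List.nodup_append'] at hnd
  obtain ⟨-, h2, h3⟩ := hnd
  simp only [List.nodup_cons, List.mem_cons, not_or] at h2
  simp only [List.mem_append, List.mem_cons, List.mem_reverse, List.not_mem_nil, or_false,
    List.cons_append] at hu
  rcases hu with rfl | (hu | hu) | rfl
  · exact h2.1.2.1 rfl
  · exact h3 hu (by simp)
  · exact h2.2.2.1.2 hu
  · exact h2.2.2.1.1 rfl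

/-- **long arcs force chords** -/
theorem PK.long_arc_chord (h : PK G k) (hk : 4 ≤ k) {a b c d : V} {R : List V}
    (hC : IsCyc G (a :: b :: c :: d :: R)) (hCl : (a :: b :: c :: d :: R).length = k + 1)
    (hb : NB G b) (hc : NB G c) :
    ∃ (U R1 R2 : List V) (u y : V), a :: b :: c :: d :: R = U ++ u :: R1 ++ y :: R2 ∧ 3 ≤ U.length ∧
      R1 ≠ [] ∧ G.Adj u y := by
  have hnd := hC.isP.1
  have hndR := hnd
  simp only [List.nodup_cons, List.mem_cons, not_or] at hnd
  obtain ⟨⟨hab, hac, had, haR⟩, ⟨hbc, hbd, hbR⟩, ⟨hcd, hcR⟩, hdR, hR⟩ := hnd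
  have hP := hC.isP
  rw [isP_cons] at hP
  obtain ⟨-, hP, h1⟩ := hP
  have aab : G.Adj a b := h1 b (by simp)
  rw [isP_cons] at hP
  obtain ⟨-, hP, h1⟩ := hP
  have abc : G.Adj b c := h1 c (by simp)
  rw [isP_cons] at hP
  obtain ⟨-, hP, h1⟩ := hP
  have acd : G.Adj c d := h1 d (by simp)
  -- the k-path from d to a
  obtain ⟨P, hPp, hPl, hPh, hPt⟩ := h.exists (Ne.symm had)
  obtain ⟨P', rfl⟩ : ∃ P', P = d :: P' := by
    cases P with
    | nil => simp at hPh
    | cons p P => simp at hPh; exact ⟨P, by rw [hPh]⟩
  obtain ⟨Q, rfl⟩ : ∃ Q, P' = Q ++ [a] := by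
    rcases List.eq_nil_or_concat P' with h0 | ⟨Q, q, h0⟩
    · subst h0; simp at hPt; exact absurd hPt.symm had
    · rw [List.concat_eq_append] at h0
      subst h0
      refine ⟨Q, ?_⟩
      rw [show d :: (Q ++ [q]) = (d :: Q) ++ [q] by simp, List.getLast?_concat] at hPt
      simp at hPt
      rw [hPt]
  have hQl : Q.length = k - 1 := by simp at hPl; omega
  -- an inner vertex with its two neighbours
  have inner : ∀ (v p q : V), v ∈ Q → NB G v → G.Adj v p → G.Adj v q → p ≠ q →
      ∃ l r : List V, Q = l ++ v :: r ∧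
        ∃ l0 r0 : List V, ((d :: l = l0 ++ [p] ∧ r ++ [a] = q :: r0) ∨ (d :: l = l0 ++ [q] ∧ r ++ [a] = p :: r0)) := by
    intro v p q hv hN hp hq hpq
    obtain ⟨l, r, rfl⟩ := List.append_of_mem hv
    refine ⟨l, r, rfl, ?_⟩
    obtain ⟨l0, s, hs⟩ : ∃ l0 s, d :: l = l0 ++ [s] := by
      rcases List.eq_nil_or_concat (d :: l) with h0 | ⟨l0, s, h0⟩
      · simp at h0
      · exact ⟨l0, s, by simpa using h0⟩
    obtain ⟨t, r0, ht⟩ : ∃ t r0, r ++ [a] = t :: r0 := List.exists_cons_of_ne_nil (by simp)
    have e1 : IsP G (l0 ++ [s] ++ (v :: t :: r0)) := by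
      rw [← hs, ← ht]; simpa using hPp
    have a1 : G.Adj s v := (isP_append.1 e1).2.2.2 s (by simp) v (by simp)
    have a2 : G.Adj v t := (isP_cons.1 e1.right).2.2 t (by simp)
    have hst : s ≠ t := by
      rintro rfl
      have := e1.1
      rw [List.nodup_append'] at this
      exact this.2.2 (show s ∈ l0 ++ [s] by simp) (by simp)
    refine ⟨l0, r0, ?_⟩
    rcases hN s t p a1.symm a2 hp with h2 | h2 | h2
    · exact absurd h2 hst
    · subst h2
      rcases hN s t q a1.symm a2 hq with h3 | h3 | h3
      · exact absurd h3 hst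
      · exact absurd h3 hpq
      · subst h3; exact Or.inl ⟨hs, ht⟩
    · subst h2
      rcases hN s t q a1.symm a2 hq with h3 | h3 | h3
      · exact absurd h3 hst
      · subst h3; exact Or.inr ⟨hs, ht⟩
      · exact absurd h3 hpq
  have hbQ : b ∉ Q := by
    intro hbQ
    obtain ⟨l, r, hQ, l0, r0, hcase⟩ := inner b a c hbQ hb aab.symm abc hac
    rcases hcase with ⟨e1, e2⟩ | ⟨e1, e2⟩
    · -- d :: l ends with a : impossible
      have : a ∈ d :: l := by rw [e1]; simp
      rcases List.mem_cons.1 this with h2 | h2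
      · exact had h2
      · have h3 := (isP_cons.1 hPp).2.1.1
        rw [List.nodup_append'] at h3
        exact h3.2.2 (show a ∈ Q by rw [hQ]; simp [h2]) (by simp)
    · -- c before b, then a is the next one, r = []
      have hr : r = [] := by
        cases r with
        | nil => rfl
        | cons r1 r =>
          exfalso
          simp at e2
          have h3 := (isP_cons.1 hPp).2.1.1
          rw [List.nodup_append'] at h3
          exact h3.2.2 (show a ∈ Q by rw [hQ]; simp [e2.1]) (by simp)
      subst hr
      have hcQ : c ∈ Q := by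
        have : c ∈ d :: l := by rw [e1]; simp
        rcases List.mem_cons.1 this with h2 | h2
        · exact absurd h2 hcd
        · rw [hQ]; simp [h2]
      obtain ⟨l', r', hQ', l1, r1, hcase'⟩ := inner c b d hcQ hc abc.symm acd hbd
      have hndQ : Q.Nodup := by
        have h3 := (isP_cons.1 hPp).2.1.1
        rw [List.nodup_append'] at h3
        exact h3.1
      have hdQ : d ∉ Q := by
        have h3 := (isP_cons.1 hPp).1
        intro h4; exact h3 (by simp [h4])
      rcases hcase' with ⟨e3, e4⟩ | ⟨e3, e4⟩
      · -- next of c is d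
        have : d ∈ r' ++ [a] := by rw [e4]; simp
        rcases List.mem_append.1 this with h2 | h2
        · exact hdQ (by rw [hQ']; simp [h2])
        · simp at h2; exact had h2.symm
      · -- d before c : l' = []
        have hl' : l' = [] := by
          rcases List.eq_nil_or_concat l' with h0 | ⟨l2, s, h0⟩
          · exact h0
          · exfalso
            rw [List.concat_eq_append] at h0
            subst h0
            have h5 := congrArg List.getLast? e3
            rw [show d :: (l2 ++ [s]) = (d :: l2) ++ [s] by simp, List.getLast?_concat,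
              List.getLast?_concat] at h5
            simp at h5
            exact hdQ (by rw [hQ']; simp [h5])
        subst hl'
        simp at hQ'
        -- Q = c :: r', next of c is b, and Q = l ++ [b]
        have hr' : ∃ r2, r' = b :: r2 := by
          cases r' with
          | nil => simp at e4; exact absurd e4.1 hab
          | cons s r' => simp at e4; exact ⟨r', by rw [e4.1]⟩
        obtain ⟨r2, rfl⟩ := hr'
        have hQ2 : l ++ [b] = c :: b :: r2 := by rw [← hQ', hQ]
        -- b is the last one of Q, so r2 = []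
        have hr2 : r2 = [] := by
          rcases List.eq_nil_or_concat r2 with h0 | ⟨r3, s, h0⟩
          · exact h0
          · exfalso
            rw [List.concat_eq_append] at h0
            subst h0
            have h5 := congrArg List.getLast? hQ2
            rw [List.getLast?_concat, show c :: b :: (r3 ++ [s]) = (c :: b :: r3) ++ [s] by simp,
              List.getLast?_concat] at h5
            simp at h5
            rw [hQ'] at hndQ
            simp only [List.nodup_cons] at hndQ
            exact hndQ.2.1 (by simp [h5])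
        subst hr2
        rw [hQ'] at hQl
        simp at hQl
        omega
  have hcQ : c ∉ Q := by
    intro hcQ
    obtain ⟨l, r, hQ, l0, r0, hcase⟩ := inner c b d hcQ hc abc.symm acd hbd
    have hdQ : d ∉ Q := by
      have h3 := (isP_cons.1 hPp).1
      intro h4; exact h3 (by simp [h4])
    rcases hcase with ⟨e1, e2⟩ | ⟨e1, e2⟩
    · have : b ∈ d :: l := by rw [e1]; simp
      rcases List.mem_cons.1 this with h2 | h2
      · exact hbd h2
      · exact hbQ (by rw [hQ]; simp [h2])
    · have : b ∈ r ++ [a] := by rw [e2]; simp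
      rcases List.mem_append.1 this with h2 | h2
      · exact hbQ (by rw [hQ]; simp [h2])
      · simp at h2; exact hab h2.symm
  -- the long cycle
  have hG : IsCyc G (a :: b :: c :: d :: Q) := by
    have h2 : IsCyc G ([b, c] ++ (d :: (Q ++ [a]))) := by
      rw [isCyc_append (by simp) (by simp)]
      refine ⟨?_, hPp, ?_, ?_, ?_, by simp; omega⟩
      · rw [isP_cons]
        refine ⟨by simpa using hbc, IsP.singleton c, by simpa using abc⟩
      · intro v hv hv'
        simp only [List.mem_cons, List.not_mem_nil, or_false] at hv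
        simp only [List.mem_cons, List.mem_append, List.not_mem_nil, or_false] at hv'
        rcases hv with rfl | rfl
        · rcases hv' with h3 | h3 | h3
          · exact hbd h3
          · exact hbQ h3
          · exact hab h3.symm
        · rcases hv' with h3 | h3 | h3
          · exact hcd h3
          · exact hcQ h3
          · exact hac h3.symm
      · intro p hp q hq
        simp at hp hq
        subst hp; subst hq
        exact acd
      · intro p hp q hq
        rw [show d :: (Q ++ [a]) = (d :: Q) ++ [a] by simp, List.getLast?_concat] at hp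
        simp at hp hq
        subst hp; subst hq
        exact aab
    have h3 : IsCyc G ((b :: c :: d :: Q) ++ [a]) := by simpa using h2
    simpa using h3.rot
  obtain ⟨S, R', Q', hR', hQ', hhead⟩ := common_prefix R Q
  subst hR'; subst hQ'
  have hlen1 : S.length + R'.length = k - 3 := by
    simp at hCl; omega
  have hlen2 : S.length + Q'.length = k - 1 := by
    simpa using hQl
  obtain ⟨y, Q2, rfl⟩ : ∃ y Q2, Q' = y :: Q2 := by
    cases Q' with
    | nil => simp at hlen2; omega
    | cons y Q2 => exact ⟨y, Q2, rfl⟩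
  -- split off the last three vertices of a :: b :: c :: d :: S
  obtain ⟨T, x, w, u, hT, hTl⟩ : ∃ (T : List V) (x w u : V), a :: b :: c :: d :: S = T ++ [x, w, u] ∧
      1 ≤ T.length := by
    have h3 : ∀ (L : List V), 3 ≤ L.length → ∃ (T : List V) (x w u : V), L = T ++ [x, w, u] := by
      intro L hL
      obtain ⟨L1, u, rfl⟩ : ∃ L1 u, L = L1 ++ [u] := by
        rcases List.eq_nil_or_concat L with h0 | ⟨L1, u, h0⟩
        · subst h0; simp at hL
        · exact ⟨L1, u, by simpa using h0⟩
      obtain ⟨L2, w, rfl⟩ : ∃ L2 w, L1 = L2 ++ [w] := by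
        rcases List.eq_nil_or_concat L1 with h0 | ⟨L2, w, h0⟩
        · subst h0; simp at hL
        · exact ⟨L2, w, by simpa using h0⟩
      obtain ⟨L3, x, rfl⟩ : ∃ L3 x, L2 = L3 ++ [x] := by
        rcases List.eq_nil_or_concat L2 with h0 | ⟨L3, x, h0⟩
        · subst h0; simp at hL
        · exact ⟨L3, x, by simpa using h0⟩
      exact ⟨L3, x, w, u, by simp⟩
    obtain ⟨T, x, w, u, hT⟩ := h3 (a :: b :: c :: d :: S) (by simp)
    refine ⟨T, x, w, u, hT, ?_⟩
    have := congrArg List.length hT
    simp at this
    omega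
  have eC : a :: b :: c :: d :: (S ++ R') = T ++ x :: w :: u :: R' := by
    have : a :: b :: c :: d :: (S ++ R') = (a :: b :: c :: d :: S) ++ R' := by simp
    rw [this, hT]; simp
  have eG : a :: b :: c :: d :: (S ++ y :: Q2) = T ++ x :: w :: u :: y :: Q2 := by
    have : a :: b :: c :: d :: (S ++ y :: Q2) = (a :: b :: c :: d :: S) ++ y :: Q2 := by simp
    rw [this, hT]; simp
  rw [eC] at hC hCl
  rw [eG] at hG
  have hGl : (T ++ x :: w :: u :: y :: Q2).length = k + 3 := by
    rw [← eG]
    simp at hQl ⊢; omega
  have hy := h.rule13 (by omega) hC hCl hG hGl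
  have hndG := hG.isP.1
  have hyR : y ∈ R' := by
    rw [List.nodup_append'] at hndG
    obtain ⟨-, h2, h3⟩ := hndG
    simp only [List.nodup_cons, List.mem_cons, not_or] at h2
    simp only [List.mem_append, List.mem_cons] at hy
    rcases hy with hy | rfl | rfl | rfl | hy
    · exact absurd (show y ∈ x :: w :: u :: y :: Q2 by simp) (h3 hy)
    · exact absurd rfl h2.1.2.2.1
    · exact absurd rfl h2.2.1.2.1
    · exact absurd rfl h2.2.2.1.1
    · exact hy
  have huy : G.Adj u y := by
    have h1 : IsP G ((T ++ [x, w]) ++ (u :: y :: Q2)) := by simpa using hG.isP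
    exact (isP_cons.1 h1.right).2.2 y (by simp)
  obtain ⟨R1, R2, rfl⟩ := List.append_of_mem hyR
  refine ⟨T ++ [x, w], R1, R2, u, y, ?_, by simp; omega, ?_, huy⟩
  · rw [eC]; simp
  · rintro rfl
    exact hhead y (by simp) y (by simp) rfl

/-- `C` has a chord: a rotation of `C` is `u :: A ++ y :: B` with `A, B ≠ []` and `u`, `y` adjacent -/
def HasChord (G : SimpleGraph V) (C : List V) : Prop :=
  ∃ (u y : V) (A B : List V), C.IsRotated (u :: A ++ y :: B) ∧ A ≠ [] ∧ B ≠ [] ∧ G.Adj u y

theorem HasChord.of_isRotated {C D : List V} (h : HasChord G C) (hCD : C.IsRotated D) : HasChord G D := by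
  obtain ⟨u, y, A, B, h1, h2⟩ := h
  exact ⟨u, y, A, B, hCD.symm.trans h1, h2⟩

/-- two consecutive vertices of a `(k+1)`-cycle with at most two neighbours each force a chord -/
theorem PK.hasChord (h : PK G k) (hk : 4 ≤ k) {a b c d : V} {R : List V}
    (hC : IsCyc G (a :: b :: c :: d :: R)) (hCl : (a :: b :: c :: d :: R).length = k + 1)
    (hb : NB G b) (hc : NB G c) : HasChord G (a :: b :: c :: d :: R) := by
  obtain ⟨U, R1, R2, u, y, he, hU, hR1, huy⟩ := h.long_arc_chord hk hC hCl hb hc
  refine ⟨u, y, R1, R2 ++ U, ?_, hR1, ?_, huy⟩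
  · rw [he]
    have : U ++ u :: R1 ++ y :: R2 = U ++ (u :: R1 ++ y :: R2) := by simp
    rw [this, show u :: R1 ++ y :: (R2 ++ U) = (u :: R1 ++ y :: R2) ++ U by simp]
    exact List.isRotated_append
  · intro h0
    rw [List.append_eq_nil_iff] at h0
    rw [h0.2] at hU
    simp at hU

theorem IsCyc.of_isRotated {C D : List V} (h : IsCyc G C) (hCD : C.IsRotated D) : IsCyc G D := by
  obtain ⟨n, rfl⟩ := hCD
  rw [List.rotate_eq_drop_append_take_mod]
  apply IsCyc.rot
  rw [List.take_append_drop]
  exact h

/-- the ends of a chord are branch vertices -/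
theorem not_NB_of_chord {u y : V} {A B : List V} (hC : IsCyc G (u :: A ++ y :: B)) (hA : A ≠ [])
    (hB : B ≠ []) (huy : G.Adj u y) : ¬ NB G u ∧ ¬ NB G y := by
  constructor
  · refine not_NB_of_ear (e := []) hC ?_ (by simp) (fun _ => ⟨hA, hB⟩)
    show IsP G [u, y]
    rw [isP_cons]
    exact ⟨by simpa using huy.ne, IsP.singleton y, by simpa using huy⟩
  · refine not_NB_of_ear (c := y) (a := B) (d := u) (b := A) (e := []) hC.rot ?_ (by simp) (fun _ => ⟨hB, hA⟩)
    show IsP G [y, u]
    rw [isP_cons]
    exact ⟨by simpa using huy.ne', IsP.singleton u, by simpa using huy.symm⟩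

/-- two adjacent vertices with at most two neighbours force two adjacent branch vertices -/
theorem PK.adj_branch_of_adj_NB (h : PK G k) (hk : 4 ≤ k) {x y : V} (hxy : G.Adj x y) (hx : NB G x)
    (hy : NB G y) : ∃ u v, G.Adj u v ∧ ¬ NB G u ∧ ¬ NB G v := by
  obtain ⟨w, m, hm, hml⟩ := h.partner_exists (by omega) hxy
  have hC : IsCyc G (w :: x :: y :: m) := by
    have h1 : IsCyc G ((x :: y :: m) ++ [w]) := by simpa using hm
    simpa using h1.rot
  obtain ⟨d, R, rfl⟩ : ∃ d R, m = d :: R := by
    cases m with
    | nil => simp at hml; omega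
    | cons d R => exact ⟨d, R, rfl⟩
  obtain ⟨u, v, A, B, h1, h2, h3, h4⟩ := h.hasChord hk hC (by simp at hml ⊢; omega) hx hy
  have := not_NB_of_chord (hC.of_isRotated h1) h2 h3 h4
  exact ⟨u, v, h4, this⟩

theorem parity_of_alternating {P : V → Prop} (hP : ∀ x y, G.Adj x y → (P x ↔ ¬ P y)) :
    ∀ (l : List V) (a b : V), (a :: l).IsChain G.Adj → (a :: l).getLast? = some b →
      ((P a ↔ P b) ↔ Even l.length) := by
  intro l
  induction l with
  | nil =>
    intro a b _ hb
    simp at hb
    subst hb
    simp
  | cons c l ih =>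
    intro a b hc hb
    rw [List.isChain_cons_cons] at hc
    have h1 := ih c b hc.2 (by simpa using hb)
    have h2 := hP a c hc.1
    rw [List.length_cons, Nat.even_add_one, ← h1]
    tauto

/-- **Theorem A** (helper47): a `P(k)`-graph, `k ≥ 4`, has two adjacent branch vertices -/
theorem PK.adj_branch [Nontrivial V] (h : PK G k) (hk : 4 ≤ k) :
    ∃ u v, G.Adj u v ∧ ¬ NB G u ∧ ¬ NB G v := by
  by_contra hcon
  push Not at hcon
  have key : ∀ x y, G.Adj x y → (NB G x ↔ ¬ NB G y) := by
    intro x y hxy
    constructor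
    · intro hx hy
      obtain ⟨u, v, h1, h2, h3⟩ := h.adj_branch_of_adj_NB hk hxy hx hy
      exact h3 (hcon u v h1 h2)
    · intro hy
      by_contra hx
      exact hy (hcon x y hxy hx)
  have par : ∀ a b : V, a ≠ b → ((NB G a ↔ NB G b) ↔ Even k) := by
    intro a b hab
    obtain ⟨l, hl, hll, hlh, hlt⟩ := h.exists hab
    obtain ⟨l', rfl⟩ : ∃ l', l = a :: l' := by
      cases l with
      | nil => simp at hlh
      | cons p l' => simp at hlh; exact ⟨l', by rw [hlh]⟩
    have h1 := parity_of_alternating key l' a b hl.2 hlt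
    rw [h1]
    simp at hll
    rw [hll]
  obtain ⟨a, b, hab⟩ := exists_pair_ne V
  obtain ⟨l, hl, hll, hlh, hlt⟩ := h.exists hab
  obtain ⟨x, y, z, l', rfl⟩ : ∃ x y z l', l = x :: y :: z :: l' := by
    match l, hll with
    | [], hll => simp at hll
    | [_], hll => simp at hll; omega
    | [_, _], hll => simp at hll; omega
    | x :: y :: z :: l', _ => exact ⟨x, y, z, l', rfl⟩
  have hc := hl.2
  rw [List.isChain_cons_cons, List.isChain_cons_cons] at hc
  have hxz : x ≠ z := by
    have := hl.1
    simp only [List.nodup_cons, List.mem_cons, not_or] at this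
    exact this.1.2.1
  have h1 := par x y hc.1.ne
  have h2 := par x z hxz
  have h3 := key x y hc.1
  have h4 := key y z hc.2.1
  tauto

section deg

variable [Fintype V] [DecidableRel G.Adj]

theorem NB_iff_degree {x : V} : NB G x ↔ G.degree x ≤ 2 := by
  classical
  constructor
  · intro hN
    by_contra hd
    push Not at hd
    rw [← SimpleGraph.card_neighborFinset_eq_degree, Finset.two_lt_card] at hd
    obtain ⟨a, ha, b, hb, c, hc, h1, h2, h3⟩ := hd
    simp only [SimpleGraph.mem_neighborFinset] at ha hb hc
    rcases hN a b c ha hb hc with h | h | h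
    · exact h1 h
    · exact h2 h
    · exact h3 h
  · intro hd a b c ha hb hc
    by_contra hcon
    push Not at hcon
    have : 2 < G.degree x := by
      rw [← SimpleGraph.card_neighborFinset_eq_degree, Finset.two_lt_card]
      exact ⟨a, by simpa using ha, b, by simpa using hb, c, by simpa using hc, hcon⟩
    omega

/-- **Theorem A**, degree form -/
theorem PK.exists_adj_four_le [Nontrivial V] (h : PK G k) (hk : 4 ≤ k) :
    ∃ u v, G.Adj u v ∧ 4 ≤ G.degree u ∧ 4 ≤ G.degree v := by
  classical
  obtain ⟨u, v, h1, h2, h3⟩ := h.adj_branch hk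
  rw [NB_iff_degree] at h2 h3
  push Not at h2 h3
  refine ⟨u, v, h1, ?_, ?_⟩
  · have := h.even_degree (by omega) u
    obtain ⟨q, hq⟩ := this
    omega
  · have := h.even_degree (by omega) v
    obtain ⟨q, hq⟩ := this
    omega

end deg

end Pool.Agent.Work.KZ
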