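import Pool.Agent.Work.MP_f0e709_co.DF1b
import Pool.Agent.Work.MP_f0e709_co.ThmA
import Pool.Agent.Work.MP_f0e709_co.T3d

/-! Maximum degree four, part 1c (helper75): if every component off a chordless `(k+1)`-cycle `z` contains a cycle,
then all edges which leave `z` lead to one and the same component. -/

set_option autoImplicit false

namespace Pool.Agent.Work.KZ

variable {V : Type*} {G : SimpleGraph V} {k : ℕ}

theorem PK.two_meets (h : PK G k) (hR1 : Circ G k) {z : List V} (hz : IsCyc G z) (hzl : z.length = k + 1)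
    (Y : List V) (r : ℕ) (hY : IsCyc G Y) (hYl : Y.length = 2 * r) (hr : 2 ≤ r) :
    ∃ a b, a ≠ b ∧ a ∈ Y ∧ b ∈ Y ∧ a ∈ z ∧ b ∈ z := by
  have h6 := hR1 Y hY
  exact h.even_meets hr (by omega) hY hYl hz hzl

/-- consecutive branch vertices lead to the same component -/
theorem PK.same_comp (h : PK G k) (hk : 3 ≤ k) (hR1 : Circ G k) {z : List V} {u u' : V} {W W' : List V}
    (hz : IsCyc G (u :: W ++ u' :: W')) (hzl : (u :: W ++ u' :: W').length = k + 1)
    (hzz : ∀ v, v ∈ z ↔ v ∈ u :: W ++ u' :: W')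
    (hW' : W'.length ≤ 1) (hNB : ∀ v ∈ W', NB G v) {y y' : V} (huy : G.Adj u y) (hy : y ∉ z)
    (huy' : G.Adj u' y') (hy' : y' ∉ z) {O O' : List V} (hO : IsCyc G O)
    (hOy : ∀ v ∈ O, Conn G (fun v => v ∉ z) y v) (hO' : IsCyc G O')
    (hOy' : ∀ v ∈ O', Conn G (fun v => v ∉ z) y' v) : Conn G (fun v => v ∉ z) y y' := by
  by_contra hcon
  have hzc : (fun v => v ∉ z) = (fun v => v ∉ u :: W ++ u' :: W') := by
    funext v
    rw [hzz v]
  have hy1 : y ∉ u :: W ++ u' :: W' := by rw [← hzz]; exact hy
  have hy1' : y' ∉ u :: W ++ u' :: W' := by rw [← hzz]; exact hy'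
  rw [hzc] at hOy hOy' hcon
  obtain ⟨x, d, z0, A1, A2, L, t, H⟩ := h.two_legs hk hz hzl (h.two_meets hR1 hz hzl) (by simp) huy hy1 hO hOy
  obtain ⟨x', d', z0', A1', A2', L', t', H'⟩ :=
    h.two_legs hk hz hzl (h.two_meets hR1 hz hzl) (by simp) huy' hy1' hO' hOy'
  have hK : ∀ v, Conn G (fun v => v ∉ u :: W ++ u' :: W') y v → v ∉ u :: W ++ u' :: W' := fun v hv => hv.right
  have hK' : ∀ v, Conn G (fun v => v ∉ u :: W ++ u' :: W') y' v → v ∉ u :: W ++ u' :: W' := fun v hv => hv.right
  have hKK : ∀ v, Conn G (fun v => v ∉ u :: W ++ u' :: W') y v →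
      ¬ Conn G (fun v => v ∉ u :: W ++ u' :: W') y' v := fun v hv hv' => hcon (hv.trans hv'.symm)
  -- the ends of the second legs are branch vertices
  have hend : ∀ {K : V → Prop} {u x d z0 : V} {A1 A2 L t Z : List V}, IsCyc G Z → Legs G Z K u x d z0 A1 A2 L t →
      (∀ v, K v → v ∉ Z) → ¬ NB G z0 := by
    intro K u x d z0 A1 A2 L t Z hZ H hK
    obtain ⟨e, he⟩ : ∃ e, (d :: t).getLast? = some e := ⟨_, List.getLast?_eq_some_getLast (by simp)⟩
    have h1 : G.Adj e z0 := (isP_concat.1 H.leg2).2.2 e he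
    refine not_NB_of_off hZ H.hz0 h1.symm ?_
    apply hK
    rcases List.mem_cons.1 (List.mem_of_getLast? he) with h2 | h2
    · rw [h2]; exact H.cK d (by simp)
    · exact H.tK e h2
  have hn1 := hend hz H hK
  have hn2 := hend hz H' hK'
  have hlen : W.length + W'.length + 2 = k + 1 := by
    simp at hzl; omega
  have m1 : z0 ∈ W ++ [u'] := by
    have h1 := H.hz0
    have h2 := H.hzu
    have h3 : z0 ∉ W' := fun h3 => hn1 (hNB z0 h3)
    simp at h1 ⊢
    tauto
  have m2 : z0' ∈ W.reverse ++ [u] := by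
    have h1 := H'.hz0
    have h2 := H'.hzu
    have h3 : z0' ∉ W' := fun h3 => hn2 (hNB z0' h3)
    simp at h1 ⊢
    tauto
  have hPW : IsP G (u :: (W ++ [u'])) := hz.isP.of_prefix ⟨W', by simp⟩
  rcases Nat.le_total (A1.length + A2.length) (A1'.length + A2'.length) with hle | hle
  · obtain ⟨W1, W2, he⟩ := List.append_of_mem m1
    refine h.apart_half hR1 (W1 := W1) (W2 := W2) (u := u) ?_ ?_ ?_ ?_ H H' hK hK' hKK hle
    · rw [he] at hPW; simpa using hPW
    · intro v hv
      have : v ∈ u :: (W ++ [u']) := by rw [he]; simpa using hv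
      simp at this ⊢
      tauto
    · have := congrArg List.length he
      simp at this
      omega
    · have h1 : (W ++ [u']).getLast? = some u' := List.getLast?_concat
      rw [he, List.getLast?_append_of_ne_nil _ (by simp)] at h1
      exact h1
  · obtain ⟨W1, W2, he⟩ := List.append_of_mem m2
    have hPW' : IsP G (u' :: (W.reverse ++ [u])) := by
      have := hPW.reverse
      simpa using this
    refine h.apart_half hR1 (W1 := W1) (W2 := W2) (u := u') ?_ ?_ ?_ ?_ H' H hK' hK
      (fun v hv hv' => hKK v hv' hv) hle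
    · rw [he] at hPW'; simpa using hPW'
    · intro v hv
      have : v ∈ u' :: (W.reverse ++ [u]) := by rw [he]; simpa using hv
      simp at this ⊢
      tauto
    · have := congrArg List.length he
      simp at this
      omega
    · have h1 : (W.reverse ++ [u]).getLast? = some u := List.getLast?_concat
      rw [he, List.getLast?_append_of_ne_nil _ (by simp)] at h1
      exact h1

/-- a branch vertex of a chordless `(k+1)`-cycle has two neighbours off the cycle -/
theorem PK.two_off (h : PK G k) (hk : 3 ≤ k) {z : List V} (hz : IsCyc G z) (hch : ¬ HasChord G z) {x : V}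
    (hx : x ∈ z) (hN : ¬ NB G x) : ∃ y1 y2, y1 ≠ y2 ∧ G.Adj x y1 ∧ G.Adj x y2 ∧ y1 ∉ z ∧ y2 ∉ z := by
  obtain ⟨s, t, rfl⟩ := List.append_of_mem hx
  have hz2 : IsCyc G (x :: (t ++ s)) := by
    have := hz.rot
    simpa using this
  have hrot : (s ++ x :: t).IsRotated (x :: (t ++ s)) := by
    have : x :: (t ++ s) = (x :: t) ++ s := by simp
    rw [this]
    exact List.isRotated_append
  have hmem : ∀ v, v ∈ s ++ x :: t ↔ v ∈ x :: (t ++ s) := fun v => by
    simp only [List.mem_append, List.mem_cons]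
    tauto
  set c := t ++ s with hc
  obtain ⟨f, c1, hc1⟩ : ∃ f c1, c = f :: c1 := by
    cases hcc : c with
    | nil => rw [hcc] at hz2; have := hz2.2.2; simp at this
    | cons f c1 => exact ⟨f, c1, rfl⟩
  obtain ⟨c2, g, hc2⟩ : ∃ c2 g, c1 = c2 ++ [g] := by
    rcases List.eq_nil_or_concat c1 with h0 | ⟨c2, g, h0⟩
    · rw [hc1, h0] at hz2; have := hz2.2.2; simp at this
    · exact ⟨c2, g, by rw [h0, List.concat_eq_append]⟩
  have hxf : G.Adj x f := by
    have h1 := hz2.isP
    rw [hc1] at h1
    exact (isP_cons.1 h1).2.2 f (by simp)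
  have hxg : G.Adj x g := by
    refine (hz2.2.1 g ?_ x (by simp)).symm
    rw [hc1, hc2, show x :: f :: (c2 ++ [g]) = (x :: f :: c2) ++ [g] by simp, List.getLast?_concat]
    simp
  have hfg : f ≠ g := by
    have h1 := hz2.isP.1
    rw [hc1, hc2] at h1
    intro h0
    subst h0
    simp at h1
  obtain ⟨n1, n2, a1, a2, a12, a3, a4, a5, a6⟩ := h.two_more hk hN hxf hxg hfg
  have key : ∀ n, G.Adj x n → n ≠ f → n ≠ g → n ∉ s ++ x :: t := by
    intro n hn hnf hng hmemn
    apply hch
    have h1 := (hmem n).1 hmemn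
    rcases List.mem_cons.1 h1 with h2 | h2
    · exact absurd h2 hn.ne'
    · obtain ⟨A, B, hAB⟩ := List.append_of_mem h2
      refine ⟨x, n, A, B, ?_, ?_, ?_, hn⟩
      · have : x :: A ++ n :: B = x :: c := by rw [hAB]; simp
        rw [this]
        exact hrot
      · intro h0
        rw [h0, hc1] at hAB
        simp at hAB
        exact hnf hAB.1.symm
      · intro h0
        rw [h0, hc1, hc2] at hAB
        have h3 : (f :: c2) ++ [g] = A ++ [n] := by simpa using hAB
        have := List.append_inj' h3 (by simp)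
        simp at this
        exact hng this.2.symm
  exact ⟨n1, n2, a12, a1, a2, key n1 a1 a3 a4, key n2 a2 a5 a6⟩

/-- walking along the cycle -/
theorem PK.walk_comp (h : PK G k) (hk : 4 ≤ k) (hR1 : Circ G k) {z : List V} {u : V} {l : List V}
    (hz : IsCyc G (u :: l)) (hzl : (u :: l).length = k + 1) (hzz : ∀ v, v ∈ z ↔ v ∈ u :: l)
    (hch : ¬ HasChord G (u :: l))
    (hcyc : ∀ x ∈ u :: l, ∀ y, G.Adj x y → y ∉ z → ∃ O, IsCyc G O ∧ ∀ v ∈ O, Conn G (fun v => v ∉ z) y v)
    {y : V} (huy : G.Adj u y) (hy : y ∉ z) :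
    ∀ (n : ℕ) (X Y : List V) (v : V), u :: l = u :: X ++ v :: Y → X.length = n →
      ∀ y', G.Adj v y' → y' ∉ z → Conn G (fun v => v ∉ z) y y' := by
  intro n
  induction n using Nat.strong_induction_on with
  | _ n ih =>
    intro X Y v he hn y' hy' hy'z
    have hrotz : ∀ w, w ∈ z ↔ w ∈ v :: (Y ++ u :: X) := by
      intro w
      rw [hzz, he]
      simp only [List.mem_append, List.mem_cons, List.cons_append]
      tauto
    have hcz : IsCyc G (v :: (Y ++ u :: X)) := by
      rw [he] at hz
      have := hz.rot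
      simpa using this
    have hlz : (v :: (Y ++ u :: X)).length = k + 1 := by
      rw [← hzl, he]
      simp; omega
    obtain ⟨Ov, hOv, hOvy⟩ := hcyc v (by rw [he]; simp) y' hy' hy'z
    obtain ⟨Ou, hOu, hOuy⟩ := hcyc u (by simp) y huy hy
    -- the general step
    have step : ∀ (X1 : List V) (p : V) (W' : List V), u :: X = X1 ++ p :: W' → W'.length ≤ 1 →
        (∀ w ∈ W', NB G w) → ∀ y'', G.Adj p y'' → y'' ∉ z → Conn G (fun v => v ∉ z) y'' y' := by
      intro X1 p W' hX hW' hNB y'' hpy'' hy''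
      obtain ⟨Op, hOp, hOpy⟩ := hcyc p (by rw [he, hX]; simp) y'' hpy'' hy''
      have e1 : v :: (Y ++ u :: X) = v :: (Y ++ X1) ++ p :: W' := by rw [hX]; simp
      have h1 := h.same_comp (z := z) (by omega) hR1 (u := v) (u' := p) (W := Y ++ X1) (W' := W')
        (by rw [← e1]; exact hcz) (by rw [← e1]; exact hlz) (by intro w; rw [← e1]; exact hrotz w) hW' hNB
        hy' hy'z hpy'' hy'' hOv hOvy hOp hOpy
      exact h1.symm
    rcases List.eq_nil_or_concat X with h0 | ⟨X1, p, h0⟩
    · subst h0
      exact step [] u [] (by simp) (by simp) (by simp) y huy hy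
    · rw [List.concat_eq_append] at h0
      subst h0
      by_cases hp : NB G p
      · rcases List.eq_nil_or_concat X1 with h1 | ⟨X2, q, h1⟩
        · subst h1
          exact step [] u [p] (by simp) (by simp) (by simpa using hp) y huy hy
        · rw [List.concat_eq_append] at h1
          subst h1
          -- `q` is a branch vertex
          have hq : ¬ NB G q := by
            intro hq
            apply hch
            obtain ⟨a, X3, hX3⟩ : ∃ a X3, u :: X2 = X3 ++ [a] := by
              rcases List.eq_nil_or_concat (u :: X2) with h2 | ⟨X3, a, h2⟩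
              · simp at h2
              · exact ⟨a, X3, by rw [h2, List.concat_eq_append]⟩
            have e2 : u :: l = X3 ++ (a :: q :: p :: v :: Y) := by
              rw [he]
              calc u :: (X2 ++ [q] ++ [p]) ++ v :: Y = (u :: X2) ++ (q :: p :: v :: Y) := by simp
                _ = _ := by rw [hX3]; simp
            have hrot : (a :: q :: p :: v :: (Y ++ X3)).IsRotated (u :: l) := by
              rw [e2, show a :: q :: p :: v :: (Y ++ X3) = (a :: q :: p :: v :: Y) ++ X3 by simp]
              exact List.isRotated_append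
            refine HasChord.of_isRotated (h.hasChord hk ?_ ?_ hq hp) hrot
            · rw [e2] at hz
              have := hz.rot
              simpa using this
            · rw [← hzl, e2]
              simp; omega
          obtain ⟨y1, y2, -, hy1, -, hy1z, -⟩ := h.two_off (by omega) hz hch (x := q)
            (by rw [he]; simp) hq
          have hy1z' : y1 ∉ z := by rw [hzz]; exact hy1z
          have h3 := ih X2.length (by rw [← hn]; simp) X2 (p :: v :: Y) q (by rw [he]; simp) rfl y1 hy1 hy1z'
          have h4 := step (u :: X2) q [p] (by simp) (by simp) (by simpa using hp) y1 hy1 hy1z'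
          exact h3.trans h4
      · obtain ⟨y1, y2, -, hy1, -, hy1z, -⟩ := h.two_off (by omega) hz hch (x := p)
          (by rw [he]; simp) hp
        have hy1z' : y1 ∉ z := by rw [hzz]; exact hy1z
        have h3 := ih X1.length (by rw [← hn]; simp) X1 (v :: Y) p (by rw [he]; simp) rfl y1 hy1 hy1z'
        have h4 := step (u :: X1) p [] (by simp) (by simp) (by simp) y1 hy1 hy1z'
        exact h3.trans h4

/-- all edges which leave a chordless `(k+1)`-cycle lead to the same component -/
theorem PK.one_comp (h : PK G k) (hk : 4 ≤ k) (hR1 : Circ G k) {z : List V}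
    (hz : IsCyc G z) (hzl : z.length = k + 1) (hch : ¬ HasChord G z)
    (hcyc : ∀ x ∈ z, ∀ y, G.Adj x y → y ∉ z → ∃ O, IsCyc G O ∧ ∀ v ∈ O, Conn G (fun v => v ∉ z) y v) :
    ∀ u ∈ z, ∀ u' ∈ z, u ≠ u' → ∀ y y', G.Adj u y → y ∉ z → G.Adj u' y' → y' ∉ z →
      Conn G (fun v => v ∉ z) y y' := by
  intro u hu u' hu' huu y y' hy hyz hy' hy'z
  obtain ⟨s, t, hst⟩ := List.append_of_mem hu
  have hz2 : IsCyc G (u :: (t ++ s)) := by
    rw [hst] at hz
    have := hz.rot
    simpa using this
  have hrot : (u :: (t ++ s)).IsRotated z := by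
    rw [hst, show u :: (t ++ s) = (u :: t) ++ s by simp]
    exact List.isRotated_append
  have hmem : ∀ v, v ∈ z ↔ v ∈ u :: (t ++ s) := fun v => hrot.symm.mem_iff
  have hu'2 : u' ∈ t ++ s := by
    rcases List.mem_cons.1 ((hmem u').1 hu') with h1 | h1
    · exact absurd h1.symm huu
    · exact h1
  obtain ⟨X, Y, hXY⟩ := List.append_of_mem hu'2
  refine h.walk_comp hk hR1 hz2 (by rw [hrot.perm.length_eq, hzl]) hmem
    (fun hc => hch (hc.of_isRotated hrot)) ?_ hy hyz X.length X Y u' (by rw [hXY]; simp) rfl y' hy' hy'z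
  intro x hx
  exact hcyc x ((hmem x).2 hx)

end Pool.Agent.Work.KZ
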