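import Pool.Agent.Work.MP_f0e709_co.M5

/-! A `P(k)`-graph, `k ≥ 3`, has at least three `(k+1)`-cycles, i.e. at least `3(k+1)` edges. -/

set_option autoImplicit false
set_option linter.unusedSectionVars false

namespace Pool.Agent.Work.KZ

open scoped Classical

variable {V : Type*} [Fintype V] {G : SimpleGraph V} {k : ℕ}

/-- the closed lists with head `x` describing the same cycle as `z` -/
noncomputable def clsAt (G : SimpleGraph V) (n : ℕ) (z : List V) (x : V) : Finset (List V) :=
  (cycAt G n x).filter (fun l => z.IsRotated l ∨ z.reverse.IsRotated l)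

/-- `l` describes the same cycle as `z` -/
def Same (z l : List V) : Prop := z.IsRotated l ∨ z.reverse.IsRotated l

theorem Same.symm {z l : List V} (h : Same z l) : Same l z := by
  rcases h with h | h
  · exact Or.inl h.symm
  · right
    have := h.reverse
    rw [List.reverse_reverse] at this
    exact this.symm

theorem Same.trans {z l m : List V} (h : Same z l) (h' : Same l m) : Same z m := by
  rcases h with h | h
  · rcases h' with h' | h'
    · exact Or.inl (h.trans h')
    · exact Or.inr (h.reverse.trans h')
  · rcases h' with h' | h'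
    · exact Or.inr (h.trans h')
    · have := h.reverse
      rw [List.reverse_reverse] at this
      exact Or.inl (this.trans h')

theorem Same.mem_iff {z l : List V} (h : Same z l) {x : V} : x ∈ z ↔ x ∈ l := by
  rcases h with h | h
  · exact h.mem_iff
  · rw [← h.mem_iff]; simp

theorem mem_clsAt {n : ℕ} {z l : List V} {x : V} : l ∈ clsAt G n z x ↔ l ∈ cycAt G n x ∧ Same z l := by
  simp [clsAt, Same]

theorem card_clsAt {n : ℕ} (hn : 3 ≤ n) {z : List V} (hz : z ∈ cyc G n) {x : V} (hx : x ∈ z) :
    (clsAt G n z x).card = 2 := by
  have h1 := rt_mem_cycAt hz hx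
  have h2 := rho_mem h1
  have e : clsAt G n z x = {rt z x, rho (rt z x)} := by
    ext l
    rw [mem_clsAt, Finset.mem_insert, Finset.mem_singleton]
    obtain ⟨t, ht⟩ : ∃ t, rt z x = x :: t := by
      have hh := (mem_cycAt.1 h1).2.2
      cases hr : rt z x with
      | nil => rw [hr] at hh; simp at hh
      | cons b t =>
        rw [hr] at hh
        simp at hh
        exact ⟨t, by rw [hh]⟩
    have hrot : z.IsRotated (x :: t) := ht ▸ rt_isRotated z x
    have hrho : rho (rt z x) = x :: t.reverse := by rw [ht]; simp [rho]
    have hrot2 : z.reverse.IsRotated (x :: t.reverse) := by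
      have a1 := hrot.reverse
      have a2 : (x :: t).reverse = t.reverse ++ [x] := by simp
      rw [a2] at a1
      have a3 : (t.reverse ++ [x]).IsRotated ([x] ++ t.reverse) := List.isRotated_append
      exact a1.trans a3
    constructor
    · rintro ⟨hl, hs⟩
      have hl' := mem_cycAt.1 hl
      rcases hs with hs | hs
      · left
        rw [ht]
        refine (eq_of_isRotated_of_head ?_ (hrot.symm.trans hs) ?_).symm
        · rw [← ht]; exact (mem_cycAt.1 h1).1.isP.1
        · rw [hl'.2.2]; rfl
      · right
        rw [hrho]
        refine (eq_of_isRotated_of_head ?_ (hrot2.symm.trans hs) ?_).symm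
        · rw [← hrho]; exact (mem_cycAt.1 h2).1.isP.1
        · rw [hl'.2.2]; rfl
    · rintro (rfl | rfl)
      · exact ⟨h1, Or.inl (rt_isRotated z x)⟩
      · exact ⟨h2, Or.inr (hrho ▸ hrot2)⟩
  rw [e, Finset.card_pair]
  intro he
  have hl := (mem_cycAt.1 h1)
  obtain ⟨b, t, ht⟩ : ∃ b t, rt z x = b :: t := by
    cases hr : rt z x with
    | nil => exact absurd hr hl.1.ne_nil
    | cons b t => exact ⟨b, t, rfl⟩
  rw [ht] at he hl
  have e2 : t = t.reverse := by simpa [rho] using he
  have hnd := hl.1.isP.1
  rw [List.nodup_cons] at hnd
  have hlen := hl.2.1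
  simp at hlen
  exact reverse_ne_self hnd.2 (by omega) e2.symm

theorem clsAt_subset {n : ℕ} {z : List V} {x : V} : clsAt G n z x ⊆ cycAt G n x :=
  Finset.filter_subset _ _

theorem clsAt_disjoint {n : ℕ} {z w : List V} (h : ¬ Same z w) (x : V) :
    Disjoint (clsAt G n z x) (clsAt G n w x) := by
  rw [Finset.disjoint_left]
  intro l hl hl'
  rw [mem_clsAt] at hl hl'
  exact h (hl.2.trans hl'.2.symm)

/-- if all closed lists are in one class, there are at most two with head `x` -/
theorem cycAt_eq_clsAt {n : ℕ} {z : List V} (h : ∀ l ∈ cyc G n, Same z l) (x : V) :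
    cycAt G n x = clsAt G n z x := by
  ext l
  rw [mem_clsAt]
  refine ⟨fun hl => ⟨hl, h l ?_⟩, fun hl => hl.1⟩
  exact (Finset.mem_filter.1 hl).1

theorem cycAt_empty_of_not_mem {n : ℕ} {z : List V} (h : ∀ l ∈ cyc G n, Same z l) {x : V} (hx : x ∉ z) :
    cycAt G n x = ∅ := by
  rw [Finset.eq_empty_iff_forall_notMem]
  intro l hl
  have h1 := h l (Finset.mem_filter.1 hl).1
  have h2 := (mem_cycAt.1 hl).2.2
  exact hx (h1.mem_iff.2 (List.mem_of_mem_head? (by rw [h2]; rfl)))

variable [DecidableRel G.Adj]

/-- a closed list all of whose vertices have degree two uses all edges at its vertices -/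
theorem mem_of_adj_of_degree_two {n : ℕ} (hn : 3 ≤ n) {c : List V} (hc : c ∈ cyc G n) {p q : V}
    (hp : p ∈ c) (hd : G.degree p = 2) (hpq : G.Adj p q) : q ∈ c := by
  by_contra hq
  have h1 := rt_mem_cycAt hc hp
  have hh := mem_cycAt.1 h1
  obtain ⟨t, ht⟩ : ∃ t, rt c p = p :: t := by
    cases hr : rt c p with
    | nil => exact absurd hr hh.1.ne_nil
    | cons b t =>
      have := hh.2.2
      rw [hr] at this
      simp at this
      exact ⟨t, by rw [this]⟩
  rw [ht] at hh
  have hmem : ∀ x ∈ t, x ∈ c := by
    intro x hx
    have : (rt c p).IsRotated c := (rt_isRotated c p).symm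
    rw [ht] at this
    exact this.mem_iff.1 (List.mem_cons_of_mem _ hx)
  have hlen : t.length = n - 1 := by
    have := hh.2.1
    simp at this; omega
  have hne : t ≠ [] := by
    rintro rfl
    simp at hlen
    omega
  obtain ⟨a, b, ha, hb⟩ := exists_head_last (l := t) hne
  have hP := isP_cons.1 hh.1.isP
  have hab : a ≠ b := hP.2.1.ends_ne (by omega) ha hb
  have hpa : G.Adj p a := hP.2.2 a (by rw [ha]; rfl)
  have hbp : G.Adj b p := by
    refine hh.1.2.1 b ?_ p (by simp)
    rw [show p :: t = [p] ++ t by rfl, List.getLast?_append_of_ne_nil _ hne, hb]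
    rfl
  have hac : a ∈ c := hmem a (List.mem_of_mem_head? (by rw [ha]; rfl))
  have hbc : b ∈ c := hmem b (List.mem_of_mem_getLast? (by rw [hb]; rfl))
  have hsub : ({a, b, q} : Finset V) ⊆ G.neighborFinset p := by
    intro x hx
    simp only [Finset.mem_insert, Finset.mem_singleton] at hx
    rw [SimpleGraph.mem_neighborFinset]
    rcases hx with rfl | rfl | rfl
    · exact hpa
    · exact hbp.symm
    · exact hpq
  have hcard : ({a, b, q} : Finset V).card = 3 := by
    rw [Finset.card_eq_three]
    exact ⟨a, b, q, hab, fun e => hq (e ▸ hac), fun e => hq (e ▸ hbc), rfl⟩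
  have := Finset.card_le_card hsub
  rw [hcard, G.card_neighborFinset_eq_degree, hd] at this
  omega

/-- `P(k)`-graphs are connected: a list of vertices closed under adjacency contains all vertices -/
theorem PK.mem_of_closed (h : PK G k) {c : List V} {p0 : V} (hp0 : p0 ∈ c)
    (hcl : ∀ p ∈ c, ∀ q, G.Adj p q → q ∈ c) (u : V) : u ∈ c := by
  by_contra hu
  have hne : p0 ≠ u := by rintro rfl; exact hu hp0
  obtain ⟨l, hl, hll, hlh, hlt⟩ := h.exists hne
  obtain ⟨l1, p, l2, rfl, hp, hl2⟩ := exists_last (fun x => x ∈ c) l
    ⟨p0, List.mem_of_mem_head? (by rw [hlh]; rfl), hp0⟩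
  have hl2n : l2 ≠ [] := by
    rintro rfl
    rw [List.getLast?_append_of_ne_nil _ (by simp)] at hlt
    simp at hlt
    subst hlt
    exact hu hp
  obtain ⟨q, l3, rfl⟩ : ∃ q l3, l2 = q :: l3 := by
    cases l2 with
    | nil => exact absurd rfl hl2n
    | cons q l3 => exact ⟨q, l3, rfl⟩
  have hadj : G.Adj p q := by
    have := (isP_append.1 hl).2.1
    exact (isP_cons.1 this).2.2 q (by simp)
  exact hl2 q (by simp) (hcl p hp q hadj)

theorem card_toFinset_cyc {n : ℕ} {z : List V} (hz : z ∈ cyc G n) : z.toFinset.card = n := by
  rw [List.toFinset_card_of_nodup (mem_cyc.1 hz).1.isP.1, (mem_cyc.1 hz).2]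

/-- **A `P(k)`-graph with `k ≥ 3` has at least three `(k+1)`-cycles**: the sum of its degrees is at least
`6 (k+1)`. -/
theorem PK.three_le [Nontrivial V] (h : PK G k) (hk : 3 ≤ k) : 6 * (k + 1) ≤ ∑ x, G.degree x := by
  by_contra hcon
  push Not at hcon
  obtain ⟨x0, y0, hxy0⟩ := exists_pair_ne V
  have hdeg : ∀ x, (cycAt G (k + 1) x).card = G.degree x := fun x => h.card_cycAt (by omega) x
  have hdeg2 : ∀ x, 2 ≤ G.degree x := by
    intro x
    rw [← hdeg]
    exact h.two_le_cycAt (by omega) x
  have hn : k + 1 ≤ Fintype.card V := h.le_card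
  -- a first cycle
  obtain ⟨z, hz⟩ : (cyc G (k + 1)).Nonempty := by
    have := h.two_le_cycAt (by omega) x0
    obtain ⟨l, hl⟩ := Finset.card_pos.1 (show 0 < (cycAt G (k + 1) x0).card by omega)
    exact ⟨l, (Finset.mem_filter.1 hl).1⟩
  by_cases hone : ∀ l ∈ cyc G (k + 1), Same z l
  · -- only one cycle
    have hd2 : ∀ x, x ∈ z ∧ G.degree x = 2 := by
      intro x
      have hxz : x ∈ z := by
        by_contra hx
        have := hdeg x
        rw [cycAt_empty_of_not_mem hone hx] at this
        have h2 := hdeg2 x
        simp at this
        omega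
      refine ⟨hxz, ?_⟩
      rw [← hdeg, cycAt_eq_clsAt hone x, card_clsAt (by omega) hz hxz]
    have hcard : Fintype.card V ≤ k + 1 := by
      rw [← card_toFinset_cyc hz, ← Finset.card_univ]
      exact Finset.card_le_card (fun x _ => by simpa using (hd2 x).1)
    have hmod := h.cycAt_mod hk x0
    rw [(hd2 x0).2] at hmod
    obtain ⟨l, hl⟩ := Finset.card_pos.1 (show 0 < (cycAt G (k + 2) x0).card by omega)
    have h1 := mem_cycAt.1 hl
    have h2 := h1.1.isP.1.length_le_card
    omega
  · push Not at hone
    obtain ⟨w, hw, hzw⟩ := hone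
    by_cases htwo : ∃ t ∈ cyc G (k + 1), ¬ Same z t ∧ ¬ Same w t
    · -- three cycles
      obtain ⟨t, ht, hzt, hwt⟩ := htwo
      have hle : ∀ x, 2 * ((if x ∈ z then 1 else 0) + (if x ∈ w then 1 else 0) + (if x ∈ t then 1 else 0))
          ≤ G.degree x := by
        intro x
        have hd1 := clsAt_disjoint (G := G) (n := k + 1) hzw x
        have hd2 := clsAt_disjoint (G := G) (n := k + 1) hzt x
        have hd3 := clsAt_disjoint (G := G) (n := k + 1) hwt x
        have hcardz : ∀ y : List V, y ∈ cyc G (k + 1) →
            2 * (if x ∈ y then 1 else 0) ≤ (clsAt G (k + 1) y x).card := by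
          intro y hy
          by_cases hx : x ∈ y
          · rw [if_pos hx, card_clsAt (by omega) hy hx]
          · rw [if_neg hx]; omega
        have hsub : (clsAt G (k + 1) z x ∪ clsAt G (k + 1) w x) ∪ clsAt G (k + 1) t x
            ⊆ cycAt G (k + 1) x :=
          Finset.union_subset (Finset.union_subset clsAt_subset clsAt_subset) clsAt_subset
        have hc := Finset.card_le_card hsub
        rw [Finset.card_union_of_disjoint (Finset.disjoint_union_left.2 ⟨hd2, hd3⟩),
          Finset.card_union_of_disjoint hd1, hdeg] at hc
        have a1 := hcardz z hz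
        have a2 := hcardz w hw
        have a3 := hcardz t ht
        omega
      have hsum := Finset.sum_le_sum (fun x (_ : x ∈ (Finset.univ : Finset V)) => hle x)
      rw [← Finset.mul_sum, Finset.sum_add_distrib, Finset.sum_add_distrib] at hsum
      have hs : ∀ y : List V, y ∈ cyc G (k + 1) → ∑ x : V, (if x ∈ y then 1 else 0) = k + 1 := by
        intro y hy
        rw [Finset.sum_boole, ← card_toFinset_cyc hy]
        simp only [Nat.cast_id]
        congr 1
        ext x
        simp
      rw [hs z hz, hs w hw, hs t ht] at hsum
      omega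
    · -- exactly two cycles
      push Not at htwo
      have hall : ∀ l ∈ cyc G (k + 1), Same z l ∨ Same w l := by
        intro l hl
        by_cases hs : Same z l
        · exact Or.inl hs
        · exact Or.inr (htwo l hl hs)
      have hdeq : ∀ x, G.degree x = 2 * ((if x ∈ z then 1 else 0) + (if x ∈ w then 1 else 0)) := by
        intro x
        have hd1 := clsAt_disjoint (G := G) (n := k + 1) hzw x
        have e : cycAt G (k + 1) x = clsAt G (k + 1) z x ∪ clsAt G (k + 1) w x := by
          ext l
          rw [Finset.mem_union, mem_clsAt, mem_clsAt]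
          constructor
          · intro hl
            rcases hall l (Finset.mem_filter.1 hl).1 with h1 | h1
            · exact Or.inl ⟨hl, h1⟩
            · exact Or.inr ⟨hl, h1⟩
          · rintro (h1 | h1) <;> exact h1.1
        have hcardz : ∀ y : List V, y ∈ cyc G (k + 1) →
            (clsAt G (k + 1) y x).card = 2 * (if x ∈ y then 1 else 0) := by
          intro y hy
          by_cases hx : x ∈ y
          · rw [if_pos hx, card_clsAt (by omega) hy hx]
          · rw [if_neg hx, Finset.card_eq_zero, Finset.eq_empty_iff_forall_notMem]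
            intro l hl
            rw [mem_clsAt] at hl
            have h2 := (mem_cycAt.1 hl.1).2.2
            exact hx (hl.2.mem_iff.2 (List.mem_of_mem_head? (by rw [h2]; rfl)))
        rw [← hdeg, e, Finset.card_union_of_disjoint hd1, hcardz z hz, hcardz w hw]
        ring
      set Z := z.toFinset with hZ
      set W := w.toFinset with hW
      have hZc : Z.card = k + 1 := card_toFinset_cyc hz
      have hWc : W.card = k + 1 := card_toFinset_cyc hw
      set B := Z ∩ W with hB
      set D := (Finset.univ : Finset V) \ B with hD
      have hcover : Z ∪ W = Finset.univ := by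
        rw [Finset.eq_univ_iff_forall]
        intro x
        rw [Finset.mem_union, hZ, hW, List.mem_toFinset, List.mem_toFinset]
        by_contra hx
        push Not at hx
        have h1 := hdeq x
        rw [if_neg hx.1, if_neg hx.2] at h1
        have := hdeg2 x
        omega
      have hdB : ∀ x ∈ B, G.degree x = 4 := by
        intro x hx
        rw [hB, Finset.mem_inter, hZ, hW, List.mem_toFinset, List.mem_toFinset] at hx
        rw [hdeq x, if_pos hx.1, if_pos hx.2]
      have hdD : ∀ x ∈ D, G.degree x = 2 := by
        intro x hx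
        rw [hD, Finset.mem_sdiff] at hx
        have h1 := hdeq x
        have h2 := hdeg2 x
        by_cases a1 : x ∈ z
        · by_cases a2 : x ∈ w
          · exfalso
            apply hx.2
            rw [hB, Finset.mem_inter, hZ, hW, List.mem_toFinset, List.mem_toFinset]
            exact ⟨a1, a2⟩
          · rw [if_pos a1, if_neg a2] at h1; exact h1
        · by_cases a2 : x ∈ w
          · rw [if_neg a1, if_pos a2] at h1; exact h1
          · rw [if_neg a1, if_neg a2] at h1; omega
      have hVc : Fintype.card V + B.card = 2 * (k + 1) := by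
        rw [← Finset.card_univ, ← hcover, hB, Finset.card_union_add_card_inter, hZc, hWc]
        ring
      have hDc : D.card + B.card = Fintype.card V := by
        rw [hD, Finset.card_sdiff_of_subset (Finset.subset_univ _), Finset.card_univ]
        have := Finset.card_le_univ B
        omega
      have hBle : B.card ≤ k + 1 := by
        rw [← hZc]
        exact Finset.card_le_card Finset.inter_subset_left
      rcases D.eq_empty_or_nonempty with hDe | hDn
      · -- all degrees are 4
        have hd4 : ∀ x, 4 ≤ G.degree x := by
          intro x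
          have : x ∈ B := by
            by_contra hx
            have : x ∈ D := by rw [hD, Finset.mem_sdiff]; exact ⟨Finset.mem_univ _, hx⟩
            rw [hDe] at this
            simp at this
          rw [hdB x this]
        have h1 := h.growth0 hk
        have h2 := sum_degLast_ge hd4 (n := k + 1) (by omega)
        have h3 : 0 < (paths G (k + 1)).card := by
          obtain ⟨l, hl, hll, _⟩ := h.exists hxy0
          exact Finset.card_pos.2 ⟨l, mem_paths.2 ⟨hl, hll⟩⟩
        obtain ⟨l, hl⟩ := Finset.card_pos.1 (show 0 < (paths G (k + 2)).card by omega)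
        rw [mem_paths] at hl
        have h4 := hl.1.1.length_le_card
        rw [hDe] at hDc
        simp at hDc
        omega
      · obtain ⟨d0, hd0⟩ := hDn
        -- a (k+2)-cycle through d0
        have hmod0 := h.cycAt_mod hk d0
        rw [hdD d0 hd0] at hmod0
        obtain ⟨c, hc⟩ := Finset.card_pos.1 (show 0 < (cycAt G (k + 2) d0).card by omega)
        have hcc : c ∈ cyc G (k + 2) := (Finset.mem_filter.1 hc).1
        have hBc : ∀ y : List V, y ∈ cyc G (k + 2) → k + 2 ≤ (D ∩ y.toFinset).card + B.card := by
          intro y hy
          rw [← card_toFinset_cyc hy]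
          have : y.toFinset ⊆ (D ∩ y.toFinset) ∪ B := by
            intro x hx
            rw [Finset.mem_union, Finset.mem_inter, hD, Finset.mem_sdiff]
            by_cases hxB : x ∈ B
            · exact Or.inr hxB
            · exact Or.inl ⟨⟨Finset.mem_univ _, hxB⟩, hx⟩
          exact (Finset.card_le_card this).trans (Finset.card_union_le _ _)
        -- all (k+2)-cycles are the same
        have hsame : ∀ l ∈ cyc G (k + 2), Same c l := by
          by_contra hex
          push Not at hex
          obtain ⟨c', hc', hcs⟩ := hex
          have hdisj : Disjoint (D ∩ c.toFinset) (D ∩ c'.toFinset) := by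
            rw [Finset.disjoint_left]
            intro x hx hx'
            rw [Finset.mem_inter, List.mem_toFinset] at hx hx'
            have h1 := card_clsAt (G := G) (n := k + 2) (by omega) hcc hx.2
            have h2 := card_clsAt (G := G) (n := k + 2) (by omega) hc' hx'.2
            have h3 := clsAt_disjoint (G := G) (n := k + 2) hcs x
            have hsub : clsAt G (k + 2) c x ∪ clsAt G (k + 2) c' x ⊆ cycAt G (k + 2) x :=
              Finset.union_subset clsAt_subset clsAt_subset
            have h4 := Finset.card_le_card hsub
            rw [Finset.card_union_of_disjoint h3, h1, h2] at h4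
            have h5 := h.cycAt_le hk x
            rw [hdD x hx.1] at h5
            omega
          have h1 := hBc c hcc
          have h2 := hBc c' hc'
          have h3 : (D ∩ c.toFinset).card + (D ∩ c'.toFinset).card ≤ D.card := by
            rw [← Finset.card_union_of_disjoint hdisj]
            exact Finset.card_le_card (Finset.union_subset Finset.inter_subset_left
              Finset.inter_subset_left)
          omega
        -- all its vertices have degree two
        have hcD : ∀ x ∈ c, G.degree x = 2 := by
          intro x hx
          have h1 := card_clsAt (G := G) (n := k + 2) (by omega) hcc hx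
          rw [← cycAt_eq_clsAt hsame x] at h1
          have h2 := h.cycAt_mod hk x
          rw [h1] at h2
          by_cases hxB : x ∈ B
          · rw [hdB x hxB] at h2; omega
          · exact hdD x (by rw [hD, Finset.mem_sdiff]; exact ⟨Finset.mem_univ _, hxB⟩)
        have hd0c : d0 ∈ c := List.mem_of_mem_head? (by rw [(mem_cycAt.1 hc).2.2]; rfl)
        have hallc : ∀ u, u ∈ c := h.mem_of_closed hd0c
          (fun p hp q hpq => mem_of_adj_of_degree_two (by omega) hcc hp (hcD p hp) hpq)
        have hBe : B = ∅ := by
          rw [Finset.eq_empty_iff_forall_notMem]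
          intro x hx
          have h1 := hdB x hx
          have h2 := hcD x (hallc x)
          omega
        have hVle : Fintype.card V ≤ k + 2 := by
          rw [← card_toFinset_cyc hcc, ← Finset.card_univ]
          exact Finset.card_le_card (fun x _ => by simpa using hallc x)
        rw [hBe] at hVc
        simp at hVc
        omega

/-- a `P(k)`-graph with `k ≥ 3` has at least `3 (k+1)` edges -/
theorem PK.three_mul_le_edges [Nontrivial V] (h : PK G k) (hk : 3 ≤ k) :
    3 * (k + 1) ≤ G.edgeFinset.card := by
  have h1 := h.three_le hk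
  rw [G.sum_degrees_eq_twice_card_edges] at h1
  omega

end Pool.Agent.Work.KZ
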