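import Pool.Agent.Work.MP_f0e709_co.P2
import Pool.Agent.Work.MP_f0e709_co.M5b

/-! Consequences of the half-weight inequality (helper20): if every `(k+1)`-cycle of a `P(k)`-graph carries at
least half of the excess degree, then there are at most `2k - 2` `(k+1)`-cycles and at most
`2 (k-1)(k+1)` vertices; if all degrees are at most 4 there are at most four `(k+1)`-cycles. -/

set_option autoImplicit false

namespace Pool.Agent.Work.KZ

open Finset

variable {V : Type*} [Fintype V] [DecidableEq V] {G : SimpleGraph V} [DecidableRel G.Adj] {k : ℕ}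

/-- the half-weight inequality: every cycle of length `k + 1` carries at least half of the excess degree -/
def PFor (G : SimpleGraph V) [DecidableRel G.Adj] (k : ℕ) : Prop :=
  ∀ z : List V, IsCyc G z → z.length = k + 1 →
    ∑ x with x ∉ z, ((G.degree x : ℤ) - 2) ≤ ∑ x with x ∈ z, ((G.degree x : ℤ) - 2)

/-- summed over all closed lists: `∑_x (deg x - 2) (2 (k+1) deg x - ∑ deg) ≥ 0` -/
theorem PK.pfor_sum (h : PK G k) (hk : 3 ≤ k) (hF : PFor G k) :
    0 ≤ ∑ x, ((G.degree x : ℤ) - 2) * (2 * (k + 1) * G.degree x - ∑ y, (G.degree y : ℤ)) := by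
  have h1 : ∀ z ∈ cycs G (k + 1),
      0 ≤ ∑ x, ((G.degree x : ℤ) - 2) * ((if x ∈ z then 2 else 0) - 1) := by
    intro z hz
    rw [mem_cycs] at hz
    have h2 := hF z hz.1 hz.2
    have h3 : ∑ x, ((G.degree x : ℤ) - 2) * ((if x ∈ z then 2 else 0) - 1)
        = ∑ x with x ∈ z, ((G.degree x : ℤ) - 2) - ∑ x with x ∉ z, ((G.degree x : ℤ) - 2) := by
      rw [Finset.sum_filter, Finset.sum_filter, ← Finset.sum_sub_distrib]
      apply Finset.sum_congr rfl
      intro x _
      by_cases hx : x ∈ z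
      · simp [hx]
      · simp [hx]
    rw [h3]
    linarith
  have h2 : 0 ≤ ∑ z ∈ cycs G (k + 1), ∑ x, ((G.degree x : ℤ) - 2) * ((if x ∈ z then 2 else 0) - 1) :=
    Finset.sum_nonneg h1
  rw [Finset.sum_comm] at h2
  refine h2.trans (le_of_eq ?_)
  apply Finset.sum_congr rfl
  intro x _
  rw [← Finset.mul_sum]
  congr 1
  rw [Finset.sum_sub_distrib]
  have h3 : ∑ z ∈ cycs G (k + 1), (if x ∈ z then (2 : ℤ) else 0)
      = 2 * (((cycs G (k + 1)).filter (fun z => x ∈ z)).card : ℤ) := by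
    rw [← Finset.sum_filter, Finset.sum_const, nsmul_eq_mul]
    ring
  rw [h3, h.card_cycs_mem hk x]
  have h4 : ∑ _z ∈ cycs G (k + 1), (1 : ℤ) = ((cycs G (k + 1)).card : ℤ) := by simp
  rw [h4, h.card_cycs hk]
  push_cast
  ring

/-- not all vertices have degree two -/
theorem PK.exists_four_le [Nontrivial V] (h : PK G k) (hk : 3 ≤ k) : ∃ x, 4 ≤ G.degree x := by
  by_contra hcon
  push Not at hcon
  have h2 : ∀ x, G.degree x = 2 := by
    intro x
    have h1 := h.degree_pos hk x
    have h3 := h.even_degree hk x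
    have h4 := hcon x
    obtain ⟨r, hr⟩ := h3
    omega
  obtain ⟨y0, -, -⟩ := exists_pair_ne V
  obtain ⟨y', hy'⟩ := (G.degree_pos_iff_exists_adj y0).1 (h.degree_pos hk y0)
  obtain ⟨z, h3, h4, h5, h6⟩ := h.exists_cyc (by omega) hy'
  have hz : z ∈ cyc G (k + 1) := mem_cyc.2 ⟨h3, h4⟩
  have hall : ∀ u, u ∈ z := by
    intro u
    refine h.mem_of_closed (List.mem_of_getLast? h6) ?_ u
    intro p hp q hpq
    exact mem_of_adj_of_degree_two (by omega) hz hp (h2 p) hpq
  have hc : Fintype.card V ≤ k + 1 := by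
    rw [← card_toFinset_cyc hz, ← Finset.card_univ]
    exact Finset.card_le_card (fun x _ => by simpa using hall x)
  have h7 := h.three_le hk
  have h8 : ∑ x, G.degree x = 2 * Fintype.card V := by
    rw [Finset.sum_congr rfl (fun x _ => h2 x)]
    simp [mul_comm]
  omega

/-- under the half-weight inequality some vertex lies on at least half of the `(k+1)`-cycles:
`∑ deg ≤ 2 (k+1) deg x` means that the number `m` of `(k+1)`-cycles is at most `deg x`, and `x` lies on
`deg x / 2` of them -/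
theorem PK.pfor_exists [Nontrivial V] (h : PK G k) (hk : 3 ≤ k) (hF : PFor G k) :
    ∃ x, 4 ≤ G.degree x ∧ ∑ y, G.degree y ≤ 2 * (k + 1) * G.degree x := by
  by_contra hcon
  push Not at hcon
  have h1 := h.pfor_sum hk hF
  obtain ⟨x0, hx0⟩ := h.exists_four_le hk
  have hneg : ∑ x, ((G.degree x : ℤ) - 2) * (2 * (k + 1) * G.degree x - ∑ y, (G.degree y : ℤ)) < 0 := by
    have h2 : ∀ x, 2 ≤ G.degree x ∧ (4 ≤ G.degree x ∨ G.degree x = 2) := by
      intro x
      have h3 := h.degree_pos hk x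
      obtain ⟨r, hr⟩ := h.even_degree hk x
      omega
    have hlt : ∀ x, 4 ≤ G.degree x →
        ((G.degree x : ℤ) - 2) * (2 * (k + 1) * G.degree x - ∑ y, (G.degree y : ℤ)) < 0 := by
      intro x hx
      have h3 := hcon x hx
      have h4 : (2 * (k + 1) * G.degree x : ℤ) < ∑ y, (G.degree y : ℤ) := by exact_mod_cast h3
      have h5 : (4 : ℤ) ≤ G.degree x := by exact_mod_cast hx
      exact mul_neg_of_pos_of_neg (by linarith) (by linarith)
    refine Finset.sum_neg' ?_ ⟨x0, Finset.mem_univ _, hlt x0 hx0⟩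
    intro x _
    rcases (h2 x).2 with h3 | h3
    · exact (hlt x h3).le
    · rw [h3]; simp
  omega

/-- at most `2k - 2` cycles of length `k+1`, i.e. `|E| ≤ (2k-2)(k+1)` -/
theorem PK.pfor_edges [Nontrivial V] (h : PK G k) (hk : 3 ≤ k) (hF : PFor G k) :
    ∑ y, G.degree y ≤ 2 * (k + 1) * (2 * k - 2) := by
  obtain ⟨x, -, hx⟩ := h.pfor_exists hk hF
  exact hx.trans (Nat.mul_le_mul_left _ (h.degree_le hk x))

/-- ORDER: at most `2 (k - 1)(k + 1)` vertices -/
theorem PK.pfor_card [Nontrivial V] (h : PK G k) (hk : 3 ≤ k) (hF : PFor G k) :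
    Fintype.card V ≤ 2 * (k - 1) * (k + 1) := by
  have h1 := h.pfor_edges hk hF
  have h2 : 2 * Fintype.card V ≤ ∑ y, G.degree y := by
    calc 2 * Fintype.card V = ∑ _y : V, 2 := by simp [mul_comm]
      _ ≤ _ := by
        apply Finset.sum_le_sum
        intro x _
        have h3 := h.degree_pos hk x
        obtain ⟨r, hr⟩ := h.even_degree hk x
        omega
  have h3 : 2 * (k + 1) * (2 * k - 2) = 2 * (2 * (k - 1) * (k + 1)) := by
    obtain ⟨q, rfl⟩ : ∃ q, k = q + 1 := ⟨k - 1, by omega⟩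
    have e1 : 2 * (q + 1) - 2 = 2 * q := by omega
    have e2 : q + 1 - 1 = q := by omega
    rw [e1, e2]
    ring
  omega

/-- in terms of the number `m` of `(k+1)`-cycles, `∑ deg = 2 (k+1) m`: some vertex `x` lies on at least `m / 2`
of them -/
theorem PK.pfor_half [Nontrivial V] (h : PK G k) (hk : 3 ≤ k) (hF : PFor G k) {m : ℕ}
    (hm : ∑ y, G.degree y = 2 * (k + 1) * m) : ∃ x, 4 ≤ G.degree x ∧ m ≤ G.degree x := by
  obtain ⟨x, hx4, hx⟩ := h.pfor_exists hk hF
  refine ⟨x, hx4, ?_⟩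
  rw [hm] at hx
  exact Nat.le_of_mul_le_mul_left hx (by omega)

/-- all degrees at most four: at most four `(k+1)`-cycles -/
theorem PK.pfor_four [Nontrivial V] (h : PK G k) (hk : 3 ≤ k) (hF : PFor G k)
    (hd : ∀ x, G.degree x ≤ 4) : ∑ y, G.degree y ≤ 8 * (k + 1) := by
  obtain ⟨x, -, hx⟩ := h.pfor_exists hk hF
  have := hd x
  calc ∑ y, G.degree y ≤ 2 * (k + 1) * G.degree x := hx
    _ ≤ 2 * (k + 1) * 4 := Nat.mul_le_mul_left _ this
    _ = 8 * (k + 1) := by ring

end Pool.Agent.Work.KZ
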