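import Pool.Agent.Work.MP_f0e709_co.T1b
import Pool.Agent.Work.MP_f0e709_co.T2

/-! The pseudoforest lemma, part 3 (helper14): a graph with more edges than vertices contains an even cycle or a
dumbbell; the half-weight inequality `PFor`. -/

set_option autoImplicit false

namespace Pool.Agent.Work.KZ

open Finset

variable {V : Type*} {G : SimpleGraph V} {k : ℕ}

theorem split_idx {α : Type*} {l : List α} {i : ℕ} {x : α} (hi : l[i]? = some x) :
    ∃ A B, l = A ++ x :: B ∧ A.length = i := by
  obtain ⟨hi', rfl⟩ := List.getElem?_eq_some_iff.1 hi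
  refine ⟨l.take i, l.drop (i + 1), ?_, ?_⟩
  · rw [List.getElem_cons_drop, List.take_append_drop]
  · rw [List.length_take]; omega

/-- an even cycle or a dumbbell with all vertices in `S` -/
def Bad (G : SimpleGraph V) (S : V → Prop) : Prop :=
  (∃ A M D, Dumb G A M D ∧ ∀ v ∈ A ++ M ++ D, S v) ∨
    (∃ (Y : List V) (r : ℕ), IsCyc G Y ∧ Y.length = 2 * r ∧ 2 ≤ r ∧ ∀ y ∈ Y, S y)

/-- the end vertices of a path are joined to inner vertices -/
theorem bad_of_path {S : V → Prop} {l : List V} (hl : IsP G l) (hS : ∀ v ∈ l, S v) {i j : ℕ} {p0 pm pi pj : V}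
    (hi : 2 ≤ i) (hj : j + 2 < l.length) (hh : l.head? = some p0) (ht : l.getLast? = some pm)
    (hpi : l[i]? = some pi) (hpj : l[j]? = some pj) (h0 : G.Adj p0 pi) (hm : G.Adj pm pj)
    (hne : ¬ (i + 1 = l.length ∧ j = 0)) : Bad G S := by
  have him : i < l.length := (List.getElem?_eq_some_iff.1 hpi).1
  rcases lt_trichotomy i j with hij | hij | hij
  · -- dumbbell
    left
    obtain ⟨A, B, hAB, hA⟩ := split_idx hpi
    have hBl : l.length = i + B.length + 1 := by
      have := congrArg List.length hAB
      simp at this; omega
    have hBj : B[j - i - 1]? = some pj := by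
      rw [hAB, List.getElem?_append_right (by omega), hA] at hpj
      obtain ⟨e, he⟩ : ∃ e, j - i = e + 1 := ⟨j - i - 1, by omega⟩
      rw [he] at hpj ⊢
      simpa using hpj
    obtain ⟨M, D, hMD, hM⟩ := split_idx hBj
    have hDl : B.length = (j - i - 1) + D.length + 1 := by
      have := congrArg List.length hMD
      simp at this; omega
    have hAh : A.head? = some p0 := by
      rw [hAB, List.head?_append_of_ne_nil _ (by intro h'; rw [h'] at hA; simp at hA; omega)] at hh
      exact hh
    have hDt : D.getLast? = some pm := by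
      have hDn : D ≠ [] := by intro h'; rw [h'] at hDl; simp at hDl; omega
      rw [hAB, hMD, show A ++ pi :: (M ++ pj :: D) = (A ++ pi :: (M ++ [pj])) ++ D
        by simp, List.getLast?_append_of_ne_nil _ hDn] at ht
      exact ht
    refine ⟨A, pi :: M ++ [pj], D, ⟨?_, by omega, by omega, by simp, ?_, ?_⟩, ?_⟩
    · rw [show A ++ (pi :: M ++ [pj]) ++ D = A ++ pi :: (M ++ pj :: D) by simp,
        ← hMD, ← hAB]
      exact hl
    · intro a ha x hx
      rw [hAh] at ha
      have e1 : a = p0 := by simpa using ha.symm
      have e2 : x = pi := by simpa using hx.symm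
      rw [e1, e2]; exact h0
    · intro a ha x hx
      rw [hDt] at ha
      rw [List.getLast?_append_of_ne_nil _ (by simp)] at hx
      have e1 : a = pm := by simpa using ha.symm
      have e2 : x = pj := by simpa using hx.symm
      rw [e1, e2]; exact hm
    · intro v hv
      apply hS
      rw [hAB, hMD]
      simp at hv ⊢
      tauto
  · -- figure eight
    left
    subst hij
    have hpp : pj = pi := by
      rw [hpi] at hpj
      simpa using hpj.symm
    subst hpp
    obtain ⟨A, B, hAB, hA⟩ := split_idx hpi
    have hBl : l.length = i + B.length + 1 := by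
      have := congrArg List.length hAB
      simp at this; omega
    have hAh : A.head? = some p0 := by
      rw [hAB, List.head?_append_of_ne_nil _ (by intro h'; rw [h'] at hA; simp at hA; omega)] at hh
      exact hh
    have hDt : B.getLast? = some pm := by
      have hDn : B ≠ [] := by intro h'; rw [h'] at hBl; simp at hBl; omega
      rw [hAB, show A ++ pj :: B = (A ++ [pj]) ++ B by simp, List.getLast?_append_of_ne_nil _ hDn] at ht
      exact ht
    refine ⟨A, [pj], B, ⟨?_, by omega, by omega, by simp, ?_, ?_⟩, ?_⟩
    · rw [show A ++ [pj] ++ B = A ++ pj :: B by simp, ← hAB]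
      exact hl
    · intro a ha x hx
      rw [hAh] at ha
      have e1 : a = p0 := by simpa using ha.symm
      have e2 : x = pj := by simpa using hx.symm
      rw [e1, e2]; exact h0
    · intro a ha x hx
      rw [hDt] at ha
      have e1 : a = pm := by simpa using ha.symm
      have e2 : x = pj := by simpa using hx.symm
      rw [e1, e2]; exact hm
    · intro v hv
      apply hS
      rw [hAB]
      simp at hv ⊢
      tauto
  · -- theta
    right
    obtain ⟨b, B, hAB, hb⟩ := split_idx hpj
    have hBl : l.length = j + B.length + 1 := by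
      have := congrArg List.length hAB
      simp at this; omega
    have hBi : B[i - j - 1]? = some pi := by
      rw [hAB, List.getElem?_append_right (by omega), hb] at hpi
      obtain ⟨e, he⟩ : ∃ e, i - j = e + 1 := ⟨i - j - 1, by omega⟩
      rw [he] at hpi ⊢
      simpa using hpi
    obtain ⟨a, f, hMD, ha⟩ := split_idx hBi
    have hfl : B.length = (i - j - 1) + f.length + 1 := by
      have := congrArg List.length hMD
      simp at this; omega
    have hl2 : l = b ++ pj :: (a ++ pi :: f) := by rw [← hMD]; exact hAB
    -- the cycle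
    have hcyc0 : IsCyc G (b ++ (pj :: a ++ [pi])) := by
      refine ⟨?_, ?_, by simp; omega⟩
      · rw [hl2] at hl
        exact hl.of_prefix ⟨f, by simp⟩
      · intro x hx y hy
        have e1 : x = pi := by
          rw [List.getLast?_append_of_ne_nil _ (by simp), List.getLast?_append_of_ne_nil _ (by simp)] at hx
          simpa using hx.symm
        have e2 : y = p0 := by
          have : (b ++ (pj :: a ++ [pi])).head? = l.head? := by
            rw [hl2]
            cases b <;> simp
          rw [this, hh] at hy
          simpa using hy.symm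
        rw [e1, e2]
        exact h0.symm
    have hcyc : IsCyc G (pj :: a ++ pi :: b) := by
      have := hcyc0.rot
      simpa using this
    have hear : IsP G (pj :: f.reverse ++ [pi]) := by
      have h1 : IsP G ((pi :: f)) := by
        rw [hl2] at hl
        exact hl.of_suffix ⟨b ++ pj :: a, by simp⟩
      have h2 : IsP G (f.reverse ++ [pi]) := by
        have := h1.reverse
        simpa using this
      rw [show pj :: f.reverse ++ [pi] = pj :: (f.reverse ++ [pi]) by simp, isP_cons]
      have hnd := hl.1
      rw [hl2] at hnd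
      refine ⟨?_, h2, ?_⟩
      · intro hcm
        rw [List.nodup_append'] at hnd
        have := hnd.2.1
        rw [List.nodup_cons] at this
        apply this.1
        simp at hcm ⊢
        tauto
      · intro y hy
        have e1 : y = pm := by
          have : (f.reverse ++ [pi]).head? = l.getLast? := by
            rw [hl2, show b ++ pj :: (a ++ pi :: f) = (b ++ pj :: a) ++ (pi :: f) by simp,
              List.getLast?_append_of_ne_nil _ (by simp)]
            rcases List.eq_nil_or_concat f with h' | ⟨f', e, h'⟩
            · subst h'; simp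
            · rw [h', List.concat_eq_append, show pi :: (f' ++ [e]) = (pi :: f') ++ [e] by simp,
                List.getLast?_append_of_ne_nil _ (by simp)]
              simp
          rw [this, ht] at hy
          simpa using hy.symm
        rw [e1]
        exact hm.symm
    have hdis : ∀ x ∈ f.reverse, x ∉ (pj :: a ++ pi :: b) := by
      intro x hx hx'
      rw [List.mem_reverse] at hx
      have hnd := hl.1
      rw [hl2, show b ++ pj :: (a ++ pi :: f) = (b ++ (pj :: a ++ [pi])) ++ f by simp,
        List.nodup_append'] at hnd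
      refine hnd.2.2 ?_ hx
      simp at hx' ⊢
      tauto
    have hmem : ∀ y, y ∈ (pj :: a ++ pi :: b) ∨ y ∈ f.reverse → S y := by
      intro y hy
      apply hS
      rw [hl2]
      simp at hy ⊢
      tauto
    have hcl : (pj :: a ++ pi :: b).length = i + 1 := by simp; omega
    rcases Nat.even_or_odd' (i + 1) with ⟨r, hr | hr⟩
    · exact ⟨_, r, hcyc, by omega, by omega, fun y hy => hmem y (Or.inl hy)⟩
    · obtain ⟨Y, r', hY, hYl, hr2, -, hYm⟩ := hcyc.even_of_ear hear hdis (by
        intro hf
        have hf0 : f.length = 0 := by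
          rw [List.reverse_eq_nil_iff] at hf
          rw [hf]; rfl
        constructor
        · intro h'; rw [h'] at ha; simp at ha; omega
        · intro h'; rw [h'] at hb; simp at hb; omega) ⟨r, by omega⟩
      exact ⟨Y, r', hY, hYl, hr2, fun y hy => hmem y (hYm y hy)⟩

section count

variable [DecidableEq V] [DecidableRel G.Adj]

/-- number of pairs `(x, y)`, `x ∈ S`, `y ∈ T`, adjacent -/
def dd (G : SimpleGraph V) [DecidableRel G.Adj] (S T : Finset V) : ℕ := ∑ x ∈ S, (T.filter (G.Adj x)).card

theorem dd_eq (S T : Finset V) : dd G S T = ∑ x ∈ S, ∑ y ∈ T, if G.Adj x y then 1 else 0 := by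
  unfold dd
  apply Finset.sum_congr rfl
  intro x _
  rw [Finset.card_filter]

theorem dd_comm (S T : Finset V) : dd G S T = dd G T S := by
  rw [dd_eq, dd_eq, Finset.sum_comm]
  apply Finset.sum_congr rfl
  intro x _
  apply Finset.sum_congr rfl
  intro y _
  simp only [G.adj_comm]

theorem dd_union_left {S S' T : Finset V} (h : Disjoint S S') : dd G (S ∪ S') T = dd G S T + dd G S' T := by
  unfold dd
  rw [Finset.sum_union h]

theorem dd_union_right {S T T' : Finset V} (h : Disjoint T T') : dd G S (T ∪ T') = dd G S T + dd G S T' := by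
  rw [dd_comm, dd_union_left h, dd_comm T, dd_comm T']

/-- a longest path of `S` -/
def Longest (G : SimpleGraph V) (S : Finset V) (l : List V) : Prop :=
  IsP G l ∧ (∀ v ∈ l, v ∈ S) ∧ ∀ l', IsP G l' → (∀ v ∈ l', v ∈ S) → l'.length ≤ l.length

theorem exists_longest {S : Finset V} (hS : S.Nonempty) : ∃ l, Longest G S l ∧ l ≠ [] := by
  classical
  let P : ℕ → Prop := fun n => ∃ l : List V, IsP G l ∧ (∀ v ∈ l, v ∈ S) ∧ l.length = n
  have hb : ∀ n, P n → n ≤ S.card := by
    rintro n ⟨l, h1, h2, rfl⟩
    rw [← List.toFinset_card_of_nodup h1.1]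
    exact Finset.card_le_card (fun v hv => h2 v (by simpa using hv))
  obtain ⟨x, hx⟩ := hS
  have h1 : P 1 := ⟨[x], IsP.singleton x, by simp [hx], rfl⟩
  have h2 : P (Nat.findGreatest P S.card) := Nat.findGreatest_spec (hb 1 h1) h1
  obtain ⟨l, hl, hlS, hll⟩ := h2
  refine ⟨l, ⟨hl, hlS, ?_⟩, ?_⟩
  · intro l' hl' hlS'
    rw [hll]
    exact Nat.le_findGreatest (hb _ ⟨l', hl', hlS', rfl⟩) ⟨l', hl', hlS', rfl⟩
  · intro h0
    have : 1 ≤ Nat.findGreatest P S.card := Nat.le_findGreatest (hb 1 h1) h1
    rw [h0] at hll
    simp at hll
    omega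

theorem Longest.reverse {S : Finset V} {l : List V} (h : Longest G S l) : Longest G S l.reverse := by
  obtain ⟨h1, h2, h3⟩ := h
  exact ⟨h1.reverse, fun v hv => h2 v (by simpa using hv), fun l' h4 h5 => by simpa using h3 l' h4 h5⟩

theorem Longest.head_nbr {S : Finset V} {l : List V} (h : Longest G S l) (hn : 0 < l.length) {x : V}
    (hx : x ∈ S) (hadj : G.Adj l[0] x) : x ∈ l := by
  by_contra hcon
  obtain ⟨h1, h2, h3⟩ := h
  have h4 : IsP G (x :: l) := by
    rw [isP_cons]
    refine ⟨hcon, h1, ?_⟩
    intro y hy
    rw [List.head?_eq_getElem?, List.getElem?_eq_getElem hn] at hy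
    have : y = l[0] := by simpa using hy.symm
    rw [this]; exact hadj.symm
  have := h3 _ h4 (by
    intro v hv
    rcases List.mem_cons.1 hv with h5 | h5
    · rw [h5]; exact hx
    · exact h2 v h5)
  simp at this

/-- the first vertex of a longest path has a neighbour with index at least 2 -/
theorem Longest.exists_idx {S : Finset V} {l : List V} (h : Longest G S l) (hn : 0 < l.length)
    (hdeg : ∀ x ∈ S, 2 ≤ (S.filter (G.Adj x)).card) :
    ∃ i, ∃ (hi : i < l.length), 2 ≤ i ∧ G.Adj l[0] l[i] := by
  have h0 : l[0] ∈ S := h.2.1 _ (List.getElem_mem hn)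
  have h1 := hdeg _ h0
  obtain ⟨x, hx, y, hy, hxy⟩ := Finset.one_lt_card.1 (show 1 < (S.filter (G.Adj l[0])).card by omega)
  rw [Finset.mem_filter] at hx hy
  have hxl := h.head_nbr hn hx.1 hx.2
  have hyl := h.head_nbr hn hy.1 hy.2
  obtain ⟨i, hi, hix⟩ := List.getElem_of_mem hxl
  obtain ⟨j, hj, hjy⟩ := List.getElem_of_mem hyl
  have hi0 : i ≠ 0 := by
    intro h'
    subst h'
    rw [← hix] at hx
    exact G.loopless.irrefl _ hx.2
  have hj0 : j ≠ 0 := by
    intro h'
    subst h'
    rw [← hjy] at hy
    exact G.loopless.irrefl _ hy.2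
  have hij : i ≠ j := by
    intro h'
    subst h'
    exact hxy (hix.symm.trans hjy)
  rcases Nat.lt_or_ge i 2 with h2 | h2
  · exact ⟨j, hj, by omega, by rw [hjy]; exact hy.2⟩
  · exact ⟨i, hi, h2, by rw [hix]; exact hx.2⟩

/-- a longest path, if there is no bad configuration, closes up, and its first vertex has only two neighbours -/
theorem Longest.closed {S : Finset V} {l : List V} (h : Longest G S l) (hn : 0 < l.length)
    (hdeg : ∀ x ∈ S, 2 ≤ (S.filter (G.Adj x)).card) (hbad : ¬ Bad G (fun v => v ∈ S)) :
    IsCyc G l ∧ (S.filter (G.Adj l[0])).card ≤ 2 ∧ ∀ x ∈ S, G.Adj l[0] x → x ∈ l := by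
  have hnr : 0 < l.reverse.length := by simpa using hn
  obtain ⟨i, hi, hi2, hadj⟩ := h.exists_idx hn hdeg
  obtain ⟨j', hj', hj2, hadj'⟩ := h.reverse.exists_idx hnr hdeg
  have hl3 : 3 ≤ l.length := by omega
  have hj'l : j' < l.length := by simpa using hj'
  -- the index of the neighbour of the last vertex
  have hadj2 : G.Adj (l[l.length - 1]'(by omega)) (l[l.length - 1 - j']'(by omega)) := by
    rw [List.getElem_reverse, List.getElem_reverse] at hadj'
    simpa using hadj'
  have key : ∀ i, ∀ (hi : i < l.length), 2 ≤ i → G.Adj l[0] l[i] → i + 1 = l.length ∧ l.length - 1 - j' = 0 := by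
    intro i hi hi2 hadj
    by_contra hcon
    exact hbad (bad_of_path h.1 h.2.1 hi2 (by omega) (List.head?_eq_getElem?.trans (List.getElem?_eq_getElem hn))
      ((List.getLast?_eq_getElem? (l := l)).trans (List.getElem?_eq_getElem (by omega)))
      (List.getElem?_eq_getElem hi) (List.getElem?_eq_getElem (by omega)) hadj hadj2 hcon)
  have hk1 := key i hi hi2 hadj
  have hil : i = l.length - 1 := by omega
  subst hil
  refine ⟨⟨h.1, ?_, hl3⟩, ?_, fun x hx hadjx => h.head_nbr hn hx hadjx⟩
  · intro x hx y hy
    rw [List.getLast?_eq_getElem?, List.getElem?_eq_getElem (by omega)] at hx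
    rw [List.head?_eq_getElem?, List.getElem?_eq_getElem hn] at hy
    have e1 : x = l[l.length - 1]'(by omega) := by simpa using hx.symm
    have e2 : y = l[0] := by simpa using hy.symm
    rw [e1, e2]
    exact hadj.symm
  · have hsub : S.filter (G.Adj l[0]) ⊆ {l[1]'(by omega), l[l.length - 1]'(by omega)} := by
      intro x hx
      rw [Finset.mem_filter] at hx
      obtain ⟨i, hi, hix⟩ := List.getElem_of_mem (h.head_nbr hn hx.1 hx.2)
      rw [Finset.mem_insert, Finset.mem_singleton]
      rcases Nat.lt_or_ge i 2 with h2 | h2
      · have hi0 : i ≠ 0 := by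
          intro h'
          subst h'
          rw [← hix] at hx
          exact G.loopless.irrefl _ hx.2
        have : i = 1 := by omega
        subst this
        exact Or.inl hix.symm
      · have h3 := key i hi h2 (by rw [hix]; exact hx.2)
        have : i = l.length - 1 := by omega
        subst this
        exact Or.inr hix.symm
    exact (Finset.card_le_card hsub).trans Finset.card_le_two

/-- a set of vertices with more edges than vertices contains an even cycle or a dumbbell -/
theorem bad_of_card (S : Finset V) (hS : 2 * S.card < dd G S S) : Bad G (fun v => v ∈ S) := by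
  induction S using Finset.strongInduction with
  | H S ih =>
    have mono : ∀ S' : Finset V, S' ⊂ S → 2 * S'.card < dd G S' S' → Bad G (fun v => v ∈ S) := by
      intro S' hS' hlt
      rcases ih S' hS' hlt with ⟨A, M, D, h1, h2⟩ | ⟨Y, r, h1, h2, h3, h4⟩
      · exact Or.inl ⟨A, M, D, h1, fun v hv => hS'.1 (h2 v hv)⟩
      · exact Or.inr ⟨Y, r, h1, h2, h3, fun v hv => hS'.1 (h4 v hv)⟩
    by_cases hdeg : ∀ x ∈ S, 2 ≤ (S.filter (G.Adj x)).card
    · by_contra hbad
      have hSn : S.Nonempty := by
        rw [Finset.nonempty_iff_ne_empty]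
        rintro rfl
        simp [dd] at hS
      obtain ⟨l, hl, hln⟩ := exists_longest (G := G) hSn
      have hn : 0 < l.length := List.length_pos_iff.2 hln
      have hcyc := (hl.closed hn hdeg hbad).1
      -- every vertex of `l`
      have hall : ∀ v ∈ l, (S.filter (G.Adj v)).card ≤ 2 ∧ ∀ x ∈ S, G.Adj v x → x ∈ l := by
        intro v hv
        obtain ⟨l', hl', hp⟩ := hcyc.rot_to hv
        have hL : Longest G S (v :: l') :=
          ⟨hl'.isP, fun w hw => hl.2.1 w (hp.mem_iff.1 hw), fun l'' h1 h2 => by
            rw [hp.length_eq]; exact hl.2.2 l'' h1 h2⟩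
        have := hL.closed (by simp) hdeg hbad
        refine ⟨this.2.1, fun x hx hadj => hp.mem_iff.1 (this.2.2 x hx hadj)⟩
      set T := l.toFinset with hT
      have hTS : T ⊆ S := fun v hv => hl.2.1 v (by simpa [hT] using hv)
      have hTn : T.Nonempty := by
        obtain ⟨v, hv⟩ := List.exists_mem_of_ne_nil l hln
        exact ⟨v, by simpa [hT] using hv⟩
      refine hbad (mono (S \ T) ?_ ?_)
      · exact Finset.sdiff_ssubset hTS hTn
      · have hdisj : Disjoint (S \ T) T := Finset.sdiff_disjoint
        have hun : S = (S \ T) ∪ T := (Finset.sdiff_union_of_subset hTS).symm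
        have h1 : dd G S S = dd G (S \ T) (S \ T) + dd G T (S \ T) + dd G T S := by
          have e1 : dd G S S = dd G (S \ T) S + dd G T S := by
            conv_lhs => rw [hun]
            rw [dd_union_left hdisj, ← hun]
          have e2 : dd G (S \ T) S = dd G (S \ T) (S \ T) + dd G T (S \ T) := by
            rw [dd_comm T (S \ T), ← dd_union_right hdisj, ← hun]
          rw [e1, e2]
        have h2 : dd G T (S \ T) = 0 := by
          unfold dd
          apply Finset.sum_eq_zero
          intro v hv
          rw [Finset.card_eq_zero, Finset.filter_eq_empty_iff]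
          intro x hx hadj
          rw [Finset.mem_sdiff] at hx
          exact hx.2 (by
            rw [hT, List.mem_toFinset]
            exact (hall v (by simpa [hT] using hv)).2 x hx.1 hadj)
        have h3 : dd G T S ≤ 2 * T.card := by
          unfold dd
          calc ∑ x ∈ T, (S.filter (G.Adj x)).card ≤ ∑ _x ∈ T, 2 :=
                Finset.sum_le_sum (fun v hv => (hall v (by simpa [hT] using hv)).1)
            _ = 2 * T.card := by simp [mul_comm]
        have h4 : (S \ T).card + T.card = S.card := Finset.card_sdiff_add_card_eq_card hTS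
        omega
    · push Not at hdeg
      obtain ⟨x, hx, hxd⟩ := hdeg
      refine mono (S.erase x) (Finset.erase_ssubset hx) ?_
      have hun : S = (S.erase x) ∪ {x} := by
        ext y
        simp only [Finset.mem_union, Finset.mem_erase, Finset.mem_singleton]
        constructor
        · intro hy
          by_cases h' : y = x
          · exact Or.inr h'
          · exact Or.inl ⟨h', hy⟩
        · rintro (h' | h')
          · exact h'.2
          · rw [h']; exact hx
      have hdisj : Disjoint (S.erase x) {x} := by simp
      have e0 : dd G S S = dd G (S.erase x) S + dd G {x} S := by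
        conv_lhs => rw [hun]
        rw [dd_union_left hdisj, ← hun]
      have e1 : dd G (S.erase x) S = dd G (S.erase x) (S.erase x) + dd G (S.erase x) {x} := by
        rw [← dd_union_right hdisj, ← hun]
      have e2 : dd G {x} S = (S.filter (G.Adj x)).card := by simp [dd]
      have e3 : dd G (S.erase x) {x} ≤ (S.filter (G.Adj x)).card := by
        rw [dd_comm]
        simp only [dd, Finset.sum_singleton]
        exact Finset.card_le_card (Finset.filter_subset_filter _ (Finset.erase_subset _ _))
      have e4 : (S.erase x).card + 1 = S.card := Finset.card_erase_add_one hx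
      omega

end count

/-- the half-weight inequality -/
theorem PK.pfor [Fintype V] [DecidableEq V] [DecidableRel G.Adj] (h : PK G k) (hk : 3 ≤ k)
    (hR1 : Circ G k) (hR2 : BranchEnd G k) : PFor G k := by
  intro z hz hzl
  by_contra hcon
  push Not at hcon
  set O : Finset V := Finset.univ.filter (fun x => x ∉ z) with hO
  set Z : Finset V := Finset.univ.filter (fun x => x ∈ z) with hZ
  have hdisj : Disjoint O Z := by
    rw [Finset.disjoint_left]
    intro x hx hx'
    simp [hO] at hx
    simp [hZ] at hx'
    exact hx hx'
  have hun : (Finset.univ : Finset V) = O ∪ Z := by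
    ext x
    by_cases hx : x ∈ z <;> simp [hO, hZ, hx]
  have hdeg : ∀ x, G.degree x = (O.filter (G.Adj x)).card + (Z.filter (G.Adj x)).card := by
    intro x
    rw [← Finset.card_union_of_disjoint
      (Finset.disjoint_filter_filter hdisj), ← Finset.filter_union, ← hun, ← G.card_neighborFinset_eq_degree]
    congr 1
    ext y
    simp
  have h1 : ∑ x ∈ O, ((G.degree x : ℤ) - 2) = dd G O O + dd G O Z - 2 * O.card := by
    rw [Finset.sum_sub_distrib]
    simp only [hdeg]
    push_cast
    rw [Finset.sum_add_distrib]
    simp [dd, mul_comm]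
  have h2 : ∑ x ∈ Z, ((G.degree x : ℤ) - 2) = dd G Z O + dd G Z Z - 2 * Z.card := by
    rw [Finset.sum_sub_distrib]
    simp only [hdeg]
    push_cast
    rw [Finset.sum_add_distrib]
    simp [dd, mul_comm]
  have h3 : 2 * Z.card ≤ dd G Z Z := by
    unfold dd
    calc 2 * Z.card = ∑ _x ∈ Z, 2 := by simp [mul_comm]
      _ ≤ _ := by
        apply Finset.sum_le_sum
        intro x hx
        have hxz : x ∈ z := by simpa [hZ] using hx
        obtain ⟨z', hz', hp⟩ := hz.rot_to hxz
        obtain ⟨u, z'', rfl⟩ : ∃ u z'', z' = u :: z'' := by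
          cases z' with
          | nil => have := hz'.2.2; simp at this
          | cons u z'' => exact ⟨u, z'', rfl⟩
        rcases List.eq_nil_or_concat z'' with h0 | ⟨z3, v, h0⟩
        · subst h0
          have := hz'.2.2; simp at this
        · rw [List.concat_eq_append] at h0
          subst h0
          have hxu : G.Adj x u := (isP_cons.1 hz'.isP).2.2 u (by simp)
          have hvx : G.Adj v x := by
            refine hz'.2.1 v ?_ x (by simp)
            rw [show x :: u :: (z3 ++ [v]) = (x :: u :: z3) ++ [v] by simp]
            rw [List.getLast?_append_of_ne_nil _ (by simp)]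
            simp
          have huv : u ≠ v := by
            have := hz'.isP.1
            simp at this
            tauto
          have huz : u ∈ z := hp.mem_iff.1 (by simp)
          have hvz : v ∈ z := hp.mem_iff.1 (by simp)
          have hsub : ({u, v} : Finset V) ⊆ Z.filter (G.Adj x) := by
            intro y hy
            rw [Finset.mem_insert, Finset.mem_singleton] at hy
            rcases hy with rfl | rfl
            · simp [hZ, huz, hxu]
            · simp [hZ, hvz, hvx.symm]
          calc 2 = ({u, v} : Finset V).card := (Finset.card_pair huv).symm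
            _ ≤ _ := Finset.card_le_card hsub
  have h4 : dd G O Z = dd G Z O := dd_comm O Z
  rw [h1, h2, h4] at hcon
  have h5 : 2 * O.card < dd G O O := by
    have h3' : (2 * Z.card : ℤ) ≤ dd G Z Z := by exact_mod_cast h3
    have : (2 * O.card : ℤ) < dd G O O := by linarith
    exact_mod_cast this
  have hne : ∀ (Y : List V) (r : ℕ), IsCyc G Y → Y.length = 2 * r → 2 ≤ r → ∃ y ∈ Y, y ∈ z := by
    intro Y r hY hYl hr
    have h6 := hR1 Y hY
    obtain ⟨a, b, -, ha, -, ha', -⟩ := h.even_meets hr (by omega) hY hYl hz hzl
    exact ⟨a, ha, ha'⟩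
  rcases bad_of_card O h5 with ⟨A, M, D, h6, h7⟩ | ⟨Y, r, h6, h7, h8, h9⟩
  · exact h.no_dumb hk hR2 hz hzl hne h6 (fun v hv => by simpa [hO] using h7 v hv)
  · obtain ⟨y, hy, hy'⟩ := hne Y r h6 h7 h8
    have := h9 y hy
    simp [hO] at this
    exact this hy'

end Pool.Agent.Work.KZ
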