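import Pool.Agent.Work.MP_f0e709_co.DF1c
import Pool.Agent.Work.MP_f0e709_co.T1

/-! Maximum degree four, part 2 (helper75): if the half-weight inequality is not strict by at least two, then the
`(k+1)`-cycle has no chord and every component off it contains a cycle. -/

set_option autoImplicit false

namespace Pool.Agent.Work.KZ

variable {V : Type*} {G : SimpleGraph V} {k : ℕ}

section count

variable [DecidableEq V] [DecidableRel G.Adj]

/-- a non-empty set of vertices with at least as many edges as vertices contains a cycle -/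
theorem cyc_of_card (S : Finset V) (hSn : S.Nonempty) (hS : 2 * S.card ≤ dd G S S + 1) :
    ∃ O, IsCyc G O ∧ ∀ v ∈ O, v ∈ S := by
  induction S using Finset.strongInduction with
  | H S ih =>
    by_cases hdeg : ∀ x ∈ S, 2 ≤ (S.filter (G.Adj x)).card
    · obtain ⟨l, hl, hln⟩ := exists_longest (G := G) hSn
      have hn : 0 < l.length := List.length_pos_iff.2 hln
      obtain ⟨i, hi, hi2, hadj⟩ := hl.exists_idx hn hdeg
      refine ⟨l.take (i + 1), ⟨hl.1.take _, ?_, ?_⟩, fun v hv => hl.2.1 v (List.mem_of_mem_take hv)⟩
      · intro x hx y hy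
        have e1 : x = l[i] := by
          rw [List.getLast?_eq_getElem?, List.length_take, min_eq_left (by omega),
            Nat.add_sub_cancel, List.getElem?_take_of_lt (by omega), List.getElem?_eq_getElem hi] at hx
          simpa using hx.symm
        have e2 : y = l[0] := by
          rw [List.head?_eq_getElem?, List.getElem?_take_of_lt (by omega), List.getElem?_eq_getElem hn] at hy
          simpa using hy.symm
        rw [e1, e2]
        exact hadj.symm
      · rw [List.length_take]
        omega
    · push Not at hdeg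
      obtain ⟨x, hx, hxd⟩ := hdeg
      have hun : S = (S.erase x) ∪ {x} := by
        ext y
        simp only [Finset.mem_union, Finset.mem_erase, Finset.mem_singleton]
        constructor
        · intro hy
          by_cases h' : y = x
          · exact Or.inr h'
          · exact Or.inl ⟨h', hy⟩
        · rintro (h' | h')
          · exact h'.2
          · rw [h']; exact hx
      have hdisj : Disjoint (S.erase x) {x} := by simp
      have e0 : dd G S S = dd G (S.erase x) S + dd G {x} S := by
        conv_lhs => rw [hun]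
        rw [dd_union_left hdisj, ← hun]
      have e1 : dd G (S.erase x) S = dd G (S.erase x) (S.erase x) + dd G (S.erase x) {x} := by
        rw [← dd_union_right hdisj, ← hun]
      have e2 : dd G {x} S = (S.filter (G.Adj x)).card := by simp [dd]
      have e3 : dd G (S.erase x) {x} ≤ (S.filter (G.Adj x)).card := by
        rw [dd_comm]
        simp only [dd, Finset.sum_singleton]
        exact Finset.card_le_card (Finset.filter_subset_filter _ (Finset.erase_subset _ _))
      have e4 : (S.erase x).card + 1 = S.card := Finset.card_erase_add_one hx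
      have hne : (S.erase x).Nonempty := by
        rw [Finset.nonempty_iff_ne_empty]
        intro h0
        rw [h0] at hun
        have hSx : S = {x} := by simpa using hun
        have : dd G S S = 0 := by
          rw [hSx]
          simp [dd, Finset.filter_singleton]
        rw [this, hSx] at hS
        simp at hS
      obtain ⟨O, hO, hOS⟩ := ih (S.erase x) (Finset.erase_ssubset hx) hne (by omega)
      exact ⟨O, hO, fun v hv => (Finset.mem_erase.1 (hOS v hv)).2⟩

end count

variable [Fintype V] [DecidableEq V] [DecidableRel G.Adj]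

/-- each vertex of a cycle has two neighbours on it, the end of a chord has three -/
theorem two_nbrs {z : List V} (hz : IsCyc G z) {x : V} (hx : x ∈ z) :
    2 ≤ ((Finset.univ.filter (fun x => x ∈ z)).filter (G.Adj x)).card := by
  obtain ⟨z', hz', hp⟩ := hz.rot_to hx
  obtain ⟨u, z'', rfl⟩ : ∃ u z'', z' = u :: z'' := by
    cases z' with
    | nil => have := hz'.2.2; simp at this
    | cons u z'' => exact ⟨u, z'', rfl⟩
  rcases List.eq_nil_or_concat z'' with h0 | ⟨z3, v, h0⟩
  · subst h0
    have := hz'.2.2; simp at this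
  · rw [List.concat_eq_append] at h0
    subst h0
    have hxu : G.Adj x u := (isP_cons.1 hz'.isP).2.2 u (by simp)
    have hvx : G.Adj v x := by
      refine hz'.2.1 v ?_ x (by simp)
      rw [show x :: u :: (z3 ++ [v]) = (x :: u :: z3) ++ [v] by simp]
      rw [List.getLast?_append_of_ne_nil _ (by simp)]
      simp
    have huv : u ≠ v := by
      have := hz'.isP.1
      simp at this
      tauto
    have huz : u ∈ z := hp.mem_iff.1 (by simp)
    have hvz : v ∈ z := hp.mem_iff.1 (by simp)
    have hsub : ({u, v} : Finset V) ⊆ (Finset.univ.filter (fun x => x ∈ z)).filter (G.Adj x) := by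
      intro y hy
      rw [Finset.mem_insert, Finset.mem_singleton] at hy
      rcases hy with rfl | rfl
      · simp [huz, hxu]
      · simp [hvz, hvx.symm]
    calc 2 = ({u, v} : Finset V).card := (Finset.card_pair huv).symm
      _ ≤ _ := Finset.card_le_card hsub

/-- the end of a chord has three neighbours on the cycle -/
theorem three_nbrs {z : List V} (hz : IsCyc G z) {u y : V} {A B : List V} (hrot : z.IsRotated (u :: A ++ y :: B))
    (hA : A ≠ []) (hB : B ≠ []) (huy : G.Adj u y) :
    3 ≤ ((Finset.univ.filter (fun x => x ∈ z)).filter (G.Adj u)).card := by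
  have hc : IsCyc G (u :: A ++ y :: B) := hz.of_isRotated hrot
  obtain ⟨a, A', rfl⟩ := List.exists_cons_of_ne_nil hA
  obtain ⟨B', b, rfl⟩ : ∃ B' b, B = B' ++ [b] := by
    rcases List.eq_nil_or_concat B with h0 | ⟨B', b, h0⟩
    · exact absurd h0 hB
    · exact ⟨B', b, by rw [h0, List.concat_eq_append]⟩
  have hmem : ∀ v, v ∈ u :: (a :: A') ++ y :: (B' ++ [b]) → v ∈ z := fun v hv => hrot.symm.mem_iff.1 hv
  have hua : G.Adj u a := (isP_cons.1 (show IsP G (u :: (a :: A' ++ y :: (B' ++ [b]))) by simpa using hc.isP)).2.2 a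
    (by simp)
  have hbu : G.Adj b u := by
    refine hc.2.1 b ?_ u (by simp)
    rw [show u :: (a :: A') ++ y :: (B' ++ [b]) = (u :: (a :: A') ++ y :: B') ++ [b] by simp, List.getLast?_concat]
    simp
  have hnd := hc.isP.1
  have hay : a ≠ y := by
    rintro rfl
    simp at hnd
  have hab : a ≠ b := by
    rintro rfl
    simp at hnd
  have hyb : y ≠ b := by
    rintro rfl
    rw [show u :: (a :: A') ++ y :: (B' ++ [y]) = (u :: a :: A') ++ (y :: (B' ++ [y])) by simp,
      List.nodup_append'] at hnd
    have := hnd.2.1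
    simp at this
  have hsub : ({a, y, b} : Finset V) ⊆ (Finset.univ.filter (fun x => x ∈ z)).filter (G.Adj u) := by
    intro w hw
    simp only [Finset.mem_insert, Finset.mem_singleton] at hw
    rw [Finset.mem_filter, Finset.mem_filter]
    rcases hw with rfl | rfl | rfl
    · exact ⟨⟨Finset.mem_univ _, hmem _ (by simp)⟩, hua⟩
    · exact ⟨⟨Finset.mem_univ _, hmem _ (by simp)⟩, huy⟩
    · exact ⟨⟨Finset.mem_univ _, hmem _ (by simp)⟩, hbu.symm⟩
  calc 3 = ({a, y, b} : Finset V).card := by
        rw [Finset.card_eq_three.2 ⟨a, y, b, hay, hab, hyb, rfl⟩]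
    _ ≤ _ := Finset.card_le_card hsub

/-- if the half-weight inequality is almost an equality then `z` has no chord and all edges which leave `z` lead to
the same component -/
theorem PK.tight (h : PK G k) (hk : 4 ≤ k) (hR1 : Circ G k) (hR2 : BranchEnd G k) {z : List V} (hz : IsCyc G z)
    (hzl : z.length = k + 1)
    (hcon : ∑ x with x ∈ z, ((G.degree x : ℤ) - 2) < ∑ x with x ∉ z, ((G.degree x : ℤ) - 2) + 2) :
    ¬ HasChord G z ∧ ∀ u ∈ z, ∀ u' ∈ z, u ≠ u' → ∀ y y', G.Adj u y → y ∉ z → G.Adj u' y' → y' ∉ z →
      Conn G (fun v => v ∉ z) y y' := by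
  classical
  set O : Finset V := Finset.univ.filter (fun x => x ∉ z) with hO
  set Z : Finset V := Finset.univ.filter (fun x => x ∈ z) with hZ
  have hdisj : Disjoint O Z := by
    rw [Finset.disjoint_left]
    intro x hx hx'
    simp [hO] at hx
    simp [hZ] at hx'
    exact hx hx'
  have hun : (Finset.univ : Finset V) = O ∪ Z := by
    ext x
    by_cases hx : x ∈ z <;> simp [hO, hZ, hx]
  have hdeg : ∀ x, G.degree x = (O.filter (G.Adj x)).card + (Z.filter (G.Adj x)).card := by
    intro x
    rw [← Finset.card_union_of_disjoint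
      (Finset.disjoint_filter_filter hdisj), ← Finset.filter_union, ← hun, ← G.card_neighborFinset_eq_degree]
    congr 1
    ext y
    simp
  have h1 : ∑ x ∈ O, ((G.degree x : ℤ) - 2) = dd G O O + dd G O Z - 2 * O.card := by
    rw [Finset.sum_sub_distrib]
    simp only [hdeg]
    push_cast
    rw [Finset.sum_add_distrib]
    simp [dd, mul_comm]
  have h2 : ∑ x ∈ Z, ((G.degree x : ℤ) - 2) = dd G Z O + dd G Z Z - 2 * Z.card := by
    rw [Finset.sum_sub_distrib]
    simp only [hdeg]
    push_cast
    rw [Finset.sum_add_distrib]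
    simp [dd, mul_comm]
  have h4 : dd G O Z = dd G Z O := dd_comm O Z
  have hne : ∀ (Y : List V) (r : ℕ), IsCyc G Y → Y.length = 2 * r → 2 ≤ r → ∃ y ∈ Y, y ∈ z := by
    intro Y r hY hYl hr
    obtain ⟨a, b, -, ha, -, ha', -⟩ := h.two_meets hR1 hz hzl Y r hY hYl hr
    exact ⟨a, ha, ha'⟩
  have hbad : ∀ S : Finset V, S ⊆ O → dd G S S ≤ 2 * S.card := by
    intro S hS
    by_contra h5
    push Not at h5
    rcases bad_of_card S h5 with ⟨A, M, D, h6, h7⟩ | ⟨Y, r, h6, h7, h8, h9⟩
    · exact h.no_dumb (by omega) hR2 hz hzl hne h6 (fun v hv => by simpa [hO] using hS (h7 v hv))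
    · obtain ⟨y, hy, hy'⟩ := hne Y r h6 h7 h8
      have := hS (h9 y hy)
      simp [hO] at this
      exact this hy'
  have h3 : 2 * Z.card ≤ dd G Z Z := by
    unfold dd
    calc 2 * Z.card = ∑ _x ∈ Z, 2 := by simp [mul_comm]
      _ ≤ _ := Finset.sum_le_sum (fun x hx => two_nbrs hz (by simpa [hZ] using hx))
  have hOO := hbad O (Finset.Subset.refl _)
  have hZZ : dd G Z Z < 2 * Z.card + 2 := by
    rw [h1, h2, h4] at hcon
    have : (dd G Z Z : ℤ) < 2 * Z.card + 2 := by
      have h5 : (dd G O O : ℤ) ≤ 2 * O.card := by exact_mod_cast hOO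
      linarith
    exact_mod_cast this
  have hOO2 : 2 * O.card ≤ dd G O O + 1 := by
    rw [h1, h2, h4] at hcon
    have : (2 * O.card : ℤ) < dd G O O + 2 := by
      have h5 : (2 * Z.card : ℤ) ≤ dd G Z Z := by exact_mod_cast h3
      linarith
    have h6 : 2 * O.card < dd G O O + 2 := by exact_mod_cast this
    omega
  have hch : ¬ HasChord G z := by
    rintro ⟨u, y, A, B, hrot, hA, hB, huy⟩
    have hrot2 : z.IsRotated (y :: B ++ u :: A) := by
      refine hrot.trans ?_
      rw [show u :: A ++ y :: B = (u :: A) ++ (y :: B) by simp,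
        show y :: B ++ u :: A = (y :: B) ++ (u :: A) by simp]
      exact List.isRotated_append
    have hu : u ∈ Z := by
      have : u ∈ z := hrot.symm.mem_iff.1 (by simp)
      simpa [hZ] using this
    have hy : y ∈ Z := by
      have : y ∈ z := hrot.symm.mem_iff.1 (by simp)
      simpa [hZ] using this
    have g1 := three_nbrs hz hrot hA hB huy
    have g2 := three_nbrs hz hrot2 hB hA huy.symm
    have g3 : ∑ x ∈ Z, (2 + ((if x = u then 1 else 0) + (if x = y then 1 else 0))) ≤ dd G Z Z := by
      unfold dd
      apply Finset.sum_le_sum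
      intro x hx
      by_cases hxu : x = u
      · subst hxu
        have : x ≠ y := huy.ne
        simp only [this, if_true, if_false]
        exact g1
      · by_cases hxy : x = y
        · subst hxy
          simp only [hxu, if_true, if_false]
          exact g2
        · simp only [hxu, hxy, if_false]
          exact two_nbrs hz (by simpa [hZ] using hx)
    rw [Finset.sum_add_distrib, Finset.sum_add_distrib, Finset.sum_ite_eq' Z u, Finset.sum_ite_eq' Z y,
      if_pos hu, if_pos hy, Finset.sum_const, smul_eq_mul] at g3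
    omega
  refine ⟨hch, h.one_comp hk hR1 hz hzl hch ?_⟩
  intro x hx y hxy hy
  set K : Finset V := O.filter (fun v => Conn G (fun v => v ∉ z) y v) with hK
  have hyK : y ∈ K := by
    rw [hK, Finset.mem_filter]
    exact ⟨by simpa [hO] using hy, [y], IsP.singleton y, rfl, rfl, by simpa using hy⟩
  have hKO : K ⊆ O := Finset.filter_subset _ _
  have hd1 : Disjoint (O \ K) K := Finset.sdiff_disjoint
  have hu1 : O = (O \ K) ∪ K := (Finset.sdiff_union_of_subset hKO).symm
  have hz0 : dd G K (O \ K) = 0 := by
    unfold dd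
    apply Finset.sum_eq_zero
    intro v hv
    rw [Finset.card_eq_zero, Finset.filter_eq_empty_iff]
    intro w hw hadj
    rw [Finset.mem_sdiff] at hw
    apply hw.2
    rw [hK, Finset.mem_filter] at hv ⊢
    refine ⟨hw.1, hv.2.trans ?_⟩
    have hvz : v ∉ z := by simpa [hO] using hv.1
    have hwz : w ∉ z := by simpa [hO] using hw.1
    refine ⟨[v, w], ?_, rfl, rfl, by simp [hvz, hwz]⟩
    rw [isP_cons]
    exact ⟨by simpa using hadj.ne, IsP.singleton w, by simpa using hadj⟩
  have e1 : dd G O O = dd G (O \ K) O + dd G K O := by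
    conv_lhs => rw [hu1]
    rw [dd_union_left hd1, ← hu1]
  have e2 : dd G (O \ K) O = dd G (O \ K) (O \ K) + dd G (O \ K) K := by
    rw [← dd_union_right hd1, ← hu1]
  have e3 : dd G K O = dd G K (O \ K) + dd G K K := by
    rw [← dd_union_right hd1, ← hu1]
  have e4 : dd G (O \ K) K = dd G K (O \ K) := dd_comm _ _
  have e5 := hbad (O \ K) Finset.sdiff_subset
  have e6 : (O \ K).card + K.card = O.card := Finset.card_sdiff_add_card_eq_card hKO
  obtain ⟨Y, hY, hYK⟩ := cyc_of_card (G := G) K ⟨y, hyK⟩ (by omega)
  refine ⟨Y, hY, fun v hv => ?_⟩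
  have := hYK v hv
  rw [hK, Finset.mem_filter] at this
  exact this.2

end Pool.Agent.Work.KZ
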