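import Pool.Agent.Work.MP_f0e709_co.DF2

/-! Maximum degree four, part 3 (helper4): counting ears.  A chordless `(k+1)`-cycle all of whose attachment edges lead
to the same component is impossible. -/

set_option autoImplicit false

namespace Pool.Agent.Work.KZ

variable {V : Type*} {G : SimpleGraph V} {k : ℕ}

/-- decomposition of a list at the first element which does not satisfy `Z` -/
theorem split_pred {Z : V → Prop} : ∀ {A A' R R' : List V} {y y' : V}, A ++ y :: R = A' ++ y' :: R' →
    (∀ v ∈ A, Z v) → (∀ v ∈ A', Z v) → ¬ Z y → ¬ Z y' → A = A' ∧ y = y' ∧ R = R'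
  | [], [], R, R', y, y', h, _, _, _, _ => by simpa using h
  | [], a :: A', R, R', y, y', h, _, hA', hy, _ => by
      simp only [List.nil_append, List.cons_append, List.cons.injEq] at h
      exact absurd (hA' a (by simp)) (h.1 ▸ hy)
  | a :: A, [], R, R', y, y', h, hA, _, _, hy' => by
      simp only [List.nil_append, List.cons_append, List.cons.injEq] at h
      exact absurd (hA a (by simp)) (h.1 ▸ hy')
  | a :: A, b :: A', R, R', y, y', h, hA, hA', hy, hy' => by
      simp only [List.cons_append, List.cons.injEq] at h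
      obtain ⟨h1, h2, h3⟩ := split_pred h.2 (fun v hv => hA v (by simp [hv])) (fun v hv => hA' v (by simp [hv])) hy hy'
      exact ⟨by rw [h.1, h1], h2, h3⟩

/-- the length of an ear of a `(k+1)`-cycle -/
theorem PK.ear_length (h : PK G k) (hk : 4 ≤ k) (hR1 : Circ G k) {u u' : V} {a b l : List V}
    (hz : IsCyc G (u :: a ++ u' :: b)) (hzl : (u :: a ++ u' :: b).length = k + 1)
    (hl : IsP G (u :: l ++ [u'])) (hdis : ∀ x ∈ l, x ∉ u :: a ++ u' :: b) (hne : l ≠ []) :
    l.length + 1 ≤ k := by
  by_contra hlt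
  have hab : a.length + b.length + 1 = k := by simp at hzl; omega
  rcases Nat.even_or_odd' k with ⟨r, hr | hr⟩
  · -- `k` even
    have hcases : (∃ q, a.length + l.length + 2 = 2 * q) ∨ (∃ q, b.length + l.length + 2 = 2 * q) := by
      rcases Nat.even_or_odd' (a.length + l.length) with ⟨q, hq | hq⟩
      · exact Or.inl ⟨q + 1, by omega⟩
      · exact Or.inr ⟨l.length + r - q, by omega⟩
    have hc1 : IsCyc G (u :: (a ++ u' :: l.reverse)) := by
      refine hz.ear_cycle hl hdis ?_
      have := List.length_pos_iff.2 hne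
      omega
    have hz2 : IsCyc G (u :: b.reverse ++ u' :: a.reverse) := hz.flip
    have hdis2 : ∀ x ∈ l, x ∉ u :: b.reverse ++ u' :: a.reverse := fun x hx hx' =>
      hdis x hx (IsCyc.mem_flip.1 hx')
    have hc2 : IsCyc G (u :: (b.reverse ++ u' :: l.reverse)) := by
      refine hz2.ear_cycle hl hdis2 ?_
      have := List.length_pos_iff.2 hne
      omega
    have g1 := hR1 _ hc1
    have g2 := hR1 _ hc2
    simp only [List.length_cons, List.length_append, List.length_reverse] at g1 g2
    rcases hcases with ⟨q, hq⟩ | ⟨q, hq⟩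
    · exact h.ear_rule hz hzl hl hdis hq (by omega) (by omega) hne
    · refine h.ear_rule hz2 ?_ hl hdis2 (r := q) ?_ ?_ (by omega) hne
      · simp; omega
      · simpa using hq
      · simp; omega
  · -- `k` odd
    have hmem : ∀ v, v ∈ u :: (a ++ u' :: b) ↔ v ∈ u :: a ++ u' :: b := fun v => by simp
    refine h.even_rule (r := r + 1) (p := u) (z' := a ++ u' :: b) (t := l.take (k - (r + 1))) (by omega)
      (by omega) (by simpa using hz) ?_ ?_ ?_ ?_
    · simp; omega
    · have h1 : IsP G (u :: l) := hl.of_prefix ⟨[u'], by simp⟩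
      have := h1.take (k - (r + 1) + 1)
      simpa using this
    · intro x hx hx'
      exact hdis x (List.mem_of_mem_take hx) (by simp at hx' ⊢; tauto)
    · rw [List.length_take]; omega

/-- the `k`-path through an ear -/
def Thru (G : SimpleGraph V) (k : ℕ) (z : List V) (s t u y u' y' : V) : Prop :=
  ∃ (A l B : List V), IsP G (A ++ [u] ++ l ++ [u'] ++ B) ∧ (A ++ [u] ++ l ++ [u'] ++ B).length = k + 1 ∧
    (A ++ [u] ++ l ++ [u'] ++ B).head? = some s ∧ (A ++ [u] ++ l ++ [u'] ++ B).getLast? = some t ∧
    (∀ v ∈ A ++ [u], v ∈ z) ∧ (∀ v ∈ [u'] ++ B, v ∈ z) ∧ (∀ v ∈ l, v ∉ z) ∧ l.head? = some y ∧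
    l.getLast? = some y'

theorem Thru.inj (h : PK G k) (hk : 1 ≤ k) {z : List V} {s t u y u' y' v x v' x' : V}
    (h1 : Thru G k z s t u y u' y') (h2 : Thru G k z s t v x v' x') : u = v ∧ y = x ∧ u' = v' ∧ y' = x' := by
  obtain ⟨A, l, B, a1, a2, a3, a4, a5, a6, a7, a8, a9⟩ := h1
  obtain ⟨A', l', B', b1, b2, b3, b4, b5, b6, b7, b8, b9⟩ := h2
  have heq := h.uniq a1 b1 a2 b2 (by rw [a3, b3]) (by rw [a4, b4]) hk
  obtain ⟨l1, rfl⟩ : ∃ l1, l = y :: l1 := by
    cases l with
    | nil => simp at a8
    | cons c l1 => exact ⟨l1, by simp at a8; rw [a8]⟩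
  obtain ⟨l1', rfl⟩ : ∃ l1, l' = x :: l1 := by
    cases l' with
    | nil => simp at b8
    | cons c l1 => exact ⟨l1, by simp at b8; rw [b8]⟩
  have e1 := split_pred (Z := fun v => v ∈ z) (A := A ++ [u]) (A' := A' ++ [v]) (y := y) (y' := x)
    (R := l1 ++ [u'] ++ B) (R' := l1' ++ [v'] ++ B') (by simpa using heq) a5 b5 (a7 y (by simp)) (b7 x (by simp))
  have e2 := List.append_inj' e1.1 (by simp)
  have e3 : u = v := by simpa using e2.2
  rcases List.eq_nil_or_concat (y :: l1) with g0 | ⟨m, p, g0⟩
  · simp at g0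
  rcases List.eq_nil_or_concat (x :: l1') with f0 | ⟨m', p', f0⟩
  · simp at f0
  rw [List.concat_eq_append] at g0 f0
  have hp : p = y' := by rw [g0] at a9; simpa using a9
  have hp' : p' = x' := by rw [f0] at b9; simpa using b9
  have heq2 : B.reverse ++ [u'] ++ p :: (m.reverse ++ (A ++ [u]).reverse) =
      B'.reverse ++ [v'] ++ p' :: (m'.reverse ++ (A' ++ [v]).reverse) := by
    have := congrArg List.reverse heq
    rw [g0, f0] at this
    simpa using this
  have e4 := split_pred (Z := fun v => v ∈ z) heq2 (fun v hv => a6 v (by simp at hv ⊢; tauto))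
    (fun v hv => b6 v (by simp at hv ⊢; tauto)) (a7 p (by rw [g0]; simp)) (b7 p' (by rw [f0]; simp))
  have e5 := List.append_inj' e4.1 (by simp)
  have e6 : u' = v' := by simpa using e5.2
  exact ⟨e3, e1.2.1, e6, by rw [← hp, ← hp', e4.2.1]⟩

/-- existence of the `k`-path through an ear -/
theorem PK.exists_thru (h : PK G k) (hk : 4 ≤ k) (hR1 : Circ G k) {z : List V} (hz : IsCyc G z)
    (hzl : z.length = k + 1) {u u' y y' : V} (hu : u ∈ z) (hu' : u' ∈ z) (huu : u ≠ u') (huy : G.Adj u y)
    (huy' : G.Adj u' y') (hc : Conn G (fun v => v ∉ z) y y') :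
    ∃ s ∈ z, ∃ t ∈ z, s ≠ t ∧ Thru G k z s t u y u' y' := by
  obtain ⟨l, hl1, hl2, hl3, hl4⟩ := hc
  obtain ⟨z', hz', hp⟩ := hz.rot_to hu
  have hu'z' : u' ∈ z' := by
    have := hp.mem_iff.2 hu'
    rcases List.mem_cons.1 this with h0 | h0
    · exact absurd h0.symm huu
    · exact h0
  obtain ⟨a, b, rfl⟩ := List.append_of_mem hu'z'
  have hmem : ∀ v, v ∈ u :: a ++ u' :: b ↔ v ∈ z := fun v => by
    rw [← hp.mem_iff]; simp
  have hz2 : IsCyc G (u :: a ++ u' :: b) := by simpa using hz'
  have hzl2 : (u :: a ++ u' :: b).length = k + 1 := by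
    rw [← hzl, ← hp.length_eq]; simp
  have hne : l ≠ [] := by rintro rfl; simp at hl2
  have hear : IsP G (u :: l ++ [u']) := by
    rw [isP_concat]
    refine ⟨?_, ?_, ?_⟩
    · rw [isP_cons]
      refine ⟨fun h0 => hl4 u h0 hu, hl1, fun v hv => ?_⟩
      rw [hl2] at hv
      have : v = y := by simpa using hv.symm
      rw [this]; exact huy
    · intro h0
      rcases List.mem_cons.1 h0 with h1 | h1
      · exact huu h1.symm
      · exact hl4 u' h1 hu'
    · intro v hv
      rw [show u :: l = [u] ++ l by rfl, List.getLast?_append_of_ne_nil _ hne, hl3] at hv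
      have : v = y' := by simpa using hv.symm
      rw [this]; exact huy'.symm
  have hdis : ∀ x ∈ l, x ∉ u :: a ++ u' :: b := fun x hx hx' => hl4 x hx ((hmem x).1 hx')
  have hlen := h.ear_length hk hR1 hz2 hzl2 hear hdis hne
  have hab : a.length + b.length + 1 = k := by simp at hzl2; omega
  have hlpos := List.length_pos_iff.2 hne
  set i := min a.length (k - l.length - 1) with hi
  set j := k - l.length - 1 - i with hj
  have hi1 : i ≤ a.length := min_le_left _ _
  have hj1 : j ≤ b.length := by omega
  have hij : i + j + l.length + 1 = k := by omega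
  have hnd := hz2.isP.1
  -- the path
  have hA : IsP G (u :: a.take i) := by
    have : IsP G (u :: a) := hz2.isP.of_prefix ⟨u' :: b, rfl⟩
    have := this.take (i + 1)
    simpa using this
  have hB : IsP G (u' :: b.take j) := by
    have : IsP G (u' :: b) := hz2.isP.of_suffix ⟨u :: a, rfl⟩
    have := this.take (j + 1)
    simpa using this
  have hP1 : IsP G ((a.take i).reverse ++ (u :: l ++ [u'])) := by
    have h1 : IsP G ((a.take i).reverse ++ [u]) := by
      have := hA.reverse
      simpa using this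
    have h2 : IsP G (u :: (l ++ [u'])) := by simpa using hear
    have := h1.glue h2 (by
      intro v hv hv'
      have hva : v ∈ a := List.mem_of_mem_take (by simpa using hv')
      rcases List.mem_append.1 hv with h3 | h3
      · exact hdis v h3 (by simp [hva])
      · have h4 : v = u' := by simpa using h3
        subst h4
        rw [List.nodup_append'] at hnd
        exact hnd.2.2 (List.mem_cons_of_mem _ hva) (by simp))
    simpa using this
  have hP : IsP G (((a.take i).reverse ++ u :: l) ++ u' :: b.take j) := by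
    refine IsP.glue (by simpa using hP1) hB ?_
    intro v hv hv'
    have hvb : v ∈ b := List.mem_of_mem_take hv
    rcases List.mem_append.1 hv' with h3 | h3
    · have hva : v ∈ a := List.mem_of_mem_take (by simpa using h3)
      rw [List.nodup_append'] at hnd
      exact hnd.2.2 (List.mem_cons_of_mem _ hva) (by simp [hvb])
    · rcases List.mem_cons.1 h3 with h4 | h4
      · subst h4
        rw [List.nodup_append'] at hnd
        exact hnd.2.2 (List.mem_cons_self) (by simp [hvb])
      · exact hdis v h4 (by simp [hvb])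
  have hAz : ∀ v ∈ (a.take i).reverse ++ [u], v ∈ z := by
    intro v hv
    apply (hmem v).1
    rcases List.mem_append.1 hv with h3 | h3
    · have hva : v ∈ a := List.mem_of_mem_take (by simpa using h3)
      simp [hva]
    · simp at h3; simp [h3]
  have hBz : ∀ v ∈ [u'] ++ b.take j, v ∈ z := by
    intro v hv
    apply (hmem v).1
    rcases List.mem_append.1 hv with h3 | h3
    · simp at h3; simp [h3]
    · have hvb : v ∈ b := List.mem_of_mem_take h3
      simp [hvb]
  set P := (a.take i).reverse ++ [u] ++ l ++ [u'] ++ b.take j with hPdef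
  have hPP : IsP G P := by
    rw [hPdef]
    simpa using hP
  have hPl : P.length = k + 1 := by
    rw [hPdef]
    simp [List.length_take, min_eq_left hi1, min_eq_left hj1]
    omega
  obtain ⟨s, hs⟩ : ∃ s, ((a.take i).reverse ++ [u]).head? = some s := by
    cases hq : ((a.take i).reverse ++ [u]).head? with
    | none => simp at hq
    | some s => exact ⟨s, rfl⟩
  obtain ⟨t, ht⟩ : ∃ t, ([u'] ++ b.take j).getLast? = some t := by
    cases hq : ([u'] ++ b.take j).getLast? with
    | none => simp at hq
    | some s => exact ⟨s, rfl⟩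
  have hsP : P.head? = some s := by
    rw [hPdef, List.append_assoc, List.append_assoc, List.head?_append_of_ne_nil _ (by simp), hs]
  have htP : P.getLast? = some t := by
    rw [hPdef, List.append_assoc, List.getLast?_append_of_ne_nil _ (by simp), ht]
  refine ⟨s, hAz s (List.mem_of_mem_head? (by rw [hs]; rfl)), t, hBz t (List.mem_of_mem_getLast? (by rw [ht]; rfl)),
    ?_, (a.take i).reverse, l, b.take j, hPP, hPl, hsP, htP, hAz, hBz, hl4, hl2, hl3⟩
  intro hst
  have h1 : s ∈ (a.take i).reverse ++ [u] := List.mem_of_mem_head? (by rw [hs]; rfl)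
  have h2 : t ∈ [u'] ++ b.take j := List.mem_of_mem_getLast? (by rw [ht]; rfl)
  have h3 := hPP.1
  rw [hPdef, List.append_assoc, List.append_assoc, List.nodup_append'] at h3
  exact h3.2.2 h1 (by rw [hst]; simp at h2 ⊢; tauto)

/-- on a chordless `(k+1)`-cycle adjacent vertices are consecutive, hence they are not the ends of a `k`-path which
leaves the cycle -/
theorem Thru.not_adj (h : PK G k) (hk : 4 ≤ k) {z : List V} (hz : IsCyc G z) (hzl : z.length = k + 1)
    (hch : ¬ HasChord G z) {s t u y u' y' : V} (hs : s ∈ z) (ht : t ∈ z) (hT : Thru G k z s t u y u' y') :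
    ¬ G.Adj s t := by
  intro hst
  obtain ⟨A, l, B, a1, a2, a3, a4, a5, a6, a7, a8, a9⟩ := hT
  have hyl : y ∈ l := List.mem_of_mem_head? (by rw [a8]; rfl)
  -- rotate `z` to start at `s`
  obtain ⟨p, q, rfl⟩ := List.append_of_mem hs
  have hrot : (p ++ s :: q).IsRotated (s :: (q ++ p)) := by
    have : s :: (q ++ p) = (s :: q) ++ p := by simp
    rw [this]
    exact List.isRotated_append
  have hz2 : IsCyc G (s :: (q ++ p)) := hz.of_isRotated hrot
  have htq : t ∈ q ++ p := by
    have : t ∈ s :: (q ++ p) := hrot.mem_iff.1 ht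
    rcases List.mem_cons.1 this with h0 | h0
    · exact absurd h0 hst.ne'
    · exact h0
  obtain ⟨C, D, hCD⟩ := List.append_of_mem htq
  have key : ∀ Q : List V, IsP G Q → Q.length = k + 1 → Q.head? = some s → Q.getLast? = some t →
      (∀ v ∈ Q, v ∈ p ++ s :: q) → False := by
    intro Q h1 h2 h3 h4 h5
    have := h.uniq h1 a1 h2 a2 (by rw [h3, a3]) (by rw [h4, a4]) (by omega)
    exact a7 y hyl (h5 y (by rw [this]; simp [hyl]))
  have hlen : (s :: (q ++ p)).length = k + 1 := by rw [← hzl]; simp; omega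
  have hm : ∀ v, v ∈ s :: C ++ t :: D ↔ v ∈ p ++ s :: q := fun v => by
    rw [show s :: C ++ t :: D = s :: (q ++ p) by rw [hCD]; simp]
    exact hrot.mem_iff.symm
  have hz3 : IsCyc G (s :: C ++ t :: D) := by
    rw [show s :: C ++ t :: D = s :: (q ++ p) by rw [hCD]; simp]
    exact hz2
  have hlen3 : (s :: C ++ t :: D).length = k + 1 := by
    rw [show s :: C ++ t :: D = s :: (q ++ p) by rw [hCD]; simp]
    exact hlen
  by_cases hC : C = []
  · subst hC
    have hf := hz3.flip
    refine key (s :: D.reverse ++ [t]) ?_ ?_ (by simp) (by rw [List.getLast?_append_of_ne_nil _ (by simp)]; simp) ?_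
    · simpa using hf.isP
    · rw [← hlen3]; simp
    · intro v hv
      apply (hm v).1
      simp at hv ⊢
      tauto
  · by_cases hD : D = []
    · subst hD
      refine key (s :: C ++ [t]) hz3.isP hlen3 (by simp) (by rw [List.getLast?_append_of_ne_nil _ (by simp)]; simp) ?_
      intro v hv
      exact (hm v).1 hv
    · apply hch
      refine ⟨s, t, C, D, ?_, hC, hD, hst⟩
      rw [show s :: C ++ t :: D = s :: (q ++ p) by rw [hCD]; simp]
      exact hrot

theorem countP_le_of_forall₂ {P Q : V → Prop} [DecidablePred P] [DecidablePred Q] {l m : List V}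
    (h : List.Forall₂ (fun x y => P x → Q y) l m) : l.countP (fun x => P x) ≤ m.countP (fun x => Q x) := by
  induction h with
  | nil => simp
  | @cons a b l m hab _ ih =>
    rw [List.countP_cons, List.countP_cons]
    by_cases hP : P a
    · have hQ := hab hP
      simp [hP, hQ]
      exact ih
    · simp only [hP, decide_false, Bool.false_eq_true, if_false]
      omega

/-- at least half of the vertices of a chordless `(k+1)`-cycle are branch vertices -/
theorem PK.half_branch [DecidableEq V] (h : PK G k) (hk : 4 ≤ k) {z : List V} (hz : IsCyc G z)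
    (hzl : z.length = k + 1) (hch : ¬ HasChord G z) [DecidablePred (NB G)] :
    k + 1 ≤ 2 * (z.toFinset.filter (fun x => ¬ NB G x)).card := by
  have hF : List.Forall₂ (fun x y => NB G x → ¬ NB G y) z (z.rotate 1) := by
    rw [List.forall₂_iff_get]
    refine ⟨by simp, fun i h1 h2 hx hy => ?_⟩
    -- rotate by `i + n - 1`
    set n := z.length with hn
    have hlen : (z.rotate (i + n - 1)).length = k + 1 := by rw [List.length_rotate, ← hn, hzl]
    obtain ⟨a, b, c, d, R, hw⟩ : ∃ a b c d R, z.rotate (i + n - 1) = a :: b :: c :: d :: R := by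
      rcases hz4 : z.rotate (i + n - 1) with _ | ⟨a, _ | ⟨b, _ | ⟨c, _ | ⟨d, R⟩⟩⟩⟩
      all_goals rw [hz4] at hlen; simp at hlen
      all_goals first | omega | exact ⟨a, b, c, d, R, rfl⟩
    have hrot : z.IsRotated (a :: b :: c :: d :: R) := ⟨i + n - 1, hw⟩
    have hb : b = z.get ⟨i, h1⟩ := by
      have e1 : (z.rotate (i + n - 1))[1]'(by omega) = b := by simp [hw]
      rw [List.getElem_rotate] at e1
      rw [← e1]
      simp only [List.get_eq_getElem]
      congr 1
      rw [← hn]
      have : 1 + (i + n - 1) = i + n := by omega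
      rw [this, Nat.add_mod_right, Nat.mod_eq_of_lt h1]
    have hc : c = (z.rotate 1).get ⟨i, h2⟩ := by
      have e1 : (z.rotate (i + n - 1))[2]'(by omega) = c := by simp [hw]
      rw [List.getElem_rotate] at e1
      rw [← e1]
      simp only [List.get_eq_getElem, List.getElem_rotate]
      congr 1
      rw [← hn]
      have : 2 + (i + n - 1) = i + 1 + n := by omega
      rw [this, Nat.add_mod_right]
    refine hch (HasChord.of_isRotated (h.hasChord hk (hz.of_isRotated hrot) ?_ (hb ▸ hx) (hc ▸ hy)) hrot.symm)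
    rw [← hw]; exact hlen
  have h1 := countP_le_of_forall₂ hF
  have h2 : (z.rotate 1).countP (fun x => ¬ NB G x) = z.countP (fun x => ¬ NB G x) :=
    (List.rotate_perm z 1).countP_eq _
  have h3 : z.length = z.countP (fun x => NB G x) + z.countP (fun x => ¬ NB G x) := by
    have := List.length_eq_countP_add_countP (fun x => decide (NB G x)) (l := z)
    rw [this]
    congr 1
    apply List.countP_congr
    intro x _
    simp
  have h4 : (z.toFinset.filter (fun x => ¬ NB G x)).card = z.countP (fun x => ¬ NB G x) := by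
    have e : z.toFinset.filter (fun x => ¬ NB G x) = (z.filter (fun x => decide (¬ NB G x))).toFinset := by
      ext x
      simp
    rw [e, List.toFinset_card_of_nodup (hz.isP.1.filter _), List.countP_eq_length_filter]
  rw [h4]
  rw [hzl] at h3
  omega

/-- **counting ears**: a chordless `(k+1)`-cycle whose attachment edges all lead to the same component does not
exist -/
theorem PK.count_ears [Fintype V] (h : PK G k) (hk : 4 ≤ k) (hR1 : Circ G k) {z : List V} (hz : IsCyc G z)
    (hzl : z.length = k + 1) (hch : ¬ HasChord G z)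
    (hconn : ∀ u ∈ z, ∀ u' ∈ z, u ≠ u' → ∀ y y', G.Adj u y → y ∉ z → G.Adj u' y' → y' ∉ z →
      Conn G (fun v => v ∉ z) y y') : False := by
  classical
  set Z : Finset V := z.toFinset with hZ
  have hZc : Z.card = k + 1 := by rw [hZ, List.toFinset_card_of_nodup hz.isP.1, hzl]
  set B : Finset V := Z.filter (fun x => ¬ NB G x) with hB
  have hBc : k + 1 ≤ 2 * B.card := h.half_branch hk hz hzl hch
  set Off : V → Finset V := fun u => Finset.univ.filter (fun y => G.Adj u y ∧ y ∉ z) with hOff
  have hOffc : ∀ u ∈ B, 2 ≤ (Off u).card := by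
    intro u hu
    rw [hB, Finset.mem_filter, hZ, List.mem_toFinset] at hu
    obtain ⟨y1, y2, h12, g1, g2, g3, g4⟩ := h.two_off (by omega) hz hch hu.1 hu.2
    have : ({y1, y2} : Finset V) ⊆ Off u := by
      intro y hy
      simp only [Finset.mem_insert, Finset.mem_singleton] at hy
      rw [hOff]
      simp only [Finset.mem_filter, Finset.mem_univ, true_and]
      rcases hy with rfl | rfl
      · exact ⟨g1, g3⟩
      · exact ⟨g2, g4⟩
    calc 2 = ({y1, y2} : Finset V).card := (Finset.card_pair h12).symm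
      _ ≤ _ := Finset.card_le_card this
  set S := B.offDiag.sigma (fun p => Off p.1 ×ˢ Off p.2) with hS
  have hSc : 4 * (B.card * B.card - B.card) ≤ S.card := by
    rw [hS, Finset.card_sigma, ← Finset.offDiag_card, mul_comm, ← smul_eq_mul]
    refine Finset.card_nsmul_le_sum _ _ _ ?_
    intro p hp
    rw [Finset.mem_offDiag] at hp
    rw [Finset.card_product]
    have h1 := hOffc p.1 hp.1
    have h2 := hOffc p.2 hp.2.1
    nlinarith
  set T : Finset (V × V) := (Z ×ˢ Z).filter (fun p => p.1 ≠ p.2 ∧ ¬ G.Adj p.1 p.2) with hT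
  have hTc : T.card ≤ (k + 1) * (k - 2) := by
    have h1 : T.card = ∑ s ∈ Z, (Z.filter (fun t => s ≠ t ∧ ¬ G.Adj s t)).card := by
      rw [hT, Finset.card_filter, Finset.sum_product]
      refine Finset.sum_congr rfl (fun s _ => ?_)
      rw [Finset.card_filter]
    rw [h1, ← hZc, ← smul_eq_mul]
    refine Finset.sum_le_card_nsmul _ _ _ ?_
    intro s hs
    have hsz : s ∈ z := by simpa [hZ] using hs
    have h2 := two_nbrs hz hsz
    have h3 : (Z.filter (fun t => s ≠ t ∧ ¬ G.Adj s t)).card +
        (insert s ((Finset.univ.filter (fun x => x ∈ z)).filter (G.Adj s))).card ≤ Z.card := by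
      rw [← Finset.card_union_of_disjoint]
      · apply Finset.card_le_card
        intro v hv
        rcases Finset.mem_union.1 hv with h4 | h4
        · exact (Finset.mem_filter.1 h4).1
        · rcases Finset.mem_insert.1 h4 with h5 | h5
          · rw [h5]; exact hs
          · have := (Finset.mem_filter.1 (Finset.mem_filter.1 h5).1).2
            simpa [hZ] using this
      · rw [Finset.disjoint_left]
        intro v hv hv'
        obtain ⟨h4, h5, h6⟩ := Finset.mem_filter.1 hv
        rcases Finset.mem_insert.1 hv' with h7 | h7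
        · exact h5 h7.symm
        · exact h6 (Finset.mem_filter.1 h7).2
    rw [Finset.card_insert_of_notMem (by simp)] at h3
    omega
  have hST : S.card ≤ T.card := by
    refine Finset.card_le_card_of_forall_subsingleton
      (fun (q : Σ _ : V × V, V × V) (p : V × V) => Thru G k z p.1 p.2 q.1.1 q.2.1 q.1.2 q.2.2) ?_ ?_
    · rintro ⟨⟨u, u'⟩, ⟨y, y'⟩⟩ hq
      rw [hS, Finset.mem_sigma, Finset.mem_offDiag, Finset.mem_product] at hq
      obtain ⟨⟨g1, g2, g3⟩, g4, g5⟩ := hq
      have hu : u ∈ z := by simpa [hB, hZ] using (Finset.mem_filter.1 g1).1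
      have hu' : u' ∈ z := by simpa [hB, hZ] using (Finset.mem_filter.1 g2).1
      obtain ⟨-, g6, g7⟩ := Finset.mem_filter.1 g4
      obtain ⟨-, g8, g9⟩ := Finset.mem_filter.1 g5
      obtain ⟨s, hs, t, ht, hst, hTh⟩ := h.exists_thru hk hR1 hz hzl hu hu' g3 g6 g8
        (hconn u hu u' hu' g3 y y' g6 g7 g8 g9)
      refine ⟨(s, t), ?_, hTh⟩
      rw [hT, Finset.mem_filter, Finset.mem_product]
      refine ⟨⟨by simpa [hZ] using hs, by simpa [hZ] using ht⟩, hst, hTh.not_adj h hk hz hzl hch hs ht⟩
    · rintro ⟨s, t⟩ - ⟨⟨u, u'⟩, ⟨y, y'⟩⟩ hq ⟨⟨v, v'⟩, ⟨x, x'⟩⟩ hq'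
      obtain ⟨e1, e2, e3, e4⟩ := Thru.inj h (by omega) hq.2 hq'.2
      simp only at e1 e2 e3 e4
      subst e1 e2 e3 e4
      rfl
  -- numbers
  have hb1 : 1 ≤ B.card := by omega
  obtain ⟨b, hb⟩ : ∃ b, B.card = b + 1 := ⟨B.card - 1, by omega⟩
  rw [hb] at hSc hBc
  have e1 : (b + 1) * (b + 1) - (b + 1) = (b + 1) * b := by
    rw [Nat.mul_succ (b + 1) b, Nat.add_sub_cancel]
  rw [e1] at hSc
  obtain ⟨m, hm⟩ : ∃ m, k = m + 2 := ⟨k - 2, by omega⟩
  have hfin : 4 * ((b + 1) * b) ≤ (k + 1) * (k - 2) := hSc.trans (hST.trans hTc)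
  rw [hm] at hfin hBc
  simp only [Nat.add_sub_cancel] at hfin
  nlinarith

end Pool.Agent.Work.KZ
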