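import Pool.Agent.Work.MP_f0e709_co.T2
import Pool.Agent.Work.MP_f0e709_co.M5b

/-! Maximum degree four, part 4 (helper75): the number of `(k+1)`-cycles is even for even `k`; counting with the
strict half-weight inequality. -/

set_option autoImplicit false
set_option linter.unusedSectionVars false

namespace Pool.Agent.Work.KZ

section par

open scoped Classical

variable {V : Type*} [Fintype V] {G : SimpleGraph V} {k : ℕ}

theorem Same.refl (z : List V) : Same z z := Or.inl (List.IsRotated.refl z)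

theorem card_same {n : ℕ} (hn : 3 ≤ n) {z : List V} (hz : z ∈ cyc G n) :
    ((cyc G n).filter (fun l => Same z l)).card = 2 * n := by
  obtain ⟨a0, ha0⟩ := List.exists_mem_of_ne_nil z (mem_cyc.1 hz).1.ne_nil
  rw [Finset.card_eq_sum_card_fiberwise (f := fun z : List V => (z.head?).getD a0)
    (t := Finset.univ) (fun _ _ => Finset.mem_coe.2 (Finset.mem_univ _))]
  have h1 : ∀ a ∈ (Finset.univ : Finset V),
      (((cyc G n).filter (fun l => Same z l)).filter (fun l => (l.head?).getD a0 = a)).card
        = if a ∈ z then 2 else 0 := by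
    intro a _
    have e : ((cyc G n).filter (fun l => Same z l)).filter (fun l => (l.head?).getD a0 = a)
        = clsAt G n z a := by
      ext l
      rw [mem_clsAt]
      simp only [Finset.mem_filter, cycAt]
      constructor
      · rintro ⟨⟨hl, hs⟩, hh⟩
        refine ⟨⟨hl, ?_⟩, hs⟩
        obtain ⟨b, t, rfl⟩ := List.exists_cons_of_ne_nil (mem_cyc.1 hl).1.ne_nil
        simp at hh ⊢
        exact hh
      · rintro ⟨⟨hl, hh⟩, hs⟩
        refine ⟨⟨hl, hs⟩, ?_⟩
        rw [hh]; rfl
    rw [e]
    by_cases ha : a ∈ z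
    · rw [if_pos ha, card_clsAt hn hz ha]
    · rw [if_neg ha, Finset.card_eq_zero, Finset.eq_empty_iff_forall_notMem]
      intro l hl
      rw [mem_clsAt] at hl
      have h2 := (mem_cycAt.1 hl.1).2.2
      exact ha (hl.2.mem_iff.2 (List.mem_of_mem_head? (by rw [h2]; rfl)))
  rw [Finset.sum_congr rfl h1, ← Finset.sum_filter, Finset.sum_const, smul_eq_mul]
  have h2 : (Finset.univ.filter (fun a => a ∈ z)).card = n := by
    rw [← card_toFinset_cyc hz]
    congr 1
    ext x
    simp
  rw [h2, mul_comm]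

/-- the number of closed lists of `n`-cycles is divisible by `2n` -/
theorem two_mul_dvd_cyc {n : ℕ} (hn : 3 ≤ n) : 2 * n ∣ (cyc G n).card := by
  let s : Setoid (List V) := ⟨Same, ⟨Same.refl, Same.symm, Same.trans⟩⟩
  rw [Finset.card_eq_sum_card_image (fun l => Quotient.mk s l) (cyc G n)]
  apply Finset.dvd_sum
  intro q hq
  rw [Finset.mem_image] at hq
  obtain ⟨z, hz, rfl⟩ := hq
  have e : (cyc G n).filter (fun l => Quotient.mk s l = Quotient.mk s z) = (cyc G n).filter (fun l => Same z l) := by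
    ext l
    simp only [Finset.mem_filter, and_congr_right_iff]
    intro _
    rw [Quotient.eq]
    exact ⟨fun h => Same.symm h, fun h => Same.symm h⟩
  rw [e, card_same hn hz]

/-- for even `k` the sum of the degrees of a `P(k)`-graph is divisible by four -/
theorem PK.four_dvd [Nonempty V] [DecidableRel G.Adj] (h : PK G k) (hk : 3 ≤ k) (he : Even k) :
    4 ∣ ∑ y, G.degree y := by
  have h1 : 4 ∣ ∑ y : V, (cycAt G (k + 2) y).card := by
    rw [← card_cyc_eq_sum]
    obtain ⟨r, hr⟩ := he
    refine dvd_trans ?_ (two_mul_dvd_cyc (G := G) (n := k + 2) (by omega))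
    exact ⟨r + 1, by omega⟩
  have h2 : (∑ y : V, (cycAt G (k + 2) y).card) % 4 = (∑ y, G.degree y) % 4 := by
    rw [Finset.sum_nat_mod, Finset.sum_nat_mod (f := fun y => G.degree y)]
    congr 1
    apply Finset.sum_congr rfl
    intro y _
    exact h.cycAt_mod hk y
  omega

end par

variable {V : Type*} [Fintype V] [DecidableEq V] {G : SimpleGraph V} [DecidableRel G.Adj] {k : ℕ}

/-- the strict half-weight inequality -/
def Strict (G : SimpleGraph V) [DecidableRel G.Adj] (k : ℕ) : Prop :=
  ∀ z : List V, IsCyc G z → z.length = k + 1 →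
    ∑ x with x ∉ z, ((G.degree x : ℤ) - 2) + 2 ≤ ∑ x with x ∈ z, ((G.degree x : ℤ) - 2)

theorem PK.strict_sum (h : PK G k) (hk : 3 ≤ k) (hF : Strict G k) :
    2 * ∑ y, (G.degree y : ℤ) ≤
      ∑ x, ((G.degree x : ℤ) - 2) * (2 * (k + 1) * G.degree x - ∑ y, (G.degree y : ℤ)) := by
  have h1 : ∀ z ∈ cycs G (k + 1),
      2 ≤ ∑ x, ((G.degree x : ℤ) - 2) * ((if x ∈ z then 2 else 0) - 1) := by
    intro z hz
    rw [mem_cycs] at hz
    have h2 := hF z hz.1 hz.2
    have h3 : ∑ x, ((G.degree x : ℤ) - 2) * ((if x ∈ z then 2 else 0) - 1)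
        = ∑ x with x ∈ z, ((G.degree x : ℤ) - 2) - ∑ x with x ∉ z, ((G.degree x : ℤ) - 2) := by
      rw [Finset.sum_filter, Finset.sum_filter, ← Finset.sum_sub_distrib]
      apply Finset.sum_congr rfl
      intro x _
      by_cases hx : x ∈ z
      · simp [hx]
      · simp [hx]
    rw [h3]
    linarith
  have h2 := Finset.sum_le_sum h1
  rw [Finset.sum_const, nsmul_eq_mul, h.card_cycs hk, Finset.sum_comm] at h2
  have h5 : (((∑ y, G.degree y : ℕ) : ℤ)) * 2 = 2 * ∑ y, (G.degree y : ℤ) := by push_cast; ring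
  rw [h5] at h2
  refine h2.trans (le_of_eq ?_)
  apply Finset.sum_congr rfl
  intro x _
  rw [← Finset.mul_sum]
  congr 1
  rw [Finset.sum_sub_distrib]
  have h3 : ∑ z ∈ cycs G (k + 1), (if x ∈ z then (2 : ℤ) else 0)
      = 2 * (((cycs G (k + 1)).filter (fun z => x ∈ z)).card : ℤ) := by
    rw [← Finset.sum_filter, Finset.sum_const, nsmul_eq_mul]
    ring
  rw [h3, h.card_cycs_mem hk x]
  have h4 : ∑ _z ∈ cycs G (k + 1), (1 : ℤ) = ((cycs G (k + 1)).card : ℤ) := by simp
  rw [h4, h.card_cycs hk]
  push_cast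
  ring

theorem PK.two_mul_dvd_sum [Nonempty V] (h : PK G k) (hk : 3 ≤ k) : 2 * (k + 1) ∣ ∑ y, G.degree y := by
  classical
  have h1 := two_mul_dvd_cyc (G := G) (n := k + 1) (by omega)
  rw [card_cyc_eq_sum] at h1
  have h2 : ∑ a : V, (cycAt G (k + 1) a).card = ∑ y, G.degree y := by
    apply Finset.sum_congr rfl
    intro y _
    rw [h.card_cycAt (by omega) y]
  rw [h2] at h1
  exact h1

/-- maximum degree four, given the strict inequality: exactly three `(k+1)`-cycles -/
theorem PK.four_of_strict [Nontrivial V] (h : PK G k) (hk : 3 ≤ k) (hF : Strict G k)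
    (hd : ∀ x, G.degree x ≤ 4) : ∑ y, G.degree y = 6 * (k + 1) := by
  have h1 := h.strict_sum hk hF
  obtain ⟨m, hm⟩ := h.two_mul_dvd_sum hk
  have h3 := h.three_le hk
  have hm3 : 3 ≤ m := by
    rw [hm] at h3
    by_contra hcon
    push Not at hcon
    have : 2 * (k + 1) * m ≤ 2 * (k + 1) * 2 := Nat.mul_le_mul_left _ (by omega)
    omega
  have hm4 : m < 4 := by
    by_contra hcon
    push Not at hcon
    have h4 : ∀ x, ((G.degree x : ℤ) - 2) * (2 * (k + 1) * G.degree x - ∑ y, (G.degree y : ℤ)) ≤ 0 := by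
      intro x
      have hp := h.degree_pos hk x
      obtain ⟨c, hc⟩ := h.even_degree hk x
      have h5 : 2 ≤ G.degree x := by omega
      apply mul_nonpos_of_nonneg_of_nonpos
      · have : (2 : ℤ) ≤ G.degree x := by exact_mod_cast h5
        linarith
      · have h6 : (∑ y, (G.degree y : ℤ)) = 2 * (k + 1) * m := by
          have : ((∑ y, G.degree y : ℕ) : ℤ) = ((2 * (k + 1) * m : ℕ) : ℤ) := by rw [hm]
          push_cast at this
          exact this
        rw [h6]
        have h7 : (G.degree x : ℤ) ≤ m := by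
          have := (hd x).trans hcon
          exact_mod_cast this
        have h8 : (0 : ℤ) ≤ 2 * (k + 1) := by positivity
        nlinarith
    have h5 := Finset.sum_nonpos (fun x (_ : x ∈ (Finset.univ : Finset V)) => h4 x)
    have h6 : (0 : ℤ) < ∑ y, (G.degree y : ℤ) := by
      have : 0 < ∑ y, G.degree y := by omega
      exact_mod_cast this
    linarith
  have : m = 3 := by omega
  rw [hm, this]
  ring

/-- for even `k` the maximum degree is at least six, given the strict inequality -/
theorem PK.odd_of_strict [Nontrivial V] (h : PK G k) (hk : 3 ≤ k) (hF : Strict G k)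
    (hd : ∀ x, G.degree x ≤ 4) : Odd k := by
  by_contra hcon
  rw [Nat.not_odd_iff_even] at hcon
  have h1 := h.four_of_strict hk hF hd
  have h2 := h.four_dvd hk hcon
  rw [h1] at h2
  obtain ⟨r, hr⟩ := hcon
  obtain ⟨c, hc⟩ := h2
  omega

end Pool.Agent.Work.KZ
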