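import Pool.Agent.Work.MP_f0e709_co.DF3
import Pool.Agent.Work.MP_f0e709_co.DF4
import Pool.Agent.Work.MP_f0e709_co.R3

/-! The strict half-weight inequality and its consequences (helper75, helper4, helper14). -/

set_option autoImplicit false
set_option linter.unusedSectionVars false

namespace Pool.Agent.Work.KZ

variable {V : Type*} [Fintype V] [DecidableEq V] {G : SimpleGraph V} [DecidableRel G.Adj] {k : ℕ}

/-- every `(k+1)`-cycle carries strictly more than half of the excess degree -/
theorem PK.strict_all (h : PK G k) (hk : 4 ≤ k) : Strict G k := by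
  intro z hz hzl
  by_contra hcon
  push Not at hcon
  have hR1 := h.circ (by omega)
  obtain ⟨hch, hconn⟩ := h.tight hk hR1 (h.branchEnd (by omega)) hz hzl hcon
  exact h.count_ears hk hR1 hz hzl hch hconn

/-- the number `m` of `(k+1)`-cycles is at least three, smaller than the maximum degree, and even for even `k` -/
theorem PK.cycles_lt [Nontrivial V] (h : PK G k) (hk : 4 ≤ k) :
    ∃ m, G.edgeFinset.card = m * (k + 1) ∧ 3 ≤ m ∧ m < G.maxDegree ∧ (Even k → Even m) := by
  have hk3 : 3 ≤ k := by omega
  obtain ⟨m, hm⟩ := h.two_mul_dvd_sum hk3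
  have h3 := h.three_le hk3
  have hE := G.sum_degrees_eq_twice_card_edges
  refine ⟨m, ?_, ?_, ?_, ?_⟩
  · have : 2 * G.edgeFinset.card = 2 * (m * (k + 1)) := by rw [← hE, hm]; ring
    omega
  · rw [hm] at h3
    by_contra hcon
    push Not at hcon
    have : 2 * (k + 1) * m ≤ 2 * (k + 1) * 2 := Nat.mul_le_mul_left _ (by omega)
    omega
  · by_contra hcon
    push Not at hcon
    have h1 := h.strict_sum hk3 (h.strict_all hk)
    have h4 : ∀ x, ((G.degree x : ℤ) - 2) * (2 * (k + 1) * G.degree x - ∑ y, (G.degree y : ℤ)) ≤ 0 := by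
      intro x
      have hp := h.degree_pos hk3 x
      obtain ⟨c, hc⟩ := h.even_degree hk3 x
      have h5 : 2 ≤ G.degree x := by omega
      apply mul_nonpos_of_nonneg_of_nonpos
      · have : (2 : ℤ) ≤ G.degree x := by exact_mod_cast h5
        linarith
      · have h6 : (∑ y, (G.degree y : ℤ)) = 2 * (k + 1) * m := by
          have : ((∑ y, G.degree y : ℕ) : ℤ) = ((2 * (k + 1) * m : ℕ) : ℤ) := by rw [hm]
          push_cast at this
          exact this
        rw [h6]
        have h7 : (G.degree x : ℤ) ≤ m := by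
          have := (G.degree_le_maxDegree x).trans hcon
          exact_mod_cast this
        have h8 : (0 : ℤ) ≤ 2 * (k + 1) := by positivity
        nlinarith
    have h5 := Finset.sum_nonpos (fun x (_ : x ∈ (Finset.univ : Finset V)) => h4 x)
    have h6 : (0 : ℤ) < ∑ y, (G.degree y : ℤ) := by
      have : 0 < ∑ y, G.degree y := by omega
      exact_mod_cast this
    linarith
  · intro he
    have h4 := h.four_dvd hk3 he
    rw [hm] at h4
    obtain ⟨r, hr⟩ := he
    by_contra hodd
    rw [Nat.not_even_iff_odd] at hodd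
    obtain ⟨c, hc⟩ := hodd
    obtain ⟨d, hd⟩ := h4
    have h5 : (k + 1) * m = 2 * d := by
      have : 2 * ((k + 1) * m) = 2 * (2 * d) := by rw [← mul_assoc, hd]; ring
      omega
    have h6 : Odd ((k + 1) * m) := by
      apply Odd.mul
      · exact ⟨r, by omega⟩
      · exact ⟨c, hc⟩
    rw [h5] at h6
    exact (Nat.not_even_iff_odd.2 h6) ⟨d, by ring⟩

theorem PK.even_maxDegree [Nontrivial V] (h : PK G k) (hk : 3 ≤ k) : Even G.maxDegree := by
  obtain ⟨x, hx⟩ := G.exists_maximal_degree_vertex
  rw [hx]
  exact h.even_degree hk x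

end Pool.Agent.Work.KZ
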