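import Mathlib

/-! P(k)-graphs (Kotzig), list form of the basic notions.  Lengths of lists are numbers of VERTICES. -/

set_option autoImplicit false

namespace Pool.Agent.Work.KZ

variable {V : Type*}

/-- `IsP G l`: the list `l` is the vertex list of a path of `G` (repetition free, consecutive ones adjacent). -/
def IsP (G : SimpleGraph V) (l : List V) : Prop := l.Nodup ∧ l.IsChain G.Adj

/-- `IsCyc G z`: the list `z` is the cyclic vertex list of a cycle of `G`. -/
def IsCyc (G : SimpleGraph V) (z : List V) : Prop :=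
  IsP G z ∧ (∀ x ∈ z.getLast?, ∀ y ∈ z.head?, G.Adj x y) ∧ 3 ≤ z.length

/-- `PK G k`: any two distinct vertices are joined by exactly one path with `k` edges. -/
def PK (G : SimpleGraph V) (k : ℕ) : Prop :=
  ∀ u v : V, u ≠ v →
    ∃! l : List V, IsP G l ∧ l.length = k + 1 ∧ l.head? = some u ∧ l.getLast? = some v

section basic

variable {G : SimpleGraph V} {k : ℕ}

theorem IsP.nil : IsP G [] := ⟨List.nodup_nil, List.isChain_nil⟩

theorem IsP.singleton (a : V) : IsP G [a] := ⟨List.nodup_singleton a, List.isChain_singleton a⟩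

theorem isP_append {l m : List V} :
    IsP G (l ++ m) ↔ IsP G l ∧ IsP G m ∧ l.Disjoint m ∧
      ∀ x ∈ l.getLast?, ∀ y ∈ m.head?, G.Adj x y := by
  unfold IsP
  rw [List.isChain_append, List.nodup_append']
  tauto

theorem IsP.left {l m : List V} (h : IsP G (l ++ m)) : IsP G l := (isP_append.1 h).1

theorem IsP.right {l m : List V} (h : IsP G (l ++ m)) : IsP G m := (isP_append.1 h).2.1

theorem IsP.of_prefix {l m : List V} (h : IsP G m) (hl : l <+: m) : IsP G l := by
  obtain ⟨t, rfl⟩ := hl
  exact h.left

theorem IsP.of_suffix {l m : List V} (h : IsP G m) (hl : l <:+ m) : IsP G l := by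
  obtain ⟨t, rfl⟩ := hl
  exact h.right

theorem IsP.of_infix {l m : List V} (h : IsP G m) (hl : l <:+: m) : IsP G l := by
  obtain ⟨s, t, rfl⟩ := hl
  exact h.left.right

theorem IsP.take {l : List V} (h : IsP G l) (n : ℕ) : IsP G (l.take n) :=
  h.of_prefix (List.take_prefix n l)

theorem IsP.drop {l : List V} (h : IsP G l) (n : ℕ) : IsP G (l.drop n) :=
  h.of_suffix (List.drop_suffix n l)

theorem IsP.reverse {l : List V} (h : IsP G l) : IsP G l.reverse := by
  refine ⟨List.nodup_reverse.2 h.1, ?_⟩
  rw [List.isChain_reverse]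
  exact h.2.imp (fun a b hab => hab.symm)

@[simp] theorem isP_reverse {l : List V} : IsP G l.reverse ↔ IsP G l :=
  ⟨fun h => by simpa using h.reverse, fun h => h.reverse⟩

theorem isP_cons {a : V} {l : List V} :
    IsP G (a :: l) ↔ a ∉ l ∧ IsP G l ∧ ∀ y ∈ l.head?, G.Adj a y := by
  have := isP_append (G := G) (l := [a]) (m := l)
  simp only [List.singleton_append] at this
  rw [this]
  simp [IsP.singleton]
  tauto

theorem isP_concat {a : V} {l : List V} :
    IsP G (l ++ [a]) ↔ IsP G l ∧ a ∉ l ∧ ∀ x ∈ l.getLast?, G.Adj x a := by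
  rw [isP_append]
  simp [IsP.singleton]

/-- uniqueness of `k`-paths -/
theorem PK.uniq (h : PK G k) {l m : List V} (hl : IsP G l) (hm : IsP G m)
    (hll : l.length = k + 1) (hml : m.length = k + 1) (hh : l.head? = m.head?)
    (hla : l.getLast? = m.getLast?) (hk : 1 ≤ k) : l = m := by
  obtain ⟨a, l', rfl⟩ : ∃ a l', l = a :: l' := by
    cases l with
    | nil => simp at hll
    | cons a l' => exact ⟨a, l', rfl⟩
  have hl' : l' ≠ [] := by
    rintro rfl
    simp at hll
    omega
  set b := (a :: l').getLast (by simp) with hb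
  have hlast : (a :: l').getLast? = some b := List.getLast?_eq_some_getLast (by simp)
  have hbl' : b ∈ l' := by
    rw [hb, List.getLast_cons hl']
    exact List.getLast_mem hl'
  have hab : a ≠ b := by
    rintro h'
    rw [← h'] at hbl'
    exact (List.nodup_cons.1 hl.1).1 hbl'
  obtain ⟨w, hw, hwu⟩ := h a b hab
  have h1 := hwu (a :: l') ⟨hl, hll, rfl, hlast⟩
  have h2 := hwu m ⟨hm, hml, by rw [← hh]; rfl, by rw [← hla]; exact hlast⟩
  rw [h1, h2]

/-- existence of `k`-paths -/
theorem PK.exists (h : PK G k) {u v : V} (huv : u ≠ v) :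
    ∃ l : List V, IsP G l ∧ l.length = k + 1 ∧ l.head? = some u ∧ l.getLast? = some v := by
  obtain ⟨l, hl, _⟩ := h u v huv
  exact ⟨l, hl⟩

end basic

section finite

variable [Finite V]

theorem finite_paths (G : SimpleGraph V) (n : ℕ) : {l : List V | IsP G l ∧ l.length = n}.Finite :=
  (List.finite_length_eq V n).subset (fun _ h => h.2)

/-- all paths of `G` with `n` vertices, as a finite set of lists -/
noncomputable def paths (G : SimpleGraph V) (n : ℕ) : Finset (List V) := (finite_paths G n).toFinset

@[simp] theorem mem_paths {G : SimpleGraph V} {n : ℕ} {l : List V} :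
    l ∈ paths G n ↔ IsP G l ∧ l.length = n := by
  simp [paths]

/-- `IsCl G x`: `x = (p, q)` is a closing: `p ++ q` is a path, `2 ≤ |q|`, and the last vertex of `q`
(the end of the path) is adjacent to the last vertex of `p`. -/
def IsCl (G : SimpleGraph V) (x : List V × List V) : Prop :=
  IsP G (x.1 ++ x.2) ∧ 2 ≤ x.2.length ∧ ∀ a ∈ x.1.getLast?, ∀ b ∈ x.2.getLast?, G.Adj a b

theorem finite_closings (G : SimpleGraph V) (n s : ℕ) :
    {x : List V × List V | IsCl G x ∧ x.1.length + x.2.length = n ∧ s ≤ x.1.length}.Finite := by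
  refine (((List.finite_length_lt V (n + 1)).prod (List.finite_length_lt V (n + 1)))).subset ?_
  rintro x ⟨_, h, _⟩
  constructor <;> simp <;> omega

/-- the closings `(p, q)` with `|p| + |q| = n` and `s ≤ |p|`, as a finite set -/
noncomputable def closings (G : SimpleGraph V) (n s : ℕ) : Finset (List V × List V) :=
  (finite_closings G n s).toFinset

@[simp] theorem mem_closings {G : SimpleGraph V} {n s : ℕ} {x : List V × List V} :
    x ∈ closings G n s ↔ IsCl G x ∧ x.1.length + x.2.length = n ∧ s ≤ x.1.length := by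
  simp [closings]

end finite

/-- degree of the last vertex of a list (0 for the empty list) -/
def degLast [Fintype V] (G : SimpleGraph V) [DecidableRel G.Adj] (l : List V) : ℕ :=
  (l.getLast?.map (fun x => G.degree x)).getD 0

end Pool.Agent.Work.KZ
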