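import Pool.Agent.Work.MP_f0e709_co.M1

/-! The local lemma: the cycle and the path of a cherry carry an even cycle of length at most `2k`. -/

set_option autoImplicit false

namespace Pool.Agent.Work.KZ

variable {V : Type*} {G : SimpleGraph V} {k : ℕ}

/-- two lists have a longest common initial part -/
theorem common_start {α : Type*} (l m : List α) :
    ∃ s u v, l = s ++ u ∧ m = s ++ v ∧
      (u = [] ∨ v = [] ∨ ∃ x u' y v', u = x :: u' ∧ v = y :: v' ∧ x ≠ y) := by
  induction l generalizing m with
  | nil => exact ⟨[], [], m, rfl, rfl, Or.inl rfl⟩
  | cons a l ih =>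
    cases m with
    | nil => exact ⟨[], a :: l, [], rfl, rfl, Or.inr (Or.inl rfl)⟩
    | cons b m =>
      by_cases hab : a = b
      · subst hab
        obtain ⟨s, u, v, h1, h2, h3⟩ := ih m
        exact ⟨a :: s, u, v, by rw [h1]; rfl, by rw [h2]; rfl, h3⟩
      · exact ⟨[], a :: l, b :: m, rfl, rfl, Or.inr (Or.inr ⟨a, l, b, m, rfl, rfl, hab⟩)⟩

/-- `Conn G S x y`: some path of `G` with all vertices in `S` goes from `x` to `y` -/
def Conn (G : SimpleGraph V) (S : V → Prop) (x y : V) : Prop :=
  ∃ l : List V, IsP G l ∧ l.head? = some x ∧ l.getLast? = some y ∧ ∀ v ∈ l, S v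

theorem Conn.symm {S : V → Prop} {x y : V} (h : Conn G S x y) : Conn G S y x := by
  obtain ⟨l, h1, h2, h3, h4⟩ := h
  refine ⟨l.reverse, h1.reverse, ?_, ?_, ?_⟩
  · rw [List.head?_reverse]; exact h3
  · rw [List.getLast?_reverse]; exact h2
  · intro v hv; exact h4 v (by simpa using hv)

theorem Conn.trans {S : V → Prop} {x y z : V} (h : Conn G S x y) (h' : Conn G S y z) :
    Conn G S x z := by
  obtain ⟨l, h1, h2, h3, h4⟩ := h
  obtain ⟨m, g1, g2, g3, g4⟩ := h'
  have hym : y ∈ m := List.mem_of_mem_head? (by rw [g2]; rfl)
  have hyl : y ∈ l := List.mem_of_mem_getLast? (by rw [h3]; rfl)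
  obtain ⟨m1, p, m2, rfl, hp, hm2⟩ := exists_last (fun v => v ∈ l) m ⟨y, hym, hyl⟩
  obtain ⟨l1, l2, rfl⟩ := List.append_of_mem hp
  refine ⟨l1 ++ p :: m2, ?_, ?_, ?_, ?_⟩
  · refine IsP.glue ?_ ?_ ?_
    · exact h1.of_prefix ⟨l2, by simp⟩
    · exact g1.of_suffix ⟨m1, rfl⟩
    · intro v hv hv'
      exact hm2 v hv (by simp [hv'])
  · cases l1 with
    | nil => simpa using h2
    | cons a l1 => simpa using h2
  · rw [← g3, List.getLast?_append_of_ne_nil _ (by simp), List.getLast?_append_of_ne_nil _ (by simp)]
  · intro v hv
    rcases List.mem_append.1 hv with h5 | h5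
    · exact h4 v (by simp [h5])
    · exact g4 v (by simp only [List.mem_append]; exact Or.inr h5)

/-- two vertices of a path contained in `S` are connected inside `S` -/
theorem conn_of_path {S : V → Prop} {l : List V} (hl : IsP G l) (hS : ∀ v ∈ l, S v) {x y : V}
    (hx : x ∈ l) (hy : y ∈ l) : Conn G S x y := by
  have key : ∀ y ∈ l, ∀ a, l.head? = some a → Conn G S a y := by
    intro y hy a ha
    obtain ⟨s, t, rfl⟩ := List.append_of_mem hy
    refine ⟨s ++ [y], hl.of_prefix ⟨t, by simp⟩, ?_, by simp, ?_⟩
    · cases s with
      | nil => simpa using ha
      | cons b s => simpa using ha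
    · intro v hv
      exact hS v (by simp at hv ⊢; tauto)
  cases l with
  | nil => simp at hx
  | cons a l => exact (key x hx a rfl).symm.trans (key y hy a rfl)

/-- the tail rule: in a connected set `S` containing an even cycle of length `2r ≤ 2k` no path with `k - r`
edges starts in `S` and leaves it for good -/
theorem PK.tail_rule (h : PK G k) {r : ℕ} (hr : 2 ≤ r) (hrk : r ≤ k) {Y : List V} (hY : IsCyc G Y)
    (hYl : Y.length = 2 * r) {S : V → Prop} (hYS : ∀ v ∈ Y, S v) {w : V} {l : List V}
    (hconn : ∀ y, S y → Conn G S y w) (hl : IsP G (w :: l)) (hlS : ∀ v ∈ l, ¬ S v)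
    (hll : k - r ≤ l.length) : False := by
  obtain ⟨y, hy⟩ := List.exists_mem_of_ne_nil Y hY.ne_nil
  obtain ⟨m, m1, m2, m3, m4⟩ := hconn y (hYS y hy)
  have hym : y ∈ m := List.mem_of_mem_head? (by rw [m2]; rfl)
  obtain ⟨a, p, b, rfl, hp, hb⟩ := exists_last (fun v => v ∈ Y) m ⟨y, hym, hy⟩
  obtain ⟨Y', hY', hperm⟩ := hY.rot_to hp
  -- the tail
  have htail : ∃ t : List V, IsP G (p :: t) ∧ (∀ x ∈ t, x ∉ Y) ∧ l.length ≤ t.length := by
    rcases List.eq_nil_or_concat b with h0 | ⟨b', w', h0⟩
    · subst h0
      have hpw : p = w := by simpa using m3
      subst hpw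
      exact ⟨l, hl, fun x hx hx' => hlS x hx (hYS x hx'), le_rfl⟩
    · rw [List.concat_eq_append] at h0
      subst h0
      have hww : w' = w := by
        rw [show a ++ p :: (b' ++ [w']) = (a ++ p :: b') ++ [w'] by simp,
          List.getLast?_append_of_ne_nil _ (by simp)] at m3
        simpa using m3
      subst hww
      refine ⟨b' ++ w' :: l, ?_, ?_, ?_⟩
      · have : IsP G ((p :: b') ++ w' :: l) := by
          refine IsP.glue ?_ hl ?_
          · exact m1.of_suffix ⟨a, by simp⟩
          · intro x hx hx'
            exact hlS x hx (m4 x (by simp at hx' ⊢; tauto))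
        simpa using this
      · intro x hx hx'
        rcases List.mem_append.1 hx with h1 | h1
        · exact hb x (by simp [h1]) hx'
        · rcases List.mem_cons.1 h1 with h2 | h2
          · exact hb x (by simp [h2]) hx'
          · exact hlS x h2 (hYS x hx')
      · simp; omega
  obtain ⟨t, t1, t2, t3⟩ := htail
  refine h.even_rule hr hrk (t := t.take (k - r)) hY' (by rw [hperm.length_eq, hYl]) ?_ ?_ ?_
  · have := t1.take (k - r + 1)
    simpa using this
  · intro x hx hx'
    exact t2 x (List.mem_of_mem_take hx) (hperm.mem_iff.1 (by simp [hx']))
  · rw [List.length_take]; omega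

/-- an ear of an odd cycle gives an even cycle -/
theorem IsCyc.even_of_ear {c d : V} {a b e : List V} (hz : IsCyc G (c :: a ++ d :: b))
    (he : IsP G (c :: e ++ [d])) (hdis : ∀ x ∈ e, x ∉ (c :: a ++ d :: b))
    (hne : e = [] → a ≠ [] ∧ b ≠ []) (hodd : Odd (c :: a ++ d :: b).length) :
    ∃ (Y : List V) (r : ℕ), IsCyc G Y ∧ Y.length = 2 * r ∧ 2 ≤ r ∧
      2 * r ≤ e.length + (c :: a ++ d :: b).length ∧ ∀ y ∈ Y, y ∈ (c :: a ++ d :: b) ∨ y ∈ e := by
  obtain ⟨q, hq⟩ := hodd
  have hq' : a.length + b.length + 1 = 2 * q := by
    simp at hq; omega
  have ha : 1 ≤ a.length + e.length := by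
    by_cases he0 : e = []
    · have := List.length_pos_iff.2 (hne he0).1; omega
    · have := List.length_pos_iff.2 he0; omega
  have hb : 1 ≤ b.length + e.length := by
    by_cases he0 : e = []
    · have := List.length_pos_iff.2 (hne he0).2; omega
    · have := List.length_pos_iff.2 he0; omega
  rcases Nat.even_or_odd' (a.length + e.length) with ⟨r, hr | hr⟩
  · refine ⟨c :: (a ++ d :: e.reverse), r + 1, hz.ear_cycle he hdis ha, ?_, by omega, ?_, ?_⟩
    · simp; omega
    · simp; omega
    · intro y hy
      simp only [List.mem_cons, List.mem_append, List.mem_reverse] at hy ⊢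
      tauto
  · have hz2 := hz.flip
    refine ⟨c :: (b.reverse ++ d :: e.reverse), (b.length + e.length) / 2 + 1,
      hz2.ear_cycle he ?_ ?_, ?_, ?_, ?_, ?_⟩
    · intro x hx hx'
      exact hdis x hx (IsCyc.mem_flip.1 hx')
    · simpa using hb
    · simp; omega
    · omega
    · simp; omega
    · intro y hy
      simp only [List.mem_cons, List.mem_append, List.mem_reverse] at hy ⊢
      tauto

/-- closing a path by an edge -/
theorem isCyc_cons_close {x y : V} {m : List V} (h : IsP G (x :: m ++ [y])) (hxy : G.Adj x y)
    (hm : m ≠ []) : IsCyc G (x :: m ++ [y]) := by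
  refine ⟨h, ?_, ?_⟩
  · intro u hu v hv
    have h1 : u = y := by
      rw [List.getLast?_append_of_ne_nil _ (by simp)] at hu
      simpa using hu.symm
    have h2 : v = x := by simpa using hv.symm
    subst h1; subst h2
    exact hxy.symm
  · have := List.length_pos_iff.2 hm
    simp; omega

/-- the local lemma, `z0 ~ z1 ~ z2` a cherry, `c` the path with `k` edges from `z0` to `z1` (its vertex set is the
`(k+1)`-cycle through `z0 z1`), `r` the one from `z0` to `z2`: these carry an even cycle. -/
theorem PK.local_cycle (hk : 3 ≤ k) {z0 z1 z2 : V} {c r : List V}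
    (h01 : G.Adj z0 z1) (h12 : G.Adj z1 z2) (h02 : z0 ≠ z2)
    (hc : IsP G c) (hcl : c.length = k + 1) (hch : c.head? = some z0) (hct : c.getLast? = some z1)
    (hr : IsP G r) (hrl : r.length = k + 1) (hrh : r.head? = some z0) (hrt : r.getLast? = some z2) :
    ∃ (Y : List V) (s : ℕ), IsCyc G Y ∧ Y.length = 2 * s ∧ 2 ≤ s ∧ s ≤ k ∧
      ∀ y ∈ Y, y ∈ c ∨ y ∈ r := by
  have hz0c : z0 ∈ c := List.mem_of_mem_head? (by rw [hch]; rfl)
  have hz1c : z1 ∈ c := List.mem_of_mem_getLast? (by rw [hct]; rfl)
  have hcyc : IsCyc G c := by
    refine ⟨hc, ?_, by omega⟩
    intro x hx y hy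
    rw [hct] at hx; rw [hch] at hy
    have h1 : x = z1 := by simpa using hx.symm
    have h2 : y = z0 := by simpa using hy.symm
    subst h1; subst h2
    exact h01.symm
  rcases Nat.even_or_odd k with ⟨κ, hκ⟩ | ⟨κ, hκ⟩
  swap
  · exact ⟨c, κ + 1, hcyc, by omega, by omega, by omega, fun y hy => Or.inl hy⟩
  -- k even
  by_cases hz1r : z1 ∈ r
  swap
  · -- the cycle r + z2 z1 z0
    refine ⟨r ++ [z1], κ + 1, ⟨?_, ?_, ?_⟩, by simp; omega, by omega, by omega, ?_⟩
    · rw [isP_concat]
      refine ⟨hr, hz1r, ?_⟩
      intro x hx
      rw [hrt] at hx
      have h1 : x = z2 := by simpa using hx.symm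
      subst h1
      exact h12.symm
    · intro x hx y hy
      have h1 : x = z1 := by simpa using hx.symm
      have h2 : y = z0 := by
        have h3 : r ≠ [] := by rintro rfl; simp at hrl
        rw [List.head?_append_of_ne_nil _ h3, hrh] at hy
        simpa using hy.symm
      subst h1; subst h2
      exact h01.symm
    · simp; omega
    · intro y hy
      rcases List.mem_append.1 hy with h1 | h1
      · exact Or.inr h1
      · have : y = z1 := by simpa using h1
        subst this
        exact Or.inl hz1c
  · obtain ⟨s, t, rfl⟩ := List.append_of_mem hz1r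
    -- `s` starts with `z0`, `t` ends with `z2`
    obtain ⟨m, rfl⟩ : ∃ m, s = z0 :: m := by
      cases s with
      | nil =>
        exfalso
        simp at hrh
        exact h01.ne hrh.symm
      | cons a m =>
        simp at hrh
        subst hrh
        exact ⟨m, rfl⟩
    obtain ⟨n, rfl⟩ : ∃ n, t = n ++ [z2] := by
      rcases List.eq_nil_or_concat t with h0 | ⟨n, u, h0⟩
      · exfalso
        subst h0
        rw [List.getLast?_append_of_ne_nil _ (by simp)] at hrt
        have : z1 = z2 := by simpa using hrt
        exact h12.ne this
      · rw [List.concat_eq_append] at h0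
        subst h0
        have : u = z2 := by
          rw [show (z0 :: m) ++ z1 :: (n ++ [u]) = ((z0 :: m) ++ z1 :: n) ++ [u] by simp,
            List.getLast?_append_of_ne_nil _ (by simp)] at hrt
          simpa using hrt
        subst this
        exact ⟨n, rfl⟩
    have hlen : m.length + n.length + 3 = k + 1 := by
      simp at hrl; omega
    by_cases hm0 : m = []
    · -- the cycle z1 n z2
      subst hm0
      have hn : n ≠ [] := by
        rintro rfl
        simp at hlen
        omega
      refine ⟨z1 :: n ++ [z2], κ, ?_, ?_, ?_, ?_, ?_⟩
      · refine isCyc_cons_close ?_ h12 hn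
        exact hr.of_suffix ⟨[z0], by simp⟩
      · simp at hlen ⊢; omega
      · omega
      · omega
      · intro y hy
        exact Or.inr (by simp at hy ⊢; tauto)
    · have hR1 : IsP G (z0 :: m ++ [z1]) := hr.of_prefix ⟨n ++ [z2], by simp⟩
      rcases Nat.even_or_odd' m.length with ⟨q, hq | hq⟩
      · -- even number of inner vertices: the cycle z0 m z1
        have := List.length_pos_iff.2 hm0
        refine ⟨z0 :: m ++ [z1], q + 1, isCyc_cons_close hR1 h01 hm0, ?_, ?_, ?_, ?_⟩
        · simp; omega
        · omega
        · omega
        · intro y hy
          exact Or.inr (by simp at hy ⊢; tauto)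
      · -- odd number of inner vertices: an ear
        have hodd : Odd (k + 1) := ⟨κ, by omega⟩
        have hear : ∃ (x y : V) (a b e : List V), IsCyc G (x :: a ++ y :: b) ∧
            (x :: a ++ y :: b).Perm c ∧ IsP G (x :: e ++ [y]) ∧ (∀ u ∈ e, u ∉ c) ∧
            (e = [] → a ≠ [] ∧ b ≠ []) ∧ (∀ u ∈ e, u ∈ z0 :: m ++ [z1]) ∧ e.length ≤ m.length := by
          by_cases hout : ∃ u ∈ m, u ∉ c
          · obtain ⟨m1, p, m2, rfl, hp, hm1⟩ := exists_first (fun u => u ∉ c) m hout
            -- the last vertex before p
            obtain ⟨g, x, hgx⟩ : ∃ g x, z0 :: m1 = g ++ [x] := by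
              rcases List.eq_nil_or_concat (z0 :: m1) with h0 | ⟨g, x, h0⟩
              · simp at h0
              · exact ⟨g, x, by simpa using h0⟩
            have hxc : x ∈ c := by
              have h1 : x ∈ z0 :: m1 := by rw [hgx]; simp
              rcases List.mem_cons.1 h1 with h2 | h2
              · subst h2; exact hz0c
              · have := hm1 x h2
                push Not at this
                exact this
            obtain ⟨e, y, m3, he, hy, he2⟩ := exists_first (fun u => u ∈ c) (m2 ++ [z1])
              ⟨z1, by simp, hz1c⟩
            have hR1' : z0 :: (m1 ++ p :: m2) ++ [z1] = (g ++ x :: p :: e) ++ y :: m3 := by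
              have : z0 :: (m1 ++ p :: m2) ++ [z1] = (z0 :: m1) ++ p :: (m2 ++ [z1]) := by simp
              rw [this, hgx, he]
              simp
            have hR1'' := hR1
            rw [hR1'] at hR1''
            have hE : IsP G (x :: (p :: e) ++ [y]) := hR1''.of_infix ⟨g, m3, by simp⟩
            have hxy : x ≠ y := by
              rintro rfl
              have := hE.1
              simp at this
            obtain ⟨a, b, hab, hperm⟩ := hcyc.split_at hxc hy hxy
            refine ⟨x, y, a, b, p :: e, hab, hperm, hE, ?_, ?_, ?_, ?_⟩
            · intro u hu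
              rcases List.mem_cons.1 hu with h1 | h1
              · subst h1; exact hp
              · exact he2 u h1
            · intro h0; simp at h0
            · intro u hu
              rw [hR1']
              simp at hu ⊢
              tauto
            · have h1 := congrArg List.length hR1'
              have h2 := congrArg List.length hgx
              simp at h1 h2 ⊢
              omega
          · push Not at hout
            -- longest common start of `z0 :: m ++ [z1]` and `c`
            obtain ⟨s, u, v, hu, hv, huv⟩ := common_start (z0 :: m ++ [z1]) c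
            have hnd := hR1.1
            have hcnd := hc.1
            have hnlen : m.length ≤ k - 3 := by
              have : n.length ≠ 0 := by
                intro h0
                omega
              omega
            rcases huv with h0 | h0 | ⟨x, u', y, v', rfl, rfl, hxy⟩
            · -- the whole path is a start of c: length contradiction
              exfalso
              subst h0
              rw [List.append_nil] at hu
              rw [← hu] at hv
              have hvn : v = [] := by
                rcases List.eq_nil_or_concat v with h1 | ⟨v1, w, h1⟩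
                · exact h1
                · exfalso
                  rw [List.concat_eq_append] at h1
                  subst h1
                  have hw : w = z1 := by
                    rw [hv, ← List.append_assoc, List.getLast?_append_of_ne_nil _ (by simp)] at hct
                    simpa using hct
                  subst hw
                  rw [hv] at hcnd
                  have h2 := (List.nodup_append'.1 hcnd).2.2
                  exact h2 (a := w) (by simp) (by simp)
              subst hvn
              rw [hv] at hcl
              simp at hcl
              omega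
            · exfalso
              subst h0
              rw [List.append_nil] at hv
              subst hv
              have h1 := congrArg List.length hu
              simp at h1
              omega
            · have hsne : s ≠ [] := by
                rintro rfl
                simp at hu hv
                obtain ⟨h1, h2⟩ := hu
                subst h1
                rw [hv] at hch
                simp at hch
                exact hxy hch.symm
              obtain ⟨g, w, rfl⟩ : ∃ g w, s = g ++ [w] := by
                rcases List.eq_nil_or_concat s with h0 | ⟨g, w, h0⟩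
                · exact absurd h0 hsne
                · exact ⟨g, w, by simpa using h0⟩
              rw [hu] at hnd
              have hwx : G.Adj w x := by
                have h1 := hR1
                rw [hu] at h1
                exact (isP_append.1 h1).2.2.2 w (by simp) x (by simp)
              have hxc : x ∈ c := by
                have h1 : x ∈ z0 :: m ++ [z1] := by rw [hu]; simp
                simp only [List.cons_append, List.mem_cons, List.mem_append, List.not_mem_nil,
                  or_false] at h1
                rcases h1 with h1 | h1 | h1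
                · subst h1; exact hz0c
                · exact hout x h1
                · subst h1; exact hz1c
              have hxs : x ∉ g ++ [w] := by
                intro h1
                exact (List.nodup_append'.1 hnd).2.2 h1 (by simp)
              have hxv : x ∈ v' := by
                rw [hv] at hxc
                rcases List.mem_append.1 hxc with h1 | h1
                · exact absurd h1 hxs
                · rcases List.mem_cons.1 h1 with h2 | h2
                  · exact absurd h2 hxy
                  · exact h2
              obtain ⟨v1, v2, rfl⟩ := List.append_of_mem hxv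
              have hcyc2 : IsCyc G (w :: (y :: v1) ++ x :: (v2 ++ g)) := by
                have h1 : IsCyc G (g ++ (w :: (y :: v1) ++ x :: v2)) := by
                  rw [hv] at hcyc
                  simpa using hcyc
                have := h1.rot
                simpa using this
              have hperm : (w :: (y :: v1) ++ x :: (v2 ++ g)).Perm c := by
                have h1 : ((w :: (y :: v1) ++ x :: v2) ++ g).Perm (g ++ (w :: (y :: v1) ++ x :: v2)) :=
                  List.perm_append_comm
                rw [hv]
                simpa using h1
              refine ⟨w, x, y :: v1, v2 ++ g, [], hcyc2, hperm, ?_, by simp, ?_, by simp, by simp⟩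
              · refine (isP_append (l := [w]) (m := [x])).2 ⟨IsP.singleton w, IsP.singleton x, ?_, ?_⟩
                · simpa using hwx.ne'
                · intro a ha b hb
                  have h1 : a = w := by simpa using ha.symm
                  have h2 : b = x := by simpa using hb.symm
                  subst h1; subst h2
                  exact hwx
              · intro _
                refine ⟨by simp, ?_⟩
                intro h0
                rw [List.append_eq_nil_iff] at h0
                obtain ⟨h1, h2⟩ := h0
                subst h1; subst h2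
                -- then x = z1 and w = z0, so m = []
                have hx1 : x = z1 := by
                  rw [hv, show ([] ++ [w]) ++ y :: (v1 ++ x :: []) = (w :: y :: v1) ++ [x] by simp,
                    List.getLast?_append_of_ne_nil _ (by simp)] at hct
                  simpa using hct
                subst hx1
                have hu2 : (z0 :: m) ++ [x] = [w] ++ x :: u' := by simpa using hu
                have h3 : m ++ [x] = x :: u' := by
                  have := congrArg List.tail hu2
                  simpa using this
                cases m with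
                | nil => exact hm0 rfl
                | cons a m =>
                  have h4 : a = x := by
                    have := congrArg List.head? h3
                    simpa using this
                  subst h4
                  have h5 := hR1.1
                  simp at h5
        obtain ⟨x, y, a, b, e, he1, he2, he3, he4, he5, he6, he7⟩ := hear
        have hl2 : (x :: a ++ y :: b).length = k + 1 := by rw [he2.length_eq, hcl]
        obtain ⟨Y, s, hY1, hY2, hY3, hY4, hY5⟩ := he1.even_of_ear he3
          (fun u hu hu' => he4 u hu (he2.mem_iff.1 hu')) he5 (by rw [hl2]; exact hodd)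
        refine ⟨Y, s, hY1, hY2, hY3, ?_, ?_⟩
        · omega
        · intro u hu
          rcases hY5 u hu with h1 | h1
          · exact Or.inl (he2.mem_iff.1 h1)
          · have := he6 u h1
            exact Or.inr (by simp at this ⊢; tauto)

/-- no path with `k - 1` vertices starts on `c ∪ r` and has all its other vertices off `c ∪ r` -/
theorem PK.local_tail (h : PK G k) (hk : 3 ≤ k) {z0 z1 z2 : V} {c r : List V}
    (h01 : G.Adj z0 z1) (h12 : G.Adj z1 z2) (h02 : z0 ≠ z2)
    (hc : IsP G c) (hcl : c.length = k + 1) (hch : c.head? = some z0) (hct : c.getLast? = some z1)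
    (hr : IsP G r) (hrl : r.length = k + 1) (hrh : r.head? = some z0) (hrt : r.getLast? = some z2)
    {w : V} {l : List V} (hw : w ∈ c ∨ w ∈ r) (hl : IsP G (w :: l))
    (hd : ∀ x ∈ l, x ∉ c ∧ x ∉ r) : (w :: l).length ≤ k - 2 := by
  obtain ⟨Y, s, hY1, hY2, hY3, hY4, hY5⟩ :=
    PK.local_cycle hk h01 h12 h02 hc hcl hch hct hr hrl hrh hrt
  by_contra hcon
  push Not at hcon
  have hz0c : z0 ∈ c := List.mem_of_mem_head? (by rw [hch]; rfl)
  have hz0r : z0 ∈ r := List.mem_of_mem_head? (by rw [hrh]; rfl)
  refine h.tail_rule (S := fun v => v ∈ c ∨ v ∈ r) hY3 hY4 hY1 hY2 hY5 (w := w) (l := l) ?_ hl ?_ ?_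
  · have key : ∀ y, (y ∈ c ∨ y ∈ r) → Conn G (fun v => v ∈ c ∨ v ∈ r) y z0 := by
      intro y hy
      rcases hy with hy | hy
      · exact conn_of_path hc (fun v hv => Or.inl hv) hy hz0c
      · exact conn_of_path hr (fun v hv => Or.inr hv) hy hz0r
    intro y hy
    exact (key y hy).trans (key w hw).symm
  · intro v hv hv'
    rcases hv' with h1 | h1
    · exact (hd v hv).1 h1
    · exact (hd v hv).2 h1
  · simp at hcon
    omega

end Pool.Agent.Work.KZ
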