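import Pool.Agent.Work.MP_f0e709_co.Defs

set_option autoImplicit false

namespace Pool.Agent.Work.KZ

variable {V : Type*} {G : SimpleGraph V} {k : ℕ}

theorem isCyc_append {u w : List V} (hu : u ≠ []) (hw : w ≠ []) :
    IsCyc G (u ++ w) ↔ IsP G u ∧ IsP G w ∧ u.Disjoint w ∧
      (∀ x ∈ u.getLast?, ∀ y ∈ w.head?, G.Adj x y) ∧
      (∀ x ∈ w.getLast?, ∀ y ∈ u.head?, G.Adj x y) ∧ 3 ≤ u.length + w.length := by
  unfold IsCyc
  rw [isP_append, List.getLast?_append_of_ne_nil _ hw, List.head?_append_of_ne_nil _ hu,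
    List.length_append]
  tauto

theorem IsCyc.rot {u w : List V} (h : IsCyc G (u ++ w)) : IsCyc G (w ++ u) := by
  by_cases hu : u = []
  · subst hu; simpa using h
  by_cases hw : w = []
  · subst hw; simpa using h
  rw [isCyc_append hu hw] at h
  rw [isCyc_append hw hu]
  obtain ⟨h1, h2, h3, h4, h5, h6⟩ := h
  exact ⟨h2, h1, h3.symm, h5, h4, by omega⟩

theorem IsCyc.reverse {z : List V} (h : IsCyc G z) : IsCyc G z.reverse := by
  obtain ⟨h1, h2, h3⟩ := h
  refine ⟨h1.reverse, ?_, by simpa using h3⟩
  intro x hx y hy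
  rw [List.getLast?_reverse] at hx
  rw [List.head?_reverse] at hy
  exact (h2 y hy x hx).symm

theorem IsCyc.flip {c d : V} {a b : List V} (h : IsCyc G (c :: a ++ d :: b)) :
    IsCyc G (c :: b.reverse ++ d :: a.reverse) := by
  have h1 : IsCyc G ((a ++ d :: b) ++ [c]) := by
    apply IsCyc.rot (u := [c])
    simpa using h
  have h2 := h1.reverse
  simpa using h2

theorem IsCyc.isP {z : List V} (h : IsCyc G z) : IsP G z := h.1

theorem IsCyc.ne_nil {z : List V} (h : IsCyc G z) : z ≠ [] := by
  rintro rfl
  have := h.2.2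
  simp at this

/-- rotating a cycle to start at a given vertex -/
theorem IsCyc.rot_to {z : List V} (h : IsCyc G z) {p : V} (hp : p ∈ z) :
    ∃ z' : List V, IsCyc G (p :: z') ∧ (p :: z').Perm z := by
  obtain ⟨s, t, rfl⟩ := List.append_of_mem hp
  refine ⟨t ++ s, ?_, ?_⟩
  · have := h.rot
    simpa using this
  · have : (p :: (t ++ s)) = (p :: t) ++ s := by simp
    rw [this]
    exact List.perm_append_comm

/-- rotating a cycle to start at `p` and splitting it at `q` -/
theorem IsCyc.split_at {z : List V} (h : IsCyc G z) {p q : V} (hp : p ∈ z) (hq : q ∈ z)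
    (hpq : p ≠ q) :
    ∃ a b : List V, IsCyc G (p :: a ++ q :: b) ∧ (p :: a ++ q :: b).Perm z := by
  obtain ⟨z', h1, h2⟩ := h.rot_to hp
  have hq' : q ∈ z' := by
    have := h2.mem_iff.2 hq
    rcases List.mem_cons.1 this with h3 | h3
    · exact absurd h3.symm hpq
    · exact h3
  obtain ⟨a, b, rfl⟩ := List.append_of_mem hq'
  exact ⟨a, b, by simpa using h1, by simpa using h2⟩

/-- gluing two paths at a common end vertex -/
theorem IsP.glue {l t : List V} {p : V} (h1 : IsP G (l ++ [p])) (h2 : IsP G (p :: t))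
    (h3 : ∀ x ∈ t, x ∉ l) : IsP G (l ++ p :: t) := by
  rw [isP_append]
  rw [isP_concat] at h1
  refine ⟨h1.1, h2, ?_, ?_⟩
  · intro x hx hx'
    rcases List.mem_cons.1 hx' with h | h
    · subst h; exact h1.2.1 hx
    · exact h3 x h hx
  · intro x hx y hy
    have : y = p := by simpa using hy.symm
    subst this
    exact h1.2.2 x hx

/-- the even rule: an even cycle `p :: z'` of length `2r`, `2 ≤ r ≤ k`, has no tail at `p` with `k - r` edges. -/
theorem PK.even_rule (h : PK G k) {r : ℕ} (hr : 2 ≤ r) (hrk : r ≤ k) {p : V} {z' t : List V}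
    (hz : IsCyc G (p :: z')) (hzl : (p :: z').length = 2 * r) (ht : IsP G (p :: t))
    (hd : ∀ x ∈ t, x ∉ z') (htl : t.length = k - r) : False := by
  obtain ⟨a, q, b, hz', hal, hbl⟩ : ∃ a q b, z' = a ++ q :: b ∧ a.length = r - 1 ∧ b.length = r - 1 := by
    have hl : z'.length = 2 * r - 1 := by simp at hzl; omega
    have hlt : r - 1 < z'.length := by omega
    refine ⟨z'.take (r - 1), z'[r - 1], z'.drop (r - 1 + 1), ?_, ?_, ?_⟩
    · rw [List.getElem_cons_drop, List.take_append_drop]
    · rw [List.length_take]; omega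
    · rw [List.length_drop]; omega
  subst hz'
  have hpt : p ∉ t := (isP_cons.1 ht).1
  -- first path
  have hc1 : IsCyc G (q :: b ++ p :: a) := by
    have : IsCyc G ((p :: a) ++ (q :: b)) := by simpa using hz
    exact this.rot
  have e1 : IsP G ((q :: b) ++ [p]) := by
    refine hc1.isP.of_prefix ?_
    exact ⟨a, by simp⟩
  have hc2 : IsCyc G (p :: b.reverse ++ q :: a.reverse) := by
    have : IsCyc G (p :: a ++ q :: b) := by simpa using hz
    exact this.flip
  have hc3 : IsCyc G (q :: a.reverse ++ p :: b.reverse) := hc2.rot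
  have e2 : IsP G ((q :: a.reverse) ++ [p]) := by
    refine hc3.isP.of_prefix ?_
    exact ⟨b.reverse, by simp⟩
  have P1 : IsP G ((q :: b) ++ p :: t) := by
    refine e1.glue ht ?_
    intro x hx hx'
    exact hd x hx (by simp at hx' ⊢; tauto)
  have P2 : IsP G ((q :: a.reverse) ++ p :: t) := by
    refine e2.glue ht ?_
    intro x hx hx'
    exact hd x hx (by simp at hx' ⊢; tauto)
  have heq := h.uniq P1 P2 (by simp [hbl, htl]; omega) (by simp [hal, htl]; omega) (by simp)
    (by rw [List.getLast?_append_of_ne_nil _ (by simp), List.getLast?_append_of_ne_nil _ (by simp)])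
    (by omega)
  have heq2 : b = a.reverse := by
    have := List.append_inj heq (by simp [hal, hbl])
    simpa using this.1
  have hdis : (p :: a ++ q :: b).Nodup := by simpa using hz.isP.1
  have ha : a ≠ [] := by
    rintro rfl
    simp at hal
    omega
  obtain ⟨x, hx⟩ := List.exists_mem_of_ne_nil a ha
  have hxb : x ∈ b := by rw [heq2]; simpa using hx
  rw [List.nodup_append'] at hdis
  exact hdis.2.2 (List.mem_cons_of_mem _ hx) (List.mem_cons_of_mem _ hxb)

/-- the last element of a list with a property -/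
theorem exists_last {α : Type*} (P : α → Prop) (l : List α) (h : ∃ x ∈ l, P x) :
    ∃ l1 p l2, l = l1 ++ p :: l2 ∧ P p ∧ ∀ x ∈ l2, ¬ P x := by
  induction l with
  | nil => simp at h
  | cons a l ih =>
    by_cases h' : ∃ x ∈ l, P x
    · obtain ⟨l1, p, l2, rfl, hp, hl2⟩ := ih h'
      exact ⟨a :: l1, p, l2, rfl, hp, hl2⟩
    · push Not at h'
      obtain ⟨x, hx, hPx⟩ := h
      rcases List.mem_cons.1 hx with rfl | hx
      · exact ⟨[], x, l, rfl, hPx, h'⟩
      · exact absurd hPx (h' x hx)

/-- the first element of a list with a property -/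
theorem exists_first {α : Type*} (P : α → Prop) (l : List α) (h : ∃ x ∈ l, P x) :
    ∃ l1 p l2, l = l1 ++ p :: l2 ∧ P p ∧ ∀ x ∈ l1, ¬ P x := by
  induction l with
  | nil => simp at h
  | cons a l ih =>
    by_cases ha : P a
    · exact ⟨[], a, l, rfl, ha, by simp⟩
    · have h' : ∃ x ∈ l, P x := by
        obtain ⟨x, hx, hPx⟩ := h
        rcases List.mem_cons.1 hx with rfl | hx
        · exact absurd hPx ha
        · exact ⟨x, hx, hPx⟩
      obtain ⟨l1, p, l2, rfl, hp, hl1⟩ := ih h'
      refine ⟨a :: l1, p, l2, rfl, hp, ?_⟩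
      intro x hx
      rcases List.mem_cons.1 hx with rfl | hx
      · exact ha
      · exact hl1 x hx

/-- every even cycle of length at most `2k` meets every `(k+1)`-cycle in at least two vertices -/
theorem PK.even_meets (h : PK G k) {r : ℕ} (hr : 2 ≤ r) (hrk : r ≤ k) {z w : List V}
    (hz : IsCyc G z) (hzl : z.length = 2 * r) (hw : IsCyc G w) (hwl : w.length = k + 1) :
    ∃ a b, a ≠ b ∧ a ∈ z ∧ b ∈ z ∧ a ∈ w ∧ b ∈ w := by
  by_contra hcon
  push Not at hcon
  by_cases hc : ∃ p, p ∈ z ∧ p ∈ w
  · obtain ⟨p, hpz, hpw⟩ := hc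
    obtain ⟨z', hz', hzp⟩ := hz.rot_to hpz
    obtain ⟨w', hw', hwp⟩ := hw.rot_to hpw
    have hw'l : w'.length = k := by
      have := hwp.length_eq
      simp at this; omega
    refine h.even_rule hr hrk (t := w'.take (k - r)) hz' (by rw [hzp.length_eq, hzl]) ?_ ?_ ?_
    · have := hw'.isP.take (k - r + 1)
      simpa using this
    · intro x hx hx'
      have hxw : x ∈ w' := List.mem_of_mem_take hx
      have h1 : x ∈ w := hwp.mem_iff.1 (by simp [hxw])
      have h2 : x ∈ z := hzp.mem_iff.1 (by simp [hx'])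
      have h3 : p ≠ x := by
        rintro rfl
        exact (isP_cons.1 hw'.isP).1 hxw
      exact hcon p x h3 hpz h2 hpw h1
    · rw [List.length_take]; omega
  · push Not at hc
    obtain ⟨u, hu⟩ := List.exists_mem_of_ne_nil z hz.ne_nil
    obtain ⟨v, hv⟩ := List.exists_mem_of_ne_nil w hw.ne_nil
    have huv : u ≠ v := by rintro rfl; exact hc u hu hv
    obtain ⟨l, hl, hll, hlh, hlt⟩ := h.exists huv
    have hul : u ∈ l := List.mem_of_mem_head? (by rw [hlh]; rfl)
    have hvl : v ∈ l := List.mem_of_mem_getLast? (by rw [hlt]; rfl)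
    obtain ⟨l1, p, l2, rfl, hp, hl2⟩ := exists_last (fun x => x ∈ z) l ⟨u, hul, hu⟩
    have hl2n : l2 ≠ [] := by
      rintro rfl
      rw [List.getLast?_append_of_ne_nil _ (by simp)] at hlt
      simp at hlt
      subst hlt
      exact hc _ hp hv
    have hvl2 : v ∈ l2 := by
      have h1 : (l1 ++ p :: l2).getLast? = l2.getLast? := by
        rw [List.getLast?_append_of_ne_nil _ (by simp)]
        rw [show p :: l2 = [p] ++ l2 by rfl, List.getLast?_append_of_ne_nil _ hl2n]
      rw [h1] at hlt
      exact List.mem_of_mem_getLast? (by rw [hlt]; rfl)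
    obtain ⟨m, c, m', rfl, hc', hm⟩ := exists_first (fun x => x ∈ w) l2 ⟨v, hvl2, hv⟩
    obtain ⟨z', hz', hzp⟩ := hz.rot_to hp
    obtain ⟨w', hw', hwp⟩ := hw.rot_to hc'
    have hw'l : w'.length = k := by
      have := hwp.length_eq
      simp at this; omega
    have hpath : IsP G ((p :: m) ++ c :: w') := by
      refine IsP.glue ?_ hw'.isP ?_
      · refine hl.of_infix ?_
        exact ⟨l1, m', by simp⟩
      · intro x hx hx'
        have hxw : x ∈ w := hwp.mem_iff.1 (by simp [hx])
        rcases List.mem_cons.1 hx' with rfl | hx'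
        · exact hc _ hp hxw
        · exact hm x hx' hxw
    have hnz : ∀ x ∈ m ++ c :: w', x ∉ z := by
      intro x hx hxz
      rcases List.mem_append.1 hx with hx | hx
      · exact hl2 x (by simp [hx]) hxz
      · exact hc x hxz (hwp.mem_iff.1 hx)
    refine h.even_rule hr hrk (t := (m ++ c :: w').take (k - r)) hz' (by rw [hzp.length_eq, hzl]) ?_ ?_ ?_
    · have := hpath.take (k - r + 1)
      simpa using this
    · intro x hx hx'
      exact hnz x (List.mem_of_mem_take hx) (hzp.mem_iff.1 (by simp [hx']))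
    · rw [List.length_take]
      simp
      omega

/-- the ear rule: a `(k+1)`-cycle `c :: a ++ d :: b` has no ear from `c` to `d` with inner vertices `e` with
`|e| ≡ |a|` mod 2, `|a| ≤ |e|` and `|a| + |e| + 2 ≤ 2k`. -/
theorem PK.ear_rule (h : PK G k) {c d : V} {a b e : List V} (hz : IsCyc G (c :: a ++ d :: b))
    (hzl : (c :: a ++ d :: b).length = k + 1) (he : IsP G (c :: e ++ [d]))
    (hdis : ∀ x ∈ e, x ∉ (c :: a ++ d :: b)) {r : ℕ} (hpar : a.length + e.length + 2 = 2 * r)
    (hae : a.length ≤ e.length) (hrk : r ≤ k) (hne : e ≠ []) : False := by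
  have hepos : 1 ≤ e.length := List.length_pos_iff.2 hne
  -- the even cycle
  have hcyc : IsCyc G (c :: (a ++ d :: e.reverse)) := by
    have h0 : IsCyc G ((c :: a ++ [d]) ++ e.reverse) := by
      have hern : e.reverse ≠ [] := by simpa using hne
      rw [isCyc_append (by simp) hern]
      refine ⟨?_, ?_, ?_, ?_, ?_, ?_⟩
      · exact hz.isP.of_prefix ⟨b, by simp⟩
      · exact (he.of_infix ⟨[c], [d], by simp⟩ : IsP G e).reverse
      · intro x hx hx'
        exact hdis x (by simpa using hx') (by simp at hx ⊢; tauto)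
      · intro x hx y hy
        have hx1 : x = d := by
          rw [List.getLast?_append_of_ne_nil _ (by simp)] at hx
          simpa using hx.symm
        subst hx1
        rw [List.head?_reverse] at hy
        have := (isP_append.1 he).2.2.2 y (by
          rw [show c :: e = [c] ++ e by rfl, List.getLast?_append_of_ne_nil _ hne]; exact hy) x (by simp)
        exact this.symm
      · intro x hx y hy
        rw [List.getLast?_reverse] at hx
        have hy1 : y = c := by simpa using hy.symm
        subst hy1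
        have h1 : IsP G (y :: (e ++ [d])) := by simpa using he
        rw [isP_cons] at h1
        exact (h1.2.2 x (by rw [List.head?_append_of_ne_nil _ hne]; exact hx)).symm
      · simp; omega
    simpa using h0
  have hflip := hz.flip
  -- the tail from c along b reversed
  refine h.even_rule (r := r) (by omega) hrk (t := b.reverse.take (k - r)) hcyc ?_ ?_ ?_ ?_
  · simp; omega
  · have : IsP G (c :: b.reverse) := hflip.isP.of_prefix ⟨d :: a.reverse, by simp⟩
    have := this.take (k - r + 1)
    simpa using this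
  · intro x hx hx'
    have hxb : x ∈ b := by simpa using List.mem_of_mem_take hx
    have hnd := hz.isP.1
    rw [List.nodup_append'] at hnd
    simp only [List.mem_append, List.mem_cons, List.mem_reverse] at hx'
    rcases hx' with h1 | h1 | h1
    · exact hnd.2.2 (List.mem_cons_of_mem _ h1) (List.mem_cons_of_mem _ hxb)
    · subst h1
      exact (List.nodup_cons.1 hnd.2.1).1 hxb
    · exact hdis x h1 (by simp [hxb])
  · rw [List.length_take, List.length_reverse]
    simp at hzl
    omega

/-- the list of a `k`-path between the two ends of an edge is a cycle -/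
theorem isCyc_of_adj {l : List V} (hl : IsP G l) (hll : 3 ≤ l.length)
    (h : ∀ x ∈ l.getLast?, ∀ y ∈ l.head?, G.Adj x y) : IsCyc G l := ⟨hl, h, hll⟩

/-- existence of an ear with at most `k` edges on a `(k+1)`-cycle: either it has inner vertices, or it is a chord -/
theorem PK.exists_ear (h : PK G k) (hk : 3 ≤ k) {z : List V} (hz : IsCyc G z)
    (hzl : z.length = k + 1) :
    ∃ (c d : V) (a b e : List V), IsCyc G (c :: a ++ d :: b) ∧ (c :: a ++ d :: b).Perm z ∧
      IsP G (c :: e ++ [d]) ∧ (∀ x ∈ e, x ∉ z) ∧ e.length ≤ k - 1 ∧ (e = [] → a ≠ [] ∧ b ≠ []) := by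
  -- three consecutive vertices
  obtain ⟨x, y, w, z', rfl⟩ : ∃ x y w z', z = x :: y :: w :: z' := by
    rcases z with _ | ⟨x, _ | ⟨y, _ | ⟨w, z'⟩⟩⟩
    · simp at hzl
    · simp at hzl; omega
    · simp at hzl; omega
    · exact ⟨x, y, w, z', rfl⟩
  have hnd := hz.isP.1
  have hxw : x ≠ w := by
    rintro rfl
    simp at hnd
  obtain ⟨l, hl, hll, hlh, hlt⟩ := h.exists hxw
  by_cases hout : ∃ u ∈ l, u ∉ (x :: y :: w :: z')
  · -- an ear with inner vertices
    obtain ⟨l1, p, l2, rfl, hp, hl1⟩ := exists_first (fun u => u ∉ (x :: y :: w :: z')) l hout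
    have hl1n : l1 ≠ [] := by
      rintro rfl
      simp at hlh
      subst hlh
      simp at hp
    -- last vertex of l1 is in z
    obtain ⟨l1', c, rfl⟩ : ∃ l1' c, l1 = l1' ++ [c] := by
      rcases List.eq_nil_or_concat l1 with h0 | ⟨l1', c, h0⟩
      · exact absurd h0 hl1n
      · exact ⟨l1', c, by simpa using h0⟩
    have hcz : c ∈ (x :: y :: w :: z') := by
      have := hl1 c (by simp)
      push Not at this
      exact this
    have hw2 : w ∈ l2 := by
      have h1 : w ∈ (l1' ++ [c]) ++ p :: l2 := List.mem_of_mem_getLast? (by rw [hlt]; rfl)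
      have h2 : (p :: l2).getLast? = some w := by
        rw [← hlt, List.getLast?_append_of_ne_nil _ (by simp)]
      have h3 : w ∈ p :: l2 := List.mem_of_mem_getLast? (by rw [h2]; rfl)
      rcases List.mem_cons.1 h3 with h4 | h4
      · subst h4; simp at hp
      · exact h4
    obtain ⟨m, d, m', rfl, hd, hm⟩ := exists_first (fun u => u ∈ (x :: y :: w :: z')) l2
      ⟨w, hw2, by simp⟩
    have hear : IsP G (c :: (p :: m) ++ [d]) := hl.of_infix ⟨l1', m', by simp⟩
    have hcd : c ≠ d := by
      rintro rfl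
      have := hear.1
      simp at this
    obtain ⟨a, b, hab, hperm⟩ := hz.split_at hcz hd hcd
    refine ⟨c, d, a, b, p :: m, hab, hperm, hear, ?_, ?_, ?_⟩
    · intro u hu
      rcases List.mem_cons.1 hu with rfl | hu
      · exact hp
      · exact hm u hu
    · simp at hll ⊢; omega
    · intro h0; simp at h0
  · -- all vertices of `l` lie on the cycle; find a chord at `y`
    push Not at hout
    have hperm : l.Perm (x :: y :: w :: z') := by
      apply List.Subperm.perm_of_length_le
      · exact (hl.1.subperm (fun u hu => hout u hu))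
      · rw [hll, hzl]
    have hyl : y ∈ l := hperm.mem_iff.2 (by simp)
    obtain ⟨l1, l2, rfl⟩ := List.append_of_mem hyl
    have hxy : x ≠ y := by rintro rfl; simp at hnd
    have hyw : y ≠ w := by rintro rfl; simp at hnd
    have hl1n : l1 ≠ [] := by
      rintro rfl
      simp at hlh
      exact hxy hlh.symm
    have hl2n : l2 ≠ [] := by
      rintro rfl
      rw [List.getLast?_append_of_ne_nil _ (by simp)] at hlt
      simp at hlt
      exact hyw hlt
    obtain ⟨l1', c, rfl⟩ : ∃ l1' c, l1 = l1' ++ [c] := by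
      rcases List.eq_nil_or_concat l1 with h0 | ⟨l1', c, h0⟩
      · exact absurd h0 hl1n
      · exact ⟨l1', c, by simpa using h0⟩
    obtain ⟨d, l2', rfl⟩ : ∃ d l2', l2 = d :: l2' := by
      cases l2 with
      | nil => exact absurd rfl hl2n
      | cons d l2' => exact ⟨d, l2', rfl⟩
    have hlastw : (d :: l2').getLast? = some w := by
      rw [← hlt]
      rw [show (l1' ++ [c]) ++ y :: d :: l2' = ((l1' ++ [c]) ++ [y]) ++ (d :: l2') by simp,
        List.getLast?_append_of_ne_nil _ (by simp)]
    have hheadx : (l1' ++ [c]).head? = some x := by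
      rw [← hlh]
      exact (List.head?_append_of_ne_nil (l1' ++ [c]) (by simp)).symm
    have hcl : c ∈ (x :: y :: w :: z') := hperm.mem_iff.1 (by simp)
    have hdl : d ∈ (x :: y :: w :: z') := hperm.mem_iff.1 (by simp)
    have hlnd := hl.1
    have hadjcy : G.Adj c y := (isP_append.1 hl).2.2.2 c (by simp) y (by simp)
    have hadjyd : G.Adj y d := by
      have h1 : IsP G ([y] ++ (d :: l2')) := hl.of_suffix ⟨l1' ++ [c], by simp⟩
      exact (isP_append.1 h1).2.2.2 y (by simp) d (by simp)
    have hxl1 : x ∈ (l1' ++ [c]) := List.mem_of_mem_head? (by rw [hheadx]; rfl)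
    have hwl2 : w ∈ d :: l2' := List.mem_of_mem_getLast? (by rw [hlastw]; rfl)
    have hcd' : (l1' ++ [c]).Disjoint (y :: d :: l2') := (isP_append.1 hl).2.2.1
    have hcw : c ≠ w := by
      rintro rfl
      exact hcd' (a := c) (by simp) (List.mem_cons_of_mem _ hwl2)
    have hdx : d ≠ x := by
      rintro rfl
      exact hcd' hxl1 (by simp)
    have hcy : c ≠ y := hadjcy.ne
    have hdy : d ≠ y := hadjyd.ne'
    -- a chord from y to a vertex not in {x, w}
    have key : ∀ g : V, g ∈ (x :: y :: w :: z') → G.Adj y g → g ≠ x → g ≠ w → 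
        ∃ (c d : V) (a b e : List V), IsCyc G (c :: a ++ d :: b) ∧ (c :: a ++ d :: b).Perm (x :: y :: w :: z') ∧
          IsP G (c :: e ++ [d]) ∧ (∀ u ∈ e, u ∉ (x :: y :: w :: z')) ∧ e.length ≤ k - 1 ∧ (e = [] → a ≠ [] ∧ b ≠ []) := by
      intro g hg hyg hgx hgw
      have hgy : g ≠ y := hyg.ne'
      have hgz' : g ∈ z' := by
        simp only [List.mem_cons] at hg
        tauto
      obtain ⟨s, t, rfl⟩ := List.append_of_mem hgz'
      refine ⟨y, g, w :: s, t ++ [x], [], ?_, ?_, ?_, ?_, ?_, ?_⟩
      · have : IsCyc G ([x] ++ (y :: w :: (s ++ g :: t))) := by simpa using hz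
        have := this.rot
        simpa using this
      · have : ([x] ++ (y :: w :: (s ++ g :: t))).Perm ((y :: w :: (s ++ g :: t)) ++ [x]) :=
          List.perm_append_comm
        simpa using this.symm
      · refine (isP_append (l := [y]) (m := [g])).2 ⟨IsP.singleton y, IsP.singleton g, ?_, ?_⟩
        · simpa using hgy
        · intro u hu v hv
          simp at hu hv
          subst hu; subst hv
          exact hyg
      · simp
      · simp
      · intro _
        exact ⟨by simp, by simp⟩
    by_cases hcx : c = x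
    · by_cases hdw : d = w
      · exfalso
        subst hcx; subst hdw
        have h1 : l1' = [] := by
          cases l1' with
          | nil => rfl
          | cons u l1'' =>
            simp at hheadx
            subst hheadx
            simp at hlnd
        have h2 : l2' = [] := by
          rcases List.eq_nil_or_concat l2' with h0 | ⟨l2'', u, h0⟩
          · exact h0
          · exfalso
            rw [h0] at hlastw
            have hu : u = d := by
              have : (d :: l2''.concat u) = (d :: l2'') ++ [u] := by simp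
              rw [this, List.getLast?_append_of_ne_nil _ (by simp)] at hlastw
              simpa using hlastw
            subst hu
            rw [h0] at hlnd
            have h3 := (List.nodup_append'.1 hlnd).2.1
            simp at h3
        subst h1; subst h2
        simp at hll
        omega
      · exact key d hdl hadjyd hdx hdw
    · exact key c hcl hadjcy.symm hcx hcw

/-! ### two disjoint links between disjoint cycles -/

theorem IsCyc.length_flip {c d : V} {a b : List V} :
    (c :: b.reverse ++ d :: a.reverse).length = (c :: a ++ d :: b).length := by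
  simp; omega

theorem IsCyc.mem_flip {c d x : V} {a b : List V} :
    x ∈ (c :: b.reverse ++ d :: a.reverse) ↔ x ∈ (c :: a ++ d :: b) := by
  simp; tauto

/-- one half of the two-link rule, the arc of the first cycle being not longer -/
theorem PK.link2_half (h : PK G k) {c1 c2 d1 d2 : V} {a b a' b' m1 m3 : List V}
    (hz : IsCyc G (c1 :: a ++ c2 :: b)) (hzl : (c1 :: a ++ c2 :: b).length = k + 1)
    (hw : IsCyc G (d1 :: a' ++ d2 :: b'))
    (q1 : IsP G (c1 :: m1 ++ [d1])) (q2 : IsP G (c2 :: m3 ++ [d2]))
    (hzw : ∀ x ∈ (c1 :: a ++ c2 :: b), x ∉ (d1 :: a' ++ d2 :: b'))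
    (hm1z : ∀ x ∈ m1, x ∉ (c1 :: a ++ c2 :: b)) (hm1w : ∀ x ∈ m1, x ∉ (d1 :: a' ++ d2 :: b'))
    (hm3z : ∀ x ∈ m3, x ∉ (c1 :: a ++ c2 :: b)) (hm3w : ∀ x ∈ m3, x ∉ (d1 :: a' ++ d2 :: b'))
    (hm : ∀ x ∈ m1, x ∉ m3) (hq : m1.length + m3.length + 2 ≤ k - 1)
    {r : ℕ} (hpar : m1.length + m3.length + a.length + a'.length = 2 * r)
    (hsum : a.length + a'.length ≤ k - 1) (hle : a.length ≤ a'.length) : False := by
  have hkey : IsP G ((c1 :: m1) ++ (d1 :: a' ++ (d2 :: (m3.reverse ++ [c2])))) := by
    have e1 : IsP G ((d1 :: a') ++ d2 :: (m3.reverse ++ [c2])) := by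
      refine IsP.glue ?_ ?_ ?_
      · exact hw.isP.of_prefix ⟨b', by simp⟩
      · have := q2.reverse
        simpa using this
      · intro x hx hx'
        have hx'' : x ∈ (d1 :: a' ++ d2 :: b') := by simp at hx' ⊢; tauto
        rcases List.mem_append.1 hx with h1 | h1
        · exact hm3w x (by simpa using h1) hx''
        · have : x = c2 := by simpa using h1
          subst this
          exact hzw x (by simp) hx''
    have e2 : IsP G ((c1 :: m1) ++ d1 :: (a' ++ (d2 :: (m3.reverse ++ [c2])))) := by
      refine IsP.glue (by simpa using q1) (by simpa using e1) ?_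
      intro x hx hx'
      rcases List.mem_cons.1 hx' with h0 | h0
      · subst h0
        simp only [List.mem_append, List.mem_cons, List.mem_reverse, or_false,
          List.not_mem_nil] at hx
        rcases hx with h1 | h1 | h1 | h1
        · exact hzw x (by simp) (by simp [h1])
        · subst h1; exact hzw x (by simp) (by simp)
        · exact hm3z x h1 (by simp)
        · subst h1
          have := hz.isP.1
          simp at this
      · simp only [List.mem_append, List.mem_cons, List.mem_reverse, or_false,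
          List.not_mem_nil] at hx
        rcases hx with h1 | h1 | h1 | h1
        · exact hm1w x h0 (by simp [h1])
        · subst h1; exact hm1w x h0 (by simp)
        · exact hm x h0 h1
        · subst h1; exact hm1z x h0 (by simp)
    simpa using e2
  refine h.ear_rule (e := m1 ++ d1 :: a' ++ d2 :: m3.reverse) (r := r + 2) hz hzl ?_ ?_ ?_ ?_ ?_ ?_
  · simpa using hkey
  · intro x hx
    simp only [List.mem_append, List.mem_cons, List.mem_reverse] at hx
    rcases hx with (h1 | h1 | h1) | h1 | h1
    · exact hm1z x h1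
    · subst h1; intro h2; exact hzw x h2 (by simp)
    · intro h2; exact hzw x h2 (by simp [h1])
    · subst h1; intro h2; exact hzw x h2 (by simp)
    · exact hm3z x h1
  · simp; omega
  · simp; omega
  · omega
  · simp

/-- two-link rule with a parity condition -/
theorem PK.link2_par (h : PK G k) {c1 c2 d1 d2 : V} {a b a' b' m1 m3 : List V}
    (hz : IsCyc G (c1 :: a ++ c2 :: b)) (hzl : (c1 :: a ++ c2 :: b).length = k + 1)
    (hw : IsCyc G (d1 :: a' ++ d2 :: b')) (hwl : (d1 :: a' ++ d2 :: b').length = k + 1)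
    (q1 : IsP G (c1 :: m1 ++ [d1])) (q2 : IsP G (c2 :: m3 ++ [d2]))
    (hzw : ∀ x ∈ (c1 :: a ++ c2 :: b), x ∉ (d1 :: a' ++ d2 :: b'))
    (hm1z : ∀ x ∈ m1, x ∉ (c1 :: a ++ c2 :: b)) (hm1w : ∀ x ∈ m1, x ∉ (d1 :: a' ++ d2 :: b'))
    (hm3z : ∀ x ∈ m3, x ∉ (c1 :: a ++ c2 :: b)) (hm3w : ∀ x ∈ m3, x ∉ (d1 :: a' ++ d2 :: b'))
    (hm : ∀ x ∈ m1, x ∉ m3) (hq : m1.length + m3.length + 2 ≤ k - 1)
    {r : ℕ} (hpar : m1.length + m3.length + a.length + a'.length = 2 * r)
    (hsum : a.length + a'.length ≤ k - 1) : False := by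
  rcases le_total a.length a'.length with hle | hle
  · exact h.link2_half hz hzl hw q1 q2 hzw hm1z hm1w hm3z hm3w hm hq hpar hsum hle
  · refine h.link2_half (m1 := m1.reverse) (m3 := m3.reverse) (r := r) hw hwl hz ?_ ?_ ?_ ?_ ?_ ?_ ?_ ?_ ?_ ?_ ?_ hle
    · simpa using q1.reverse
    · simpa using q2.reverse
    · intro x hx hx'; exact hzw x hx' hx
    · intro x hx; exact hm1w x (by simpa using hx)
    · intro x hx; exact hm1z x (by simpa using hx)
    · intro x hx; exact hm3w x (by simpa using hx)
    · intro x hx; exact hm3z x (by simpa using hx)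
    · intro x hx hx'; exact hm x (by simpa using hx) (by simpa using hx')
    · simpa using hq
    · simp; omega
    · omega

/-- the two-link rule: two disjoint `(k+1)`-cycles, `k` even, are not joined by two disjoint paths of total
length at most `k - 1` -/
theorem PK.link2 (h : PK G k) (hk : Even k) (hk3 : 3 ≤ k) {c1 c2 d1 d2 : V} {a b a' b' m1 m3 : List V}
    (hz : IsCyc G (c1 :: a ++ c2 :: b)) (hzl : (c1 :: a ++ c2 :: b).length = k + 1)
    (hw : IsCyc G (d1 :: a' ++ d2 :: b')) (hwl : (d1 :: a' ++ d2 :: b').length = k + 1)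
    (q1 : IsP G (c1 :: m1 ++ [d1])) (q2 : IsP G (c2 :: m3 ++ [d2]))
    (hzw : ∀ x ∈ (c1 :: a ++ c2 :: b), x ∉ (d1 :: a' ++ d2 :: b'))
    (hm1z : ∀ x ∈ m1, x ∉ (c1 :: a ++ c2 :: b)) (hm1w : ∀ x ∈ m1, x ∉ (d1 :: a' ++ d2 :: b'))
    (hm3z : ∀ x ∈ m3, x ∉ (c1 :: a ++ c2 :: b)) (hm3w : ∀ x ∈ m3, x ∉ (d1 :: a' ++ d2 :: b'))
    (hm : ∀ x ∈ m1, x ∉ m3) (hq : m1.length + m3.length + 2 ≤ k - 1) : False := by
  have hzl' : a.length + b.length = k - 1 := by simp at hzl; omega
  have hwl' : a'.length + b'.length = k - 1 := by simp at hwl; omega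
  obtain ⟨κ, hκ⟩ := hk
  have hz2 := hz.flip
  have hw2 := hw.flip
  have hz2l : (c1 :: b.reverse ++ c2 :: a.reverse).length = k + 1 := by
    rw [IsCyc.length_flip]; exact hzl
  have hw2l : (d1 :: b'.reverse ++ d2 :: a'.reverse).length = k + 1 := by
    rw [IsCyc.length_flip]; exact hwl
  -- four choices
  have choice : (∃ r, m1.length + m3.length + a.length + a'.length = 2 * r ∧ a.length + a'.length ≤ k - 1) ∨
      (∃ r, m1.length + m3.length + b.length + b'.length = 2 * r ∧ b.length + b'.length ≤ k - 1) ∨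
      (∃ r, m1.length + m3.length + a.length + b'.length = 2 * r ∧ a.length + b'.length ≤ k - 1) ∨
      (∃ r, m1.length + m3.length + b.length + a'.length = 2 * r ∧ b.length + a'.length ≤ k - 1) := by
    rcases Nat.even_or_odd' (m1.length + m3.length + a.length + a'.length) with ⟨r, hr | hr⟩
    · by_cases hs : a.length + a'.length ≤ k - 1
      · exact Or.inl ⟨r, hr, hs⟩
      · refine Or.inr (Or.inl ⟨m1.length + m3.length + (k - 1) - r, ?_, ?_⟩)
        · omega
        · omega
    · by_cases hs : a.length + b'.length ≤ k - 1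
      · refine Or.inr (Or.inr (Or.inl ⟨r + κ - a'.length, ?_, hs⟩))
        omega
      · refine Or.inr (Or.inr (Or.inr ⟨r + κ - a.length, ?_, ?_⟩))
        · omega
        · omega
  rcases choice with ⟨r, hr, hs⟩ | ⟨r, hr, hs⟩ | ⟨r, hr, hs⟩ | ⟨r, hr, hs⟩
  · exact h.link2_par hz hzl hw hwl q1 q2 hzw hm1z hm1w hm3z hm3w hm hq hr hs
  · refine h.link2_par (r := r) hz2 hz2l hw2 hw2l q1 q2 ?_ ?_ ?_ ?_ ?_ hm hq (by simpa using hr) (by simpa using hs)
    · intro x hx hx'
      exact hzw x (IsCyc.mem_flip.1 hx) (IsCyc.mem_flip.1 hx')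
    · intro x hx hx'; exact hm1z x hx (IsCyc.mem_flip.1 hx')
    · intro x hx hx'; exact hm1w x hx (IsCyc.mem_flip.1 hx')
    · intro x hx hx'; exact hm3z x hx (IsCyc.mem_flip.1 hx')
    · intro x hx hx'; exact hm3w x hx (IsCyc.mem_flip.1 hx')
  · refine h.link2_par (r := r) hz hzl hw2 hw2l q1 q2 ?_ ?_ ?_ ?_ ?_ hm hq (by simpa using hr) (by simpa using hs)
    · intro x hx hx'
      exact hzw x hx (IsCyc.mem_flip.1 hx')
    · intro x hx hx'; exact hm1z x hx hx'
    · intro x hx hx'; exact hm1w x hx (IsCyc.mem_flip.1 hx')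
    · intro x hx hx'; exact hm3z x hx hx'
    · intro x hx hx'; exact hm3w x hx (IsCyc.mem_flip.1 hx')
  · refine h.link2_par (r := r) hz2 hz2l hw hwl q1 q2 ?_ ?_ ?_ ?_ ?_ hm hq (by simpa using hr) (by simpa using hs)
    · intro x hx hx'
      exact hzw x (IsCyc.mem_flip.1 hx) hx'
    · intro x hx hx'; exact hm1z x hx (IsCyc.mem_flip.1 hx')
    · intro x hx hx'; exact hm1w x hx hx'
    · intro x hx hx'; exact hm3z x hx (IsCyc.mem_flip.1 hx')
    · intro x hx hx'; exact hm3w x hx hx'

/-! ### one link between cycles sharing exactly one vertex -/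

theorem PK.link1_half (h : PK G k) {c c2 d2 : V} {a b a' b' m : List V}
    (hz : IsCyc G (c :: a ++ c2 :: b)) (hzl : (c :: a ++ c2 :: b).length = k + 1)
    (hw : IsCyc G (c :: a' ++ d2 :: b')) (q2 : IsP G (c2 :: m ++ [d2]))
    (hzw : ∀ x ∈ (c :: a ++ c2 :: b), x ∈ (c :: a' ++ d2 :: b') → x = c)
    (hmz : ∀ x ∈ m, x ∉ (c :: a ++ c2 :: b)) (hmw : ∀ x ∈ m, x ∉ (c :: a' ++ d2 :: b'))
    (hq : m.length + 1 ≤ k - 1)
    {r : ℕ} (hpar : m.length + 1 + a.length + a'.length = 2 * r)
    (hsum : a.length + a'.length ≤ k - 1) (hle : a.length ≤ a'.length) : False := by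
  have hc2 : c2 ∉ (c :: a' ++ d2 :: b') := by
    intro h1
    have h2 := hzw c2 (by simp) h1
    have := hz.isP.1
    rw [h2] at this
    simp at this
  have hd2 : d2 ∉ (c :: a ++ c2 :: b) := by
    intro h1
    have h2 := hzw d2 h1 (by simp)
    have := hw.isP.1
    rw [h2] at this
    simp at this
  have hkey : IsP G ((c :: a') ++ d2 :: (m.reverse ++ [c2])) := by
    refine IsP.glue ?_ ?_ ?_
    · exact hw.isP.of_prefix ⟨b', by simp⟩
    · have := q2.reverse
      simpa using this
    · intro x hx hx'
      have hx'' : x ∈ (c :: a' ++ d2 :: b') := by simp at hx' ⊢; tauto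
      rcases List.mem_append.1 hx with h1 | h1
      · exact hmw x (by simpa using h1) hx''
      · have : x = c2 := by simpa using h1
        subst this
        exact hc2 hx''
  refine h.ear_rule (e := a' ++ d2 :: m.reverse) (r := r + 1) hz hzl ?_ ?_ ?_ ?_ ?_ ?_
  · simpa using hkey
  · intro x hx
    have hcw : c ∉ a' := by
      have h1 : IsP G (c :: (a' ++ d2 :: b')) := by simpa using hw.isP
      have := (isP_cons.1 h1).1
      simp at this
      tauto
    simp only [List.mem_append, List.mem_cons, List.mem_reverse] at hx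
    rcases hx with h1 | h1 | h1
    · intro h2
      have := hzw x h2 (by simp [h1])
      subst this
      exact hcw h1
    · subst h1; exact hd2
    · exact hmz x h1
  · simp; omega
  · simp; omega
  · omega
  · simp

theorem PK.link1_par (h : PK G k) {c c2 d2 : V} {a b a' b' m : List V}
    (hz : IsCyc G (c :: a ++ c2 :: b)) (hzl : (c :: a ++ c2 :: b).length = k + 1)
    (hw : IsCyc G (c :: a' ++ d2 :: b')) (hwl : (c :: a' ++ d2 :: b').length = k + 1)
    (q2 : IsP G (c2 :: m ++ [d2]))
    (hzw : ∀ x ∈ (c :: a ++ c2 :: b), x ∈ (c :: a' ++ d2 :: b') → x = c)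
    (hmz : ∀ x ∈ m, x ∉ (c :: a ++ c2 :: b)) (hmw : ∀ x ∈ m, x ∉ (c :: a' ++ d2 :: b'))
    (hq : m.length + 1 ≤ k - 1)
    {r : ℕ} (hpar : m.length + 1 + a.length + a'.length = 2 * r)
    (hsum : a.length + a'.length ≤ k - 1) : False := by
  rcases le_total a.length a'.length with hle | hle
  · exact h.link1_half hz hzl hw q2 hzw hmz hmw hq hpar hsum hle
  · refine h.link1_half (m := m.reverse) (r := r) hw hwl hz ?_ ?_ ?_ ?_ ?_ ?_ ?_ hle
    · simpa using q2.reverse
    · intro x hx hx'; exact hzw x hx' hx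
    · intro x hx; exact hmw x (by simpa using hx)
    · intro x hx; exact hmz x (by simpa using hx)
    · simpa using hq
    · simp; omega
    · omega

/-- the one-link rule: two `(k+1)`-cycles, `k` even, sharing exactly the vertex `c` are not joined by a
further path of length at most `k - 1` avoiding `c` -/
theorem PK.link1 (h : PK G k) (hk : Even k) (hk3 : 3 ≤ k) {c c2 d2 : V} {a b a' b' m : List V}
    (hz : IsCyc G (c :: a ++ c2 :: b)) (hzl : (c :: a ++ c2 :: b).length = k + 1)
    (hw : IsCyc G (c :: a' ++ d2 :: b')) (hwl : (c :: a' ++ d2 :: b').length = k + 1)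
    (q2 : IsP G (c2 :: m ++ [d2]))
    (hzw : ∀ x ∈ (c :: a ++ c2 :: b), x ∈ (c :: a' ++ d2 :: b') → x = c)
    (hmz : ∀ x ∈ m, x ∉ (c :: a ++ c2 :: b)) (hmw : ∀ x ∈ m, x ∉ (c :: a' ++ d2 :: b'))
    (hq : m.length + 1 ≤ k - 1) : False := by
  have hzl' : a.length + b.length = k - 1 := by simp at hzl; omega
  have hwl' : a'.length + b'.length = k - 1 := by simp at hwl; omega
  obtain ⟨κ, hκ⟩ := hk
  have hz2 := hz.flip
  have hw2 := hw.flip
  have hz2l : (c :: b.reverse ++ c2 :: a.reverse).length = k + 1 := by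
    rw [IsCyc.length_flip]; exact hzl
  have hw2l : (c :: b'.reverse ++ d2 :: a'.reverse).length = k + 1 := by
    rw [IsCyc.length_flip]; exact hwl
  have choice : (∃ r, m.length + 1 + a.length + a'.length = 2 * r ∧ a.length + a'.length ≤ k - 1) ∨
      (∃ r, m.length + 1 + b.length + b'.length = 2 * r ∧ b.length + b'.length ≤ k - 1) ∨
      (∃ r, m.length + 1 + a.length + b'.length = 2 * r ∧ a.length + b'.length ≤ k - 1) ∨
      (∃ r, m.length + 1 + b.length + a'.length = 2 * r ∧ b.length + a'.length ≤ k - 1) := by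
    rcases Nat.even_or_odd' (m.length + 1 + a.length + a'.length) with ⟨r, hr | hr⟩
    · by_cases hs : a.length + a'.length ≤ k - 1
      · exact Or.inl ⟨r, hr, hs⟩
      · refine Or.inr (Or.inl ⟨m.length + 1 + (k - 1) - r, ?_, ?_⟩)
        · omega
        · omega
    · by_cases hs : a.length + b'.length ≤ k - 1
      · refine Or.inr (Or.inr (Or.inl ⟨r + κ - a'.length, ?_, hs⟩))
        omega
      · refine Or.inr (Or.inr (Or.inr ⟨r + κ - a.length, ?_, ?_⟩))
        · omega
        · omega
  rcases choice with ⟨r, hr, hs⟩ | ⟨r, hr, hs⟩ | ⟨r, hr, hs⟩ | ⟨r, hr, hs⟩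
  · exact h.link1_par hz hzl hw hwl q2 hzw hmz hmw hq hr hs
  · refine h.link1_par (r := r) hz2 hz2l hw2 hw2l q2 ?_ ?_ ?_ hq (by simpa using hr) (by simpa using hs)
    · intro x hx hx'
      exact hzw x (IsCyc.mem_flip.1 hx) (IsCyc.mem_flip.1 hx')
    · intro x hx hx'; exact hmz x hx (IsCyc.mem_flip.1 hx')
    · intro x hx hx'; exact hmw x hx (IsCyc.mem_flip.1 hx')
  · refine h.link1_par (r := r) hz hzl hw2 hw2l q2 ?_ ?_ ?_ hq (by simpa using hr) (by simpa using hs)
    · intro x hx hx'
      exact hzw x hx (IsCyc.mem_flip.1 hx')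
    · intro x hx hx'; exact hmz x hx hx'
    · intro x hx hx'; exact hmw x hx (IsCyc.mem_flip.1 hx')
  · refine h.link1_par (r := r) hz2 hz2l hw hwl q2 ?_ ?_ ?_ hq (by simpa using hr) (by simpa using hs)
    · intro x hx hx'
      exact hzw x (IsCyc.mem_flip.1 hx) hx'
    · intro x hx hx'; exact hmz x hx (IsCyc.mem_flip.1 hx')
    · intro x hx hx'; exact hmw x hx hx'

/-- the even cycle formed by an ear and the arc of the right parity (parity chosen) -/
theorem IsCyc.ear_cycle {c d : V} {a b e : List V} (hz : IsCyc G (c :: a ++ d :: b))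
    (he : IsP G (c :: e ++ [d])) (hdis : ∀ x ∈ e, x ∉ (c :: a ++ d :: b))
    (hl : 1 ≤ a.length + e.length) : IsCyc G (c :: (a ++ d :: e.reverse)) := by
  by_cases hne : e = []
  · subst hne
    have h1 : IsP G (c :: a ++ [d]) := hz.isP.of_prefix ⟨b, by simp⟩
    refine ⟨by simpa using h1, ?_, ?_⟩
    · intro x hx y hy
      have hx1 : x = d := by
        rw [show c :: (a ++ d :: [].reverse) = (c :: a) ++ [d] by simp,
          List.getLast?_append_of_ne_nil _ (by simp)] at hx
        simpa using hx.symm
      have hy1 : y = c := by simpa using hy.symm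
      subst hx1; subst hy1
      exact ((isP_append.1 he).2.2.2 y (by simp) x (by simp)).symm
    · simp at hl ⊢
      omega
  · have h0 : IsCyc G ((c :: a ++ [d]) ++ e.reverse) := by
      have hern : e.reverse ≠ [] := by simpa using hne
      rw [isCyc_append (by simp) hern]
      refine ⟨?_, ?_, ?_, ?_, ?_, ?_⟩
      · exact hz.isP.of_prefix ⟨b, by simp⟩
      · exact (he.of_infix ⟨[c], [d], by simp⟩ : IsP G e).reverse
      · intro x hx hx'
        exact hdis x (by simpa using hx') (by simp at hx ⊢; tauto)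
      · intro x hx y hy
        have hx1 : x = d := by
          rw [List.getLast?_append_of_ne_nil _ (by simp)] at hx
          simpa using hx.symm
        subst hx1
        rw [List.head?_reverse] at hy
        have := (isP_append.1 he).2.2.2 y (by
          rw [show c :: e = [c] ++ e by rfl, List.getLast?_append_of_ne_nil _ hne]; exact hy) x (by simp)
        exact this.symm
      · intro x hx y hy
        rw [List.getLast?_reverse] at hx
        have hy1 : y = c := by simpa using hy.symm
        subst hy1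
        have h1 : IsP G (y :: (e ++ [d])) := by simpa using he
        rw [isP_cons] at h1
        exact (h1.2.2 x (by rw [List.head?_append_of_ne_nil _ hne]; exact hx)).symm
      · simp
        have := List.length_pos_iff.2 hne
        omega
    simpa using h0

/-- two `(k+1)`-cycles, `k` even: an ear of the first one gives two common vertices -/
theorem PK.two_of_ear (h : PK G k) (hk : Even k) (hk3 : 3 ≤ k) {z w : List V}
    {c d : V} {a b e : List V} (hz : IsCyc G (c :: a ++ d :: b)) (hperm : (c :: a ++ d :: b).Perm z)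
    (hzl : z.length = k + 1) (he : IsP G (c :: e ++ [d])) (hdis : ∀ x ∈ e, x ∉ z)
    (hel : e.length ≤ k - 1) (hn : e = [] → a ≠ [])
    (hw : IsCyc G w) (hwl : w.length = k + 1) {r : ℕ} (hpar : a.length + e.length + 2 = 2 * r)
    (hcon : ∀ x y, x ∈ z → y ∈ z → x ∈ w → y ∈ w → x = y) : False := by
  have hal : a.length + b.length = k - 1 := by
    have := hperm.length_eq
    simp at this; omega
  have hpos : 1 ≤ a.length + e.length := by
    by_cases he0 : e = []
    · have := List.length_pos_iff.2 (hn he0); omega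
    · have := List.length_pos_iff.2 he0; omega
  have hdis' : ∀ x ∈ e, x ∉ (c :: a ++ d :: b) := fun x hx hx' => hdis x hx (hperm.mem_iff.1 hx')
  have hZ := hz.ear_cycle he hdis' hpos
  obtain ⟨u, v, huv, hu, hv, huw, hvw⟩ := h.even_meets (r := r) (by omega) (by omega) hZ
    (by simp; omega) hw hwl
  have hsub : ∀ x, x ∈ (c :: (a ++ d :: e.reverse)) → x ∈ z ∨ x ∈ e := by
    intro x hx
    simp only [List.mem_cons, List.mem_append, List.mem_reverse] at hx
    rcases hx with h1 | h1 | h1 | h1
    · exact Or.inl (hperm.mem_iff.1 (by simp [h1]))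
    · exact Or.inl (hperm.mem_iff.1 (by simp [h1]))
    · exact Or.inl (hperm.mem_iff.1 (by simp [h1]))
    · exact Or.inr h1
  -- there is a vertex of `w` in `e`
  have hew : ∃ x ∈ e, x ∈ w := by
    rcases hsub u hu with h1 | h1
    · rcases hsub v hv with h2 | h2
      · exact absurd (hcon u v h1 h2 huw hvw) huv
      · exact ⟨v, h2, hvw⟩
    · exact ⟨u, h1, huw⟩
  have hcz : c ∈ z := hperm.mem_iff.1 (by simp)
  have hdz : d ∈ z := hperm.mem_iff.1 (by simp)
  have hcd : c ≠ d := by
    rintro rfl
    have := he.1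
    simp at this
  by_cases hcom : ∃ p, p ∈ z ∧ p ∈ w
  · obtain ⟨p, hpz, hpw⟩ := hcom
    -- a general step: an end `y ≠ p` of the ear
    have step : ∀ (y y' : V) (e' : List V), y ∈ z → y ≠ p → IsP G (y :: e' ++ [y']) → 
        (∀ x ∈ e', x ∉ z) → e'.length ≤ k - 1 → (∃ x ∈ e', x ∈ w) → False := by
      intro y y' e' hyz hyp he' hd' hl' hex
      obtain ⟨m, g, m', rfl, hg, hm⟩ := exists_first (fun x => x ∈ w) e' hex
      have hpg : p ≠ g := by
        rintro rfl
        exact hd' p (by simp) hpz
      have hz0 : ∃ z0, IsCyc G z0 ∧ z0.Perm z := ⟨_, hz, hperm⟩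
      obtain ⟨z0, hz0, hz0p⟩ := hz0
      obtain ⟨A, B, hAB, hABp⟩ := hz0.split_at (hz0p.mem_iff.2 hpz) (hz0p.mem_iff.2 hyz) hyp.symm
      obtain ⟨A', B', hAB', hABp'⟩ := hw.split_at hpw hg hpg
      have hp1 : (p :: A ++ y :: B).Perm z := hABp.trans hz0p
      refine h.link1 hk hk3 (m := m) hAB (by rw [hp1.length_eq, hzl]) hAB'
        (by rw [hABp'.length_eq, hwl]) ?_ ?_ ?_ ?_ ?_
      · exact he'.of_prefix ⟨m' ++ [y'], by simp⟩
      · intro x hx hx'
        exact hcon x p (hp1.mem_iff.1 hx) hpz (hABp'.mem_iff.1 hx') hpw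
      · intro x hx hx'
        exact hd' x (by simp [hx]) (hp1.mem_iff.1 hx')
      · intro x hx hx'
        exact hm x hx (hABp'.mem_iff.1 hx')
      · simp at hl'; omega
    by_cases hcp : c = p
    · refine step d c e.reverse hdz (by rw [← hcp]; exact hcd.symm) ?_ ?_ ?_ ?_
      · simpa using he.reverse
      · intro x hx; exact hdis x (by simpa using hx)
      · simpa using hel
      · simpa using hew
    · exact step c d e hcz hcp he hdis hel hew
  · push Not at hcom
    -- both `u` and `v` lie on the ear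
    have hue : u ∈ e := by
      rcases hsub u hu with h1 | h1
      · exact absurd huw (hcom u h1)
      · exact h1
    have hve : v ∈ e := by
      rcases hsub v hv with h1 | h1
      · exact absurd hvw (hcom v h1)
      · exact h1
    obtain ⟨m1, d1, m2, he1, hd1, hm1⟩ := exists_first (fun x => x ∈ w) e ⟨u, hue, huw⟩
    obtain ⟨n1, d2, m3, he2, hd2, hm3⟩ := exists_last (fun x => x ∈ w) e ⟨u, hue, huw⟩
    have hnd : e.Nodup := (he.of_infix ⟨[c], [d], by simp⟩ : IsP G e).1
    have hd12 : d1 ≠ d2 := by
      rintro rfl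
      -- then e has only one vertex in w
      have hl : m1 = n1 ∧ m2 = m3 := by
        have h1 : m1 ++ d1 :: m2 = n1 ++ d1 :: m3 := by rw [← he1, ← he2]
        have hn1 : d1 ∉ m1 := fun h' => hm1 d1 h' hd1
        have hn2 : d1 ∉ n1 := by
          intro h'
          rw [he2, List.nodup_append'] at hnd
          exact hnd.2.2 h' (by simp)
        have := List.append_eq_append_iff.1 h1
        rcases this with ⟨t, ht1, ht2⟩ | ⟨t, ht1, ht2⟩
        · cases t with
          | nil => simp at ht1 ht2; exact ⟨ht1.symm, ht2⟩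
          | cons s t =>
            simp at ht2
            obtain ⟨h3, h4⟩ := ht2
            subst h3
            exact absurd (by rw [ht1]; simp) hn2
        · cases t with
          | nil => simp at ht1 ht2; exact ⟨ht1, ht2.symm⟩
          | cons s t =>
            simp at ht2
            obtain ⟨h3, h4⟩ := ht2
            subst h3
            exact absurd (by rw [ht1]; simp) hn1
      have hall : ∀ x ∈ e, x ∈ w → x = d1 := by
        intro x hx hxw
        rw [he1] at hx
        simp only [List.mem_append, List.mem_cons] at hx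
        rcases hx with h1 | h1 | h1
        · exact absurd hxw (hm1 x h1)
        · exact h1
        · exact absurd hxw (hm3 x (hl.2 ▸ h1))
      exact huv ((hall u hue huw).trans (hall v hve hvw).symm)
    -- d2 in m2
    have hd2m2 : d2 ∈ m2 := by
      have h1 : d2 ∈ e := by rw [he2]; simp
      rw [he1] at h1
      simp only [List.mem_append, List.mem_cons] at h1
      rcases h1 with h1 | h1 | h1
      · exact absurd hd2 (hm1 d2 h1)
      · exact absurd h1.symm hd12
      · exact h1
    obtain ⟨m4, m5, rfl⟩ := List.append_of_mem hd2m2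
    have hm5 : m5 = m3 := by
      have h1 : (m1 ++ d1 :: m4) ++ d2 :: m5 = n1 ++ d2 :: m3 := by
        rw [← he2, he1]; simp
      rw [he1] at hnd
      have hnd2 : d2 ∉ (m1 ++ d1 :: m4) := by
        intro h'
        have : (m1 ++ d1 :: m4) ++ d2 :: m5 = m1 ++ d1 :: (m4 ++ d2 :: m5) := by simp
        rw [← this, List.nodup_append'] at hnd
        exact hnd.2.2 h' (by simp)
      have hnd3 : d2 ∉ n1 := by
        intro h'
        have h3 : (n1 ++ d2 :: m3).Nodup := by
          rw [← h1]
          simpa using hnd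
        rw [List.nodup_append'] at h3
        exact h3.2.2 h' (by simp)
      rcases List.append_eq_append_iff.1 h1 with ⟨t, ht1, ht2⟩ | ⟨t, ht1, ht2⟩
      · cases t with
        | nil => simp at ht2; exact ht2
        | cons s t =>
          simp at ht2
          obtain ⟨h3, h4⟩ := ht2
          subst h3
          exact absurd (by rw [ht1]; simp) hnd3
      · cases t with
        | nil => simp at ht2; exact ht2.symm
        | cons s t =>
          simp at ht2
          obtain ⟨h3, h4⟩ := ht2
          subst h3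
          exact absurd (by rw [ht1]; simp) hnd2
    subst hm5
    obtain ⟨A', B', hAB', hABp'⟩ := hw.split_at hd1 hd2 hd12
    have hlen : e.length = m1.length + m4.length + m5.length + 2 := by
      rw [he1]; simp; omega
    refine h.link2 hk hk3 (m1 := m1) (m3 := m5.reverse) hz (by rw [hperm.length_eq, hzl]) hAB'
      (by rw [hABp'.length_eq, hwl]) ?_ ?_ ?_ ?_ ?_ ?_ ?_ ?_ ?_
    · refine he.of_prefix ⟨m4 ++ d2 :: m5 ++ [d], ?_⟩
      rw [he1]; simp
    · have h1 : IsP G (d2 :: m5 ++ [d]) := he.of_suffix ⟨c :: m1 ++ d1 :: m4, by rw [he1]; simp⟩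
      simpa using h1.reverse
    · intro x hx hx'
      exact hcom x (hperm.mem_iff.1 hx) (hABp'.mem_iff.1 hx')
    · intro x hx hx'
      exact hdis x (by rw [he1]; simp [hx]) (hperm.mem_iff.1 hx')
    · intro x hx hx'
      exact hm1 x hx (hABp'.mem_iff.1 hx')
    · intro x hx hx'
      have hx2 : x ∈ m5 := by simpa using hx
      exact hdis x (by rw [he1]; simp [hx2]) (hperm.mem_iff.1 hx')
    · intro x hx hx'
      exact hm3 x (by simpa using hx) (hABp'.mem_iff.1 hx')
    · intro x hx hx'
      have hx2 : x ∈ m5 := by simpa using hx'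
      rw [he1, List.nodup_append'] at hnd
      exact hnd.2.2 hx (by simp [hx2])
    · simp
      omega

/-- any two `(k+1)`-cycles share at least two vertices -/
theorem PK.two_le_inter (h : PK G k) (hk3 : 3 ≤ k) {z w : List V} (hz : IsCyc G z)
    (hzl : z.length = k + 1) (hw : IsCyc G w) (hwl : w.length = k + 1) :
    ∃ a b, a ≠ b ∧ a ∈ z ∧ b ∈ z ∧ a ∈ w ∧ b ∈ w := by
  rcases Nat.even_or_odd k with hk | hk
  · by_contra hcon
    push Not at hcon
    have hcon' : ∀ x y, x ∈ z → y ∈ z → x ∈ w → y ∈ w → x = y := by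
      intro x y hx hy hx' hy'
      by_contra hne
      exact hcon x y hne hx hy hx' hy'
    obtain ⟨c, d, a, b, e, hcyc, hperm, hear, hdis, hel, hn⟩ := h.exists_ear hk3 hz hzl
    have hal : a.length + b.length = k - 1 := by
      have := hperm.length_eq
      simp at this; omega
    obtain ⟨κ, hκ⟩ := hk
    rcases Nat.even_or_odd' (a.length + e.length) with ⟨r, hr | hr⟩
    · exact h.two_of_ear ⟨κ, hκ⟩ hk3 (r := r + 1) hcyc hperm hzl hear hdis hel
        (fun h0 => (hn h0).1) hw hwl (by omega) hcon'
    · have hflip := hcyc.flip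
      have hperm2 : (c :: b.reverse ++ d :: a.reverse).Perm z := by
        refine List.Perm.trans ?_ hperm
        have h1 : (c :: b.reverse ++ d :: a.reverse).Perm (c :: b ++ d :: a) :=
          List.Perm.append (List.Perm.cons c b.reverse_perm) (List.Perm.cons d a.reverse_perm)
        refine h1.trans ?_
        have h2 : (c :: (b ++ d :: a)).Perm (c :: (a ++ d :: b)) := by
          refine List.Perm.cons c ?_
          have h3 : (b ++ d :: a).Perm (d :: a ++ b) := List.perm_append_comm
          refine h3.trans ?_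
          have h4 : (a ++ d :: b).Perm (d :: (a ++ b)) := List.perm_middle
          simpa using h4.symm
        simpa using h2
      have hE : ∃ r', b.length + e.length + 2 = 2 * r' := ⟨r + κ - a.length + 1, by omega⟩
      obtain ⟨r', hr'⟩ := hE
      exact h.two_of_ear ⟨κ, hκ⟩ hk3 (r := r') hflip hperm2 hzl hear hdis hel
        (fun h0 => by simpa using (hn h0).2) hw hwl (by simpa using hr') hcon'
  · obtain ⟨κ, hκ⟩ := hk
    exact h.even_meets (r := κ + 1) (by omega) (by omega) hz (by omega) hw hwl

end Pool.Agent.Work.KZ
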