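import Pool.Agent.Work.MP_f0e709_co.M1

set_option autoImplicit false

namespace Pool.Agent.Work.KZ

variable {V : Type*} {G : SimpleGraph V} {k : ℕ}

/-- every dart lies on a `(k+1)`-cycle -/
theorem PK.exists_cyc (h : PK G k) (hk : 2 ≤ k) {x y : V} (hxy : G.Adj x y) :
    ∃ z : List V, IsCyc G z ∧ z.length = k + 1 ∧ z.head? = some y ∧ z.getLast? = some x := by
  obtain ⟨l, hl, hll, hlh, hlt⟩ := h.exists hxy.ne'
  refine ⟨l, ⟨hl, ?_, by omega⟩, hll, hlh, hlt⟩
  intro a ha b hb
  rw [hlt] at ha
  rw [hlh] at hb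
  simp at ha hb
  subst ha; subst hb
  exact hxy

/-- the partner relation of the neighbours of `x` -/
def Partner (G : SimpleGraph V) (k : ℕ) (x y w : V) : Prop :=
  ∃ m : List V, IsCyc G (x :: y :: (m ++ [w])) ∧ m.length + 3 = k + 1

theorem Partner.symm {x y w : V} (h : Partner G k x y w) : Partner G k x w y := by
  obtain ⟨m, hm, hl⟩ := h
  refine ⟨m.reverse, ?_, by simpa using hl⟩
  have h1 : IsCyc G ((y :: (m ++ [w])) ++ [x]) := by
    have : IsCyc G ([x] ++ (y :: (m ++ [w]))) := by simpa using hm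
    exact this.rot
  have h2 := h1.reverse
  simpa using h2

theorem Partner.ne {x y w : V} (h : Partner G k x y w) : y ≠ w := by
  obtain ⟨m, hm, hl⟩ := h
  rintro rfl
  have := hm.isP.1
  simp at this

theorem Partner.adj_left {x y w : V} (h : Partner G k x y w) : G.Adj x y := by
  obtain ⟨m, hm, hl⟩ := h
  exact (isP_cons.1 hm.isP).2.2 y (by simp)

theorem Partner.adj_right {x y w : V} (h : Partner G k x y w) : G.Adj x w := h.symm.adj_left

theorem PK.partner_exists (h : PK G k) (hk : 3 ≤ k) {x y : V} (hxy : G.Adj x y) :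
    ∃ w, Partner G k x y w := by
  obtain ⟨z, hz, hzl, hzh, hzt⟩ := h.exists_cyc (by omega) hxy
  obtain ⟨z1, rfl⟩ : ∃ z1, z = z1 ++ [x] := by
    rcases List.eq_nil_or_concat z with h0 | ⟨l1', c, h0⟩
    · subst h0; simp at hzt
    · refine ⟨l1', ?_⟩
      have h1 : z = l1' ++ [c] := by simpa using h0
      rw [h1, List.getLast?_append_of_ne_nil _ (by simp)] at hzt
      simp at hzt
      rw [← hzt]; exact h1
  obtain ⟨z2, rfl⟩ : ∃ z2, z1 = y :: z2 := by
    cases z1 with
    | nil => simp at hzl; omega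
    | cons c z2 =>
      simp at hzh
      subst hzh
      exact ⟨z2, rfl⟩
  obtain ⟨z3, w, rfl⟩ : ∃ z3 w, z2 = z3 ++ [w] := by
    rcases List.eq_nil_or_concat z2 with h0 | ⟨l1', c, h0⟩
    · subst h0; simp at hzl; omega
    · exact ⟨l1', c, by simpa using h0⟩
  refine ⟨w, z3, ?_, by simp at hzl ⊢; omega⟩
  have := hz.rot
  simpa using this

theorem PK.partner_unique (h : PK G k) (hk : 3 ≤ k) {x y w w' : V} (h1 : Partner G k x y w)
    (h2 : Partner G k x y w') : w = w' := by
  obtain ⟨m, hm, hl⟩ := h1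
  obtain ⟨m', hm', hl'⟩ := h2
  have e1 : IsP G ((y :: (m ++ [w])) ++ [x]) := by
    have : IsCyc G ([x] ++ (y :: (m ++ [w]))) := by simpa using hm
    exact this.rot.isP
  have e2 : IsP G ((y :: (m' ++ [w'])) ++ [x]) := by
    have : IsCyc G ([x] ++ (y :: (m' ++ [w']))) := by simpa using hm'
    exact this.rot.isP
  have := h.uniq e1 e2 (by simp; omega) (by simp; omega) (by simp)
    (by rw [List.getLast?_append_of_ne_nil _ (by simp), List.getLast?_append_of_ne_nil _ (by simp)])
    (by omega)
  have h3 : m ++ [w] = m' ++ [w'] := by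
    have h5 := List.append_cancel_right this
    exact (List.cons.inj h5).2
  have h4 := congrArg List.getLast? h3
  rw [List.getLast?_append_of_ne_nil _ (by simp), List.getLast?_append_of_ne_nil _ (by simp)] at h4
  simpa using h4

theorem getLast?_eq_getLastD {α : Type*} (z : List α) (x : α) (hz : z ≠ []) :
    z.getLast? = some (z.getLastD x) := by
  obtain ⟨a, z', rfl⟩ := List.exists_cons_of_ne_nil hz
  simp [List.getLast?_cons]

section fin

set_option linter.unusedSectionVars false

variable [Fintype V] [DecidableEq V] [DecidableRel G.Adj]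

theorem PK.even_degree (h : PK G k) (hk : 3 ≤ k) (x : V) : Even (G.degree x) := by
  have key : ∑ y ∈ G.neighborFinset x, (1 : ZMod 2) = 0 := by
    refine Finset.sum_involution
      (fun y hy => (h.partner_exists hk ((G.mem_neighborFinset x y).1 hy)).choose) ?_ ?_ ?_ ?_
    · intro a ha; decide
    · intro a ha _ heq
      exact (h.partner_exists hk ((G.mem_neighborFinset x a).1 ha)).choose_spec.ne heq.symm
    · intro a ha
      rw [G.mem_neighborFinset]
      exact (h.partner_exists hk ((G.mem_neighborFinset x a).1 ha)).choose_spec.adj_right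
    · intro a ha
      have h1 := (h.partner_exists hk ((G.mem_neighborFinset x a).1 ha)).choose_spec
      have h2 := (h.partner_exists hk h1.adj_right).choose_spec
      exact h.partner_unique hk h2 h1.symm
  rw [Finset.sum_const, nsmul_eq_mul, mul_one, G.card_neighborFinset_eq_degree,
    ZMod.natCast_eq_zero_iff] at key
  exact even_iff_two_dvd.2 key

theorem PK.degree_pos [Nontrivial V] (h : PK G k) (hk : 3 ≤ k) (x : V) : 0 < G.degree x := by
  obtain ⟨v, hv⟩ := exists_ne x
  obtain ⟨l, hl, hll, hlh, hlt⟩ := h.exists hv.symm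
  rw [G.degree_pos_iff_exists_adj]
  rcases l with _ | ⟨a, _ | ⟨b, l⟩⟩
  · simp at hll
  · simp at hll; omega
  · simp at hlh
    subst hlh
    exact ⟨b, (isP_cons.1 hl).2.2 b (by simp)⟩

theorem PK.le_card [Nontrivial V] (h : PK G k) : k + 1 ≤ Fintype.card V := by
  obtain ⟨x, y, hxy⟩ := exists_pair_ne V
  obtain ⟨l, hl, hll, _⟩ := h.exists hxy
  rw [← hll]
  exact hl.1.length_le_card

/-- closed lists of `(k+1)`-cycles with a given head: as many as the degree of the head -/
theorem finite_cycs (G : SimpleGraph V) (n : ℕ) : {l : List V | IsCyc G l ∧ l.length = n}.Finite :=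
  (List.finite_length_eq V n).subset (fun _ h => h.2)

/-- all closed lists of `n`-cycles -/
noncomputable def cycs (G : SimpleGraph V) (n : ℕ) : Finset (List V) := (finite_cycs G n).toFinset

@[simp] theorem mem_cycs {n : ℕ} {l : List V} :
    l ∈ cycs G n ↔ IsCyc G l ∧ l.length = n := by
  simp [cycs]

theorem PK.card_cycs_head (h : PK G k) (hk : 3 ≤ k) (x : V) :
    ((cycs G (k + 1)).filter (fun z => z.head? = some x)).card = G.degree x := by
  rw [← G.card_neighborFinset_eq_degree]
  refine Finset.card_bij (fun z _ => z.getLastD x) ?_ ?_ ?_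
  · intro z hz
    rw [Finset.mem_filter, mem_cycs] at hz
    obtain ⟨⟨hz, hzl⟩, hzh⟩ := hz
    have h1 : z.getLast? = some (z.getLastD x) := getLast?_eq_getLastD z x hz.ne_nil
    rw [G.mem_neighborFinset]
    exact (hz.2.1 _ (by rw [h1]; rfl) x (by rw [hzh]; rfl)).symm
  · intro z hz w hw heq
    rw [Finset.mem_filter, mem_cycs] at hz hw
    obtain ⟨⟨hz, hzl⟩, hzh⟩ := hz
    obtain ⟨⟨hw, hwl⟩, hwh⟩ := hw
    have h1 : ∀ z : List V, z ≠ [] → z.getLast? = some (z.getLastD x) :=
      fun z hzn => getLast?_eq_getLastD z x hzn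
    refine h.uniq hz.isP hw.isP hzl hwl (by rw [hzh, hwh]) ?_ (by omega)
    rw [h1 z hz.ne_nil, h1 w hw.ne_nil, heq]
  · intro y hy
    rw [G.mem_neighborFinset] at hy
    obtain ⟨z, hz, hzl, hzh, hzt⟩ := h.exists_cyc (by omega) hy.symm
    refine ⟨z, ?_, ?_⟩
    · rw [Finset.mem_filter, mem_cycs]
      exact ⟨⟨hz, hzl⟩, hzh⟩
    · have := getLast?_eq_getLastD z x hz.ne_nil
      rw [hzt] at this
      exact (Option.some.inj this).symm

theorem PK.card_cycs (h : PK G k) (hk : 3 ≤ k) :
    (cycs G (k + 1)).card = ∑ y, G.degree y := by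
  classical
  have h1 : (cycs G (k + 1)) = Finset.univ.biUnion
      (fun y => (cycs G (k + 1)).filter (fun z => z.head? = some y)) := by
    ext z
    simp only [Finset.mem_biUnion, Finset.mem_univ, true_and, Finset.mem_filter]
    constructor
    · intro hz
      have hz' := (mem_cycs.1 hz).1.ne_nil
      obtain ⟨a, z', rfl⟩ := List.exists_cons_of_ne_nil hz'
      exact ⟨a, hz, rfl⟩
    · rintro ⟨y, hz, _⟩
      exact hz
  rw [h1, Finset.card_biUnion]
  · exact Finset.sum_congr rfl (fun y _ => h.card_cycs_head hk y)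
  · intro a _ b _ hab
    rw [Function.onFun, Finset.disjoint_left]
    intro z hz hz'
    rw [Finset.mem_filter] at hz hz'
    have : some a = some b := by rw [← hz.2, ← hz'.2]
    exact hab (Option.some.inj this)

theorem IsCyc.rotate {z : List V} (hz : IsCyc G z) (i : ℕ) : IsCyc G (z.rotate i) := by
  have hl : 0 < z.length := by have := hz.2.2; omega
  rw [← List.rotate_mod]
  have hi : i % z.length ≤ z.length := (Nat.mod_lt _ hl).le
  rw [List.rotate_eq_drop_append_take hi]
  apply IsCyc.rot
  rw [List.take_append_drop]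
  exact hz

/-- positions: the closed lists with `x` at position `i` -/
theorem PK.card_cycs_pos (h : PK G k) (hk : 3 ≤ k) (x : V) {i : ℕ} (hi : i < k + 1) :
    ((cycs G (k + 1)).filter (fun z => z[i]? = some x)).card = G.degree x := by
  rw [← h.card_cycs_head hk x]
  refine Finset.card_bij (fun z _ => z.rotate i) ?_ ?_ ?_
  · intro z hz
    rw [Finset.mem_filter, mem_cycs] at hz ⊢
    obtain ⟨⟨hz, hzl⟩, hzi⟩ := hz
    refine ⟨⟨hz.rotate i, by rw [List.length_rotate]; exact hzl⟩, ?_⟩
    rw [List.head?_rotate (by omega)]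
    exact hzi
  · intro z _ w _ heq
    exact List.rotate_injective i heq
  · intro z hz
    rw [Finset.mem_filter, mem_cycs] at hz
    obtain ⟨⟨hz, hzl⟩, hzh⟩ := hz
    refine ⟨z.rotate (k + 1 - i), ?_, ?_⟩
    · rw [Finset.mem_filter, mem_cycs]
      refine ⟨⟨hz.rotate _, by rw [List.length_rotate]; exact hzl⟩, ?_⟩
      rw [← List.head?_rotate (by rw [List.length_rotate]; omega), List.rotate_rotate,
        show k + 1 - i + i = z.length by omega, List.rotate_length]
      exact hzh
    · rw [List.rotate_rotate, show k + 1 - i + i = z.length by omega, List.rotate_length]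

theorem PK.card_cycs_mem (h : PK G k) (hk : 3 ≤ k) (x : V) :
    ((cycs G (k + 1)).filter (fun z => x ∈ z)).card = (k + 1) * G.degree x := by
  have h1 : (cycs G (k + 1)).filter (fun z => x ∈ z) = (Finset.range (k + 1)).biUnion
      (fun i => (cycs G (k + 1)).filter (fun z => z[i]? = some x)) := by
    ext z
    simp only [Finset.mem_biUnion, Finset.mem_range, Finset.mem_filter]
    constructor
    · rintro ⟨hz, hx⟩
      obtain ⟨i, hi, hix⟩ := List.getElem_of_mem hx
      refine ⟨i, ?_, hz, ?_⟩
      · rw [← (mem_cycs.1 hz).2]; exact hi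
      · rw [List.getElem?_eq_getElem hi, hix]
    · rintro ⟨i, _, hz, hx⟩
      exact ⟨hz, List.mem_of_getElem? hx⟩
  rw [h1, Finset.card_biUnion]
  · rw [Finset.sum_congr rfl (fun i hi => h.card_cycs_pos hk x (Finset.mem_range.1 hi))]
    simp
  · intro a _ b _ hab
    rw [Function.onFun, Finset.disjoint_left]
    intro z hz hz'
    rw [Finset.mem_filter] at hz hz'
    have hnd := (mem_cycs.1 hz.1).1.isP.1
    apply hab
    obtain ⟨ha, ha'⟩ := List.getElem?_eq_some_iff.1 hz.2
    obtain ⟨hb, hb'⟩ := List.getElem?_eq_some_iff.1 hz'.2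
    exact (hnd.getElem_inj_iff).1 (ha'.trans hb'.symm)

theorem PK.mul_degree_le (h : PK G k) (hk : 3 ≤ k) (x : V) :
    (k + 1) * G.degree x ≤ ∑ y, G.degree y := by
  rw [← h.card_cycs_mem hk x, ← h.card_cycs hk]
  exact Finset.card_filter_le _ _

end fin

end Pool.Agent.Work.KZ
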