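import Pool.Agent.Work.MP_f0e709_co.M1

set_option autoImplicit false
set_option linter.unusedSectionVars false

namespace Pool.Agent.Work.KZ

open scoped Classical

variable {V : Type*} [Fintype V] {G : SimpleGraph V} {k : ℕ}

/-- closed lists of cycles with `n` vertices -/
noncomputable def cyc (G : SimpleGraph V) (n : ℕ) : Finset (List V) :=
  (paths G n).filter (fun z => IsCyc G z)

theorem mem_cyc {n : ℕ} {z : List V} : z ∈ cyc G n ↔ IsCyc G z ∧ z.length = n := by
  simp only [cyc, Finset.mem_filter, mem_paths]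
  constructor
  · rintro ⟨⟨_, h2⟩, h3⟩; exact ⟨h3, h2⟩
  · rintro ⟨h1, h2⟩; exact ⟨⟨h1.1, h2⟩, h1⟩

/-- closed lists with head `a` -/
noncomputable def cycAt (G : SimpleGraph V) (n : ℕ) (a : V) : Finset (List V) :=
  (cyc G n).filter (fun z => z.head? = some a)

theorem mem_cycAt {n : ℕ} {a : V} {z : List V} :
    z ∈ cycAt G n a ↔ IsCyc G z ∧ z.length = n ∧ z.head? = some a := by
  simp only [cycAt, Finset.mem_filter, mem_cyc]
  tauto

theorem PK.cyc_dart (h : PK G k) (hk : 1 ≤ k) {z w : List V} (hz : z ∈ cyc G (k + 1))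
    (hw : w ∈ cyc G (k + 1)) (h1 : z.head? = w.head?) (h2 : z.getLast? = w.getLast?) : z = w := by
  rw [mem_cyc] at hz hw
  exact h.uniq hz.1.isP hw.1.isP hz.2 hw.2 h1 h2 hk

theorem rot_mem_cyc {n : ℕ} {u w : List V} (hz : u ++ w ∈ cyc G n) : w ++ u ∈ cyc G n := by
  rw [mem_cyc] at hz ⊢
  refine ⟨hz.1.rot, ?_⟩
  have := hz.2
  simp at this ⊢; omega

/-- two closed lists with the same first two vertices are equal -/
theorem PK.cyc_take_two (h : PK G k) (hk : 2 ≤ k) {z w : List V} (hz : z ∈ cyc G (k + 1))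
    (hw : w ∈ cyc G (k + 1)) (h1 : z.take 2 = w.take 2) : z = w := by
  have hzl := (mem_cyc.1 hz).2
  have hwl := (mem_cyc.1 hw).2
  obtain ⟨x, y, t, rfl⟩ : ∃ x y t, z = x :: y :: t := by
    rcases z with _ | ⟨x, _ | ⟨y, t⟩⟩
    · simp at hzl
    · simp at hzl; omega
    · exact ⟨x, y, t, rfl⟩
  obtain ⟨x', y', t', rfl⟩ : ∃ x y t, w = x :: y :: t := by
    rcases w with _ | ⟨x, _ | ⟨y, t⟩⟩
    · simp at hwl
    · simp at hwl; omega
    · exact ⟨x, y, t, rfl⟩
  simp at h1
  obtain ⟨rfl, rfl⟩ := h1
  have a1 : (y :: t) ++ [x] ∈ cyc G (k + 1) := rot_mem_cyc (u := [x]) (by simpa using hz)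
  have a2 : (y :: t') ++ [x] ∈ cyc G (k + 1) := rot_mem_cyc (u := [x]) (by simpa using hw)
  have := h.cyc_dart (by omega) a1 a2 (by simp)
    (by rw [List.getLast?_append_of_ne_nil _ (by simp), List.getLast?_append_of_ne_nil _ (by simp)])
  simpa using this

/-- the number of closed lists with head `y` is the degree of `y` -/
theorem PK.card_cycAt (h : PK G k) (hk : 2 ≤ k) [DecidableRel G.Adj] (y : V) :
    (cycAt G (k + 1) y).card = G.degree y := by
  rw [← G.card_neighborFinset_eq_degree y]
  refine Finset.card_bij' (fun z _ => (z.getLast?).getD y)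
    (fun x _ => if hx : y ≠ x then (h.exists hx).choose else []) ?_ ?_ ?_ ?_
  · intro z hz
    rw [mem_cycAt] at hz
    obtain ⟨hc, hl, hh⟩ := hz
    have hne : z ≠ [] := hc.ne_nil
    rw [List.getLast?_eq_some_getLast hne, SimpleGraph.mem_neighborFinset]
    simp only [Option.getD_some]
    exact (hc.2.1 _ (by rw [List.getLast?_eq_some_getLast hne]; rfl) y (by rw [hh]; rfl)).symm
  · intro x hx
    rw [SimpleGraph.mem_neighborFinset] at hx
    have hne : y ≠ x := hx.ne
    rw [dif_pos hne]
    obtain ⟨h1, h2, h3, h4⟩ := (h.exists hne).choose_spec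
    rw [mem_cycAt]
    refine ⟨⟨h1, ?_, by omega⟩, h2, h3⟩
    intro a ha b hb
    rw [h4] at ha
    rw [h3] at hb
    simp at ha hb
    subst ha; subst hb
    exact hx.symm
  · intro z hz
    have hz' := mem_cycAt.1 hz
    obtain ⟨hc, hl, hh⟩ := hz'
    have hne : z ≠ [] := hc.ne_nil
    have hlast : z.getLast? = some (z.getLast hne) := List.getLast?_eq_some_getLast hne
    have hadj : G.Adj (z.getLast hne) y := hc.2.1 _ (by rw [hlast]; rfl) y (by rw [hh]; rfl)
    simp only [hlast, Option.getD_some]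
    have hne2 : y ≠ z.getLast hne := hadj.symm.ne
    rw [dif_pos hne2]
    obtain ⟨h1, h2, h3, h4⟩ := (h.exists hne2).choose_spec
    exact h.uniq h1 hc.isP h2 hl (by rw [h3, hh]) (by rw [h4, hlast]) (by omega)
  · intro x hx
    rw [SimpleGraph.mem_neighborFinset] at hx
    have hne : y ≠ x := hx.ne
    simp only [dif_pos hne]
    obtain ⟨h1, h2, h3, h4⟩ := (h.exists hne).choose_spec
    rw [h4]; simp

/-! ### rotations -/

theorem rotate_mem_cyc {n : ℕ} {z : List V} (hz : z ∈ cyc G n) (i : ℕ) : z.rotate i ∈ cyc G n := by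
  rw [List.rotate_eq_drop_append_take_mod]
  apply rot_mem_cyc
  rw [List.take_append_drop]
  exact hz

theorem isRotated_mem_cyc {n : ℕ} {z w : List V} (hz : z ∈ cyc G n) (h : z.IsRotated w) :
    w ∈ cyc G n := by
  obtain ⟨i, rfl⟩ := h
  exact rotate_mem_cyc hz i

theorem eq_of_isRotated_of_head {z w : List V} (hz : z.Nodup) (h : z.IsRotated w)
    (hh : z.head? = w.head?) : z = w := by
  rw [List.isRotated_iff_mod] at h
  obtain ⟨m, hm, rfl⟩ := h
  rcases Nat.eq_or_lt_of_le hm with h1 | h1
  · subst h1; simp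
  · rw [List.head?_rotate h1] at hh
    have hpos : 0 < z.length := by omega
    rw [List.head?_eq_getElem?, List.getElem?_eq_getElem hpos, List.getElem?_eq_getElem h1] at hh
    have := (hz.getElem_inj_iff).1 (Option.some.inj hh)
    subst this
    simp

/-- rotate the list to start at `x` -/
noncomputable def rt (z : List V) (x : V) : List V := z.rotate (z.idxOf x)

theorem rt_isRotated (z : List V) (x : V) : z.IsRotated (rt z x) := ⟨_, rfl⟩

theorem rt_head {z : List V} {x : V} (hx : x ∈ z) : (rt z x).head? = some x := by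
  have h1 : z.idxOf x < z.length := List.idxOf_lt_length_of_mem hx
  rw [rt, List.head?_rotate h1, List.getElem?_eq_getElem h1, List.getElem_idxOf]

theorem rt_mem_cycAt {n : ℕ} {z : List V} (hz : z ∈ cyc G n) {x : V} (hx : x ∈ z) :
    rt z x ∈ cycAt G n x := by
  rw [cycAt, Finset.mem_filter]
  exact ⟨rotate_mem_cyc hz _, rt_head hx⟩

theorem card_through_le (G : SimpleGraph V) (n : ℕ) (x : V) :
    ((cyc G n).filter (fun z => x ∈ z)).card ≤ n * (cycAt G n x).card := by
  rw [← Finset.card_range n, ← Finset.card_product]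
  simp only [Finset.card_range]
  refine Finset.card_le_card_of_injOn (fun z => (z.idxOf x, rt z x)) ?_ ?_
  · intro z hz
    simp only [Finset.coe_filter, Set.mem_ofPred_eq] at hz
    obtain ⟨hz, hx⟩ := hz
    have h1 : z.idxOf x < z.length := List.idxOf_lt_length_of_mem hx
    simp only [Finset.coe_product, Set.mem_prod, Finset.mem_coe, Finset.mem_range]
    exact ⟨by rw [(mem_cyc.1 hz).2] at h1; exact h1, rt_mem_cycAt hz hx⟩
  · intro z hz w hw hzw
    simp only [Prod.mk.injEq, rt] at hzw
    obtain ⟨h1, h2⟩ := hzw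
    rw [← h1] at h2
    exact List.rotate_eq_rotate.1 h2

theorem card_at_through_le (G : SimpleGraph V) (n : ℕ) (a x : V) :
    ((cycAt G n a).filter (fun z => x ∈ z)).card ≤ (cycAt G n x).card := by
  refine Finset.card_le_card_of_injOn (fun z => rt z x) ?_ ?_
  · intro z hz
    simp only [Finset.coe_filter, Set.mem_ofPred_eq] at hz
    obtain ⟨hz, hx⟩ := hz
    have hz' : z ∈ cyc G n := (Finset.mem_filter.1 hz).1
    exact rt_mem_cycAt hz' hx
  · intro z hz w hw hzw
    simp only [Finset.coe_filter, Set.mem_ofPred_eq] at hz hw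
    have h1 : z.IsRotated w := (rt_isRotated z x).trans (by
      simp only at hzw
      rw [hzw]; exact (rt_isRotated w x).symm)
    refine eq_of_isRotated_of_head (mem_cycAt.1 hz.1).1.isP.1 h1 ?_
    rw [(mem_cycAt.1 hz.1).2.2, (mem_cycAt.1 hw.1).2.2]

/-! ### the two-cycle paths -/

/-- `l` starts along the closed list `z` until the first vertex of `w`, then goes on along `w` -/
def TwoC (k : ℕ) (z w l : List V) : Prop :=
  ∃ (z1 : List V) (g : V) (z2 w' : List V), z = z1 ++ g :: z2 ∧ (g :: w').IsRotated w ∧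
    (∀ x ∈ z1, x ∉ w) ∧ z1.length + 2 ≤ k ∧ l = (z1 ++ g :: w').take k

theorem TwoC.exists {z w : List V} (hk : 4 ≤ k)
    (hgood : ∃ x ∈ z.take (k - 1), x ∈ w) : ∃ l, TwoC k z w l := by
  obtain ⟨z1, g, z2, hz, hg, hz1⟩ := exists_first (fun x => x ∈ w) _ hgood
  obtain ⟨s, t, rfl⟩ := List.append_of_mem hg
  refine ⟨(z1 ++ g :: (t ++ s)).take k, z1, g, z2 ++ z.drop (k - 1), t ++ s, ?_, ?_, hz1, ?_, rfl⟩
  · rw [← List.cons_append, ← List.append_assoc, ← hz, List.take_append_drop]
  · refine ⟨t.length + 1, ?_⟩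
    have : g :: (t ++ s) = (g :: t) ++ s := by simp
    rw [this, show t.length + 1 = (g :: t).length by simp, List.rotate_append_length_eq]
  · have := congrArg List.length hz
    simp only [List.length_take, List.length_append, List.length_cons] at this
    omega

theorem TwoC.mem_paths {a : V} {z w l : List V} (hz : z ∈ cycAt G (k + 1) a)
    (hw : w ∈ cyc G (k + 1)) (ha : a ∉ w) (hl : TwoC k z w l) :
    l ∈ paths G k ∧ l.head? = some a := by
  obtain ⟨z1, g, z2, w', rfl, hr, hz1, hlen, rfl⟩ := hl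
  have hz' := mem_cycAt.1 hz
  have hW : g :: w' ∈ cyc G (k + 1) := isRotated_mem_cyc hw hr.symm
  have hgw : g ∈ w := hr.mem_iff.1 (by simp)
  have hz1n : z1 ≠ [] := by
    rintro rfl
    have : g = a := by simpa using hz'.2.2
    exact ha (this ▸ hgw)
  have h1 : IsP G (z1 ++ g :: w') := by
    refine IsP.glue ?_ (mem_cyc.1 hW).1.isP ?_
    · exact hz'.1.isP.of_prefix ⟨z2, by simp⟩
    · intro x hx hx'
      exact hz1 x hx' (hr.mem_iff.1 (by simp [hx]))
  constructor
  · rw [KZ.mem_paths]
    refine ⟨h1.take k, ?_⟩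
    have := (mem_cyc.1 hW).2
    simp only [List.length_cons] at this
    rw [List.length_take, List.length_append, List.length_cons]
    omega
  · obtain ⟨b, z1', rfl⟩ : ∃ b z1', z1 = b :: z1' := by
      cases z1 with
      | nil => exact absurd rfl hz1n
      | cons b z1' => exact ⟨b, z1', rfl⟩
    have hb : b = a := by simpa using hz'.2.2
    obtain ⟨m, rfl⟩ : ∃ m, k = m + 1 := ⟨k - 1, by omega⟩
    simp [hb]

theorem PK.twoC_inj (h : PK G k) (hk : 4 ≤ k) {a : V} {z w z' w' l : List V}
    (hz : z ∈ cycAt G (k + 1) a) (hw : w ∈ cyc G (k + 1)) (ha : a ∉ w)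
    (hz' : z' ∈ cycAt G (k + 1) a) (hw' : w' ∈ cyc G (k + 1)) (ha' : a ∉ w')
    (hl : TwoC k z w l) (hl' : TwoC k z' w' l) : z = z' ∧ w.IsRotated w' := by
  -- data extracted from one triple
  have key : ∀ z w : List V, z ∈ cycAt G (k + 1) a → w ∈ cyc G (k + 1) → a ∉ w → TwoC k z w l →
      l.take 2 = z.take 2 ∧ ∃ (s u t : List V) (c d : V), l = s ++ [c, d] ∧
        (u ++ c :: d :: t).IsRotated w := by
    intro z w hz hw ha hl
    obtain ⟨z1, g, z2, w', rfl, hr, hz1, hlen, rfl⟩ := hl
    have hz' := mem_cycAt.1 hz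
    have hW : g :: w' ∈ cyc G (k + 1) := isRotated_mem_cyc hw hr.symm
    have hgw : g ∈ w := hr.mem_iff.1 (by simp)
    have hz1n : z1 ≠ [] := by
      rintro rfl
      have : g = a := by simpa using hz'.2.2
      exact ha (this ▸ hgw)
    have hz1p : 1 ≤ z1.length := List.length_pos_iff.2 hz1n
    constructor
    · rw [List.take_take, show min 2 k = 2 by omega]
      have e1 : z1 ++ g :: w' = (z1 ++ [g]) ++ w' := by simp
      have e2 : z1 ++ g :: z2 = (z1 ++ [g]) ++ z2 := by simp
      have e3 : 2 ≤ (z1 ++ [g]).length := by rw [List.length_append]; simp; omega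
      rw [e1, e2, List.take_append_of_le_length (l₁ := z1 ++ [g]) e3,
        List.take_append_of_le_length (l₁ := z1 ++ [g]) e3]
    · have hWl := (mem_cyc.1 hW).2
      set W := g :: w' with hWdef
      have e1 : (z1 ++ W).take k = z1 ++ W.take (k - z1.length) := by
        rw [List.take_append, List.take_of_length_le (by omega)]
      set q := k - z1.length with hq
      have hq2 : 2 ≤ q := by omega
      have hqW : q ≤ W.length := by omega
      have hc : q - 2 < W.length := by omega
      have hd : q - 1 < W.length := by omega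
      refine ⟨z1 ++ W.take (q - 2), W.take (q - 2), W.drop q, W[q - 2], W[q - 1], ?_, ?_⟩
      · rw [e1, List.append_assoc]
        congr 1
        have h1 : W.take q = W.take (q - 2) ++ [W[q - 2]] ++ [W[q - 1]] := by
          have h2 : W.take (q - 2) ++ [W[q - 2]] = W.take (q - 1) := by
            have := List.take_append_getElem hc
            rw [this]; congr 1; omega
          rw [h2]
          have := List.take_append_getElem hd
          rw [this]; congr 1; omega
        rw [h1, List.append_assoc]; rfl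
      · have h3 : W.take (q - 2) ++ W[q - 2] :: W[q - 1] :: W.drop q = W := by
          have h4 : W[q - 1] :: W.drop q = W.drop (q - 1) := by
            have := List.getElem_cons_drop hd
            rw [← this]
            congr 2; omega
          rw [h4]
          have h5 : W[q - 2] :: W.drop (q - 1) = W.drop (q - 2) := by
            have := List.getElem_cons_drop hc
            rw [← this]
            congr 2; omega
          rw [h5, List.take_append_drop]
        rw [h3]
        exact hr
  obtain ⟨k1, s, u, t, c, d, hs, hu⟩ := key z w hz hw ha hl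
  obtain ⟨k1', s', u', t', c', d', hs', hu'⟩ := key z' w' hz' hw' ha' hl'
  have hzc : z ∈ cyc G (k + 1) := (Finset.mem_filter.1 hz).1
  have hzc' : z' ∈ cyc G (k + 1) := (Finset.mem_filter.1 hz').1
  refine ⟨h.cyc_take_two (by omega) hzc hzc' (by rw [← k1, ← k1']), ?_⟩
  have hcd : c = c' ∧ d = d' := by
    have h1 : s ++ [c, d] = s' ++ [c', d'] := by rw [← hs, ← hs']
    have := List.append_inj' h1 (by simp)
    simpa using this.2
  obtain ⟨rfl, rfl⟩ := hcd
  have r1 : (d :: t ++ (u ++ [c])).IsRotated w := by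
    refine List.IsRotated.trans ?_ hu
    refine ⟨(d :: t).length, ?_⟩
    rw [List.rotate_append_length_eq]; simp
  have r2 : (d :: t' ++ (u' ++ [c])).IsRotated w' := by
    refine List.IsRotated.trans ?_ hu'
    refine ⟨(d :: t').length, ?_⟩
    rw [List.rotate_append_length_eq]; simp
  have e : d :: t ++ (u ++ [c]) = d :: t' ++ (u' ++ [c]) := by
    refine h.cyc_dart (by omega) (isRotated_mem_cyc hw r1.symm) (isRotated_mem_cyc hw' r2.symm)
      (by simp) ?_
    rw [← List.append_assoc, ← List.append_assoc, List.getLast?_append_of_ne_nil _ (by simp),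
      List.getLast?_append_of_ne_nil _ (by simp)]
  rw [e] at r1
  exact r1.symm.trans r2

/-- reversal of a closed list, keeping its head -/
def rho (z : List V) : List V := z.take 1 ++ (z.drop 1).reverse

theorem rho_mem {n : ℕ} {a : V} {z : List V} (hz : z ∈ cycAt G n a) : rho z ∈ cycAt G n a := by
  rw [mem_cycAt] at hz ⊢
  obtain ⟨h1, h2, h3⟩ := hz
  obtain ⟨b, t, rfl⟩ : ∃ b t, z = b :: t := by
    cases z with
    | nil => exact absurd rfl h1.ne_nil
    | cons b t => exact ⟨b, t, rfl⟩
  have e : rho (b :: t) = b :: t.reverse := by simp [rho]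
  rw [e]
  refine ⟨?_, by simpa using h2, by simpa using h3⟩
  have h4 : IsCyc G (t ++ [b]) := IsCyc.rot (u := [b]) (by simpa using h1)
  simpa using h4.reverse

theorem rho_rho {n : ℕ} {a : V} {z : List V} (hz : z ∈ cycAt G n a) : rho (rho z) = z := by
  rw [mem_cycAt] at hz
  obtain ⟨h1, h2, h3⟩ := hz
  obtain ⟨b, t, rfl⟩ : ∃ b t, z = b :: t := by
    cases z with
    | nil => exact absurd rfl h1.ne_nil
    | cons b t => exact ⟨b, t, rfl⟩
  simp [rho]

/-- `z` meets `w` early -/
def Early (k : ℕ) (z w : List V) : Prop := ∃ x ∈ z.take (k - 1), x ∈ w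

theorem card_le_two_good {a : V} {w : List V} (hk : 4 ≤ k)
    (hmeet : ∀ z ∈ cycAt G (k + 1) a, ∃ x ∈ z, x ∈ w) :
    (cycAt G (k + 1) a).card ≤
      2 * ((cycAt G (k + 1) a).filter (fun z => Early k z w)).card := by
  have h1 := Finset.card_filter_add_card_filter_not (s := cycAt G (k + 1) a)
    (fun z => Early k z w)
  have h2 : ((cycAt G (k + 1) a).filter (fun z => ¬ Early k z w)).card ≤
      ((cycAt G (k + 1) a).filter (fun z => Early k z w)).card := by
    refine Finset.card_le_card_of_injOn rho ?_ ?_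
    · intro z hz
      simp only [Finset.coe_filter, Set.mem_ofPred_eq] at hz ⊢
      obtain ⟨hz, hb⟩ := hz
      refine ⟨rho_mem hz, ?_⟩
      obtain ⟨x, hxz, hxw⟩ := hmeet z hz
      have hx1 : x ∉ z.take (k - 1) := fun h => hb ⟨x, h, hxw⟩
      have hz' := mem_cycAt.1 hz
      obtain ⟨b, t, rfl⟩ : ∃ b t, z = b :: t := by
        cases z with
        | nil => exact absurd rfl hz'.1.ne_nil
        | cons b t => exact ⟨b, t, rfl⟩
      have htl : t.length = k := by simpa using hz'.2.1
      refine ⟨x, ?_, hxw⟩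
      have e : rho (b :: t) = b :: t.reverse := by simp [rho]
      rw [e]
      obtain ⟨m, rfl⟩ : ∃ m, k = m + 4 := ⟨k - 4, by omega⟩
      have hx2 : x ∈ t.drop (m + 2) := by
        have : x ∈ (b :: t).take (m + 3) ++ (b :: t).drop (m + 3) := by
          rw [List.take_append_drop]; exact hxz
        rcases List.mem_append.1 this with h | h
        · exact absurd (by simpa using h) hx1
        · simpa using h
      have hx3 : x ∈ t.reverse.take 2 := by
        have h4 : t.reverse.take 2 = (t.drop (t.length - 2)).reverse := by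
          rw [List.take_reverse]
        rw [h4, htl, List.mem_reverse]
        exact hx2
      have h5 : m + 4 - 1 = (m + 2) + 1 := by omega
      rw [h5, List.take_succ_cons]
      refine List.mem_cons_of_mem _ ?_
      have h6 : t.reverse.take 2 = (t.reverse.take (m + 2)).take 2 := by
        rw [List.take_take, show min 2 (m + 2) = 2 by omega]
      rw [h6] at hx3
      exact List.mem_of_mem_take hx3
    · intro z hz w' hw' hzw
      simp only [Finset.coe_filter, Set.mem_ofPred_eq] at hz hw'
      rw [← rho_rho hz.1, ← rho_rho hw'.1, hzw]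
  omega

/-- the lower bound for the number of paths with `k` vertices from `a` -/
theorem PK.card_mul_le (h : PK G k) (hk : 4 ≤ k) (a : V)
    (H1 : ∀ z w : List V, z ∈ cyc G (k + 1) → w ∈ cyc G (k + 1) → ∃ x, x ∈ z ∧ x ∈ w) :
    (cycAt G (k + 1) a).card * ((cyc G (k + 1)).filter (fun w => a ∉ w)).card ≤
      2 * ((k + 1) * ((paths G k).filter (fun l => l.head? = some a)).card) := by
  set A := cycAt G (k + 1) a with hA
  set W := (cyc G (k + 1)).filter (fun w => a ∉ w) with hW
  set S : Finset (List V × List V) :=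
    (W ×ˢ A).filter (fun p => Early k p.2 p.1) with hS
  have h1 : A.card * W.card ≤ 2 * S.card := by
    have e : S.card = ∑ w ∈ W, (A.filter (fun z => Early k z w)).card := by
      rw [hS, Finset.card_filter, Finset.sum_product]
      refine Finset.sum_congr rfl ?_
      intro w _
      rw [Finset.card_filter]
    rw [e, Finset.mul_sum, mul_comm, ← smul_eq_mul, ← Finset.sum_const]
    refine Finset.sum_le_sum ?_
    intro w hw
    refine card_le_two_good hk ?_
    intro z hz
    obtain ⟨x, hx⟩ := H1 z w (Finset.mem_filter.1 hz).1 (Finset.mem_filter.1 hw).1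
    exact ⟨x, hx.1, hx.2⟩
  have h2 : S.card ≤ (k + 1) * ((paths G k).filter (fun l => l.head? = some a)).card := by
    have hex : ∀ p ∈ S, ∃ l, TwoC k p.2 p.1 l := by
      intro p hp
      exact TwoC.exists hk (Finset.mem_filter.1 hp).2
    set F : List V × List V → List V := fun p =>
      if hp : ∃ l, TwoC k p.2 p.1 l then hp.choose else [] with hF
    have hFs : ∀ p ∈ S, TwoC k p.2 p.1 (F p) := by
      intro p hp
      have := hex p hp
      simp only [hF, dif_pos this]
      exact this.choose_spec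
    have hmem : ∀ p ∈ S, p.2 ∈ A ∧ p.1 ∈ cyc G (k + 1) ∧ a ∉ p.1 := by
      intro p hp
      have h3 := (Finset.mem_filter.1 hp).1
      rw [Finset.mem_product] at h3
      have h4 := Finset.mem_filter.1 h3.1
      exact ⟨h3.2, h4.1, h4.2⟩
    refine Finset.card_le_mul_card_image_of_maps_to (f := F) ?_ (k + 1) ?_
    · intro p hp
      obtain ⟨m1, m2, m3⟩ := hmem p hp
      have := TwoC.mem_paths m1 m2 m3 (hFs p hp)
      rw [Finset.mem_filter]
      exact this
    · intro l _
      rcases (S.filter (fun p => F p = l)).eq_empty_or_nonempty with he | ⟨p0, hp0⟩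
      · rw [he]; simp
      · rw [Finset.mem_filter] at hp0
        obtain ⟨n1, n2, n3⟩ := hmem p0 hp0.1
        have hT0 := hFs p0 hp0.1
        rw [hp0.2] at hT0
        have hsub : S.filter (fun p => F p = l) ⊆
            (Finset.range (k + 1)).image (fun i => (p0.1.rotate i, p0.2)) := by
          intro p hp
          rw [Finset.mem_filter] at hp
          obtain ⟨m1, m2, m3⟩ := hmem p hp.1
          have hT := hFs p hp.1
          rw [hp.2] at hT
          obtain ⟨e1, i, e2⟩ := h.twoC_inj hk n1 n2 n3 m1 m2 m3 hT0 hT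
          rw [Finset.mem_image]
          refine ⟨i % (k + 1), Finset.mem_range.2 (Nat.mod_lt _ (by omega)), ?_⟩
          have hl : p0.1.length = k + 1 := (mem_cyc.1 n2).2
          ext1
          · simp only
            rw [← e2]
            conv_rhs => rw [← List.rotate_mod, hl]
          · exact e1
        refine (Finset.card_le_card hsub).trans ?_
        refine Finset.card_image_le.trans ?_
        simp
  calc A.card * W.card ≤ 2 * S.card := h1
    _ ≤ _ := by omega

/-- a vertex of degree more than `2k` is joined to every other one by at most one path with `k` vertices -/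
theorem PK.card_paths_le_of_big (h : PK G k) (hk : 1 ≤ k) [DecidableRel G.Adj] {a : V}
    (ha : 2 * k < G.degree a) :
    ((paths G k).filter (fun l => l.head? = some a)).card ≤ Fintype.card V := by
  rw [← Finset.card_univ]
  refine Finset.card_le_card_of_injOn (fun l => (l.getLast?).getD a) (fun _ _ => Finset.mem_coe.2 (Finset.mem_univ _)) ?_
  intro l hl m hm hlm
  simp only [Finset.coe_filter, Set.mem_ofPred_eq, mem_paths] at hl hm
  obtain ⟨⟨hl1, hl2⟩, hl3⟩ := hl
  obtain ⟨⟨hm1, hm2⟩, hm3⟩ := hm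
  have hln : l ≠ [] := by rintro rfl; simp at hl3
  have hmn : m ≠ [] := by rintro rfl; simp at hm3
  have hlast : l.getLast? = m.getLast? := by
    simp only [List.getLast?_eq_some_getLast hln, List.getLast?_eq_some_getLast hmn,
      Option.getD_some] at hlm ⊢
    rw [hlm]
  -- a neighbour outside
  have hex : ∃ b ∈ G.neighborFinset a, b ∉ l.toFinset ∪ m.toFinset := by
    apply Finset.exists_mem_notMem_of_card_lt_card
    rw [G.card_neighborFinset_eq_degree]
    refine lt_of_le_of_lt ?_ ha
    refine (Finset.card_union_le _ _).trans ?_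
    have h1 := List.toFinset_card_le l
    have h2 := List.toFinset_card_le m
    omega
  obtain ⟨b, hb, hb2⟩ := hex
  rw [SimpleGraph.mem_neighborFinset] at hb
  simp only [Finset.mem_union, List.mem_toFinset, not_or] at hb2
  have e : b :: l = b :: m := by
    refine h.uniq (isP_cons.2 ⟨hb2.1, hl1, ?_⟩) (isP_cons.2 ⟨hb2.2, hm1, ?_⟩) (by simp [hl2])
      (by simp [hm2]) (by simp) ?_ hk
    · intro y hy
      rw [hl3] at hy
      simp at hy
      subst hy
      exact hb.symm
    · intro y hy
      rw [hm3] at hy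
      simp at hy
      subst hy
      exact hb.symm
    · rw [show b :: l = [b] ++ l by rfl, show b :: m = [b] ++ m by rfl,
        List.getLast?_append_of_ne_nil _ hln, List.getLast?_append_of_ne_nil _ hmn, hlast]
  simpa using e

theorem card_cyc_eq_sum [Nonempty V] {n : ℕ}  :
    (cyc G n).card = ∑ a : V, (cycAt G n a).card := by
  obtain ⟨a0⟩ := (inferInstance : Nonempty V)
  rw [Finset.card_eq_sum_card_fiberwise (f := fun z : List V => (z.head?).getD a0)
    (t := Finset.univ) (fun _ _ => Finset.mem_coe.2 (Finset.mem_univ _))]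
  refine Finset.sum_congr rfl ?_
  intro a _
  congr 1
  ext z
  simp only [Finset.mem_filter, cycAt, and_congr_right_iff]
  intro hz
  have hne : z ≠ [] := (mem_cyc.1 hz).1.ne_nil
  obtain ⟨b, t, rfl⟩ : ∃ b t, z = b :: t := by
    cases z with
    | nil => exact absurd rfl hne
    | cons b t => exact ⟨b, t, rfl⟩
  simp

theorem PK.two_le_cycAt [Nontrivial V] (h : PK G k) (hk : 2 ≤ k) (a : V) :
    2 ≤ (cycAt G (k + 1) a).card := by
  obtain ⟨b, hb⟩ := exists_ne a
  obtain ⟨l, hl, hll, hlh, hlt⟩ := h.exists hb.symm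
  obtain ⟨x, y, t, rfl⟩ : ∃ x y t, l = x :: y :: t := by
    rcases l with _ | ⟨x, _ | ⟨y, t⟩⟩
    · simp at hll
    · simp at hll; omega
    · exact ⟨x, y, t, rfl⟩
  have hxa : x = a := by simpa using hlh
  subst hxa
  have hadj : G.Adj x y := by
    have := (isP_cons.1 hl).2.2 y (by simp)
    exact this
  obtain ⟨z, hz1, hz2, hz3, hz4⟩ := h.exists hadj.ne
  have hz : z ∈ cycAt G (k + 1) x := by
    rw [mem_cycAt]
    refine ⟨⟨hz1, ?_, by omega⟩, hz2, hz3⟩
    intro p hp q hq
    rw [hz4] at hp
    rw [hz3] at hq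
    simp at hp hq
    subst hp; subst hq
    exact hadj.symm
  have hne : z ≠ rho z := by
    intro he
    have hzn := hz1.1
    obtain ⟨b', t', rfl⟩ : ∃ b t, z = b :: t := by
      cases z with
      | nil => simp at hz2
      | cons b t => exact ⟨b, t, rfl⟩
    have e : t' = t'.reverse := by simpa [rho] using he
    have hl' : 2 ≤ t'.length := by simp at hz2; omega
    rw [List.nodup_cons] at hzn
    have h0 : 0 < t'.length := by omega
    have e2 : t'[0] = t'[t'.length - 1] := by
      have h3 : t'[0] = t'.reverse[0]'(by simpa using h0) := by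
        simp only [← e]
      rw [h3, List.getElem_reverse]
      simp
    have := (hzn.2.getElem_inj_iff).1 e2
    omega
  calc 2 = ({z, rho z} : Finset (List V)).card := (Finset.card_pair hne).symm
    _ ≤ _ := Finset.card_le_card (by
      intro w hw
      rcases Finset.mem_insert.1 hw with rfl | hw
      · exact hz
      · rw [Finset.mem_singleton] at hw
        subst hw
        exact rho_mem hz)

/-- a vertex through more than `2 (k+1)` directed cycles is on all of them but few -/
theorem PK.high (h : PK G k) (hk : 4 ≤ k) [Nontrivial V] (a : V)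
    (H1 : ∀ z w : List V, z ∈ cyc G (k + 1) → w ∈ cyc G (k + 1) → ∃ x, x ∈ z ∧ x ∈ w)
    (ha : 2 * (k + 1) < (cycAt G (k + 1) a).card) :
    (cyc G (k + 1)).card < (k + 1) * (cycAt G (k + 1) a).card + 2 * (k + 1) ^ 2 := by
  have h1 := h.card_mul_le hk a H1
  have h2 := h.card_paths_le_of_big (by omega) (a := a) (by
    rw [← h.card_cycAt (by omega) a]; omega)
  have h3 : 2 * Fintype.card V ≤ (cyc G (k + 1)).card := by
    rw [card_cyc_eq_sum, ← Finset.card_univ, mul_comm, ← smul_eq_mul, ← Finset.sum_const]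
    exact Finset.sum_le_sum (fun x _ => h.two_le_cycAt (by omega) x)
  have h4 := card_through_le G (k + 1) a
  have h5 := Finset.card_filter_add_card_filter_not (s := cyc G (k + 1)) (fun w => a ∈ w)
  set D := (cycAt G (k + 1) a).card
  set E := ((cyc G (k + 1)).filter (fun w => a ∉ w)).card
  set N := (cyc G (k + 1)).card
  set Q := ((paths G k).filter (fun l => l.head? = some a)).card
  set n := k + 1
  have h6 : D * E ≤ n * N := by
    calc D * E ≤ 2 * (n * Q) := h1
      _ ≤ 2 * (n * Fintype.card V) := by gcongr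
      _ = n * (2 * Fintype.card V) := by ring
      _ ≤ n * N := by gcongr
  have h7 : N ≤ E + n * D := by omega
  by_contra hcon
  push Not at hcon
  have hE : 2 * n ^ 2 ≤ E := by omega
  have h8 : D * E ≤ n * (E + n * D) := h6.trans (Nat.mul_le_mul_left _ h7)
  obtain ⟨d, hd⟩ : ∃ d, D = 2 * n + 1 + d := ⟨D - (2 * n + 1), by omega⟩
  obtain ⟨e, he⟩ : ∃ e, E = 2 * n ^ 2 + e := ⟨E - 2 * n ^ 2, by omega⟩
  rw [hd, he] at h8
  nlinarith [Nat.zero_le (n * e), Nat.zero_le (d * e), Nat.zero_le (n ^ 2 * d), Nat.zero_le e, sq_nonneg n, pow_pos (show 0 < n by omega) 2]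

/-- exchange of the arcs between two vertices -/
theorem PK.exchange (h : PK G k) (hk : 2 ≤ k) {a b : V} {t1 t2 s1 s2 : List V}
    (hz : a :: (t1 ++ b :: t2) ∈ cyc G (k + 1)) (hw : a :: (s1 ++ b :: s2) ∈ cyc G (k + 1))
    (hlen : t1.length = s1.length) (hdis : ∀ x ∈ t1, x ∉ a :: (s1 ++ b :: s2)) :
    a :: (t1 ++ b :: t2) = a :: (s1 ++ b :: s2) := by
  have hz' := (mem_cyc.1 hz).1
  have hw' := (mem_cyc.1 hw).1
  have hl := (mem_cyc.1 hw).2
  have e1 : a :: (t1 ++ b :: t2) = (a :: t1) ++ (b :: t2) := by simp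
  have e2 : a :: (s1 ++ b :: s2) = (a :: s1) ++ (b :: s2) := by simp
  rw [e1] at hz'
  rw [e2] at hw'
  have A := (isCyc_append (by simp) (by simp)).1 hz'
  have B := (isCyc_append (by simp) (by simp)).1 hw'
  have hy : (a :: t1) ++ (b :: s2) ∈ cyc G (k + 1) := by
    rw [mem_cyc]
    constructor
    · rw [isCyc_append (by simp) (by simp)]
      refine ⟨A.1, B.2.1, ?_, ?_, ?_, ?_⟩
      · intro x hx hx'
        rcases List.mem_cons.1 hx with rfl | hx
        · exact B.2.2.1 (by simp) hx'
        · exact hdis x hx (by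
            rcases List.mem_cons.1 hx' with rfl | hx'
            · simp
            · simp [hx'])
      · exact A.2.2.2.1
      · exact B.2.2.2.2.1
      · have := B.2.2.2.2.2
        simp at this ⊢
        omega
    · simp at hl ⊢; omega
  have c1 : (a :: t1) ++ (b :: s2) = a :: (s1 ++ b :: s2) := by
    refine h.cyc_dart (by omega) hy hw (by simp) ?_
    rw [e2, List.getLast?_append_of_ne_nil _ (by simp), List.getLast?_append_of_ne_nil _ (by simp)]
  have c2 : (a :: t1) ++ (b :: s2) = a :: (t1 ++ b :: t2) := by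
    refine h.cyc_take_two hk hy hz ?_
    have d1 : (a :: t1) ++ (b :: s2) = ((a :: t1) ++ [b]) ++ s2 := by simp
    have d2 : a :: (t1 ++ b :: t2) = ((a :: t1) ++ [b]) ++ t2 := by simp
    have d3 : 2 ≤ ((a :: t1) ++ [b]).length := by simp
    rw [d1, d2, List.take_append_of_le_length (l₁ := (a :: t1) ++ [b]) d3,
      List.take_append_of_le_length (l₁ := (a :: t1) ++ [b]) d3]
  rw [← c2, c1]

/-- the vertices lying on many directed cycles -/
noncomputable def Hi (G : SimpleGraph V) (k : ℕ) : Finset V :=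
  Finset.univ.filter (fun x => 2 * (k + 1) < (cycAt G (k + 1) x).card)

theorem mem_Hi {x : V} : x ∈ Hi G k ↔ 2 * (k + 1) < (cycAt G (k + 1) x).card := by
  simp [Hi]

/-- `b` is the first high vertex of `z` after its head, at distance `i + 1` -/
def Rec (G : SimpleGraph V) (k : ℕ) (a : V) (z : List V) (r : V × ℕ) : Prop :=
  ∃ t1 t2 : List V, z = a :: (t1 ++ r.1 :: t2) ∧ t1.length = r.2 ∧ (∀ x ∈ t1, x ∉ Hi G k) ∧
    r.1 ∈ Hi G k

theorem PK.card_cycAt_le (h : PK G k) (hk : 2 ≤ k) (a : V)
    (H : ∀ z ∈ cycAt G (k + 1) a, ∃ b ∈ z.tail, b ∈ Hi G k) :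
    (cycAt G (k + 1) a).card ≤ 2 * (k + 1) ^ 2 * ((Hi G k).card * k) := by
  have hex : ∀ z ∈ cycAt G (k + 1) a, ∃ r, Rec G k a z r := by
    intro z hz
    obtain ⟨t1, b, t2, e, hb, ht1⟩ := exists_first (fun x => x ∈ Hi G k) _ (H z hz)
    have hz' := mem_cycAt.1 hz
    obtain ⟨c, t, rfl⟩ : ∃ b t, z = b :: t := by
      cases z with
      | nil => exact absurd rfl hz'.1.ne_nil
      | cons b t => exact ⟨b, t, rfl⟩
    have hc : c = a := by simpa using hz'.2.2
    subst hc
    simp only [List.tail_cons] at e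
    exact ⟨(b, t1.length), t1, t2, by rw [e], rfl, ht1, hb⟩
  set F : List V → V × ℕ := fun z => if hz : ∃ r, Rec G k a z r then hz.choose else (a, 0) with hF
  have hFs : ∀ z ∈ cycAt G (k + 1) a, Rec G k a z (F z) := by
    intro z hz
    have := hex z hz
    simp only [hF, dif_pos this]
    exact this.choose_spec
  have hcard : ((Hi G k) ×ˢ (Finset.range k)).card = (Hi G k).card * k := by
    rw [Finset.card_product, Finset.card_range]
  rw [← hcard]
  refine Finset.card_le_mul_card_image_of_maps_to (f := F) ?_ _ ?_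
  · intro z hz
    obtain ⟨t1, t2, e, hl, ht1, hb⟩ := hFs z hz
    rw [Finset.mem_product, Finset.mem_range]
    refine ⟨hb, ?_⟩
    have := (mem_cycAt.1 hz).2.1
    rw [e] at this
    simp at this
    omega
  · intro r _
    rcases ((cycAt G (k + 1) a).filter (fun z => F z = r)).eq_empty_or_nonempty with he | ⟨z0, hz0⟩
    · rw [he]; simp
    · rw [Finset.mem_filter] at hz0
      have hR0 := hFs z0 hz0.1
      rw [hz0.2] at hR0
      obtain ⟨t1, t2, e, hl, ht1, hb⟩ := hR0
      have hlen : t1.length + 1 ≤ k := by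
        have := (mem_cycAt.1 hz0.1).2.1
        rw [e] at this
        simp at this
        omega
      have hsub : (cycAt G (k + 1) a).filter (fun z => F z = r) ⊆
          {z0} ∪ t1.toFinset.biUnion (fun x => (cycAt G (k + 1) a).filter (fun z => x ∈ z)) := by
        intro z hz
        rw [Finset.mem_filter] at hz
        have hR := hFs z hz.1
        rw [hz.2] at hR
        obtain ⟨s1, s2, e', hl', hs1, hb'⟩ := hR
        rw [Finset.mem_union, Finset.mem_singleton, Finset.mem_biUnion]
        by_cases hx : ∃ x ∈ t1, x ∈ z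
        · obtain ⟨x, hx1, hx2⟩ := hx
          exact Or.inr ⟨x, by simpa using hx1, by rw [Finset.mem_filter]; exact ⟨hz.1, hx2⟩⟩
        · left
          push Not at hx
          have c0 : z0 ∈ cyc G (k + 1) := (Finset.mem_filter.1 hz0.1).1
          have c1 : z ∈ cyc G (k + 1) := (Finset.mem_filter.1 hz.1).1
          rw [e] at c0
          rw [e'] at c1
          have := h.exchange hk c0 c1 (by rw [hl, hl']) (by
            intro x hx'
            rw [← e']
            exact hx x hx')
          rw [e, e', this]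
      refine (Finset.card_le_card hsub).trans ?_
      refine (Finset.card_union_le _ _).trans ?_
      rw [Finset.card_singleton]
      have hb2 : (t1.toFinset.biUnion (fun x => (cycAt G (k + 1) a).filter (fun z => x ∈ z))).card
          ≤ t1.toFinset.card * (2 * (k + 1)) := by
        refine Finset.card_biUnion_le_card_mul _ _ _ ?_
        intro x hx
        refine (card_at_through_le G (k + 1) a x).trans ?_
        have := ht1 x (by simpa using hx)
        rw [mem_Hi] at this
        omega
      have hb3 := List.toFinset_card_le t1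
      have hb4 : t1.toFinset.card * (2 * (k + 1)) ≤ (k - 1) * (2 * (k + 1)) := by
        gcongr; omega
      obtain ⟨q, rfl⟩ : ∃ q, k = q + 1 := ⟨k - 1, by omega⟩
      simp only [Nat.add_sub_cancel] at hb4
      nlinarith

/-- A `P(k)`-graph, `k ≥ 5`, has at most `2 (k+1)^5` vertices. -/
theorem PK.card_le5 [Nontrivial V] (h : PK G k) (hk : 4 ≤ k)
    (H2 : ∀ z w : List V, IsCyc G z → IsCyc G w → z.length = k + 1 → w.length = k + 1 →
      ∃ a b, a ≠ b ∧ a ∈ z ∧ b ∈ z ∧ a ∈ w ∧ b ∈ w) :
    Fintype.card V ≤ 2 * (k + 1) ^ 5 := by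
  have H1 : ∀ z w : List V, z ∈ cyc G (k + 1) → w ∈ cyc G (k + 1) → ∃ x, x ∈ z ∧ x ∈ w := by
    intro z w hz hw
    obtain ⟨a, b, hab, h1, h2, h3, h4⟩ := H2 z w (mem_cyc.1 hz).1 (mem_cyc.1 hw).1
      (mem_cyc.1 hz).2 (mem_cyc.1 hw).2
    exact ⟨a, h1, h3⟩
  have h3 : 2 * Fintype.card V ≤ (cyc G (k + 1)).card := by
    rw [card_cyc_eq_sum, ← Finset.card_univ, mul_comm, ← smul_eq_mul, ← Finset.sum_const]
    exact Finset.sum_le_sum (fun x _ => h.two_le_cycAt (by omega) x)
  by_cases hB : ∃ z0 ∈ cyc G (k + 1), ∀ a ∈ z0, ∀ b ∈ z0, a ∈ Hi G k → b ∈ Hi G k → a = b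
  · obtain ⟨z0, hz0, hz0'⟩ := hB
    have hsub : cyc G (k + 1) ⊆ (z0.toFinset.filter (fun x => x ∉ Hi G k)).biUnion
        (fun x => (cyc G (k + 1)).filter (fun z => x ∈ z)) := by
      intro w hw
      obtain ⟨a, b, hab, h1, h2, h4, h5⟩ := H2 z0 w (mem_cyc.1 hz0).1 (mem_cyc.1 hw).1
        (mem_cyc.1 hz0).2 (mem_cyc.1 hw).2
      rw [Finset.mem_biUnion]
      by_cases ha : a ∈ Hi G k
      · by_cases hb : b ∈ Hi G k
        · exact absurd (hz0' a h1 b h2 ha hb) hab
        · exact ⟨b, by simp [h2, hb], by simp [hw, h5]⟩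
      · exact ⟨a, by simp [h1, ha], by simp [hw, h4]⟩
    have hN : (cyc G (k + 1)).card ≤ (k + 1) * ((k + 1) * (2 * (k + 1))) := by
      refine (Finset.card_le_card hsub).trans ?_
      refine (Finset.card_biUnion_le_card_mul _ _ ((k + 1) * (2 * (k + 1))) ?_).trans ?_
      · intro x hx
        refine (card_through_le G (k + 1) x).trans ?_
        have := (Finset.mem_filter.1 hx).2
        rw [mem_Hi] at this
        gcongr; omega
      · gcongr
        refine (Finset.card_filter_le _ _).trans ?_
        have := List.toFinset_card_le z0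
        rw [(mem_cyc.1 hz0).2] at this
        exact this
    have h7 : (k + 1) ^ 3 ≤ (k + 1) ^ 5 := Nat.pow_le_pow_right (by omega) (by omega)
    nlinarith
  · push Not at hB
    have hne : (cyc G (k + 1)).Nonempty := by
      rw [← Finset.card_pos]
      have : 0 < Fintype.card V := Fintype.card_pos
      omega
    obtain ⟨z, hz⟩ := hne
    obtain ⟨a, _, b, _, ha, _, _⟩ := hB z hz
    have h5 := h.card_cycAt_le (by omega) a (by
      intro w hw
      have hw' : w ∈ cyc G (k + 1) := (Finset.mem_filter.1 hw).1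
      obtain ⟨p, hp, q, hq, hp1, hq1, hpq⟩ := hB w hw'
      have hw3 := mem_cycAt.1 hw
      obtain ⟨c, t, rfl⟩ : ∃ b t, w = b :: t := by
        cases w with
        | nil => exact absurd rfl hw3.1.ne_nil
        | cons b t => exact ⟨b, t, rfl⟩
      have hc : c = a := by simpa using hw3.2.2
      subst hc
      rcases List.mem_cons.1 hp with rfl | hp
      · rcases List.mem_cons.1 hq with rfl | hq
        · exact absurd rfl hpq
        · exact ⟨q, hq, hq1⟩
      · exact ⟨p, hp, hp1⟩)
    have h6 := h.high hk a H1 (mem_Hi.1 ha)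
    have h7 : (Hi G k).card * (cyc G (k + 1)).card ≤
        (k + 1) * (cyc G (k + 1)).card + (Hi G k).card * (2 * (k + 1) ^ 2) := by
      have e1 : (Hi G k).card * (cyc G (k + 1)).card ≤
          ∑ x ∈ Hi G k, ((k + 1) * (cycAt G (k + 1) x).card + 2 * (k + 1) ^ 2) := by
        rw [← smul_eq_mul, ← Finset.sum_const]
        exact Finset.sum_le_sum (fun x hx => (h.high hk x H1 (mem_Hi.1 hx)).le)
      refine e1.trans ?_
      rw [Finset.sum_add_distrib, Finset.sum_const, smul_eq_mul, ← Finset.mul_sum]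
      gcongr
      rw [card_cyc_eq_sum]
      exact Finset.sum_le_sum_of_subset (Finset.subset_univ _)
    set N := (cyc G (k + 1)).card
    set H := (Hi G k).card
    set D := (cycAt G (k + 1) a).card
    have hn5 : (k + 1) ^ 2 ≤ (k + 1) ^ 4 := Nat.pow_le_pow_right (by omega) (by omega)
    have hn6 : (k + 1) ^ 4 ≤ (k + 1) ^ 5 := Nat.pow_le_pow_right (by omega) (by omega)
    by_cases hN : N < 4 * (k + 1) ^ 2
    · omega
    · push Not at hN
      have hH : H ≤ 2 * (k + 1) := by
        by_contra hcon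
        push Not at hcon
        obtain ⟨e, he⟩ : ∃ e, H = 2 * (k + 1) + 1 + e := ⟨H - (2 * (k + 1) + 1), by omega⟩
        obtain ⟨f, hf⟩ : ∃ f, N = 4 * (k + 1) ^ 2 + f := ⟨N - 4 * (k + 1) ^ 2, by omega⟩
        rw [he, hf] at h7
        have p1 : 0 < (k + 1) ^ 2 := by positivity
        nlinarith [Nat.zero_le (e * f), Nat.zero_le (k * f), Nat.zero_le (e * (k + 1) ^ 2), Nat.zero_le (k * (k + 1) ^ 2)]
      have h8 : D ≤ 2 * (k + 1) ^ 2 * (2 * (k + 1) * k) := h5.trans (by gcongr)
      have h9 : N < (k + 1) * (2 * (k + 1) ^ 2 * (2 * (k + 1) * k)) + 2 * (k + 1) ^ 2 :=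
        lt_of_lt_of_le h6 (by gcongr)
      have e3 : (k + 1) * (2 * (k + 1) ^ 2 * (2 * (k + 1) * k)) + 4 * (k + 1) ^ 4 = 4 * (k + 1) ^ 5 := by
        ring
      have : 0 < (k + 1) ^ 4 := by positivity
      omega

theorem PK.card_le [Nontrivial V] (h : PK G k) (hk : 5 ≤ k)
    (H2 : ∀ z w : List V, IsCyc G z → IsCyc G w → z.length = k + 1 → w.length = k + 1 →
      ∃ a b, a ≠ b ∧ a ∈ z ∧ b ∈ z ∧ a ∈ w ∧ b ∈ w) :
    Fintype.card V ≤ 4 * (k + 1) ^ 6 := by
  have h1 := h.card_le5 (by omega) H2
  have h2 : (k + 1) ^ 5 ≤ (k + 1) ^ 6 := Nat.pow_le_pow_right (by omega) (by omega)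
  omega

end Pool.Agent.Work.KZ
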