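import Pool.Agent.Work.MP_f0e709_co.Defs

/-! Rotation forests: the one-level and the two-level forest lemma (P(k)-graphs). -/

set_option autoImplicit false

namespace Pool.Agent.Work.KZ

open Finset

/-- A graph whose edges can be ordered by rank so that every edge has a cut crossed by no edge of
larger or equal rank is a forest. -/
theorem cut_lemma {α β : Type*} (rank : β → ℕ) (s t : β → α) (C : β → α → Prop) :
    ∀ (N : ℕ) (E : Finset β) (X : Finset α), E.card = N → X.Nonempty →
      (∀ e ∈ E, s e ∈ X ∧ t e ∈ X) → (∀ e ∈ E, C e (s e) ∧ ¬ C e (t e)) →
      (∀ e ∈ E, ∀ e' ∈ E, e ≠ e' → rank e ≤ rank e' → (C e (s e') ↔ C e (t e'))) →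
      E.card + 1 ≤ X.card := by
  classical
  intro N
  induction N using Nat.strong_induction_on with
  | _ N ih =>
    intro E X hN hX hst hC hcut
    rcases E.eq_empty_or_nonempty with rfl | hE
    · simpa using hX.card_pos
    obtain ⟨e, he, hmin⟩ := E.exists_min_image rank hE
    set X1 := X.filter (fun x => C e x) with hX1
    set X2 := X.filter (fun x => ¬ C e x) with hX2
    set E0 := E.erase e with hE0
    set E1 := E0.filter (fun e' => C e (s e')) with hE1
    set E2 := E0.filter (fun e' => ¬ C e (s e')) with hE2
    have hXc : X1.card + X2.card = X.card := by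
      rw [hX1, hX2]
      exact card_filter_add_card_filter_not _
    have hEc : E1.card + E2.card = E0.card := by
      rw [hE1, hE2]
      exact card_filter_add_card_filter_not _
    have hE0c : E0.card + 1 = E.card := card_erase_add_one he
    have hiff : ∀ e' ∈ E0, (C e (s e') ↔ C e (t e')) := by
      intro e' he'
      rw [hE0, mem_erase] at he'
      exact hcut e he e' he'.2 (Ne.symm he'.1) (hmin e' he'.2)
    have hsub1 : E1 ⊆ E := (filter_subset _ _).trans (erase_subset _ _)
    have hsub2 : E2 ⊆ E := (filter_subset _ _).trans (erase_subset _ _)
    have h1 : E1.card + 1 ≤ X1.card := by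
      refine ih E1.card (by omega) E1 X1 rfl ⟨s e, ?_⟩ ?_ ?_ ?_
      · rw [hX1, mem_filter]
        exact ⟨(hst e he).1, (hC e he).1⟩
      · intro e' he'
        have h' := mem_filter.1 he'
        have := hst e' (hsub1 he')
        rw [hX1]
        simp only [mem_filter]
        exact ⟨⟨this.1, h'.2⟩, this.2, (hiff e' h'.1).1 h'.2⟩
      · exact fun e' he' => hC e' (hsub1 he')
      · exact fun e' he' e'' he'' => hcut e' (hsub1 he') e'' (hsub1 he'')
    have h2 : E2.card + 1 ≤ X2.card := by
      refine ih E2.card (by omega) E2 X2 rfl ⟨t e, ?_⟩ ?_ ?_ ?_
      · rw [hX2, mem_filter]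
        exact ⟨(hst e he).2, (hC e he).2⟩
      · intro e' he'
        have h' := mem_filter.1 he'
        have := hst e' (hsub2 he')
        rw [hX2]
        simp only [mem_filter]
        exact ⟨⟨this.1, h'.2⟩, this.2, fun h'' => h'.2 ((hiff e' h'.1).2 h'')⟩
      · exact fun e' he' => hC e' (hsub2 he')
      · exact fun e' he' e'' he'' => hcut e' (hsub2 he') e'' (hsub2 he'')
    omega

variable {V : Type*} {G : SimpleGraph V}

theorem IsCl.rev {x : List V × List V} (h : IsCl G x) :
    IsCl G (x.1, x.2.reverse) := by
  obtain ⟨h1, h2, h3⟩ := h
  have h1' := isP_append.1 h1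
  refine ⟨isP_append.2 ⟨h1'.1, h1'.2.1.reverse, ?_, ?_⟩, by simpa using h2, ?_⟩
  · intro a ha hb
    exact h1'.2.2.1 ha (by simpa using hb)
  · intro a ha b hb
    exact h3 a ha b (by simpa using hb)
  · intro a ha b hb
    exact h1'.2.2.2 a ha b (by simpa using hb)

/-- orientation of a closing -/
def Ori (f : V → ℕ) (q : List V) : Prop := ∀ a ∈ q.head?, ∀ b ∈ q.getLast?, f a < f b

theorem ori_or {f : V → ℕ} (hf : Function.Injective f) {q : List V} (hq : q.Nodup)
    (h2 : 2 ≤ q.length) : Ori f q.reverse ↔ ¬ Ori f q := by
  obtain ⟨a, q', rfl⟩ : ∃ a q', q = a :: q' := by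
    cases q with
    | nil => simp at h2
    | cons a q' => exact ⟨a, q', rfl⟩
  have hq' : q' ≠ [] := by
    rintro rfl
    simp at h2
  have hl : (a :: q').getLast? = some (q'.getLast hq') := by
    rw [List.getLast?_eq_some_getLast (by simp), List.getLast_cons hq']
  have hne : a ≠ q'.getLast hq' := by
    rintro h
    exact (List.nodup_cons.1 hq).1 (h ▸ List.getLast_mem hq')
  have hfne : f a ≠ f (q'.getLast hq') := fun h => hne (hf h)
  unfold Ori
  rw [List.head?_reverse, List.getLast?_reverse, hl]
  simp only [List.head?_cons, Option.mem_some_iff, forall_eq']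
  omega

theorem take_of_prefix_le {l m : List V} {s : ℕ} (h : s ≤ l.length) :
    (l ++ m).take s = l.take s := by
  rw [List.take_append_of_le_length h]

/-- compatibility of the cuts of two closings of the same level -/
theorem cut_closings {f : V → ℕ} {s L : ℕ} {p q p' q' : List V}
    (hU : ∀ l m : List V, IsP G l → IsP G m → l.length = L → m.length = L →
      l.take s = p.take s → l.take s = m.take s → l.getLast? = m.getLast? → l = m)
    (h : IsCl G (p, q)) (h' : IsCl G (p', q'))
    (hL : p.length + q.length = L) (hL' : p'.length + q'.length = L) (hsp : s ≤ p.length)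
    (ho : Ori f q) (ho' : Ori f q') (hne : (p, q) ≠ (p', q')) (hle : p.length ≤ p'.length) :
    ((p ++ q.take 1) <+: (p' ++ q') ↔ (p ++ q.take 1) <+: (p' ++ q'.reverse)) := by
  have hr := h.rev
  have hr' := h'.rev
  obtain ⟨a, q0, rfl⟩ : ∃ a q0, q = a :: q0 := by
    cases q with
    | nil => exact absurd h.2.1 (by simp)
    | cons a q' => exact ⟨a, q', rfl⟩
  rcases Nat.lt_or_eq_of_le hle with hlt | heq
  · have hlen : (p ++ (a :: q0).take 1).length ≤ p'.length := by
      simp
      omega
    constructor
    · intro h1
      exact (List.prefix_of_prefix_length_le h1 (List.prefix_append _ _) hlen).trans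
        (List.prefix_append _ _)
    · intro h1
      exact (List.prefix_of_prefix_length_le h1 (List.prefix_append _ _) hlen).trans
        (List.prefix_append _ _)
  · have key : ∀ w : List V, (p ++ (a :: q0).take 1) <+: (p' ++ w) → p = p' ∧ w.head? = some a := by
      intro w hw
      obtain ⟨t, ht⟩ := hw
      rw [List.append_assoc] at ht
      have := List.append_inj ht heq
      refine ⟨this.1, ?_⟩
      rw [← this.2]
      simp
    have hlast : (p ++ (a :: q0).reverse).getLast? = some a := by
      rw [List.getLast?_append_of_ne_nil _ (by simp)]
      rw [List.getLast?_reverse]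
      rfl
    have n1 : ¬ (p ++ (a :: q0).take 1) <+: (p' ++ q') := by
      intro hh
      obtain ⟨rfl, h2⟩ := key _ hh
      have hq'ne : q' ≠ [] := by
        rintro rfl
        simp at h2
      have e := hU (p ++ (a :: q0).reverse) (p ++ q'.reverse) hr.1 hr'.1
        (by simpa using hL) (by simpa using hL') (take_of_prefix_le hsp)
        (by rw [take_of_prefix_le hsp, take_of_prefix_le hsp])
        (by
          rw [hlast, List.getLast?_append_of_ne_nil _ (by simpa using hq'ne),
            List.getLast?_reverse, h2])
      have e2 := List.append_cancel_left e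
      have e3 : a :: q0 = q' := List.reverse_injective e2
      exact hne (by rw [e3])
    have n2 : ¬ (p ++ (a :: q0).take 1) <+: (p' ++ q'.reverse) := by
      intro hh
      obtain ⟨rfl, h2⟩ := key _ hh
      have hq'ne : q' ≠ [] := by
        rintro rfl
        simp at h2
      rw [List.head?_reverse] at h2
      have e := hU (p ++ (a :: q0).reverse) (p ++ q') hr.1 h'.1
        (by simpa using hL) (by simpa using hL') (take_of_prefix_le hsp)
        (by rw [take_of_prefix_le hsp, take_of_prefix_le hsp])
        (by rw [hlast, List.getLast?_append_of_ne_nil _ hq'ne, h2])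
      have e2 : (a :: q0).reverse = q' := List.append_cancel_left e
      -- orientation
      have hb : ∃ b, (a :: q0).getLast? = some b := by
        rw [List.getLast?_eq_some_getLast (by simp)]
        exact ⟨_, rfl⟩
      obtain ⟨b, hb⟩ := hb
      have o1 := ho a (by simp) b hb
      have o2 := ho' b (by rw [← e2, List.head?_reverse]; exact hb) a
        (by rw [← e2, List.getLast?_reverse]; simp)
      omega
    exact ⟨fun h1 => absurd h1 n1, fun h1 => absurd h1 n2⟩

section finite

variable [Finite V]

theorem exists_inj_nat (V : Type*) [Finite V] : ∃ f : V → ℕ, Function.Injective f := by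
  obtain ⟨n, ⟨e⟩⟩ := Finite.exists_equiv_fin V
  exact ⟨fun v => (e v : ℕ), fun a b h => e.injective (Fin.ext h)⟩

open Classical in
theorem card_closings_ori {f : V → ℕ} (hf : Function.Injective f) {n s : ℕ} (hs : 1 ≤ s)
    (P : List V → Prop) :
    ((closings G n s).filter (fun x => P x.1)).card
      = 2 * ((closings G n s).filter (fun x => P x.1 ∧ Ori f x.2)).card := by
  set A := (closings G n s).filter (fun x => P x.1) with hA
  have h1 : (A.filter (fun x => Ori f x.2)).card + (A.filter (fun x => ¬ Ori f x.2)).card
      = A.card := card_filter_add_card_filter_not _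
  have h2 : (A.filter (fun x => Ori f x.2))
      = (closings G n s).filter (fun x => P x.1 ∧ Ori f x.2) := by
    rw [hA, filter_filter]
  have hmem : ∀ x ∈ A, (x.1, x.2.reverse) ∈ A ∧ (Ori f x.2.reverse ↔ ¬ Ori f x.2) := by
    intro x hx
    rw [hA, mem_filter, mem_closings] at hx
    obtain ⟨⟨hcl, hl, hsx⟩, hP⟩ := hx
    have hx1 : x.1 ≠ [] := by
      intro h
      rw [h] at hsx
      simp at hsx
      omega
    refine ⟨?_, ori_or hf (isP_append.1 hcl.1).2.1.1 hcl.2.1⟩
    rw [hA, mem_filter, mem_closings]
    exact ⟨⟨hcl.rev, by simpa using hl, hsx⟩, hP⟩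
  have h3 : (A.filter (fun x => ¬ Ori f x.2)).card = (A.filter (fun x => Ori f x.2)).card := by
    refine card_nbij' (fun x => (x.1, x.2.reverse)) (fun x => (x.1, x.2.reverse)) ?_ ?_ ?_ ?_
    · intro x hx
      have hx' := mem_filter.1 (mem_coe.1 hx)
      have := hmem x hx'.1
      exact mem_coe.2 (mem_filter.2 ⟨this.1, this.2.2 hx'.2⟩)
    · intro x hx
      have hx' := mem_filter.1 (mem_coe.1 hx)
      have := hmem x hx'.1
      refine mem_coe.2 (mem_filter.2 ⟨this.1, fun h => ?_⟩)
      exact (this.2.1 h) hx'.2
    · intro x _
      simp
    · intro x _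
      simp
  rw [h3] at h1
  rw [← h1, ← h2]
  ring

open Classical in
/-- one level, rooted version for an arbitrary family of prefixes -/
theorem forest_one_gen {n s : ℕ} (hs : 1 ≤ s) (P : List V → Prop)
    (hP : ∀ p q : List V, s ≤ p.length → (P (p ++ q) ↔ P p))
    (hU : ∀ l m : List V, P l → P m → IsP G l → IsP G m → l.length = n → m.length = n →
      l.take s = m.take s → l.getLast? = m.getLast? → l = m)
    (hne : ∃ l : List V, IsP G l ∧ l.length = n ∧ P l) :
    ((closings G n s).filter (fun x => P x.1)).card + 2
      ≤ 2 * ((paths G n).filter (fun l => P l)).card := by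
  obtain ⟨f, hf⟩ := exists_inj_nat V
  rw [card_closings_ori hf hs]
  set E := (closings G n s).filter (fun x => P x.1 ∧ Ori f x.2) with hE
  set X := (paths G n).filter (fun l => P l) with hX
  have hEm : ∀ x ∈ E, IsCl G x ∧ x.1.length + x.2.length = n ∧ s ≤ x.1.length ∧ P x.1
      ∧ Ori f x.2 ∧ x.1 ≠ [] := by
    intro x hx
    rw [hE, mem_filter, mem_closings] at hx
    refine ⟨hx.1.1, hx.1.2.1, hx.1.2.2, hx.2.1, hx.2.2, ?_⟩
    intro h
    have := hx.1.2.2
    rw [h] at this
    simp at this
    omega
  have main : E.card + 1 ≤ X.card := by
    refine cut_lemma (fun x : List V × List V => x.1.length) (fun x => x.1 ++ x.2)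
      (fun x => x.1 ++ x.2.reverse)
      (fun x l => l.take s = x.1.take s ∧ (x.1 ++ x.2.take 1) <+: l) E.card E X rfl ?_ ?_ ?_ ?_
    · obtain ⟨l, h1, h2, h3⟩ := hne
      exact ⟨l, by rw [hX, mem_filter, mem_paths]; exact ⟨⟨h1, h2⟩, h3⟩⟩
    · intro x hx
      obtain ⟨h1, h2, h3, h4, _, h6⟩ := hEm x hx
      rw [hX]
      simp only [mem_filter, mem_paths]
      refine ⟨⟨⟨h1.1, by simpa using h2⟩, (hP _ _ h3).2 h4⟩, ⟨(h1.rev).1, by simpa using h2⟩,
        (hP _ _ h3).2 h4⟩
    · intro x hx
      obtain ⟨h1, h2, h3, h4, _, h6⟩ := hEm x hx
      refine ⟨⟨take_of_prefix_le h3, ?_⟩, ?_⟩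
      · rw [List.prefix_append_right_inj]
        exact List.take_prefix _ _
      · rintro ⟨-, hh⟩
        rw [List.prefix_append_right_inj] at hh
        obtain ⟨p, q⟩ := x
        obtain ⟨a, q0, rfl⟩ : ∃ a q0, q = a :: q0 := by
          cases q with
          | nil => exact absurd h1.2.1 (by simp)
          | cons a q' => exact ⟨a, q', rfl⟩
        have hq0 : q0 ≠ [] := by
          rintro rfl
          exact absurd h1.2.1 (by simp)
        obtain ⟨t, ht⟩ := hh
        have hb : (a :: q0).reverse.head? = some a := by
          have ht' : [a] ++ t = (a :: q0).reverse := by simpa using ht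
          rw [← ht']
          simp
        rw [List.head?_reverse, List.getLast?_eq_some_getLast (by simp), List.getLast_cons hq0,
          Option.some_inj] at hb
        have hnd := (isP_append.1 h1.1).2.1.1
        exact (List.nodup_cons.1 hnd).1 (hb ▸ List.getLast_mem hq0)
    · intro x hx y hy hxy hle
      obtain ⟨h1, h2, h3, h4, h5, h6⟩ := hEm x hx
      obtain ⟨g1, g2, g3, g4, g5, g6⟩ := hEm y hy
      obtain ⟨p, q⟩ := x
      obtain ⟨p', q'⟩ := y
      simp only [take_of_prefix_le g3]
      by_cases hc : List.take s p' = List.take s p
      · have hU0 : ∀ l m : List V, IsP G l → IsP G m → l.length = n → m.length = n →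
            l.take s = p.take s → l.take s = m.take s → l.getLast? = m.getLast? → l = m := by
          intro l m hl hm hll hml hlp hlm hlast
          have hsn : s ≤ n := by
            simp only at h2 h3
            omega
          have e1 : P l := by
            have : P (l.take s ++ l.drop s) := by
              rw [hP _ _ (by simp; omega), hlp]
              have := (hP (p.take s) (p.drop s) (by simpa using h3))
              rw [List.take_append_drop] at this
              exact this.1 h4
            rwa [List.take_append_drop] at this
          have e2 : P m := by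
            have : P (m.take s ++ m.drop s) := by
              rw [hP _ _ (by simp; omega), ← hlm, hlp]
              have := (hP (p.take s) (p.drop s) (by simpa using h3))
              rw [List.take_append_drop] at this
              exact this.1 h4
            rwa [List.take_append_drop] at this
          exact hU l m e1 e2 hl hm hll hml hlm hlast
        have := cut_closings (f := f) hU0 h1 g1 h2 g2 h3 h5 g5 hxy hle
        constructor
        · rintro ⟨i1, i2⟩
          exact ⟨i1, this.1 i2⟩
        · rintro ⟨i1, i2⟩
          exact ⟨i1, this.2 i2⟩
      · constructor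
        · rintro ⟨i1, _⟩
          exact absurd i1 hc
        · rintro ⟨i1, _⟩
          exact absurd i1 hc
  omega

open Classical in
/-- the two-level forest lemma -/
theorem forest_two_aux {n s : ℕ} (hs : 1 ≤ s) (hsn : s ≤ n)
    (hU : ∀ l m : List V, IsP G l → IsP G m → l.length = n → m.length = n →
      l.take s = m.take s → l.getLast? = m.getLast? → l = m)
    (hU' : ∀ l m : List V, IsP G l → IsP G m → l.length = n + 1 → m.length = n + 1 →
      l.take s = m.take s → l.getLast? = m.getLast? → l = m) :
    (closings G n s).card + (closings G (n + 1) s).card ≤ 2 * (paths G n).card := by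
  obtain ⟨f, hf⟩ := exists_inj_nat V
  have c1 := card_closings_ori (G := G) hf (n := n) hs (fun _ => True)
  have c2 := card_closings_ori (G := G) hf (n := n + 1) hs (fun _ => True)
  simp only [filter_true, true_and] at c1 c2
  rw [c1, c2]
  set B1 := (closings G n s).filter (fun x => Ori f x.2) with hB1
  set B2 := (closings G (n + 1) s).filter (fun x => Ori f x.2) with hB2
  set A := (paths G (n + 1)).image (fun l => (l.dropLast, l.drop n)) with hA
  set E := (A ∪ B1) ∪ B2 with hE
  set X := paths G n ∪ paths G (n + 1) with hX
  have hAm : ∀ x ∈ A, x.1.length = n ∧ x.2.length = 1 ∧ IsP G (x.1 ++ x.2) := by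
    intro x hx
    rw [hA, mem_image] at hx
    obtain ⟨l, hl, rfl⟩ := hx
    rw [mem_paths] at hl
    have e1 : l.dropLast = l.take n := by
      rw [List.dropLast_eq_take, hl.2]
      rfl
    refine ⟨by simp [hl.2], by simp [hl.2], ?_⟩
    simp only
    rw [e1, List.take_append_drop]
    exact hl.1
  have hAcard : A.card = (paths G (n + 1)).card := by
    rw [hA]
    apply card_image_of_injOn
    intro l hl m hm hlm
    have hl' := mem_paths.1 (mem_coe.1 hl)
    have hm' := mem_paths.1 (mem_coe.1 hm)
    have e1 : l.dropLast = l.take n := by
      rw [List.dropLast_eq_take, hl'.2]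
      rfl
    have e2 : m.dropLast = m.take n := by
      rw [List.dropLast_eq_take, hm'.2]
      rfl
    simp only [Prod.mk.injEq] at hlm
    rw [← List.take_append_drop n l, ← List.take_append_drop n m, ← e1, ← e2, hlm.1, hlm.2]
  have hBm : ∀ x, x ∈ B1 ∨ x ∈ B2 → IsCl G x ∧ (x.1.length + x.2.length = n ∨
      x.1.length + x.2.length = n + 1) ∧ s ≤ x.1.length ∧ Ori f x.2 ∧ 2 ≤ x.2.length := by
    rintro x (hx | hx)
    · rw [hB1, mem_filter, mem_closings] at hx
      exact ⟨hx.1.1, Or.inl hx.1.2.1, hx.1.2.2, hx.2, hx.1.1.2.1⟩
    · rw [hB2, mem_filter, mem_closings] at hx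
      exact ⟨hx.1.1, Or.inr hx.1.2.1, hx.1.2.2, hx.2, hx.1.1.2.1⟩
  have hXcard : X.card = (paths G n).card + (paths G (n + 1)).card := by
    rw [hX]
    apply card_union_of_disjoint
    rw [disjoint_left]
    intro l h1 h2
    rw [mem_paths] at h1 h2
    omega
  have hEcard : E.card = (paths G (n + 1)).card + B1.card + B2.card := by
    rw [hE, card_union_of_disjoint, card_union_of_disjoint, hAcard]
    · rw [disjoint_left]
      intro x h1 h2
      have := (hAm x h1).2.1
      have := (hBm x (Or.inl h2)).2.2.2.2
      omega
    · rw [disjoint_left]
      intro x h1 h2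
      rcases mem_union.1 h1 with h1 | h1
      · have := (hAm x h1).2.1
        have := (hBm x (Or.inr h2)).2.2.2.2
        omega
      · rw [hB1, mem_filter, mem_closings] at h1
        rw [hB2, mem_filter, mem_closings] at h2
        omega
  have main : E.card ≤ X.card := by
    rcases X.eq_empty_or_nonempty with hX0 | hX0
    · have e1 : paths G n = ∅ := by
        rw [← subset_empty, ← hX0, hX]
        exact subset_union_left
      have e2 : paths G (n + 1) = ∅ := by
        rw [← subset_empty, ← hX0, hX]
        exact subset_union_right
      have e3 : B1 = ∅ := by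
        rw [eq_empty_iff_forall_notMem]
        intro x hx
        have hx' := hx
        rw [hB1, mem_filter, mem_closings] at hx'
        have : x.1 ++ x.2 ∈ paths G n := by
          rw [mem_paths]
          exact ⟨hx'.1.1.1, by simpa using hx'.1.2.1⟩
        rw [e1] at this
        simp at this
      have e4 : B2 = ∅ := by
        rw [eq_empty_iff_forall_notMem]
        intro x hx
        have hx' := hx
        rw [hB2, mem_filter, mem_closings] at hx'
        have : x.1 ++ x.2 ∈ paths G (n + 1) := by
          rw [mem_paths]
          exact ⟨hx'.1.1.1, by simpa using hx'.1.2.1⟩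
        rw [e2] at this
        simp at this
      rw [hEcard, e2, e3, e4]
      simp
    · refine le_of_lt ?_
      refine cut_lemma (fun x : List V × List V => if x.2.length = 1 then 0 else x.1.length)
        (fun x => x.1 ++ x.2)
        (fun x => if x.2.length = 1 then x.1 else x.1 ++ x.2.reverse)
        (fun x l => l.take s = x.1.take s ∧ (if x.2.length = 1 then (∀ a ∈ x.2, a ∈ l) else
          (l.length = x.1.length + x.2.length ∧ (x.1 ++ x.2.take 1) <+: l)))
        E.card E X rfl hX0 ?_ ?_ ?_
      · intro x hx
        rw [hE, mem_union, mem_union, or_assoc] at hx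
        rcases hx with hx | hx
        · obtain ⟨h1, h2, h3⟩ := hAm x hx
          rw [hX, if_pos h2]
          simp only [mem_union, mem_paths]
          exact ⟨Or.inr ⟨h3, by simp [h1, h2]⟩, Or.inl ⟨h3.left, h1⟩⟩
        · obtain ⟨h1, h2, h3, h4, h5⟩ := hBm x hx
          rw [hX, if_neg (by omega)]
          simp only [mem_union, mem_paths]
          refine ⟨?_, ?_⟩
          · rcases h2 with h2 | h2
            · exact Or.inl ⟨h1.1, by simpa using h2⟩
            · exact Or.inr ⟨h1.1, by simpa using h2⟩
          · rcases h2 with h2 | h2
            · exact Or.inl ⟨h1.rev.1, by simpa using h2⟩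
            · exact Or.inr ⟨h1.rev.1, by simpa using h2⟩
      · intro x hx
        rw [hE, mem_union, mem_union, or_assoc] at hx
        rcases hx with hx | hx
        · obtain ⟨h1, h2, h3⟩ := hAm x hx
          simp only [if_pos h2]
          refine ⟨⟨take_of_prefix_le (by omega), fun a ha => List.mem_append_right _ ha⟩, ?_⟩
          rintro ⟨-, hh⟩
          obtain ⟨p, q⟩ := x
          obtain ⟨z, rfl⟩ := List.length_eq_one_iff.1 h2
          exact (isP_append.1 h3).2.2.1 (hh z (by simp)) (by simp)
        · obtain ⟨h1, h2, h3, h4, h5⟩ := hBm x hx
          have h21 : ¬ x.2.length = 1 := by omega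
          simp only [if_neg h21]
          refine ⟨⟨take_of_prefix_le h3, by simp, ?_⟩, ?_⟩
          · rw [List.prefix_append_right_inj]
            exact List.take_prefix _ _
          · rintro ⟨-, -, hh⟩
            rw [List.prefix_append_right_inj] at hh
            obtain ⟨p, q⟩ := x
            obtain ⟨a, q0, rfl⟩ : ∃ a q0, q = a :: q0 := by
              cases q with
              | nil => exact absurd h5 (by simp)
              | cons a q' => exact ⟨a, q', rfl⟩
            have hq0 : q0 ≠ [] := by
              rintro rfl
              exact absurd h5 (by simp)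
            obtain ⟨t, ht⟩ := hh
            have hb : (a :: q0).reverse.head? = some a := by
              have ht' : [a] ++ t = (a :: q0).reverse := by simpa using ht
              rw [← ht']
              simp
            rw [List.head?_reverse, List.getLast?_eq_some_getLast (by simp),
              List.getLast_cons hq0, Option.some_inj] at hb
            have hnd := (isP_append.1 h1.1).2.1.1
            exact (List.nodup_cons.1 hnd).1 (hb ▸ List.getLast_mem hq0)
      · intro x hx y hy hxy hle
        rw [hE, mem_union, mem_union, or_assoc] at hx hy
        -- the classes of the two end points of `y` agree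
        have hcls : (y.1 ++ y.2).take s = y.1.take s ∧
            (if y.2.length = 1 then y.1 else y.1 ++ y.2.reverse).take s = y.1.take s := by
          rcases hy with hy | hy
          · obtain ⟨h1, h2, h3⟩ := hAm y hy
            rw [if_pos h2]
            exact ⟨take_of_prefix_le (by omega), rfl⟩
          · obtain ⟨h1, h2, h3, h4, h5⟩ := hBm y hy
            rw [if_neg (by omega)]
            exact ⟨take_of_prefix_le h3, take_of_prefix_le h3⟩
        simp only [hcls.1, hcls.2]
        by_cases hc : List.take s y.1 = List.take s x.1
        swap
        · constructor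
          · rintro ⟨i1, _⟩
            exact absurd i1 hc
          · rintro ⟨i1, _⟩
            exact absurd i1 hc
        simp only [hc, true_and]
        rcases hx with hx | hx
        · -- extension edge
          obtain ⟨h1, h2, h3⟩ := hAm x hx
          simp only [if_pos h2]
          obtain ⟨p, q⟩ := x
          obtain ⟨z, rfl⟩ := List.length_eq_one_iff.1 h2
          simp only [List.mem_singleton, forall_eq]
          rcases hy with hy | hy
          · obtain ⟨g1, g2, g3⟩ := hAm y hy
            rw [if_pos g2]
            obtain ⟨p', q'⟩ := y
            obtain ⟨z', rfl⟩ := List.length_eq_one_iff.1 g2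
            have hzz : z ≠ z' := by
              rintro rfl
              have := hU' (p ++ [z]) (p' ++ [z]) h3 g3 (by simpa using h1) (by simpa using g1)
                (by
                  rw [take_of_prefix_le (by simp only at h1; omega),
                    take_of_prefix_le (by simp only at g1; omega)]
                  exact hc.symm)
                (by simp)
              have h' := List.append_inj_left' this rfl
              exact hxy (by rw [h'])
            simp [hzz]
          · obtain ⟨g1, g2, g3, g4, g5⟩ := hBm y hy
            rw [if_neg (by omega)]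
            simp
        · obtain ⟨h1, h2, h3, h4, h5⟩ := hBm x hx
          have h21 : ¬ x.2.length = 1 := by omega
          simp only [if_neg h21]
          rcases hy with hy | hy
          · obtain ⟨g1, g2, g3⟩ := hAm y hy
            exfalso
            rw [if_neg h21, if_pos g2] at hle
            omega
          · obtain ⟨g1, g2, g3, g4, g5⟩ := hBm y hy
            have g21 : ¬ y.2.length = 1 := by omega
            rw [if_neg h21, if_neg g21] at hle
            simp only [if_neg g21]
            by_cases hlen : y.1.length + y.2.length = x.1.length + x.2.length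
            · obtain ⟨p, q⟩ := x
              obtain ⟨p', q'⟩ := y
              have hUx : ∀ l m : List V, IsP G l → IsP G m → l.length = p.length + q.length →
                  m.length = p.length + q.length → l.take s = p.take s →
                  l.take s = m.take s → l.getLast? = m.getLast? → l = m := by
                intro l m hl hm hll hml _ hlm hlast
                rcases h2 with h2 | h2
                · exact hU l m hl hm (hll.trans h2) (hml.trans h2) hlm hlast
                · exact hU' l m hl hm (hll.trans h2) (hml.trans h2) hlm hlast
              have := cut_closings (f := f) hUx h1 g1 rfl hlen h3 h4 g4 hxy hle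
              have l1 : (p' ++ q').length = p.length + q.length := by
                rw [List.length_append]
                exact hlen
              have l2 : (p' ++ q'.reverse).length = p.length + q.length := by
                rw [List.length_append, List.length_reverse]
                exact hlen
              simp only [l1, l2, true_and]
              exact this
            · have l1 : ¬ (y.1 ++ y.2).length = x.1.length + x.2.length := by
                rw [List.length_append]
                exact hlen
              have l2 : ¬ (y.1 ++ y.2.reverse).length = x.1.length + x.2.length := by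
                rw [List.length_append, List.length_reverse]
                exact hlen
              simp only [l1, l2, false_and]
  omega

end finite

section main

variable [Fintype V] [DecidableEq V] [DecidableRel G.Adj]

omit [DecidableEq V] [DecidableRel G.Adj] in
theorem forest_two {n s : ℕ} (hs : 1 ≤ s)
    (hU : ∀ l m : List V, IsP G l → IsP G m → l.length = n → m.length = n →
      l.take s = m.take s → l.getLast? = m.getLast? → l = m)
    (hU' : ∀ l m : List V, IsP G l → IsP G m → l.length = n + 1 → m.length = n + 1 →
      l.take s = m.take s → l.getLast? = m.getLast? → l = m) :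
    (closings G n s).card + (closings G (n + 1) s).card ≤ 2 * (paths G n).card := by
  by_cases hsn : s ≤ n
  · exact forest_two_aux hs hsn hU hU'
  · have e1 : closings G n s = ∅ := by
      rw [eq_empty_iff_forall_notMem]
      intro x hx
      rw [mem_closings] at hx
      have := hx.1.2.1
      omega
    have e2 : closings G (n + 1) s = ∅ := by
      rw [eq_empty_iff_forall_notMem]
      intro x hx
      rw [mem_closings] at hx
      have := hx.1.2.1
      omega
    rw [e1, e2]
    simp

omit [DecidableEq V] [DecidableRel G.Adj] in
theorem forest_one {n s : ℕ} (hs : 1 ≤ s)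
    (hU : ∀ l m : List V, IsP G l → IsP G m → l.length = n → m.length = n →
      l.take s = m.take s → l.getLast? = m.getLast? → l = m) :
    (closings G n s).card ≤ 2 * (paths G n).card := by
  by_cases hne : ∃ l : List V, IsP G l ∧ l.length = n ∧ True
  · have := forest_one_gen (G := G) hs (fun _ => True) (fun _ _ _ => Iff.rfl)
      (fun l m _ _ => hU l m) hne
    simp only [filter_true] at this
    omega
  · have e1 : closings G n s = ∅ := by
      rw [eq_empty_iff_forall_notMem]
      intro x hx
      rw [mem_closings] at hx
      exact hne ⟨x.1 ++ x.2, hx.1.1, by simpa using hx.2.1, trivial⟩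
    rw [e1]
    simp

theorem forest_root (w : V) {n : ℕ}
    (hU : ∀ l m : List V, IsP G l → IsP G m → l.length = n → m.length = n →
      l.head? = some w → m.head? = some w → l.getLast? = m.getLast? → l = m)
    (hne : ∃ l : List V, IsP G l ∧ l.length = n ∧ l.head? = some w) :
    ((closings G n 1).filter (fun x => x.1.head? = some w)).card + 2 ≤
      2 * ((paths G n).filter (fun l => l.head? = some w)).card := by
  have := forest_one_gen (G := G) (n := n) (s := 1) le_rfl (fun l => l.head? = some w)
    (by
      intro p q hp
      cases p with
      | nil => simp at hp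
      | cons a p => simp)
    (fun l m h1 h2 hl hm hll hml _ hlast => hU l m hl hm hll hml h1 h2 hlast) hne
  convert this

end main

end Pool.Agent.Work.KZ
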