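import Pool.Agent.Work.MP_f0e709_co.Defs

set_option autoImplicit false

namespace Pool.Agent.Work.KZ

variable {V : Type*} [Fintype V] [DecidableEq V] {G : SimpleGraph V} [DecidableRel G.Adj] {k : ℕ}

/-- the extensions of a path `l` with last vertex `b` -/
theorem card_ext {n : ℕ} {l : List V} (hl : IsP G l) (hn : l.length = n) {b : V}
    (hb : l.getLast? = some b) :
    ((paths G (n + 1)).filter (fun m => m.dropLast = l)).card
      = ((G.neighborFinset b).filter (fun z => z ∉ l)).card := by
  symm
  apply Finset.card_bij (fun z _ => l ++ [z])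
  · intro z hz
    simp only [Finset.mem_filter, SimpleGraph.mem_neighborFinset] at hz
    simp only [Finset.mem_filter, mem_paths, List.length_append, List.length_singleton,
      List.dropLast_concat, and_true]
    refine ⟨isP_concat.2 ⟨hl, hz.2, ?_⟩, by omega⟩
    intro x hx
    rw [hb] at hx
    simp only [Option.mem_def, Option.some.injEq] at hx
    subst hx
    exact hz.1
  · intro z _ z' _ h
    simpa using h
  · intro m hm
    simp only [Finset.mem_filter, mem_paths] at hm
    obtain ⟨⟨hm1, hm2⟩, hm3⟩ := hm
    have hne : m ≠ [] := by
      rintro rfl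
      simp at hm2
    have hmm : m = l ++ [m.getLast hne] := by
      rw [← hm3]
      exact (List.dropLast_append_getLast hne).symm
    refine ⟨m.getLast hne, ?_, hmm.symm⟩
    rw [hmm] at hm1
    obtain ⟨_, h2, h3⟩ := isP_concat.1 hm1
    simp only [Finset.mem_filter, SimpleGraph.mem_neighborFinset]
    exact ⟨h3 b hb, h2⟩

/-- the closings of a path `l` with last vertex `b` -/
theorem card_cl {n : ℕ} {l : List V} (hl : IsP G l) (hn : l.length = n) (h2 : 2 ≤ n) {b : V}
    (hb : l.getLast? = some b) :
    ((closings G n 1).filter (fun x => x.1 ++ x.2 = l)).card + 1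
      = ((G.neighborFinset b).filter (fun z => z ∈ l)).card := by
  -- decompose `l = l' ++ [a, b]`
  obtain ⟨l', a, rfl⟩ : ∃ l' a, l = l' ++ [a, b] := by
    have hne : l ≠ [] := by
      rintro rfl
      simp at hb
    have hb' : l.getLast hne = b := by
      have := List.getLast?_eq_some_getLast hne
      rw [hb] at this
      exact (Option.some.inj this).symm
    have h1 : l = l.dropLast ++ [b] := by
      rw [← hb']
      exact (List.dropLast_append_getLast hne).symm
    have hne2 : l.dropLast ≠ [] := by
      intro h
      rw [h] at h1
      rw [h1] at hn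
      simp at hn
      omega
    refine ⟨l.dropLast.dropLast, l.dropLast.getLast hne2, ?_⟩
    have h3 : l.dropLast = l.dropLast.dropLast ++ [l.dropLast.getLast hne2] :=
      (List.dropLast_append_getLast hne2).symm
    calc l = l.dropLast ++ [b] := h1
      _ = (l.dropLast.dropLast ++ [l.dropLast.getLast hne2]) ++ [b] := by rw [← h3]
      _ = _ := by simp
  have hP := hl
  rw [isP_append] at hP
  obtain ⟨hP1, hP2, hP3, hP4⟩ := hP
  have hab : G.Adj a b := by
    have := hP2.2
    simpa using this
  have hanl : a ∉ l' := by
    intro h
    exact hP3 h (by simp)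
  have hbnl : b ∉ l' := by
    intro h
    exact hP3 h (by simp)
  have hset : (G.neighborFinset b).filter (fun z => z ∈ l' ++ [a, b])
      = insert a ((G.neighborFinset b).filter (fun z => z ∈ l')) := by
    ext z
    simp only [Finset.mem_filter, SimpleGraph.mem_neighborFinset, List.mem_append, List.mem_cons,
      List.not_mem_nil, or_false, Finset.mem_insert]
    constructor
    · rintro ⟨h1, h2 | h2 | h2⟩
      · exact Or.inr ⟨h1, h2⟩
      · exact Or.inl h2
      · exact absurd (h2 ▸ h1) (by simp)
    · rintro (h | ⟨h1, h2⟩)
      · subst h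
        exact ⟨hab.symm, Or.inr (Or.inl rfl)⟩
      · exact ⟨h1, Or.inl h2⟩
  rw [hset, Finset.card_insert_of_notMem (by simp [hanl])]
  congr 1
  apply Finset.card_bij (fun x _ => (x.1.getLast?).getD b)
  · rintro ⟨p, q⟩ hx
    simp only [Finset.mem_filter, mem_closings, IsCl] at hx
    obtain ⟨⟨⟨h1, h3, h4⟩, h5, h6⟩, h7⟩ := hx
    have hp : p ≠ [] := by
      rintro rfl
      simp at h6
    have hlast : p.getLast? = some (p.getLast hp) := List.getLast?_eq_some_getLast hp
    have hq : q ≠ [] := by
      rintro rfl
      simp at h3
    have hqb : q.getLast? = some b := by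
      have : (p ++ q).getLast? = some b := by
        rw [h7]
        simp
      rw [List.getLast?_append] at this
      rw [List.getLast?_eq_some_getLast hq] at this ⊢
      simpa using this
    simp only [hlast, Option.getD_some, Finset.mem_filter, SimpleGraph.mem_neighborFinset]
    refine ⟨(h4 _ hlast _ hqb).symm, ?_⟩
    have hpre : p <+: l' := by
      have h8 : p <+: l' ++ [a, b] := ⟨q, h7⟩
      have h9 : l' <+: l' ++ [a, b] := List.prefix_append _ _
      apply List.prefix_of_prefix_length_le h8 h9
      have : (p ++ q).length = (l' ++ [a, b]).length := by rw [h7]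
      simp at this
      omega
    exact hpre.subset (List.getLast_mem hp)
  · rintro ⟨p, q⟩ hx ⟨p', q'⟩ hx' hh
    simp only [Finset.mem_filter, mem_closings, IsCl] at hx hx'
    obtain ⟨⟨⟨h1, h3, h4⟩, h5, h6⟩, h7⟩ := hx
    obtain ⟨⟨⟨h1', h3', h4'⟩, h5', h6'⟩, h7'⟩ := hx'
    have hp : p ≠ [] := by
      rintro rfl
      simp at h6
    have hp' : p' ≠ [] := by
      rintro rfl
      simp at h6'
    have hlast : p.getLast? = some (p.getLast hp) := List.getLast?_eq_some_getLast hp
    have hlast' : p'.getLast? = some (p'.getLast hp') := List.getLast?_eq_some_getLast hp'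
    simp only [hlast, hlast', Option.getD_some] at hh
    have key : p.length = p'.length := by
      have e1 : (l' ++ [a, b])[p.length - 1]? = some (p.getLast hp) := by
        rw [← h7, List.getElem?_append_left (by
          have := List.length_pos_of_ne_nil hp
          omega), List.getLast_eq_getElem]
        simp
      have e2 : (l' ++ [a, b])[p'.length - 1]? = some (p'.getLast hp') := by
        rw [← h7', List.getElem?_append_left (by
          have := List.length_pos_of_ne_nil hp'
          omega), List.getLast_eq_getElem]
        simp
      rw [← hh] at e2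
      have hlt : p.length - 1 < (l' ++ [a, b]).length := by
        rw [← h7]
        simp
        have := List.length_pos_of_ne_nil hp
        omega
      have := (List.getElem?_inj hlt hl.1).1 (e1.trans e2.symm)
      have := List.length_pos_of_ne_nil hp
      have := List.length_pos_of_ne_nil hp'
      omega
    have : p ++ q = p' ++ q' := h7.trans h7'.symm
    obtain ⟨r1, r2⟩ := List.append_inj this key
    rw [r1, r2]
  · intro z hz
    simp only [Finset.mem_filter, SimpleGraph.mem_neighborFinset] at hz
    obtain ⟨hz1, hz2⟩ := hz
    obtain ⟨s, t, rfl⟩ := List.append_of_mem hz2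
    refine ⟨(s ++ [z], t ++ [a, b]), ?_, by simp⟩
    simp only [Finset.mem_filter, mem_closings, IsCl]
    have e : (s ++ [z]) ++ (t ++ [a, b]) = s ++ z :: t ++ [a, b] := by simp
    refine ⟨⟨⟨by rw [e]; exact hl, by simp, ?_⟩, ?_, by simp⟩, e⟩
    · intro x hx y hy
      simp only [List.getLast?_append, List.getLast?_singleton, Option.some_or, Option.mem_def,
        Option.some.injEq] at hx
      have hy' : y = b := by
        have : (t ++ [a, b]).getLast? = some b := by simp
        rw [Option.mem_def] at hy
        rw [this] at hy
        exact (Option.some.inj hy).symm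
      subst hx
      subst hy'
      exact hz1.symm
    · rw [← hn]
      simp
      omega

/-- extension count with any condition on the first vertex -/
theorem ext_count_gen (P : Option V → Prop) [DecidablePred P] {n : ℕ} (hn : 2 ≤ n) :
    ((paths G (n + 1)).filter (fun l => P l.head?)).card
      + ((closings G n 1).filter (fun x => P x.1.head?)).card
      + ((paths G n).filter (fun l => P l.head?)).card
      = ∑ l ∈ (paths G n).filter (fun l => P l.head?), degLast G l := by
  have e1 : ((paths G (n + 1)).filter (fun l => P l.head?)).card
      = ∑ l ∈ (paths G n).filter (fun l => P l.head?),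
        (((paths G (n + 1)).filter (fun l => P l.head?)).filter (fun m => m.dropLast = l)).card := by
    apply Finset.card_eq_sum_card_fiberwise
    intro m hm
    simp only [Finset.coe_filter, mem_paths, Set.mem_ofPred_eq] at hm ⊢
    obtain ⟨⟨h1, h2⟩, h3⟩ := hm
    refine ⟨⟨h1.of_prefix (List.dropLast_prefix m), by simp [h2]⟩, ?_⟩
    have : m.dropLast.head? = m.head? := by
      match m, h2 with
      | [], h2 => simp at h2
      | [x], h2 => simp at h2; omega
      | x :: y :: t, _ => simp
    rw [this]
    exact h3
  have e2 : ((closings G n 1).filter (fun x => P x.1.head?)).card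
      = ∑ l ∈ (paths G n).filter (fun l => P l.head?),
        (((closings G n 1).filter (fun x => P x.1.head?)).filter
          (fun x => x.1 ++ x.2 = l)).card := by
    apply Finset.card_eq_sum_card_fiberwise
    rintro ⟨p, q⟩ hx
    simp only [Finset.coe_filter, mem_paths, mem_closings, IsCl, Set.mem_ofPred_eq] at hx ⊢
    obtain ⟨⟨⟨h1, h3, h4⟩, h5, h6⟩, h7⟩ := hx
    refine ⟨⟨h1, by simpa using h5⟩, ?_⟩
    have : (p ++ q).head? = p.head? := by
      match p, h6 with
      | [], h6 => simp at h6
      | x :: t, _ => simp
    rw [this]
    exact h7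
  rw [e1, e2, Finset.card_eq_sum_ones, ← Finset.sum_add_distrib, ← Finset.sum_add_distrib]
  apply Finset.sum_congr rfl
  intro l hl
  simp only [Finset.mem_filter, mem_paths] at hl
  obtain ⟨⟨h1, h2⟩, h3⟩ := hl
  have hne : l ≠ [] := by
    rintro rfl
    simp at h2
    omega
  have hb : l.getLast? = some (l.getLast hne) := List.getLast?_eq_some_getLast hne
  have f1 : ((paths G (n + 1)).filter (fun l => P l.head?)).filter (fun m => m.dropLast = l)
      = (paths G (n + 1)).filter (fun m => m.dropLast = l) := by
    ext m
    simp only [Finset.mem_filter, mem_paths]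
    constructor
    · rintro ⟨⟨h, _⟩, h'⟩
      exact ⟨h, h'⟩
    · rintro ⟨h, h'⟩
      refine ⟨⟨h, ?_⟩, h'⟩
      have : m.head? = l.head? := by
        rw [← h']
        match m, h.2 with
        | [], h2 => simp at h2
        | [x], h2 => simp at h2; omega
        | x :: y :: t, _ => simp
      rw [this]
      exact h3
  have f2 : ((closings G n 1).filter (fun x => P x.1.head?)).filter (fun x => x.1 ++ x.2 = l)
      = (closings G n 1).filter (fun x => x.1 ++ x.2 = l) := by
    ext ⟨p, q⟩
    simp only [Finset.mem_filter, mem_closings]
    constructor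
    · rintro ⟨⟨h, _⟩, h'⟩
      exact ⟨h, h'⟩
    · rintro ⟨h, h'⟩
      refine ⟨⟨h, ?_⟩, h'⟩
      have : p.head? = l.head? := by
        rw [← h']
        match p, h.2.2 with
        | [], h2 => simp at h2
        | x :: t, _ => simp
      show P p.head?
      rw [this]
      exact h3
  rw [f1, f2, card_ext h1 h2 hb, add_assoc, card_cl h1 h2 hn hb]
  unfold degLast
  rw [hb]
  simp only [Option.map_some, Option.getD_some]
  rw [← SimpleGraph.card_neighborFinset_eq_degree, add_comm]
  rw [← Finset.card_filter_add_card_filter_not (s := G.neighborFinset (l.getLast hne)) (fun z => z ∈ l)]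

theorem ext_count_root (w : V) {n : ℕ} (hn : 2 ≤ n) :
    ((paths G (n + 1)).filter (fun l => l.head? = some w)).card
      + ((closings G n 1).filter (fun x => x.1.head? = some w)).card
      + ((paths G n).filter (fun l => l.head? = some w)).card
      = ∑ l ∈ (paths G n).filter (fun l => l.head? = some w), degLast G l :=
  ext_count_gen (fun o => o = some w) hn

theorem ext_count {n : ℕ} (hn : 2 ≤ n) :
    (paths G (n + 1)).card + (closings G n 1).card + (paths G n).card
      = ∑ l ∈ paths G n, degLast G l := by
  have := ext_count_gen (G := G) (fun _ => True) hn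
  simpa using this

end Pool.Agent.Work.KZ
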