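import Pool.Agent.Work.MP_f0e709_co.Defs

/-! P(k)-graphs: closings onto the first vertices of long paths. -/

set_option autoImplicit false

namespace Pool.Agent.Work.KZ

variable {V : Type*} [Fintype V] [DecidableEq V] {G : SimpleGraph V} [DecidableRel G.Adj] {k : ℕ}

omit [Fintype V] [DecidableEq V] [DecidableRel G.Adj] in
/-- the `k`-path obtained from a closing: the last `k` vertices followed by the junction -/
theorem IsCl.isP_drop {p q : List V} (hx : IsCl G (p, q)) {r : ℕ} (hpr : p.length ≤ r)
    (hr : r < (p ++ q).length) {a : V} (ha : p.getLast? = some a) :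
    IsP G ((p ++ q).drop r ++ [a]) := by
  obtain ⟨h1, h2, h3⟩ := hx
  simp only at h1 h2 h3
  have hd : (p ++ q).drop r = q.drop (r - p.length) := by
    rw [List.drop_append, List.drop_of_length_le hpr, List.nil_append]
  rw [isP_concat]
  refine ⟨h1.drop r, ?_, ?_⟩
  · intro hmem
    rw [hd] at hmem
    have h4 : a ∈ q := List.mem_of_mem_drop hmem
    have h5 : a ∈ p := List.mem_of_getLast? ha
    exact (isP_append.1 h1).2.2.1 h5 h4
  · intro x hx
    rw [hd, List.getLast?_drop] at hx
    have h6 : ¬ q.length ≤ r - p.length := by
      rw [List.length_append] at hr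
      omega
    rw [if_neg h6] at hx
    exact (h3 a ha x hx).symm

theorem PK.small_aux (h : PK G k) (hk : 3 ≤ k) {j r : ℕ} (hjr : j ≤ r) :
    (closings G (k + r) 1).card ≤ (closings G (k + r) (j + 1)).card
      + j * ((paths G (k + r)).image (List.take (r + 1))).card := by
  classical
  have hsub : closings G (k + r) 1 ⊆ closings G (k + r) (j + 1) ∪
      (closings G (k + r) 1).filter (fun x => x.1.length ≤ j) := by
    intro x hx
    rw [Finset.mem_union, Finset.mem_filter]
    by_cases hj : x.1.length ≤ j
    · exact Or.inr ⟨hx, hj⟩
    · left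
      rw [mem_closings] at hx ⊢
      exact ⟨hx.1, hx.2.1, by omega⟩
  refine (Finset.card_le_card hsub).trans ((Finset.card_union_le _ _).trans ?_)
  refine Nat.add_le_add_left ?_ _
  have hcard : j * ((paths G (k + r)).image (List.take (r + 1))).card =
      (Finset.range j ×ˢ (paths G (k + r)).image (List.take (r + 1))).card := by
    rw [Finset.card_product, Finset.card_range]
  rw [hcard]
  refine Finset.card_le_card_of_injOn
    (fun x => (x.1.length - 1, (x.1 ++ x.2).take (r + 1))) ?_ ?_
  · intro x hx
    rw [Finset.mem_coe, Finset.mem_filter, mem_closings] at hx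
    obtain ⟨⟨h1, h2, h3⟩, h4⟩ := hx
    rw [Finset.mem_coe, Finset.mem_product, Finset.mem_range, Finset.mem_image]
    refine ⟨by simp only; omega, x.1 ++ x.2, ?_, rfl⟩
    rw [mem_paths, List.length_append]
    exact ⟨h1.1, h2⟩
  · rintro ⟨p, q⟩ hx ⟨p', q'⟩ hx' heq
    rw [Finset.mem_coe, Finset.mem_filter, mem_closings] at hx hx'
    obtain ⟨⟨h1, h2, h3⟩, h4⟩ := hx
    obtain ⟨⟨h1', h2', h3'⟩, h4'⟩ := hx'
    simp only at h1 h2 h3 h4 h1' h2' h3' h4' heq
    rw [Prod.mk.injEq] at heq
    obtain ⟨heq1, heq2⟩ := heq
    have hlen : p.length = p'.length := by omega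
    set l := p ++ q with hl
    set l' := p' ++ q' with hl'
    have hll : l.length = k + r := by rw [hl, List.length_append, h2]
    have hll' : l'.length = k + r := by rw [hl', List.length_append, h2']
    have htake : l.take r = l'.take r := by
      have := congrArg (List.take r) heq2
      rwa [List.take_take, List.take_take, min_eq_left (Nat.le_succ r)] at this
    have hget : ∀ i, i ≤ r → l[i]? = l'[i]? := by
      intro i hi
      have := congrArg (fun m => m[i]?) heq2
      simp only [List.getElem?_take] at this
      rwa [if_pos (by omega), if_pos (by omega)] at this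
    have hpl : p.getLast? = l[p.length - 1]? := by
      rw [List.getLast?_eq_getElem?, hl, List.getElem?_append_left (by omega)]
    have hpl' : p'.getLast? = l'[p'.length - 1]? := by
      rw [List.getLast?_eq_getElem?, hl', List.getElem?_append_left (by omega)]
    have hlast : p.getLast? = p'.getLast? := by
      rw [hpl, hpl', hlen]
      exact hget _ (by omega)
    obtain ⟨a, ha⟩ : ∃ a, p.getLast? = some a := by
      refine ⟨p.getLast ?_, List.getLast?_eq_some_getLast _⟩
      rintro rfl
      simp at h3
    have ha' : p'.getLast? = some a := by rw [← hlast, ha]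
    have hP := h1.isP_drop (r := r) (by omega) (by rw [← hl, hll]; omega) ha
    have hP' := h1'.isP_drop (r := r) (by omega) (by rw [← hl', hll']; omega) ha'
    rw [← hl] at hP
    rw [← hl'] at hP'
    have hd : (l.drop r).head? = (l'.drop r).head? := by
      rw [List.head?_drop, List.head?_drop]
      exact hget r le_rfl
    have hne : l.drop r ≠ [] := by
      intro h0
      have := congrArg List.length h0
      rw [List.length_drop, List.length_nil] at this
      omega
    have hne' : l'.drop r ≠ [] := by
      intro h0
      have := congrArg List.length h0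
      rw [List.length_drop, List.length_nil] at this
      omega
    have heq3 := h.uniq hP hP' (by rw [List.length_append, List.length_drop, hll]; simp)
      (by rw [List.length_append, List.length_drop, hll']; simp)
      (by rw [List.head?_append_of_ne_nil _ hne, List.head?_append_of_ne_nil _ hne', hd])
      (by simp) (by omega)
    have heq4 : l.drop r = l'.drop r := List.append_cancel_right heq3
    have heq5 : l = l' := by
      rw [← List.take_append_drop r l, ← List.take_append_drop r l', htake, heq4]
    rw [hl, hl'] at heq5
    obtain ⟨e1, e2⟩ := List.append_inj heq5 hlen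
    rw [e1, e2]

theorem PK.small_top (h : PK G k) (hk : 3 ≤ k) {j : ℕ} (_hj : 1 ≤ j) :
    (closings G (k + j + 1) 1).card ≤ (closings G (k + j + 1) (j + 1)).card
      + j * ((paths G (k + j + 1)).image (List.take (j + 2))).card :=
  h.small_aux hk (Nat.le_succ j)

theorem PK.small_bot (h : PK G k) (hk : 3 ≤ k) {j : ℕ} (_hj : 1 ≤ j) :
    (closings G (k + j) 1).card ≤ (closings G (k + j) (j + 1)).card
      + j * ((paths G (k + j)).image (List.take (j + 1))).card :=
  h.small_aux hk le_rfl

end Pool.Agent.Work.KZ
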