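import Pool.Agent.Work.MP_f0e709_co.Defs

/-! Kotzig P(k)-graphs, module M4c: counting bounds (helper96) -/

set_option autoImplicit false
set_option linter.unusedSectionVars false

namespace Pool.Agent.Work.KZ

variable {V : Type*} [Fintype V] [DecidableEq V] {G : SimpleGraph V} [DecidableRel G.Adj] {k : ℕ}

omit [Fintype V] [DecidableEq V] [DecidableRel G.Adj] in
/-- a path with at least two vertices has two different ends -/
theorem IsP.ends_ne {l : List V} (h : IsP G l) (hl : 2 ≤ l.length) {a b : V}
    (ha : l.head? = some a) (hb : l.getLast? = some b) : a ≠ b := by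
  obtain ⟨c, l', rfl⟩ : ∃ c l', l = c :: l' := by
    cases l with
    | nil => simp at hl
    | cons c l' => exact ⟨c, l', rfl⟩
  have hl' : l' ≠ [] := by
    rintro rfl
    simp at hl
  rw [List.head?_cons] at ha
  obtain rfl := Option.some.inj ha
  rw [List.getLast?_cons, Option.some.injEq] at hb
  have hb' : b ∈ l' := by
    rw [← hb]
    obtain ⟨d, hd⟩ := Option.isSome_iff_exists.1 (by simpa using hl' : (l'.getLast?).isSome)
    rw [hd, Option.getD_some]
    exact List.mem_of_getLast? hd
  rintro rfl
  exact (List.nodup_cons.1 h.1).1 hb'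

omit [Fintype V] [DecidableEq V] [DecidableRel G.Adj] in
theorem exists_head_last {l : List V} (hl : l ≠ []) :
    ∃ a b, l.head? = some a ∧ l.getLast? = some b :=
  ⟨l.head hl, l.getLast hl, List.head?_eq_some_head hl, List.getLast?_eq_some_getLast hl⟩

theorem ne_nil_of_length {α : Type*} {l : List α} {n : ℕ} (h : l.length = n) (hn : 1 ≤ n) : l ≠ [] := by
  rintro rfl
  simp at h
  omega

theorem PK.card_paths_root (h : PK G k) (hk : 1 ≤ k) (w : V) :
    ((paths G (k + 1)).filter (fun l => l.head? = some w)).card = Fintype.card V - 1 := by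
  have : (Finset.univ.erase w).card = Fintype.card V - 1 := by
    rw [Finset.card_erase_of_mem (Finset.mem_univ w), Finset.card_univ]
  rw [← this]
  refine Finset.card_bij (fun l _ => (l.getLast?).getD w) ?_ ?_ ?_
  · intro l hl
    rw [Finset.mem_filter, mem_paths] at hl
    obtain ⟨⟨hP, hlen⟩, hhead⟩ := hl
    obtain ⟨a, b, ha, hb⟩ := exists_head_last (ne_nil_of_length hlen (by omega))
    rw [hb, Option.getD_some, Finset.mem_erase]
    exact ⟨fun hbw => hP.ends_ne (by omega) hhead hb hbw.symm, Finset.mem_univ _⟩
  · intro l hl m hm hlm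
    rw [Finset.mem_filter, mem_paths] at hl hm
    obtain ⟨a, b, ha, hb⟩ := exists_head_last (ne_nil_of_length hl.1.2 (by omega))
    obtain ⟨a', b', ha', hb'⟩ := exists_head_last (ne_nil_of_length hm.1.2 (by omega))
    simp only [hb, hb', Option.getD_some] at hlm
    exact h.uniq hl.1.1 hm.1.1 hl.1.2 hm.1.2 (by rw [hl.2, hm.2]) (by rw [hb, hb', hlm]) hk
  · intro y hy
    rw [Finset.mem_erase] at hy
    obtain ⟨l, hP, hlen, hh, hl⟩ := h.exists (u := w) (v := y) (fun hh => hy.1 hh.symm)
    exact ⟨l, by rw [Finset.mem_filter, mem_paths]; exact ⟨⟨hP, hlen⟩, hh⟩, by rw [hl, Option.getD_some]⟩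

theorem PK.sum_degLast_root (h : PK G k) (hk : 1 ≤ k) (w : V) :
    ∑ l ∈ (paths G (k + 1)).filter (fun l => l.head? = some w), degLast G l + G.degree w
      = ∑ y, G.degree y := by
  rw [← Finset.sum_erase_add Finset.univ (fun y => G.degree y) (Finset.mem_univ w)]
  congr 1
  refine Finset.sum_bij (fun l _ => (l.getLast?).getD w) ?_ ?_ ?_ ?_
  · intro l hl
    rw [Finset.mem_filter, mem_paths] at hl
    obtain ⟨⟨hP, hlen⟩, hhead⟩ := hl
    obtain ⟨a, b, ha, hb⟩ := exists_head_last (ne_nil_of_length hlen (by omega))
    rw [hb, Option.getD_some, Finset.mem_erase]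
    exact ⟨fun hbw => hP.ends_ne (by omega) hhead hb hbw.symm, Finset.mem_univ _⟩
  · intro l hl m hm hlm
    rw [Finset.mem_filter, mem_paths] at hl hm
    obtain ⟨a, b, ha, hb⟩ := exists_head_last (ne_nil_of_length hl.1.2 (by omega))
    obtain ⟨a', b', ha', hb'⟩ := exists_head_last (ne_nil_of_length hm.1.2 (by omega))
    simp only [hb, hb', Option.getD_some] at hlm
    exact h.uniq hl.1.1 hm.1.1 hl.1.2 hm.1.2 (by rw [hl.2, hm.2]) (by rw [hb, hb', hlm]) hk
  · intro y hy
    rw [Finset.mem_erase] at hy
    obtain ⟨l, hP, hlen, hh, hl⟩ := h.exists (u := w) (v := y) (fun hh => hy.1 hh.symm)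
    exact ⟨l, by rw [Finset.mem_filter, mem_paths]; exact ⟨⟨hP, hlen⟩, hh⟩, by rw [hl, Option.getD_some]⟩
  · intro l hl
    rw [Finset.mem_filter, mem_paths] at hl
    obtain ⟨a, b, ha, hb⟩ := exists_head_last (ne_nil_of_length hl.1.2 (by omega))
    rw [degLast, hb]
    rfl

/-- sums over nonempty paths, split by the first vertex -/
theorem sum_paths_eq {n : ℕ} (hn : 1 ≤ n) (f : List V → ℕ) :
    ∑ l ∈ paths G n, f l = ∑ w, ∑ l ∈ (paths G n).filter (fun l => l.head? = some w), f l := by
  rw [Finset.sum_comm' (t' := paths G n) (s' := fun l => Finset.univ.filter (fun w => l.head? = some w))]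
  · refine Finset.sum_congr rfl (fun l hl => ?_)
    rw [mem_paths] at hl
    obtain ⟨a, b, ha, hb⟩ := exists_head_last (ne_nil_of_length hl.2 hn)
    have : Finset.univ.filter (fun w => l.head? = some w) = {a} := by
      ext w
      simp only [Finset.mem_filter, Finset.mem_univ, true_and, Finset.mem_singleton, ha,
        Option.some.injEq]
      exact eq_comm
    rw [this, Finset.sum_singleton]
  · intro w l
    simp only [Finset.mem_univ, true_and, Finset.mem_filter]
    tauto

theorem PK.card_paths (h : PK G k) (hk : 1 ≤ k) :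
    (paths G (k + 1)).card = Fintype.card V * (Fintype.card V - 1) := by
  have h1 := sum_paths_eq (G := G) (n := k + 1) (by omega) (fun _ => 1)
  simp only [h.card_paths_root hk, Finset.sum_const, smul_eq_mul, Finset.card_univ, mul_one] at h1
  exact h1

/-- every vertex is the last one of exactly `v - 1` of the `k`-paths -/
theorem PK.sum_degLast (h : PK G k) (hk : 1 ≤ k) :
    ∑ l ∈ paths G (k + 1), degLast G l = (Fintype.card V - 1) * ∑ y, G.degree y := by
  rw [sum_paths_eq (by omega)]
  have h1 : ∀ w, ∑ l ∈ (paths G (k + 1)).filter (fun l => l.head? = some w), degLast G l + G.degree w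
      = ∑ y, G.degree y := fun w => h.sum_degLast_root hk w
  have h2 : ∑ w, (∑ l ∈ (paths G (k + 1)).filter (fun l => l.head? = some w), degLast G l + G.degree w)
      = Fintype.card V * ∑ y, G.degree y := by
    rw [Finset.sum_congr rfl (fun w _ => h1 w), Finset.sum_const, Finset.card_univ, smul_eq_mul]
  rw [Finset.sum_add_distrib] at h2
  rw [Nat.sub_mul, one_mul]
  omega

theorem PK.alpha_le (_h : PK G k) {n i : ℕ} (hi : i ≤ k + 1) (hn : k + 1 ≤ n) :
    ((paths G n).image (List.take i)).card ≤ (paths G (k + 1)).card := by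
  refine le_trans (Finset.card_le_card ?_) (Finset.card_image_le (f := List.take i))
  intro l hl
  rw [Finset.mem_image] at hl ⊢
  obtain ⟨m, hm, rfl⟩ := hl
  rw [mem_paths] at hm
  refine ⟨m.take (k + 1), mem_paths.2 ⟨hm.1.take _, ?_⟩, ?_⟩
  · rw [List.length_take]
    omega
  · rw [List.take_take, min_eq_left hi]

theorem alpha_two_le {n : ℕ} (hn : 2 ≤ n) :
    ((paths G n).image (List.take 2)).card ≤ ∑ x, G.degree x := by
  have h1 : (paths G n).image (List.take 2) ⊆
      (Finset.univ.sigma (fun x => G.neighborFinset x)).image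
        (fun p : (_ : V) × V => [p.1, p.2]) := by
    intro l hl
    rw [Finset.mem_image] at hl ⊢
    obtain ⟨m, hm, rfl⟩ := hl
    rw [mem_paths] at hm
    obtain ⟨hP, hlen⟩ := hm
    match m, hP, hlen with
    | [], _, hlen => simp at hlen; omega
    | [_], _, hlen => simp at hlen; omega
    | a :: b :: m', hP, _ =>
      refine ⟨⟨a, b⟩, ?_, by simp⟩
      rw [Finset.mem_sigma, SimpleGraph.mem_neighborFinset]
      exact ⟨Finset.mem_univ _, (isP_cons.1 hP).2.2 b (by simp)⟩
  refine le_trans (Finset.card_le_card h1) (le_trans Finset.card_image_le ?_)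
  rw [Finset.card_sigma]
  simp

theorem alpha_three_le {n : ℕ} (hn : 3 ≤ n) :
    ((paths G n).image (List.take 3)).card ≤ ∑ x, G.degree x * G.degree x := by
  have h1 : (paths G n).image (List.take 3) ⊆
      (Finset.univ.sigma (fun x => G.neighborFinset x ×ˢ G.neighborFinset x)).image
        (fun p : (_ : V) × (V × V) => [p.2.1, p.1, p.2.2]) := by
    intro l hl
    rw [Finset.mem_image] at hl ⊢
    obtain ⟨m, hm, rfl⟩ := hl
    rw [mem_paths] at hm
    obtain ⟨hP, hlen⟩ := hm
    match m, hP, hlen with
    | [], _, hlen => simp at hlen; omega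
    | [_], _, hlen => simp at hlen; omega
    | [_, _], _, hlen => simp at hlen; omega
    | a :: b :: c :: m', hP, _ =>
      refine ⟨⟨b, (a, c)⟩, ?_, by simp⟩
      have h2 := isP_cons.1 hP
      rw [Finset.mem_sigma, Finset.mem_product, SimpleGraph.mem_neighborFinset,
        SimpleGraph.mem_neighborFinset]
      exact ⟨Finset.mem_univ _, (h2.2.2 b (by simp)).symm, (isP_cons.1 h2.2.1).2.2 c (by simp)⟩
  refine le_trans (Finset.card_le_card h1) (le_trans Finset.card_image_le ?_)
  rw [Finset.card_sigma]
  simp

theorem PK.paths_le (h : PK G k) (hk : 1 ≤ k) {j : ℕ} (hj : j ≤ k) :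
    (paths G (k + 1 + j)).card ≤ (paths G (k + 1)).card * (Fintype.card V - 1) := by
  have h1 : ((paths G (k + 1)).sigma (fun l => Finset.univ.filter (fun y => l.head? ≠ some y))).card
      = (paths G (k + 1)).card * (Fintype.card V - 1) := by
    rw [Finset.card_sigma]
    rw [Finset.sum_congr rfl (g := fun _ => Fintype.card V - 1), Finset.sum_const, smul_eq_mul]
    intro l hl
    rw [mem_paths] at hl
    obtain ⟨a, b, ha, hb⟩ := exists_head_last (ne_nil_of_length hl.2 (by omega))
    have : Finset.univ.filter (fun y => l.head? ≠ some y) = Finset.univ.erase a := by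
      ext y
      simp only [Finset.mem_filter, Finset.mem_univ, true_and, ha, Finset.mem_erase, ne_eq,
        Option.some.injEq, and_true]
      exact not_congr eq_comm
    rw [this, Finset.card_erase_of_mem (Finset.mem_univ a), Finset.card_univ]
  rw [← h1]
  rcases isEmpty_or_nonempty V with hV | hV
  · refine le_trans (le_of_eq ?_) (Nat.zero_le _)
    rw [Finset.card_eq_zero, Finset.eq_empty_iff_forall_notMem]
    intro l hl
    rw [mem_paths] at hl
    exact ne_nil_of_length hl.2 (by omega) (by
      cases l with
      | nil => rfl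
      | cons a l' => exact (hV.false a).elim)
  obtain ⟨o⟩ := hV
  refine Finset.card_le_card_of_injOn (fun l => ⟨l.take (k + 1), (l.getLast?).getD o⟩) ?_ ?_
  · intro l hl
    rw [Finset.mem_coe, mem_paths] at hl
    obtain ⟨hP, hlen⟩ := hl
    obtain ⟨a, b, ha, hb⟩ := exists_head_last (ne_nil_of_length hlen (by omega))
    rw [Finset.mem_coe, Finset.mem_sigma, mem_paths]
    refine ⟨⟨hP.take _, by rw [List.length_take]; omega⟩, ?_⟩
    simp only [hb, Option.getD_some, Finset.mem_filter, Finset.mem_univ, true_and]
    rw [List.head?_take, if_neg (by omega), ha]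
    intro hab
    exact hP.ends_ne (by omega) ha hb (Option.some.inj hab)
  · intro l hl m hm hlm
    rw [Finset.mem_coe, mem_paths] at hl hm
    obtain ⟨a, b, ha, hb⟩ := exists_head_last (ne_nil_of_length hl.2 (by omega))
    obtain ⟨a', b', ha', hb'⟩ := exists_head_last (ne_nil_of_length hm.2 (by omega))
    simp only [hb, hb', Option.getD_some, Sigma.mk.injEq, heq_eq_eq] at hlm
    obtain ⟨ht, hbb⟩ := hlm
    have hdl : (l.drop j).length = k + 1 := by rw [List.length_drop]; omega
    have hdm : (m.drop j).length = k + 1 := by rw [List.length_drop]; omega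
    have hd : l.drop j = m.drop j := by
      refine h.uniq (hl.1.drop j) (hm.1.drop j) hdl hdm ?_ ?_ hk
      · rw [List.head?_drop, List.head?_drop]
        have : l[j]? = (l.take (k + 1))[j]? := by
          rw [List.getElem?_take, if_pos (by omega)]
        rw [this, ht, List.getElem?_take, if_pos (by omega)]
      · rw [List.getLast?_drop, List.getLast?_drop, if_neg (by omega), if_neg (by omega), hb, hb', hbb]
    rw [← List.take_append_drop j l, ← List.take_append_drop j m, hd]
    congr 1
    have h3 : l.take j = (l.take (k + 1)).take j := by rw [List.take_take, min_eq_left (by omega)]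
    rw [h3, ht, List.take_take, min_eq_left (by omega)]

/-- `(k+1)`-paths from `w`: a neighbour `y` of `w`, then the `k`-path from `y` to the end, which avoids `w`, `y` -/
theorem PK.paths_root_le (h : PK G k) (hk : 1 ≤ k) (w : V) :
    ((paths G (k + 2)).filter (fun l => l.head? = some w)).card
      ≤ G.degree w * (Fintype.card V - 2) := by
  have h1 : ((G.neighborFinset w).sigma (fun y => (Finset.univ.erase w).erase y)).card
      = G.degree w * (Fintype.card V - 2) := by
    rw [Finset.card_sigma]
    rw [Finset.sum_congr rfl (g := fun _ => Fintype.card V - 2), Finset.sum_const, smul_eq_mul,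
      SimpleGraph.card_neighborFinset_eq_degree]
    intro y hy
    rw [SimpleGraph.mem_neighborFinset] at hy
    rw [Finset.card_erase_of_mem (Finset.mem_erase.2 ⟨hy.ne', Finset.mem_univ _⟩),
      Finset.card_erase_of_mem (Finset.mem_univ w), Finset.card_univ]
    omega
  rw [← h1]
  refine Finset.card_le_card_of_injOn (fun l => ⟨(l[1]?).getD w, (l.getLast?).getD w⟩) ?_ ?_
  · intro l hl
    rw [Finset.mem_coe, Finset.mem_filter, mem_paths] at hl
    obtain ⟨⟨hP, hlen⟩, hhead⟩ := hl
    match l, hP, hlen, hhead with
    | [], _, hlen, _ => simp at hlen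
    | [_], _, hlen, _ => simp at hlen
    | a :: y :: l', hP, hlen, hhead =>
      rw [List.head?_cons, Option.some.injEq] at hhead
      subst hhead
      obtain ⟨a', b, ha, hb⟩ := exists_head_last (l := a :: y :: l') (by simp)
      have h2 := isP_cons.1 hP
      have hne1 := hP.ends_ne (by omega) (List.head?_cons) hb
      have hb2 : (y :: l').getLast? = some b := by
        rw [List.getLast?_cons_cons] at hb
        exact hb
      have hne2 := h2.2.1.ends_ne (by simp at hlen ⊢; omega) (List.head?_cons) hb2
      rw [Finset.mem_coe, Finset.mem_sigma]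
      simp only [hb, List.getElem?_cons_succ, List.getElem?_cons_zero, Option.getD_some,
        SimpleGraph.mem_neighborFinset, Finset.mem_erase, Finset.mem_univ, and_true]
      exact ⟨h2.2.2 y (by simp), hne2.symm, hne1.symm⟩
  · intro l hl m hm hlm
    rw [Finset.mem_coe, Finset.mem_filter, mem_paths] at hl hm
    obtain ⟨⟨hP, hlen⟩, hhead⟩ := hl
    obtain ⟨⟨hPm, hlenm⟩, hheadm⟩ := hm
    match l, hP, hlen, hhead, hlm with
    | [], _, hlen, _, _ => simp at hlen
    | [_], _, hlen, _, _ => simp at hlen
    | a :: y :: l', hP, hlen, hhead, hlm =>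
      match m, hPm, hlenm, hheadm, hlm with
      | [], _, hlenm, _, _ => simp at hlenm
      | [_], _, hlenm, _, _ => simp at hlenm
      | a2 :: y2 :: m', hPm, hlenm, hheadm, hlm =>
        rw [List.head?_cons, Option.some.injEq] at hhead hheadm
        subst hhead
        subst hheadm
        obtain ⟨a', b, ha, hb⟩ := exists_head_last (l := a2 :: y :: l') (by simp)
        obtain ⟨a'', b', ha', hb'⟩ := exists_head_last (l := a2 :: y2 :: m') (by simp)
        simp only [hb, hb', Option.getD_some, Sigma.mk.injEq, heq_eq_eq, List.getElem?_cons_succ,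
          List.getElem?_cons_zero] at hlm
        obtain ⟨hy, hbb⟩ := hlm
        subst hy
        subst hbb
        rw [List.getLast?_cons_cons] at hb hb'
        have := h.uniq (isP_cons.1 hP).2.1 (isP_cons.1 hPm).2.1 (by simpa using hlen)
          (by simpa using hlenm) (by simp) (by rw [hb, hb']) hk
        rw [this]

end Pool.Agent.Work.KZ
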