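import Mathlib

set_option autoImplicit false

namespace Pool.Agent.Work.KZ

theorem pow_step (k : ℕ) (hk : 8 ≤ k) : (k + 1 + 1) ^ 6 ≤ 2 * (k + 1) ^ 6 := by
  have h2 : 9 * (k + 1 + 1) ≤ 10 * (k + 1) := by omega
  have h3 : (9 * (k + 1 + 1)) ^ 6 ≤ (10 * (k + 1)) ^ 6 := Nat.pow_le_pow_left h2 6
  rw [mul_pow, mul_pow] at h3
  have h4 : (10 : ℕ) ^ 6 ≤ 9 ^ 6 * 2 := by norm_num
  have h5 : 10 ^ 6 * (k + 1) ^ 6 ≤ 9 ^ 6 * 2 * (k + 1) ^ 6 := Nat.mul_le_mul_right _ h4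
  have h6 : 9 ^ 6 * (k + 1 + 1) ^ 6 ≤ 9 ^ 6 * (2 * (k + 1) ^ 6) := by
    rw [← mul_assoc]; exact h3.trans h5
  exact Nat.le_of_mul_le_mul_left h6 (by norm_num)

theorem pow_bound_a (k : ℕ) (hk : 40 ≤ k) : 4 * (k + 1) ^ 6 < 2 ^ k := by
  induction k, hk using Nat.le_induction with
  | base => norm_num
  | succ k hk ih =>
    have h1 := pow_step k (by omega)
    rw [pow_succ 2 k]
    omega

theorem pow_bound_b (k : ℕ) (hk : 60 ≤ k) : 4 * (k + 1) ^ 6 < 2 ^ (k - 6) := by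
  induction k, hk using Nat.le_induction with
  | base => norm_num
  | succ k hk ih =>
    have h1 := pow_step k (by omega)
    rw [show k + 1 - 6 = (k - 6) + 1 by omega, pow_succ 2 (k - 6)]
    omega

/-- all degrees at least 6 -/
theorem numeric6 (M : ℕ → ℕ) (k v : ℕ) (hk : 40 ≤ k) (hN : 0 < M 0)
    (h1 : 3 * M 0 ≤ M 1)
    (hr : ∀ j, 1 ≤ j → j + 1 ≤ k → 4 * M j + 3 * M (j - 1) ≤ M (j + 1) + 2 * j * M 0)
    (hU : M k ≤ M 0 * (v - 1)) (hV : v ≤ 4 * (k + 1) ^ 6) : False := by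
  have key : ∀ j, 1 ≤ j → j ≤ k → (2 ^ j + j) * M 0 ≤ M j := by
    intro j hj
    induction j, hj using Nat.le_induction with
    | base => intro _; simpa using h1
    | succ j hj ih =>
      intro hjk
      have h2 := ih (by omega)
      have h3 := hr j hj hjk
      have h4 : (1 : ℕ) ≤ 2 ^ j := Nat.one_le_two_pow
      rw [pow_succ]
      nlinarith [Nat.zero_le (M 0), Nat.zero_le (M (j - 1)), Nat.mul_le_mul_right (M 0) h4, Nat.mul_le_mul_right (M 0) hj]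
  have h5 := key k (by omega) le_rfl
  have h6 : M 0 * (2 ^ k + k) ≤ M 0 * (v - 1) := by rw [mul_comm (M 0) (2 ^ k + k)]; exact h5.trans hU
  have h7 := Nat.le_of_mul_le_mul_left h6 hN
  have h8 := pow_bound_a k hk
  omega

/-- the case of a vertex of degree 4 -/
theorem numeric4 (M : ℕ → ℤ) (k : ℕ) (v S a1 a2 : ℤ) (hk : 100 ≤ k) (hv : (k : ℤ) + 1 ≤ v)
    (hS1 : 4 * v ≤ S) (hS2 : S ≤ 7 * v) (h0 : M 0 = v * (v - 1))
    (h1 : (v - 1) * S ≤ M 1 + 3 * M 0) (ha1 : a1 ≤ S) (_ha20 : 0 ≤ a2)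
    (ha2 : ((k : ℤ) + 1) * a2 ≤ S * S)
    (h2 : 2 * M 1 + M 0 ≤ M 2 + (a1 + a2))
    (h3 : 2 * M 2 + M 1 ≤ M 3 + 2 * (a2 + M 0))
    (hr : ∀ j : ℕ, 3 ≤ j → j + 1 ≤ k → 2 * M j + M (j - 1) ≤ M (j + 1) + 2 * j * M 0)
    (hU : M k ≤ M 0 * (v - 1)) (hV : v ≤ 4 * ((k : ℤ) + 1) ^ 6) : False := by
  have hv101 : (101 : ℤ) ≤ v := by
    have : (100 : ℤ) ≤ k := by exact_mod_cast hk
    linarith
  have ha2' : 101 * a2 ≤ S * S := by
    have : (100 : ℤ) ≤ k := by exact_mod_cast hk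
    nlinarith
  obtain ⟨s, hs⟩ : ∃ s, S = 4 * v + s := ⟨S - 4 * v, by ring⟩
  subst hs
  have hs0 : 0 ≤ s := by linarith
  have hs3 : s ≤ 3 * v := by linarith
  have hM1 : (v - 1) * (v + s) ≤ M 1 := by rw [h0] at h1; nlinarith
  have hN : 0 < M 0 := by rw [h0]; nlinarith
  -- y j = M j - (j+1) M 0
  have hq3 : 0 ≤ 5 * M 1 - 4 * M 0 - 2 * a1 - 4 * a2 := by
    have : 0 ≤ 101 * (5 * M 1 - 4 * M 0 - 2 * a1 - 4 * a2) := by
      rw [h0]
      nlinarith [mul_nonneg hs0 (sub_nonneg.2 hs3), mul_nonneg hs0 (sub_nonneg.2 hv101),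
        mul_nonneg (sub_nonneg.2 hv101) (sub_nonneg.2 hv101)]
    linarith
  have hq4 : M 0 ≤ 4 * (12 * M 1 - 10 * M 0 - 5 * a1 - 9 * a2) := by
    have : 101 * M 0 ≤ 404 * (12 * M 1 - 10 * M 0 - 5 * a1 - 9 * a2) := by
      rw [h0]
      nlinarith [mul_nonneg hs0 (sub_nonneg.2 hs3), mul_nonneg hs0 (sub_nonneg.2 hv101),
        mul_nonneg (sub_nonneg.2 hv101) (sub_nonneg.2 hv101)]
    linarith
  have hy3 : 0 ≤ M 3 - 4 * M 0 := by linarith
  have h4 := hr 3 le_rfl (by omega)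
  norm_num at h4
  have hy4 : M 0 ≤ 4 * (M 4 - 5 * M 0) := by linarith
  have key : ∀ j : ℕ, 4 ≤ j → j ≤ k →
      0 ≤ M (j - 1) - j * M 0 ∧ 2 ^ (j - 4) * M 0 ≤ 4 * (M j - (j + 1) * M 0) := by
    intro j hj
    induction j, hj using Nat.le_induction with
    | base =>
      intro _
      constructor
      · norm_num; linarith
      · norm_num; linarith
    | succ j hj ih =>
      intro hjk
      obtain ⟨i1, i2⟩ := ih (by omega)
      have h5 := hr j (by omega) hjk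
      have hp : (0 : ℤ) ≤ 2 ^ (j - 4) * M 0 := by positivity
      constructor
      · have : j + 1 - 1 = j := by omega
        rw [this]
        push_cast
        linarith
      · rw [show j + 1 - 4 = (j - 4) + 1 by omega, pow_succ]
        push_cast
        nlinarith
  obtain ⟨_, h6⟩ := key k (by omega) le_rfl
  have h7 : 2 ^ (k - 4) * M 0 ≤ 4 * (M 0 * (v - 1)) := by
    have : (0 : ℤ) ≤ ((k : ℤ) + 1) * M 0 := by positivity
    linarith
  have h8 : (2 : ℤ) ^ (k - 4) ≤ 4 * (v - 1) := by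
    have : M 0 * 2 ^ (k - 4) ≤ M 0 * (4 * (v - 1)) := by linarith
    exact le_of_mul_le_mul_left this hN
  have h9 : (4 : ℤ) * ((k : ℤ) + 1) ^ 6 < 2 ^ (k - 6) := by exact_mod_cast pow_bound_b k (by omega)
  have h10 : (2 : ℤ) ^ (k - 4) = 4 * 2 ^ (k - 6) := by
    rw [show k - 4 = (k - 6) + 2 by omega, pow_add]; ring
  linarith

end Pool.Agent.Work.KZ
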