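import Pool.Agent.Work.MP_f0e709_co.M1b
import Pool.Agent.Work.MP_f0e709_co.M2
import Pool.Agent.Work.MP_f0e709_co.M3
import Pool.Agent.Work.MP_f0e709_co.M4a
import Pool.Agent.Work.MP_f0e709_co.M4b
import Pool.Agent.Work.MP_f0e709_co.M4c
import Pool.Agent.Work.MP_f0e709_co.Num

set_option autoImplicit false
set_option linter.unusedSectionVars false

namespace Pool.Agent.Work.KZ

variable {V : Type*} [Fintype V] [DecidableEq V] {G : SimpleGraph V} [DecidableRel G.Adj] {k : ℕ}

theorem degLast_ge {d : ℕ} (hd : ∀ x, d ≤ G.degree x) {l : List V} (hl : l ≠ []) :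
    d ≤ degLast G l := by
  obtain ⟨a, ha⟩ : ∃ a, l.getLast? = some a := by
    cases h : l.getLast? with
    | none => exact absurd (List.getLast?_eq_none_iff.1 h) hl
    | some a => exact ⟨a, rfl⟩
  simp [degLast, ha, hd a]

theorem sum_degLast_ge {d n : ℕ} (hd : ∀ x, d ≤ G.degree x) (hn : 1 ≤ n) :
    d * (paths G n).card ≤ ∑ l ∈ paths G n, degLast G l := by
  rw [mul_comm, ← smul_eq_mul]
  apply Finset.card_nsmul_le_sum
  intro l hl
  apply degLast_ge hd
  rintro rfl
  rw [mem_paths] at hl
  simp at hl
  omega

/-- uniqueness of paths with a common start of `j+1` vertices, `j + k` or `j + k + 1` vertices in total -/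
theorem PK.uniq_drop (h : PK G k) (hk : 1 ≤ k) {s n : ℕ} (_hs : 1 ≤ s) (hn : n ≤ k + s) (hn2 : k + 1 ≤ n)
    (l m : List V) (hl : IsP G l) (hm : IsP G m) (hll : l.length = n) (hml : m.length = n)
    (ht : l.take s = m.take s) (hlast : l.getLast? = m.getLast?) : l = m := by
  -- drop the first n - (k+1) vertices
  set i := n - (k + 1) with hi
  have hi1 : i < s := by omega
  have hdrop : l.drop i = m.drop i := by
    refine h.uniq (hl.drop i) (hm.drop i) (by rw [List.length_drop]; omega)
      (by rw [List.length_drop]; omega) ?_ ?_ hk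
    · rw [List.head?_drop, List.head?_drop]
      have h1 : (l.take s)[i]? = (m.take s)[i]? := by rw [ht]
      rw [List.getElem?_take_of_lt hi1, List.getElem?_take_of_lt hi1] at h1
      exact h1
    · rw [List.getLast?_drop, List.getLast?_drop]
      rw [if_neg (by omega), if_neg (by omega)]
      exact hlast
  have htake : l.take i = m.take i := by
    have h1 : (l.take s).take i = (m.take s).take i := by rw [ht]
    rw [List.take_take, List.take_take, min_eq_left hi1.le] at h1
    exact h1
  rw [← List.take_append_drop i l, htake, hdrop, List.take_append_drop]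

theorem PK.growth (h : PK G k) (hk : 3 ≤ k) {d j : ℕ} (hd : ∀ x, d ≤ G.degree x) (hd3 : 3 ≤ d)
    (hj : 1 ≤ j) :
    (d - 2) * (paths G (k + 1 + j)).card + (d - 3) * (paths G (k + j)).card
      ≤ (paths G (k + 2 + j)).card
        + j * (((paths G (k + j)).image (List.take (j + 1))).card
          + ((paths G (k + j + 1)).image (List.take (j + 2))).card) := by
  have e1 := ext_count (G := G) (n := k + j + 1) (by omega)
  have e2 := ext_count (G := G) (n := k + j) (by omega)
  have d1 := sum_degLast_ge (G := G) hd (n := k + j + 1) (by omega)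
  have d2 := sum_degLast_ge (G := G) hd (n := k + j) (by omega)
  have s1 := h.small_top hk hj
  have s2 := h.small_bot hk hj
  have f := forest_two (G := G) (n := k + j) (s := j + 1) (by omega)
    (fun l m hl hm hll hml ht hlast => h.uniq_drop (by omega) (s := j + 1) (n := k + j) (by omega) (by omega)
      (by omega) l m hl hm hll hml ht hlast)
    (fun l m hl hm hll hml ht hlast => h.uniq_drop (by omega) (s := j + 1) (n := k + j + 1) (by omega)
      (by omega) (by omega) l m hl hm hll hml ht hlast)
  rw [show k + 1 + j = k + j + 1 by ring, show k + 2 + j = k + j + 1 + 1 by ring]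
  obtain ⟨e, rfl⟩ : ∃ e, d = e + 3 := ⟨d - 3, by omega⟩
  simp only [show e + 3 - 2 = e + 1 by omega, show e + 3 - 3 = e by omega]
  set M2 := (paths G (k + j + 1 + 1)).card
  set M1 := (paths G (k + j + 1)).card
  set M0 := (paths G (k + j)).card
  set A := ((paths G (k + j)).image (List.take (j + 1))).card
  set B := ((paths G (k + j + 1)).image (List.take (j + 2))).card
  nlinarith

/-- growth at the start -/
theorem PK.growth0 (h : PK G k) (hk : 3 ≤ k) :
    ∑ l ∈ paths G (k + 1), degLast G l ≤ (paths G (k + 2)).card + 3 * (paths G (k + 1)).card := by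
  have e1 := ext_count (G := G) (n := k + 1) (by omega)
  have f := forest_one (G := G) (n := k + 1) (s := 1) le_rfl
    (fun l m hl hm hll hml ht hlast => h.uniq_drop (by omega) (s := 1) (n := k + 1) (by omega) (by omega)
      (by omega) l m hl hm hll hml ht hlast)
  rw [show k + 1 + 1 = k + 2 by ring] at e1
  omega

/-- the average degree bound -/
theorem PK.sum_degree_le [Nontrivial V] (h : PK G k) (hk : 3 ≤ k) (w : V) :
    ∑ y, G.degree y + 2 ≤ (G.degree w + 3) * (Fintype.card V - 1) := by
  have hv : 2 ≤ Fintype.card V := Fintype.one_lt_card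
  have e1 := ext_count_root (G := G) w (n := k + 1) (by omega)
  have f := forest_root (G := G) w (n := k + 1)
    (fun l m hl hm hll hml hlh hmh hlast => h.uniq hl hm hll hml (by rw [hlh, hmh]) hlast (by omega)) (by
      obtain ⟨v, hv⟩ := exists_ne w
      obtain ⟨l, hl, hll, hlh, hlt⟩ := h.exists hv.symm
      exact ⟨l, hl, hll, hlh⟩)
  have s := h.sum_degLast_root (by omega) w
  have p := h.paths_root_le (by omega) w
  have c := h.card_paths_root (by omega) w
  rw [c] at f e1
  rw [show k + 1 + 1 = k + 2 by ring] at e1
  generalize Fintype.card V = v at *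
  obtain ⟨u, rfl⟩ : ∃ u, v = u + 2 := ⟨v - 2, by omega⟩
  rw [show u + 2 - 1 = u + 1 by omega] at *
  rw [show u + 2 - 2 = u by omega] at p
  nlinarith

/-! ### a vertex of degree two -/

theorem PK.exists_degree_two_aux [Nontrivial V] (h : PK G k) (hk : 100 ≤ k)
    (hcard : Fintype.card V ≤ 4 * (k + 1) ^ 6) (hd4 : ∀ x, 4 ≤ G.degree x) : False := by
  have hk3 : 3 ≤ k := by omega
  have hv2 : 2 ≤ Fintype.card V := Fintype.one_lt_card
  have hvk : k + 1 ≤ Fintype.card V := h.le_card
  have hM0 := h.card_paths (by omega)
  have hU := h.paths_le (by omega) (j := k) le_rfl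
  set v := Fintype.card V with hv
  -- the sequence
  set M : ℕ → ℕ := fun j => (paths G (k + 1 + j)).card with hM
  have hM00 : M 0 = v * (v - 1) := by rw [hM]; simpa using hM0
  have hMk : M k ≤ M 0 * (v - 1) := by rw [hM]; simpa using hU
  have hNpos : 0 < M 0 := by
    rw [hM00]
    exact Nat.mul_pos (by omega) (by omega)
  have halpha : ∀ n i, i ≤ k + 1 → k + 1 ≤ n → ((paths G n).image (List.take i)).card ≤ M 0 := by
    intro n i hi hn
    have := h.alpha_le hi hn
    rw [hM]; simpa using this
  have h1 : ∑ l ∈ paths G (k + 1), degLast G l ≤ M 1 + 3 * M 0 := by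
    have := h.growth0 hk3
    rw [hM]
    simpa using this
  by_cases hw : ∃ w, G.degree w = 4
  · obtain ⟨w, hw⟩ := hw
    have hS := h.sum_degree_le hk3 w
    rw [hw, ← hv] at hS
    set S := ∑ y, G.degree y with hSdef
    have hS1 : 4 * v ≤ S := by
      have : ∑ _y : V, 4 ≤ ∑ y, G.degree y := Finset.sum_le_sum (fun y _ => hd4 y)
      simp at this
      rw [← hv] at this
      linarith
    have hsd := h.sum_degLast (by omega)
    rw [← hv, ← hSdef] at hsd
    have ha1 := alpha_two_le (G := G) (n := k + 1) (by omega)
    have ha2 := alpha_three_le (G := G) (n := k + 2) (by omega)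
    set a1 := ((paths G (k + 1)).image (List.take 2)).card with ha1def
    set a2 := ((paths G (k + 2)).image (List.take 3)).card with ha2def
    have ha2' : (k + 1) * a2 ≤ S * S := by
      calc (k + 1) * a2 ≤ (k + 1) * ∑ x, G.degree x * G.degree x := Nat.mul_le_mul_left _ ha2
        _ = ∑ x, ((k + 1) * G.degree x) * G.degree x := by
            rw [Finset.mul_sum]; exact Finset.sum_congr rfl (fun x _ => by ring)
        _ ≤ ∑ x, S * G.degree x :=
            Finset.sum_le_sum (fun x _ => Nat.mul_le_mul_right _ (h.mul_degree_le hk3 x))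
        _ = S * S := by rw [← Finset.mul_sum]
    have g : ∀ j, 1 ≤ j → 2 * M j + M (j - 1) ≤ M (j + 1)
        + j * (((paths G (k + j)).image (List.take (j + 1))).card
          + ((paths G (k + j + 1)).image (List.take (j + 2))).card) := by
      intro j hj
      have := h.growth hk3 hd4 (by norm_num) hj
      simp only [hM]
      rw [show k + 1 + (j - 1) = k + j by omega, show k + 1 + (j + 1) = k + 2 + j by omega]
      norm_num at this
      exact this
    have g1 := g 1 le_rfl
    have g2 := g 2 (by norm_num)
    norm_num at g1 g2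
    rw [← ha1def, ← ha2def] at g1
    rw [show k + 2 + 1 = k + 3 by ring, ← ha2def] at g2
    have g2' : 2 * M 2 + M 1 ≤ M 3 + 2 * (a2 + M 0) := by
      have := halpha (k + 3) 4 (by omega) (by omega)
      omega
    have hr : ∀ j : ℕ, 3 ≤ j → j + 1 ≤ k → 2 * M j + M (j - 1) ≤ M (j + 1) + 2 * j * M 0 := by
      intro j hj hjk
      have e := g j (by omega)
      have e1 := halpha (k + j) (j + 1) (by omega) (by omega)
      have e2 := halpha (k + j + 1) (j + 2) (by omega) (by omega)
      have : j * (((paths G (k + j)).image (List.take (j + 1))).card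
          + ((paths G (k + j + 1)).image (List.take (j + 2))).card) ≤ j * (M 0 + M 0) :=
        Nat.mul_le_mul_left _ (by omega)
      nlinarith
    refine numeric4 (fun j => (M j : ℤ)) k (v : ℤ) (S : ℤ) (a1 : ℤ) (a2 : ℤ) hk (by exact_mod_cast hvk)
      (by exact_mod_cast hS1) ?_ ?_ ?_ (by exact_mod_cast ha1) (by positivity) (by exact_mod_cast ha2')
      ?_ ?_ ?_ ?_ ?_
    · have : S ≤ 7 * v := by omega
      exact_mod_cast this
    · simp only [hM00]
      push_cast [Nat.cast_sub (show 1 ≤ v by omega)]
      ring
    · rw [hsd] at h1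
      have h2 : ((v - 1 : ℕ) : ℤ) * S ≤ M 1 + 3 * M 0 := by exact_mod_cast h1
      rw [Nat.cast_sub (by omega)] at h2
      simpa using h2
    · exact_mod_cast g1
    · exact_mod_cast g2'
    · intro j hj hjk
      exact_mod_cast hr j hj hjk
    · have h2 : ((M k : ℕ) : ℤ) ≤ M 0 * ((v - 1 : ℕ) : ℤ) := by exact_mod_cast hMk
      rw [Nat.cast_sub (by omega)] at h2
      simpa using h2
    · exact_mod_cast hcard
  · push Not at hw
    have hd6 : ∀ x, 6 ≤ G.degree x := by
      intro x
      have e := h.even_degree hk3 x
      have h4 := hd4 x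
      have h5 := hw x
      obtain ⟨r, hr⟩ := e
      omega
    have hsd6 := sum_degLast_ge hd6 (n := k + 1) (by omega)
    refine numeric6 M k v (by omega) hNpos ?_ ?_ hMk hcard
    · have : 6 * M 0 ≤ ∑ l ∈ paths G (k + 1), degLast G l := by
        rw [hM]; simpa using hsd6
      omega
    · intro j hj hjk
      have e := h.growth hk3 hd6 (by norm_num) hj
      have e1 := halpha (k + j) (j + 1) (by omega) (by omega)
      have e2 := halpha (k + j + 1) (j + 2) (by omega) (by omega)
      have e3 : j * (((paths G (k + j)).image (List.take (j + 1))).card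
          + ((paths G (k + j + 1)).image (List.take (j + 2))).card) ≤ j * (M 0 + M 0) :=
        Nat.mul_le_mul_left _ (by omega)
      have e4 : 4 * M j + 3 * M (j - 1) ≤ M (j + 1)
        + j * (((paths G (k + j)).image (List.take (j + 1))).card
          + ((paths G (k + j + 1)).image (List.take (j + 2))).card) := by
        simp only [hM]
        rw [show k + 1 + (j - 1) = k + j by omega, show k + 1 + (j + 1) = k + 2 + j by omega]
        norm_num at e
        exact e
      nlinarith

/-- for `k ≥ 100` every `P(k)`-graph with the polynomial bound has a vertex of degree two -/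
theorem PK.exists_degree_two [Nontrivial V] (h : PK G k) (hk : 100 ≤ k)
    (hcard : Fintype.card V ≤ 4 * (k + 1) ^ 6) : ∃ x, G.degree x = 2 := by
  by_contra hcon
  push Not at hcon
  refine h.exists_degree_two_aux hk hcard ?_
  intro x
  have e := h.even_degree (by omega) x
  have p := h.degree_pos (by omega) x
  have h5 := hcon x
  obtain ⟨r, hr⟩ := e
  omega

end Pool.Agent.Work.KZ
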