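import Pool.Agent.Work.MP_f0e709_co.M2
import Pool.Agent.Work.MP_f0e709_co.M4d
import Pool.Agent.Work.MP_f0e709_co.M1b

/-! The parity theorem for `(k+2)`-cycles of a `P(k)`-graph. -/

set_option autoImplicit false
set_option linter.unusedSectionVars false

namespace Pool.Agent.Work.KZ

open scoped Classical

variable {V : Type*} [Fintype V] {G : SimpleGraph V} {k : ℕ}

/-! ### evenness from involutions -/

theorem even_card_of_invol {α : Type*} (s : Finset α) (f : α → α) (h1 : ∀ a ∈ s, f a ∈ s)
    (h2 : ∀ a ∈ s, f (f a) = a) (h3 : ∀ a ∈ s, f a ≠ a) : Even s.card := by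
  have h : ∑ a ∈ s, (1 : ZMod 2) = 0 := by
    refine Finset.sum_involution (fun a _ => f a) ?_ ?_ ?_ ?_
    · intro a _; decide
    · intro a ha _; exact h3 a ha
    · intro a ha; exact h1 a ha
    · intro a ha; exact h2 a ha
  rw [Finset.sum_const, nsmul_eq_mul, mul_one] at h
  rw [ZMod.natCast_eq_zero_iff_even] at h
  exact h

/-- two commuting-type involutions: `f` acts on the first coordinate, `g` on the second one -/
theorem four_dvd_card {α β : Type*} [DecidableEq α] (T : Finset (α × β)) (f : α → α) (g : β → β)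
    (hf : ∀ x ∈ T, (f x.1, x.2) ∈ T) (hff : ∀ x ∈ T, f (f x.1) = x.1) (hf' : ∀ x ∈ T, f x.1 ≠ x.1)
    (hg : ∀ x ∈ T, (x.1, g x.2) ∈ T) (hgg : ∀ x ∈ T, g (g x.2) = x.2) (hg' : ∀ x ∈ T, g x.2 ≠ x.2) :
    4 ∣ T.card := by
  set S := T.image Prod.fst with hS
  set F : α → Finset (α × β) := fun a => T.filter (fun x => x.1 = a) with hF
  have hcard : T.card = ∑ a ∈ S, (F a).card :=
    Finset.card_eq_sum_card_fiberwise (fun x hx => Finset.mem_coe.2 (Finset.mem_image_of_mem _ hx))
  have heven : ∀ a, Even (F a).card := by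
    intro a
    refine even_card_of_invol _ (fun x => (x.1, g x.2)) ?_ ?_ ?_
    · intro x hx
      rw [hF, Finset.mem_filter] at hx ⊢
      exact ⟨hg x hx.1, hx.2⟩
    · intro x hx
      rw [hF, Finset.mem_filter] at hx
      simp [hgg x hx.1]
    · intro x hx he
      rw [hF, Finset.mem_filter] at hx
      exact hg' x hx.1 (congrArg Prod.snd he)
  have hinv : ∀ a ∈ S, (F (f a)).card = (F a).card := by
    intro a ha
    rw [hS, Finset.mem_image] at ha
    obtain ⟨x0, hx0, rfl⟩ := ha
    refine Finset.card_bij' (fun x _ => (f x.1, x.2)) (fun x _ => (f x.1, x.2)) ?_ ?_ ?_ ?_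
    · intro x hx
      rw [hF, Finset.mem_filter] at hx ⊢
      refine ⟨hf x hx.1, ?_⟩
      simp only
      rw [hx.2, hff x0 hx0]
    · intro x hx
      rw [hF, Finset.mem_filter] at hx ⊢
      refine ⟨hf x hx.1, ?_⟩
      simp only
      rw [hx.2]
    · intro x hx
      rw [hF, Finset.mem_filter] at hx
      simp [hff x hx.1]
    · intro x hx
      rw [hF, Finset.mem_filter] at hx
      simp [hff x hx.1]
  have h2 : ∑ a ∈ S, (((F a).card / 2 : ℕ) : ZMod 2) = 0 := by
    refine Finset.sum_involution (fun a _ => f a) ?_ ?_ ?_ ?_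
    · intro a ha
      rw [hinv a ha]
      exact CharTwo.add_self_eq_zero _
    · intro a ha _
      rw [hS, Finset.mem_image] at ha
      obtain ⟨x, hx, rfl⟩ := ha
      exact hf' x hx
    · intro a ha
      rw [hS, Finset.mem_image] at ha ⊢
      obtain ⟨x, hx, rfl⟩ := ha
      exact ⟨_, hf x hx, rfl⟩
    · intro a ha
      rw [hS, Finset.mem_image] at ha
      obtain ⟨x, hx, rfl⟩ := ha
      exact hff x hx
  have h3 : (((∑ a ∈ S, (F a).card / 2 : ℕ)) : ZMod 2) = 0 := by
    rw [← h2]; push_cast; rfl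
  rw [ZMod.natCast_eq_zero_iff_even] at h3
  have h4 : T.card = 2 * ∑ a ∈ S, (F a).card / 2 := by
    rw [hcard, Finset.mul_sum]
    refine Finset.sum_congr rfl ?_
    intro a _
    obtain ⟨c, hc⟩ := heven a
    omega
  obtain ⟨c, hc⟩ := h3
  exact ⟨c, by omega⟩

/-! ### lists closed at a vertex -/

/-- `DD G y A`: `A` is a path avoiding `y` whose two ends are adjacent to `y`. -/
def DD (G : SimpleGraph V) (y : V) (A : List V) : Prop :=
  IsP G A ∧ y ∉ A ∧ (∀ x ∈ A.head?, G.Adj x y) ∧ (∀ x ∈ A.getLast?, G.Adj x y) ∧ A ≠ []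

theorem DD.reverse {y : V} {A : List V} (h : DD G y A) : DD G y A.reverse := by
  obtain ⟨h1, h2, h3, h4, h5⟩ := h
  refine ⟨h1.reverse, by simpa using h2, ?_, ?_, by simpa using h5⟩
  · rw [List.head?_reverse]; exact h4
  · rw [List.getLast?_reverse]; exact h3

theorem reverse_ne_self {A : List V} (h : A.Nodup) (hl : 2 ≤ A.length) : A.reverse ≠ A := by
  intro e
  have h0 : 0 < A.length := by omega
  have e2 : A[0] = A[A.length - 1] := by
    have h3 : A[0] = A.reverse[0]'(by simpa using h0) := by
      simp only [e]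
    rw [h3, List.getElem_reverse]
    simp
  have := (h.getElem_inj_iff).1 e2
  omega

theorem finite_TT (G : SimpleGraph V) (k : ℕ) (y : V) :
    {x : List V × List V | DD G y x.1 ∧ DD G y x.2 ∧ x.1.Disjoint x.2 ∧
      x.1.length + x.2.length = k}.Finite := by
  refine (((List.finite_length_lt V (k + 1)).prod (List.finite_length_lt V (k + 1)))).subset ?_
  rintro x ⟨_, _, _, h⟩
  constructor <;> simp <;> omega

/-- the `k`-paths through `y` with both ends adjacent to `y`, `y` not an end, written `A ++ y :: B` -/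
noncomputable def TT (G : SimpleGraph V) (k : ℕ) (y : V) : Finset (List V × List V) :=
  (finite_TT G k y).toFinset

theorem mem_TT {y : V} {x : List V × List V} : x ∈ TT G k y ↔ DD G y x.1 ∧ DD G y x.2 ∧
    x.1.Disjoint x.2 ∧ x.1.length + x.2.length = k := by
  simp [TT]

theorem four_dvd_TT (hk : 3 ≤ k) (y : V) : 4 ∣ (TT G k y).card := by
  -- split by the length of the first part
  set T := TT G k y with hT
  have hlen : ∀ x ∈ T, 1 ≤ x.1.length ∧ 1 ≤ x.2.length := by
    intro x hx
    rw [hT, mem_TT] at hx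
    exact ⟨List.length_pos_iff.2 hx.1.2.2.2.2, List.length_pos_iff.2 hx.2.1.2.2.2.2⟩
  set T1 := T.filter (fun x => x.1.length = 1) with hT1
  set T2 := T.filter (fun x => x.2.length = 1) with hT2
  set T3 := T.filter (fun x => 2 ≤ x.1.length ∧ 2 ≤ x.2.length) with hT3
  have hsum : T.card = T1.card + T2.card + T3.card := by
    have e1 : T = (T1 ∪ T2) ∪ T3 := by
      ext x
      simp only [hT1, hT2, hT3, Finset.mem_union, Finset.mem_filter]
      constructor
      · intro hx
        have := hlen x hx
        by_cases a1 : x.1.length = 1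
        · exact Or.inl (Or.inl ⟨hx, a1⟩)
        · by_cases a2 : x.2.length = 1
          · exact Or.inl (Or.inr ⟨hx, a2⟩)
          · exact Or.inr ⟨hx, by omega, by omega⟩
      · rintro ((h | h) | h) <;> exact h.1
    rw [e1, Finset.card_union_of_disjoint, Finset.card_union_of_disjoint]
    · rw [Finset.disjoint_left]
      intro x hx hx'
      simp only [hT1, hT2, Finset.mem_filter] at hx hx'
      have := hx.1
      rw [hT, mem_TT] at this
      omega
    · rw [Finset.disjoint_left]
      intro x hx hx'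
      simp only [hT1, hT2, hT3, Finset.mem_union, Finset.mem_filter] at hx hx'
      omega
  have h12 : T1.card = T2.card := by
    refine Finset.card_bij' (fun x _ => (x.2, x.1)) (fun x _ => (x.2, x.1)) ?_ ?_ ?_ ?_
    · intro x hx
      simp only [hT1, hT2, hT, Finset.mem_filter, mem_TT] at hx ⊢
      exact ⟨⟨hx.1.2.1, hx.1.1, hx.1.2.2.1.symm, by omega⟩, hx.2⟩
    · intro x hx
      simp only [hT1, hT2, hT, Finset.mem_filter, mem_TT] at hx ⊢
      exact ⟨⟨hx.1.2.1, hx.1.1, hx.1.2.2.1.symm, by omega⟩, hx.2⟩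
    · intro x _; rfl
    · intro x _; rfl
  have h1e : Even T1.card := by
    refine even_card_of_invol _ (fun x => (x.1, x.2.reverse)) ?_ ?_ ?_
    · intro x hx
      simp only [hT1, hT, Finset.mem_filter, mem_TT] at hx ⊢
      refine ⟨⟨hx.1.1, hx.1.2.1.reverse, ?_, by simpa using hx.1.2.2.2⟩, hx.2⟩
      intro a ha ha'
      exact hx.1.2.2.1 ha (by simpa using ha')
    · intro x _; simp
    · intro x hx he
      simp only [hT1, hT, Finset.mem_filter, mem_TT] at hx
      refine reverse_ne_self hx.1.2.1.1.1 (by omega) (congrArg Prod.snd he)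
  have h3 : 4 ∣ T3.card := by
    refine four_dvd_card T3 List.reverse List.reverse ?_ ?_ ?_ ?_ ?_ ?_
    · intro x hx
      simp only [hT3, hT, Finset.mem_filter, mem_TT] at hx ⊢
      refine ⟨⟨hx.1.1.reverse, hx.1.2.1, ?_, by simpa using hx.1.2.2.2⟩, by simpa using hx.2⟩
      intro a ha ha'
      exact hx.1.2.2.1 (by simpa using ha) ha'
    · intro x _; simp
    · intro x hx
      simp only [hT3, hT, Finset.mem_filter, mem_TT] at hx
      exact reverse_ne_self hx.1.1.1.1 hx.2.1
    · intro x hx
      simp only [hT3, hT, Finset.mem_filter, mem_TT] at hx ⊢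
      refine ⟨⟨hx.1.1, hx.1.2.1.reverse, ?_, by simpa using hx.1.2.2.2⟩, by simpa using hx.2⟩
      intro a ha ha'
      exact hx.1.2.2.1 ha (by simpa using ha')
    · intro x _; simp
    · intro x hx
      simp only [hT3, hT, Finset.mem_filter, mem_TT] at hx
      exact reverse_ne_self hx.1.2.1.1.1 hx.2.2
  obtain ⟨c, hc⟩ := h1e
  obtain ⟨d, hd⟩ := h3
  exact ⟨c + d, by omega⟩

/-! ### the count at a vertex -/

/-- the ordered `k`-paths with both ends adjacent to `y` -/
noncomputable def PN (G : SimpleGraph V) (k : ℕ) (y : V) : Finset (List V) :=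
  (paths G (k + 1)).filter
    (fun l => (∀ x ∈ l.head?, G.Adj x y) ∧ (∀ x ∈ l.getLast?, G.Adj x y))

theorem mem_PN {y : V} {l : List V} : l ∈ PN G k y ↔ IsP G l ∧ l.length = k + 1 ∧
    (∀ x ∈ l.head?, G.Adj x y) ∧ (∀ x ∈ l.getLast?, G.Adj x y) := by
  simp only [PN, Finset.mem_filter, mem_paths]
  tauto

theorem PK.card_PN (h : PK G k) (hk : 1 ≤ k) [DecidableRel G.Adj] (y : V) :
    (PN G k y).card = G.degree y * (G.degree y - 1) := by
  have e : (G.neighborFinset y).offDiag.card = G.degree y * (G.degree y - 1) := by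
    rw [Finset.offDiag_card, G.card_neighborFinset_eq_degree, Nat.mul_sub, mul_one]
  rw [← e]
  refine Finset.card_bij' (fun l _ => ((l.head?).getD y, (l.getLast?).getD y))
    (fun x _ => if hx : x.1 ≠ x.2 then (h.exists hx).choose else []) ?_ ?_ ?_ ?_
  · intro l hl
    rw [mem_PN] at hl
    obtain ⟨hP, hlen, h1, h2⟩ := hl
    obtain ⟨a, b, ha, hb⟩ := exists_head_last (l := l) (ne_nil_of_length hlen (by omega))
    have hab := hP.ends_ne (by omega) ha hb
    rw [ha, hb, Finset.mem_offDiag]
    simp only [Option.getD_some, SimpleGraph.mem_neighborFinset]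
    exact ⟨(h1 a (by rw [ha]; rfl)).symm, (h2 b (by rw [hb]; rfl)).symm, hab⟩
  · intro x hx
    rw [Finset.mem_offDiag, SimpleGraph.mem_neighborFinset, SimpleGraph.mem_neighborFinset] at hx
    obtain ⟨h1, h2, h3⟩ := hx
    rw [dif_pos h3]
    obtain ⟨p1, p2, p3, p4⟩ := (h.exists h3).choose_spec
    rw [mem_PN]
    refine ⟨p1, p2, ?_, ?_⟩
    · intro a ha; rw [p3] at ha; simp at ha; subst ha; exact h1.symm
    · intro a ha; rw [p4] at ha; simp at ha; subst ha; exact h2.symm
  · intro l hl
    rw [mem_PN] at hl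
    obtain ⟨hP, hlen, h1, h2⟩ := hl
    obtain ⟨a, b, ha, hb⟩ := exists_head_last (l := l) (ne_nil_of_length hlen (by omega))
    have hab := hP.ends_ne (by omega) ha hb
    simp only [ha, hb, Option.getD_some]
    rw [dif_pos hab]
    obtain ⟨p1, p2, p3, p4⟩ := (h.exists hab).choose_spec
    exact h.uniq p1 hP p2 hlen (by rw [p3, ha]) (by rw [p4, hb]) hk
  · intro x hx
    rw [Finset.mem_offDiag] at hx
    obtain ⟨h1, h2, h3⟩ := hx
    simp only [dif_pos h3]
    obtain ⟨p1, p2, p3, p4⟩ := (h.exists h3).choose_spec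
    rw [p3, p4]
    simp

theorem card_PN_split (hk : 3 ≤ k) (y : V) :
    (PN G k y).card = (cycAt G (k + 2) y).card + (TT G k y).card := by
  rw [← Finset.card_filter_add_card_filter_not (s := PN G k y) (fun l => y ∉ l)]
  congr 1
  · -- paths avoiding y
    refine Finset.card_bij' (fun l _ => y :: l) (fun z _ => z.tail) ?_ ?_ ?_ ?_
    · intro l hl
      rw [Finset.mem_filter, mem_PN] at hl
      obtain ⟨⟨hP, hlen, h1, h2⟩, hy⟩ := hl
      rw [mem_cycAt]
      refine ⟨⟨?_, ?_, by simp; omega⟩, by simp [hlen], by simp⟩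
      · rw [isP_cons]
        exact ⟨hy, hP, fun x hx => (h1 x hx).symm⟩
      · intro x hx z hz
        have hz' : z = y := by simpa using hz.symm
        subst hz'
        have hne : l ≠ [] := ne_nil_of_length hlen (by omega)
        rw [show z :: l = [z] ++ l by rfl, List.getLast?_append_of_ne_nil _ hne] at hx
        exact h2 x hx
    · intro z hz
      rw [mem_cycAt] at hz
      obtain ⟨hc, hlen, hh⟩ := hz
      obtain ⟨b, t, rfl⟩ : ∃ b t, z = b :: t := by
        cases z with
        | nil => exact absurd rfl hc.ne_nil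
        | cons b t => exact ⟨b, t, rfl⟩
      have hb : b = y := by simpa using hh
      subst hb
      have htl : t.length = k + 1 := by simpa using hlen
      have hne : t ≠ [] := ne_nil_of_length htl (by omega)
      rw [List.tail_cons, Finset.mem_filter, mem_PN]
      have hP := isP_cons.1 hc.isP
      refine ⟨⟨hP.2.1, htl, fun x hx => (hP.2.2 x hx).symm, ?_⟩, hP.1⟩
      intro x hx
      refine hc.2.1 x ?_ b (by simp)
      rw [show b :: t = [b] ++ t by rfl, List.getLast?_append_of_ne_nil _ hne]
      exact hx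
    · intro l _; rfl
    · intro z hz
      rw [mem_cycAt] at hz
      obtain ⟨hc, hlen, hh⟩ := hz
      obtain ⟨b, t, rfl⟩ : ∃ b t, z = b :: t := by
        cases z with
        | nil => exact absurd rfl hc.ne_nil
        | cons b t => exact ⟨b, t, rfl⟩
      have hb : b = y := by simpa using hh
      subst hb
      rfl
  · -- paths through y
    refine (Finset.card_bij (fun x _ => x.1 ++ y :: x.2) ?_ ?_ ?_).symm
    · intro x hx
      rw [mem_TT] at hx
      obtain ⟨⟨a1, a2, a3, a4, a5⟩, ⟨b1, b2, b3, b4, b5⟩, hd, hl⟩ := hx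
      rw [Finset.mem_filter, mem_PN]
      refine ⟨⟨?_, by simp; omega, ?_, ?_⟩, by simp⟩
      · rw [isP_append]
        refine ⟨a1, ?_, ?_, ?_⟩
        · rw [isP_cons]; exact ⟨b2, b1, fun z hz => (b3 z hz).symm⟩
        · intro z hz hz'
          rcases List.mem_cons.1 hz' with rfl | hz'
          · exact a2 hz
          · exact hd hz hz'
        · intro z hz w hw
          have : w = y := by simpa using hw.symm
          subst this
          exact a4 z hz
      · rw [List.head?_append_of_ne_nil _ a5]; exact a3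
      · rw [List.getLast?_append_of_ne_nil _ (by simp),
          show y :: x.2 = [y] ++ x.2 by rfl, List.getLast?_append_of_ne_nil _ b5]
        exact b4
    · intro x hx x' hx' he
      rw [mem_TT] at hx hx'
      have h1 : y ∉ x.1 := hx.1.2.1
      have h2 : y ∉ x'.1 := hx'.1.2.1
      have h3 : y ∉ x.2 := hx.2.1.2.1
      have h4 : y ∉ x'.2 := hx'.2.1.2.1
      have := (List.append_cons_inj_of_notMem h1 h3).1 he
      ext1
      · exact this.1
      · exact this.2.2
    · intro l hl
      rw [Finset.mem_filter, mem_PN] at hl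
      obtain ⟨⟨hP, hlen, h1, h2⟩, hy⟩ := hl
      have hy' : y ∈ l := by simpa using hy
      obtain ⟨A, B, rfl⟩ := List.append_of_mem hy'
      have hA : A ≠ [] := by
        rintro rfl
        exact (h1 y (by simp)).ne rfl
      have hB : B ≠ [] := by
        rintro rfl
        exact (h2 y (by simp)).ne rfl
      refine ⟨(A, B), ?_, rfl⟩
      rw [mem_TT]
      have hPa := isP_append.1 hP
      have hPb := isP_cons.1 hPa.2.1
      refine ⟨⟨hPa.1, ?_, ?_, ?_, hA⟩, ⟨hPb.2.1, hPb.1, ?_, ?_, hB⟩, ?_, ?_⟩
      · intro hyA; exact hPa.2.2.1 hyA (by simp)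
      · intro x hx; exact h1 x (by rw [List.head?_append_of_ne_nil _ hA]; exact hx)
      · intro x hx; exact hPa.2.2.2 x hx y (by simp)
      · intro x hx; exact (hPb.2.2 x hx).symm
      · intro x hx
        refine h2 x ?_
        rw [List.getLast?_append_of_ne_nil _ (by simp),
          show y :: B = [y] ++ B by rfl, List.getLast?_append_of_ne_nil _ hB]
        exact hx
      · intro x hx hx'
        exact hPa.2.2.1 hx (List.mem_cons_of_mem _ hx')
      · simp at hlen ⊢; omega

/-- **Parity theorem**: in a `P(k)`-graph the number of closed lists with head `y` of `(k+2)`-cycles (twice the number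
of `(k+2)`-cycles through `y`) is congruent to `deg y` modulo 4. -/
theorem PK.cycAt_mod (h : PK G k) (hk : 3 ≤ k) [DecidableEq V] [DecidableRel G.Adj] (y : V) :
    (cycAt G (k + 2) y).card % 4 = G.degree y % 4 := by
  have h1 := h.card_PN (by omega) y
  rw [card_PN_split hk y] at h1
  obtain ⟨c, hc⟩ := four_dvd_TT (G := G) hk y
  obtain ⟨d, hd⟩ := h.even_degree hk y
  rcases Nat.eq_zero_or_pos d with hd0 | hd0
  · subst hd0
    have : G.degree y = 0 := by omega
    rw [this] at h1
    simp only [Nat.zero_mul] at h1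
    rw [this]
    omega
  · obtain ⟨e, rfl⟩ : ∃ e, d = e + 1 := ⟨d - 1, by omega⟩
    have h2 : G.degree y = 2 * e + 2 := by omega
    rw [h2] at h1
    rw [h2]
    have h3 : (2 * e + 2) * (2 * e + 2 - 1) = 4 * (e * e) + 6 * e + 2 := by
      rw [show 2 * e + 2 - 1 = 2 * e + 1 by omega]; ring
    rw [h3] at h1
    omega

/-- the number of closed lists of `(k+2)`-cycles with head `y` is at most `deg y (deg y - 1)` -/
theorem PK.cycAt_le (h : PK G k) (hk : 3 ≤ k) [DecidableRel G.Adj] (y : V) :
    (cycAt G (k + 2) y).card ≤ G.degree y * (G.degree y - 1) := by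
  have h1 := h.card_PN (by omega) y
  rw [card_PN_split hk y] at h1
  omega

end Pool.Agent.Work.KZ
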