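import Pool.Agent.Work.MP_f0e709_co.M3

/-! The two-level forest lemma with the number of components. -/

set_option autoImplicit false

namespace Pool.Agent.Work.KZ

open Finset

/-- the cut lemma with an invariant: the number of classes is saved -/
theorem cut_lemma_cl {α β γ : Type*} [DecidableEq γ] (cl : α → γ) (rank : β → ℕ) (s t : β → α)
    (C : β → α → Prop) (E : Finset β) (X : Finset α)
    (hst : ∀ e ∈ E, s e ∈ X ∧ t e ∈ X) (hC : ∀ e ∈ E, C e (s e) ∧ ¬ C e (t e))
    (hcut : ∀ e ∈ E, ∀ e' ∈ E, e ≠ e' → rank e ≤ rank e' → (C e (s e') ↔ C e (t e')))
    (hcl : ∀ e ∈ E, cl (s e) = cl (t e)) :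
    E.card + (X.image cl).card ≤ X.card := by
  classical
  have hE : E.card = ∑ c ∈ X.image cl, (E.filter (fun e => cl (s e) = c)).card :=
    card_eq_sum_card_fiberwise (fun e he => mem_coe.2 (mem_image_of_mem _ (hst e he).1))
  have hX : X.card = ∑ c ∈ X.image cl, (X.filter (fun x => cl x = c)).card :=
    card_eq_sum_card_fiberwise (fun x hx => mem_coe.2 (mem_image_of_mem _ hx))
  have h1 : (X.image cl).card = ∑ _c ∈ X.image cl, 1 := by simp
  rw [hE, hX, h1, ← sum_add_distrib]
  apply sum_le_sum
  intro c hc
  obtain ⟨x, hx, rfl⟩ := mem_image.1 hc
  refine cut_lemma rank s t C _ _ _ rfl ⟨x, mem_filter.2 ⟨hx, rfl⟩⟩ ?_ ?_ ?_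
  · intro e he
    obtain ⟨h2, h3⟩ := mem_filter.1 he
    exact ⟨mem_filter.2 ⟨(hst e h2).1, h3⟩, mem_filter.2 ⟨(hst e h2).2, by rw [← hcl e h2, h3]⟩⟩
  · intro e he
    exact hC e (mem_filter.1 he).1
  · intro e he e' he'
    exact hcut e (mem_filter.1 he).1 e' (mem_filter.1 he').1

variable {V : Type*} {G : SimpleGraph V}

section finite

variable [Finite V]

open Classical in
/-- the two-level forest lemma -/
theorem forest_two_cl {n s : ℕ} (hs : 1 ≤ s) (hsn : s ≤ n)
    (hU : ∀ l m : List V, IsP G l → IsP G m → l.length = n → m.length = n →
      l.take s = m.take s → l.getLast? = m.getLast? → l = m)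
    (hU' : ∀ l m : List V, IsP G l → IsP G m → l.length = n + 1 → m.length = n + 1 →
      l.take s = m.take s → l.getLast? = m.getLast? → l = m) :
    (closings G n s).card + (closings G (n + 1) s).card
      + 2 * ((paths G n).image (List.take s)).card ≤ 2 * (paths G n).card := by
  obtain ⟨f, hf⟩ := exists_inj_nat V
  have c1 := card_closings_ori (G := G) hf (n := n) hs (fun _ => True)
  have c2 := card_closings_ori (G := G) hf (n := n + 1) hs (fun _ => True)
  simp only [filter_true, true_and] at c1 c2
  rw [c1, c2]
  set B1 := (closings G n s).filter (fun x => Ori f x.2) with hB1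
  set B2 := (closings G (n + 1) s).filter (fun x => Ori f x.2) with hB2
  set A := (paths G (n + 1)).image (fun l => (l.dropLast, l.drop n)) with hA
  set E := (A ∪ B1) ∪ B2 with hE
  set X := paths G n ∪ paths G (n + 1) with hX
  have hAm : ∀ x ∈ A, x.1.length = n ∧ x.2.length = 1 ∧ IsP G (x.1 ++ x.2) := by
    intro x hx
    rw [hA, mem_image] at hx
    obtain ⟨l, hl, rfl⟩ := hx
    rw [mem_paths] at hl
    have e1 : l.dropLast = l.take n := by
      rw [List.dropLast_eq_take, hl.2]
      rfl
    refine ⟨by simp [hl.2], by simp [hl.2], ?_⟩
    simp only
    rw [e1, List.take_append_drop]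
    exact hl.1
  have hAcard : A.card = (paths G (n + 1)).card := by
    rw [hA]
    apply card_image_of_injOn
    intro l hl m hm hlm
    have hl' := mem_paths.1 (mem_coe.1 hl)
    have hm' := mem_paths.1 (mem_coe.1 hm)
    have e1 : l.dropLast = l.take n := by
      rw [List.dropLast_eq_take, hl'.2]
      rfl
    have e2 : m.dropLast = m.take n := by
      rw [List.dropLast_eq_take, hm'.2]
      rfl
    simp only [Prod.mk.injEq] at hlm
    rw [← List.take_append_drop n l, ← List.take_append_drop n m, ← e1, ← e2, hlm.1, hlm.2]
  have hBm : ∀ x, x ∈ B1 ∨ x ∈ B2 → IsCl G x ∧ (x.1.length + x.2.length = n ∨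
      x.1.length + x.2.length = n + 1) ∧ s ≤ x.1.length ∧ Ori f x.2 ∧ 2 ≤ x.2.length := by
    rintro x (hx | hx)
    · rw [hB1, mem_filter, mem_closings] at hx
      exact ⟨hx.1.1, Or.inl hx.1.2.1, hx.1.2.2, hx.2, hx.1.1.2.1⟩
    · rw [hB2, mem_filter, mem_closings] at hx
      exact ⟨hx.1.1, Or.inr hx.1.2.1, hx.1.2.2, hx.2, hx.1.1.2.1⟩
  have hXcard : X.card = (paths G n).card + (paths G (n + 1)).card := by
    rw [hX]
    apply card_union_of_disjoint
    rw [disjoint_left]
    intro l h1 h2
    rw [mem_paths] at h1 h2
    omega
  have hEcard : E.card = (paths G (n + 1)).card + B1.card + B2.card := by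
    rw [hE, card_union_of_disjoint, card_union_of_disjoint, hAcard]
    · rw [disjoint_left]
      intro x h1 h2
      have := (hAm x h1).2.1
      have := (hBm x (Or.inl h2)).2.2.2.2
      omega
    · rw [disjoint_left]
      intro x h1 h2
      rcases mem_union.1 h1 with h1 | h1
      · have := (hAm x h1).2.1
        have := (hBm x (Or.inr h2)).2.2.2.2
        omega
      · rw [hB1, mem_filter, mem_closings] at h1
        rw [hB2, mem_filter, mem_closings] at h2
        omega
  have himg : ((paths G n).image (List.take s)).card ≤ (X.image (List.take s)).card := by
    apply card_le_card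
    apply image_subset_image
    rw [hX]
    exact subset_union_left
  have main : E.card + (X.image (List.take s)).card ≤ X.card := by
    · refine cut_lemma_cl (List.take s) (fun x : List V × List V => if x.2.length = 1 then 0 else x.1.length)
        (fun x => x.1 ++ x.2)
        (fun x => if x.2.length = 1 then x.1 else x.1 ++ x.2.reverse)
        (fun x l => l.take s = x.1.take s ∧ (if x.2.length = 1 then (∀ a ∈ x.2, a ∈ l) else
          (l.length = x.1.length + x.2.length ∧ (x.1 ++ x.2.take 1) <+: l)))
        E X ?_ ?_ ?_ ?_
      · intro x hx
        rw [hE, mem_union, mem_union, or_assoc] at hx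
        rcases hx with hx | hx
        · obtain ⟨h1, h2, h3⟩ := hAm x hx
          rw [hX, if_pos h2]
          simp only [mem_union, mem_paths]
          exact ⟨Or.inr ⟨h3, by simp [h1, h2]⟩, Or.inl ⟨h3.left, h1⟩⟩
        · obtain ⟨h1, h2, h3, h4, h5⟩ := hBm x hx
          rw [hX, if_neg (by omega)]
          simp only [mem_union, mem_paths]
          refine ⟨?_, ?_⟩
          · rcases h2 with h2 | h2
            · exact Or.inl ⟨h1.1, by simpa using h2⟩
            · exact Or.inr ⟨h1.1, by simpa using h2⟩
          · rcases h2 with h2 | h2
            · exact Or.inl ⟨h1.rev.1, by simpa using h2⟩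
            · exact Or.inr ⟨h1.rev.1, by simpa using h2⟩
      · intro x hx
        rw [hE, mem_union, mem_union, or_assoc] at hx
        rcases hx with hx | hx
        · obtain ⟨h1, h2, h3⟩ := hAm x hx
          simp only [if_pos h2]
          refine ⟨⟨take_of_prefix_le (by omega), fun a ha => List.mem_append_right _ ha⟩, ?_⟩
          rintro ⟨-, hh⟩
          obtain ⟨p, q⟩ := x
          obtain ⟨z, rfl⟩ := List.length_eq_one_iff.1 h2
          exact (isP_append.1 h3).2.2.1 (hh z (by simp)) (by simp)
        · obtain ⟨h1, h2, h3, h4, h5⟩ := hBm x hx
          have h21 : ¬ x.2.length = 1 := by omega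
          simp only [if_neg h21]
          refine ⟨⟨take_of_prefix_le h3, by simp, ?_⟩, ?_⟩
          · rw [List.prefix_append_right_inj]
            exact List.take_prefix _ _
          · rintro ⟨-, -, hh⟩
            rw [List.prefix_append_right_inj] at hh
            obtain ⟨p, q⟩ := x
            obtain ⟨a, q0, rfl⟩ : ∃ a q0, q = a :: q0 := by
              cases q with
              | nil => exact absurd h5 (by simp)
              | cons a q' => exact ⟨a, q', rfl⟩
            have hq0 : q0 ≠ [] := by
              rintro rfl
              exact absurd h5 (by simp)
            obtain ⟨t, ht⟩ := hh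
            have hb : (a :: q0).reverse.head? = some a := by
              have ht' : [a] ++ t = (a :: q0).reverse := by simpa using ht
              rw [← ht']
              simp
            rw [List.head?_reverse, List.getLast?_eq_some_getLast (by simp),
              List.getLast_cons hq0, Option.some_inj] at hb
            have hnd := (isP_append.1 h1.1).2.1.1
            exact (List.nodup_cons.1 hnd).1 (hb ▸ List.getLast_mem hq0)
      · intro x hx y hy hxy hle
        rw [hE, mem_union, mem_union, or_assoc] at hx hy
        -- the classes of the two end points of `y` agree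
        have hcls : (y.1 ++ y.2).take s = y.1.take s ∧
            (if y.2.length = 1 then y.1 else y.1 ++ y.2.reverse).take s = y.1.take s := by
          rcases hy with hy | hy
          · obtain ⟨h1, h2, h3⟩ := hAm y hy
            rw [if_pos h2]
            exact ⟨take_of_prefix_le (by omega), rfl⟩
          · obtain ⟨h1, h2, h3, h4, h5⟩ := hBm y hy
            rw [if_neg (by omega)]
            exact ⟨take_of_prefix_le h3, take_of_prefix_le h3⟩
        simp only [hcls.1, hcls.2]
        by_cases hc : List.take s y.1 = List.take s x.1
        swap
        · constructor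
          · rintro ⟨i1, _⟩
            exact absurd i1 hc
          · rintro ⟨i1, _⟩
            exact absurd i1 hc
        simp only [hc, true_and]
        rcases hx with hx | hx
        · -- extension edge
          obtain ⟨h1, h2, h3⟩ := hAm x hx
          simp only [if_pos h2]
          obtain ⟨p, q⟩ := x
          obtain ⟨z, rfl⟩ := List.length_eq_one_iff.1 h2
          simp only [List.mem_singleton, forall_eq]
          rcases hy with hy | hy
          · obtain ⟨g1, g2, g3⟩ := hAm y hy
            rw [if_pos g2]
            obtain ⟨p', q'⟩ := y
            obtain ⟨z', rfl⟩ := List.length_eq_one_iff.1 g2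
            have hzz : z ≠ z' := by
              rintro rfl
              have := hU' (p ++ [z]) (p' ++ [z]) h3 g3 (by simpa using h1) (by simpa using g1)
                (by
                  rw [take_of_prefix_le (by simp only at h1; omega),
                    take_of_prefix_le (by simp only at g1; omega)]
                  exact hc.symm)
                (by simp)
              have h' := List.append_inj_left' this rfl
              exact hxy (by rw [h'])
            simp [hzz]
          · obtain ⟨g1, g2, g3, g4, g5⟩ := hBm y hy
            rw [if_neg (by omega)]
            simp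
        · obtain ⟨h1, h2, h3, h4, h5⟩ := hBm x hx
          have h21 : ¬ x.2.length = 1 := by omega
          simp only [if_neg h21]
          rcases hy with hy | hy
          · obtain ⟨g1, g2, g3⟩ := hAm y hy
            exfalso
            rw [if_neg h21, if_pos g2] at hle
            omega
          · obtain ⟨g1, g2, g3, g4, g5⟩ := hBm y hy
            have g21 : ¬ y.2.length = 1 := by omega
            rw [if_neg h21, if_neg g21] at hle
            simp only [if_neg g21]
            by_cases hlen : y.1.length + y.2.length = x.1.length + x.2.length
            · obtain ⟨p, q⟩ := x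
              obtain ⟨p', q'⟩ := y
              have hUx : ∀ l m : List V, IsP G l → IsP G m → l.length = p.length + q.length →
                  m.length = p.length + q.length → l.take s = p.take s →
                  l.take s = m.take s → l.getLast? = m.getLast? → l = m := by
                intro l m hl hm hll hml _ hlm hlast
                rcases h2 with h2 | h2
                · exact hU l m hl hm (hll.trans h2) (hml.trans h2) hlm hlast
                · exact hU' l m hl hm (hll.trans h2) (hml.trans h2) hlm hlast
              have := cut_closings (f := f) hUx h1 g1 rfl hlen h3 h4 g4 hxy hle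
              have l1 : (p' ++ q').length = p.length + q.length := by
                rw [List.length_append]
                exact hlen
              have l2 : (p' ++ q'.reverse).length = p.length + q.length := by
                rw [List.length_append, List.length_reverse]
                exact hlen
              simp only [l1, l2, true_and]
              exact this
            · have l1 : ¬ (y.1 ++ y.2).length = x.1.length + x.2.length := by
                rw [List.length_append]
                exact hlen
              have l2 : ¬ (y.1 ++ y.2.reverse).length = x.1.length + x.2.length := by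
                rw [List.length_append, List.length_reverse]
                exact hlen
              simp only [l1, l2, false_and]
      · intro y hy
        rw [hE, mem_union, mem_union, or_assoc] at hy
        rcases hy with hy | hy
        · obtain ⟨h1, h2, h3⟩ := hAm y hy
          simp only [if_pos h2]
          exact take_of_prefix_le (by omega)
        · obtain ⟨h1, h2, h3, h4, h5⟩ := hBm y hy
          have h21 : ¬ y.2.length = 1 := by omega
          simp only [if_neg h21]
          rw [take_of_prefix_le h3, take_of_prefix_le h3]
  omega


/-- two levels: one edge is saved for every prefix -/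
theorem forest_two' [DecidableEq V] {n s : ℕ} (hs : 1 ≤ s) (hsn : s ≤ n)
    (hU : ∀ l m : List V, IsP G l → IsP G m → l.length = n → m.length = n →
      l.take s = m.take s → l.getLast? = m.getLast? → l = m)
    (hU' : ∀ l m : List V, IsP G l → IsP G m → l.length = n + 1 → m.length = n + 1 →
      l.take s = m.take s → l.getLast? = m.getLast? → l = m) :
    (closings G n s).card + (closings G (n + 1) s).card
      + 2 * ((paths G n).image (List.take s)).card ≤ 2 * (paths G n).card := by
  refine le_trans (le_of_eq ?_) (forest_two_cl hs hsn hU hU')
  refine congrArg (fun t : Finset (List V) => (closings G n s).card + (closings G (n + 1) s).card + 2 * t.card) ?_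
  ext l
  simp only [Finset.mem_image]

end finite

end Pool.Agent.Work.KZ
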