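import Pool.Agent.Work.MP_f0e709_co.M1
import Pool.Agent.Work.MP_f0e709_co.M4b

/-! P(k)-graphs: a path with at least `2k` vertices has at most one closing of length at most `2k`;
a path with `n + k` vertices is determined by its first `n` vertices and its last vertex. -/

set_option autoImplicit false

namespace Pool.Agent.Work.KZ

section basic

variable {V : Type*} {G : SimpleGraph V} {k : ℕ}

/-- the last vertex `e` of a path with at least `2k` vertices has at most one neighbour on the path
(apart from its predecessor) which closes a cycle of length at most `2k` -/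
theorem PK.no_two_closings (h : PK G k) {p0 m0 s : List V} {a b e : V}
    (hl : IsP G (p0 ++ a :: (m0 ++ b :: (s ++ [e])))) (hs : s ≠ []) (hae : G.Adj a e)
    (hbe : G.Adj b e) (hN : 2 * k ≤ (p0 ++ a :: (m0 ++ b :: (s ++ [e]))).length)
    (hc : m0.length + s.length + 3 ≤ 2 * k) : False := by
  have hs1 : 1 ≤ s.length := List.length_pos_iff.2 hs
  have hN' : 2 * k ≤ p0.length + (m0.length + (s.length + 1 + 1) + 1) := by
    simpa using hN
  have hnd := hl.1
  -- the tail from `a`
  have tA : IsP G (a :: p0.reverse) := by
    have h1 : IsP G (p0 ++ [a]) := hl.of_prefix ⟨m0 ++ b :: (s ++ [e]), by simp⟩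
    simpa using h1.reverse
  have tAt : ∀ n, IsP G (a :: (p0.reverse.take n)) := by
    intro n
    have := tA.take (n + 1)
    simpa using this
  have tB : IsP G (b :: (p0 ++ a :: m0).reverse) := by
    have h1 : IsP G ((p0 ++ a :: m0) ++ [b]) := hl.of_prefix ⟨s ++ [e], by simp⟩
    have h2 := h1.reverse
    rwa [List.reverse_append, List.reverse_singleton, List.singleton_append] at h2
  have tBt : ∀ n, IsP G (b :: ((p0 ++ a :: m0).reverse.take n)) := by
    intro n
    have := tB.take (n + 1)
    simpa using this
  have tS : IsP G (b :: s) := by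
    have h1 : IsP G ((p0 ++ a :: m0) ++ (b :: s ++ [e])) := by simpa using hl
    exact h1.right.left
  have tSt : ∀ n, IsP G (b :: (s.take n)) := by
    intro n
    have := tS.take (n + 1)
    simpa using this
  -- the three cycles
  have pZ : IsP G (a :: (m0 ++ b :: (s ++ [e]))) := hl.right
  have cZ : IsCyc G (a :: (m0 ++ b :: (s ++ [e]))) := by
    refine ⟨pZ, ?_, by simp; omega⟩
    intro x hx y hy
    have e1 : (a :: (m0 ++ b :: (s ++ [e]))).getLast? = some e := by
      rw [show (a :: (m0 ++ b :: (s ++ [e]))) = (a :: (m0 ++ b :: s)) ++ [e] by simp]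
      rw [List.getLast?_append_of_ne_nil _ (by simp)]
      rfl
    rw [e1] at hx
    simp at hx hy
    subst hx; subst hy
    exact hae.symm
  have cZ' : IsCyc G (b :: (s ++ [e])) := by
    have h1 : IsP G ((p0 ++ a :: m0) ++ (b :: (s ++ [e]))) := by simpa using hl
    refine ⟨h1.right, ?_, by simp; omega⟩
    intro x hx y hy
    have e1 : (b :: (s ++ [e])).getLast? = some e := by
      rw [show (b :: (s ++ [e])) = (b :: s) ++ [e] by simp]
      rw [List.getLast?_append_of_ne_nil _ (by simp)]
      rfl
    rw [e1] at hx
    simp at hx hy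
    subst hx; subst hy
    exact hbe.symm
  have cZ'' : IsCyc G (a :: (m0 ++ [b, e])) := by
    have h1 : IsP G ((a :: (m0 ++ [b])) ++ (s ++ [e])) := by simpa using pZ
    have h2 : IsP G ((a :: (m0 ++ [b])) ++ [e]) := by
      rw [isP_concat]
      refine ⟨h1.left, ?_, ?_⟩
      · intro hmem
        exact (isP_append.1 h1).2.2.1 hmem (by simp)
      · intro x hx
        rw [show (a :: (m0 ++ [b])) = (a :: m0) ++ [b] by simp,
          List.getLast?_append_of_ne_nil _ (by simp)] at hx
        simp at hx
        subst hx
        exact hbe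
    refine ⟨by simpa using h2, ?_, by simp⟩
    intro x hx y hy
    have e1 : (a :: (m0 ++ [b, e])).getLast? = some e := by
      rw [show (a :: (m0 ++ [b, e])) = (a :: (m0 ++ [b])) ++ [e] by simp,
        List.getLast?_append_of_ne_nil _ (by simp)]
      rfl
    rw [e1] at hx
    simp at hx hy
    subst hx; subst hy
    exact hae.symm
  -- disjointness facts
  have dA : ∀ x ∈ p0, x ∉ m0 ++ b :: (s ++ [e]) := by
    intro x hx hx'
    have h1 : (p0 ++ (a :: (m0 ++ b :: (s ++ [e])))).Nodup := hnd
    rw [List.nodup_append'] at h1
    exact h1.2.2 hx (List.mem_cons_of_mem _ hx')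
  have dB : ∀ x ∈ p0 ++ a :: m0, x ∉ s ++ [e] := by
    intro x hx hx'
    have h1 : ((p0 ++ a :: m0) ++ (b :: (s ++ [e]))).Nodup := by simpa using hnd
    rw [List.nodup_append'] at h1
    exact h1.2.2 hx (List.mem_cons_of_mem _ hx')
  have dS : ∀ x ∈ s, x ∉ e :: (a :: m0) := by
    intro x hx hx'
    have h1 : ((p0 ++ a :: m0) ++ (b :: (s ++ [e]))).Nodup := by simpa using hnd
    rcases List.mem_cons.1 hx' with h2 | h2
    · subst h2
      have h3 : (s ++ [x]).Nodup := by
        rw [List.nodup_append'] at h1
        exact (List.nodup_cons.1 h1.2.1).2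
      rw [List.nodup_append'] at h3
      exact h3.2.2 hx (by simp)
    · rw [List.nodup_append'] at h1
      exact h1.2.2 (List.mem_append_right _ h2) (List.mem_cons_of_mem _ (List.mem_append_left _ hx))
  have cS : IsCyc G (b :: (e :: (a :: m0))) := by
    have h1 : IsCyc G ((a :: m0) ++ [b, e]) := by simpa using cZ''
    simpa using h1.rot
  rcases Nat.even_or_odd (m0.length + s.length + 3) with hev | hodd
  · -- Z even
    obtain ⟨r, hr⟩ := hev
    refine h.even_rule (r := r) (by omega) (by omega) cZ (by simp; omega) (tAt (k - r)) ?_ ?_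
    · intro x hx
      exact dA x (by simpa using List.mem_of_mem_take hx)
    · simp
      omega
  · rcases Nat.even_or_odd (s.length + 2) with hev' | hodd'
    · obtain ⟨r, hr⟩ := hev'
      refine h.even_rule (r := r) (by omega) (by omega) cZ' (by simp; omega) (tBt (k - r)) ?_ ?_
      · intro x hx
        exact dB x (List.mem_reverse.1 (List.mem_of_mem_take hx))
      · rw [List.length_take, List.length_reverse]
        simp
        omega
    · -- Z'' even
      obtain ⟨r, hr⟩ : ∃ r, m0.length + 3 = r + r := by
        have : Even (m0.length + 3) := by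
          rcases hodd with ⟨c, hc'⟩
          rcases hodd' with ⟨d, hd'⟩
          exact ⟨c - d + 1, by omega⟩
        exact this
      by_cases hcase : k - r ≤ p0.length
      · refine h.even_rule (r := r) (by omega) (by omega) cZ'' (by simp; omega) (tAt (k - r)) ?_ ?_
        · intro x hx hx'
          refine dA x (by simpa using List.mem_of_mem_take hx) ?_
          simp at hx' ⊢
          tauto
        · simp
          omega
      · refine h.even_rule (r := r) (by omega) (by omega) cS (by simp; omega) (tSt (k - r)) ?_ ?_
        · intro x hx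
          exact dS x (List.mem_of_mem_take hx)
        · rw [List.length_take]
          omega

/-- two closings of the same path with at least `2k` vertices, both of length at most `2k`, agree -/
theorem PK.closing_unique_aux (h : PK G k) {p q p' q' : List V} (hx : IsCl G (p, q))
    (hx' : IsCl G (p', q')) (heq : p ++ q = p' ++ q') (hN : 2 * k ≤ (p ++ q).length)
    (hp : p ≠ []) (hq : q.length + 1 ≤ 2 * k) : ¬ p.length < p'.length := by
  intro hlt
  obtain ⟨h1, h2, h3⟩ := hx
  obtain ⟨h1', h2', h3'⟩ := hx'
  simp only at h1 h2 h3 h1' h2' h3'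
  obtain ⟨m, hm, hqm⟩ : ∃ m, p' = p ++ m ∧ q = m ++ q' := by
    rcases List.append_eq_append_iff.1 heq with ⟨m, hm1, hm2⟩ | ⟨m, hm1, hm2⟩
    · exact ⟨m, hm1, hm2⟩
    · have := congrArg List.length hm1
      simp at this
      omega
  subst hm
  subst hqm
  have hmne : m ≠ [] := by
    rintro rfl
    simp at hlt
  obtain ⟨p0, a, rfl⟩ : ∃ p0 a, p = p0 ++ [a] := by
    rcases List.eq_nil_or_concat p with h0 | ⟨l1', c, h0⟩
    · exact absurd h0 hp
    · exact ⟨l1', c, by simpa using h0⟩
  obtain ⟨m0, b, rfl⟩ : ∃ m0 b, m = m0 ++ [b] := by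
    rcases List.eq_nil_or_concat m with h0 | ⟨l1', c, h0⟩
    · exact absurd h0 hmne
    · exact ⟨l1', c, by simpa using h0⟩
  obtain ⟨s, e, rfl⟩ : ∃ s e, q' = s ++ [e] := by
    rcases List.eq_nil_or_concat q' with h0 | ⟨l1', c, h0⟩
    · rw [h0] at h2'; simp at h2'
    · exact ⟨l1', c, by simpa using h0⟩
  have hs : s ≠ [] := by
    rintro rfl
    simp at h2'
  have hae : G.Adj a e := by
    refine h3 a ?_ e ?_
    · rw [List.getLast?_append_of_ne_nil _ (by simp)]; simp
    · rw [← List.append_assoc, List.getLast?_append_of_ne_nil _ (by simp)]; simp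
  have hbe : G.Adj b e := by
    refine h3' b ?_ e ?_
    · rw [← List.append_assoc, List.getLast?_append_of_ne_nil _ (by simp)]; simp
    · rw [List.getLast?_append_of_ne_nil _ (by simp)]; simp
  refine h.no_two_closings (p0 := p0) (m0 := m0) (s := s) (a := a) (b := b) (e := e)
    (by simpa using h1) hs hae hbe ?_ ?_
  · simpa using hN
  · simp at hq
    omega

end basic

section finite

set_option linter.unusedSectionVars false

variable {V : Type*} [Fintype V] [DecidableEq V] {G : SimpleGraph V} [DecidableRel G.Adj] {k : ℕ}

/-- paths with `k+j+1 ≥ 2k` vertices: at most one closing of length at most `2k` each; the other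
closings are determined by the position of the junction and the first `j+2` vertices -/
theorem PK.closings_top (h : PK G k) (hk : 3 ≤ k) {j : ℕ} (hj : k - 1 ≤ j) :
    (closings G (k + j + 1) 1).card ≤
      (paths G (k + j + 1)).card + (j + 1 - k) * (paths G (j + 2)).card := by
  have h1 := h.small_aux hk (j := j + 1 - k) (r := j + 1) (by omega)
  have h2 : (closings G (k + (j + 1)) (j + 1 - k + 1)).card ≤ (paths G (k + (j + 1))).card := by
    refine Finset.card_le_card_of_injOn (fun x => x.1 ++ x.2) ?_ ?_
    · intro x hx
      rw [Finset.mem_coe, mem_closings] at hx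
      rw [Finset.mem_coe, mem_paths, List.length_append]
      exact ⟨hx.1.1, hx.2.1⟩
    · rintro ⟨p, q⟩ hx ⟨p', q'⟩ hx' heq
      rw [Finset.mem_coe, mem_closings] at hx hx'
      obtain ⟨hc, hl, hs⟩ := hx
      obtain ⟨hc', hl', hs'⟩ := hx'
      simp only at hl hs hl' hs' heq
      have hp : p ≠ [] := by
        rintro rfl
        simp at hs
      have hp' : p' ≠ [] := by
        rintro rfl
        simp at hs'
      have n1 := h.closing_unique_aux hc hc' heq (by rw [List.length_append]; omega) hp (by omega)
      have n2 := h.closing_unique_aux hc' hc heq.symm (by rw [List.length_append]; omega) hp'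
        (by omega)
      obtain ⟨e1, e2⟩ := List.append_inj heq (by omega)
      rw [e1, e2]
  have h3 : ((paths G (k + (j + 1))).image (List.take (j + 1 + 1))).card ≤
      (paths G (j + 2)).card := by
    refine Finset.card_le_card ?_
    intro m hm
    rw [Finset.mem_image] at hm
    obtain ⟨l, hl, rfl⟩ := hm
    rw [mem_paths] at hl ⊢
    refine ⟨hl.1.take _, ?_⟩
    rw [List.length_take, hl.2]
    omega
  have h4 := Nat.mul_le_mul_left (j + 1 - k) h3
  rw [show k + j + 1 = k + (j + 1) by ring]
  omega

/-- a path with `n + k` vertices is determined by its first `n` vertices and its last vertex -/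
theorem PK.paths_mul_le (h : PK G k) (hk : 1 ≤ k) (n : ℕ) (hn : 1 ≤ n) :
    (paths G (n + k)).card ≤ (Fintype.card V - 1) * (paths G n).card := by
  refine Finset.card_le_mul_card_image_of_maps_to (f := List.take n) ?_ _ ?_
  · intro l hl
    rw [mem_paths] at hl ⊢
    refine ⟨hl.1.take _, ?_⟩
    rw [List.length_take, hl.2]
    omega
  · intro m hm
    rw [mem_paths] at hm
    obtain ⟨m0, c, rfl⟩ : ∃ m0 c, m = m0 ++ [c] := by
      rcases List.eq_nil_or_concat m with h0 | ⟨l1', c, h0⟩
      · rw [h0] at hm; simp at hm; omega
      · exact ⟨l1', c, by simpa using h0⟩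
    have hcard : (Finset.univ.erase c).card = Fintype.card V - 1 := by
      rw [Finset.card_erase_of_mem (Finset.mem_univ c), Finset.card_univ]
    rw [← hcard]
    have key : ∀ l, l ∈ (paths G (n + k)).filter (fun l => l.take n = m0 ++ [c]) →
        ∃ t, l = m0 ++ (c :: t) ∧ IsP G (c :: t) ∧ t.length = k := by
      intro l hl
      rw [Finset.mem_filter, mem_paths] at hl
      obtain ⟨⟨hl1, hl2⟩, hl3⟩ := hl
      refine ⟨l.drop n, ?_, ?_, ?_⟩
      · conv_lhs => rw [← List.take_append_drop n l, hl3]
        simp
      · have : l = m0 ++ (c :: l.drop n) := by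
          conv_lhs => rw [← List.take_append_drop n l, hl3]
          simp
        rw [this] at hl1
        exact hl1.right
      · rw [List.length_drop, hl2]
        omega
    refine Finset.card_le_card_of_injOn (fun l => l.getLastD c) ?_ ?_
    · intro l hl
      obtain ⟨t, rfl, ht, htl⟩ := key l hl
      rw [Finset.mem_coe, Finset.mem_erase]
      refine ⟨?_, Finset.mem_univ _⟩
      have htne : t ≠ [] := by
        rintro rfl
        simp at htl
        omega
      obtain ⟨t0, d, rfl⟩ : ∃ t0 d, t = t0 ++ [d] := by
        rcases List.eq_nil_or_concat t with h0 | ⟨l1', c, h0⟩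
        · exact absurd h0 htne
        · exact ⟨l1', c, by simpa using h0⟩
      have hne : c ≠ d := by
        rintro rfl
        have := ht.1
        simp at this
      simp only [ne_eq]
      rw [List.getLastD_eq_getLast?,
        show m0 ++ c :: (t0 ++ [d]) = (m0 ++ c :: t0) ++ [d] by simp,
        List.getLast?_append_of_ne_nil _ (by simp)]
      simpa using hne.symm
    · intro l hl l' hl' heq
      obtain ⟨t, rfl, ht, htl⟩ := key l hl
      obtain ⟨t', rfl, ht', htl'⟩ := key l' hl'
      simp only at heq
      rw [List.getLastD_eq_getLast?, List.getLastD_eq_getLast?,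
        List.getLast?_append_of_ne_nil _ (by simp), List.getLast?_append_of_ne_nil _ (by simp)] at heq
      have hlast : (c :: t).getLast? = (c :: t').getLast? := by
        rw [List.getLast?_eq_some_getLast (by simp), List.getLast?_eq_some_getLast (by simp)] at heq ⊢
        simpa using heq
      have := h.uniq ht ht' (by simp [htl]) (by simp [htl']) (by simp) hlast hk
      rw [this]

end finite

end Pool.Agent.Work.KZ
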