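import Mathlib

set_option autoImplicit false

namespace Pool.Agent.Work.KZ

/-- the recursion data: `M j` counts the paths of length `k + j` -/
structure GRec (M : ℕ → ℤ) (k : ℕ) (v : ℤ) : Prop where
  pos : 0 < M 0
  nonneg : ∀ j, 0 ≤ M j
  a : M 0 ≤ M 1
  b : 2 * M 1 ≤ M 2
  c : ∀ j : ℕ, 2 ≤ j → j + 1 ≤ k → 2 * M j + M (j - 1) ≤ M (j + 1) + (2 * j - 2) * M 0
  d : ∀ j : ℕ, k ≤ j → 2 * M j + M (j - 1) ≤ M (j + 1) + (j - 2) * M (j - k) + j * M (j + 1 - k)
  e : ∀ j : ℕ, k ≤ j + 1 → 2 * M j ≤ M (j + 1) + ((j : ℤ) + 1 - k) * M (j + 1 - k)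
  f : ∀ j : ℕ, M (j + k) ≤ (v - 1) * M j
  hv : 2 * v ≤ k * (k - 1) * (k + 1)

theorem num_ineq1 (k : ℕ) (hk : 12 ≤ k) :
    ((k : ℤ) * (k - 1) * (k + 1)) * (k - 1) < 2 ^ k * (k - 6) := by
  induction k, hk using Nat.le_induction with
  | base => norm_num
  | succ k hk ih =>
    have hk' : (12 : ℤ) ≤ k := by exact_mod_cast hk
    have hp : (0 : ℤ) < 2 ^ k := by positivity
    rw [pow_succ]
    push_cast
    have h1 : ((k : ℤ) + 1) * (k + 1 - 1) * (k + 1 + 1) * (k + 1 - 1)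
        ≤ 2 * ((k : ℤ) * (k - 1) * (k + 1) * (k - 1)) := by
      have : 0 ≤ (k : ℤ) * (k + 1) * (k ^ 2 - 6 * k + 2) := by
        have h2 : (0 : ℤ) ≤ k ^ 2 - 6 * k + 2 := by nlinarith
        positivity
      nlinarith
    nlinarith

theorem num_ineq2 (k : ℕ) (hk : 12 ≤ k) :
    ((k : ℤ) * (k - 1) * (k + 1)) + k * (k - 1) ≤ 2 ^ (k + 1) := by
  have h1 := num_ineq1 k hk
  have hk' : (12 : ℤ) ≤ k := by exact_mod_cast hk
  have hp : (0 : ℤ) < 2 ^ k := by positivity
  rw [pow_succ]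
  have h2 : (2 : ℤ) ^ k * (k - 6) ≤ 2 ^ k * (k - 1) := by nlinarith
  have h3 : ((k : ℤ) * (k - 1) * (k + 1)) < 2 ^ k := by
    have : ((k : ℤ) * (k - 1) * (k + 1)) * (k - 1) < 2 ^ k * (k - 1) := lt_of_lt_of_le h1 h2
    exact lt_of_mul_lt_mul_right this (by linarith)
  have h4 : (k : ℤ) * (k - 1) ≤ (k : ℤ) * (k - 1) * (k + 1) := by nlinarith [mul_nonneg (by linarith : (0:ℤ) ≤ k) (by linarith : (0:ℤ) ≤ (k:ℤ) - 1)]
  linarith

/-- the general case `k ≥ 12` -/
theorem GRec.large {M : ℕ → ℤ} {k : ℕ} {v : ℤ} (h : GRec M k v) (hk : 12 ≤ k) : False := by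
  obtain ⟨hpos, hnn, ha, hb, hc, -, he, hf, hv⟩ := h
  have y2 : ∀ j : ℕ, 1 ≤ j → j + 1 ≤ k →
      0 ≤ M j - j * M 0 ∧ 2 * (M j - j * M 0) ≤ M (j + 1) - (j + 1) * M 0 := by
    intro j hj
    induction j, hj using Nat.le_induction with
    | base =>
      intro _
      refine ⟨by push_cast; linarith, ?_⟩
      norm_num
      linarith
    | succ j hj ih =>
      intro hjk
      obtain ⟨i1, i2⟩ := ih (by omega)
      have h1 := hc (j + 1) (by omega) hjk
      have h2 : j + 1 - 1 = j := by omega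
      rw [h2] at h1
      push_cast at h1 ⊢
      constructor
      · linarith
      · linarith
  have y3 : ∀ i j : ℕ, 1 ≤ j → j + i ≤ k →
      2 ^ i * (M j - j * M 0) ≤ M (j + i) - ((j : ℤ) + i) * M 0 := by
    intro i
    induction i with
    | zero => intro j _ _; simp
    | succ i ih =>
      intro j hj hjk
      have h1 := ih j hj (by omega)
      have h2 := (y2 (j + i) (by omega) (by omega)).2
      rw [pow_succ]
      have h3 : j + (i + 1) = j + i + 1 := by ring
      rw [h3]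
      push_cast at h1 h2 ⊢
      linarith
  obtain ⟨K, rfl⟩ : ∃ K, k = K + 1 := ⟨k - 1, by omega⟩
  set Y := M K - (K : ℤ) * M 0 with hY
  have hYY := y2 K (by omega) (by omega)
  rw [← hY] at hYY
  obtain ⟨hY0, hYk⟩ := hYY
  have he' : ∀ x : ℕ, 2 * M (K + 1 + x) ≤ M (K + 1 + (x + 1)) + ((x : ℤ) + 1) * M (x + 1) := by
    intro x
    have := he (K + 1 + x) (by omega)
    rw [show K + 1 + x + 1 - (K + 1) = x + 1 by omega,
      show K + 1 + x + 1 = K + 1 + (x + 1) by ring] at this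
    push_cast at this
    have e1 : ((K : ℤ) + 1 + x + 1 - (K + 1)) = x + 1 := by ring
    rw [e1] at this
    exact this
  have main : ∀ x i : ℕ, x + i = K →
      2 ^ (K + 1) * (M (K + 1) - 6 * M 0) + 2 ^ (i + 1) * (((x : ℤ) ^ 2 + 4 * x + 6) * M 0)
        ≤ 2 ^ (i + 1) * M (K + 1 + x) + (x : ℤ) * (x + 1) * Y := by
    intro x
    induction x with
    | zero =>
      intro i hi
      have : i = K := by omega
      subst this
      simp
      linarith
    | succ x ih =>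
      intro i hi
      have h1 := ih (i + 1) (by omega)
      have h2 := he' x
      have h3 := y3 i (x + 1) (by omega) (by omega)
      have h4 : x + 1 + i = K := hi
      rw [h4] at h3
      have h5 : ((x : ℤ) + 1 + i) = K := by exact_mod_cast h4
      push_cast at h3
      rw [h5, ← hY] at h3
      have hp : (0 : ℤ) < 2 ^ i := by positivity
      -- (x+1) * h3
      have h6 : ((x : ℤ) + 1) * (2 ^ i * (M (x + 1) - (x + 1) * M 0)) ≤ ((x : ℤ) + 1) * Y :=
        mul_le_mul_of_nonneg_left h3 (by positivity)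
      have h7 : 2 ^ (i + 1) * (2 * M (K + 1 + x)) ≤
          2 ^ (i + 1) * (M (K + 1 + (x + 1)) + ((x : ℤ) + 1) * M (x + 1)) :=
        mul_le_mul_of_nonneg_left h2 (by positivity)
      have q1 : (2 : ℤ) ^ (i + 1) = 2 * 2 ^ i := by rw [pow_succ]; ring
      have q2 : (2 : ℤ) ^ (i + 1 + 1) = 4 * 2 ^ i := by rw [pow_succ, pow_succ]; ring
      rw [q2] at h1
      rw [q1] at h7 ⊢
      push_cast at h1 h7 ⊢
      generalize (2 : ℤ) ^ (K + 1) = R at *
      generalize (2 : ℤ) ^ i = P at *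
      linarith
  have h1 := main K 0 (by omega)
  have h2 := hf K
  have n1 := num_ineq1 (K + 1) hk
  have n2 := num_ineq2 (K + 1) hk
  rw [show K + (K + 1) = K + 1 + K by ring] at h2
  have hMK : M K = K * M 0 + Y := by rw [hY]; ring
  have hMK0 : 0 ≤ M K := hnn K
  have hKpos : (0 : ℤ) ≤ K := by positivity
  push_cast at n1 n2 hv h1 h2
  have hv' : (v - 1) * M K ≤ (v - 1) * (K * M 0 + Y) := by rw [hMK]
  have h3 : 2 * ((v - 1) * M K) ≤ (((K : ℤ) + 1) * (K + 1 - 1) * (K + 1 + 1) - 2) * (K * M 0 + Y) := by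
    rw [hMK]
    have : 0 ≤ (K : ℤ) * M 0 + Y := by rw [← hMK]; exact hMK0
    nlinarith
  have hp : (0 : ℤ) < 2 ^ (K + 1) := by positivity
  have h4 : ((K : ℤ) + 1) * M 0 + 2 * Y ≤ M (K + 1) := by linarith
  have h5 : 2 ^ (K + 1) * (((K : ℤ) + 1) * M 0 + 2 * Y - 6 * M 0) ≤ 2 ^ (K + 1) * (M (K + 1) - 6 * M 0) :=
    mul_le_mul_of_nonneg_left (by linarith) hp.le
  have n1' := mul_lt_mul_of_pos_right n1 hpos
  have n2' := mul_le_mul_of_nonneg_right n2 hY0
  have hkk : (0 : ℤ) ≤ ((K : ℤ) ^ 2 + 4 * K + 6) * M 0 := by positivity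
  rw [pow_succ] at n2'
  nlinarith

theorem GRec.k9 {M : ℕ → ℤ} {v : ℤ} (h : GRec M 9 v) : False := by
  obtain ⟨hpos, hnn, ha, hb, hc, hd, he, hf, hv⟩ := h
  norm_num at hv
  have hv' : v - 1 ≤ 359 := by linarith
  have f8 : M 17 ≤ 359 * M 8 := (hf 8).trans (mul_le_mul_of_nonneg_right hv' (hnn 8))
  have c2 := hc 2 (by norm_num) (by norm_num)
  have c3 := hc 3 (by norm_num) (by norm_num)
  have c4 := hc 4 (by norm_num) (by norm_num)
  have c5 := hc 5 (by norm_num) (by norm_num)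
  have c6 := hc 6 (by norm_num) (by norm_num)
  have c7 := hc 7 (by norm_num) (by norm_num)
  have e8 := he 8 (by norm_num)
  have e9 := he 9 (by norm_num)
  have e10 := he 10 (by norm_num)
  have e11 := he 11 (by norm_num)
  have e12 := he 12 (by norm_num)
  have e13 := he 13 (by norm_num)
  have d14 := hd 14 (by norm_num)
  have d15 := hd 15 (by norm_num)
  have d16 := hd 16 (by norm_num)
  norm_num at c2 c3 c4 c5 c6 c7 e8 e9 e10 e11 e12 e13 d14 d15 d16
  linarith

theorem GRec.k10 {M : ℕ → ℤ} {v : ℤ} (h : GRec M 10 v) : False := by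
  obtain ⟨hpos, hnn, ha, hb, hc, hd, he, hf, hv⟩ := h
  norm_num at hv
  have hv' : v - 1 ≤ 494 := by linarith
  have f8 : M 18 ≤ 494 * M 8 := (hf 8).trans (mul_le_mul_of_nonneg_right hv' (hnn 8))
  have c2 := hc 2 (by norm_num) (by norm_num)
  have c3 := hc 3 (by norm_num) (by norm_num)
  have c4 := hc 4 (by norm_num) (by norm_num)
  have c5 := hc 5 (by norm_num) (by norm_num)
  have c6 := hc 6 (by norm_num) (by norm_num)
  have c7 := hc 7 (by norm_num) (by norm_num)
  have c8 := hc 8 (by norm_num) (by norm_num)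
  have e9 := he 9 (by norm_num)
  have e10 := he 10 (by norm_num)
  have e11 := he 11 (by norm_num)
  have e12 := he 12 (by norm_num)
  have e13 := he 13 (by norm_num)
  have d14 := hd 14 (by norm_num)
  have d15 := hd 15 (by norm_num)
  have d16 := hd 16 (by norm_num)
  have d17 := hd 17 (by norm_num)
  norm_num at c2 c3 c4 c5 c6 c7 c8 e9 e10 e11 e12 e13 d14 d15 d16 d17
  linarith

theorem GRec.k11 {M : ℕ → ℤ} {v : ℤ} (h : GRec M 11 v) : False := by
  obtain ⟨hpos, hnn, ha, hb, hc, hd, he, hf, hv⟩ := h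
  norm_num at hv
  have hv' : v - 1 ≤ 659 := by linarith
  have f8 : M 19 ≤ 659 * M 8 := (hf 8).trans (mul_le_mul_of_nonneg_right hv' (hnn 8))
  have c2 := hc 2 (by norm_num) (by norm_num)
  have c3 := hc 3 (by norm_num) (by norm_num)
  have c4 := hc 4 (by norm_num) (by norm_num)
  have c5 := hc 5 (by norm_num) (by norm_num)
  have c6 := hc 6 (by norm_num) (by norm_num)
  have c7 := hc 7 (by norm_num) (by norm_num)
  have c8 := hc 8 (by norm_num) (by norm_num)
  have c9 := hc 9 (by norm_num) (by norm_num)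
  have e10 := he 10 (by norm_num)
  have e11 := he 11 (by norm_num)
  have e12 := he 12 (by norm_num)
  have e13 := he 13 (by norm_num)
  have e14 := he 14 (by norm_num)
  have d15 := hd 15 (by norm_num)
  have d16 := hd 16 (by norm_num)
  have d17 := hd 17 (by norm_num)
  have d18 := hd 18 (by norm_num)
  norm_num at c2 c3 c4 c5 c6 c7 c8 c9 e10 e11 e12 e13 e14 d15 d16 d17 d18
  linarith

theorem GRec.absurd {M : ℕ → ℤ} {k : ℕ} {v : ℤ} (h : GRec M k v) (hk : 9 ≤ k) : False := by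
  rcases Nat.lt_or_ge k 12 with h1 | h1
  · interval_cases k
    · exact h.k9
    · exact h.k10
    · exact h.k11
  · exact h.large h1

end Pool.Agent.Work.KZ
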