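import Pool.Agent.Work.MP_f0e709_co.P2

set_option autoImplicit false
set_option linter.unusedSectionVars false

namespace Pool.Agent.Work.KZ

variable {V : Type*} {G : SimpleGraph V} {k : ℕ}

/-- a cycle list through `a` gives two darts at `a` whose cycle is that one -/
theorem PK.two_darts' (h : PK G k) (hk : 3 ≤ k) {z : List V} (hz : IsCyc G z) (hzl : z.length = k + 1)
    {a : V} (ha : a ∈ z) :
    ∃ b1 b2, b1 ≠ b2 ∧ G.Adj a b1 ∧ G.Adj a b2 ∧ (∀ y, y ∈ cycList G k a b1 ↔ y ∈ z) ∧
      (∀ y, y ∈ cycList G k a b2 ↔ y ∈ z) := by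
  obtain ⟨z', h1, h2⟩ := hz.rot_to ha
  have hz'l : z'.length = k := by
    have := h2.length_eq
    simp [hzl] at this
    exact this
  obtain ⟨b1, m, b2, rfl⟩ : ∃ b1 m b2, z' = b1 :: (m ++ [b2]) := by
    rcases z' with _ | ⟨b1, t⟩
    · simp at hz'l
      omega
    · rcases List.eq_nil_or_concat t with h0 | ⟨m, b2, h0⟩
      · subst h0
        simp at hz'l
        omega
      · exact ⟨b1, m, b2, by rw [h0]; simp⟩
  have hyz : ∀ y, y ∈ a :: b1 :: (m ++ [b2]) ↔ y ∈ z := fun y => h2.mem_iff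
  have hnd := h1.isP.1
  have hne : b1 ≠ b2 := by
    rintro rfl
    simp at hnd
  have hrot : IsCyc G (b1 :: (m ++ [b2]) ++ [a]) := by
    have h3 : IsCyc G ([a] ++ (b1 :: (m ++ [b2]))) := by simpa using h1
    exact h3.rot
  have hrev : IsCyc G (b2 :: (m.reverse ++ [b1]) ++ [a]) := by
    have h3 := h1.reverse
    have h4 : IsCyc G ((b2 :: (m.reverse ++ [b1])) ++ [a]) := by simpa using h3
    exact h4
  refine ⟨b1, b2, hne, ?_, ?_, ?_, ?_⟩
  · exact (isP_cons.1 h1.isP).2.2 b1 (by simp)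
  · have h5 : IsCyc G ([a] ++ (b2 :: (m.reverse ++ [b1]))) := hrev.rot
    have h6 : IsP G (a :: (b2 :: (m.reverse ++ [b1]))) := by simpa using h5.isP
    exact (isP_cons.1 h6).2.2 b2 (by simp)
  · intro y
    rw [h.cycList_eq (by omega) (l := b1 :: (m ++ [b2]) ++ [a]) hrot.isP
      (by simp at hz'l ⊢; omega) (by simp) (by rw [List.getLast?_append_of_ne_nil _ (by simp)]; simp),
      ← hyz y]
    simp
    tauto
  · intro y
    rw [h.cycList_eq (by omega) (l := b2 :: (m.reverse ++ [b1]) ++ [a]) hrev.isP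
      (by simp at hz'l ⊢; omega) (by simp) (by rw [List.getLast?_append_of_ne_nil _ (by simp)]; simp),
      ← hyz y]
    simp
    tauto

/-- the cycle through a dart -/
theorem PK.cycList_spec (h : PK G k) (hk : 2 ≤ k) {a b : V} (hab : G.Adj a b) :
    IsCyc G (cycList G k a b) ∧ (cycList G k a b).length = k + 1 ∧ a ∈ cycList G k a b := by
  obtain ⟨z, h1, h2, h3, h4⟩ := h.exists_cyc hk hab
  rw [h.cycList_eq (by omega) h1.isP h2 h3 h4]
  exact ⟨h1, h2, List.mem_of_getLast? h4⟩

/-- ORDER: `|V| ≤ (k+1) + (k+1)(k-1)(k-2)/2` -/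
theorem PK.card_le_sharp [Fintype V] [DecidableRel G.Adj] [Nontrivial V] (h : PK G k) (hk : 3 ≤ k) :
    2 * Fintype.card V ≤ (k + 1) * ((k - 1) * (k - 2) + 2) := by
  classical
  have hcyc : ∀ y : V, ∃ z : List V, IsCyc G z ∧ z.length = k + 1 ∧ y ∈ z := by
    intro y
    obtain ⟨y', hy'⟩ := (G.degree_pos_iff_exists_adj y).1 (h.degree_pos hk y)
    obtain ⟨z, h1, h2, h3, h4⟩ := h.exists_cyc (by omega) hy'
    exact ⟨z, h1, h2, List.mem_of_getLast? h4⟩
  obtain ⟨y0, -, -⟩ := exists_pair_ne V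
  obtain ⟨C, hC, hCl, -⟩ := hcyc y0
  have hCcard : C.toFinset.card = k + 1 := by
    rw [List.toFinset_card_of_nodup hC.isP.1, hCl]
  -- the set of vertices off C
  set U : Finset V := Finset.univ.filter (fun y => y ∉ C) with hU
  have hUcard : Fintype.card V = U.card + (k + 1) := by
    rw [← hCcard, hU]
    have := Finset.card_filter_add_card_filter_not (s := (Finset.univ : Finset V)) (fun y => y ∈ C)
    rw [Finset.card_univ] at this
    have h2 : Finset.univ.filter (fun y => y ∈ C) = C.toFinset := by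
      ext y; simp
    rw [h2] at this
    omega
  set P : Finset (Σ _ : V, V) := C.toFinset.sigma (fun a => G.neighborFinset a) with hPdef
  have hlow : ∀ y ∈ U, 4 ≤ (P.filter (fun p => y ∈ cycList G k p.1 p.2)).card := by
    intro y _
    obtain ⟨z, hz, hzl, hyz⟩ := hcyc y
    obtain ⟨a, b, hab, ha1, hb1, ha2, hb2⟩ := h.two_le_inter hk hC hCl hz hzl
    obtain ⟨a1, a2, x1, x2, x3, x4, x5⟩ := h.two_darts hk hz hzl ha2 hyz
    obtain ⟨b1, b2, w1, w2, w3, w4, w5⟩ := h.two_darts hk hz hzl hb2 hyz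
    have hsub : ({⟨a, a1⟩, ⟨a, a2⟩, ⟨b, b1⟩, ⟨b, b2⟩} : Finset (Σ _ : V, V)) ⊆
        P.filter (fun p => y ∈ cycList G k p.1 p.2) := by
      intro p hp
      simp only [Finset.mem_insert, Finset.mem_singleton] at hp
      rw [Finset.mem_filter, hPdef, Finset.mem_sigma]
      rcases hp with hp | hp | hp | hp
      · subst hp; exact ⟨⟨by simpa using ha1, by simpa using x2⟩, x4⟩
      · subst hp; exact ⟨⟨by simpa using ha1, by simpa using x3⟩, x5⟩
      · subst hp; exact ⟨⟨by simpa using hb1, by simpa using w2⟩, w4⟩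
      · subst hp; exact ⟨⟨by simpa using hb1, by simpa using w3⟩, w5⟩
    have hcard : ({⟨a, a1⟩, ⟨a, a2⟩, ⟨b, b1⟩, ⟨b, b2⟩} : Finset (Σ _ : V, V)).card = 4 := by
      rw [Finset.card_insert_of_notMem, Finset.card_insert_of_notMem, Finset.card_insert_of_notMem,
        Finset.card_singleton]
      · simp [w1]
      · simp [hab]
      · simp [hab, x1]
    rw [← hcard]
    exact Finset.card_le_card hsub
  have hdc : ∑ y ∈ U, (P.filter (fun p => y ∈ cycList G k p.1 p.2)).card
      = ∑ p ∈ P, (U.filter (fun y => y ∈ cycList G k p.1 p.2)).card := by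
    simp only [Finset.card_filter]
    exact Finset.sum_comm
  have hsig : ∑ p ∈ P, (U.filter (fun y => y ∈ cycList G k p.1 p.2)).card
      = ∑ a ∈ C.toFinset, ∑ b ∈ G.neighborFinset a, (U.filter (fun y => y ∈ cycList G k a b)).card := by
    rw [hPdef, Finset.sum_sigma]
  -- every dart at C contributes at most k - 1, and two of them nothing
  have hterm : ∀ a ∈ C.toFinset, ∀ b ∈ G.neighborFinset a,
      (U.filter (fun y => y ∈ cycList G k a b)).card ≤ k - 1 := by
    intro a ha b hb
    obtain ⟨s1, s2, s3⟩ := h.cycList_spec (by omega) (by simpa using hb : G.Adj a b)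
    obtain ⟨c, d, hcd, hc1, hd1, hc2, hd2⟩ := h.two_le_inter hk hC hCl s1 s2
    have hsub : U.filter (fun y => y ∈ cycList G k a b) ⊆ ((cycList G k a b).toFinset.erase c).erase d := by
      intro y hy
      rw [Finset.mem_filter, hU, Finset.mem_filter] at hy
      rw [Finset.mem_erase, Finset.mem_erase, List.mem_toFinset]
      refine ⟨?_, ?_, hy.2⟩
      · rintro rfl; exact hy.1.2 hd1
      · rintro rfl; exact hy.1.2 hc1
    refine (Finset.card_le_card hsub).trans ?_
    rw [Finset.card_erase_of_mem, Finset.card_erase_of_mem, List.toFinset_card_of_nodup s1.isP.1, s2]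
    · omega
    · simpa using hc2
    · rw [Finset.mem_erase]
      exact ⟨hcd.symm, by simpa using hd2⟩
  have hvert : ∀ a ∈ C.toFinset, ∑ b ∈ G.neighborFinset a, (U.filter (fun y => y ∈ cycList G k a b)).card
      ≤ (2 * k - 4) * (k - 1) := by
    intro a ha
    obtain ⟨b1, b2, w1, w2, w3, w4, w5⟩ := h.two_darts' hk hC hCl (by simpa using ha)
    have z1 : (U.filter (fun y => y ∈ cycList G k a b1)).card = 0 := by
      rw [Finset.card_eq_zero, Finset.filter_eq_empty_iff]
      intro y hy hy2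
      rw [hU, Finset.mem_filter] at hy
      exact hy.2 ((w4 y).1 hy2)
    have z2 : (U.filter (fun y => y ∈ cycList G k a b2)).card = 0 := by
      rw [Finset.card_eq_zero, Finset.filter_eq_empty_iff]
      intro y hy hy2
      rw [hU, Finset.mem_filter] at hy
      exact hy.2 ((w5 y).1 hy2)
    have m1 : b1 ∈ G.neighborFinset a := by simpa using w2
    have m2 : b2 ∈ (G.neighborFinset a).erase b1 := by
      rw [Finset.mem_erase]; exact ⟨w1.symm, by simpa using w3⟩
    rw [← Finset.add_sum_erase _ _ m1, ← Finset.add_sum_erase _ _ m2, z1, z2, zero_add, zero_add]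
    calc ∑ b ∈ ((G.neighborFinset a).erase b1).erase b2, (U.filter (fun y => y ∈ cycList G k a b)).card
        ≤ ∑ _b ∈ ((G.neighborFinset a).erase b1).erase b2, (k - 1) := by
          apply Finset.sum_le_sum
          intro b hb
          exact hterm a ha b (Finset.mem_of_mem_erase (Finset.mem_of_mem_erase hb))
      _ = (((G.neighborFinset a).erase b1).erase b2).card * (k - 1) := by simp
      _ ≤ (2 * k - 4) * (k - 1) := by
          apply Nat.mul_le_mul_right
          rw [Finset.card_erase_of_mem m2, Finset.card_erase_of_mem m1, G.card_neighborFinset_eq_degree]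
          have := h.degree_le hk a
          omega
  have hup : ∑ p ∈ P, (U.filter (fun y => y ∈ cycList G k p.1 p.2)).card
      ≤ (k + 1) * ((2 * k - 4) * (k - 1)) := by
    rw [hsig]
    calc _ ≤ ∑ _a ∈ C.toFinset, (2 * k - 4) * (k - 1) := Finset.sum_le_sum hvert
      _ = (k + 1) * ((2 * k - 4) * (k - 1)) := by simp [hCcard]
  have hsum : 4 * U.card ≤ ∑ y ∈ U, (P.filter (fun p => y ∈ cycList G k p.1 p.2)).card := by
    calc 4 * U.card = ∑ _y ∈ U, 4 := by simp [mul_comm]
      _ ≤ _ := Finset.sum_le_sum hlow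
  have h6 : 4 * U.card ≤ (k + 1) * ((2 * k - 4) * (k - 1)) := hsum.trans (hdc.le.trans hup)
  obtain ⟨q, rfl⟩ : ∃ q, k = q + 2 := ⟨k - 2, by omega⟩
  have h7 : 2 * (q + 2) - 4 = 2 * q := by omega
  have h8 : q + 2 - 1 = q + 1 := by omega
  have h9 : q + 2 - 2 = q := by omega
  rw [h7, h8] at h6
  rw [h8, h9, hUcard]
  nlinarith

end Pool.Agent.Work.KZ
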