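import Pool.Agent.Work.MP_f0e709_co.M4d
import Pool.Agent.Work.MP_f0e709_co.N1
import Pool.Agent.Work.MP_f0e709_co.N2
import Pool.Agent.Work.MP_f0e709_co.P3
import Pool.Agent.Work.MP_f0e709_co.Num2

set_option autoImplicit false
set_option linter.unusedSectionVars false

namespace Pool.Agent.Work.KZ

variable {V : Type*} [Fintype V] [DecidableEq V] {G : SimpleGraph V} [DecidableRel G.Adj] {k : ℕ}

/-- the growth inequality with all degrees at least 4 -/
theorem PK.growth4 (h : PK G k) (hk : 3 ≤ k) {j : ℕ} (hd : ∀ x, 4 ≤ G.degree x) (hj : 1 ≤ j) :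
    2 * (paths G (k + 1 + j)).card + (paths G (k + j)).card
        + 2 * ((paths G (k + j)).image (List.take (j + 1))).card
      ≤ (paths G (k + 2 + j)).card
        + j * (((paths G (k + j)).image (List.take (j + 1))).card
          + ((paths G (k + j + 1)).image (List.take (j + 2))).card) := by
  have e1 := ext_count (G := G) (n := k + j + 1) (by omega)
  have e2 := ext_count (G := G) (n := k + j) (by omega)
  have d1 := sum_degLast_ge (G := G) hd (n := k + j + 1) (by omega)
  have d2 := sum_degLast_ge (G := G) hd (n := k + j) (by omega)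
  have s1 := h.small_top hk hj
  have s2 := h.small_bot hk hj
  have f := forest_two' (G := G) (n := k + j) (s := j + 1) (by omega) (by omega)
    (fun l m hl hm hll hml ht hlast => h.uniq_drop (by omega) (s := j + 1) (n := k + j) (by omega) (by omega)
      (by omega) l m hl hm hll hml ht hlast)
    (fun l m hl hm hll hml ht hlast => h.uniq_drop (by omega) (s := j + 1) (n := k + j + 1) (by omega)
      (by omega) (by omega) l m hl hm hll hml ht hlast)
  rw [show k + 1 + j = k + j + 1 by ring, show k + 2 + j = k + j + 1 + 1 by ring]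
  set M2 := (paths G (k + j + 1 + 1)).card
  set M1 := (paths G (k + j + 1)).card
  set M0 := (paths G (k + j)).card
  set A := ((paths G (k + j)).image (List.take (j + 1))).card
  set B := ((paths G (k + j + 1)).image (List.take (j + 2))).card
  nlinarith

theorem image_take_le {n i : ℕ} (hi : i ≤ n) :
    ((paths G n).image (List.take i)).card ≤ (paths G i).card := by
  apply Finset.card_le_card
  intro l hl
  rw [Finset.mem_image] at hl
  obtain ⟨m, hm, rfl⟩ := hl
  rw [mem_paths] at hm ⊢
  exact ⟨hm.1.take i, by rw [List.length_take]; omega⟩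

/-- the recursion data of a `P(k)`-graph with all degrees at least 4 -/
theorem PK.rec [Nontrivial V] (h : PK G k) (hk : 9 ≤ k) (hd : ∀ x, 4 ≤ G.degree x) :
    GRec (fun j => ((paths G (k + 1 + j)).card : ℤ)) k (Fintype.card V : ℤ) := by
  have hk3 : 3 ≤ k := by omega
  have hv2 : 2 ≤ Fintype.card V := Fintype.one_lt_card
  have hM0 := h.card_paths (by omega)
  have hNpos : 0 < (paths G (k + 1)).card := by
    rw [hM0]
    exact Nat.mul_pos (by omega) (by omega)
  refine ⟨?_, ?_, ?_, ?_, ?_, ?_, ?_, ?_, ?_⟩
  · exact_mod_cast hNpos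
  · intro j; positivity
  · have h1 := h.growth0 hk3
    have h2 := sum_degLast_ge hd (n := k + 1) (by omega)
    have : (paths G (k + 1)).card ≤ (paths G (k + 2)).card := by omega
    exact_mod_cast this
  · have h1 := h.growth4 hk3 hd (j := 1) le_rfl
    have h2 := h.alpha_le (n := k + 2) (i := 3) (by omega) (by omega)
    norm_num at h1
    rw [show k + 1 + 1 = k + 2 by ring, show k + 2 + 1 = k + 3 by ring] at h1
    have : 2 * (paths G (k + 1 + 1)).card ≤ (paths G (k + 1 + 2)).card := by
      rw [show k + 1 + 1 = k + 2 by ring, show k + 1 + 2 = k + 3 by ring]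
      omega
    exact_mod_cast this
  · intro j hj hjk
    have h1 := h.growth4 hk3 hd (j := j) (by omega)
    have a1 := h.alpha_le (n := k + j) (i := j + 1) (by omega) (by omega)
    have a2 := h.alpha_le (n := k + j + 1) (i := j + 2) (by omega) (by omega)
    rw [show k + 1 + (j - 1) = k + j by omega, show k + 1 + (j + 1) = k + 2 + j by ring,
      show k + 1 + 0 = k + 1 by ring]
    obtain ⟨i, rfl⟩ : ∃ i, j = i + 2 := ⟨j - 2, by omega⟩
    set A := ((paths G (k + (i + 2))).image (List.take (i + 2 + 1))).card
    set B := ((paths G (k + (i + 2) + 1)).image (List.take (i + 2 + 2))).card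
    have e1 : i * A ≤ i * (paths G (k + 1)).card := Nat.mul_le_mul_left _ a1
    have e2 : (i + 2) * B ≤ (i + 2) * (paths G (k + 1)).card := Nat.mul_le_mul_left _ a2
    have : 2 * (paths G (k + 1 + (i + 2))).card + (paths G (k + (i + 2))).card
        ≤ (paths G (k + 2 + (i + 2))).card + (2 * i + 2) * (paths G (k + 1)).card := by
      nlinarith
    have h3 : (2 * ((i + 2 : ℕ) : ℤ) - 2) = ((2 * i + 2 : ℕ) : ℤ) := by push_cast; ring
    rw [h3]
    exact_mod_cast this
  · intro j hj
    have h1 := h.growth4 hk3 hd (j := j) (by omega)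
    have a1 := image_take_le (G := G) (n := k + j) (i := j + 1) (by omega)
    have a2 := image_take_le (G := G) (n := k + j + 1) (i := j + 2) (by omega)
    rw [show k + 1 + (j - 1) = k + j by omega, show k + 1 + (j + 1) = k + 2 + j by ring,
      show k + 1 + (j - k) = j + 1 by omega, show k + 1 + (j + 1 - k) = j + 2 by omega]
    obtain ⟨i, rfl⟩ : ∃ i, j = i + 2 := ⟨j - 2, by omega⟩
    set A := ((paths G (k + (i + 2))).image (List.take (i + 2 + 1))).card
    set B := ((paths G (k + (i + 2) + 1)).image (List.take (i + 2 + 2))).card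
    have e1 : i * A ≤ i * (paths G (i + 2 + 1)).card := Nat.mul_le_mul_left _ a1
    have e2 : (i + 2) * B ≤ (i + 2) * (paths G (i + 2 + 2)).card := Nat.mul_le_mul_left _ a2
    have : 2 * (paths G (k + 1 + (i + 2))).card + (paths G (k + (i + 2))).card
        ≤ (paths G (k + 2 + (i + 2))).card + i * (paths G (i + 2 + 1)).card
          + (i + 2) * (paths G (i + 2 + 2)).card := by
      nlinarith
    have h3 : (((i + 2 : ℕ) : ℤ) - 2) = ((i : ℕ) : ℤ) := by push_cast; ring
    rw [h3]
    exact_mod_cast this
  · intro j hj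
    have e1 := ext_count (G := G) (n := k + j + 1) (by omega)
    have d1 := sum_degLast_ge (G := G) hd (n := k + j + 1) (by omega)
    have c1 := h.closings_top hk3 (j := j) (by omega)
    rw [show k + 1 + (j + 1) = k + j + 1 + 1 by ring, show k + 1 + (j + 1 - k) = j + 2 by omega,
      show k + 1 + j = k + j + 1 by ring]
    have h3 : ((j : ℤ) + 1 - k) = ((j + 1 - k : ℕ) : ℤ) := by
      rw [Nat.cast_sub hj]; push_cast; ring
    rw [h3]
    have : 2 * (paths G (k + j + 1)).card ≤ (paths G (k + j + 1 + 1)).card
        + (j + 1 - k) * (paths G (j + 2)).card := by omega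
    exact_mod_cast this
  · intro j
    have := h.paths_mul_le (by omega) (k + 1 + j) (by omega)
    rw [show k + 1 + (j + k) = k + 1 + j + k by ring]
    have h3 : ((Fintype.card V : ℤ) - 1) = ((Fintype.card V - 1 : ℕ) : ℤ) := by
      rw [Nat.cast_sub (by omega)]; simp
    rw [h3]
    exact_mod_cast this
  · have := h.card_le_sharp hk3
    obtain ⟨q, rfl⟩ : ∃ q, k = q + 2 := ⟨k - 2, by omega⟩
    rw [show q + 2 - 1 = q + 1 by omega, show q + 2 - 2 = q by omega] at this
    have h3 : 2 * (Fintype.card V : ℤ) ≤ ((q : ℤ) + 2 + 1) * ((q + 1) * q + 2) := by exact_mod_cast this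
    push_cast
    nlinarith

/-- for `k ≥ 9` every `P(k)`-graph has a vertex of degree two -/
theorem PK.exists_degree_two' [Nontrivial V] (h : PK G k) (hk : 9 ≤ k) : ∃ x, G.degree x = 2 := by
  by_contra hcon
  push Not at hcon
  refine (h.rec hk ?_).absurd hk
  intro x
  have e := h.even_degree (by omega) x
  have p := h.degree_pos (by omega) x
  have h5 := hcon x
  obtain ⟨r, hr⟩ := e
  omega

end Pool.Agent.Work.KZ
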