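import Pool.Agent.Work.MP_f0e709_co.N3
import Pool.Agent.Work.MP_f0e709_co.R2

/-! A vertex of degree two in every finite `P(k)`-graph with `k ≥ 3`. -/

set_option autoImplicit false
set_option linter.unusedSectionVars false

namespace Pool.Agent.Work.KZ

variable {V : Type*} [Fintype V] [DecidableEq V] {G : SimpleGraph V} [DecidableRel G.Adj] {k : ℕ}

theorem PK.rec_small [Nontrivial V] (h : PK G k) (hk : 3 ≤ k) (hd : ∀ x, 4 ≤ G.degree x) :
    ∀ j : ℕ, 1 ≤ j → j + 1 ≤ k →
      (j - 1) * (paths G (k + 1)).card ≤ (paths G (k + 1 + (j - 1))).card ∧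
      j * (paths G (k + 1)).card ≤ (paths G (k + 1 + j)).card := by
  have ha : (paths G (k + 1)).card ≤ (paths G (k + 2)).card := by
    have h1 := h.growth0 hk
    have h2 := sum_degLast_ge hd (n := k + 1) (by omega)
    omega
  have hb : 2 * (paths G (k + 2)).card ≤ (paths G (k + 3)).card := by
    have h1 := h.growth4 hk hd (j := 1) le_rfl
    have h2 := h.alpha_le (n := k + 2) (i := 3) (by omega) (by omega)
    norm_num at h1
    rw [show k + 1 + 1 = k + 2 by ring, show k + 2 + 1 = k + 3 by ring] at h1
    omega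
  have hc : ∀ j : ℕ, 2 ≤ j → j + 1 ≤ k →
      2 * (paths G (k + 1 + j)).card + (paths G (k + j)).card
        ≤ (paths G (k + 1 + (j + 1))).card + (2 * j - 2) * (paths G (k + 1)).card := by
    intro j hj hjk
    have h1 := h.growth4 hk hd (j := j) (by omega)
    have a1 := h.alpha_le (n := k + j) (i := j + 1) (by omega) (by omega)
    have a2 := h.alpha_le (n := k + j + 1) (i := j + 2) (by omega) (by omega)
    rw [show k + 1 + (j + 1) = k + 2 + j by ring]
    obtain ⟨i, rfl⟩ : ∃ i, j = i + 2 := ⟨j - 2, by omega⟩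
    set A := ((paths G (k + (i + 2))).image (List.take (i + 2 + 1))).card
    set B := ((paths G (k + (i + 2) + 1)).image (List.take (i + 2 + 2))).card
    have e1 : i * A ≤ i * (paths G (k + 1)).card := Nat.mul_le_mul_left _ a1
    have e2 : (i + 2) * B ≤ (i + 2) * (paths G (k + 1)).card := Nat.mul_le_mul_left _ a2
    rw [show 2 * (i + 2) - 2 = 2 * i + 2 by omega]
    nlinarith
  intro j hj
  induction j, hj using Nat.le_induction with
  | base =>
    intro _
    refine ⟨by simp, ?_⟩
    simpa [show k + 1 + 1 = k + 2 by ring] using ha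
  | succ j hj ih =>
    intro hjk
    obtain ⟨i1, i2⟩ := ih (by omega)
    refine ⟨by simpa using i2, ?_⟩
    rcases Nat.lt_or_ge j 2 with h2 | h2
    · obtain rfl : j = 1 := by omega
      rw [show k + 1 + (1 + 1) = k + 3 by ring]
      omega
    · have h3 := hc j h2 (by omega)
      rw [show k + 1 + (j - 1) = k + j by omega] at i1
      obtain ⟨i, rfl⟩ : ∃ i, j = i + 2 := ⟨j - 2, by omega⟩
      rw [show 2 * (i + 2) - 2 = 2 * i + 2 by omega] at h3
      rw [show i + 2 - 1 = i + 1 by omega] at i1
      nlinarith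

/-- for `k ≥ 3` every finite `P(k)`-graph has a vertex of degree two -/
theorem PK.exists_degree_two_all [Nontrivial V] (h : PK G k) (hk : 3 ≤ k) : ∃ x, G.degree x = 2 := by
  by_contra hcon
  push Not at hcon
  have hd : ∀ x, 4 ≤ G.degree x := by
    intro x
    have e := h.even_degree (by omega) x
    have p := h.degree_pos (by omega) x
    have h5 := hcon x
    obtain ⟨r, hr⟩ := e
    omega
  have hv2 : 2 ≤ Fintype.card V := Fintype.one_lt_card
  have hM0 := h.card_paths (by omega)
  have hNpos : 0 < (paths G (k + 1)).card := by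
    rw [hM0]
    exact Nat.mul_pos (by omega) (by omega)
  have h1 := (h.rec_small hk hd (k - 2) (by omega) (by omega)).2
  have h2 : 0 < (paths G (k + 1 + (k - 2))).card :=
    lt_of_lt_of_le (Nat.mul_pos (by omega) hNpos) h1
  obtain ⟨l, hl⟩ := Finset.card_pos.1 h2
  rw [mem_paths] at hl
  obtain ⟨hP, hlen⟩ := hl
  have hne : l ≠ [] := by
    rintro rfl
    simp at hlen
    omega
  obtain ⟨m, x, rfl⟩ : ∃ m x, l = m ++ [x] :=
    ⟨l.dropLast, l.getLast hne, (List.dropLast_append_getLast hne).symm⟩
  have hx : ¬ NB G x := by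
    intro hx
    have h4 := hd x
    have h5 : 2 < (G.neighborFinset x).card := by
      rw [G.card_neighborFinset_eq_degree]; omega
    obtain ⟨a, b, c, ha, hb, hc, hab, hac, hbc⟩ := Finset.two_lt_card_iff.1 h5
    rw [SimpleGraph.mem_neighborFinset] at ha hb hc
    rcases hx a b c ha hb hc with h6 | h6 | h6
    · exact hab h6
    · exact hac h6
    · exact hbc h6
  have h6 := h.branchEnd hk m x hP hx
  rw [List.length_append, List.length_singleton] at hlen
  omega

end Pool.Agent.Work.KZ
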