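import Pool.Agent.Work.MP_f0e709_co.M1b

set_option autoImplicit false

namespace Pool.Agent.Work.KZ

variable {V : Type*} {G : SimpleGraph V} {k : ℕ}

/-- `Ear1 G u c y j`: there is an ear of the cycle `u :: c` at `u` with first edge `u y`, ending at the vertex
`x` with `c = A ++ x :: B`, inner vertices `e`, with `|e| + 1 ≤ |B|` and `j = |A| + |e|`. -/
def Ear1 (G : SimpleGraph V) (u : V) (c : List V) (y : V) (j : ℕ) : Prop :=
  ∃ (A : List V) (x : V) (B e : List V), c = A ++ x :: B ∧ IsP G (u :: e ++ [x]) ∧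
    (e ++ [x]).head? = some y ∧ (∀ t ∈ e, t ∉ c) ∧ e.length + 1 ≤ B.length ∧ j = A.length + e.length

/-- ears with the same value `j` have the same first edge -/
theorem PK.ear1_inj (h : PK G k) (hk : 1 ≤ k) {u : V} {c : List V} (hc : IsCyc G (u :: c))
    (hcl : c.length = k) {y y' : V} {j : ℕ} (h1 : Ear1 G u c y j) (h2 : Ear1 G u c y' j) : y = y' := by
  -- the k-path of an ear
  have key : ∀ (z : V), Ear1 G u c z j → ∃ P s : List V, IsP G (P ++ u :: z :: s) ∧
      (P ++ u :: z :: s).length = k + 1 ∧ (P ++ u :: z :: s).head? = (c)[j + 1]? ∧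
      (P ++ u :: z :: s).getLast? = c.head? := by
    rintro z ⟨A, x, B, e, hcA, hP, hz, hd, hlen, hj⟩
    obtain ⟨s, hs⟩ : ∃ s, e ++ x :: A.reverse = z :: s := by
      rcases e with _ | ⟨e0, e1⟩
      · simp at hz
        exact ⟨A.reverse, by simp [hz]⟩
      · simp at hz
        exact ⟨e1 ++ x :: A.reverse, by simp [hz]⟩
    refine ⟨B.drop e.length, s, ?_, ?_, ?_, ?_⟩
    · rw [← hs]
      have hc2 : IsCyc G (u :: A ++ x :: B) := by rw [hcA] at hc; simpa using hc
      have hfl : IsCyc G (u :: B.reverse ++ x :: A.reverse) := hc2.flip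
      -- B ++ [u] is a path
      have hBu : IsP G (B ++ [u]) := by
        have : IsP G (u :: B.reverse) := hfl.isP.of_prefix ⟨x :: A.reverse, by simp⟩
        have := this.reverse
        simpa using this
      have hxA : IsP G (x :: A.reverse) := hfl.isP.of_suffix ⟨u :: B.reverse, by simp⟩
      have hnd : (u :: A ++ x :: B).Nodup := hc2.isP.1
      have hud : u ∉ c := (List.nodup_cons.1 hc.isP.1).1
      -- u :: e ++ x :: A.reverse
      have hmid : IsP G ((u :: e) ++ x :: A.reverse) := by
        refine hP.glue hxA ?_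
        intro t ht ht'
        have htA : t ∈ c := by rw [hcA]; simp at ht ⊢; tauto
        rcases List.mem_cons.1 ht' with h0 | h0
        · subst h0; exact hud htA
        · exact hd t h0 htA
      have hBd : IsP G (B.drop e.length ++ [u]) := by
        refine hBu.of_suffix ?_
        refine ⟨B.take e.length, ?_⟩
        rw [← List.append_assoc, List.take_append_drop]
      have := hBd.glue (t := e ++ x :: A.reverse) (by simpa using hmid) ?_
      · simpa using this
      · intro t ht ht'
        have htB : t ∈ B := List.mem_of_mem_drop ht'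
        have htc : t ∈ c := by rw [hcA]; simp [htB]
        rcases List.mem_append.1 ht with h0 | h0
        · exact hd t h0 htc
        · rw [List.nodup_append'] at hnd
          rcases List.mem_cons.1 h0 with h3 | h3
          · subst h3
            exact (List.nodup_cons.1 hnd.2.1).1 htB
          · exact hnd.2.2 (List.mem_cons_of_mem _ (by simpa using h3)) (List.mem_cons_of_mem _ htB)
    · rw [← hs]
      have : c.length = A.length + B.length + 1 := by rw [hcA]; simp; omega
      simp
      omega
    · have hne : B.drop e.length ≠ [] := by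
        intro h0
        have := congrArg List.length h0
        simp at this
        omega
      rw [List.head?_append_of_ne_nil _ hne, List.head?_drop, hcA, hj]
      rw [List.getElem?_append_right (by omega)]
      rw [show A.length + e.length + 1 - A.length = e.length + 1 by omega]
      simp
    · rw [← hs, List.getLast?_append_of_ne_nil _ (by simp)]
      rw [show (u :: (e ++ x :: A.reverse)) = (u :: e) ++ (x :: A.reverse) by simp,
        List.getLast?_append_of_ne_nil _ (by simp), hcA]
      rcases A with _ | ⟨a0, A'⟩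
      · simp
      · rw [List.getLast?_cons]
        simp
  obtain ⟨P, s, p1, p2, p3, p4⟩ := key y h1
  obtain ⟨P', s', q1, q2, q3, q4⟩ := key y' h2
  have heq := h.uniq p1 q1 p2 q2 (by rw [p3, q3]) (by rw [p4, q4]) hk
  have hu1 : u ∉ P := by
    have := p1.1
    rw [List.nodup_append'] at this
    intro hu
    exact this.2.2 hu (by simp)
  have hu2 : u ∉ y :: s := by
    have := p1.1
    rw [List.nodup_append'] at this
    exact (List.nodup_cons.1 this.2.1).1
  have := (List.append_cons_inj_of_notMem (x₁ := P') (x₂ := P) (z₁ := y' :: s') (z₂ := y :: s)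
    (a₁ := u) (a₂ := u)
    (by
      have := q1.1
      rw [List.nodup_append'] at this
      intro hu
      exact this.2.2 hu (by simp))
    (by
      have := q1.1
      rw [List.nodup_append'] at this
      exact (List.nodup_cons.1 this.2.1).1)).1 heq.symm
  have h3 := this.2.2
  simp at h3
  exact h3.1.symm

/-- every edge at `u` outside the cycle `u :: c` starts an ear of one of the two kinds -/
theorem PK.ear_exists (h : PK G k) (hk : 3 ≤ k) {u : V} {c : List V} (hc : IsCyc G (u :: c))
    (hcl : c.length = k) {y : V} (hy : G.Adj u y) (hyh : c.head? ≠ some y)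
    (hyl : c.getLast? ≠ some y) :
    (∃ j, 1 ≤ j ∧ j ≤ k - 2 ∧ Ear1 G u c y j) ∨ (∃ j, 1 ≤ j ∧ j ≤ k - 2 ∧ Ear1 G u c.reverse y j) := by
  obtain ⟨z, hz, hzl, hzh, hzt⟩ := h.exists_cyc (by omega) hy
  obtain ⟨z1, rfl⟩ : ∃ z1, z = z1 ++ [u] := by
    rcases List.eq_nil_or_concat z with h0 | ⟨l1', d, h0⟩
    · subst h0; simp at hzt
    · refine ⟨l1', ?_⟩
      have h1 : z = l1' ++ [d] := by simpa using h0
      rw [h1, List.getLast?_append_of_ne_nil _ (by simp)] at hzt
      simp at hzt
      rw [← hzt]; exact h1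
  have hz1l : z1.length = k := by simpa using hzl
  have hz1 : IsCyc G (u :: z1) := by simpa using hz.rot
  have hz1ne : z1 ≠ [] := by
    rintro rfl
    simp at hz1l
    omega
  have hz1h : z1.head? = some y := by
    rwa [List.head?_append_of_ne_nil _ hz1ne] at hzh
  obtain ⟨a, b, hab, ha1, hb1, ha2, hb2⟩ := h.two_le_inter hk hc (by simp [hcl]) hz1 (by simp [hz1l])
  have hex : ∃ t ∈ z1, t ∈ c := by
    by_cases hau : a = u
    · subst hau
      refine ⟨b, ?_, ?_⟩
      · exact (List.mem_cons.1 hb2).resolve_left (fun h0 => hab h0.symm)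
      · exact (List.mem_cons.1 hb1).resolve_left (fun h0 => hab h0.symm)
    · exact ⟨a, (List.mem_cons.1 ha2).resolve_left hau, (List.mem_cons.1 ha1).resolve_left hau⟩
  obtain ⟨e, x, r, hzr, hxc, he⟩ := exists_first (fun t => t ∈ c) z1 hex
  obtain ⟨A, B, hcA⟩ := List.append_of_mem hxc
  have hP : IsP G (u :: e ++ [x]) := by
    refine hz1.isP.of_prefix ⟨r, ?_⟩
    rw [hzr]; simp
  have hhead : (e ++ [x]).head? = some y := by
    rw [hzr] at hz1h
    rcases e with _ | ⟨e0, e1⟩
    · simpa using hz1h
    · simpa using hz1h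
  have hlen : A.length + B.length + 1 = k := by rw [← hcl, hcA]; simp; omega
  have hle : e.length + r.length + 1 = k := by rw [← hz1l, hzr]; simp; omega
  by_cases h1 : e.length + 1 ≤ B.length
  · left
    refine ⟨A.length + e.length, ?_, by omega, A, x, B, e, hcA, hP, hhead, he, h1, rfl⟩
    by_contra h0
    have hA : A = [] := List.length_eq_zero_iff.1 (by omega)
    have hE : e = [] := List.length_eq_zero_iff.1 (by omega)
    subst hA; subst hE
    apply hyh
    rw [hcA]
    simpa using hhead
  by_cases h2 : e.length + 1 ≤ A.length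
  · right
    have hcr : c.reverse = B.reverse ++ x :: A.reverse := by rw [hcA]; simp
    refine ⟨B.length + e.length, ?_, by omega, B.reverse, x, A.reverse, e, hcr, hP, hhead, ?_,
      by simpa using h2, by simp⟩
    · by_contra h0
      have hB : B = [] := List.length_eq_zero_iff.1 (by omega)
      have hE : e = [] := List.length_eq_zero_iff.1 (by omega)
      subst hB; subst hE
      apply hyl
      rw [hcA, List.getLast?_append_of_ne_nil _ (by simp)]
      simpa using hhead
    · intro t ht ht'
      exact he t ht (by simpa using ht')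
  exfalso
  have hc2 : IsCyc G (u :: A ++ x :: B) := by rw [hcA] at hc; simpa using hc
  have hfl : IsCyc G (u :: B.reverse ++ x :: A.reverse) := hc2.flip
  have hene : e ≠ [] := by
    rintro rfl
    simp at h1 h2
    subst h1; subst h2
    simp at hlen
    omega
  have hud : u ∉ e := by
    intro hu
    have := hP.1
    simp at this
    exact this.1.1 hu
  have hdis : ∀ t ∈ e, t ∉ (u :: A ++ x :: B) := by
    intro t ht ht'
    have h3 : t = u ∨ t ∈ c := by
      rw [hcA]
      simpa using ht'
    rcases h3 with h4 | h4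
    · subst h4; exact hud ht
    · exact he t ht h4
  rcases Nat.even_or_odd (A.length + e.length) with hp | hp
  · obtain ⟨q, hq⟩ := hp
    exact h.ear_rule (r := q + 1) hc2 (by simp; omega) hP hdis (by omega) (by omega) (by omega) hene
  rcases Nat.even_or_odd (B.length + e.length) with hp' | hp'
  · obtain ⟨q, hq⟩ := hp'
    refine h.ear_rule (r := q + 1) hfl (by simp; omega) hP ?_ (by simp; omega) (by simp; omega)
      (by omega) hene
    intro t ht ht'
    exact hdis t ht (by simp at ht' ⊢; tauto)
  · obtain ⟨q, hq⟩ := hp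
    obtain ⟨q', hq'⟩ := hp'
    -- `k + 1` is even
    obtain ⟨s, hs⟩ : ∃ s, k + 1 = 2 * s := ⟨(k + 1) / 2, by omega⟩
    refine h.even_rule (r := s) (p := u) (z' := c) (t := e.take (k - s)) (by omega) (by omega) hc
      (by simp; omega) ?_ ?_ ?_
    · have h5 : IsP G (u :: e) := hP.of_prefix ⟨[x], by simp⟩
      have := h5.take (k - s + 1)
      simpa using this
    · intro t ht
      exact he t (List.mem_of_mem_take ht)
    · rw [List.length_take]
      omega

/-- at most `k - 2` ears of one kind -/
theorem PK.card_ear1_le [Fintype V] (h : PK G k) (hk : 1 ≤ k) {u : V} {c : List V}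
    (hc : IsCyc G (u :: c)) (hcl : c.length = k) (S : Finset V)
    (hS : ∀ y ∈ S, ∃ j, 1 ≤ j ∧ j ≤ k - 2 ∧ Ear1 G u c y j) : S.card ≤ k - 2 := by
  classical
  have hcard : (Finset.Icc 1 (k - 2)).card = k - 2 := by simp
  rw [← hcard]
  refine Finset.card_le_card_of_injOn
    (fun y => if hy : ∃ j, 1 ≤ j ∧ j ≤ k - 2 ∧ Ear1 G u c y j then hy.choose else 0) ?_ ?_
  · intro y hy
    have hy' := hS y hy
    simp only [dif_pos hy', Finset.coe_Icc, Set.mem_Icc]
    exact ⟨hy'.choose_spec.1, hy'.choose_spec.2.1⟩
  · intro y hy y' hy' heq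
    have h1 := hS y hy
    have h2 := hS y' hy'
    simp only [dif_pos h1, dif_pos h2] at heq
    have e1 := h1.choose_spec.2.2
    have e2 := h2.choose_spec.2.2
    rw [heq] at e1
    exact h.ear1_inj hk hc hcl e1 e2

/-- MAXIMUM DEGREE: in a `P(k)`-graph, `k ≥ 3`, every vertex has degree at most `2k - 2` -/
theorem PK.degree_le [Fintype V] [DecidableRel G.Adj] (h : PK G k) (hk : 3 ≤ k) (u : V) :
    G.degree u ≤ 2 * k - 2 := by
  classical
  by_cases h0 : G.degree u = 0
  · omega
  obtain ⟨y0, hy0⟩ := (G.degree_pos_iff_exists_adj u).1 (by omega)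
  obtain ⟨z, hz, hzl, hzh, hzt⟩ := h.exists_cyc (by omega) hy0
  obtain ⟨c, rfl⟩ : ∃ c, z = c ++ [u] := by
    rcases List.eq_nil_or_concat z with h0 | ⟨l1', d, h0⟩
    · subst h0; simp at hzt
    · refine ⟨l1', ?_⟩
      have h1 : z = l1' ++ [d] := by simpa using h0
      rw [h1, List.getLast?_append_of_ne_nil _ (by simp)] at hzt
      simp at hzt
      rw [← hzt]; exact h1
  have hcl : c.length = k := by simpa using hzl
  have hc : IsCyc G (u :: c) := by simpa using hz.rot
  have hcr : IsCyc G (u :: c.reverse) := by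
    have h1 : IsCyc G ([u] ++ c) := by simpa using hc
    have := h1.rot.reverse
    simpa using this
  have hne : c ≠ [] := by
    rintro rfl
    simp at hcl
    omega
  set S1 := (G.neighborFinset u).filter (fun y => ∃ j, 1 ≤ j ∧ j ≤ k - 2 ∧ Ear1 G u c y j) with hS1
  set S2 := (G.neighborFinset u).filter
    (fun y => ∃ j, 1 ≤ j ∧ j ≤ k - 2 ∧ Ear1 G u c.reverse y j) with hS2
  have hsub : G.neighborFinset u ⊆ {c.head hne, c.getLast hne} ∪ (S1 ∪ S2) := by
    intro y hy
    have hadj : G.Adj u y := (G.mem_neighborFinset u y).1 hy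
    by_cases h1 : c.head? = some y
    · rw [List.head?_eq_some_head hne] at h1
      simp at h1
      simp [h1]
    by_cases h2 : c.getLast? = some y
    · rw [List.getLast?_eq_some_getLast hne] at h2
      simp at h2
      simp [h2]
    rcases h.ear_exists hk hc hcl hadj h1 h2 with h3 | h3
    · have : y ∈ S1 := by rw [hS1, Finset.mem_filter]; exact ⟨hy, h3⟩
      simp [this]
    · have : y ∈ S2 := by rw [hS2, Finset.mem_filter]; exact ⟨hy, h3⟩
      simp [this]
  have c1 : S1.card ≤ k - 2 := h.card_ear1_le (by omega) hc hcl S1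
    (fun y hy => by rw [hS1, Finset.mem_filter] at hy; exact hy.2)
  have c2 : S2.card ≤ k - 2 := h.card_ear1_le (by omega) hcr (by simpa using hcl) S2
    (fun y hy => by rw [hS2, Finset.mem_filter] at hy; exact hy.2)
  have c3 : ({c.head hne, c.getLast hne} : Finset V).card ≤ 2 := Finset.card_le_two
  calc G.degree u = (G.neighborFinset u).card := (G.card_neighborFinset_eq_degree u).symm
    _ ≤ ({c.head hne, c.getLast hne} ∪ (S1 ∪ S2)).card := Finset.card_le_card hsub
    _ ≤ ({c.head hne, c.getLast hne} : Finset V).card + (S1 ∪ S2).card := Finset.card_union_le _ _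
    _ ≤ ({c.head hne, c.getLast hne} : Finset V).card + (S1.card + S2.card) := by
        have := Finset.card_union_le S1 S2
        omega
    _ ≤ 2 * k - 2 := by omega

/-- the `(k+1)`-cycle through a dart, as the list of the `k`-path from the head of the dart to its tail -/
noncomputable def cycList (G : SimpleGraph V) (k : ℕ) (a b : V) : List V := by
  classical
  exact if h : ∃ l : List V, IsP G l ∧ l.length = k + 1 ∧ l.head? = some b ∧ l.getLast? = some a
    then h.choose else []

theorem PK.cycList_eq (h : PK G k) (hk : 1 ≤ k) {a b : V} {l : List V} (hl : IsP G l)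
    (hll : l.length = k + 1) (hh : l.head? = some b) (hla : l.getLast? = some a) :
    cycList G k a b = l := by
  have hex : ∃ l : List V, IsP G l ∧ l.length = k + 1 ∧ l.head? = some b ∧ l.getLast? = some a :=
    ⟨l, hl, hll, hh, hla⟩
  unfold cycList
  rw [dif_pos hex]
  obtain ⟨h1, h2, h3, h4⟩ := hex.choose_spec
  exact h.uniq h1 hl h2 hll (by rw [h3, hh]) (by rw [h4, hla]) hk

theorem cycList_length_le (a b : V) : (cycList G k a b).length ≤ k + 1 := by
  unfold cycList
  split
  · rename_i h
    exact h.choose_spec.2.1.le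
  · simp

/-- a cycle list through `a` gives two darts at `a` whose cycle is that one -/
theorem PK.two_darts (h : PK G k) (hk : 3 ≤ k) {z : List V} (hz : IsCyc G z) (hzl : z.length = k + 1)
    {a y : V} (ha : a ∈ z) (hy : y ∈ z) :
    ∃ b1 b2, b1 ≠ b2 ∧ G.Adj a b1 ∧ G.Adj a b2 ∧ y ∈ cycList G k a b1 ∧ y ∈ cycList G k a b2 := by
  obtain ⟨z', h1, h2⟩ := hz.rot_to ha
  have hz'l : z'.length = k := by
    have := h2.length_eq
    simp [hzl] at this
    exact this
  obtain ⟨b1, m, b2, rfl⟩ : ∃ b1 m b2, z' = b1 :: (m ++ [b2]) := by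
    rcases z' with _ | ⟨b1, t⟩
    · simp at hz'l
      omega
    · rcases List.eq_nil_or_concat t with h0 | ⟨m, b2, h0⟩
      · subst h0
        simp at hz'l
        omega
      · exact ⟨b1, m, b2, by rw [h0]; simp⟩
  have hyz : y ∈ a :: b1 :: (m ++ [b2]) := h2.mem_iff.2 hy
  have hnd := h1.isP.1
  have hne : b1 ≠ b2 := by
    rintro rfl
    simp at hnd
  have hrot : IsCyc G (b1 :: (m ++ [b2]) ++ [a]) := by
    have h3 : IsCyc G ([a] ++ (b1 :: (m ++ [b2]))) := by simpa using h1
    exact h3.rot
  have hrev : IsCyc G (b2 :: (m.reverse ++ [b1]) ++ [a]) := by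
    have h3 := h1.reverse
    have h4 : IsCyc G ((b2 :: (m.reverse ++ [b1])) ++ [a]) := by simpa using h3
    exact h4
  refine ⟨b1, b2, hne, ?_, ?_, ?_, ?_⟩
  · exact (isP_cons.1 h1.isP).2.2 b1 (by simp)
  · have h5 : IsCyc G ([a] ++ (b2 :: (m.reverse ++ [b1]))) := hrev.rot
    have h6 : IsP G (a :: (b2 :: (m.reverse ++ [b1]))) := by simpa using h5.isP
    exact (isP_cons.1 h6).2.2 b2 (by simp)
  · rw [h.cycList_eq (by omega) (l := b1 :: (m ++ [b2]) ++ [a]) hrot.isP
      (by simp at hz'l ⊢; omega) (by simp) (by rw [List.getLast?_append_of_ne_nil _ (by simp)]; simp)]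
    simp at hyz ⊢
    tauto
  · rw [h.cycList_eq (by omega) (l := b2 :: (m.reverse ++ [b1]) ++ [a]) hrev.isP
      (by simp at hz'l ⊢; omega) (by simp) (by rw [List.getLast?_append_of_ne_nil _ (by simp)]; simp)]
    simp at hyz ⊢
    tauto

/-- ORDER: a `P(k)`-graph, `k ≥ 3`, has at most `(k - 1)(k + 1)² / 2` vertices -/
theorem PK.card_le_cubic [Fintype V] [DecidableRel G.Adj] [Nontrivial V] (h : PK G k) (hk : 3 ≤ k) :
    2 * Fintype.card V ≤ (k - 1) * (k + 1) ^ 2 := by
  classical
  -- every vertex lies on a cycle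
  have hcyc : ∀ y : V, ∃ z : List V, IsCyc G z ∧ z.length = k + 1 ∧ y ∈ z := by
    intro y
    obtain ⟨y', hy'⟩ := (G.degree_pos_iff_exists_adj y).1 (h.degree_pos hk y)
    obtain ⟨z, h1, h2, h3, h4⟩ := h.exists_cyc (by omega) hy'
    exact ⟨z, h1, h2, List.mem_of_getLast? h4⟩
  obtain ⟨y0, -, -⟩ := exists_pair_ne V
  obtain ⟨C, hC, hCl, -⟩ := hcyc y0
  set P : Finset (Σ _ : V, V) := C.toFinset.sigma (fun a => G.neighborFinset a) with hPdef
  have hPcard : P.card ≤ (k + 1) * (2 * k - 2) := by
    rw [hPdef, Finset.card_sigma]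
    calc ∑ a ∈ C.toFinset, (G.neighborFinset a).card
        ≤ ∑ _a ∈ C.toFinset, (2 * k - 2) := by
          apply Finset.sum_le_sum
          intro a _
          rw [G.card_neighborFinset_eq_degree]
          exact h.degree_le hk a
      _ = C.toFinset.card * (2 * k - 2) := by simp
      _ ≤ (k + 1) * (2 * k - 2) := by
          apply Nat.mul_le_mul_right
          rw [← hCl]
          exact List.toFinset_card_le C
  have hlow : ∀ y : V, 4 ≤ (P.filter (fun p => y ∈ cycList G k p.1 p.2)).card := by
    intro y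
    obtain ⟨z, hz, hzl, hyz⟩ := hcyc y
    obtain ⟨a, b, hab, ha1, hb1, ha2, hb2⟩ := h.two_le_inter hk hC hCl hz hzl
    obtain ⟨a1, a2, x1, x2, x3, x4, x5⟩ := h.two_darts hk hz hzl ha2 hyz
    obtain ⟨b1, b2, w1, w2, w3, w4, w5⟩ := h.two_darts hk hz hzl hb2 hyz
    have hsub : ({⟨a, a1⟩, ⟨a, a2⟩, ⟨b, b1⟩, ⟨b, b2⟩} : Finset (Σ _ : V, V)) ⊆
        P.filter (fun p => y ∈ cycList G k p.1 p.2) := by
      intro p hp
      simp only [Finset.mem_insert, Finset.mem_singleton] at hp
      rw [Finset.mem_filter, hPdef, Finset.mem_sigma]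
      rcases hp with hp | hp | hp | hp
      · subst hp; exact ⟨⟨by simpa using ha1, by simpa using x2⟩, x4⟩
      · subst hp; exact ⟨⟨by simpa using ha1, by simpa using x3⟩, x5⟩
      · subst hp; exact ⟨⟨by simpa using hb1, by simpa using w2⟩, w4⟩
      · subst hp; exact ⟨⟨by simpa using hb1, by simpa using w3⟩, w5⟩
    have hcard : ({⟨a, a1⟩, ⟨a, a2⟩, ⟨b, b1⟩, ⟨b, b2⟩} : Finset (Σ _ : V, V)).card = 4 := by
      rw [Finset.card_insert_of_notMem, Finset.card_insert_of_notMem, Finset.card_insert_of_notMem,
        Finset.card_singleton]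
      · simp [w1]
      · simp [hab]
      · simp [hab, x1]
    rw [← hcard]
    exact Finset.card_le_card hsub
  have hdc : ∑ y : V, (P.filter (fun p => y ∈ cycList G k p.1 p.2)).card
      = ∑ p ∈ P, ((Finset.univ : Finset V).filter (fun y => y ∈ cycList G k p.1 p.2)).card := by
    simp only [Finset.card_filter]
    exact Finset.sum_comm
  have hup : ∑ p ∈ P, ((Finset.univ : Finset V).filter (fun y => y ∈ cycList G k p.1 p.2)).card
      ≤ P.card * (k + 1) := by
    rw [← smul_eq_mul, ← Finset.sum_const]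
    apply Finset.sum_le_sum
    intro p _
    calc ((Finset.univ : Finset V).filter (fun y => y ∈ cycList G k p.1 p.2)).card
        ≤ (cycList G k p.1 p.2).toFinset.card := by
          apply Finset.card_le_card
          intro y hy
          simpa using hy
      _ ≤ (cycList G k p.1 p.2).length := List.toFinset_card_le _
      _ ≤ k + 1 := cycList_length_le _ _
  have hsum : 4 * Fintype.card V ≤ ∑ y : V, (P.filter (fun p => y ∈ cycList G k p.1 p.2)).card := by
    calc 4 * Fintype.card V = ∑ _y : V, 4 := by simp [mul_comm]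
      _ ≤ _ := Finset.sum_le_sum (fun y _ => hlow y)
  have h6 : 4 * Fintype.card V ≤ (k + 1) * (2 * k - 2) * (k + 1) :=
    hsum.trans (hdc.le.trans (hup.trans (Nat.mul_le_mul_right _ hPcard)))
  obtain ⟨q, rfl⟩ : ∃ q, k = q + 1 := ⟨k - 1, by omega⟩
  have h7 : 2 * (q + 1) - 2 = 2 * q := by omega
  rw [h7] at h6
  have h8 : q + 1 - 1 = q := by omega
  rw [h8]
  nlinarith

end Pool.Agent.Work.KZ
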