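import Pool.Agent.Work.MP_f0e709_co.T1a

/-! The pseudoforest lemma, part 2 (helper14): there is no dumbbell off a `(k+1)`-cycle. -/

set_option autoImplicit false

namespace Pool.Agent.Work.KZ

variable {V : Type*} {G : SimpleGraph V} {k : ℕ}

/-- (R2) a path ending at a branch vertex has at most `2k - 3` edges -/
def BranchEnd (G : SimpleGraph V) (k : ℕ) : Prop :=
  ∀ (l : List V) (x : V), IsP G (l ++ [x]) → ¬ NB G x → l.length + 3 ≤ 2 * k

/-- (R1) every cycle has at most `2k - 1` edges -/
def Circ (G : SimpleGraph V) (k : ℕ) : Prop :=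
  ∀ z : List V, IsCyc G z → z.length + 1 ≤ 2 * k

theorem Dumb.flip {A M D : List V} (h : Dumb G A M D) : Dumb G A M D.reverse := by
  obtain ⟨h1, h2, h3, h4, h5, h6⟩ := h
  have hD : D ≠ [] := by intro h0; subst h0; simp at h3
  rw [isP_append] at h1
  obtain ⟨g1, g2, g3, g4⟩ := h1
  refine ⟨?_, h2, by simpa using h3, h4, h5, ?_⟩
  · rw [isP_append]
    refine ⟨g1, g2.reverse, ?_, ?_⟩
    · intro x hx hx'
      exact g3 hx (by simpa using hx')
    · intro x hx y hy
      rw [List.head?_reverse] at hy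
      rw [List.getLast?_append_of_ne_nil _ h4] at hx
      exact (h6 y hy x hx).symm
  · intro e he y hy
    rw [List.getLast?_reverse] at he
    exact (g4 y (by rw [List.getLast?_append_of_ne_nil _ h4]; exact hy) e he).symm

theorem Dumb.flip_left {A M D : List V} (h : Dumb G A M D) : Dumb G A.reverse M D := by
  have := h.symm.flip.symm
  simpa using this

theorem Dumb.path {A1 A2 M D1 D2 : List V} {a d : V} (h : Dumb G (A1 ++ a :: A2) M (D1 ++ d :: D2)) :
    IsP G (d :: (D1.reverse ++ (M.reverse ++ (A2.reverse ++ [a])))) := by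
  have h1 : IsP G (a :: A2 ++ M ++ D1 ++ [d]) := h.1.of_infix ⟨A1, D2, by simp⟩
  have := h1.reverse
  simpa using this

/-- a vertex of a cycle with a neighbour off the cycle is a branch vertex -/
theorem not_NB_of_off {c : List V} (hc : IsCyc G c) {a y : V} (ha : a ∈ c) (hay : G.Adj a y) (hy : y ∉ c) :
    ¬ NB G a := by
  intro hNB
  obtain ⟨c', hc', hp⟩ := hc.rot_to ha
  obtain ⟨u, c'', rfl⟩ : ∃ u c'', c' = u :: c'' := by
    cases c' with
    | nil => have := hc'.2.2; simp at this
    | cons u c'' => exact ⟨u, c'', rfl⟩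
  rcases List.eq_nil_or_concat c'' with h0 | ⟨c3, v, h0⟩
  · subst h0
    have := hc'.2.2; simp at this
  · rw [List.concat_eq_append] at h0
    subst h0
    have hau : G.Adj a u := (isP_cons.1 hc'.isP).2.2 u (by simp)
    have hva : G.Adj v a := by
      refine hc'.2.1 v ?_ a (by simp)
      rw [show a :: u :: (c3 ++ [v]) = (a :: u :: c3) ++ [v] by simp]
      rw [List.getLast?_append_of_ne_nil _ (by simp)]
      simp
    have huv : u ≠ v := by
      have := hc'.isP.1
      simp at this
      tauto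
    have huc : u ∈ c := hp.mem_iff.1 (by simp)
    have hvc : v ∈ c := hp.mem_iff.1 (by simp)
    rcases hNB u v y hau hva.symm hay with h1 | h1 | h1
    · exact huv h1
    · subst h1; exact hy huc
    · subst h1; exact hy hvc

/-- gluing the tour of the `(k+1)`-cycle to a path which starts at the gate -/
theorem glue_tour {z L X R : List V} {d : V} (hL : IsP G (L ++ [d])) (hR : IsP G (d :: R))
    (hX : ∀ v ∈ R, v ∈ X) (hLX : ∀ v ∈ L, v ∉ X) : IsP G (L ++ d :: R) :=
  hL.glue hR (fun v hv hv' => hLX v hv' (hX v hv))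

theorem PK.no_dumb_half (h : PK G k) (hk : 3 ≤ k) (hR2 : BranchEnd G k) {z : List V} (hz : IsCyc G z)
    (hzl : z.length = k + 1) {A M D : List V}
    (hne : ∀ (Y : List V) (r : ℕ), IsCyc G Y → Y.length = 2 * r → 2 ≤ r → ∃ y ∈ Y, y ∈ z)
    (hd : Dumb G A M D) (hX : ∀ v ∈ A ++ M ++ D, v ∉ z) (hDA : D.length ≤ A.length) : False := by
  obtain ⟨q1, M1, hM1⟩ : ∃ q1 M1, M = q1 :: M1 := by
    cases hM : M with
    | nil => exact absurd hM hd.2.2.2.1
    | cons q1 M1 => exact ⟨q1, M1, rfl⟩
  obtain ⟨M2, q2, hM2⟩ : ∃ M2 q2, M = M2 ++ [q2] := by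
    rcases List.eq_nil_or_concat M with h0 | ⟨M2, q2, h0⟩
    · exact absurd h0 hd.2.2.2.1
    · exact ⟨M2, q2, by rw [h0, List.concat_eq_append]⟩
  have hcl : IsCyc G (q1 :: A) := by
    have := hd; rw [hM1] at this; exact this.cyc_left
  have hcr : IsCyc G (q2 :: D) := by
    have := hd; rw [hM2] at this; exact this.cyc_right
  -- both cycles are odd
  have hDe : ∃ r, D.length = 2 * r := by
    rcases Nat.even_or_odd' D.length with ⟨r, hr | hr⟩
    · exact ⟨r, hr⟩
    · exfalso
      have h3 := hcr.2.2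
      obtain ⟨y, hy, hy'⟩ := hne _ (r + 1) hcr (by simp; omega) (by simp at h3; omega)
      refine hX y ?_ hy'
      rw [hM2]
      simp at hy ⊢
      tauto
  have hAe : ∃ r, A.length = 2 * r := by
    rcases Nat.even_or_odd' A.length with ⟨r, hr | hr⟩
    · exact ⟨r, hr⟩
    · exfalso
      have h3 := hcl.2.2
      obtain ⟨y, hy, hy'⟩ := hne _ (r + 1) hcl (by simp; omega) (by simp at h3; omega)
      refine hX y ?_ hy'
      rw [hM1]
      simp at hy ⊢
      tauto
  obtain ⟨r1, hr1⟩ := hDe
  obtain ⟨r2, hr2⟩ := hAe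
  -- the gates
  obtain ⟨D1, D2, t, d, z0, hD, ht, hz0, htX⟩ : ∃ (D1 D2 t : List V) (d z0 : V), D = D1 ++ d :: D2 ∧
      IsP G (d :: t ++ [z0]) ∧ z0 ∈ z ∧ ∀ v ∈ t, v ∉ z ∧ v ∉ A ++ M ++ D := by
    have h1 := hd
    rw [hM2] at h1 hX ⊢
    exact h.gate hk hz hzl hne h1 hX
  obtain ⟨A1, A2, a, y, hA, hay, hyX⟩ : ∃ (A1 A2 : List V) (a y : V), A = A1 ++ a :: A2 ∧
      G.Adj a y ∧ y ∉ A ++ M ++ D := by
    have h1 := hd.symm
    have hX' : ∀ v ∈ D.reverse ++ (M1.reverse ++ [q1]) ++ A.reverse, v ∉ z := by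
      intro v hv
      apply hX
      rw [hM1]
      simp at hv ⊢
      tauto
    rw [hM1, List.reverse_cons] at h1
    obtain ⟨E1, E2, t', a, z0', hE, ht', hz0', htX'⟩ := h.gate hk hz hzl hne h1 hX'
    have hAE : A = E2.reverse ++ a :: E1.reverse := by
      have := congrArg List.reverse hE
      simpa using this
    cases t' with
    | nil =>
      refine ⟨E2.reverse, E1.reverse, a, z0', hAE, ?_, ?_⟩
      · exact (isP_cons.1 ht').2.2 z0' (by simp)
      · intro hv
        exact hX z0' hv hz0'
    | cons y t' =>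
      refine ⟨E2.reverse, E1.reverse, a, y, hAE, ?_, ?_⟩
      · exact (isP_cons.1 ht').2.2 y (by simp)
      · intro hv
        refine (htX' y (by simp)).2 ?_
        rw [hM1] at hv
        simp at hv ⊢
        tauto
  have hNB : ¬ NB G a := by
    refine not_NB_of_off hcl (by rw [hA]; simp) hay ?_
    intro hv
    apply hyX
    rw [hM1]
    simp at hv ⊢
    tauto
  -- the tour
  obtain ⟨z', hz', hzp⟩ := hz.rot_to hz0
  have hzl' : z'.length = k := by
    have := hzp.length_eq
    simp at this; omega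
  have hL : IsP G ((z'.reverse ++ z0 :: t.reverse) ++ [d]) := by
    have h1 : IsP G (z'.reverse ++ [z0]) := by
      have := hz'.isP.reverse
      simpa using this
    have h2 : IsP G (z0 :: (t.reverse ++ [d])) := by
      have := ht.reverse
      simpa using this
    have h3 := h1.glue h2 (by
      intro v hv hv'
      have hvz : v ∈ z := hzp.mem_iff.1 (by simp at hv' ⊢; exact Or.inr hv')
      rcases List.mem_append.1 hv with h4 | h4
      · exact (htX v (by simpa using h4)).1 hvz
      · have h5 : v = d := by simpa using h4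
        refine hX v ?_ hvz
        rw [h5, hD]
        simp)
    simpa using h3
  set L := z'.reverse ++ z0 :: t.reverse with hLdef
  have hLl : L.length = k + 1 + t.length := by simp [hLdef]; omega
  have hLX : ∀ v ∈ L, v ∉ A ++ M ++ D := by
    intro v hv hv'
    rw [hLdef] at hv
    rcases List.mem_append.1 hv with h1 | h1
    · exact hX v hv' (hzp.mem_iff.1 (by simp at h1 ⊢; exact Or.inr h1))
    · rcases List.mem_cons.1 h1 with h2 | h2
      · subst h2; exact hX v hv' hz0
      · exact (htX v (by simpa using h2)).2 hv'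
  -- the two long paths
  have hlen1 : D1.length + M.length + A2.length + 5 ≤ k := by
    have h1 : Dumb G (A1 ++ a :: A2) M (D1 ++ d :: D2) := by rw [← hA, ← hD]; exact hd
    have h2 := hL.glue h1.path (by
      intro v hv hv'
      refine hLX v hv' ?_
      rw [hA, hD]
      simp at hv ⊢
      tauto)
    rw [show L ++ d :: (D1.reverse ++ (M.reverse ++ (A2.reverse ++ [a])))
      = (L ++ d :: (D1.reverse ++ (M.reverse ++ A2.reverse))) ++ [a] by simp] at h2
    have h3 := hR2 _ _ h2 hNB
    simp at h3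
    omega
  have hlen2 : D2.length + M.length + A1.length + 5 ≤ k := by
    have h1 : Dumb G (A2.reverse ++ a :: A1.reverse) M (D2.reverse ++ d :: D1.reverse) := by
      have := hd.flip.flip_left
      rw [hA, hD] at this
      simpa using this
    have h2 := hL.glue h1.path (by
      intro v hv hv'
      refine hLX v hv' ?_
      rw [hA, hD]
      simp at hv ⊢
      tauto)
    rw [show L ++ d :: (D2.reverse.reverse ++ (M.reverse ++ (A1.reverse.reverse ++ [a])))
      = (L ++ d :: (D2 ++ (M.reverse ++ A1))) ++ [a] by simp] at h2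
    have h3 := hR2 _ _ h2 hNB
    simp at h3
    omega
  have hDl : D.length = D1.length + D2.length + 1 := by rw [hD]; simp; omega
  have hAl : A.length = A1.length + A2.length + 1 := by rw [hA]; simp; omega
  have hMl : M.length = M1.length + 1 := by rw [hM1]; simp
  -- the tail
  obtain ⟨T, hTs, hTl⟩ : ∃ T, T <:+ L ∧ T.length = k - 1 - (r1 + r2) - M1.length := by
    refine ⟨L.drop (L.length - (k - 1 - (r1 + r2) - M1.length)), List.drop_suffix _ _, ?_⟩
    rw [List.length_drop]
    omega
  have hTX : ∀ v ∈ T, v ∉ A ++ M ++ D := fun v hv => hLX v (hTs.subset hv)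
  have hT : IsP G (T ++ [d]) := by
    obtain ⟨S, hS⟩ := hTs
    refine hL.of_suffix ⟨S, ?_⟩
    rw [← hS]; simp
  have hin1 : IsP G (d :: (D1.reverse ++ (M1.reverse ++ [q1]))) := by
    have h1 : Dumb G (A1 ++ a :: A2) M (D1 ++ d :: D2) := by rw [← hA, ← hD]; exact hd
    have h2 := h1.path
    refine h2.of_prefix ⟨A2.reverse ++ [a], ?_⟩
    rw [hM1]; simp
  have hin2 : IsP G (d :: (D2 ++ (M1.reverse ++ [q1]))) := by
    have h1 : Dumb G (A1 ++ a :: A2) M (D2.reverse ++ d :: D1.reverse) := by
      have := hd.flip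
      rw [hA, hD] at this
      simpa using this
    have h2 := h1.path
    refine h2.of_prefix ⟨A2.reverse ++ [a], ?_⟩
    rw [hM1]; simp
  have hp1 := hT.glue hin1 (by
    intro v hv hv'
    refine hTX v hv' ?_
    rw [hD, hM1]
    simp at hv ⊢
    tauto)
  have hp2 := hT.glue hin2 (by
    intro v hv hv'
    refine hTX v hv' ?_
    rw [hD, hM1]
    simp at hv ⊢
    tauto)
  have hnd := hd.1.1
  rw [List.append_assoc, List.nodup_append'] at hnd
  refine h.fig8_base (x := q1) (z := d) (T := T) (j := D1.reverse ++ M1.reverse) (j' := D2 ++ M1.reverse)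
    (w := A) (t := r1 + r2 - D1.length) (t' := r1 + r2 - D2.length) (by omega) ?_ ?_ hcl ?_ ?_ ?_ ?_ ?_ ?_ ?_ ?_
  · simpa using hp1
  · simpa using hp2
  · intro v hv hv'
    rcases List.mem_append.1 hv' with h1 | h1
    · exact hTX v h1 (by simp [hv])
    · refine hnd.2.2 hv ?_
      rw [hM1, hD]
      simp at h1 ⊢
      tauto
  · intro v hv hv'
    rcases List.mem_append.1 hv' with h1 | h1
    · exact hTX v h1 (by simp [hv])
    · refine hnd.2.2 hv ?_
      rw [hM1, hD]
      simp at h1 ⊢
      tauto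
  · simp; omega
  · simp; omega
  · omega
  · omega
  · omega
  · simp; omega

/-- there is no dumbbell off a `(k+1)`-cycle -/
theorem PK.no_dumb (h : PK G k) (hk : 3 ≤ k) (hR2 : BranchEnd G k) {z : List V} (hz : IsCyc G z)
    (hzl : z.length = k + 1) {A M D : List V}
    (hne : ∀ (Y : List V) (r : ℕ), IsCyc G Y → Y.length = 2 * r → 2 ≤ r → ∃ y ∈ Y, y ∈ z)
    (hd : Dumb G A M D) (hX : ∀ v ∈ A ++ M ++ D, v ∉ z) : False := by
  rcases le_total D.length A.length with h1 | h1
  · exact h.no_dumb_half hk hR2 hz hzl hne hd hX h1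
  · refine h.no_dumb_half hk hR2 hz hzl hne hd.symm ?_ (by simpa using h1)
    intro v hv
    apply hX
    simp at hv ⊢
    tauto

end Pool.Agent.Work.KZ
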