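import Pool.Agent.Work.MP_f0e709_co.R1d
import Pool.Agent.Work.MP_f0e709_co.T1b

/-! Circumference, last part (helper14): every cycle of a `P(k)`-graph has length at most `2k - 1`. -/

set_option autoImplicit false

namespace Pool.Agent.Work.KZ

variable {V : Type*} {G : SimpleGraph V} {k : ℕ}

/-- a path shorter than the arc of a cycle between its ends contains an ear of the cycle -/
theorem ear_of_path : ∀ (m M pre : List V) (z w : V), IsCyc G (z :: M ++ w :: pre) → IsP G (z :: m ++ [w]) →
    m.length < M.length → (∀ x ∈ m, x ∉ pre) → (m = [] → pre ≠ []) →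
    ∃ (c d : V) (a b e : List V), IsCyc G (c :: a ++ d :: b) ∧
      (c :: a ++ d :: b).length = (z :: M ++ w :: pre).length ∧ IsP G (c :: e ++ [d]) ∧
      (∀ x ∈ e, x ∉ (c :: a ++ d :: b)) ∧ (e = [] → a ≠ [] ∧ b ≠ []) := by
  intro m
  induction m with
  | nil =>
    intro M pre z w hz hp hl _ hne
    refine ⟨z, w, M, pre, [], hz, rfl, hp, by simp, fun _ => ⟨?_, hne rfl⟩⟩
    rintro rfl
    simp at hl
  | cons c m ih =>
    intro M pre z w hz hp hl hdis _
    obtain ⟨y, M', rfl⟩ : ∃ y M', M = y :: M' := by
      cases M with
      | nil => simp at hl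
      | cons y M' => exact ⟨y, M', rfl⟩
    have hnd := hp.1
    simp only [List.cons_append, List.nodup_cons, List.mem_cons, List.mem_append, List.not_mem_nil, or_false,
      not_or] at hnd
    by_cases hcy : c = y
    · subst hcy
      obtain ⟨c1, d1, a, b, e, h1, h2, h3, h4, h5⟩ := ih M' (pre ++ [z]) c w (by
        have h0 : IsCyc G ([z] ++ (c :: M' ++ w :: pre)) := by simpa using hz
        simpa using h0.rot) (isP_cons.1 hp).2.1 (by simpa using hl) (by
        intro x hx hx'
        rw [List.mem_append, List.mem_singleton] at hx'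
        rcases hx' with hx' | hx'
        · exact hdis x (by simp [hx]) hx'
        · subst hx'
          exact hnd.1.2.1 hx) (by simp)
      refine ⟨c1, d1, a, b, e, h1, ?_, h3, h4, h5⟩
      rw [h2]
      simp
      omega
    · have hcz : G.Adj z c := (isP_cons.1 hp).2.2 c (by simp)
      by_cases hcM : c ∈ M'
      · obtain ⟨M1, M2, rfl⟩ := List.append_of_mem hcM
        refine ⟨z, c, y :: M1, M2 ++ w :: pre, [], by simpa using hz, by simp, ?_, by simp, fun _ => ⟨by simp, by simp⟩⟩
        exact hp.of_prefix ⟨m ++ [w], by simp⟩
      · have hcZ : c ∉ (z :: (y :: M') ++ w :: pre) := by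
          have h1 : c ∉ pre := hdis c (by simp)
          have h2 : c ≠ w := hnd.2.1.2
          have h3 : z ≠ c := hnd.1.1
          simp only [List.cons_append, List.mem_cons, List.mem_append, not_or]
          exact ⟨h3.symm, hcy, hcM, h2, h1⟩
        obtain ⟨e', x, rest, he, hxZ, hall⟩ := exists_first (fun v => v ∈ (z :: (y :: M') ++ w :: pre)) (m ++ [w])
          ⟨w, by simp, by simp⟩
        have hzx : z ≠ x := by
          have h1 : x ∈ m ++ [w] := by rw [he]; simp
          rw [List.mem_append, List.mem_singleton] at h1
          rintro rfl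
          rcases h1 with h1 | h1
          · exact hnd.1.2.1 h1
          · exact hnd.1.2.2 h1
        have hx' : x ∈ (y :: M') ++ w :: pre := by
          rw [List.cons_append, List.mem_cons] at hxZ
          rcases hxZ with h | h
          · exact absurd h.symm hzx
          · exact h
        obtain ⟨a, b, hab⟩ := List.append_of_mem hx'
        have hZe : z :: (y :: M') ++ w :: pre = z :: a ++ x :: b := by
          rw [List.cons_append, hab, List.cons_append]
        refine ⟨z, x, a, b, c :: e', by rw [← hZe]; exact hz, by rw [← hZe], ?_, ?_, by simp⟩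
        · refine hp.of_prefix ⟨rest, ?_⟩
          simp only [List.cons_append, List.append_assoc, List.singleton_append, List.nil_append]
          rw [he]
        · rw [← hZe]
          intro v hv
          rw [List.mem_cons] at hv
          rcases hv with rfl | hv
          · exact hcZ
          · exact hall v hv

/-- an odd cycle of length at least `2k + 1` has no ear with this parity -/
theorem PK.no_ear_odd (h : PK G k) (hk : 3 ≤ k) {c d : V} {a b e : List V} (hz : IsCyc G (c :: a ++ d :: b))
    (hzl : 2 * k + 1 ≤ (c :: a ++ d :: b).length) (he : IsP G (c :: e ++ [d]))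
    (hdis : ∀ x ∈ e, x ∉ (c :: a ++ d :: b)) (hne : e = [] → a ≠ []) {r : ℕ}
    (hpar : a.length + e.length + 2 = 2 * r) : False := by
  have hpos : 1 ≤ a.length + e.length := by
    rcases e with _ | ⟨x, e⟩
    · have := List.length_pos_iff.2 (hne rfl)
      omega
    · simp
      omega
  have hcyc := hz.ear_cycle he hdis hpos
  have hlen : (c :: (a ++ d :: e.reverse)).length = 2 * r := by simp; omega
  have hrk := h.even_lt hk hcyc hlen
  have hzp : IsP G (c :: a ++ d :: b) := hz.isP
  have hnd := hzp.1
  refine h.tail_at hcyc hlen hrk.le (p := d) (t := b) (by simp) hzp.right ?_ ?_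
  · intro x hx hx'
    rw [List.nodup_append'] at hnd
    rw [List.mem_cons, List.mem_append, List.mem_cons, List.mem_reverse] at hx'
    rcases hx' with hx' | hx' | hx' | hx'
    · exact ldj hnd.2.2 (a := x) (by simp [hx']) (by simp [hx])
    · exact ldj hnd.2.2 (a := x) (by simp [hx']) (by simp [hx])
    · subst hx'
      have := hnd.2.1
      simp at this
      exact this.1 hx
    · exact hdis x hx' (by simp [hx])
  · simp at hzl
    omega

/-- every cycle of a `P(k)`-graph has length at most `2k - 1` -/
theorem PK.circ (h : PK G k) (hk : 3 ≤ k) : Circ G k := by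
  intro Z hz
  rcases Nat.even_or_odd Z.length with ⟨r, hr⟩ | ⟨r, hr⟩
  · have := h.even_lt hk hz (r := r) (by omega)
    omega
  · by_contra hcon
    push Not at hcon
    obtain ⟨z0, z1, Z', rfl⟩ : ∃ z0 z1 Z', Z = z0 :: z1 :: Z' := by
      rcases Z with _ | ⟨a, _ | ⟨b, Z'⟩⟩
      · simp at hr
      · simp at hcon
        omega
      · exact ⟨a, b, Z', rfl⟩
    have h01 : z0 ≠ z1 := by
      have := hz.isP.1
      simp at this
      tauto
    obtain ⟨l, hl, hll, hlh, hlt⟩ := h.exists h01.symm
    obtain ⟨m, rfl⟩ : ∃ m, l = z1 :: m ++ [z0] := by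
      obtain ⟨l', rfl⟩ : ∃ l', l = z1 :: l' := by
        cases l with
        | nil => simp at hll
        | cons a l' => simp at hlh; exact ⟨l', by rw [hlh]⟩
      have hl' : l' ≠ [] := by
        rintro rfl
        simp at hll
        omega
      refine ⟨l'.dropLast, ?_⟩
      have h1 : l'.getLast? = some z0 := by
        rw [show z1 :: l' = [z1] ++ l' by simp, List.getLast?_append_of_ne_nil _ hl'] at hlt
        exact hlt
      have h2 := List.dropLast_append_getLast hl'
      rw [List.getLast?_eq_some_getLast hl'] at h1
      have h3 : l'.getLast hl' = z0 := by simpa using h1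
      rw [h3] at h2
      rw [List.cons_append, h2]
    have hcy : IsCyc G (z1 :: Z' ++ z0 :: []) := by
      have h0 : IsCyc G ([z0] ++ (z1 :: Z')) := by simpa using hz
      simpa using h0.rot
    obtain ⟨c, d, a, b, e, h1, h2, h3, h4, h5⟩ := ear_of_path m Z' [] z1 z0 hcy hl (by
      simp at hll hcon
      omega) (by simp) (by
      rintro rfl
      simp at hll
      omega)
    have hlen : (c :: a ++ d :: b).length = (z0 :: z1 :: Z').length := by rw [h2]; simp
    rcases Nat.even_or_odd (a.length + e.length) with ⟨q, hq⟩ | ⟨q, hq⟩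
    · exact h.no_ear_odd hk h1 (by omega) h3 h4 (fun h6 => (h5 h6).1) (r := q + 1) (by omega)
    · refine h.no_ear_odd hk (a := b.reverse) (b := a.reverse) (e := e) h1.flip ?_ h3 ?_ ?_ (r := (b.length + e.length + 2) / 2) ?_
      · rw [IsCyc.length_flip (b := b) (a := a)]
        omega
      · intro x hx
        rw [IsCyc.mem_flip]
        exact h4 x hx
      · intro h6
        have := (h5 h6).2
        simpa using this
      · simp at hlen hr ⊢
        omega

end Pool.Agent.Work.KZ
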