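import Pool.Agent.Work.MP_f0e709_co.LL

/-! Circumference, part 1 (helper14, after helper16): a shortest even cycle `Z` among the even cycles longer than
`2k`; all its ears of length at most `k` are of odd type, two far ears of total length at most `k` do not
exist (disjoint case). -/

set_option autoImplicit false

namespace Pool.Agent.Work.KZ

variable {V : Type*} {G : SimpleGraph V} {k : ℕ}

theorem ldj {α : Type*} {l m : List α} (h : l.Disjoint m) {a : α} (h1 : a ∈ l) (h2 : a ∈ m) : False := h h1 h2

/-- two internally disjoint paths with the same ends form a cycle -/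
theorem two_paths_cyc {c d : V} {a e : List V} (ha : IsP G (c :: a ++ [d])) (he : IsP G (c :: e ++ [d]))
    (hdis : ∀ x ∈ e, x ∉ a) (hl : 1 ≤ a.length + e.length) : IsCyc G (c :: (a ++ d :: e.reverse)) := by
  by_cases hne : e = []
  · subst hne
    refine ⟨by simpa using ha, ?_, ?_⟩
    · intro x hx y hy
      have hx1 : x = d := by
        rw [show c :: (a ++ d :: [].reverse) = (c :: a) ++ [d] by simp,
          List.getLast?_append_of_ne_nil _ (by simp)] at hx
        simpa using hx.symm
      have hy1 : y = c := by simpa using hy.symm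
      subst hx1; subst hy1
      exact ((isP_append.1 he).2.2.2 y (by simp) x (by simp)).symm
    · simp at hl ⊢
      omega
  · have hnd := he.1
    have hce : c ∉ e := by
      intro h'
      simp [h'] at hnd
    have hde : d ∉ e := by
      intro h'
      rw [List.nodup_append'] at hnd
      exact ldj hnd.2.2 (a := d) (by simp [h']) (by simp)
    have h0 : IsCyc G ((c :: a ++ [d]) ++ e.reverse) := by
      have hern : e.reverse ≠ [] := by simpa using hne
      rw [isCyc_append (by simp) hern]
      refine ⟨ha, ?_, ?_, ?_, ?_, ?_⟩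
      · exact (he.of_infix ⟨[c], [d], by simp⟩ : IsP G e).reverse
      · intro x hx hx'
        have hxe : x ∈ e := by simpa using hx'
        simp only [List.mem_append, List.mem_cons, List.not_mem_nil, or_false] at hx
        rcases hx with (h1 | h1) | h1
        · subst h1; exact hce hxe
        · exact hdis x hxe h1
        · subst h1; exact hde hxe
      · intro x hx y hy
        have hx1 : x = d := by
          rw [List.getLast?_append_of_ne_nil _ (by simp)] at hx
          simpa using hx.symm
        subst hx1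
        rw [List.head?_reverse] at hy
        have := (isP_append.1 he).2.2.2 y (by
          rw [show c :: e = [c] ++ e by rfl, List.getLast?_append_of_ne_nil _ hne]; exact hy) x (by simp)
        exact this.symm
      · intro x hx y hy
        rw [List.getLast?_reverse] at hx
        have hy1 : y = c := by simpa using hy.symm
        subst hy1
        have h1 : IsP G (y :: (e ++ [d])) := by simpa using he
        rw [isP_cons] at h1
        exact (h1.2.2 x (by rw [List.head?_append_of_ne_nil _ hne]; exact hx)).symm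
      · simp
        have := List.length_pos_iff.2 hne
        omega
    simpa using h0

/-- the tail rule at a vertex of an even cycle -/
theorem PK.tail_at (h : PK G k) {Y : List V} {r : ℕ} (hY : IsCyc G Y) (hYl : Y.length = 2 * r) (hrk : r ≤ k)
    {p : V} {t : List V} (hp : p ∈ Y) (ht : IsP G (p :: t)) (hd : ∀ x ∈ t, x ∉ Y)
    (hl : k ≤ r + t.length) : False := by
  obtain ⟨Y', hY', hperm⟩ := hY.rot_to hp
  have h3 := hY.2.2
  refine h.even_rule (r := r) (by omega) hrk (t := t.take (k - r)) hY' (by rw [hperm.length_eq, hYl]) ?_ ?_ ?_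
  · have := ht.take (k - r + 1)
    simpa using this
  · intro x hx hx'
    exact hd x (List.mem_of_mem_take hx) (hperm.mem_iff.1 (by simp [hx']))
  · rw [List.length_take]; omega

/-- two tails of an even cycle -/
theorem PK.two_tails (h : PK G k) {Y : List V} {r : ℕ} (hY : IsCyc G Y) (hYl : Y.length = 2 * r) (hrk : r ≤ k)
    {p p' : V} {t t' : List V} (hp : p ∈ Y) (ht : IsP G (p :: t)) (hd : ∀ x ∈ t, x ∉ Y)
    (hp' : p' ∈ Y) (ht' : IsP G (p' :: t')) (hd' : ∀ x ∈ t', x ∉ Y)
    (hl : 2 * k ≤ 2 * r + t.length + t'.length + 1) : False := by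
  rcases Nat.lt_or_ge (r + t.length) k with h1 | h1
  · rcases Nat.lt_or_ge (r + t'.length) k with h2 | h2
    · omega
    · exact h.tail_at hY hYl hrk hp' ht' hd' h2
  · exact h.tail_at hY hYl hrk hp ht hd h1

/-- `l` is the least half length of an even cycle longer than `2k` -/
structure LM (G : SimpleGraph V) (k l : ℕ) : Prop where
  lt : k < l
  min : ∀ (Y : List V) (r : ℕ), IsCyc G Y → Y.length = 2 * r → r < k ∨ l ≤ r

/-- ears of length at most `k` are of odd type -/
theorem PK.odd_side (h : PK G k) {l : ℕ} (hL : LM G k l) {c d : V} {a b e : List V}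
    (hz : IsCyc G (c :: a ++ d :: b)) (hzl : (c :: a ++ d :: b).length = 2 * l)
    (he : IsP G (c :: e ++ [d])) (hdis : ∀ x ∈ e, x ∉ (c :: a ++ d :: b)) (hq : e.length + 1 ≤ k)
    (hne : e = [] → a ≠ [] ∧ b ≠ []) : (e.length + a.length) % 2 = 1 := by
  by_contra hcon
  have hlt := hL.lt
  simp at hzl
  obtain ⟨r, hr⟩ : ∃ r, a.length + e.length + 2 = 2 * r := ⟨(a.length + e.length + 2) / 2, by omega⟩
  obtain ⟨r', hr'⟩ : ∃ r', b.length + e.length + 2 = 2 * r' := ⟨(b.length + e.length + 2) / 2, by omega⟩
  have ha : 1 ≤ a.length + e.length := by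
    by_cases h0 : e = []
    · have := List.length_pos_iff.2 (hne h0).1; omega
    · have := List.length_pos_iff.2 h0; omega
  have hb : 1 ≤ b.length + e.length := by
    by_cases h0 : e = []
    · have := List.length_pos_iff.2 (hne h0).2; omega
    · have := List.length_pos_iff.2 h0; omega
  have hA : IsCyc G (c :: (a ++ d :: e.reverse)) := hz.ear_cycle he hdis ha
  have hB : IsCyc G (c :: (b.reverse ++ d :: e.reverse)) := by
    refine hz.flip.ear_cycle he ?_ (by simpa using hb)
    intro x hx hx'
    exact hdis x hx (IsCyc.mem_flip.1 hx')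
  have hnd := hz.isP.1
  rcases le_total a.length b.length with hab | hab
  · -- `Y = a + e`, tail `b`
    rcases hL.min _ r hA (by simp; omega) with h1 | h1
    · have hp : IsP G (d :: b) := hz.isP.of_suffix ⟨c :: a, by simp⟩
      refine h.tail_at hA (by simp; omega) h1.le (p := d) (t := b) (by simp) hp ?_ (by omega)
      intro x hx hx'
      simp only [List.mem_cons, List.mem_append, List.mem_reverse] at hx'
      rw [List.nodup_append'] at hnd
      rcases hx' with h2 | h2 | h2 | h2
      · subst h2; exact ldj hnd.2.2 (a := x) (by simp) (by simp [hx])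
      · exact ldj hnd.2.2 (a := x) (by simp [h2]) (by simp [hx])
      · subst h2
        exact (List.nodup_cons.1 hnd.2.1).1 hx
      · exact hdis x h2 (by simp [hx])
    · omega
  · rcases hL.min _ r' hB (by simp; omega) with h1 | h1
    · have hp : IsP G (d :: a.reverse) := by
        have h2 : IsP G (a ++ [d]) := hz.isP.of_infix ⟨[c], b, by simp⟩
        have := h2.reverse
        simpa using this
      refine h.tail_at hB (by simp; omega) h1.le (p := d) (t := a.reverse) (by simp) hp ?_ (by simp; omega)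
      intro x hx hx'
      rw [List.mem_reverse] at hx
      simp only [List.mem_cons, List.mem_append, List.mem_reverse] at hx'
      rw [List.nodup_append'] at hnd
      rcases hx' with h2 | h2 | h2 | h2
      · subst h2
        exact (List.nodup_cons.1 hnd.1).1 hx
      · exact ldj hnd.2.2 (a := x) (by simp [hx]) (by simp [h2])
      · subst h2
        exact ldj hnd.2.2 (a := x) (by simp [hx]) (by simp)
      · exact hdis x h2 (by simp [hx])
    · omega

/-- two far ears with one common foot `y1` -/
theorem PK.nc3 (h : PK G k) {l : ℕ} (hL : LM G k l) {x1 y1 y2 : V} {m1 m3 m4 e1 e2 : List V}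
    (hz : IsCyc G (x1 :: m1 ++ y1 :: m3 ++ y2 :: m4)) (hzl : (x1 :: m1 ++ y1 :: m3 ++ y2 :: m4).length = 2 * l)
    (he1 : IsP G (x1 :: e1 ++ [y1])) (he2 : IsP G (y1 :: e2 ++ [y2]))
    (hd1 : ∀ x ∈ e1, x ∉ (x1 :: m1 ++ y1 :: m3 ++ y2 :: m4))
    (hd2 : ∀ x ∈ e2, x ∉ (x1 :: m1 ++ y1 :: m3 ++ y2 :: m4)) (hd : ∀ x ∈ e1, x ∉ e2)
    (hf1 : e1.length < m1.length) (hf2 : e2.length < m3.length) (hq : e1.length + e2.length + 2 ≤ k) : False := by
  have hlt := hL.lt
  have hzl' := hzl
  simp at hzl'
  have hnd := hz.isP.1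
  -- parities
  have o1 : (e1.length + m1.length) % 2 = 1 := by
    refine h.odd_side hL (c := x1) (d := y1) (a := m1) (b := m3 ++ y2 :: m4) (e := e1) (by simpa using hz)
      (by simpa using hzl) he1 (by simpa using hd1) (by omega) ?_
    intro h0
    constructor
    · intro h1; rw [h1] at hf1; simp at hf1
    · simp
  have hz2 : IsCyc G (y1 :: m3 ++ y2 :: (m4 ++ x1 :: m1)) := by
    have : IsCyc G ((x1 :: m1) ++ (y1 :: m3 ++ y2 :: m4)) := by simpa using hz
    have := this.rot
    simpa using this
  have hmem2 : ∀ x, x ∈ (y1 :: m3 ++ y2 :: (m4 ++ x1 :: m1)) ↔ x ∈ (x1 :: m1 ++ y1 :: m3 ++ y2 :: m4) := by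
    intro x; simp; tauto
  have o2 : (e2.length + m3.length) % 2 = 1 := by
    refine h.odd_side hL (c := y1) (d := y2) (a := m3) (b := m4 ++ x1 :: m1) (e := e2) hz2
      (by simp; omega) he2 (fun x hx hx' => hd2 x hx ((hmem2 x).1 hx')) (by omega) ?_
    intro h0
    constructor
    · intro h1; rw [h1] at hf2; simp at hf2
    · simp
  -- the cycle `Y`
  have hP : IsP G (y2 :: (m4 ++ x1 :: e1) ++ [y1]) := by
    have h1 : IsP G ((y2 :: m4) ++ [x1]) := hz2.isP.of_infix ⟨y1 :: m3, m1, by simp⟩
    have h2 : IsP G (x1 :: (e1 ++ [y1])) := by simpa using he1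
    have := h1.glue h2 (by
      intro x hx hx'
      rcases List.mem_append.1 hx with h3 | h3
      · exact hd1 x h3 (by simp at hx' ⊢; tauto)
      · have : x = y1 := by simpa using h3
        subst this
        have h4 := hnd
        rw [show x1 :: m1 ++ x :: m3 ++ y2 :: m4 = (x1 :: m1 ++ x :: m3) ++ (y2 :: m4) by simp,
          List.nodup_append'] at h4
        exact ldj h4.2.2 (a := x) (by simp) hx')
    simpa using this
  have hQ : IsP G (y2 :: e2.reverse ++ [y1]) := by
    have := he2.reverse
    simpa using this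
  have hY : IsCyc G (y2 :: ((m4 ++ x1 :: e1) ++ y1 :: e2.reverse.reverse)) := by
    refine two_paths_cyc hP hQ ?_ (by simp; omega)
    intro x hx hx'
    rw [List.mem_reverse] at hx
    simp only [List.mem_append, List.mem_cons] at hx'
    rcases hx' with h3 | h3 | h3
    · exact hd2 x hx (by simp [h3])
    · exact hd2 x hx (by simp [h3])
    · exact hd x h3 hx
  obtain ⟨r, hr⟩ : ∃ r, m4.length + e1.length + e2.length + 3 = 2 * r :=
    ⟨(m4.length + e1.length + e2.length + 3) / 2, by omega⟩
  rcases hL.min _ r hY (by simp; omega) with h1 | h1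
  · refine h.two_tails hY (by simp; omega) h1.le (p := x1) (t := m1) (p' := y1) (t' := m3) (by simp) ?_ ?_
      (by simp) ?_ ?_ (by omega)
    · exact hz.isP.of_prefix ⟨y1 :: m3 ++ y2 :: m4, by simp⟩
    · intro x hx hx'
      simp only [List.reverse_reverse, List.mem_append, List.mem_cons] at hx'
      have h4 := hnd
      rw [show x1 :: m1 ++ y1 :: m3 ++ y2 :: m4 = [x1] ++ (m1 ++ (y1 :: m3 ++ y2 :: m4)) by simp,
        List.nodup_append'] at h4
      have h5 := List.nodup_append'.1 h4.2.1
      rcases hx' with h3 | (h3 | h3 | h3) | h3 | h3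
      · exact h5.2.2 hx (by simp [h3])
      · exact h5.2.2 hx (by simp [h3])
      · exact ldj h4.2.2 (a := x) (by simp [h3]) (by simp [hx])
      · exact hd1 x h3 (by simp [hx])
      · exact h5.2.2 hx (by simp [h3])
      · exact hd2 x h3 (by simp [hx])
    · exact hz2.isP.of_prefix ⟨y2 :: (m4 ++ x1 :: m1), by simp⟩
    · intro x hx hx'
      simp only [List.reverse_reverse, List.mem_append, List.mem_cons] at hx'
      have h4 := hnd
      rw [show x1 :: m1 ++ y1 :: m3 ++ y2 :: m4 = (x1 :: m1 ++ [y1]) ++ (m3 ++ (y2 :: m4)) by simp,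
        List.nodup_append'] at h4
      have h5 := List.nodup_append'.1 h4.2.1
      rcases hx' with h3 | (h3 | h3 | h3) | h3 | h3
      · exact h5.2.2 hx (by simp [h3])
      · exact h5.2.2 hx (by simp [h3])
      · exact ldj h4.2.2 (a := x) (by simp [h3]) (by simp [hx])
      · exact hd1 x h3 (by simp [hx])
      · exact ldj h4.2.2 (a := x) (by simp [h3]) (by simp [hx])
      · exact hd2 x h3 (by simp [hx])
  · omega

/-- two far ears, not crossing, four feet -/
theorem PK.nc4 (h : PK G k) {l : ℕ} (hL : LM G k l) {x1 y1 x2 y2 : V} {m1 m2 m3 m4 e1 e2 : List V}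
    (hz : IsCyc G (x1 :: m1 ++ y1 :: m2 ++ x2 :: m3 ++ y2 :: m4))
    (hzl : (x1 :: m1 ++ y1 :: m2 ++ x2 :: m3 ++ y2 :: m4).length = 2 * l)
    (he1 : IsP G (x1 :: e1 ++ [y1])) (he2 : IsP G (x2 :: e2 ++ [y2]))
    (hd1 : ∀ x ∈ e1, x ∉ (x1 :: m1 ++ y1 :: m2 ++ x2 :: m3 ++ y2 :: m4))
    (hd2 : ∀ x ∈ e2, x ∉ (x1 :: m1 ++ y1 :: m2 ++ x2 :: m3 ++ y2 :: m4)) (hd : ∀ x ∈ e1, x ∉ e2)
    (hf1 : e1.length < m1.length) (hf2 : e2.length < m3.length) (hq : e1.length + e2.length + 2 ≤ k) : False := by
  have hlt := hL.lt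
  have hzl' := hzl
  simp at hzl'
  have hnd := hz.isP.1
  have o1 : (e1.length + m1.length) % 2 = 1 := by
    refine h.odd_side hL (c := x1) (d := y1) (a := m1) (b := m2 ++ x2 :: m3 ++ y2 :: m4) (e := e1)
      (by simpa using hz) (by simpa using hzl) he1 (by simpa using hd1) (by omega) ?_
    intro h0
    constructor
    · intro h1; rw [h1] at hf1; simp at hf1
    · simp
  have hz2 : IsCyc G (x2 :: m3 ++ y2 :: (m4 ++ x1 :: m1 ++ y1 :: m2)) := by
    have : IsCyc G ((x1 :: m1 ++ y1 :: m2) ++ (x2 :: m3 ++ y2 :: m4)) := by simpa using hz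
    have := this.rot
    simpa using this
  have hmem2 : ∀ x, x ∈ (x2 :: m3 ++ y2 :: (m4 ++ x1 :: m1 ++ y1 :: m2)) ↔
      x ∈ (x1 :: m1 ++ y1 :: m2 ++ x2 :: m3 ++ y2 :: m4) := by
    intro x; simp; tauto
  have o2 : (e2.length + m3.length) % 2 = 1 := by
    refine h.odd_side hL (c := x2) (d := y2) (a := m3) (b := m4 ++ x1 :: m1 ++ y1 :: m2) (e := e2) hz2
      (by simp; omega) he2 (fun x hx hx' => hd2 x hx ((hmem2 x).1 hx')) (by omega) ?_
    intro h0
    constructor
    · intro h1; rw [h1] at hf2; simp at hf2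
    · simp
  have hP : IsP G (y2 :: (m4 ++ x1 :: (e1 ++ y1 :: m2)) ++ [x2]) := by
    have h1 : IsP G ((y2 :: m4) ++ [x1]) := hz2.isP.of_infix ⟨x2 :: m3, m1 ++ y1 :: m2, by simp⟩
    have h2 : IsP G (x1 :: e1 ++ [y1]) := by simpa using he1
    have h3 : IsP G (y1 :: (m2 ++ [x2])) := hz.isP.of_infix ⟨x1 :: m1, m3 ++ y2 :: m4, by simp⟩
    have h4 := h2.glue h3 (by
      intro x hx hx'
      rw [List.mem_cons] at hx'
      rcases hx' with h5 | h5
      · subst h5
        have h6 := hnd
        rw [show x :: m1 ++ y1 :: m2 ++ x2 :: m3 ++ y2 :: m4 = [x] ++ (m1 ++ y1 :: (m2 ++ x2 :: m3) ++ y2 :: m4)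
          by simp, List.nodup_append'] at h6
        refine ldj h6.2.2 (a := x) (by simp) ?_
        simp at hx ⊢
        tauto
      · exact hd1 x h5 (by simp at hx ⊢; tauto))
    have h4' : IsP G (x1 :: (e1 ++ y1 :: (m2 ++ [x2]))) := by simpa using h4
    have := h1.glue h4' (by
      intro x hx hx'
      simp only [List.mem_append, List.mem_cons, List.not_mem_nil, or_false] at hx
      rcases hx with h5 | h5 | h5 | h5
      · exact hd1 x h5 (by simp at hx' ⊢; tauto)
      all_goals
        have h6 := hnd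
        rw [show x1 :: m1 ++ y1 :: m2 ++ x2 :: m3 ++ y2 :: m4 = (x1 :: m1 ++ y1 :: m2 ++ x2 :: m3) ++ (y2 :: m4)
          by simp, List.nodup_append'] at h6
        exact ldj h6.2.2 (a := x) (by simp [h5]) hx')
    simpa using this
  have hQ : IsP G (y2 :: e2.reverse ++ [x2]) := by
    have := he2.reverse
    simpa using this
  have hY : IsCyc G (y2 :: ((m4 ++ x1 :: (e1 ++ y1 :: m2)) ++ x2 :: e2.reverse.reverse)) := by
    refine two_paths_cyc hP hQ ?_ (by simp; omega)
    intro x hx hx'
    rw [List.mem_reverse] at hx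
    simp only [List.mem_append, List.mem_cons] at hx'
    rcases hx' with h3 | h3 | h3 | h3 | h3
    · exact hd2 x hx (by simp [h3])
    · exact hd2 x hx (by simp [h3])
    · exact hd x h3 hx
    · exact hd2 x hx (by simp [h3])
    · exact hd2 x hx (by simp [h3])
  obtain ⟨r, hr⟩ : ∃ r, m4.length + e1.length + m2.length + e2.length + 4 = 2 * r :=
    ⟨(m4.length + e1.length + m2.length + e2.length + 4) / 2, by omega⟩
  rcases hL.min _ r hY (by simp; omega) with h1 | h1
  · refine h.two_tails hY (by simp; omega) h1.le (p := x1) (t := m1) (p' := x2) (t' := m3) (by simp) ?_ ?_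
      (by simp) ?_ ?_ (by omega)
    · exact hz.isP.of_prefix ⟨y1 :: m2 ++ x2 :: m3 ++ y2 :: m4, by simp⟩
    · intro x hx hx'
      simp only [List.reverse_reverse, List.mem_append, List.mem_cons] at hx'
      have h4 := hnd
      rw [show x1 :: m1 ++ y1 :: m2 ++ x2 :: m3 ++ y2 :: m4 = [x1] ++ (m1 ++ (y1 :: m2 ++ x2 :: m3 ++ y2 :: m4))
        by simp, List.nodup_append'] at h4
      have h5 := List.nodup_append'.1 h4.2.1
      rcases hx' with h3 | (h3 | h3 | h3 | h3 | h3) | h3 | h3
      · exact h5.2.2 hx (by simp [h3])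
      · exact h5.2.2 hx (by simp [h3])
      · exact ldj h4.2.2 (a := x) (by simp [h3]) (by simp [hx])
      · exact hd1 x h3 (by simp [hx])
      · exact h5.2.2 hx (by simp [h3])
      · exact h5.2.2 hx (by simp [h3])
      · exact h5.2.2 hx (by simp [h3])
      · exact hd2 x h3 (by simp [hx])
    · exact hz2.isP.of_prefix ⟨y2 :: (m4 ++ x1 :: m1 ++ y1 :: m2), by simp⟩
    · intro x hx hx'
      simp only [List.reverse_reverse, List.mem_append, List.mem_cons] at hx'
      have h4 := hnd
      rw [show x1 :: m1 ++ y1 :: m2 ++ x2 :: m3 ++ y2 :: m4 = (x1 :: m1 ++ y1 :: m2 ++ [x2]) ++ (m3 ++ (y2 :: m4))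
        by simp, List.nodup_append'] at h4
      have h5 := List.nodup_append'.1 h4.2.1
      rcases hx' with h3 | (h3 | h3 | h3 | h3 | h3) | h3 | h3
      · exact h5.2.2 hx (by simp [h3])
      · exact h5.2.2 hx (by simp [h3])
      · exact ldj h4.2.2 (a := x) (by simp [h3]) (by simp [hx])
      · exact hd1 x h3 (by simp [hx])
      · exact ldj h4.2.2 (a := x) (by simp [h3]) (by simp [hx])
      · exact ldj h4.2.2 (a := x) (by simp [h3]) (by simp [hx])
      · exact ldj h4.2.2 (a := x) (by simp [h3]) (by simp [hx])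
      · exact hd2 x h3 (by simp [hx])
  · omega

end Pool.Agent.Work.KZ
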