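import Pool.Agent.Work.MP_f0e709_co.R1a

/-! Circumference, part 2 (helper14, after helper16): two far ears of total length at most `k` coincide. -/

set_option autoImplicit false

namespace Pool.Agent.Work.KZ

variable {V : Type*} {G : SimpleGraph V} {k : ℕ}

/-- two crossing ears, first half -/
theorem PK.cr_half (h : PK G k) {l : ℕ} (hL : LM G k l) {x1 y1 x2 y2 : V} {m1 m2 m3 m4 e1 e2 : List V}
    (hz : IsCyc G (x1 :: m1 ++ x2 :: m2 ++ y1 :: m3 ++ y2 :: m4))
    (hzl : (x1 :: m1 ++ x2 :: m2 ++ y1 :: m3 ++ y2 :: m4).length = 2 * l)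
    (he1 : IsP G (x1 :: e1 ++ [y1])) (he2 : IsP G (x2 :: e2 ++ [y2]))
    (hd1 : ∀ x ∈ e1, x ∉ (x1 :: m1 ++ x2 :: m2 ++ y1 :: m3 ++ y2 :: m4))
    (hd2 : ∀ x ∈ e2, x ∉ (x1 :: m1 ++ x2 :: m2 ++ y1 :: m3 ++ y2 :: m4)) (hd : ∀ x ∈ e1, x ∉ e2)
    (hq : e1.length + e2.length + 2 ≤ k) (hlt : e1.length + e2.length + m1.length + m3.length + 4 < 2 * l) :
    False := by
  have hkl := hL.lt
  have hzl' := hzl
  simp at hzl'
  have hnd := hz.isP.1
  have o1 : (e1.length + (m1 ++ x2 :: m2).length) % 2 = 1 := by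
    refine h.odd_side hL (c := x1) (d := y1) (a := m1 ++ x2 :: m2) (b := m3 ++ y2 :: m4) (e := e1)
      (by simpa using hz) (by simpa using hzl) he1 (by simpa using hd1) (by omega) ?_
    intro h0
    constructor <;> simp
  have hz2 : IsCyc G (x2 :: (m2 ++ y1 :: m3) ++ y2 :: (m4 ++ x1 :: m1)) := by
    have : IsCyc G ((x1 :: m1) ++ (x2 :: (m2 ++ y1 :: m3) ++ y2 :: m4)) := by simpa using hz
    have := this.rot
    simpa using this
  have hmem2 : ∀ x, x ∈ (x2 :: (m2 ++ y1 :: m3) ++ y2 :: (m4 ++ x1 :: m1)) ↔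
      x ∈ (x1 :: m1 ++ x2 :: m2 ++ y1 :: m3 ++ y2 :: m4) := by
    intro x; simp; tauto
  have o2 : (e2.length + (m2 ++ y1 :: m3).length) % 2 = 1 := by
    refine h.odd_side hL (c := x2) (d := y2) (a := m2 ++ y1 :: m3) (b := m4 ++ x1 :: m1) (e := e2) hz2
      (by simp; omega) he2 (fun x hx hx' => hd2 x hx ((hmem2 x).1 hx')) (by omega) ?_
    intro h0
    constructor <;> simp
  simp at o1 o2
  -- the cycle
  have hP : IsP G (x2 :: (m1.reverse ++ x1 :: (e1 ++ y1 :: m3)) ++ [y2]) := by
    have h1 : IsP G ((x2 :: m1.reverse) ++ [x1]) := by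
      have h0 : IsP G (x1 :: m1 ++ [x2]) := hz.isP.of_prefix ⟨m2 ++ y1 :: m3 ++ y2 :: m4, by simp⟩
      have := h0.reverse
      simpa using this
    have h2 : IsP G (x1 :: e1 ++ [y1]) := by simpa using he1
    have h3 : IsP G (y1 :: (m3 ++ [y2])) := hz.isP.of_infix ⟨x1 :: m1 ++ x2 :: m2, m4, by simp⟩
    have h4 := h2.glue h3 (by
      intro x hx hx'
      rw [List.mem_cons] at hx'
      rcases hx' with h5 | h5
      · subst h5
        have h6 := hnd
        rw [show x :: m1 ++ x2 :: m2 ++ y1 :: m3 ++ y2 :: m4 = [x] ++ (m1 ++ x2 :: m2 ++ y1 :: m3 ++ y2 :: m4)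
          by simp, List.nodup_append'] at h6
        refine ldj h6.2.2 (a := x) (by simp) ?_
        simp at hx ⊢
        tauto
      · exact hd1 x h5 (by simp at hx ⊢; tauto))
    have h4' : IsP G (x1 :: (e1 ++ y1 :: (m3 ++ [y2]))) := by simpa using h4
    have := h1.glue h4' (by
      intro x hx hx'
      have hx2 : x ∈ x1 :: m1 ++ [x2] := by
        simp at hx' ⊢
        tauto
      simp only [List.mem_append, List.mem_cons, List.not_mem_nil, or_false] at hx
      have h6 := hnd
      rw [show x1 :: m1 ++ x2 :: m2 ++ y1 :: m3 ++ y2 :: m4 = (x1 :: m1 ++ [x2]) ++ (m2 ++ y1 :: m3 ++ y2 :: m4)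
        by simp, List.nodup_append'] at h6
      rcases hx with h5 | h5 | h5 | h5
      · exact hd1 x h5 (by simp at hx2 ⊢; tauto)
      · exact ldj h6.2.2 (a := x) hx2 (by simp [h5])
      · exact ldj h6.2.2 (a := x) hx2 (by simp [h5])
      · exact ldj h6.2.2 (a := x) hx2 (by simp [h5]))
    simpa using this
  have hY : IsCyc G (x2 :: ((m1.reverse ++ x1 :: (e1 ++ y1 :: m3)) ++ y2 :: e2.reverse)) := by
    refine two_paths_cyc hP he2 ?_ (by simp; omega)
    intro x hx hx'
    simp only [List.mem_append, List.mem_cons, List.mem_reverse] at hx'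
    rcases hx' with h3 | h3 | h3 | h3 | h3
    · exact hd2 x hx (by simp [h3])
    · exact hd2 x hx (by simp [h3])
    · exact hd x h3 hx
    · exact hd2 x hx (by simp [h3])
    · exact hd2 x hx (by simp [h3])
  obtain ⟨r, hr⟩ : ∃ r, e1.length + e2.length + m1.length + m3.length + 4 = 2 * r :=
    ⟨(e1.length + e2.length + m1.length + m3.length + 4) / 2, by omega⟩
  rcases hL.min _ r hY (by simp; omega) with h1 | h1
  · refine h.two_tails hY (by simp; omega) h1.le (p := x2) (t := m2) (p' := y2) (t' := m4) (by simp) ?_ ?_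
      (by simp) ?_ ?_ (by omega)
    · exact hz2.isP.of_prefix ⟨y1 :: m3 ++ y2 :: (m4 ++ x1 :: m1), by simp⟩
    · intro x hx hx'
      simp only [List.mem_append, List.mem_cons, List.mem_reverse] at hx'
      have h4 := hnd
      rw [show x1 :: m1 ++ x2 :: m2 ++ y1 :: m3 ++ y2 :: m4 = (x1 :: m1 ++ [x2]) ++ (m2 ++ (y1 :: m3 ++ y2 :: m4))
        by simp, List.nodup_append'] at h4
      have h5 := List.nodup_append'.1 h4.2.1
      rcases hx' with h3 | (h3 | h3 | h3 | h3 | h3) | h3 | h3
      · exact ldj h4.2.2 (a := x) (by simp [h3]) (by simp [hx])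
      · exact ldj h4.2.2 (a := x) (by simp [h3]) (by simp [hx])
      · exact ldj h4.2.2 (a := x) (by simp [h3]) (by simp [hx])
      · exact hd1 x h3 (by simp [hx])
      · exact h5.2.2 hx (by simp [h3])
      · exact h5.2.2 hx (by simp [h3])
      · exact h5.2.2 hx (by simp [h3])
      · exact hd2 x h3 (by simp [hx])
    · exact hz.isP.of_suffix ⟨x1 :: m1 ++ x2 :: m2 ++ y1 :: m3, by simp⟩
    · intro x hx hx'
      simp only [List.mem_append, List.mem_cons, List.mem_reverse] at hx'
      have h4 := hnd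
      rw [show x1 :: m1 ++ x2 :: m2 ++ y1 :: m3 ++ y2 :: m4 = (x1 :: m1 ++ x2 :: m2 ++ y1 :: m3 ++ [y2]) ++ m4
        by simp, List.nodup_append'] at h4
      rcases hx' with h3 | (h3 | h3 | h3 | h3 | h3) | h3 | h3
      · exact ldj h4.2.2 (a := x) (by simp [h3]) hx
      · exact ldj h4.2.2 (a := x) (by simp [h3]) hx
      · exact ldj h4.2.2 (a := x) (by simp [h3]) hx
      · exact hd1 x h3 (by simp [hx])
      · exact ldj h4.2.2 (a := x) (by simp [h3]) hx
      · exact ldj h4.2.2 (a := x) (by simp [h3]) hx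
      · exact ldj h4.2.2 (a := x) (by simp [h3]) hx
      · exact hd2 x h3 (by simp [hx])
  · omega

/-- two crossing ears -/
theorem PK.cr (h : PK G k) {l : ℕ} (hL : LM G k l) {x1 y1 x2 y2 : V} {m1 m2 m3 m4 e1 e2 : List V}
    (hz : IsCyc G (x1 :: m1 ++ x2 :: m2 ++ y1 :: m3 ++ y2 :: m4))
    (hzl : (x1 :: m1 ++ x2 :: m2 ++ y1 :: m3 ++ y2 :: m4).length = 2 * l)
    (he1 : IsP G (x1 :: e1 ++ [y1])) (he2 : IsP G (x2 :: e2 ++ [y2]))
    (hd1 : ∀ x ∈ e1, x ∉ (x1 :: m1 ++ x2 :: m2 ++ y1 :: m3 ++ y2 :: m4))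
    (hd2 : ∀ x ∈ e2, x ∉ (x1 :: m1 ++ x2 :: m2 ++ y1 :: m3 ++ y2 :: m4)) (hd : ∀ x ∈ e1, x ∉ e2)
    (hq : e1.length + e2.length + 2 ≤ k) : False := by
  have hkl := hL.lt
  have hzl' := hzl
  simp at hzl'
  rcases Nat.lt_or_ge (e1.length + e2.length + m1.length + m3.length + 4) (2 * l) with h1 | h1
  · exact h.cr_half hL hz hzl he1 he2 hd1 hd2 hd hq h1
  · have hz2 : IsCyc G (x2 :: m2 ++ y1 :: m3 ++ y2 :: m4 ++ x1 :: m1) := by
      have : IsCyc G ((x1 :: m1) ++ (x2 :: m2 ++ y1 :: m3 ++ y2 :: m4)) := by simpa using hz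
      have := this.rot
      simpa using this
    have hmem2 : ∀ x, x ∈ (x2 :: m2 ++ y1 :: m3 ++ y2 :: m4 ++ x1 :: m1) ↔
        x ∈ (x1 :: m1 ++ x2 :: m2 ++ y1 :: m3 ++ y2 :: m4) := by
      intro x; simp; tauto
    refine h.cr_half hL (e1 := e2) (e2 := e1.reverse) hz2 (by simp; omega) he2 ?_ ?_ ?_ ?_ (by simp; omega)
      (by simp; omega)
    · have := he1.reverse
      simpa using this
    · intro x hx hx'
      exact hd2 x hx ((hmem2 x).1 hx')
    · intro x hx hx'
      exact hd1 x (by simpa using hx) ((hmem2 x).1 hx')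
    · intro x hx hx'
      exact hd x (by simpa using hx') hx

/-- two ears with the same feet coincide -/
theorem PK.same_feet (h : PK G k) {l : ℕ} (hL : LM G k l) {c d : V} {a b e1 e2 : List V}
    (hz : IsCyc G (c :: a ++ d :: b)) (hzl : (c :: a ++ d :: b).length = 2 * l)
    (he1 : IsP G (c :: e1 ++ [d])) (he2 : IsP G (c :: e2 ++ [d]))
    (hd1 : ∀ x ∈ e1, x ∉ (c :: a ++ d :: b)) (hd2 : ∀ x ∈ e2, x ∉ (c :: a ++ d :: b))
    (hn1 : e1 = [] → a ≠ [] ∧ b ≠ []) (hn2 : e2 = [] → a ≠ [] ∧ b ≠ [])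
    (hq : e1.length + e2.length + 2 ≤ k) : e1 = e2 := by
  by_contra hne
  have hkl := hL.lt
  have hzl' := hzl
  simp at hzl'
  have hnd := hz.isP.1
  have o1 := h.odd_side hL hz hzl he1 hd1 (by omega) hn1
  have o2 := h.odd_side hL hz hzl he2 hd2 (by omega) hn2
  obtain ⟨s, u, v, hu, hv, huv⟩ := common_start (e1 ++ [d]) (e2 ++ [d])
  have hn1' : (e1 ++ [d]).Nodup := (isP_cons.1 (show IsP G (c :: (e1 ++ [d])) by simpa using he1)).2.1.1
  have hn2' : (e2 ++ [d]).Nodup := (isP_cons.1 (show IsP G (c :: (e2 ++ [d])) by simpa using he2)).2.1.1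
  have hun : u ≠ [] := by
    intro h0
    subst h0
    rw [List.append_nil] at hu
    rw [← hu] at hv
    by_cases hv0 : v = []
    · subst hv0
      rw [List.append_nil] at hv
      exact hne (List.append_cancel_right hv.symm)
    · rw [hv, List.nodup_append'] at hn2'
      have h1 : (e2 ++ [d]).getLast? = v.getLast? := by rw [hv, List.getLast?_append_of_ne_nil _ hv0]
      have h2 : d ∈ v := List.mem_of_getLast? (by rw [← h1]; simp)
      exact ldj hn2'.2.2 (a := d) (by simp) h2
  have hvn : v ≠ [] := by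
    intro h0
    subst h0
    rw [List.append_nil] at hv
    rw [← hv] at hu
    rw [hu, List.nodup_append'] at hn1'
    have h1 : (e1 ++ [d]).getLast? = u.getLast? := by rw [hu, List.getLast?_append_of_ne_nil _ hun]
    have h2 : d ∈ u := List.mem_of_getLast? (by rw [← h1]; simp)
    exact ldj hn1'.2.2 (a := d) (by simp) h2
  have hdiff : ∃ x u' y v', u = x :: u' ∧ v = y :: v' ∧ x ≠ y := by
    rcases huv with h1 | h1 | h1
    · exact absurd h1 hun
    · exact absurd h1 hvn
    · exact h1
  have hut : u.getLast? = some d := by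
    have : (e1 ++ [d]).getLast? = u.getLast? := by rw [hu, List.getLast?_append_of_ne_nil _ hun]
    rw [← this]; simp
  have hvt : v.getLast? = some d := by
    have : (e2 ++ [d]).getLast? = v.getLast? := by rw [hv, List.getLast?_append_of_ne_nil _ hvn]
    rw [← this]; simp
  have hdu : d ∈ u := List.mem_of_getLast? hut
  have hdv : d ∈ v := List.mem_of_getLast? hvt
  obtain ⟨g2, w, h2, hvg, hwu, hg2⟩ := exists_first (fun x => x ∈ u) v ⟨d, hdv, hdu⟩
  obtain ⟨g1, h1, hug⟩ := List.append_of_mem hwu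
  -- the base point
  obtain ⟨s', b0, hs'⟩ : ∃ s' b0, c :: s = s' ++ [b0] := by
    rcases List.eq_nil_or_concat (c :: s) with h0 | ⟨s', b0, h0⟩
    · simp at h0
    · exact ⟨s', b0, by rw [h0, List.concat_eq_append]⟩
  have hE1 : IsP G (s' ++ b0 :: (g1 ++ w :: h1)) := by
    have h3 : IsP G (c :: (e1 ++ [d])) := by simpa using he1
    rw [hu, hug, show c :: (s ++ (g1 ++ w :: h1)) = (c :: s) ++ (g1 ++ w :: h1) by simp, hs'] at h3
    simpa using h3
  have hE2 : IsP G (s' ++ b0 :: (g2 ++ w :: h2)) := by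
    have h3 : IsP G (c :: (e2 ++ [d])) := by simpa using he2
    rw [hv, hvg, show c :: (s ++ (g2 ++ w :: h2)) = (c :: s) ++ (g2 ++ w :: h2) by simp, hs'] at h3
    simpa using h3
  have hp1 : IsP G (b0 :: g1 ++ [w]) := hE1.of_infix ⟨s', h1, by simp⟩
  have hp2 : IsP G (b0 :: g2 ++ [w]) := hE2.of_infix ⟨s', h2, by simp⟩
  have hg12 : 1 ≤ g1.length + g2.length := by
    by_contra hcon
    have h3 : g1 = [] := List.length_eq_zero_iff.1 (by omega)
    have h4 : g2 = [] := List.length_eq_zero_iff.1 (by omega)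
    obtain ⟨x, u', y, v', hx, hy, hxy⟩ := hdiff
    subst h3; subst h4
    rw [hug] at hx
    rw [hvg] at hy
    simp at hx hy
    exact hxy (hx.1.symm.trans hy.1)
  have hO : IsCyc G (b0 :: (g1 ++ w :: g2.reverse)) := by
    refine two_paths_cyc hp1 hp2 ?_ hg12
    intro x hx hx'
    exact hg2 x hx (by rw [hug]; simp [hx'])
  -- the exchanged ear
  obtain ⟨t, ht⟩ : ∃ t, w :: h1 = t ++ [d] := by
    rcases List.eq_nil_or_concat (w :: h1) with h0 | ⟨t, d', h0⟩
    · simp at h0
    · rw [List.concat_eq_append] at h0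
      refine ⟨t, ?_⟩
      rw [hug, h0, List.getLast?_append_of_ne_nil _ (by simp), List.getLast?_append_of_ne_nil _ (by simp)] at hut
      have : d' = d := by simpa using hut
      rw [h0, this]
  have he1' : e1 = s ++ g1 ++ t := by
    have h3 : e1 ++ [d] = (s ++ g1 ++ t) ++ [d] := by rw [hu, hug, ht]; simp
    exact List.append_cancel_right h3
  have hlen2 : g2.length + s.length + 1 ≤ e2.length + 1 := by
    have := congrArg List.length hv
    rw [hvg] at this
    simp at this
    omega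
  have hlen1 : e1.length = s.length + g1.length + t.length := by rw [he1']; simp; omega
  have hE3 : IsP G (c :: (s ++ g2 ++ t) ++ [d]) := by
    have h3 : IsP G ((s' ++ b0 :: g2) ++ [w]) := hE2.of_prefix ⟨h2, by simp⟩
    have h4 : IsP G (w :: h1) := hE1.of_suffix ⟨s' ++ b0 :: g1, by simp⟩
    have h5 := h3.glue h4 (by
      intro x hx hx'
      have hxu : x ∈ u := by rw [hug]; simp [hx]
      rcases List.mem_append.1 hx' with h6 | h6
      · have := hE1.1
        rw [show s' ++ b0 :: (g1 ++ w :: h1) = s' ++ (b0 :: (g1 ++ w :: h1)) by rfl, List.nodup_append'] at this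
        exact ldj this.2.2 (a := x) h6 (by simp [hx])
      · rcases List.mem_cons.1 h6 with h7 | h7
        · subst h7
          have := hE1.1
          rw [List.nodup_append'] at this
          exact (List.nodup_cons.1 this.2.1).1 (by simp [hx])
        · exact hg2 x h7 hxu)
    rw [ht, show s' ++ b0 :: g2 ++ (t ++ [d]) = (s' ++ [b0]) ++ (g2 ++ (t ++ [d])) by simp, ← hs'] at h5
    simpa using h5
  have o3 : ((s ++ g2 ++ t).length + a.length) % 2 = 1 := by
    refine h.odd_side hL hz hzl hE3 ?_ (by simp; omega) ?_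
    · intro x hx
      simp only [List.mem_append] at hx
      rcases hx with (h3 | h3) | h3
      · exact hd1 x (by rw [he1']; simp [h3])
      · have hxv : x ∈ e2 ++ [d] := by rw [hv, hvg]; simp [h3]
        rcases List.mem_append.1 hxv with h4 | h4
        · exact hd2 x h4
        · exfalso
          have : x = d := by simpa using h4
          subst this
          exact hg2 x h3 hdu
      · exact hd1 x (by rw [he1']; simp [h3])
    · intro h0
      have h3 : s = [] ∧ g2 = [] ∧ t = [] := by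
        simp only [List.append_eq_nil_iff] at h0
        tauto
      refine hn2 ?_
      have h4 : w = d := by
        have := ht
        rw [h3.2.2] at this
        simp at this
        exact this.1
      have h5 : e2 ++ [d] = d :: h2 := by rw [hv, hvg, h3.1, h3.2.1, h4]; simp
      have h6 := hn2'
      rw [h5] at h6
      have h7 : h2 = [] := by
        by_contra h8
        have h9 : (d :: h2).getLast? = h2.getLast? := by
          rw [show d :: h2 = [d] ++ h2 by simp, List.getLast?_append_of_ne_nil _ h8]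
        have h10 : h2.getLast? = some d := by rw [← h9, ← h5]; simp
        exact (List.nodup_cons.1 h6).1 (List.mem_of_getLast? h10)
      rw [h7] at h5
      have := congrArg List.length h5
      simp at this
      exact this
  simp at o3
  obtain ⟨r, hr⟩ : ∃ r, g1.length + g2.length + 2 = 2 * r := ⟨(g1.length + g2.length + 2) / 2, by omega⟩
  have hOl : (b0 :: (g1 ++ w :: g2.reverse)).length = 2 * r := by simp; omega
  have hr2 : 2 ≤ r := by have := hO.2.2; omega
  -- the tail
  set S : V → Prop := fun x => x ∈ c :: e1 ++ [d] ∨ x ∈ c :: e2 ++ [d] with hS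
  have hc1 : IsP G (c :: e1 ++ [d]) := he1
  have hconn : ∀ y, S y → Conn G S y d := by
    intro y hy
    rcases hy with hy | hy
    · exact conn_of_path hc1 (fun x hx => Or.inl hx) hy (by simp)
    · exact conn_of_path he2 (fun x hx => Or.inr hx) hy (by simp)
  have hYS : ∀ x ∈ (b0 :: (g1 ++ w :: g2.reverse)), S x := by
    intro x hx
    have e1m : ∀ x, x ∈ c :: e1 ++ [d] ↔ x ∈ s' ++ b0 :: (g1 ++ w :: h1) := by
      intro x
      rw [show c :: e1 ++ [d] = c :: (e1 ++ [d]) by simp, hu, hug,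
        show c :: (s ++ (g1 ++ w :: h1)) = (c :: s) ++ (g1 ++ w :: h1) by simp, hs']
      simp
    have e2m : ∀ x, x ∈ c :: e2 ++ [d] ↔ x ∈ s' ++ b0 :: (g2 ++ w :: h2) := by
      intro x
      rw [show c :: e2 ++ [d] = c :: (e2 ++ [d]) by simp, hv, hvg,
        show c :: (s ++ (g2 ++ w :: h2)) = (c :: s) ++ (g2 ++ w :: h2) by simp, hs']
      simp
    simp only [List.mem_cons, List.mem_append, List.mem_reverse] at hx
    rcases hx with h3 | h3 | h3 | h3
    · exact Or.inl ((e1m x).2 (by simp [h3]))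
    · exact Or.inl ((e1m x).2 (by simp [h3]))
    · exact Or.inl ((e1m x).2 (by simp [h3]))
    · exact Or.inr ((e2m x).2 (by simp [h3]))
  rcases le_total a.length b.length with hab | hab
  · refine h.tail_rule hr2 (by omega) hO hOl hYS hconn (l := b) ?_ ?_ (by omega)
    · exact hz.isP.of_suffix ⟨c :: a, by simp⟩
    · intro x hx hx'
      have h4 := hnd
      rw [show c :: a ++ d :: b = (c :: a ++ [d]) ++ b by simp, List.nodup_append'] at h4
      simp only [hS, List.mem_append, List.mem_cons, List.not_mem_nil, or_false] at hx'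
      rcases hx' with ((h3 | h3) | h3) | ((h3 | h3) | h3)
      · exact ldj h4.2.2 (a := x) (by simp [h3]) hx
      · exact hd1 x h3 (by simp [hx])
      · exact ldj h4.2.2 (a := x) (by simp [h3]) hx
      · exact ldj h4.2.2 (a := x) (by simp [h3]) hx
      · exact hd2 x h3 (by simp [hx])
      · exact ldj h4.2.2 (a := x) (by simp [h3]) hx
  · refine h.tail_rule hr2 (by omega) hO hOl hYS hconn (l := a.reverse) ?_ ?_ (by simp; omega)
    · have h5 : IsP G (a ++ [d]) := hz.isP.of_infix ⟨[c], b, by simp⟩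
      have := h5.reverse
      simpa using this
    · intro x hx hx'
      rw [List.mem_reverse] at hx
      have h4 := hnd
      rw [show c :: a ++ d :: b = [c] ++ (a ++ d :: b) by simp, List.nodup_append'] at h4
      have h5 := List.nodup_append'.1 h4.2.1
      simp only [hS, List.mem_append, List.mem_cons, List.not_mem_nil, or_false] at hx'
      rcases hx' with ((h3 | h3) | h3) | ((h3 | h3) | h3)
      · exact ldj h4.2.2 (a := x) (by simp [h3]) (by simp [hx])
      · exact hd1 x h3 (by simp [hx])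
      · exact h5.2.2 hx (by simp [h3])
      · exact ldj h4.2.2 (a := x) (by simp [h3]) (by simp [hx])
      · exact hd2 x h3 (by simp [hx])
      · exact h5.2.2 hx (by simp [h3])

end Pool.Agent.Work.KZ
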