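import Pool.Agent.Work.MP_f0e709_co.R1b

/-! Circumference, part 3 (helper14, after helper16): ears of a cyclic list with positions; two far ears of total
length at most `k` coincide. -/

set_option autoImplicit false

namespace Pool.Agent.Work.KZ

variable {V : Type*} {G : SimpleGraph V} {k : ℕ}

/-- distance of two positions on a circle of length `N` -/
def cd (N i j : ℕ) : ℕ := min ((i - j) + (j - i)) (N - ((i - j) + (j - i)))

theorem cd_comm (N i j : ℕ) : cd N i j = cd N j i := by
  unfold cd; omega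

theorem cd_tri {N i j m : ℕ} (hi : i < N) (hj : j < N) (hm : m < N) : cd N i m ≤ cd N i j + cd N j m := by
  unfold cd; omega

/-- an ear of the cyclic list `Z` between the vertices `c`, `d` at positions `i`, `j`, not an edge of `Z` -/
structure Ear (G : SimpleGraph V) (Z : List V) (i j : ℕ) (c d : V) (e : List V) : Prop where
  hi : Z[i]? = some c
  hj : Z[j]? = some d
  path : IsP G (c :: e ++ [d])
  off : ∀ x ∈ e, x ∉ Z
  ne : e = [] → cd Z.length i j ≠ 1

theorem Ear.rev {Z : List V} {i j : ℕ} {c d : V} {e : List V} (h : Ear G Z i j c d e) :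
    Ear G Z j i d c e.reverse := by
  refine ⟨h.hj, h.hi, ?_, ?_, ?_⟩
  · have := h.path.reverse
    simpa using this
  · intro x hx
    exact h.off x (by simpa using hx)
  · intro h0
    rw [cd_comm]
    exact h.ne (by simpa using h0)

theorem Ear.ij {Z : List V} {i j : ℕ} {c d : V} {e : List V} (h : Ear G Z i j c d e) : i ≠ j := by
  intro hij
  subst hij
  have h1 : c = d := by
    have := h.hi.symm.trans h.hj
    simpa using this
  subst h1
  have := h.path.1
  simp at this

theorem Ear.lt {Z : List V} {i j : ℕ} {c d : V} {e : List V} (h : Ear G Z i j c d e) :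
    i < Z.length ∧ j < Z.length :=
  ⟨(List.getElem?_eq_some_iff.1 h.hi).1, (List.getElem?_eq_some_iff.1 h.hj).1⟩

theorem split1 {α : Type*} {l : List α} {i : ℕ} {x : α} (hi : l[i]? = some x) :
    ∃ A B, l = A ++ x :: B ∧ A.length = i := by
  obtain ⟨hi', rfl⟩ := List.getElem?_eq_some_iff.1 hi
  refine ⟨l.take i, l.drop (i + 1), ?_, ?_⟩
  · rw [List.getElem_cons_drop, List.take_append_drop]
  · rw [List.length_take]; omega

theorem getElem?_tail {α : Type*} {A B : List α} {x y : α} {i j : ℕ} (hA : A.length = i) (hij : i < j)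
    (hj : (A ++ x :: B)[j]? = some y) : B[j - i - 1]? = some y := by
  rw [List.getElem?_append_right (by omega), hA] at hj
  obtain ⟨e, he⟩ : ∃ e, j - i = e + 1 := ⟨j - i - 1, by omega⟩
  rw [he] at hj ⊢
  simpa using hj

theorem split2 {α : Type*} {l : List α} {i j : ℕ} {x y : α} (hij : i < j) (hi : l[i]? = some x)
    (hj : l[j]? = some y) :
    ∃ A M S, l = A ++ x :: (M ++ y :: S) ∧ A.length = i ∧ M.length + i + 1 = j := by
  obtain ⟨A, B, hAB, hA⟩ := split1 hi
  rw [hAB] at hj
  obtain ⟨M, S, hMS, hM⟩ := split1 (getElem?_tail hA hij hj)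
  exact ⟨A, M, S, by rw [hAB, hMS], hA, by omega⟩

theorem split3 {α : Type*} {l : List α} {i j m : ℕ} {x y z : α} (hij : i < j) (hjm : j < m)
    (hi : l[i]? = some x) (hj : l[j]? = some y) (hm : l[m]? = some z) :
    ∃ A M M' S, l = A ++ x :: (M ++ y :: (M' ++ z :: S)) ∧ A.length = i ∧ M.length + i + 1 = j ∧
      M'.length + j + 1 = m := by
  obtain ⟨A, B, hAB, hA⟩ := split1 hi
  rw [hAB] at hj hm
  have h1 := getElem?_tail hA hij hj
  have h2 := getElem?_tail hA (by omega) hm
  obtain ⟨M, M', S, hMS, hM, hM'⟩ := split2 (by omega) h1 h2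
  exact ⟨A, M, M', S, by rw [hAB, hMS], hA, by omega, by omega⟩

theorem split4 {α : Type*} {l : List α} {i j m n : ℕ} {x y z w : α} (hij : i < j) (hjm : j < m) (hmn : m < n)
    (hi : l[i]? = some x) (hj : l[j]? = some y) (hm : l[m]? = some z) (hn : l[n]? = some w) :
    ∃ A M M' M'' S, l = A ++ x :: (M ++ y :: (M' ++ z :: (M'' ++ w :: S))) ∧ A.length = i ∧
      M.length + i + 1 = j ∧ M'.length + j + 1 = m ∧ M''.length + m + 1 = n := by
  obtain ⟨A, B, hAB, hA⟩ := split1 hi
  rw [hAB] at hj hm hn
  have h1 := getElem?_tail hA hij hj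
  have h2 := getElem?_tail hA (by omega) hm
  have h3 := getElem?_tail hA (by omega) hn
  obtain ⟨M, M', M'', S, hMS, hM, hM', hM''⟩ := split3 (by omega) (by omega) h1 h2 h3
  exact ⟨A, M, M', M'', S, by rw [hAB, hMS], hA, by omega, by omega, by omega⟩

/-- rotation of a cyclic list, with membership and length -/
theorem rot_data {Z L A R : List V} (hz : IsCyc G Z) (hZ : Z = A ++ R) (hL : L = R ++ A) :
    IsCyc G L ∧ (∀ x, x ∈ L → x ∈ Z) ∧ L.length = Z.length := by
  subst hZ
  subst hL
  refine ⟨hz.rot, fun x hx => ?_, ?_⟩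
  · rcases List.mem_append.1 hx with h | h
    · exact List.mem_append.2 (Or.inr h)
    · exact List.mem_append.2 (Or.inl h)
  · rw [List.length_append, List.length_append, Nat.add_comm]

theorem cd_far {N i j e : ℕ} (hij : i < j) (h : e + 1 < cd N i j) : e + 1 + i < j ∧ e + 1 + j < N + i := by
  unfold cd at h
  omega

/-- parity of ears in terms of positions -/
theorem PK.odd_pos (h : PK G k) {l : ℕ} (hL : LM G k l) {Z : List V} (hz : IsCyc G Z) (hzl : Z.length = 2 * l)
    {i j : ℕ} {c d : V} {e : List V} (hE : Ear G Z i j c d e) (hq : e.length + 1 ≤ k) :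
    (e.length + 1 + i + j) % 2 = 1 := by
  have key : ∀ {i j : ℕ} {c d : V} {e : List V}, Ear G Z i j c d e → i < j → e.length + 1 ≤ k →
      (e.length + 1 + i + j) % 2 = 1 := by
    intro i j c d e hE hij hq
    obtain ⟨A, M, S, hZ, hA, hM⟩ := split2 hij hE.hi hE.hj
    have hNl : i + M.length + S.length + 2 = 2 * l := by
      have := congrArg List.length hZ
      simp at this; omega
    obtain ⟨hcyc, hmem, hlen⟩ := rot_data (L := c :: M ++ d :: (S ++ A))
      (A := A) (R := c :: (M ++ d :: S)) hz (by rw [hZ]) (by simp)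
    have := h.odd_side hL hcyc (by rw [hlen, hzl]) hE.path (fun x hx hx' => hE.off x hx (hmem x hx')) hq (by
      intro h0
      have h1 := hE.ne h0
      rw [hzl] at h1
      unfold cd at h1
      constructor
      · intro h2; rw [h2] at hM; simp at hM; omega
      · intro h2
        have h3 := List.append_eq_nil_iff.1 h2
        have h4 : S.length = 0 := by rw [h3.1]; rfl
        have h5 : A.length = 0 := by rw [h3.2]; rfl
        omega)
    omega
  rcases Nat.lt_or_ge i j with hij | hij
  · exact key hE hij hq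
  · have h1 := key hE.rev (by have := hE.ij; omega) (by simpa using hq)
    simp at h1
    omega

/-- the foot of an ear which meets the interior of a first ear is a foot of the first ear -/
theorem PK.tripod (h : PK G k) {l : ℕ} (hL : LM G k l) {Z : List V} (hz : IsCyc G Z) (hzl : Z.length = 2 * l)
    {i1 j1 i2 j2 : ℕ} {c1 d1 c2 d2 : V} {e1 e2 : List V} (hE1 : Ear G Z i1 j1 c1 d1 e1)
    (hE2 : Ear G Z i2 j2 c2 d2 e2) (hq : e1.length + e2.length + 2 ≤ k) (hx : ∃ x ∈ e2, x ∈ e1) :
    i2 = i1 ∨ i2 = j1 := by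
  by_contra hcon
  push Not at hcon
  obtain ⟨s, t, s', he2, hte1, hs⟩ := exists_first (fun x => x ∈ e1) e2 hx
  obtain ⟨g1, g2, he1⟩ := List.append_of_mem hte1
  have hl1 : e1.length = g1.length + g2.length + 1 := by rw [he1]; simp; omega
  have hl2 : e2.length = s.length + s'.length + 1 := by rw [he2]; simp; omega
  have hcneq : ∀ {i j : ℕ} {c d : V}, Z[i]? = some c → Z[j]? = some d → i ≠ j → c ≠ d := by
    intro i j c d hi hj hij hcd
    subst hcd
    obtain ⟨h1, h1'⟩ := List.getElem?_eq_some_iff.1 hi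
    obtain ⟨h2, h2'⟩ := List.getElem?_eq_some_iff.1 hj
    exact hij ((List.Nodup.getElem_inj_iff hz.isP.1).1 (h1'.trans h2'.symm))
  have hc2Z : c2 ∈ Z := List.mem_of_getElem? hE2.hi
  have hstart : IsP G ((c2 :: s) ++ [t]) := by
    refine hE2.path.of_prefix ⟨s' ++ [d2], ?_⟩
    rw [he2]; simp
  -- towards `c1`
  have hA : Ear G Z i2 i1 c2 c1 (s ++ t :: g1.reverse) := by
    refine ⟨hE2.hi, hE1.hi, ?_, ?_, ?_⟩
    · have h1 : IsP G (t :: (g1.reverse ++ [c1])) := by
        have h2 : IsP G ((c1 :: g1) ++ [t]) := by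
          refine hE1.path.of_prefix ⟨g2 ++ [d1], ?_⟩
          rw [he1]; simp
        have := h2.reverse
        simpa using this
      have := hstart.glue h1 (by
        intro x hx hx'
        simp only [List.mem_append, List.mem_reverse, List.mem_cons, List.not_mem_nil, or_false] at hx hx'
        rcases hx with h3 | h3
        · have hxe : x ∈ e1 := by rw [he1]; simp [h3]
          rcases hx' with h4 | h4
          · subst h4; exact hE1.off _ hxe hc2Z
          · exact hs x h4 hxe
        · subst h3
          rcases hx' with h4 | h4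
          · exact hcneq hE2.hi hE1.hi hcon.1 h4.symm
          · exact hE2.off x (by rw [he2]; simp [h4]) (List.mem_of_getElem? hE1.hi))
      simpa using this
    · intro x hx
      simp only [List.mem_append, List.mem_reverse, List.mem_cons] at hx
      rcases hx with h3 | h3 | h3
      · exact hE2.off x (by rw [he2]; simp [h3])
      · exact hE1.off x (by rw [he1]; simp [h3])
      · exact hE1.off x (by rw [he1]; simp [h3])
    · intro h0; simp at h0
  have hB : Ear G Z i2 j1 c2 d1 (s ++ t :: g2) := by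
    refine ⟨hE2.hi, hE1.hj, ?_, ?_, ?_⟩
    · have h1 : IsP G (t :: (g2 ++ [d1])) := by
        refine hE1.path.of_suffix ⟨c1 :: g1, ?_⟩
        rw [he1]; simp
      have := hstart.glue h1 (by
        intro x hx hx'
        simp only [List.mem_append, List.mem_cons, List.not_mem_nil, or_false] at hx hx'
        rcases hx with h3 | h3
        · have hxe : x ∈ e1 := by rw [he1]; simp [h3]
          rcases hx' with h4 | h4
          · subst h4; exact hE1.off _ hxe hc2Z
          · exact hs x h4 hxe
        · subst h3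
          rcases hx' with h4 | h4
          · exact hcneq hE2.hi hE1.hj hcon.2 h4.symm
          · exact hE2.off x (by rw [he2]; simp [h4]) (List.mem_of_getElem? hE1.hj))
      simpa using this
    · intro x hx
      simp only [List.mem_append, List.mem_cons] at hx
      rcases hx with h3 | h3 | h3
      · exact hE2.off x (by rw [he2]; simp [h3])
      · exact hE1.off x (by rw [he1]; simp [h3])
      · exact hE1.off x (by rw [he1]; simp [h3])
    · intro h0; simp at h0
  have p1 := h.odd_pos hL hz hzl hE1 (by omega)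
  have p2 := h.odd_pos hL hz hzl hA (by simp; omega)
  have p3 := h.odd_pos hL hz hzl hB (by simp; omega)
  simp at p2 p3
  omega

/-- two far ears of total length at most `k`, in normal position -/
theorem PK.two_far_core (h : PK G k) {l : ℕ} (hL : LM G k l) {Z : List V} (hz : IsCyc G Z)
    (hzl : Z.length = 2 * l) {i1 j1 i2 j2 : ℕ} {c1 d1 c2 d2 : V} {e1 e2 : List V}
    (hE1 : Ear G Z i1 j1 c1 d1 e1) (hE2 : Ear G Z i2 j2 c2 d2 e2) (hq : e1.length + e2.length + 2 ≤ k)
    (hf1 : e1.length + 1 < cd Z.length i1 j1) (hf2 : e2.length + 1 < cd Z.length i2 j2)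
    (h1 : i1 < j1) (h2 : i2 < j2) (h12 : i1 ≤ i2) : i1 = i2 ∧ j1 = j2 ∧ e1 = e2 := by
  have hj1 := hE1.lt.2
  have hj2 := hE2.lt.2
  rw [hzl] at hf1 hf2 hj1 hj2
  have hvert : ∀ {i : ℕ} {c d : V}, Z[i]? = some c → Z[i]? = some d → c = d := by
    intro i c d hi hj
    have := hi.symm.trans hj
    simpa using this
  have hfeet : i1 = i2 → j1 = j2 → e1 = e2 := by
    intro hi hj
    subst hi; subst hj
    have ec := hvert hE1.hi hE2.hi
    have ed := hvert hE1.hj hE2.hj
    subst ec; subst ed
    obtain ⟨A, M, S, hZ, hA, hM⟩ := split2 h1 hE1.hi hE1.hj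
    have hNl : i1 + M.length + S.length + 2 = 2 * l := by
      have := congrArg List.length hZ
      simp at this; omega
    obtain ⟨hcyc, hmem, hlen⟩ := rot_data (L := c1 :: M ++ d1 :: (S ++ A))
      (A := A) (R := c1 :: (M ++ d1 :: S)) hz (by rw [hZ]) (by simp)
    have hn : M ≠ [] ∧ S ++ A ≠ [] := by
      have f1 := cd_far h1 hf1
      clear hf1 hf2
      constructor
      · intro h3; rw [h3] at hM; simp at hM; omega
      · intro h3
        have h3' := List.append_eq_nil_iff.1 h3
        have h4 : S.length = 0 := by rw [h3'.1]; rfl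
        have h5 : A.length = 0 := by rw [h3'.2]; rfl
        omega
    exact h.same_feet hL hcyc (by rw [hlen, hzl]) hE1.path hE2.path
      (fun x hx hx' => hE1.off x hx (hmem x hx')) (fun x hx hx' => hE2.off x hx (hmem x hx'))
      (fun _ => hn) (fun _ => hn) hq
  by_cases hsame : i1 = i2 ∧ j1 = j2
  · exact ⟨hsame.1, hsame.2, hfeet hsame.1 hsame.2⟩
  exfalso
  by_cases hx : ∃ x ∈ e2, x ∈ e1
  · have t1 := h.tripod hL hz hzl hE1 hE2 hq hx
    have t2 := h.tripod hL hz hzl hE1 hE2.rev (by simp; omega) (by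
      obtain ⟨x, hx1, hx2⟩ := hx
      exact ⟨x, by simpa using hx1, hx2⟩)
    omega
  push Not at hx
  have hdis : ∀ x ∈ e1, x ∉ e2 := fun x hx1 hx2 => hx x hx2 hx1
  have r1 : IsP G (d1 :: e1.reverse ++ [c1]) := by have := hE1.path.reverse; simpa using this
  have r2 : IsP G (d2 :: e2.reverse ++ [c2]) := by have := hE2.path.reverse; simpa using this
  have f1 := cd_far h1 hf1
  have f2 := cd_far h2 hf2
  clear hf1 hf2 hfeet
  rcases Nat.lt_or_ge i1 i2 with hi | hi
  · rcases lt_trichotomy j1 i2 with hj | hj | hj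
    · -- disjoint sides
      obtain ⟨A, M, M', M'', S, hZ, hA, hM, hM', hM''⟩ := split4 h1 hj h2 hE1.hi hE1.hj hE2.hi hE2.hj
      have hNl : A.length + M.length + M'.length + M''.length + S.length + 4 = 2 * l := by
        have := congrArg List.length hZ
        simp at this; omega
      obtain ⟨hcyc, hmem, hlen⟩ := rot_data (L := c1 :: M ++ d1 :: M' ++ c2 :: M'' ++ d2 :: (S ++ A))
        (A := A) (R := c1 :: (M ++ d1 :: (M' ++ c2 :: (M'' ++ d2 :: S)))) hz (by rw [hZ]) (by simp)
      exact h.nc4 hL hcyc (by rw [hlen, hzl]) hE1.path hE2.path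
        (fun x hx hx' => hE1.off x hx (hmem x hx')) (fun x hx hx' => hE2.off x hx (hmem x hx')) hdis
        (by omega) (by omega) hq
    · -- common foot `d1 = c2`
      subst hj
      have ed := hvert hE1.hj hE2.hi
      subst ed
      obtain ⟨A, M, M', S, hZ, hA, hM, hM'⟩ := split3 h1 h2 hE1.hi hE1.hj hE2.hj
      have hNl : A.length + M.length + M'.length + S.length + 3 = 2 * l := by
        have := congrArg List.length hZ
        simp at this; omega
      obtain ⟨hcyc, hmem, hlen⟩ := rot_data (L := c1 :: M ++ d1 :: M' ++ d2 :: (S ++ A))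
        (A := A) (R := c1 :: (M ++ d1 :: (M' ++ d2 :: S))) hz (by rw [hZ]) (by simp)
      exact h.nc3 hL hcyc (by rw [hlen, hzl]) hE1.path hE2.path
        (fun x hx hx' => hE1.off x hx (hmem x hx')) (fun x hx hx' => hE2.off x hx (hmem x hx')) hdis
        (by omega) (by omega) hq
    · rcases lt_trichotomy j1 j2 with hjj | hjj | hjj
      · -- crossing
        obtain ⟨A, M, M', M'', S, hZ, hA, hM, hM', hM''⟩ := split4 hi hj hjj hE1.hi hE2.hi hE1.hj hE2.hj
        have hNl : A.length + M.length + M'.length + M''.length + S.length + 4 = 2 * l := by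
          have := congrArg List.length hZ
          simp at this; omega
        obtain ⟨hcyc, hmem, hlen⟩ := rot_data (L := c1 :: M ++ c2 :: M' ++ d1 :: M'' ++ d2 :: (S ++ A))
          (A := A) (R := c1 :: (M ++ c2 :: (M' ++ d1 :: (M'' ++ d2 :: S)))) hz (by rw [hZ]) (by simp)
        exact h.cr hL hcyc (by rw [hlen, hzl]) hE1.path hE2.path
          (fun x hx hx' => hE1.off x hx (hmem x hx')) (fun x hx hx' => hE2.off x hx (hmem x hx')) hdis hq
      · -- common foot `d1 = d2`
        subst hjj
        have ed := hvert hE1.hj hE2.hj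
        subst ed
        obtain ⟨A, M, M', S, hZ, hA, hM, hM'⟩ := split3 hi h2 hE1.hi hE2.hi hE1.hj
        have hNl : A.length + M.length + M'.length + S.length + 3 = 2 * l := by
          have := congrArg List.length hZ
          simp at this; omega
        obtain ⟨hcyc, hmem, hlen⟩ := rot_data (L := c2 :: M' ++ d1 :: (S ++ A) ++ c1 :: M)
          (A := A ++ c1 :: M) (R := c2 :: (M' ++ d1 :: S)) hz (by rw [hZ]; simp) (by simp)
        exact h.nc3 hL hcyc (by rw [hlen, hzl]) hE2.path r1
          (fun x hx hx' => hE2.off x hx (hmem x hx'))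
          (fun x hx hx' => hE1.off x (by simpa using hx) (hmem x hx'))
          (fun x hx hx' => hdis x (by simpa using hx') hx)
          (by omega) (by simp; omega) (by simp; omega)
      · -- nested
        obtain ⟨A, M, M', M'', S, hZ, hA, hM, hM', hM''⟩ := split4 hi h2 hjj hE1.hi hE2.hi hE2.hj hE1.hj
        have hNl : A.length + M.length + M'.length + M''.length + S.length + 4 = 2 * l := by
          have := congrArg List.length hZ
          simp at this; omega
        obtain ⟨hcyc, hmem, hlen⟩ := rot_data (L := d1 :: (S ++ A) ++ c1 :: M ++ c2 :: M' ++ d2 :: M'')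
          (A := A ++ c1 :: (M ++ c2 :: (M' ++ d2 :: M''))) (R := d1 :: S) hz (by rw [hZ]; simp) (by simp)
        exact h.nc4 hL hcyc (by rw [hlen, hzl]) r1 hE2.path
          (fun x hx hx' => hE1.off x (by simpa using hx) (hmem x hx'))
          (fun x hx hx' => hE2.off x hx (hmem x hx'))
          (fun x hx hx' => hdis x (by simpa using hx) hx')
          (by simp; omega) (by omega) (by simp; omega)
  · have hi' : i1 = i2 := by omega
    subst hi'
    have ec := hvert hE1.hi hE2.hi
    subst ec
    rcases lt_trichotomy j1 j2 with hjj | hjj | hjj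
    · -- `c1 < d1 < d2`
      obtain ⟨A, M, M', S, hZ, hA, hM, hM'⟩ := split3 h1 hjj hE1.hi hE1.hj hE2.hj
      have hNl : A.length + M.length + M'.length + S.length + 3 = 2 * l := by
        have := congrArg List.length hZ
        simp at this; omega
      obtain ⟨hcyc, hmem, hlen⟩ := rot_data (L := d2 :: (S ++ A) ++ c1 :: M ++ d1 :: M')
        (A := A ++ c1 :: (M ++ d1 :: M')) (R := d2 :: S) hz (by rw [hZ]; simp) (by simp)
      exact h.nc3 hL hcyc (by rw [hlen, hzl]) r2 hE1.path
        (fun x hx hx' => hE2.off x (by simpa using hx) (hmem x hx'))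
        (fun x hx hx' => hE1.off x hx (hmem x hx'))
        (fun x hx hx' => hdis x hx' (by simpa using hx))
        (by simp; omega) (by omega) (by simp; omega)
    · exact hsame ⟨rfl, hjj⟩
    · -- `c1 < d2 < d1`
      obtain ⟨A, M, M', S, hZ, hA, hM, hM'⟩ := split3 h2 hjj hE1.hi hE2.hj hE1.hj
      have hNl : A.length + M.length + M'.length + S.length + 3 = 2 * l := by
        have := congrArg List.length hZ
        simp at this; omega
      obtain ⟨hcyc, hmem, hlen⟩ := rot_data (L := d1 :: (S ++ A) ++ c1 :: M ++ d2 :: M')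
        (A := A ++ c1 :: (M ++ d2 :: M')) (R := d1 :: S) hz (by rw [hZ]; simp) (by simp)
      exact h.nc3 hL hcyc (by rw [hlen, hzl]) r1 hE2.path
        (fun x hx hx' => hE1.off x (by simpa using hx) (hmem x hx'))
        (fun x hx hx' => hE2.off x hx (hmem x hx'))
        (fun x hx hx' => hdis x (by simpa using hx) hx')
        (by simp; omega) (by omega) (by simp; omega)

/-- two far ears of total length at most `k` coincide -/
theorem PK.two_far (h : PK G k) {l : ℕ} (hL : LM G k l) {Z : List V} (hz : IsCyc G Z)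
    (hzl : Z.length = 2 * l) {i1 j1 i2 j2 : ℕ} {c1 d1 c2 d2 : V} {e1 e2 : List V}
    (hE1 : Ear G Z i1 j1 c1 d1 e1) (hE2 : Ear G Z i2 j2 c2 d2 e2) (hq : e1.length + e2.length + 2 ≤ k)
    (hf1 : e1.length + 1 < cd Z.length i1 j1) (hf2 : e2.length + 1 < cd Z.length i2 j2) :
    (i1 = i2 ∧ j1 = j2 ∧ e1 = e2) ∨ (i1 = j2 ∧ j1 = i2 ∧ e1 = e2.reverse) := by
  have half : ∀ {i1 j1 i2 j2 : ℕ} {c1 d1 c2 d2 : V} {e1 e2 : List V}
      (_ : Ear G Z i1 j1 c1 d1 e1) (_ : Ear G Z i2 j2 c2 d2 e2) (_ : e1.length + e2.length + 2 ≤ k)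
      (_ : e1.length + 1 < cd Z.length i1 j1) (_ : e2.length + 1 < cd Z.length i2 j2)
      (_ : i1 < j1) (_ : i2 < j2), i1 = i2 ∧ j1 = j2 ∧ e1 = e2 := by
    intro i1 j1 i2 j2 c1 d1 c2 d2 e1 e2 hE1 hE2 hq hf1 hf2 h1 h2
    rcases le_total i1 i2 with h3 | h3
    · exact h.two_far_core hL hz hzl hE1 hE2 hq hf1 hf2 h1 h2 h3
    · obtain ⟨a1, a2, a3⟩ := h.two_far_core hL hz hzl hE2 hE1 (by omega) hf2 hf1 h2 h1 h3
      exact ⟨a1.symm, a2.symm, a3.symm⟩
  have n1 := hE1.ij
  have n2 := hE2.ij
  rcases Nat.lt_or_ge i1 j1 with h1 | h1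
  · rcases Nat.lt_or_ge i2 j2 with h2 | h2
    · exact Or.inl (half hE1 hE2 hq hf1 hf2 h1 h2)
    · right
      exact half hE1 hE2.rev (by simp; omega) hf1 (by rw [cd_comm]; simpa using hf2) h1 (by omega)
  · rcases Nat.lt_or_ge i2 j2 with h2 | h2
    · right
      obtain ⟨a1, a2, a3⟩ := half hE1.rev hE2 (by simp; omega) (by rw [cd_comm]; simpa using hf1) hf2
        (by omega) h2
      exact ⟨a2, a1, by rw [← a3]; simp⟩
    · left
      obtain ⟨a1, a2, a3⟩ := half hE1.rev hE2.rev (by simp; omega) (by rw [cd_comm]; simpa using hf1)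
        (by rw [cd_comm]; simpa using hf2) (by omega) (by omega)
      exact ⟨a2, a1, List.reverse_injective a3⟩

end Pool.Agent.Work.KZ
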