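import Pool.Agent.Work.MP_f0e709_co.T3a

/-! The figure 8 rule. -/

set_option autoImplicit false

namespace Pool.Agent.Work.KZ

variable {V : Type*} {G : SimpleGraph V} {k : ℕ}

theorem dj {α : Type*} {l m : List α} (h : l.Disjoint m) {a : α} (h1 : a ∈ l) (h2 : a ∈ m) : False := h h1 h2

theorem getLast?_app_cons_concat {α : Type*} (l m : List α) (x p : α) :
    (l ++ x :: (m ++ [p])).getLast? = some p := by
  rw [show l ++ x :: (m ++ [p]) = (l ++ x :: m) ++ [p] by simp]
  exact List.getLast?_concat

/-- the figure 8 rule, basic form: from the end of the tail `T` to `z`, by `j` or `j'` to `x`, and then round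
the cycle `x :: w` in one of the two directions -/
theorem PK.fig8_base (h : PK G k) (hk : 1 ≤ k) {x z : V} {T j j' w : List V} {t t' : ℕ}
    (h1 : IsP G (T ++ z :: j ++ [x])) (h2 : IsP G (T ++ z :: j' ++ [x])) (hO : IsCyc G (x :: w))
    (hd1 : ∀ v ∈ w, v ∉ T ++ z :: j) (hd2 : ∀ v ∈ w, v ∉ T ++ z :: j')
    (hl1 : T.length + j.length + 2 + t = k + 1) (hl2 : T.length + j'.length + 2 + t' = k + 1)
    (htt : t + t' = w.length + 1) (ht : 1 ≤ t) (ht' : 1 ≤ t') (hne : j.length ≠ j'.length) : False := by
  obtain ⟨w1, p, w2, rfl, hw1, hw2⟩ : ∃ w1 p w2, w = w1 ++ p :: w2 ∧ w1.length + 1 = t ∧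
      w2.length + 1 = t' := by
    have hlt : t - 1 < w.length := by omega
    refine ⟨w.take (t - 1), w[t - 1], w.drop (t - 1 + 1), ?_, ?_, ?_⟩
    · rw [List.getElem_cons_drop, List.take_append_drop]
    · rw [List.length_take]; omega
    · rw [List.length_drop]; omega
  have hO' := hO.cons_reverse
  have P1 : IsP G ((T ++ z :: j) ++ x :: (w1 ++ [p])) := by
    refine IsP.glue h1 ?_ ?_
    · exact hO.isP.of_prefix ⟨w2, by simp⟩
    · intro v hv
      exact hd1 v (by simp at hv ⊢; tauto)
  have P2 : IsP G ((T ++ z :: j') ++ x :: (w2.reverse ++ [p])) := by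
    refine IsP.glue h2 ?_ ?_
    · exact hO'.isP.of_prefix ⟨w1.reverse, by simp⟩
    · intro v hv
      exact hd2 v (by simp at hv ⊢; tauto)
  have heq := h.uniq P1 P2 (by simp; omega) (by simp; omega)
    (by cases T <;> simp)
    (by rw [getLast?_app_cons_concat, getLast?_app_cons_concat])
    hk
  have hx1 : x ∉ T ++ z :: j := (isP_concat.1 h1).2.1
  have hx2 : x ∉ T ++ z :: j' := (isP_concat.1 h2).2.1
  -- the position of x
  have key : ∀ (a b c d : List V), a ++ x :: b = c ++ x :: d → x ∉ a → x ∉ c → a.length = c.length := by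
    intro a
    induction a with
    | nil =>
      intro b c d he _ hc
      cases c with
      | nil => rfl
      | cons y c => simp at he; exact absurd (by simp [he.1]) hc
    | cons y a ih =>
      intro b c d he ha hc
      cases c with
      | nil => simp at he; exact absurd (by simp [he.1]) ha
      | cons y' c =>
        simp at he
        have := ih b c d he.2 (fun h => ha (by simp [h])) (fun h => hc (by simp [h]))
        simp [this]
  have := key _ _ _ _ heq hx1 hx2
  simp at this
  exact hne this

/-- the figure 8 rule with the two inequalities -/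
theorem PK.fig8_half (h : PK G k) (hk : 1 ≤ k) {x y z : V} {i i' j j' C D : List V}
    (hC : IsCyc G (x :: i ++ y :: C ++ z :: j)) (hCl : (x :: i ++ y :: C ++ z :: j).length = k + 1)
    (hD : IsCyc G (x :: i' ++ y :: D ++ z :: j')) (hDl : (x :: i' ++ y :: D ++ z :: j').length = k + 1)
    (hii : i.Disjoint i') (hij : i.Disjoint j') (hi'j : i'.Disjoint j)
    (hCi : C.Disjoint i') (hCj : C.Disjoint j')
    (hoi : Odd (i.length + i'.length)) (hoj : Odd (j.length + j'.length))
    (hDC : D.length ≤ C.length) (hle : j.length ≤ j'.length + (i.length + i'.length))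
    (hle' : j'.length ≤ j.length + (i.length + i'.length)) : False := by
  obtain ⟨p, hp⟩ := hoi
  obtain ⟨q, hq⟩ := hoj
  simp at hCl hDl
  -- xi = k - 2 - (p + q + 1)
  have hxi : k - 3 - p - q ≤ C.length := by omega
  have hbig : p + q + 3 ≤ k := by omega
  obtain ⟨C1, C2, rfl, hC2⟩ : ∃ C1 C2, C = C1 ++ C2 ∧ C2.length = k - 3 - p - q :=
    ⟨C.take (C.length - (k - 3 - p - q)), C.drop (C.length - (k - 3 - p - q)),
      (List.take_append_drop _ _).symm, by rw [List.length_drop]; omega⟩
  have hCr : IsCyc G ((C2 ++ z :: j) ++ (x :: i ++ y :: C1)) := by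
    apply IsCyc.rot
    simpa using hC
  have hDr : IsCyc G ((z :: j') ++ (x :: i' ++ y :: D)) := by
    apply IsCyc.rot
    simpa using hD
  have hndC := hCr.isP.1
  have hndD := hDr.isP.1
  rw [List.nodup_append'] at hndC hndD
  have hzj' : IsP G (z :: (j' ++ [x])) := hDr.isP.of_prefix ⟨i' ++ y :: D, by simp⟩
  have hxi' : IsP G (x :: i' ++ [y]) := hD.isP.of_prefix ⟨D ++ z :: j', by simp⟩
  -- x, y, z are not on i'
  have hxni : x ∉ i' := by
    intro hx
    have := hxi'.1
    simp [hx] at this
  have hyni : y ∉ i' := by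
    intro hx
    have := hxi'.1
    rw [List.nodup_append'] at this
    exact dj this.2.2 (a := y) (by simp [hx]) (by simp)
  have hzni : z ∉ i' := fun hz => dj hndD.2.2 (a := z) (by simp) (by simp [hz])
  have hynj : y ∉ C2 ++ z :: j := fun hy => hndC.2.2 hy (by simp)
  have hynj' : y ∉ z :: j' := fun hy => hndD.2.2 hy (by simp)
  have hxnC : x ∉ C2 ++ z :: j := fun hy => hndC.2.2 hy (by simp)
  have hO : IsCyc G (x :: (i ++ y :: i'.reverse)) := by
    refine IsCyc.ear_cycle (b := (C1 ++ C2) ++ z :: j) (by simpa using hC) hxi' ?_ (by omega)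
    intro v hv hv'
    simp only [List.mem_cons, List.mem_append] at hv'
    rcases hv' with (h1 | h1) | h1 | (h1 | h1) | h1 | h1
    · subst h1; exact hxni hv
    · exact hii h1 hv
    · subst h1; exact hyni hv
    · exact hCi (by simp [h1]) hv
    · exact hCi (by simp [h1]) hv
    · subst h1; exact hzni hv
    · exact hi'j hv h1
  refine h.fig8_base (x := x) (z := z) (T := C2) (j := j) (j' := j') (w := i ++ y :: i'.reverse)
    (t := p + q + 2 - j.length) (t' := p + q + 2 - j'.length) hk ?_ ?_ hO ?_ ?_ ?_ ?_ ?_ ?_ ?_ ?_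
  · exact hCr.isP.of_prefix ⟨i ++ y :: C1, by simp⟩
  · have h1 : IsP G (C2 ++ [z]) := hCr.isP.of_prefix ⟨j ++ (x :: i ++ y :: C1), by simp⟩
    have := h1.glue hzj' ?_
    · simpa using this
    · intro v hv hv'
      rcases List.mem_append.1 hv with h2 | h2
      · exact hCj (by simp [hv']) h2
      · have : v = x := by simpa using h2
        subst this
        exact hxnC (by simp [hv'])
  · intro v hv hv'
    simp only [List.mem_append, List.mem_cons, List.mem_reverse] at hv
    rcases hv with h1 | h1 | h1
    · exact hndC.2.2 hv' (by simp [h1])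
    · subst h1; exact hynj hv'
    · simp only [List.mem_append, List.mem_cons] at hv'
      rcases hv' with h2 | h2 | h2
      · exact hCi (by simp [h2]) h1
      · subst h2; exact hzni h1
      · exact hi'j h1 h2
  · intro v hv hv'
    simp only [List.mem_append, List.mem_cons, List.mem_reverse] at hv
    rcases hv with h1 | h1 | h1
    · simp only [List.mem_append, List.mem_cons] at hv'
      rcases hv' with h2 | h2 | h2
      · exact dj hndC.2.2 (a := v) (by simp [h2]) (by simp [h1])
      · subst h2; exact dj hndC.2.2 (a := v) (by simp) (by simp [h1])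
      · exact hij h1 h2
    · subst h1
      simp only [List.mem_append] at hv'
      rcases hv' with h2 | h2
      · exact hynj (by simp [h2])
      · exact hynj' h2
    · simp only [List.mem_append] at hv'
      rcases hv' with h2 | h2
      · exact hCi (by simp [h2]) h1
      · exact dj hndD.2.2 (a := v) h2 (by simp [h1])
  · omega
  · omega
  · simp; omega
  · omega
  · omega
  · omega

/-- the figure 8 rule: `x` is joined to `y` by `i`, `i'` and to `z` by `j`, `j'` (both pairs odd cycles), where
`i`, `j` lie on one `(k+1)`-cycle and `i'`, `j'` on another one -/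
theorem PK.fig8 (h : PK G k) (hk : 1 ≤ k) {x y z : V} {i i' j j' C D : List V}
    (hC : IsCyc G (x :: i ++ y :: C ++ z :: j)) (hCl : (x :: i ++ y :: C ++ z :: j).length = k + 1)
    (hD : IsCyc G (x :: i' ++ y :: D ++ z :: j')) (hDl : (x :: i' ++ y :: D ++ z :: j').length = k + 1)
    (hii : i.Disjoint i') (hij : i.Disjoint j') (hi'j : i'.Disjoint j) (hjj : j.Disjoint j')
    (hCi : C.Disjoint i') (hCj : C.Disjoint j') (hDi : D.Disjoint i) (hDj : D.Disjoint j)
    (hoi : Odd (i.length + i'.length)) (hoj : Odd (j.length + j'.length)) : False := by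
  have hC' : IsCyc G (x :: j.reverse ++ z :: C.reverse ++ y :: i.reverse) := by
    have h1 : IsCyc G (x :: (i ++ y :: C ++ z :: j)) := by simpa using hC
    simpa using h1.cons_reverse
  have hD' : IsCyc G (x :: j'.reverse ++ z :: D.reverse ++ y :: i'.reverse) := by
    have h1 : IsCyc G (x :: (i' ++ y :: D ++ z :: j')) := by simpa using hD
    simpa using h1.cons_reverse
  have hC'l : (x :: j.reverse ++ z :: C.reverse ++ y :: i.reverse).length = k + 1 := by
    simp at hCl ⊢; omega
  have hD'l : (x :: j'.reverse ++ z :: D.reverse ++ y :: i'.reverse).length = k + 1 := by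
    simp at hDl ⊢; omega
  have dr : ∀ {l m : List V}, l.Disjoint m → l.reverse.Disjoint m.reverse := by
    intro l m hlm a ha hb
    exact hlm (by simpa using ha) (by simpa using hb)
  by_cases hcase : j.length ≤ j'.length + (i.length + i'.length) ∧
      j'.length ≤ j.length + (i.length + i'.length)
  · rcases Nat.le_total D.length C.length with hDC | hDC
    · exact h.fig8_half hk hC hCl hD hDl hii hij hi'j hCi hCj hoi hoj hDC hcase.1 hcase.2
    · exact h.fig8_half hk hD hDl hC hCl hii.symm hi'j hij hDi hDj (by rw [add_comm]; exact hoi)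
        (by rw [add_comm]; exact hoj) hDC (by have := hcase.2; omega) (by have := hcase.1; omega)
  · have e1 : i.reverse.length ≤ i'.reverse.length + (j.reverse.length + j'.reverse.length) := by
      simp; omega
    have e2 : i'.reverse.length ≤ i.reverse.length + (j.reverse.length + j'.reverse.length) := by
      simp; omega
    rcases Nat.le_total D.length C.length with hDC | hDC
    · exact h.fig8_half hk hC' hC'l hD' hD'l (dr hjj) (dr hi'j.symm) (dr hij.symm)
        (dr hCj) (dr hCi) (by simpa using hoj) (by simpa using hoi) (by simpa using hDC) e1 e2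
    · refine h.fig8_half hk hD' hD'l hC' hC'l (dr hjj.symm) (dr hij.symm) (dr hi'j.symm)
        (dr hDj) (dr hDi) ?_ ?_ (by simpa using hDC) ?_ ?_
      · simpa [add_comm] using hoj
      · simpa [add_comm] using hoi
      · simp; omega
      · simp; omega

end Pool.Agent.Work.KZ
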