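import Pool.Agent.Work.MP_f0e709_co.LL
import Pool.Agent.Work.MP_f0e709_co.T3b

/-! The pseudoforest lemma, part 1 (helper14): dumbbells off a `(k+1)`-cycle.  A dumbbell is a path
`A ++ M ++ D` whose first vertex is joined to the first vertex of `M` and whose last vertex is joined to the last
vertex of `M`. -/

set_option autoImplicit false

namespace Pool.Agent.Work.KZ

variable {V : Type*} {G : SimpleGraph V} {k : ℕ}

/-- a dumbbell: two cycles `A ∪ {head M}` and `{last M} ∪ D` joined by the path `M` -/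
def Dumb (G : SimpleGraph V) (A M D : List V) : Prop :=
  IsP G (A ++ M ++ D) ∧ 2 ≤ A.length ∧ 2 ≤ D.length ∧ M ≠ [] ∧
    (∀ a ∈ A.head?, ∀ x ∈ M.head?, G.Adj a x) ∧ (∀ e ∈ D.getLast?, ∀ y ∈ M.getLast?, G.Adj e y)

theorem Dumb.symm {A M D : List V} (h : Dumb G A M D) : Dumb G D.reverse M.reverse A.reverse := by
  obtain ⟨h1, h2, h3, h4, h5, h6⟩ := h
  refine ⟨?_, by simpa using h3, by simpa using h2, by simpa using h4, ?_, ?_⟩
  · have := h1.reverse
    simpa using this
  · intro a ha x hx
    rw [List.head?_reverse] at ha hx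
    exact h6 a ha x hx
  · intro e he y hy
    rw [List.getLast?_reverse] at he hy
    exact h5 e he y hy

/-- the second cycle of a dumbbell -/
theorem Dumb.cyc_right {A M D : List V} {q : V} (h : Dumb G A (M ++ [q]) D) : IsCyc G (q :: D) := by
  obtain ⟨h1, h2, h3, h4, h5, h6⟩ := h
  refine ⟨?_, ?_, by simp; omega⟩
  · exact h1.of_suffix ⟨A ++ M, by simp⟩
  · intro x hx y hy
    have hy' : y = q := by simpa using hy.symm
    subst hy'
    have hx' : x ∈ D.getLast? := by
      have hD : D ≠ [] := by
        intro h0; subst h0; simp at h3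
      rw [show y :: D = [y] ++ D by simp, List.getLast?_append_of_ne_nil _ hD] at hx
      exact hx
    exact h6 x hx' y (by simp)

/-- the first cycle of a dumbbell -/
theorem Dumb.cyc_left {A M D : List V} {q : V} (h : Dumb G A (q :: M) D) : IsCyc G (q :: A) := by
  obtain ⟨h1, h2, h3, h4, h5, h6⟩ := h
  have hA : A ≠ [] := by
    intro h0; subst h0; simp at h2
  have hc : IsCyc G (A ++ [q]) := by
    refine ⟨h1.of_prefix ⟨M ++ D, by simp⟩, ?_, by simp; omega⟩
    intro x hx y hy
    have hx' : x = q := by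
      rw [List.getLast?_append_of_ne_nil _ (by simp)] at hx
      simpa using hx.symm
    subst hx'
    rw [List.head?_append_of_ne_nil _ hA] at hy
    exact (h5 y hy x (by simp)).symm
  have := hc.rot
  simpa using this

/-- auxiliary gate lemma -/
theorem gate_aux {Z : V → Prop} {A M D : List V} {q : V}
    (hne : ∀ (Y : List V) (r : ℕ), IsCyc G Y → Y.length = 2 * r → 2 ≤ r → ∃ y ∈ Y, Z y)
    (hd : Dumb G A (M ++ [q]) D) (hX : ∀ v ∈ A ++ (M ++ [q]) ++ D, ¬ Z v)
    {F : List V} {z1 : V} (hF : IsP G (F ++ [z1])) (hF0 : ∀ v ∈ F.head?, v ∈ D) (hFn : F ≠ [])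
    (hq : q ∉ F) (hFZ : ∀ v ∈ F, ¬ Z v) (hz1 : Z z1) :
    ∃ (D1 D2 t : List V) (d z0 : V), D = D1 ++ d :: D2 ∧ IsP G (d :: t ++ [z0]) ∧ Z z0 ∧
      ∀ v ∈ t, ¬ Z v ∧ v ∉ A ++ (M ++ [q]) ++ D := by
  have hP := hd.1
  by_cases hc : ∃ x ∈ F, x ∈ A ++ M
  · exfalso
    obtain ⟨F1, x1, F2, rfl, hx1, hF1⟩ := exists_first (fun x => x ∈ A ++ M) F hc
    -- `F1` contains a vertex of `D`
    have hF1D : ∃ v ∈ F1, v ∈ D := by
      cases F1 with
      | nil =>
        exfalso
        have hxD : x1 ∈ D := hF0 x1 (by simp)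
        have := hP.1
        rw [show A ++ (M ++ [q]) ++ D = (A ++ M) ++ (q :: D) by simp, List.nodup_append'] at this
        exact dj this.2.2 hx1 (by simp [hxD])
      | cons v F1 => exact ⟨v, by simp, hF0 v (by simp)⟩
    obtain ⟨F3, d1, s, rfl, hd1, hs⟩ := exists_last (fun v => v ∈ D) F1 hF1D
    obtain ⟨D1, D2, hD⟩ := List.append_of_mem hd1
    obtain ⟨Q1, Q2, hQ⟩ := List.append_of_mem hx1
    have hnd := hP.1
    rw [show A ++ (M ++ [q]) ++ D = (A ++ M) ++ ([q] ++ D) by simp, List.nodup_append'] at hnd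
    have hqD : q ∉ D := by
      have := hnd.2.1
      simp at this
      exact this.1
    -- the ear
    have hseg : IsP G ((d1 :: s) ++ [x1]) := hF.of_infix ⟨F3, F2 ++ [z1], by simp⟩
    have hQp : IsP G (x1 :: (Q2 ++ [q])) := by
      refine hP.of_infix ⟨Q1, D, ?_⟩
      rw [show A ++ (M ++ [q]) ++ D = (A ++ M) ++ q :: D by simp, hQ]
      simp
    have hqF : ∀ v ∈ F3 ++ d1 :: s, v ≠ q := by
      intro v hv h0
      subst h0
      exact hq (by simp only [List.mem_append] at hv ⊢; left; exact hv)
    have hear : IsP G ((d1 :: s) ++ x1 :: (Q2 ++ [q])) := by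
      refine hseg.glue hQp ?_
      intro v hv hv'
      rcases List.mem_append.1 hv with h1 | h1
      · rcases List.mem_cons.1 hv' with h2 | h2
        · subst h2
          exact dj hnd.2.2 (a := v) (by rw [hQ]; simp [h1]) (by simp [hd1])
        · exact hF1 v (by simp [h2]) (by rw [hQ]; simp [h1])
      · have : v = q := by simpa using h1
        exact hqF v (by simp only [List.mem_append]; right; exact hv') this
    have hcyc : IsCyc G (q :: D1 ++ d1 :: D2) := by
      have := hd.cyc_right
      rw [hD] at this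
      simpa using this
    have hear' : IsP G (q :: (s ++ x1 :: Q2).reverse ++ [d1]) := by
      have := hear.reverse
      simpa using this
    have hdis : ∀ v ∈ (s ++ x1 :: Q2).reverse, v ∉ (q :: D1 ++ d1 :: D2) := by
      intro v hv hv'
      have hv2 : v = q ∨ v ∈ D := by
        rw [hD]
        simp only [List.mem_cons, List.mem_append] at hv' ⊢
        tauto
      rw [List.mem_reverse] at hv
      rcases List.mem_append.1 hv with h1 | h1
      · rcases hv2 with h2 | h2
        · exact hqF v (by simp [h1]) h2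
        · exact hs v h1 h2
      · have hAM : v ∈ A ++ M := by rw [hQ]; simp only [List.mem_append]; right; exact h1
        rcases hv2 with h2 | h2
        · exact dj hnd.2.2 hAM (by simp [h2])
        · exact dj hnd.2.2 hAM (by simp [h2])
    have hoff : ∀ v, v ∈ (q :: D1 ++ d1 :: D2) ∨ v ∈ (s ++ x1 :: Q2).reverse → ¬ Z v := by
      intro v hv
      rcases hv with h1 | h1
      · apply hX
        rw [hD]
        simp only [List.mem_cons, List.mem_append] at h1 ⊢
        tauto
      · rw [List.mem_reverse] at h1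
        rcases List.mem_append.1 h1 with h2 | h2
        · exact hFZ v (by simp [h2])
        · apply hX
          have hAM : v ∈ A ++ M := by rw [hQ]; simp only [List.mem_append]; right; exact h2
          simp only [List.mem_append] at hAM ⊢
          tauto
    rcases Nat.even_or_odd' (q :: D1 ++ d1 :: D2).length with ⟨r, hr | hr⟩
    · have h3 := hcyc.2.2
      obtain ⟨y, hy, hy'⟩ := hne _ r hcyc hr (by omega)
      exact hoff y (Or.inl hy) hy'
    · obtain ⟨Y, r', hY, hYl, hr2, -, hYm⟩ := hcyc.even_of_ear hear' hdis (by simp) ⟨r, hr⟩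
      obtain ⟨y, hy, hy'⟩ := hne _ r' hY hYl hr2
      exact hoff y (hYm y hy) hy'
  · push Not at hc
    have hFD : ∃ v ∈ F, v ∈ D := by
      cases F with
      | nil => exact absurd rfl hFn
      | cons v F => exact ⟨v, by simp, hF0 v (by simp)⟩
    obtain ⟨F1, d, t, rfl, hd1, ht⟩ := exists_last (fun v => v ∈ D) F hFD
    obtain ⟨D1, D2, hD⟩ := List.append_of_mem hd1
    refine ⟨D1, D2, t, d, z1, hD, hF.of_suffix ⟨F1, by simp⟩, hz1, ?_⟩
    intro v hv
    refine ⟨hFZ v (by simp [hv]), ?_⟩
    intro hv'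
    simp only [List.mem_append, List.mem_singleton] at hv'
    rcases hv' with (h1 | h1 | h1) | h1
    · exact hc v (by simp [hv]) (by simp [h1])
    · exact hc v (by simp [hv]) (by simp [h1])
    · subst h1
      exact hq (by simp [hv])
    · exact ht v hv h1

/-- the gate lemma: some inner vertex `d` of the second cycle of a dumbbell is joined to the `(k+1)`-cycle outside
the dumbbell -/
theorem PK.gate (h : PK G k) (hk : 3 ≤ k) {z : List V} (hz : IsCyc G z) (hzl : z.length = k + 1)
    {A M D : List V} {q : V}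
    (hne : ∀ (Y : List V) (r : ℕ), IsCyc G Y → Y.length = 2 * r → 2 ≤ r → ∃ y ∈ Y, y ∈ z)
    (hd : Dumb G A (M ++ [q]) D) (hX : ∀ v ∈ A ++ (M ++ [q]) ++ D, v ∉ z) :
    ∃ (D1 D2 t : List V) (d z0 : V), D = D1 ++ d :: D2 ∧ IsP G (d :: t ++ [z0]) ∧ z0 ∈ z ∧
      ∀ v ∈ t, v ∉ z ∧ v ∉ A ++ (M ++ [q]) ++ D := by
  obtain ⟨u, v, D', hD⟩ : ∃ u v D', D = u :: v :: D' := by
    have := hd.2.2.1
    rcases D with _ | ⟨u, _ | ⟨v, D'⟩⟩
    · simp at this
    · simp at this
    · exact ⟨u, v, D', rfl⟩
  have huD : u ∈ D := by rw [hD]; simp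
  have hvD : v ∈ D := by rw [hD]; simp
  have hadj : G.Adj u v := by
    have h1 : IsP G (u :: v :: D') := by
      rw [← hD]; exact hd.1.right
    exact (isP_cons.1 h1).2.2 v (by simp)
  obtain ⟨w, hw, hwl, hwh, hwt⟩ := h.exists_cyc (by omega) hadj
  obtain ⟨a, b, -, ha, -, haw, -⟩ := h.two_le_inter hk hz hzl hw hwl
  obtain ⟨F, z1, R, hw1, hz1, hF⟩ := exists_first (fun x => x ∈ z) w ⟨a, haw, ha⟩
  obtain ⟨R', z2, B, hw2, hz2, hB⟩ := exists_last (fun x => x ∈ z) w ⟨a, haw, ha⟩
  have hvz : v ∉ z := hX v (by simp [hvD])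
  have huz : u ∉ z := hX u (by simp [huD])
  have hFn : F ≠ [] := by
    intro h0
    subst h0
    rw [hw1] at hwh
    simp at hwh
    subst hwh
    exact hvz hz1
  have hBn : B ≠ [] := by
    intro h0
    subst h0
    rw [hw2] at hwt
    simp at hwt
    subst hwt
    exact huz hz2
  have hFh : F.head? = some v := by
    rw [hw1, List.head?_append_of_ne_nil _ hFn] at hwh
    exact hwh
  have hBt : B.getLast? = some u := by
    rw [hw2, show R' ++ z2 :: B = (R' ++ [z2]) ++ B by simp, List.getLast?_append_of_ne_nil _ hBn] at hwt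
    exact hwt
  have hFB : F.Disjoint B := by
    -- `F` is a prefix of `R'`
    have hlen : F.length ≤ R'.length := by
      by_contra hcon
      push Not at hcon
      have h1 : w[R'.length]? = some z2 := by rw [hw2]; simp
      have h2 : z2 ∈ F := by
        rw [hw1, List.getElem?_append_left hcon] at h1
        exact List.mem_of_getElem? h1
      exact hF z2 h2 hz2
    have hFR : F <+: R' := by
      rw [List.prefix_iff_eq_take]
      have h1 : F = w.take F.length := by rw [hw1]; simp
      have h2 : w.take F.length = R'.take F.length := by rw [hw2, List.take_append_of_le_length hlen]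
      rw [← h2, ← h1]
    have hnd := hw.isP.1
    rw [hw2, List.nodup_append'] at hnd
    intro x hx hx'
    exact hnd.2.2 (hFR.subset hx) (by simp [hx'])
  by_cases hqF : q ∈ F
  · have hqB : q ∉ B := fun hqB => hFB hqF hqB
    refine gate_aux (F := B.reverse) (z1 := z2) (Z := fun x => x ∈ z) hne hd hX ?_ ?_ (by simpa using hBn)
      (by simpa using hqB) ?_ hz2
    · have h1 : IsP G (z2 :: B) := hw.isP.of_suffix ⟨R', by rw [hw2]⟩
      have := h1.reverse
      simpa using this
    · intro x hx
      rw [List.head?_reverse, hBt] at hx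
      have : x = u := by simpa using hx.symm
      subst this; exact huD
    · intro x hx
      exact hB x (by simpa using hx)
  · refine gate_aux (F := F) (z1 := z1) (Z := fun x => x ∈ z) hne hd hX ?_ ?_ hFn hqF hF hz1
    · exact hw.isP.of_prefix ⟨R, by rw [hw1]; simp⟩
    · intro x hx
      rw [hFh] at hx
      have : x = v := by simpa using hx.symm
      subst this; exact hvD

end Pool.Agent.Work.KZ
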