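import Pool.Agent.Work.MP_f0e709_co.T3b

/-! Part (3) of the theorem on long even cycles: an even cycle `Z` with `k + 1 ≤ |Z| ≤ 2k` such that all branch
vertices lie on `Z`, all ears are of odd type and no two ears cross does not exist. -/

set_option autoImplicit false

namespace Pool.Agent.Work.KZ

variable {V : Type*} {G : SimpleGraph V} {k : ℕ}

theorem split_unique {α : Type*} {x : α} : ∀ {a b c d : List α}, a ++ x :: b = c ++ x :: d → x ∉ a → x ∉ c →
    a = c ∧ b = d := by
  intro a
  induction a with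
  | nil =>
    intro b c d he _ hc
    cases c with
    | nil => simpa using he
    | cons y c => simp at he; exact absurd (by simp [he.1]) hc
  | cons y a ih =>
    intro b c d he ha hc
    cases c with
    | nil => simp at he; exact absurd (by simp [he.1]) ha
    | cons y' c =>
      simp at he
      have := ih he.2 (fun h => ha (by simp [h])) (fun h => hc (by simp [h]))
      exact ⟨by rw [he.1, this.1], this.2⟩

theorem split_NB {v v' : V} : ∀ {a b a' b' : List V}, a ++ v :: b = a' ++ v' :: b' → (∀ w ∈ a, NB G w) →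
    (∀ w ∈ a', NB G w) → ¬ NB G v → ¬ NB G v' → a = a' ∧ v = v' ∧ b = b' := by
  intro a
  induction a with
  | nil =>
    intro b a' b' he _ ha' hv _
    cases a' with
    | nil => simp at he; exact ⟨rfl, he.1, he.2⟩
    | cons y c => simp at he; exact absurd (ha' v (by simp [he.1])) hv
  | cons y a ih =>
    intro b a' b' he ha ha' hv hv'
    cases a' with
    | nil => simp at he; exact absurd (ha v' (by simp [he.1])) hv'
    | cons y' c =>
      simp at he
      have := ih he.2 (fun w hw => ha w (by simp [hw])) (fun w hw => ha' w (by simp [hw])) hv hv'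
      exact ⟨by rw [he.1, this.1], this.2⟩

theorem IsP.head_adj {x y : V} {m : List V} (hm : IsP G (x :: m ++ [y])) {n : V}
    (hn : (m ++ [y]).head? = some n) : G.Adj x n := by
  have h1 : IsP G (x :: (m ++ [y])) := by simpa using hm
  exact (isP_cons.1 h1).2.2 n (by rw [hn]; rfl)

/-- an arc lies on a `(k+1)`-cycle -/
theorem PK.arc_cyc (h : PK G k) (hk : 3 ≤ k) {x y : V} {m : List V} (hm : IsP G (x :: m ++ [y]))
    (hN : ∀ v ∈ m, NB G v) : ∃ R, IsCyc G (x :: m ++ y :: R) ∧ (x :: m ++ y :: R).length = k + 1 := by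
  obtain ⟨n, A, hA⟩ : ∃ α A, m ++ [y] = α :: A := List.exists_cons_of_ne_nil (by simp)
  have hxn : G.Adj x n := hm.head_adj (by rw [hA]; rfl)
  obtain ⟨w, l, hl, hll⟩ := h.partner_exists hk hxn
  obtain ⟨R, hR⟩ := arc_start (c := n :: (l ++ [w])) hm hN (by simpa using hl) (by rw [hA]; rfl)
  have e : x :: m ++ y :: R = x :: n :: (l ++ [w]) := by rw [hR]; rfl
  exact ⟨R, by rw [e]; exact hl, by rw [e]; simp; omega⟩

/-- the start of an ear is a branch vertex -/
theorem not_NB_of_ear {c d : V} {a b e : List V} (hz : IsCyc G (c :: a ++ d :: b))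
    (he : IsP G (c :: e ++ [d])) (hdis : ∀ x ∈ e, x ∉ c :: a ++ d :: b)
    (hne : e = [] → a ≠ [] ∧ b ≠ []) : ¬ NB G c := by
  intro hN
  obtain ⟨α, A, hA⟩ : ∃ α A, a ++ [d] = α :: A := List.exists_cons_of_ne_nil (by simp)
  obtain ⟨β, B, hB⟩ : ∃ α A, b.reverse ++ [d] = α :: A := List.exists_cons_of_ne_nil (by simp)
  obtain ⟨γ, C, hC⟩ : ∃ α A, e ++ [d] = α :: A := List.exists_cons_of_ne_nil (by simp)
  have h1 : IsP G (c :: a ++ [d]) := hz.isP.of_prefix ⟨b, by simp⟩
  have h2 : IsP G (c :: b.reverse ++ [d]) := hz.flip.isP.of_prefix ⟨a.reverse, by simp⟩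
  have a1 := h1.head_adj (by rw [hA]; rfl)
  have a2 := h2.head_adj (by rw [hB]; rfl)
  have a3 := he.head_adj (by rw [hC]; rfl)
  have hnd := hz.isP.1
  rw [List.nodup_append'] at hnd
  have hα : α ∈ a ++ [d] := by rw [hA]; simp
  have hβ : β ∈ b.reverse ++ [d] := by rw [hB]; simp
  have hγ : γ ∈ e ++ [d] := by rw [hC]; simp
  rcases hN α β γ a1 a2 a3 with h | h | h
  · subst h
    simp only [List.mem_append, List.mem_reverse, List.mem_singleton] at hα hβ
    rcases hα with h3 | h3
    · rcases hβ with h4 | h4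
      · exact dj hnd.2.2 (a := α) (by simp [h3]) (by simp [h4])
      · exact dj hnd.2.2 (a := α) (by simp [h3]) (by simp [h4])
    · subst h3
      have ea : a = [] := by
        cases a with
        | nil => rfl
        | cons a0 a =>
          exfalso
          simp at hA
          exact dj hnd.2.2 (a := α) (by simp [hA.1]) (by simp)
      have eb : b = [] := by
        rcases List.eq_nil_or_concat b with h0 | ⟨b', b0, h0⟩
        · exact h0
        · exfalso
          rw [List.concat_eq_append] at h0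
          subst h0
          simp at hB
          have := (List.nodup_cons.1 hnd.2.1).1
          exact this (by simp [hB.1])
      subst ea; subst eb
      have := hz.2.2
      simp at this
  · subst h
    simp only [List.mem_append, List.mem_singleton] at hα hγ
    rcases hγ with h3 | h3
    · exact hdis α h3 (by simp only [List.mem_cons, List.mem_append]; tauto)
    · have he0 : e = [] := by
        cases e with
        | nil => rfl
        | cons e0 e =>
          exfalso
          simp at hC
          have := he.1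
          rw [List.nodup_append'] at this
          exact dj this.2.2 (a := e0) (by simp) (by simp [hC.1, h3])
      have ha0 := (hne he0).1
      cases a with
      | nil => exact ha0 rfl
      | cons a0 a =>
        simp at hA
        exact dj hnd.2.2 (a := α) (by simp [hA.1]) (by simp [h3])
  · subst h
    simp only [List.mem_append, List.mem_reverse, List.mem_singleton] at hβ hγ
    rcases hγ with h3 | h3
    · exact hdis β h3 (by simp only [List.mem_cons, List.mem_append]; tauto)
    · have he0 : e = [] := by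
        cases e with
        | nil => rfl
        | cons e0 e =>
          exfalso
          simp at hC
          have := he.1
          rw [List.nodup_append'] at this
          exact dj this.2.2 (a := e0) (by simp) (by simp [hC.1, h3])
      have hb0 := (hne he0).2
      rcases List.eq_nil_or_concat b with h0 | ⟨b', b0, h0⟩
      · exact hb0 h0
      · rw [List.concat_eq_append] at h0
        subst h0
        simp at hB
        have := (List.nodup_cons.1 hnd.2.1).1
        exact this (by simp [hB.1, h3])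

/-- two ears of `Z` with the same ends, of the same parity -/
theorem PK.digon (h : PK G k) (hk : 3 ≤ k) {x y : V} {m1 m2 a b : List V}
    (hZ : IsCyc G (x :: a ++ y :: b)) (hZl : k + 1 ≤ (x :: a ++ y :: b).length)
    (h1 : IsP G (x :: m1 ++ [y])) (h2 : IsP G (x :: m2 ++ [y])) (hN1 : ∀ v ∈ m1, NB G v)
    (hN2 : ∀ v ∈ m2, NB G v) (hZ1 : ∀ v ∈ m1, v ∉ x :: a ++ y :: b) (hZ2 : ∀ v ∈ m2, v ∉ x :: a ++ y :: b)
    (hdis : m1.Disjoint m2) (hpar : Even (m1.length + m2.length)) (hle : m1.length ≤ m2.length)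
    (hne : (m1 ++ [y]).head? ≠ (m2 ++ [y]).head?) : False := by
  obtain ⟨R, hC, hCl⟩ := h.arc_cyc hk h1 hN1
  obtain ⟨R2, hD, hDl⟩ := h.arc_cyc hk h2 hN2
  obtain ⟨s, hs⟩ := hpar
  have hm2 : m2 ≠ [] := by
    rintro rfl
    simp at hle
    subst hle
    simp at hne
  have hxy2 : x ∉ m2 ∧ y ∉ m2 := by
    have := h2.1
    constructor
    · intro hx; simp [hx] at this
    · intro hy
      rw [List.nodup_append'] at this
      exact dj this.2.2 (a := y) (by simp [hy]) (by simp)
  by_cases hR : ∃ v ∈ m2, v ∈ R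
  · obtain ⟨v, hv, hvR⟩ := hR
    obtain ⟨R', hR'⟩ := arc_mem (c := m1 ++ y :: R) h2 hN2 (by simpa using hC) hv (by simp [hvR])
    rcases hR' with hR' | hR'
    · apply hne
      have h3 := congrArg List.head? hR'
      cases m1 <;> cases m2 <;> simp at h3 ⊢ <;> exact h3
    · have hnd := hC.isP.1
      rw [List.nodup_append'] at hnd
      have hyR : y ∉ R.reverse := by
        have := (List.nodup_cons.1 hnd.2.1).1
        simpa using this
      have e0 : R.reverse ++ y :: m1.reverse = m2 ++ y :: R' := by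
        rw [← hR']; simp
      have e1 := (split_unique e0 hyR hxy2.2).1
      have e2 : R = m2.reverse := by rw [← e1]; simp
      subst e2
      -- tail along Z
      have hab : k + 1 ≤ a.length + b.length + 2 := by simp at hZl; omega
      have hkl : m1.length + m2.length + 2 = k + 1 := by simp at hCl; omega
      have hndZ := hZ.isP.1
      have hodd : ∃ r, k + 1 = 2 * r := ⟨s + 1, by omega⟩
      obtain ⟨r, hr⟩ := hodd
      rcases Nat.le_total b.length a.length with hba | hba
      · refine h.even_rule (r := r) (by omega) (by omega) (p := x) (z' := m1 ++ y :: m2.reverse)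
          (t := a.take (k - r)) (by simpa using hC) (by simpa using (hCl.trans hr)) ?_ ?_ ?_
        · have : IsP G (x :: a) := hZ.isP.of_prefix ⟨y :: b, by simp⟩
          have := this.take (k - r + 1)
          simpa using this
        · intro w hw hw'
          have hwa := List.mem_of_mem_take hw
          simp only [List.mem_append, List.mem_cons, List.mem_reverse] at hw'
          rcases hw' with h3 | h3 | h3
          · exact hZ1 w h3 (by simp [hwa])
          · subst h3
            rw [List.nodup_append'] at hndZ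
            exact dj hndZ.2.2 (a := w) (by simp [hwa]) (by simp)
          · exact hZ2 w h3 (by simp [hwa])
        · rw [List.length_take]; omega
      · refine h.even_rule (r := r) (by omega) (by omega) (p := x) (z' := m1 ++ y :: m2.reverse)
          (t := b.reverse.take (k - r)) (by simpa using hC) (by simpa using (hCl.trans hr)) ?_ ?_ ?_
        · have : IsP G (x :: b.reverse) := hZ.flip.isP.of_prefix ⟨y :: a.reverse, by simp⟩
          have := this.take (k - r + 1)
          simpa using this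
        · intro w hw hw'
          have hwa := List.mem_of_mem_take hw
          rw [List.mem_reverse] at hwa
          simp only [List.mem_append, List.mem_cons, List.mem_reverse] at hw'
          rcases hw' with h3 | h3 | h3
          · exact hZ1 w h3 (by simp [hwa])
          · subst h3
            rw [List.nodup_append'] at hndZ
            exact (List.nodup_cons.1 hndZ.2.1).1 hwa
          · exact hZ2 w h3 (by simp [hwa])
        · rw [List.length_take, List.length_reverse]; omega
  · push Not at hR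
    refine h.ear_rule (r := s + 1) hC hCl h2 ?_ (by omega) hle ?_ hm2
    · intro w hw hw'
      simp only [List.cons_append, List.mem_append, List.mem_cons] at hw'
      rcases hw' with h3 | h3 | h3 | h3
      · subst h3; exact hxy2.1 hw
      · exact hdis h3 hw
      · subst h3; exact hxy2.2 hw
      · exact hR w hw h3
    · simp at hCl hDl; omega

/-- four arcs at `x`, two to `y` and two to `z` -/
structure Four (G : SimpleGraph V) (x y z : V) (p1 p2 q1 q2 : List V) (g1 g2 h1 h2 : V) : Prop where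
  P1 : IsP G (x :: p1 ++ [y])
  P2 : IsP G (x :: p2 ++ [y])
  Q1 : IsP G (x :: q1 ++ [z])
  Q2 : IsP G (x :: q2 ++ [z])
  N1 : ∀ v ∈ p1, NB G v
  N2 : ∀ v ∈ p2, NB G v
  N3 : ∀ v ∈ q1, NB G v
  N4 : ∀ v ∈ q2, NB G v
  d12 : p1.Disjoint p2
  d13 : p1.Disjoint q1
  d14 : p1.Disjoint q2
  d23 : p2.Disjoint q1
  d24 : p2.Disjoint q2
  d34 : q1.Disjoint q2
  yz : y ≠ z
  y3 : y ∉ q1
  y4 : y ∉ q2
  z1 : z ∉ p1
  z2 : z ∉ p2
  G1 : (p1 ++ [y]).head? = some g1
  G2 : (p2 ++ [y]).head? = some g2
  H1 : (q1 ++ [z]).head? = some h1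
  H2 : (q2 ++ [z]).head? = some h2
  gg : g1 ≠ g2
  g1h1 : g1 ≠ h1
  g1h2 : g1 ≠ h2
  g2h1 : g2 ≠ h1
  g2h2 : g2 ≠ h2
  hh : h1 ≠ h2

theorem Four.swap {x y z : V} {p1 p2 q1 q2 : List V} {g1 g2 h1 h2 : V}
    (F : Four G x y z p1 p2 q1 q2 g1 g2 h1 h2) : Four G x y z p2 p1 q2 q1 g2 g1 h2 h1 :=
  ⟨F.P2, F.P1, F.Q2, F.Q1, F.N2, F.N1, F.N4, F.N3, F.d12.symm, F.d24, F.d23, F.d14, F.d13, F.d34.symm,
    F.yz, F.y4, F.y3, F.z2, F.z1, F.G2, F.G1, F.H2, F.H1, F.gg.symm, F.g2h2, F.g2h1, F.g1h2, F.g1h1, F.hh.symm⟩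

theorem Four.swapq {x y z : V} {p1 p2 q1 q2 : List V} {g1 g2 h1 h2 : V}
    (F : Four G x y z p1 p2 q1 q2 g1 g2 h1 h2) : Four G x y z p1 p2 q2 q1 g1 g2 h2 h1 :=
  ⟨F.P1, F.P2, F.Q2, F.Q1, F.N1, F.N2, F.N4, F.N3, F.d12, F.d14, F.d13, F.d24, F.d23, F.d34.symm,
    F.yz, F.y4, F.y3, F.z1, F.z2, F.G1, F.G2, F.H2, F.H1, F.gg, F.g1h2, F.g1h1, F.g2h2, F.g2h1, F.hh.symm⟩

/-- the `(k+1)`-cycle through the arcs `p1` and `q1` -/
theorem Four.cyc {x y z : V} {p1 p2 q1 q2 : List V} {g1 g2 h1 h2 : V}
    (F : Four G x y z p1 p2 q1 q2 g1 g2 h1 h2) (hP : Partner G k x g1 h1) :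
    ∃ C, IsCyc G (x :: p1 ++ y :: C ++ z :: q1.reverse) ∧
      (x :: p1 ++ y :: C ++ z :: q1.reverse).length = k + 1 ∧ C.Disjoint p2 ∧ C.Disjoint q2 := by
  obtain ⟨m, hm, hml⟩ := hP
  have hm' : IsCyc G (x :: (g1 :: (m ++ [h1])).reverse) := hm.cons_reverse
  obtain ⟨R, hR⟩ := arc_start (c := g1 :: (m ++ [h1])) F.P1 F.N1 hm (by rw [F.G1]; rfl)
  obtain ⟨R2, hR2⟩ := arc_start (c := (g1 :: (m ++ [h1])).reverse) F.Q1 F.N3 hm' (by rw [F.H1]; simp)
  have hcc : p1 ++ y :: R = R2.reverse ++ z :: q1.reverse := by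
    rw [← hR]
    have := congrArg List.reverse hR2
    rw [List.reverse_reverse] at this
    rw [this]; simp
  have hnd : (p1 ++ y :: R).Nodup := by rw [← hR]; exact (List.nodup_cons.1 hm.isP.1).2
  have hyp1 : y ∉ p1 := by
    intro hy
    rw [List.nodup_append'] at hnd
    exact hnd.2.2 hy (by simp)
  have hyR2 : y ∈ R2.reverse := by
    have h3 : y ∈ R2.reverse ++ z :: q1.reverse := by rw [← hcc]; simp
    simp only [List.mem_append, List.mem_cons, List.mem_reverse] at h3
    rcases h3 with h4 | h4 | h4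
    · simpa using h4
    · exact absurd h4 F.yz
    · exact absurd h4 F.y3
  obtain ⟨P, C, hPC⟩ := List.append_of_mem hyR2
  have hcc2 : p1 ++ y :: R = P ++ y :: (C ++ z :: q1.reverse) := by
    rw [hcc, hPC]; simp
  have hyP : y ∉ P := by
    intro hy
    rw [hcc2, List.nodup_append'] at hnd
    exact hnd.2.2 hy (by simp)
  obtain ⟨e1, e2⟩ := split_unique hcc2 hyp1 hyP
  have e3 : g1 :: (m ++ [h1]) = p1 ++ y :: (C ++ z :: q1.reverse) := by rw [hR, e2]
  have hcyc : IsCyc G (x :: (p1 ++ y :: (C ++ z :: q1.reverse))) := by rw [← e3]; exact hm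
  have hno : ∀ (q : List V) (v w g : V), IsP G (x :: q ++ [v]) → (∀ u ∈ q, NB G u) →
      (q ++ [v]).head? = some g → g1 ≠ g → h1 ≠ g → w ∈ q → w ∈ C → False := by
    intro q v w g hq hqN hqh hg1 hh1 hwq hwC
    obtain ⟨R', hR'⟩ := arc_mem (c := g1 :: (m ++ [h1])) hq hqN hm hwq (by rw [e3]; simp [hwC])
    have hhd : (q ++ v :: R').head? = some g := by
      rw [← hqh]; cases q <;> simp
    rcases hR' with h3 | h3
    · rw [← h3] at hhd
      simp at hhd
      exact hg1 hhd
    · rw [← h3] at hhd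
      simp at hhd
      exact hh1 hhd
  refine ⟨C, by simpa using hcyc, ?_, ?_, ?_⟩
  · have := congrArg List.length e3
    simp at this ⊢; omega
  · intro w hw hw'
    exact hno p2 y w g2 F.P2 F.N2 F.G2 F.gg F.g2h1.symm hw' hw
  · intro w hw hw'
    exact hno q2 z w h2 F.Q2 F.N4 F.H2 F.g1h2 F.hh hw' hw

theorem Four.cross {x y z : V} {p1 p2 q1 q2 : List V} {g1 g2 h1 h2 : V}
    (F : Four G x y z p1 p2 q1 q2 g1 g2 h1 h2) (h : PK G k) (hk : 3 ≤ k) (hP : Partner G k x g1 h1)
    (hQ : Partner G k x g2 h2) (ho1 : Odd (p1.length + p2.length)) (ho2 : Odd (q1.length + q2.length)) :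
    False := by
  obtain ⟨C, hC, hCl, hC1, hC2⟩ := F.cyc hP
  obtain ⟨D, hD, hDl, hD1, hD2⟩ := F.swap.cyc hQ
  refine h.fig8 (by omega) hC hCl hD hDl F.d12 ?_ ?_ ?_ hC1 ?_ hD1 ?_ ho1 (by simpa using ho2)
  · intro w hw hw'; exact F.d14 hw (by simpa using hw')
  · intro w hw hw'; exact F.d23 hw (by simpa using hw')
  · intro w hw hw'; exact F.d34 (a := w) (by simpa using hw) (by simpa using hw')
  · intro w hw hw'; exact hC2 hw (by simpa using hw')
  · intro w hw hw'; exact hD2 hw (by simpa using hw')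

theorem Four.same {x y z : V} {p1 p2 q1 q2 : List V} {g1 g2 h1 h2 : V}
    (F : Four G x y z p1 p2 q1 q2 g1 g2 h1 h2) (h : PK G k) (hk : 3 ≤ k) (hP : Partner G k x g1 g2)
    (hQ : Partner G k x h1 h2) : False := by
  have key : ∀ (y : V) (p1 p2 : List V) (g1 g2 : V), IsP G (x :: p1 ++ [y]) → IsP G (x :: p2 ++ [y]) →
      (∀ v ∈ p1, NB G v) → (∀ v ∈ p2, NB G v) → (p1 ++ [y]).head? = some g1 →
      (p2 ++ [y]).head? = some g2 → Partner G k x g1 g2 →
      IsCyc G (x :: p1 ++ y :: p2.reverse) ∧ (x :: p1 ++ y :: p2.reverse).length = k + 1 := by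
    intro y p1 p2 g1 g2 P1 P2 N1 N2 G1 G2 hP
    obtain ⟨m, hm, hml⟩ := hP
    have hm' : IsCyc G (x :: (g1 :: (m ++ [g2])).reverse) := hm.cons_reverse
    obtain ⟨R, hR⟩ := arc_start (c := g1 :: (m ++ [g2])) P1 N1 hm (by rw [G1]; rfl)
    obtain ⟨R2, hR2⟩ := arc_start (c := (g1 :: (m ++ [g2])).reverse) P2 N2 hm' (by rw [G2]; simp)
    have hnd : (p1 ++ y :: R).Nodup := by rw [← hR]; exact (List.nodup_cons.1 hm.isP.1).2
    rw [List.nodup_append'] at hnd
    have e0 : R.reverse ++ y :: p1.reverse = p2 ++ y :: R2 := by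
      rw [← hR2, hR]; simp
    have hyR : y ∉ R.reverse := by
      have := (List.nodup_cons.1 hnd.2.1).1
      simpa using this
    have hy2 : y ∉ p2 := by
      intro hy
      have := P2.1
      rw [List.nodup_append'] at this
      exact dj this.2.2 (a := y) (by simp [hy]) (by simp)
    have e1 := (split_unique e0 hyR hy2).1
    have e2 : R = p2.reverse := by rw [← e1]; simp
    subst e2
    have e3 : x :: p1 ++ y :: p2.reverse = x :: (g1 :: (m ++ [g2])) := by rw [hR]; rfl
    rw [e3]
    exact ⟨hm, by simp; omega⟩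
  obtain ⟨hC, hCl⟩ := key y p1 p2 g1 g2 F.P1 F.P2 F.N1 F.N2 F.G1 F.G2 hP
  obtain ⟨hD, hDl⟩ := key z q1 q2 h1 h2 F.Q1 F.Q2 F.N3 F.N4 F.H1 F.H2 hQ
  obtain ⟨α, β, hαβ, a1, b1, a2, b2⟩ := h.two_le_inter hk hC hCl hD hDl
  have hone : ∀ w, w ∈ (x :: p1 ++ y :: p2.reverse) → w ∈ (x :: q1 ++ z :: q2.reverse) → w = x := by
    intro w hw hw'
    simp only [List.cons_append, List.mem_cons, List.mem_append, List.mem_reverse] at hw hw'
    by_contra hwx
    rcases hw with h3 | h3 | h3 | h3
    · exact hwx h3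
    · rcases hw' with h4 | h4 | h4 | h4
      · exact hwx h4
      · exact F.d13 h3 h4
      · subst h4; exact F.z1 h3
      · exact F.d14 h3 h4
    · subst h3
      rcases hw' with h4 | h4 | h4 | h4
      · exact hwx h4
      · exact F.y3 h4
      · exact F.yz h4
      · exact F.y4 h4
    · rcases hw' with h4 | h4 | h4 | h4
      · exact hwx h4
      · exact F.d23 h3 h4
      · subst h4; exact F.z2 h3
      · exact F.d24 h3 h4
  exact hαβ ((hone α a1 a2).trans (hone β b1 b2).symm)

end Pool.Agent.Work.KZ
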