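import Pool.Agent.Work.MP_f0e709_co.M1b

/-! Arcs (paths whose inner vertices have at most two neighbours), the digon rule and the figure 8 rule. -/

set_option autoImplicit false

namespace Pool.Agent.Work.KZ

variable {V : Type*} {G : SimpleGraph V} {k : ℕ}

/-- `w` has at most two neighbours -/
def NB (G : SimpleGraph V) (w : V) : Prop :=
  ∀ a b c, G.Adj w a → G.Adj w b → G.Adj w c → a = b ∨ a = c ∨ b = c

/-- two arcs which start in the same way and whose ends are not inner vertices of the other one coincide -/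
theorem path_eq {w u v : V} {P Q : List V} (hP : IsP G (w :: P ++ [u])) (hQ : IsP G (w :: Q ++ [v]))
    (hN : ∀ x ∈ P, NB G x) (hv : v ∉ P) (hu : u ∉ Q) (hh : (P ++ [u]).head? = (Q ++ [v]).head?) :
    P = Q ∧ u = v := by
  induction P generalizing w Q with
  | nil =>
    cases Q with
    | nil => simp at hh; exact ⟨rfl, hh⟩
    | cons q Q => simp at hh; exact absurd (by simp [hh]) hu
  | cons p P ih =>
    cases Q with
    | nil => simp at hh; exact absurd (by simp [hh]) hv
    | cons q Q =>
      have hpq : p = q := by simpa using hh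
      subst hpq
      have hP' : IsP G (p :: P ++ [u]) := hP.of_suffix ⟨[w], by simp⟩
      have hQ' : IsP G (p :: Q ++ [v]) := hQ.of_suffix ⟨[w], by simp⟩
      have hP1 : IsP G (w :: (p :: P ++ [u])) := by simpa using hP
      have hQ1 : IsP G (w :: (p :: Q ++ [v])) := by simpa using hQ
      rw [isP_cons] at hP1 hQ1
      have hwp : G.Adj w p := hP1.2.2 p (by simp)
      obtain ⟨α, A, hA⟩ : ∃ α A, P ++ [u] = α :: A := List.exists_cons_of_ne_nil (by simp)
      obtain ⟨β, B, hB⟩ : ∃ β B, Q ++ [v] = β :: B := List.exists_cons_of_ne_nil (by simp)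
      have hpα : G.Adj p α := by
        have h1 : IsP G (p :: (P ++ [u])) := by simpa using hP'
        exact (isP_cons.1 h1).2.2 α (by rw [hA]; simp)
      have hpβ : G.Adj p β := by
        have h1 : IsP G (p :: (Q ++ [v])) := by simpa using hQ'
        exact (isP_cons.1 h1).2.2 β (by rw [hB]; simp)
      have hαβ : α = β := by
        rcases hN p (by simp) w α β hwp.symm hpα hpβ with h | h | h
        · exfalso
          subst h
          have : w ∈ P ++ [u] := by rw [hA]; simp
          exact hP1.1 (by simp at this ⊢; tauto)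
        · exfalso
          subst h
          have : w ∈ Q ++ [v] := by rw [hB]; simp
          exact hQ1.1 (by simp at this ⊢; tauto)
        · exact h
      obtain ⟨h1, h2⟩ := ih hP' hQ' (fun x hx => hN x (by simp [hx])) (fun hx => hv (by simp [hx]))
        (fun hx => hu (by simp [hx])) (by rw [hA, hB, hαβ]; rfl)
      exact ⟨by rw [h1], h2⟩

/-- a cycle which contains the first edge of an arc contains the arc -/
theorem arc_start_aux {w y x₀ : V} {m c : List V} (hm : IsP G (w :: m ++ [y])) (hN : ∀ v ∈ m, NB G v)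
    (hc : IsP G (w :: c)) (hh : c.head? = (m ++ [y]).head?) (hl : ∀ l ∈ c.getLast?, G.Adj l x₀)
    (hx : x₀ ∉ m) (hy : m ≠ [] → x₀ ≠ y) (hx2 : x₀ ≠ w ∨ 2 ≤ c.length) : ∃ R, c = m ++ y :: R := by
  induction m generalizing w c with
  | nil =>
    cases c with
    | nil => simp at hh
    | cons a c => simp at hh; exact ⟨c, by rw [hh]; rfl⟩
  | cons p m ih =>
    cases c with
    | nil => simp at hh
    | cons a c =>
      have hpa : a = p := by simpa using hh
      subst hpa
      have hm1 : IsP G (w :: (a :: m ++ [y])) := by simpa using hm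
      have hm' : IsP G (a :: m ++ [y]) := hm.of_suffix ⟨[w], by simp⟩
      have hm'' : IsP G (a :: (m ++ [y])) := by simpa using hm'
      have hc' : IsP G (a :: c) := hc.of_suffix ⟨[w], by simp⟩
      rw [isP_cons] at hm1
      have hwa : G.Adj w a := hm1.2.2 a (by simp)
      obtain ⟨α, A, hA⟩ : ∃ α A, m ++ [y] = α :: A := List.exists_cons_of_ne_nil (by simp)
      have haα : G.Adj a α := (isP_cons.1 hm'').2.2 α (by rw [hA]; simp)
      have hwα : w ≠ α := by
        rintro rfl
        have : w ∈ m ++ [y] := by rw [hA]; simp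
        exact hm1.1 (by simp at this ⊢; tauto)
      have hx₀α : x₀ ≠ α := by
        rintro rfl
        have : x₀ ∈ m ++ [y] := by rw [hA]; simp
        rcases List.mem_append.1 this with h | h
        · exact hx (by simp [h])
        · exact hy (by simp) (by simpa using h)
      cases c with
      | nil =>
        exfalso
        have h1 : G.Adj a x₀ := hl a (by simp)
        have h2 : x₀ ≠ w := by
          rcases hx2 with h | h
          · exact h
          · simp at h
        rcases hN a (by simp) w α x₀ hwa.symm haα h1 with h | h | h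
        · exact hwα h
        · exact h2 h.symm
        · exact hx₀α h.symm
      | cons b c =>
        have hab : G.Adj a b := (isP_cons.1 hc').2.2 b (by simp)
        have hwb : w ≠ b := by
          rintro rfl
          have := hc.1
          simp at this
        have hαb : α = b := by
          rcases hN a (by simp) w α b hwa.symm haα hab with h | h | h
          · exact absurd h hwα
          · exact absurd h hwb
          · exact h
        obtain ⟨R, hR⟩ := ih hm' (fun v hv => hN v (by simp [hv])) hc'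
          (by rw [hA, hαb]; rfl)
          (by
            intro l hl'
            exact hl l (by simpa using hl'))
          (fun h => hx (by simp [h])) (fun _ => hy (by simp))
          (Or.inl (fun h => hx (by simp [h])))
        exact ⟨R, by rw [hR]; rfl⟩

/-- a cycle which contains the first edge of an arc contains the arc -/
theorem arc_start {x y : V} {m c : List V} (hm : IsP G (x :: m ++ [y])) (hN : ∀ v ∈ m, NB G v)
    (hc : IsCyc G (x :: c)) (hh : c.head? = (m ++ [y]).head?) : ∃ R, c = m ++ y :: R := by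
  have hm1 : IsP G (x :: (m ++ [y])) := by simpa using hm
  rw [isP_cons] at hm1
  have hlen : 2 ≤ c.length := by
    have := hc.2.2
    simp at this; omega
  refine arc_start_aux (x₀ := x) hm hN hc.isP hh ?_ ?_ ?_ (Or.inr hlen)
  · intro l hl
    refine hc.2.1 l ?_ x (by simp)
    have hcn : c ≠ [] := by rintro rfl; simp at hlen
    rw [show x :: c = [x] ++ c by rfl, List.getLast?_append_of_ne_nil _ hcn]
    exact hl
  · intro h; exact hm1.1 (by simp [h])
  · rintro _ rfl
    exact hm1.1 (by simp)

theorem IsCyc.cons_reverse {x : V} {c : List V} (h : IsCyc G (x :: c)) : IsCyc G (x :: c.reverse) := by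
  have h1 : IsCyc G (c ++ [x]) := IsCyc.rot (u := [x]) (by simpa using h)
  have h2 := h1.reverse
  simpa using h2

/-- a cycle through `x` which contains an inner vertex of an arc starting at `x` contains the arc -/
theorem arc_mem {x y w : V} {m c : List V} (hm : IsP G (x :: m ++ [y])) (hN : ∀ v ∈ m, NB G v)
    (hc : IsCyc G (x :: c)) (hwm : w ∈ m) (hwc : w ∈ c) :
    ∃ R, c = m ++ y :: R ∨ c.reverse = m ++ y :: R := by
  obtain ⟨m1, m2, rfl⟩ := List.append_of_mem hwm
  obtain ⟨c1, c2, rfl⟩ := List.append_of_mem hwc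
  have hxm : IsP G (x :: ((m1 ++ w :: m2) ++ [y])) := by simpa using hm
  rw [isP_cons] at hxm
  have hxc : IsP G (x :: (c1 ++ w :: c2)) := hc.isP
  rw [isP_cons] at hxc
  -- the arc backwards from w
  have hA : IsP G (w :: m1.reverse ++ [x]) := by
    have h1 : IsP G (x :: m1 ++ [w]) := hm.of_prefix ⟨m2 ++ [y], by simp⟩
    have := h1.reverse
    simpa using this
  have hB : IsP G (w :: c1.reverse ++ [x]) := by
    have h1 : IsP G (x :: c1 ++ [w]) := hc.isP.of_prefix ⟨c2, by simp⟩
    have := h1.reverse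
    simpa using this
  have hC : IsP G (w :: c2 ++ [x]) := by
    have h1 : IsCyc G ((w :: c2) ++ (x :: c1)) := IsCyc.rot (u := x :: c1) (by simpa using hc)
    exact h1.isP.of_prefix ⟨c1, by simp⟩
  have hNm : ∀ v ∈ m1.reverse, NB G v := fun v hv => hN v (by simp at hv ⊢; tauto)
  obtain ⟨α, A, hAe⟩ : ∃ α A, m1.reverse ++ [x] = α :: A := List.exists_cons_of_ne_nil (by simp)
  obtain ⟨β, B, hBe⟩ : ∃ β B, c1.reverse ++ [x] = β :: B := List.exists_cons_of_ne_nil (by simp)
  obtain ⟨γ, C, hCe⟩ : ∃ γ C, c2 ++ [x] = γ :: C := List.exists_cons_of_ne_nil (by simp)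
  have hwα : G.Adj w α := by
    have h1 : IsP G (w :: (m1.reverse ++ [x])) := by simpa using hA
    exact (isP_cons.1 h1).2.2 α (by rw [hAe]; simp)
  have hwβ : G.Adj w β := by
    have h1 : IsP G (w :: (c1.reverse ++ [x])) := by simpa using hB
    exact (isP_cons.1 h1).2.2 β (by rw [hBe]; simp)
  have hwγ : G.Adj w γ := by
    have h1 : IsP G (w :: (c2 ++ [x])) := by simpa using hC
    exact (isP_cons.1 h1).2.2 γ (by rw [hCe]; simp)
  have hβγ : β ≠ γ := by
    rintro rfl
    have hβ1 : β ∈ c1.reverse ++ [x] := by rw [hBe]; simp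
    have hγ1 : β ∈ c2 ++ [x] := by rw [hCe]; simp
    have hnd : (x :: (c1 ++ w :: c2)).Nodup := hc.isP.1
    have hnd2 := (List.nodup_cons.1 hnd).2
    rw [List.nodup_append'] at hnd2
    simp only [List.mem_append, List.mem_reverse, List.mem_singleton] at hβ1 hγ1
    rcases hβ1 with h1 | h1
    · rcases hγ1 with h2 | h2
      · exact hnd2.2.2 h1 (by simp [h2])
      · subst h2
        exact hxc.1 (by simp [h1])
    · rcases hγ1 with h2 | h2
      · subst h1
        exact hxc.1 (by simp [h2])
      · -- both c1 and c2 empty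
        subst h1
        have e1 : c1 = [] := by
          rcases List.eq_nil_or_concat c1 with h0 | ⟨c1', b, h0⟩
          · exact h0
          · exfalso
            rw [List.concat_eq_append] at h0
            subst h0
            simp at hBe
            exact hxc.1 (by simp [hBe.1])
        have e2 : c2 = [] := by
          cases c2 with
          | nil => rfl
          | cons b c2' =>
            exfalso
            simp at hCe
            exact hxc.1 (by simp [hCe.1])
        subst e1; subst e2
        have := hc.2.2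
        simp at this
  have hαcase : α = β ∨ α = γ := by
    rcases hN w (by simp) α β γ hwα hwβ hwγ with h | h | h
    · exact Or.inl h
    · exact Or.inr h
    · exact absurd h hβγ
  have hx1 : x ∉ m1.reverse := fun h => hxm.1 (by simp at h ⊢; tauto)
  rcases hαcase with h | h
  · have := path_eq hA hB hNm hx1 (fun h => hxc.1 (by simp at h ⊢; tauto)) (by rw [hAe, hBe, h]; rfl)
    have h2 : m1 = c1 := by simpa using this.1
    obtain ⟨R, hR⟩ := arc_start (c := c1 ++ w :: c2) hm hN hc (by rw [← h2]; cases m1 <;> simp)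
    exact ⟨R, Or.inl hR⟩
  · have := path_eq hA hC hNm hx1 (fun h => hxc.1 (by simp at h ⊢; tauto)) (by rw [hAe, hCe, h]; rfl)
    have h2 : m1.reverse = c2 := this.1
    have hc' := hc.cons_reverse
    obtain ⟨R, hR⟩ := arc_start (c := (c1 ++ w :: c2).reverse) hm hN hc' (by
      rw [← h2]
      simp)
    exact ⟨R, Or.inr hR⟩

/-- two ears of `Z` with a common inner vertex coincide -/
theorem ear_eq {S : V → Prop} {u1 v1 u2 v2 w : V} {m1 m2 : List V} (h1 : IsP G (u1 :: m1 ++ [v1]))
    (h2 : IsP G (u2 :: m2 ++ [v2])) (hu1 : S u1) (hv1 : S v1) (hu2 : S u2) (hv2 : S v2)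
    (hm1 : ∀ x ∈ m1, ¬ S x) (hm2 : ∀ x ∈ m2, ¬ S x) (hN : ∀ x ∈ m1, NB G x) (hw1 : w ∈ m1)
    (hw2 : w ∈ m2) :
    (m1 = m2 ∧ u1 = u2 ∧ v1 = v2) ∨ (m1 = m2.reverse ∧ u1 = v2 ∧ v1 = u2) := by
  obtain ⟨l1, r1, rfl⟩ := List.append_of_mem hw1
  obtain ⟨l2, r2, rfl⟩ := List.append_of_mem hw2
  have key : ∀ (l r : List V) (u v : V), IsP G (u :: (l ++ w :: r) ++ [v]) →
      IsP G (w :: l.reverse ++ [u]) ∧ IsP G (w :: r ++ [v]) ∧
      (∀ a ∈ (l.reverse ++ [u]).head?, ∀ b ∈ (r ++ [v]).head?, G.Adj w a ∧ G.Adj w b ∧ a ≠ b) := by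
    intro l r u v h
    have hA : IsP G (w :: l.reverse ++ [u]) := by
      have h1 : IsP G (u :: l ++ [w]) := h.of_prefix ⟨r ++ [v], by simp⟩
      have := h1.reverse
      simpa using this
    have hB : IsP G (w :: r ++ [v]) := h.of_suffix ⟨u :: l, by simp⟩
    refine ⟨hA, hB, ?_⟩
    intro a ha b hb
    have hA1 : IsP G (w :: (l.reverse ++ [u])) := by simpa using hA
    have hB1 : IsP G (w :: (r ++ [v])) := by simpa using hB
    refine ⟨(isP_cons.1 hA1).2.2 a ha, (isP_cons.1 hB1).2.2 b hb, ?_⟩
    intro hab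
    subst hab
    have ha' := List.mem_of_mem_head? ha
    have hb' := List.mem_of_mem_head? hb
    have hnd : ((u :: l) ++ (w :: r ++ [v])).Nodup := by simpa using h.1
    rw [List.nodup_append'] at hnd
    have e1 : a ∈ u :: l := by simp at ha' ⊢; tauto
    have e2 : a ∈ w :: r ++ [v] := by simp at hb' ⊢; tauto
    exact hnd.2.2 e1 e2
  obtain ⟨a1, a2, a3⟩ := key l1 r1 u1 v1 h1
  obtain ⟨b1, b2, b3⟩ := key l2 r2 u2 v2 h2
  obtain ⟨α, A, hAe⟩ : ∃ α A, l1.reverse ++ [u1] = α :: A := List.exists_cons_of_ne_nil (by simp)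
  obtain ⟨β, B, hBe⟩ : ∃ β B, r1 ++ [v1] = β :: B := List.exists_cons_of_ne_nil (by simp)
  obtain ⟨γ, C, hCe⟩ : ∃ γ C, l2.reverse ++ [u2] = γ :: C := List.exists_cons_of_ne_nil (by simp)
  obtain ⟨δ, D, hDe⟩ : ∃ δ D, r2 ++ [v2] = δ :: D := List.exists_cons_of_ne_nil (by simp)
  obtain ⟨hwα, hwβ, hαβ⟩ := a3 α (by rw [hAe]; simp) β (by rw [hBe]; simp)
  obtain ⟨hwγ, hwδ, hγδ⟩ := b3 γ (by rw [hCe]; simp) δ (by rw [hDe]; simp)
  have hNw := hN w (by simp)
  have hcase : (α = γ ∧ β = δ) ∨ (α = δ ∧ β = γ) := by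
    rcases hNw α β γ hwα hwβ hwγ with h | h | h
    · exact absurd h hαβ
    · left
      refine ⟨h, ?_⟩
      rcases hNw α β δ hwα hwβ hwδ with h' | h' | h'
      · exact absurd h' hαβ
      · exact absurd (h.symm.trans h') hγδ
      · exact h'
    · right
      refine ⟨?_, h⟩
      rcases hNw α β δ hwα hwβ hwδ with h' | h' | h'
      · exact absurd h' hαβ
      · exact h'
      · exact absurd (h.symm.trans h') hγδ
  have hNl : ∀ x ∈ l1.reverse, NB G x := fun x hx => hN x (by simp at hx ⊢; tauto)
  have hNr : ∀ x ∈ r1, NB G x := fun x hx => hN x (by simp [hx])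
  rcases hcase with ⟨e1, e2⟩ | ⟨e1, e2⟩
  · left
    have c1 := path_eq a1 b1 hNl (fun h => hm1 u2 (by simp at h ⊢; tauto) hu2)
      (fun h => hm2 u1 (by simp at h ⊢; tauto) hu1) (by rw [hAe, hCe, e1]; rfl)
    have c2 := path_eq a2 b2 hNr (fun h => hm1 v2 (by simp [h]) hv2)
      (fun h => hm2 v1 (by simp [h]) hv1) (by rw [hBe, hDe, e2]; rfl)
    have c3 : l1 = l2 := by simpa using c1.1
    exact ⟨by rw [c3, c2.1], c1.2, c2.2⟩
  · right
    have c1 := path_eq a1 b2 hNl (fun h => hm1 v2 (by simp at h ⊢; tauto) hv2)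
      (fun h => hm2 u1 (by simp [h]) hu1) (by rw [hAe, hDe, e1]; rfl)
    have c2 := path_eq a2 b1 hNr (fun h => hm1 u2 (by simp [h]) hu2)
      (fun h => hm2 v1 (by simp at h ⊢; tauto) hv1) (by rw [hBe, hCe, e2]; rfl)
    refine ⟨?_, c1.2, c2.2⟩
    have c3 : l1 = r2.reverse := by rw [← c1.1]; simp
    rw [c3, c2.1]
    simp

end Pool.Agent.Work.KZ
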