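import Pool.Agent.Work.MP_f0e709_co.T3

/-! Part (3) of the theorem on long even cycles: the final argument. -/

set_option autoImplicit false

namespace Pool.Agent.Work.KZ

variable {V : Type*} {G : SimpleGraph V} {k : ℕ}

/-- `x` on the cycle `x :: c`: every ear from `x` cuts off a part without branch vertices -/
def Good (G : SimpleGraph V) (x : V) (c : List V) : Prop :=
  ∀ (a b m : List V) (v : V), c = a ++ v :: b → IsP G (x :: m ++ [v]) → (∀ w ∈ m, w ∉ x :: c) →
    (m = [] → a ≠ [] ∧ b ≠ []) → (∀ w ∈ a, NB G w) ∨ (∀ w ∈ b, NB G w)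

theorem exists_good {r : ℕ}
    (hdeg : ∀ Z : List V, IsCyc G Z → Z.length = 2 * r → ∀ w, w ∉ Z → NB G w)
    (hcross : ∀ (u1 u2 v1 v2 : V) (A B C D m1 m2 : List V),
      IsCyc G (u1 :: A ++ u2 :: B ++ v1 :: C ++ v2 :: D) →
      (u1 :: A ++ u2 :: B ++ v1 :: C ++ v2 :: D).length = 2 * r →
      IsP G (u1 :: m1 ++ [v1]) → IsP G (u2 :: m2 ++ [v2]) →
      (∀ x ∈ m1, x ∉ u1 :: A ++ u2 :: B ++ v1 :: C ++ v2 :: D) →
      (∀ x ∈ m2, x ∉ u1 :: A ++ u2 :: B ++ v1 :: C ++ v2 :: D) → m1.Disjoint m2 → False) (N : ℕ) :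
    ∀ (u v : V) (a b m : List V), IsCyc G (u :: a ++ v :: b) → (u :: a ++ v :: b).length = 2 * r →
      IsP G (u :: m ++ [v]) → (∀ w ∈ m, w ∉ u :: a ++ v :: b) → a.length ≤ N → (∃ w ∈ a, ¬ NB G w) →
      ∃ x c, IsCyc G (x :: c) ∧ (x :: c).length = 2 * r ∧ ¬ NB G x ∧ Good G x c := by
  induction N with
  | zero =>
    intro u v a b m _ _ _ _ hl hw
    obtain ⟨w, hw, _⟩ := hw
    have : a = [] := List.length_eq_zero_iff.1 (by omega)
    subst this
    simp at hw
  | succ N ih =>
    intro u v a b m hZ hZl hm hmZ hl hw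
    obtain ⟨w, hwa, hwN⟩ := hw
    obtain ⟨a1, a2, rfl⟩ := List.append_of_mem hwa
    have hW : IsCyc G (w :: (a2 ++ v :: b ++ u :: a1)) := by
      have h1 : IsCyc G ((u :: a1) ++ (w :: a2 ++ v :: b)) := by simpa using hZ
      have h2 := h1.rot
      simpa using h2
    have hWl : (w :: (a2 ++ v :: b ++ u :: a1)).length = 2 * r := by
      rw [← hZl]; simp; omega
    by_cases hg : Good G w (a2 ++ v :: b ++ u :: a1)
    · exact ⟨w, _, hW, hWl, hwN, hg⟩
    · unfold Good at hg
      push Not at hg
      obtain ⟨a', b', m', v', hc, hm', hmW', _, ⟨w1, hw1, hw1N⟩, ⟨w2, hw2, hw2N⟩⟩ := hg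
      have hW' : IsCyc G (w :: a' ++ v' :: b') := by
        have := hW
        rw [hc] at this
        simpa using this
      have hW'l : (w :: a' ++ v' :: b').length = 2 * r := by
        rw [← hWl, hc]; simp
      have hm'2 : ∀ z ∈ m', z ∉ w :: a' ++ v' :: b' := by
        intro z hz
        have := hmW' z hz
        rw [hc] at this
        simpa using this
      simp at hl
      rcases Nat.lt_or_ge a2.length a'.length with h1 | h1
      swap
      · exact ih w v' a' b' m' hW' hW'l hm' hm'2 (by omega) ⟨w1, hw1, hw1N⟩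
      rcases Nat.lt_or_ge a1.length b'.length with h2 | h2
      swap
      · refine ih w v' b'.reverse a'.reverse m' hW'.flip ?_ hm' ?_ (by simp; omega) ⟨w2, by simpa using hw2, hw2N⟩
        · rw [← hW'l]; simp; omega
        · intro z hz hz'
          exact hm'2 z hz (IsCyc.mem_flip.1 hz')
      · exfalso
        -- the crossing case
        obtain ⟨b1, b2, hb, ha', hb'⟩ : ∃ b1 b2, b = b1 ++ v' :: b2 ∧ a' = a2 ++ v :: b1 ∧
            b' = b2 ++ u :: a1 := by
          have hc1 : a2 ++ (v :: b ++ u :: a1) = a' ++ v' :: b' := by rw [← hc]; simp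
          rcases List.append_eq_append_iff.1 hc1 with ⟨s, hs1, hs2⟩ | ⟨s, hs1, hs2⟩
          · -- a' = a2 ++ s
            have hs : s ≠ [] := by
              rintro rfl
              simp at hs1
              rw [hs1] at h1
              exact absurd h1 (lt_irrefl _)
            obtain ⟨s0, s', rfl⟩ := List.exists_cons_of_ne_nil hs
            have hs3 : v = s0 ∧ b ++ u :: a1 = s' ++ v' :: b' := by simpa using hs2
            obtain ⟨rfl, hs4⟩ := hs3
            rcases List.append_eq_append_iff.1 hs4 with ⟨t, ht1, ht2⟩ | ⟨t, ht1, ht2⟩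
            · -- s' = b ++ t : then b' is a suffix of a1
              exfalso
              have := congrArg List.length ht2
              simp at this
              omega
            · cases t with
              | nil =>
                exfalso
                have := congrArg List.length ht2
                simp at this
                omega
              | cons t0 t =>
                have h3 : v' = t0 ∧ b' = t ++ u :: a1 := by simpa using ht2
                obtain ⟨rfl, h4⟩ := h3
                exact ⟨s', t, ht1, hs1, h4⟩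
          · exfalso
            have := congrArg List.length hs1
            simp at this
            omega
        subst hb; subst ha'; subst hb'
        have hZ2 : IsCyc G (u :: a1 ++ w :: a2 ++ v :: b1 ++ v' :: b2) := by simpa using hZ
        have hZ2l : (u :: a1 ++ w :: a2 ++ v :: b1 ++ v' :: b2).length = 2 * r := by
          rw [← hZl]; simp
        have hmZ' : ∀ x ∈ m, x ∉ u :: a1 ++ w :: a2 ++ v :: b1 ++ v' :: b2 := by
          intro x hx hx'
          exact hmZ x hx (by simpa using hx')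
        have hmZ'' : ∀ x ∈ m', x ∉ u :: a1 ++ w :: a2 ++ v :: b1 ++ v' :: b2 := by
          intro x hx hx'
          refine hm'2 x hx ?_
          simp only [List.cons_append, List.append_assoc, List.mem_cons, List.mem_append] at hx' ⊢
          tauto
        refine hcross u w v v' a1 a2 b1 b2 m m' hZ2 hZ2l hm hm' hmZ' hmZ'' ?_
        intro z hz hz'
        have hnd := hZ2.isP.1
        rcases ear_eq (S := fun y => y ∈ u :: a1 ++ w :: a2 ++ v :: b1 ++ v' :: b2) hm hm' (by simp)
          (by simp) (by simp) (by simp) hmZ' hmZ''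
          (fun x hx => hdeg _ hZ2 hZ2l x (hmZ' x hx)) hz hz' with ⟨_, h3, _⟩ | ⟨_, h3, _⟩
        · subst h3
          simp at hnd
        · subst h3
          simp at hnd

/-- two ears from `x` which cut off the same part without branch vertices -/
theorem PK.two_left {r : ℕ} (h : PK G k) (hk : 3 ≤ k) (hrk2 : k + 1 ≤ 2 * r)
    (hdeg : ∀ Z : List V, IsCyc G Z → Z.length = 2 * r → ∀ w, w ∉ Z → NB G w)
    (hodd : ∀ (u v : V) (a b m : List V), IsCyc G (u :: a ++ v :: b) → (u :: a ++ v :: b).length = 2 * r →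
      IsP G (u :: m ++ [v]) → (∀ x ∈ m, x ∉ u :: a ++ v :: b) → (m = [] → a ≠ [] ∧ b ≠ []) →
      Odd (m.length + a.length))
    {x v v' : V} {c a b m a' b' m' : List V} (hZ : IsCyc G (x :: c)) (hZl : (x :: c).length = 2 * r)
    (hc : c = a ++ v :: b) (hm : IsP G (x :: m ++ [v])) (hmZ : ∀ w ∈ m, w ∉ x :: c)
    (hne : m = [] → a ≠ [] ∧ b ≠ []) (hN : ∀ w ∈ a, NB G w)
    (hc' : c = a' ++ v' :: b') (hm' : IsP G (x :: m' ++ [v'])) (hmZ' : ∀ w ∈ m', w ∉ x :: c)
    (hne' : m' = [] → a' ≠ [] ∧ b' ≠ []) (hN' : ∀ w ∈ a', NB G w)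
    (hh : (m ++ [v]).head? ≠ (m' ++ [v']).head?) : False := by
  have hbr : ∀ (v : V) (a b m : List V), c = a ++ v :: b → IsP G (x :: m ++ [v]) →
      (∀ w ∈ m, w ∉ x :: c) → (m = [] → a ≠ [] ∧ b ≠ []) → ¬ NB G v := by
    intro v a b m hc hm hmZ hne
    have h1 : IsCyc G (v :: b ++ x :: a) := by
      rw [hc] at hZ
      have : IsCyc G ((x :: a) ++ (v :: b)) := by simpa using hZ
      exact this.rot
    refine not_NB_of_ear (e := m.reverse) h1 ?_ ?_ ?_
    · have := hm.reverse
      simpa using this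
    · intro w hw hw'
      refine hmZ w (by simpa using hw) ?_
      rw [hc]
      simp only [List.cons_append, List.mem_cons, List.mem_append] at hw' ⊢
      tauto
    · intro h0
      have := hne (by simpa using h0)
      exact ⟨this.2, this.1⟩
  obtain ⟨e1, e2, e3⟩ := split_NB (hc.symm.trans hc') hN hN' (hbr v a b m hc hm hmZ hne)
    (hbr v' a' b' m' hc' hm' hmZ' hne')
  subst e1; subst e2; subst e3
  subst hc
  have hZ2 : IsCyc G (x :: a ++ v :: b) := by simpa using hZ
  have hZ2l : (x :: a ++ v :: b).length = 2 * r := by simpa using hZl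
  have hmZ2 : ∀ w ∈ m, w ∉ x :: a ++ v :: b := by
    intro w hw hw'; exact hmZ w hw (by simpa using hw')
  have hmZ2' : ∀ w ∈ m', w ∉ x :: a ++ v :: b := by
    intro w hw hw'; exact hmZ' w hw (by simpa using hw')
  have o1 := hodd x v a b m hZ2 hZ2l hm hmZ2 hne
  have o2 := hodd x v a b m' hZ2 hZ2l hm' hmZ2' hne'
  have hNm : ∀ w ∈ m, NB G w := fun w hw => hdeg _ hZ hZl w (hmZ w hw)
  have hNm' : ∀ w ∈ m', NB G w := fun w hw => hdeg _ hZ hZl w (hmZ' w hw)
  have hdis : m.Disjoint m' := by
    intro w hw hw'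
    rcases ear_eq (S := fun y => y ∈ x :: a ++ v :: b) hm hm' (by simp) (by simp) (by simp) (by simp)
      hmZ2 hmZ2' hNm hw hw' with ⟨h1, _, _⟩ | ⟨_, h2, _⟩
    · rw [h1] at hh
      exact hh rfl
    · subst h2
      have := hZ2.isP.1
      simp at this
  have hev : Even (m.length + m'.length) := by
    obtain ⟨p, hp⟩ := o1
    obtain ⟨q, hq⟩ := o2
    exact ⟨p + q + 1 - a.length, by omega⟩
  rcases Nat.le_total m.length m'.length with hle | hle
  · exact h.digon hk hZ2 (by rw [hZ2l]; exact hrk2) hm hm' hNm hNm' hmZ2 hmZ2' hdis hev hle hh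
  · exact h.digon hk hZ2 (by rw [hZ2l]; exact hrk2) hm' hm hNm' hNm hmZ2' hmZ2 hdis.symm
      (by rw [add_comm]; exact hev) hle hh.symm

/-- an ear starting with a given edge -/
theorem PK.ear_at (h : PK G k) (hk : 3 ≤ k) {r : ℕ} (hrk : r ≤ k) {x n f1 f3 : V} {c : List V}
    (hZ : IsCyc G (x :: c)) (hZl : (x :: c).length = 2 * r) (hn : G.Adj x n)
    (hf1 : c.head? = some f1) (hf3 : c.getLast? = some f3) (h1 : n ≠ f1) (h3 : n ≠ f3) :
    ∃ (a b m : List V) (v : V), c = a ++ v :: b ∧ IsP G (x :: m ++ [v]) ∧ (∀ w ∈ m, w ∉ x :: c) ∧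
      (m = [] → a ≠ [] ∧ b ≠ []) ∧ (m ++ [v]).head? = some n := by
  obtain ⟨w, l, hl, hll⟩ := h.partner_exists hk hn
  have hr : 2 ≤ r := by
    have := hZ.2.2
    omega
  obtain ⟨α, β, hαβ, a1, b1, a2, b2⟩ := h.even_meets hr hrk hZ hZl hl (by simp; omega)
  have hex : ∃ v ∈ (n :: (l ++ [w])), v ∈ c := by
    by_cases hα : α = x
    · refine ⟨β, ?_, ?_⟩
      · rcases List.mem_cons.1 b2 with h4 | h4
        · exact absurd (hα.trans h4.symm) hαβ
        · exact h4
      · rcases List.mem_cons.1 b1 with h4 | h4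
        · exact absurd (hα.trans h4.symm) hαβ
        · exact h4
    · refine ⟨α, ?_, ?_⟩
      · rcases List.mem_cons.1 a2 with h4 | h4
        · exact absurd h4 hα
        · exact h4
      · rcases List.mem_cons.1 a1 with h4 | h4
        · exact absurd h4 hα
        · exact h4
  obtain ⟨m, v, m', hm, hv, hmc⟩ := exists_first (fun v => v ∈ c) _ hex
  obtain ⟨a, b, hab⟩ := List.append_of_mem hv
  have hP : IsP G (x :: m ++ [v]) := by
    refine hl.isP.of_prefix ⟨m', ?_⟩
    rw [hm]; simp
  have hhd : (m ++ [v]).head? = some n := by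
    have : (m ++ v :: m').head? = some n := by rw [← hm]; rfl
    cases m <;> simpa using this
  refine ⟨a, b, m, v, hab, hP, ?_, ?_, hhd⟩
  · intro u hu hu'
    rcases List.mem_cons.1 hu' with h4 | h4
    · subst h4
      have := hP.1
      simp [hu] at this
    · exact hmc u hu h4
  · intro h0
    subst h0
    have hvn : v = n := by simpa using hhd
    constructor
    · rintro rfl
      rw [hab] at hf1
      simp at hf1
      exact h1 (hvn ▸ hf1)
    · rintro rfl
      rw [hab] at hf3
      simp at hf3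
      exact h3 (hvn ▸ hf3)

end Pool.Agent.Work.KZ
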