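import Pool.Agent.Work.MP_f0e709_co.T3b

/-! The necklace lemma: two odd digons joined by two paths. -/

set_option autoImplicit false

namespace Pool.Agent.Work.KZ

variable {V : Type*} {G : SimpleGraph V} {k : ℕ}

/-- a cycle `Y ++ E1 ++ X ++ E2` with a path `S1` parallel to `E1` and a path `S2` parallel to `E2` -/
structure Neck (G : SimpleGraph V) (Y E1 X E2 S1 S2 : List V) : Prop where
  Y0 : Y ≠ []
  X0 : X ≠ []
  c11 : IsCyc G (Y ++ E1 ++ X ++ E2)
  c21 : IsCyc G (Y ++ S1 ++ X ++ E2)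
  c12 : IsCyc G (Y ++ E1 ++ X ++ S2)
  c22 : IsCyc G (Y ++ S1 ++ X ++ S2)
  d1 : E1.Disjoint S1
  d2 : E2.Disjoint S2

variable {Y E1 X E2 S1 S2 : List V}

theorem Neck.swap1 (N : Neck G Y E1 X E2 S1 S2) : Neck G Y S1 X E2 E1 S2 :=
  ⟨N.Y0, N.X0, N.c21, N.c11, N.c22, N.c12, N.d1.symm, N.d2⟩

theorem Neck.swap2 (N : Neck G Y E1 X E2 S1 S2) : Neck G Y E1 X S2 S1 E2 :=
  ⟨N.Y0, N.X0, N.c12, N.c22, N.c11, N.c21, N.d1, N.d2.symm⟩

theorem IsCyc.rot4 {A B C D : List V} (h : IsCyc G (A ++ B ++ C ++ D)) : IsCyc G (C ++ D ++ A ++ B) := by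
  have h1 : IsCyc G ((A ++ B) ++ (C ++ D)) := by simpa using h
  simpa using h1.rot

theorem IsCyc.mir4 {A B C D : List V} (h : IsCyc G (A ++ B ++ C ++ D)) :
    IsCyc G (A.reverse ++ D.reverse ++ C.reverse ++ B.reverse) := by
  have h1 : IsCyc G (A ++ (B ++ C ++ D)) := by simpa using h
  simpa using h1.rot.reverse

theorem Neck.rot (N : Neck G Y E1 X E2 S1 S2) : Neck G X E2 Y E1 S2 S1 :=
  ⟨N.X0, N.Y0, N.c11.rot4, N.c12.rot4, N.c21.rot4, N.c22.rot4, N.d2, N.d1⟩

theorem disjoint_reverse {l m : List V} (h : l.Disjoint m) : l.reverse.Disjoint m.reverse := by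
  intro a ha hb
  exact h (by simpa using ha) (by simpa using hb)

theorem Neck.mir (N : Neck G Y E1 X E2 S1 S2) :
    Neck G Y.reverse E2.reverse X.reverse E1.reverse S2.reverse S1.reverse :=
  ⟨by simpa using N.Y0, by simpa using N.X0, N.c11.mir4, N.c12.mir4, N.c21.mir4, N.c22.mir4,
    disjoint_reverse N.d2, disjoint_reverse N.d1⟩

/-- the tail rule in a necklace -/
theorem Neck.tail (N : Neck G Y E1 X E2 S1 S2) (h : PK G k) {ρ : ℕ}
    (hρ : Y.length + E1.length + X.length + E2.length = 2 * ρ) (hρk : ρ ≤ k) : ρ + S1.length < k := by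
  by_contra hcon
  push Not at hcon
  obtain ⟨Y', a, rfl⟩ : ∃ Y' a, Y = Y' ++ [a] := by
    rcases List.eq_nil_or_concat Y with h0 | ⟨l, b, h0⟩
    · exact absurd h0 N.Y0
    · exact ⟨l, b, by simpa using h0⟩
  have hlen := N.c11.2.2
  have hc : IsCyc G (a :: (E1 ++ X ++ E2 ++ Y')) := by
    have h1 : IsCyc G (Y' ++ ([a] ++ E1 ++ X ++ E2)) := by simpa using N.c11
    simpa using h1.rot
  have hnd := N.c21.isP.1
  refine h.even_rule (r := ρ) (p := a) (z' := E1 ++ X ++ E2 ++ Y') (t := S1.take (k - ρ)) ?_ hρk hc ?_ ?_ ?_ ?_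
  · simp at hlen hρ; omega
  · simp at hρ ⊢; omega
  · have h1 : IsP G (a :: S1) := N.c21.isP.of_infix ⟨Y', X ++ E2, by simp⟩
    have := h1.take (k - ρ + 1)
    simpa using this
  · intro x hx hx'
    have hxS := List.mem_of_mem_take hx
    simp only [List.mem_append] at hx'
    rw [List.nodup_append', List.nodup_append', List.nodup_append'] at hnd
    rcases hx' with ((h1 | h1) | h1) | h1
    · exact N.d1 h1 hxS
    · exact dj hnd.1.2.2 (a := x) (by simp [hxS]) h1
    · exact dj hnd.2.2 (a := x) (by simp [hxS]) h1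
    · exact dj hnd.1.1.2.2 (a := x) (by simp [h1]) hxS
  · rw [List.length_take]; omega

theorem Neck.handcuff1 (N : Neck G Y E1 X E2 S1 S2) (h : PK G k) {σ : ℕ}
    (hσ : E1.length + E2.length + S1.length + S2.length = 2 * σ) (ho1 : Odd (E1.length + S1.length))
    (h1 : σ + X.length + 1 ≤ k) (h2 : k + 1 ≤ X.length + Y.length + σ)
    (h3 : E1.length ≤ S1.length + (E2.length + S2.length))
    (h4 : S1.length ≤ E1.length + (E2.length + S2.length)) : False := by
  obtain ⟨q, hq⟩ := ho1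
  -- split Y
  obtain ⟨c, Y1, Y2, a, rfl, hY2⟩ : ∃ c Y1 Y2 a, Y = c :: Y1 ++ (Y2 ++ [a]) ∧
      Y2.length = k - 1 - σ - X.length := by
    obtain ⟨Y', a, rfl⟩ : ∃ Y' a, Y = Y' ++ [a] := by
      rcases List.eq_nil_or_concat Y with h0 | ⟨l, b, h0⟩
      · exact absurd h0 N.Y0
      · exact ⟨l, b, by simpa using h0⟩
    simp at h2
    have hle : k - 1 - σ - X.length + 1 ≤ Y'.length := by omega
    have hne : Y'.take (Y'.length - (k - 1 - σ - X.length)) ≠ [] := by
      intro h0
      have := congrArg List.length h0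
      rw [List.length_take] at this
      simp at this
      omega
    obtain ⟨c, Y1, hY1⟩ := List.exists_cons_of_ne_nil hne
    refine ⟨c, Y1, Y'.drop (Y'.length - (k - 1 - σ - X.length)), a, ?_, ?_⟩
    · rw [← hY1, ← List.append_assoc, List.take_append_drop]
    · rw [List.length_drop]; omega
  obtain ⟨X', b, rfl⟩ : ∃ X' b, X = X' ++ [b] := by
    rcases List.eq_nil_or_concat X with h0 | ⟨l, b, h0⟩
    · exact absurd h0 N.X0
    · exact ⟨l, b, by simpa using h0⟩
  have n11 := N.c11.isP.1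
  have n21 := N.c21.isP.1
  have n12 := N.c12.isP.1
  have n22 := N.c22.isP.1
  simp only [List.length_append, List.length_cons, List.length_nil] at h1 h2 hY2
  have hO : IsCyc G (b :: (E2 ++ c :: S2.reverse)) := by
    have e1 : IsCyc G (b :: E2 ++ c :: (Y1 ++ Y2 ++ [a] ++ E1 ++ X')) := by
      have e2 : IsCyc G ((c :: Y1 ++ (Y2 ++ [a]) ++ E1 ++ X') ++ ([b] ++ E2)) := by simpa using N.c11
      simpa using e2.rot
    refine e1.ear_cycle ?_ ?_ (by omega)
    · have e2 : IsCyc G ((c :: Y1 ++ (Y2 ++ [a]) ++ E1 ++ X') ++ ([b] ++ S2)) := by simpa using N.c12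
      exact e2.rot.isP.of_prefix ⟨Y1 ++ (Y2 ++ [a]) ++ E1 ++ X', by simp⟩
    · intro x hx hx'
      rw [List.nodup_append'] at n12
      have e3 : x ∉ c :: Y1 ++ (Y2 ++ [a]) ++ E1 ++ (X' ++ [b]) := fun h => n12.2.2 h hx
      have e4 : x ∉ E2 := fun h => N.d2 h hx
      simp only [List.cons_append, List.mem_cons, List.mem_append, List.append_assoc, List.not_mem_nil,
        or_false, not_or] at hx' e3
      tauto
  have e11 : c :: Y1 ++ (Y2 ++ [a]) ++ E1 ++ (X' ++ [b]) ++ E2 =
      (c :: Y1) ++ (Y2 ++ a :: (E1 ++ X') ++ [b]) ++ E2 := by simp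
  have e21 : c :: Y1 ++ (Y2 ++ [a]) ++ S1 ++ (X' ++ [b]) ++ E2 =
      (c :: Y1) ++ (Y2 ++ a :: (S1 ++ X') ++ [b]) ++ E2 := by simp
  have e12 : c :: Y1 ++ (Y2 ++ [a]) ++ E1 ++ (X' ++ [b]) ++ S2 =
      (c :: Y1) ++ (Y2 ++ a :: (E1 ++ X') ++ [b]) ++ S2 := by simp
  have e22 : c :: Y1 ++ (Y2 ++ [a]) ++ S1 ++ (X' ++ [b]) ++ S2 =
      (c :: Y1) ++ (Y2 ++ a :: (S1 ++ X') ++ [b]) ++ S2 := by simp
  rw [e11, List.nodup_append', List.nodup_append'] at n11
  rw [e21, List.nodup_append', List.nodup_append'] at n21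
  rw [e12, List.nodup_append', List.nodup_append'] at n12
  rw [e22, List.nodup_append', List.nodup_append'] at n22
  refine h.fig8_base (by omega) (x := b) (z := a) (T := Y2) (j := E1 ++ X') (j' := S1 ++ X')
    (w := E2 ++ c :: S2.reverse) (t := σ + 1 - E1.length) (t' := σ + 1 - S1.length) ?_ ?_ hO ?_ ?_ ?_ ?_ ?_ ?_ ?_ ?_
  · exact N.c11.isP.of_infix ⟨c :: Y1, E2, by simp⟩
  · exact N.c21.isP.of_infix ⟨c :: Y1, E2, by simp⟩
  · intro v hv hv'
    have hv2 : v ∈ Y2 ++ a :: (E1 ++ X') ++ [b] := List.mem_append_left _ hv'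
    simp only [List.mem_append, List.mem_cons, List.mem_reverse] at hv
    rcases hv with h5 | h5 | h5
    · exact dj n11.2.2 (a := v) (List.mem_append_right _ hv2) h5
    · subst h5
      exact dj n11.1.2.2 (a := v) (by simp) hv2
    · exact dj n12.2.2 (a := v) (List.mem_append_right _ hv2) h5
  · intro v hv hv'
    have hv2 : v ∈ Y2 ++ a :: (S1 ++ X') ++ [b] := List.mem_append_left _ hv'
    simp only [List.mem_append, List.mem_cons, List.mem_reverse] at hv
    rcases hv with h5 | h5 | h5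
    · exact dj n21.2.2 (a := v) (List.mem_append_right _ hv2) h5
    · subst h5
      exact dj n21.1.2.2 (a := v) (by simp) hv2
    · exact dj n22.2.2 (a := v) (List.mem_append_right _ hv2) h5
  · simp; omega
  · simp; omega
  · simp; omega
  · omega
  · omega
  · simp; omega

/-- handcuff with a tail -/
theorem Neck.handcuff (N : Neck G Y E1 X E2 S1 S2) (h : PK G k) {σ : ℕ}
    (hσ : E1.length + E2.length + S1.length + S2.length = 2 * σ) (ho1 : Odd (E1.length + S1.length))
    (ho2 : Odd (E2.length + S2.length))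
    (h1 : σ + X.length + 1 ≤ k) (h2 : k + 1 ≤ X.length + Y.length + σ) : False := by
  by_cases hc : E1.length ≤ S1.length + (E2.length + S2.length) ∧
      S1.length ≤ E1.length + (E2.length + S2.length)
  · exact N.handcuff1 h hσ ho1 h1 h2 hc.1 hc.2
  · refine N.mir.handcuff1 h (σ := σ) (by simp; omega) (by simpa using ho2) (by simpa using h1)
      (by simpa using h2) ?_ ?_
    · simp; omega
    · simp; omega

theorem Neck.main_half (N : Neck G Y E1 X E2 S1 S2) (h : PK G k) {σ ρ : ℕ}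
    (hσ : E1.length + E2.length + S1.length + S2.length = 2 * σ) (ho1 : Odd (E1.length + S1.length))
    (ho2 : Odd (E2.length + S2.length)) (hρ : Y.length + E1.length + X.length + E2.length = 2 * ρ)
    (hlo : k + 1 ≤ X.length + Y.length + σ) (hhi : X.length + Y.length + σ ≤ 2 * k + 1) : False := by
  have hρ2 : Y.length + S1.length + X.length + S2.length = 2 * (X.length + Y.length + σ - ρ) := by omega
  have t1 : ρ ≤ k → ρ + S1.length < k := fun hρk => N.tail h hρ hρk
  have t2 : ρ ≤ k → ρ + S2.length < k := fun hρk => N.rot.tail h (by omega) hρk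
  have t3 : X.length + Y.length + σ - ρ ≤ k → X.length + Y.length + σ - ρ + E1.length < k :=
    fun hρk => N.swap1.swap2.tail h hρ2 hρk
  have t4 : X.length + Y.length + σ - ρ ≤ k → X.length + Y.length + σ - ρ + E2.length < k :=
    fun hρk => N.swap1.swap2.rot.tail h (by omega) hρk
  by_cases c1 : ρ ≤ k
  · have a1 := t1 c1
    have a2 := t2 c1
    by_cases c2 : X.length + Y.length + σ - ρ ≤ k
    · have a3 := t3 c2
      have a4 := t4 c2
      rcases Nat.le_total X.length Y.length with h5 | h5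
      · exact N.handcuff h hσ ho1 ho2 (by omega) hlo
      · exact N.rot.handcuff h (σ := σ) (by omega) ho2 ho1 (by omega) (by omega)
    · omega
  · by_cases c2 : X.length + Y.length + σ - ρ ≤ k
    · have a3 := t3 c2
      have a4 := t4 c2
      omega
    · omega

/-- **the necklace lemma** -/
theorem Neck.main (N : Neck G Y E1 X E2 S1 S2) (h : PK G k) {σ : ℕ}
    (hσ : E1.length + E2.length + S1.length + S2.length = 2 * σ) (ho1 : Odd (E1.length + S1.length))
    (ho2 : Odd (E2.length + S2.length))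
    (hlo : k + 1 ≤ X.length + Y.length + σ) (hhi : X.length + Y.length + σ ≤ 2 * k + 1) : False := by
  rcases Nat.even_or_odd' (Y.length + E1.length + X.length + E2.length) with ⟨ρ, hρ | hρ⟩
  · exact N.main_half h hσ ho1 ho2 hρ hlo hhi
  · obtain ⟨q, hq⟩ := ho2
    refine N.swap2.main_half h (σ := σ) (ρ := ρ + 1 + q - E2.length) (by omega) ho1
      (by rw [add_comm]; exact ⟨q, hq⟩) (by omega) hlo hhi

end Pool.Agent.Work.KZ
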