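import Pool.Agent.Work.MP_f0e709_co.T4a
import Pool.Agent.Work.MP_f0e709_co.LL

/-! A `(k+1)`-cycle which shares an edge with a long even cycle `Z` has exactly one ear on `Z`. -/

set_option autoImplicit false

namespace Pool.Agent.Work.KZ

variable {V : Type*} {G : SimpleGraph V} {k : ℕ}

/-- replacing a segment of a cycle by a path -/
theorem IsCyc.replace {U E W S : List V} {a b : V} (hc : IsCyc G (U ++ E ++ W))
    (ha : U.getLast? = some a) (hb : W.head? = some b) (hS : IsP G (a :: S ++ [b]))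
    (hSU : ∀ x ∈ S, x ∉ U) (hSW : ∀ x ∈ S, x ∉ W) (hl : 3 ≤ U.length + S.length + W.length) :
    IsCyc G (U ++ S ++ W) := by
  have hU : U ≠ [] := by rintro rfl; simp at ha
  have hW : W ≠ [] := by rintro rfl; simp at hb
  have hWU : IsP G (W ++ U) := by
    have h1 : IsCyc G (W ++ (U ++ E)) := hc.rot
    exact h1.isP.of_prefix ⟨E, by simp⟩
  have key : IsCyc G ((W ++ U) ++ S) := by
    by_cases hS0 : S = []
    · subst hS0
      refine ⟨by simpa using hWU, ?_, by simp at hl ⊢; omega⟩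
      intro x hx y hy
      rw [List.append_nil, List.getLast?_append_of_ne_nil _ hU, ha] at hx
      rw [List.append_nil, List.head?_append_of_ne_nil _ hW, hb] at hy
      have hx' : x = a := by simpa using hx.symm
      have hy' : y = b := by simpa using hy.symm
      subst hx'; subst hy'
      have h1 : IsP G (x :: ([] ++ [y])) := by simpa using hS
      exact (isP_cons.1 h1).2.2 y (by simp)
    · have hS1 : IsP G (a :: (S ++ [b])) := by simpa using hS
      rw [isP_cons] at hS1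
      have hS2 := isP_concat.1 hS1.2.1
      rw [isCyc_append (by simp [hU]) hS0]
      refine ⟨hWU, hS2.1, ?_, ?_, ?_, ?_⟩
      · intro x hx hx'
        rcases List.mem_append.1 hx with h1 | h1
        · exact hSW x hx' h1
        · exact hSU x hx' h1
      · intro x hx y hy
        rw [List.getLast?_append_of_ne_nil _ hU, ha] at hx
        have hx' : x = a := by simpa using hx.symm
        subst hx'
        exact hS1.2.2 y (by rw [List.head?_append_of_ne_nil _ hS0]; exact hy)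
      · intro x hx y hy
        rw [List.head?_append_of_ne_nil _ hW, hb] at hy
        have hy' : y = b := by simpa using hy.symm
        subst hy'
        exact hS2.2.2 x hx
      · simp at hl ⊢; omega
  have h2 : IsCyc G (W ++ (U ++ S)) := by simpa using key
  exact h2.rot

theorem mkNeck {Y E1 X E2 S1 S2 : List V} {a1 b1 a2 b2 : V} (hc : IsCyc G (Y ++ E1 ++ X ++ E2))
    (hYl : Y.getLast? = some a1) (hYh : Y.head? = some b2) (hXh : X.head? = some b1)
    (hXl : X.getLast? = some a2) (hS1 : IsP G (a1 :: S1 ++ [b1])) (hS2 : IsP G (a2 :: S2 ++ [b2]))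
    (hd1 : ∀ x ∈ S1, x ∉ Y ++ E1 ++ X ++ E2) (hd2 : ∀ x ∈ S2, x ∉ Y ++ E1 ++ X ++ E2)
    (hd : S1.Disjoint S2) (hl : 3 ≤ X.length + Y.length) : Neck G Y E1 X E2 S1 S2 := by
  have hY : Y ≠ [] := by rintro rfl; simp at hYl
  have hX : X ≠ [] := by rintro rfl; simp at hXh
  have d1 : ∀ x ∈ S1, x ∉ Y ∧ x ∉ E1 ∧ x ∉ X ∧ x ∉ E2 := by
    intro x hx
    have := hd1 x hx
    simp only [List.mem_append, not_or] at this
    tauto
  have d2 : ∀ x ∈ S2, x ∉ Y ∧ x ∉ E1 ∧ x ∉ X ∧ x ∉ E2 := by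
    intro x hx
    have := hd2 x hx
    simp only [List.mem_append, not_or] at this
    tauto
  have c21 : IsCyc G (Y ++ S1 ++ X ++ E2) := by
    have h1 : IsCyc G (Y ++ E1 ++ (X ++ E2)) := by simpa using hc
    have := h1.replace (S := S1) hYl (by rw [List.head?_append_of_ne_nil _ hX]; exact hXh) hS1
      (fun x hx => (d1 x hx).1) (fun x hx => by
        rw [List.mem_append, not_or]; exact ⟨(d1 x hx).2.2.1, (d1 x hx).2.2.2⟩) (by simp; omega)
    simpa using this
  have c12 : IsCyc G (Y ++ E1 ++ X ++ S2) := by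
    have h1 : IsCyc G (X ++ E2 ++ (Y ++ E1)) := by simpa using hc.rot4
    have := h1.replace (S := S2) hXl (by rw [List.head?_append_of_ne_nil _ hY]; exact hYh) hS2
      (fun x hx => (d2 x hx).2.2.1) (fun x hx => by
        rw [List.mem_append, not_or]; exact ⟨(d2 x hx).1, (d2 x hx).2.1⟩) (by simp; omega)
    have h3 : IsCyc G (X ++ S2 ++ Y ++ E1) := by simpa using this
    exact h3.rot4
  have c22 : IsCyc G (Y ++ S1 ++ X ++ S2) := by
    have h1 : IsCyc G (X ++ E2 ++ (Y ++ S1)) := by simpa using c21.rot4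
    have := h1.replace (S := S2) hXl (by rw [List.head?_append_of_ne_nil _ hY]; exact hYh) hS2
      (fun x hx => (d2 x hx).2.2.1) (fun x hx => by
        rw [List.mem_append, not_or]; exact ⟨(d2 x hx).1, fun h => hd h hx⟩) (by simp; omega)
    have h3 : IsCyc G (X ++ S2 ++ Y ++ S1) := by simpa using this
    exact h3.rot4
  exact ⟨hY, hX, hc, c21, c12, c22, fun x hx hx' => (d1 x hx').2.1 hx, fun x hx hx' => (d2 x hx').2.2.2 hx⟩

/-- a list which contains elements of two disjoint classes has a change between them -/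
theorem exists_change {α : Type*} (P Q : α → Prop) (R : List α) (hPQ : ∀ x, P x → Q x → False)
    (hP : ∃ x ∈ R, P x) (hQ : ∃ x ∈ R, Q x) :
    ∃ R1 z M z' R2, R = R1 ++ (z :: M ++ [z']) ++ R2 ∧ (∀ x ∈ M, ¬ P x ∧ ¬ Q x) ∧
      ((P z ∧ Q z') ∨ (Q z ∧ P z')) := by
  have key : ∀ (P Q : α → Prop) (L : List α) (s : α) (R' : List α), (∀ x, P x → Q x → False) →
      P s → (∃ x ∈ R', Q x) → R = L ++ s :: R' →
      ∃ R1 z M z' R2, R = R1 ++ (z :: M ++ [z']) ++ R2 ∧ (∀ x ∈ M, ¬ P x ∧ ¬ Q x) ∧ P z ∧ Q z' := by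
    intro P Q L s R' hPQ hs hQ' hR
    obtain ⟨L2, z', R2, hR', hz', hL2⟩ := exists_first Q R' hQ'
    obtain ⟨L3, z, M, hL3, hz, hM⟩ := exists_last P (s :: L2) ⟨s, by simp, hs⟩
    refine ⟨L ++ L3, z, M, z', R2, ?_, ?_, hz, hz'⟩
    · rw [hR, hR']
      have : L ++ s :: (L2 ++ z' :: R2) = L ++ (s :: L2) ++ z' :: R2 := by simp
      rw [this, hL3]
      simp
    · intro x hx
      refine ⟨hM x hx, ?_⟩
      intro hq
      have hx2 : x ∈ s :: L2 := by rw [hL3]; simp [hx]
      rcases List.mem_cons.1 hx2 with h1 | h1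
      · subst h1; exact hPQ x hs hq
      · exact hL2 x h1 hq
  obtain ⟨p, hp, hPp⟩ := hP
  obtain ⟨q, hq, hQq⟩ := hQ
  obtain ⟨L, s, R', hR, hs, hL⟩ := exists_first (fun x => P x ∨ Q x) R ⟨p, hp, Or.inl hPp⟩
  rcases hs with hs | hs
  · have hq' : q ∈ R' := by
      rw [hR] at hq
      rcases List.mem_append.1 hq with h1 | h1
      · exact absurd (Or.inr hQq) (hL q h1)
      · rcases List.mem_cons.1 h1 with h2 | h2
        · subst h2; exact absurd hQq (fun h => hPQ q hs h)
        · exact h2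
    obtain ⟨R1, z, M, z', R2, h1, h2, h3, h4⟩ := key P Q L s R' hPQ hs ⟨q, hq', hQq⟩ hR
    exact ⟨R1, z, M, z', R2, h1, h2, Or.inl ⟨h3, h4⟩⟩
  · have hp' : p ∈ R' := by
      rw [hR] at hp
      rcases List.mem_append.1 hp with h1 | h1
      · exact absurd (Or.inl hPp) (hL p h1)
      · rcases List.mem_cons.1 h1 with h2 | h2
        · subst h2; exact absurd hs (fun h => hPQ p hPp h)
        · exact h2
    obtain ⟨R1, z, M, z', R2, h1, h2, h3, h4⟩ := key Q P L s R' (fun x a b => hPQ x b a) hs ⟨p, hp', hPp⟩ hR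
    exact ⟨R1, z, M, z', R2, h1, fun x hx => ⟨(h2 x hx).2, (h2 x hx).1⟩, Or.inr ⟨h3, h4⟩⟩

/-- the facts on ears of the even cycles of length `2r` -/
structure LE (G : SimpleGraph V) (k r : ℕ) : Prop where
  odd : ∀ (u v : V) (a b m : List V), IsCyc G (u :: a ++ v :: b) → (u :: a ++ v :: b).length = 2 * r →
      IsP G (u :: m ++ [v]) → (∀ x ∈ m, x ∉ u :: a ++ v :: b) → (m = [] → a ≠ [] ∧ b ≠ []) →
      Odd (m.length + a.length)
  len : ∀ (u v : V) (a b m : List V), IsCyc G (u :: a ++ v :: b) → (u :: a ++ v :: b).length = 2 * r →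
      IsP G (u :: m ++ [v]) → (∀ x ∈ m, x ∉ u :: a ++ v :: b) → (m = [] → a ≠ [] ∧ b ≠ []) →
      m.length + 1 + r ≤ k
  cross : ∀ (u1 u2 v1 v2 : V) (A B C D m1 m2 : List V),
      IsCyc G (u1 :: A ++ u2 :: B ++ v1 :: C ++ v2 :: D) →
      (u1 :: A ++ u2 :: B ++ v1 :: C ++ v2 :: D).length = 2 * r →
      IsP G (u1 :: m1 ++ [v1]) → IsP G (u2 :: m2 ++ [v2]) →
      (∀ x ∈ m1, x ∉ u1 :: A ++ u2 :: B ++ v1 :: C ++ v2 :: D) →
      (∀ x ∈ m2, x ∉ u1 :: A ++ u2 :: B ++ v1 :: C ++ v2 :: D) → m1.Disjoint m2 → False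

/-- one of the two sides of an ear avoids the rest of the cycle which contains the ear -/
theorem LE.side {r : ℕ} (L : LE G k r) {u v : V} {A B E R : List V} (hZ : IsCyc G (u :: A ++ v :: B))
    (hZl : (u :: A ++ v :: B).length = 2 * r) (hD : IsCyc G (u :: E ++ v :: R))
    (hE : ∀ x ∈ E, x ∉ u :: A ++ v :: B) : (∀ w ∈ A, w ∉ R) ∨ (∀ w ∈ B, w ∉ R) := by
  by_contra hcon
  push Not at hcon
  obtain ⟨⟨w, hwA, hwR⟩, ⟨w', hwB, hwR'⟩⟩ := hcon
  have hnZ := hZ.isP.1
  have hnD := hD.isP.1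
  have hAB : ∀ x, x ∈ A → x ∈ B → False := by
    intro x hx hx'
    rw [List.nodup_append'] at hnZ
    exact dj hnZ.2.2 (a := x) (by simp [hx]) (by simp [hx'])
  obtain ⟨R1, z, M, z', R2, hR, hM, hcase⟩ := exists_change (fun x => x ∈ A) (fun x => x ∈ B) R hAB
    ⟨w, hwR, hwA⟩ ⟨w', hwR', hwB⟩
  have hMR : ∀ x ∈ M, x ∈ R := by intro x hx; rw [hR]; simp [hx]
  have hMZ : ∀ x ∈ M, x ∉ u :: A ++ v :: B := by
    intro x hx hx'
    have hxR := hMR x hx
    rw [List.nodup_append'] at hnD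
    simp only [List.cons_append, List.mem_cons, List.mem_append] at hx'
    rcases hx' with h1 | h1 | h1 | h1
    · subst h1; exact dj hnD.2.2 (a := x) (by simp) (by simp [hxR])
    · exact (hM x hx).1 h1
    · subst h1; exact (List.nodup_cons.1 hnD.2.1).1 hxR
    · exact (hM x hx).2 h1
  have hP : IsP G (z :: M ++ [z']) := by
    refine hD.isP.of_infix ⟨u :: E ++ v :: R1, R2, ?_⟩
    rw [hR]; simp
  have hEu : IsP G (u :: E ++ [v]) := hD.isP.of_prefix ⟨R, by simp⟩
  have hEM : ∀ x ∈ E, x ∈ M → False := by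
    intro x hx hx'
    rw [List.nodup_append'] at hnD
    exact dj hnD.2.2 (a := x) (by simp [hx]) (by simp [hMR x hx'])
  rcases hcase with ⟨hz, hz'⟩ | ⟨hz, hz'⟩
  · obtain ⟨A1, A2, rfl⟩ := List.append_of_mem hz
    obtain ⟨B1, B2, rfl⟩ := List.append_of_mem hz'
    have e : u :: (A1 ++ z :: A2) ++ v :: (B1 ++ z' :: B2) = u :: A1 ++ z :: A2 ++ v :: B1 ++ z' :: B2 := by
      simp
    rw [e] at hZ hZl hE hMZ
    exact L.cross u z v z' A1 A2 B1 B2 E M hZ hZl hEu hP hE hMZ (fun x hx hx' => hEM x hx hx')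
  · obtain ⟨B1, B2, rfl⟩ := List.append_of_mem hz
    obtain ⟨A1, A2, rfl⟩ := List.append_of_mem hz'
    have e : u :: (A1 ++ z' :: A2) ++ v :: (B1 ++ z :: B2) = u :: A1 ++ z' :: A2 ++ v :: B1 ++ z :: B2 := by
      simp
    rw [e] at hZ hZl hE hMZ
    refine L.cross u z' v z A1 A2 B1 B2 E M.reverse hZ hZl hEu ?_ hE ?_ ?_
    · simpa using hP.reverse
    · intro x hx; exact hMZ x (by simpa using hx)
    · intro x hx hx'; exact hEM x hx (by simpa using hx')

/-- **one ear**: a `(k+1)`-cycle through exactly one of the two edges of `Z` at `x` follows `Z` and returns to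
`x` by one ear -/
theorem LE.one_ear {r : ℕ} (L : LE G k r) (h : PK G k) (hk : 3 ≤ k) (hrk : r ≤ k) (hr : 2 * k ≤ 3 * r)
    {x : V} {c d : List V} (hZ : IsCyc G (x :: c)) (hZl : (x :: c).length = 2 * r)
    (hD : IsCyc G (x :: d)) (hDl : (x :: d).length = k + 1) (hhd : c.head? = d.head?)
    (hlast : c.getLast? ≠ d.getLast?) :
    ∃ s M c', d = s ++ M ∧ c = s ++ c' ∧ (∀ w ∈ M, w ∉ x :: c) ∧ M.length + 1 + r ≤ k := by
  obtain ⟨s, u, v, hc, hd, huv⟩ := common_start c d
  have hc0 : c ≠ [] := by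
    rintro rfl
    have := hZ.2.2
    simp at this
  have hs : s ≠ [] := by
    rintro rfl
    simp at hc hd
    subst hc; subst hd
    rcases huv with h0 | h0 | ⟨α, u', β, v', h1, h2, h3⟩
    · exact hc0 h0
    · subst h0
      have := hD.2.2
      simp at this
    · subst h1; subst h2
      simp at hhd
      exact h3 hhd
  obtain ⟨s0, y, rfl⟩ : ∃ s0 y, s = s0 ++ [y] := by
    rcases List.eq_nil_or_concat s with h0 | ⟨l, b, h0⟩
    · exact absurd h0 hs
    · exact ⟨l, b, by simpa using h0⟩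
  have hcl : c.length + 1 = 2 * r := by simpa using hZl
  have hdl : d.length = k := by simpa using hDl
  have hZy : IsCyc G (y :: (u ++ x :: s0)) := by
    have h1 : IsCyc G ((x :: s0) ++ (y :: u)) := by
      have := hZ
      rw [hc] at this
      simpa using this
    simpa using h1.rot
  have hZyl : (y :: (u ++ x :: s0)).length = 2 * r := by
    rw [← hZl, hc]; simp; omega
  have hDy : IsCyc G (y :: (v ++ x :: s0)) := by
    have h1 : IsCyc G ((x :: s0) ++ (y :: v)) := by
      have := hD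
      rw [hd] at this
      simpa using this
    simpa using h1.rot
  have hmemZ : ∀ w, w ∈ y :: (u ++ x :: s0) ↔ w ∈ x :: c := by
    intro w; rw [hc]
    simp only [List.mem_cons, List.mem_append, List.not_mem_nil, or_false]
    tauto
  by_cases hv0 : v = []
  · subst hv0
    have hu0 : u ≠ [] := by
      rintro rfl
      rw [hc, hd] at hlast
      exact hlast rfl
    have hs0 : s0 ≠ [] := by
      rintro rfl
      simp at hd
      subst hd
      simp at hdl
      omega
    refine ⟨s0 ++ [y], [], u, by rw [hd], hc, by simp, ?_⟩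
    refine L.len y x u s0 [] (by simpa using hZy) (by simpa using hZyl) ?_ (by simp) (fun _ => ⟨hu0, hs0⟩)
    exact hDy.isP.of_prefix ⟨s0, by simp⟩
  by_cases hvZ : ∀ w ∈ v, w ∉ x :: c
  · refine ⟨s0 ++ [y], v, u, hd, hc, hvZ, ?_⟩
    refine L.len y x u s0 v (by simpa using hZy) (by simpa using hZyl) ?_ ?_ (fun h0 => absurd h0 hv0)
    · exact hDy.isP.of_prefix ⟨s0, by simp⟩
    · intro w hw hw'
      exact hvZ w hw ((hmemZ w).1 (by simpa using hw'))
  exfalso
  push Not at hvZ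
  obtain ⟨M, y', rest, hM, hy', hMZ⟩ := exists_first (fun w => w ∈ x :: c) v hvZ
  have hnD := hDy.isP.1
  have hnZ := hZy.isP.1
  have hy'v : y' ∈ v := by rw [hM]; simp
  have hy'u : y' ∈ u := by
    have h1 := (hmemZ y').2 hy'
    simp only [List.mem_cons, List.mem_append] at h1
    rcases h1 with h2 | h2 | h2 | h2
    · subst h2; exact absurd (List.mem_append_left _ hy'v) (List.nodup_cons.1 hnD).1
    · exact h2
    · subst h2
      have := (List.nodup_cons.1 hnD).2
      rw [List.nodup_append'] at this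
      exact absurd (by simp) (fun h => dj this.2.2 hy'v h)
    · have := (List.nodup_cons.1 hnD).2
      rw [List.nodup_append'] at this
      exact absurd (List.mem_cons_of_mem _ h2) (fun h => dj this.2.2 hy'v h)
  obtain ⟨c1, c2, hu⟩ := List.append_of_mem hy'u
  have hne1 : M = [] → c1 ≠ [] := by
    rintro rfl rfl
    rcases huv with h0 | h0 | ⟨α, u', β, v', h1, h2, h3⟩
    · rw [h0] at hu; simp at hu
    · exact hv0 h0
    · rw [h1] at hu; rw [h2] at hM
      simp at hu hM
      exact h3 (hu.1.trans hM.1.symm)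
  -- the first side
  have hZ1 : IsCyc G (y :: c1 ++ y' :: (c2 ++ x :: s0)) := by
    have := hZy; rw [hu] at this; simpa using this
  have hZ1l : (y :: c1 ++ y' :: (c2 ++ x :: s0)).length = 2 * r := by
    rw [← hZyl, hu]; simp
  have hD1 : IsCyc G (y :: M ++ y' :: (rest ++ x :: s0)) := by
    have := hDy; rw [hM] at this; simpa using this
  have hm1 : ∀ w, w ∈ y :: c1 ++ y' :: (c2 ++ x :: s0) ↔ w ∈ x :: c := by
    intro w; rw [← hmemZ, hu]
    simp only [List.cons_append, List.mem_cons, List.mem_append, List.append_assoc]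
  have hside1 : ∀ w ∈ c1, w ∉ rest ++ x :: s0 := by
    rcases L.side hZ1 hZ1l hD1 (fun w hw hw' => hMZ w hw ((hm1 w).1 hw')) with h1 | h1
    · exact h1
    · exact absurd (by simp) (h1 x (by simp))
  -- the last vertex on Z
  obtain ⟨X0, u2, M2, hX, hu2, hM2⟩ := exists_last (fun w => w ∈ x :: c) (y' :: rest) ⟨y', by simp, hy'⟩
  have hu2D : u2 ∈ y' :: rest := by rw [hX]; simp
  have hu2c : u2 ∈ y' :: c2 := by
    have h1 := (hm1 u2).2 hu2
    have hnD1 := hD1.isP.1
    rw [List.nodup_append'] at hnD1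
    have hrest : u2 ∉ x :: s0 := by
      intro h2
      have h3 := hnD1.2.1
      rw [show y' :: (rest ++ x :: s0) = (y' :: rest) ++ (x :: s0) by simp, List.nodup_append'] at h3
      exact h3.2.2 hu2D h2
    simp only [List.cons_append, List.mem_cons, List.mem_append] at h1 hrest
    rcases h1 with h2 | h2 | h2 | h2 | h2 | h2
    · exfalso
      subst h2
      exact dj hnD1.2.2 (a := u2) (by simp) (by simp only [List.mem_cons, List.mem_append] at hu2D ⊢; tauto)
    · exfalso
      rcases List.mem_cons.1 hu2D with h3 | h3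
      · subst h3
        have := hZ1.isP.1
        rw [List.nodup_append'] at this
        exact dj this.2.2 (a := u2) (by simp [h2]) (by simp)
      · exact hside1 u2 h2 (by simp [h3])
    · simp [h2]
    · simp [h2]
    · exact absurd (Or.inl h2) hrest
    · exact absurd (Or.inr h2) hrest
  obtain ⟨A0, S2, hA0⟩ := List.append_of_mem hu2c
  -- rewrite c and d
  have hc' : c = s0 ++ [y] ++ c1 ++ (A0 ++ [u2]) ++ S2 := by
    rw [hc, hu, hA0]; simp
  have hd' : d = s0 ++ [y] ++ M ++ (X0 ++ [u2]) ++ M2 := by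
    rw [hd, hM, hX]; simp
  have hX0h : (X0 ++ [u2]).head? = some y' := by
    have : (X0 ++ u2 :: M2).head? = some y' := by rw [← hX]; rfl
    cases X0 <;> simpa using this
  have hA0h : (A0 ++ [u2]).head? = some y' := by
    have : (A0 ++ u2 :: S2).head? = some y' := by rw [← hA0]; rfl
    cases A0 <;> simpa using this
  have hne2 : M2 = [] → S2 ≠ [] := by
    rintro rfl rfl
    apply hlast
    have key : ∀ (K A : List V) (u : V), (K ++ (A ++ [u]) ++ []).getLast? = some u := by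
      intro K A u
      rw [List.append_nil, ← List.append_assoc]
      exact List.getLast?_concat
    rw [hc', hd', key, key]
  have hZ2 : IsCyc G ((x :: (s0 ++ [y])) ++ c1 ++ (A0 ++ [u2]) ++ S2) := by
    have := hZ; rw [hc'] at this; simpa using this
  have hD2 : IsCyc G ((x :: (s0 ++ [y])) ++ M ++ (X0 ++ [u2]) ++ M2) := by
    have := hD; rw [hd'] at this; simpa using this
  have hmZ2 : ∀ w, w ∈ (x :: (s0 ++ [y])) ++ c1 ++ (A0 ++ [u2]) ++ S2 ↔ w ∈ x :: c := by
    intro w; rw [hc']; simp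
  -- rotations at u2
  have hZ3 : IsCyc G (u2 :: S2 ++ x :: (s0 ++ [y] ++ c1 ++ A0)) := by
    have h1 : IsCyc G ((x :: (s0 ++ [y]) ++ c1 ++ A0) ++ (u2 :: S2)) := by simpa using hZ2
    simpa using h1.rot
  have hZ3l : (u2 :: S2 ++ x :: (s0 ++ [y] ++ c1 ++ A0)).length = 2 * r := by
    rw [← hZl, hc']; simp; omega
  have hD3 : IsCyc G (u2 :: M2 ++ x :: (s0 ++ [y] ++ M ++ X0)) := by
    have h1 : IsCyc G ((x :: (s0 ++ [y]) ++ M ++ X0) ++ (u2 :: M2)) := by simpa using hD2
    simpa using h1.rot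
  have hmZ3 : ∀ w, w ∈ u2 :: S2 ++ x :: (s0 ++ [y] ++ c1 ++ A0) ↔ w ∈ x :: c := by
    intro w
    have e1 : u2 :: S2 ++ x :: (s0 ++ [y] ++ c1 ++ A0) = (u2 :: S2) ++ (x :: (s0 ++ [y]) ++ c1 ++ A0) := by
      simp
    have e2 : x :: c = (x :: (s0 ++ [y]) ++ c1 ++ A0) ++ (u2 :: S2) := by rw [hc']; simp
    rw [e1, e2]
    exact List.perm_append_comm.mem_iff
  have hside2 : ∀ w ∈ S2, w ∉ s0 ++ [y] ++ M ++ X0 := by
    rcases L.side hZ3 hZ3l hD3 (fun w hw hw' => hM2 w hw ((hmZ3 w).1 hw')) with h1 | h1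
    · exact h1
    · exact absurd (by simp) (h1 y (by simp))
  -- the ears
  have hE1 : IsP G (y :: M ++ [y']) := hD1.isP.of_prefix ⟨rest ++ x :: s0, by simp⟩
  have hE2 : IsP G (u2 :: M2 ++ [x]) := hD3.isP.of_prefix ⟨s0 ++ [y] ++ M ++ X0, by simp⟩
  have hF1 : IsP G (y :: c1 ++ [y']) := hZ1.isP.of_prefix ⟨c2 ++ x :: s0, by simp⟩
  have hF2 : IsP G (u2 :: S2 ++ [x]) := hZ3.isP.of_prefix ⟨s0 ++ [y] ++ c1 ++ A0, by simp⟩
  have o1 := L.odd y y' c1 (c2 ++ x :: s0) M hZ1 hZ1l hE1 (fun w hw hw' => hMZ w hw ((hm1 w).1 hw'))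
    (fun h0 => ⟨hne1 h0, by simp⟩)
  have o2 := L.odd u2 x S2 (s0 ++ [y] ++ c1 ++ A0) M2 hZ3 hZ3l hE2 (fun w hw hw' => hM2 w hw ((hmZ3 w).1 hw'))
    (fun h0 => ⟨hne2 h0, by simp⟩)
  have l1 := L.len y y' c1 (c2 ++ x :: s0) M hZ1 hZ1l hE1 (fun w hw hw' => hMZ w hw ((hm1 w).1 hw'))
    (fun h0 => ⟨hne1 h0, by simp⟩)
  have l2 := L.len u2 x S2 (s0 ++ [y] ++ c1 ++ A0) M2 hZ3 hZ3l hE2 (fun w hw hw' => hM2 w hw ((hmZ3 w).1 hw'))
    (fun h0 => ⟨hne2 h0, by simp⟩)
  -- the necklaces
  have hlc : s0.length + 1 + c1.length + (A0.length + 1) + S2.length + 1 = 2 * r := by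
    rw [← hcl, hc']; simp; omega
  have hld : s0.length + 1 + M.length + (X0.length + 1) + M2.length = k := by
    rw [← hdl, hd']; simp; omega
  have NZ : Neck G (x :: (s0 ++ [y])) c1 (A0 ++ [u2]) S2 M M2 := by
    refine mkNeck (a1 := y) (b1 := y') (a2 := u2) (b2 := x) hZ2 ?_ (by simp) hA0h (by simp) hE1 hE2 ?_ ?_ ?_ ?_
    · rw [show x :: (s0 ++ [y]) = (x :: s0) ++ [y] by simp]; exact List.getLast?_concat
    · intro w hw hw'; exact hMZ w hw ((hmZ2 w).1 hw')
    · intro w hw hw'; exact hM2 w hw ((hmZ2 w).1 hw')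
    · intro w hw hw'
      have := hD2.isP.1
      rw [List.nodup_append'] at this
      exact this.2.2 (by simp [hw]) hw'
    · simp; omega
  have ND : Neck G (x :: (s0 ++ [y])) M (X0 ++ [u2]) M2 c1 S2 := by
    have hnZ2 := hZ2.isP.1
    refine mkNeck (a1 := y) (b1 := y') (a2 := u2) (b2 := x) hD2 ?_ (by simp) hX0h (by simp) hF1 hF2 ?_ ?_ ?_ ?_
    · rw [show x :: (s0 ++ [y]) = (x :: s0) ++ [y] by simp]; exact List.getLast?_concat
    · intro w hw hw'
      -- w ∈ c1
      have hnZ1 := hZ1.isP.1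
      rw [List.nodup_append'] at hnZ1
      have a1 : w ∉ rest ++ x :: s0 := hside1 w hw
      have a2 : w ≠ y := by
        rintro rfl
        exact (List.nodup_cons.1 hnZ1.1).1 hw
      have a3 : w ≠ y' := by
        rintro rfl
        exact dj hnZ1.2.2 (a := w) (by simp [hw]) (by simp)
      have a4 : w ∉ M := fun h1 => hMZ w h1 ((hm1 w).1 (by simp [hw]))
      have e : x :: (s0 ++ [y]) ++ M ++ (X0 ++ [u2]) ++ M2 = (x :: s0) ++ ([y] ++ (M ++ (y' :: rest))) := by
        rw [hX]; simp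
      rw [e] at hw'
      rw [List.mem_append, not_or] at a1
      rcases List.mem_append.1 hw' with h1 | h1
      · exact a1.2 h1
      · rcases List.mem_append.1 h1 with h2 | h2
        · exact a2 (by simpa using h2)
        · rcases List.mem_append.1 h2 with h3 | h3
          · exact a4 h3
          · rcases List.mem_cons.1 h3 with h4 | h4
            · exact a3 h4
            · exact a1.1 h4
    · intro w hw hw'
      have hnZ3 := hZ3.isP.1
      rw [List.nodup_append'] at hnZ3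
      have a1 : w ∉ s0 ++ [y] ++ M ++ X0 := hside2 w hw
      have a2 : w ≠ u2 := by
        rintro rfl
        exact (List.nodup_cons.1 hnZ3.1).1 hw
      have a3 : w ≠ x := by
        rintro rfl
        exact dj hnZ3.2.2 (a := w) (by simp [hw]) (by simp)
      have a4 : w ∉ M2 := fun h1 => hM2 w h1 ((hmZ3 w).1 (by simp [hw]))
      have e : x :: (s0 ++ [y]) ++ M ++ (X0 ++ [u2]) ++ M2 =
          [x] ++ ((s0 ++ [y] ++ M ++ X0) ++ ([u2] ++ M2)) := by simp
      rw [e] at hw'
      rcases List.mem_append.1 hw' with h1 | h1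
      · exact a3 (by simpa using h1)
      · rcases List.mem_append.1 h1 with h2 | h2
        · exact a1 h2
        · rcases List.mem_append.1 h2 with h3 | h3
          · exact a2 (by simpa using h3)
          · exact a4 h3
    · intro w hw hw'
      rw [List.nodup_append'] at hnZ2
      exact hnZ2.2.2 (by simp [hw]) hw'
    · simp; omega
  obtain ⟨p1, hp1⟩ := o1
  obtain ⟨p2, hp2⟩ := o2
  have hZ4 : ¬ (k + 1 ≤ (A0 ++ [u2]).length + (x :: (s0 ++ [y])).length + (p1 + p2 + 1)) := by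
    intro h1
    refine NZ.main h (σ := p1 + p2 + 1) (by omega) ⟨p1, by omega⟩ ⟨p2, by omega⟩ h1 ?_
    simp; omega
  simp at hZ4
  refine ND.main h (σ := p1 + p2 + 1) (by omega) ⟨p1, by omega⟩ ⟨p2, by omega⟩ ?_ ?_
  · simp; omega
  · simp; omega

end Pool.Agent.Work.KZ
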