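import Pool.Agent.Work.MP_f0e709_co.T4b

/-! The ears of a long even cycle: short, of odd type, and no two of them cross (walk rule). -/

set_option autoImplicit false

namespace Pool.Agent.Work.KZ

variable {V : Type*} {G : SimpleGraph V} {k : ℕ}

/-- ears of an even cycle are short -/
theorem PK.ear_len (h : PK G k) {r : ℕ} (hrk : r ≤ k) {u v : V} {a b m : List V}
    (hZ : IsCyc G (u :: a ++ v :: b)) (hZl : (u :: a ++ v :: b).length = 2 * r)
    (hm : IsP G (u :: m ++ [v])) (hmZ : ∀ x ∈ m, x ∉ u :: a ++ v :: b) : m.length + 1 + r ≤ k := by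
  by_contra hcon
  push Not at hcon
  have hlen := hZ.2.2
  refine h.even_rule (r := r) (p := u) (z' := a ++ v :: b) (t := m.take (k - r)) (by omega) hrk
    (by simpa using hZ) (by simpa using hZl) ?_ ?_ ?_
  · have h1 : IsP G (u :: m) := hm.of_prefix ⟨[v], by simp⟩
    have := h1.take (k - r + 1)
    simpa using this
  · intro x hx hx'
    exact hmZ x (List.mem_of_mem_take hx) (by simp only [List.cons_append, List.mem_cons]; exact Or.inr hx')
  · rw [List.length_take]; omega

theorem PK.ear_odd_half (h : PK G k) {r : ℕ} (hrk : r ≤ k) (hr : 2 * k ≤ 3 * r) {u v : V} {a b m : List V}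
    (hZ : IsCyc G (u :: a ++ v :: b)) (hZl : (u :: a ++ v :: b).length = 2 * r)
    (hm : IsP G (u :: m ++ [v])) (hmZ : ∀ x ∈ m, x ∉ u :: a ++ v :: b) (hne : m = [] → a ≠ [])
    (hab : a.length ≤ b.length) : Odd (m.length + a.length) := by
  by_contra hcon
  rw [Nat.not_odd_iff_even] at hcon
  obtain ⟨q, hq⟩ := hcon
  have hlen := h.ear_len hrk hZ hZl hm hmZ
  have hpos : 1 ≤ m.length + a.length := by
    by_cases h0 : m = []
    · have := List.length_pos_iff.2 (hne h0); omega
    · have := List.length_pos_iff.2 h0; omega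
  have hY : IsCyc G (u :: (a ++ v :: m.reverse)) := hZ.ear_cycle hm hmZ (by omega)
  have hfl := hZ.flip
  simp at hZl
  have hnZ := hZ.isP.1
  rw [List.nodup_append'] at hnZ
  refine h.even_rule (r := q + 1) (p := u) (z' := a ++ v :: m.reverse) (t := b.reverse.take (k - (q + 1)))
    (by omega) (by omega) hY (by simp; omega) ?_ ?_ ?_
  · have h1 : IsP G (u :: b.reverse) := hfl.isP.of_prefix ⟨v :: a.reverse, by simp⟩
    have := h1.take (k - (q + 1) + 1)
    simpa using this
  · intro x hx hx'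
    have hxb : x ∈ b := by simpa using List.mem_of_mem_take hx
    simp only [List.mem_append, List.mem_cons, List.mem_reverse] at hx'
    rcases hx' with h1 | h1 | h1
    · exact dj hnZ.2.2 (a := x) (by simp [h1]) (by simp [hxb])
    · subst h1; exact (List.nodup_cons.1 hnZ.2.1).1 hxb
    · exact hmZ x h1 (by simp [hxb])
  · rw [List.length_take, List.length_reverse]; omega

/-- ears of a long even cycle are of odd type -/
theorem PK.ear_odd (h : PK G k) {r : ℕ} (hrk : r ≤ k) (hr : 2 * k ≤ 3 * r) {u v : V} {a b m : List V}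
    (hZ : IsCyc G (u :: a ++ v :: b)) (hZl : (u :: a ++ v :: b).length = 2 * r)
    (hm : IsP G (u :: m ++ [v])) (hmZ : ∀ x ∈ m, x ∉ u :: a ++ v :: b)
    (hne : m = [] → a ≠ [] ∧ b ≠ []) : Odd (m.length + a.length) := by
  rcases Nat.le_total a.length b.length with hab | hab
  · exact h.ear_odd_half hrk hr hZ hZl hm hmZ (fun h0 => (hne h0).1) hab
  · have h1 := h.ear_odd_half hrk hr hZ.flip (by rw [← hZl]; simp; omega) hm
      (fun x hx hx' => hmZ x hx (IsCyc.mem_flip.1 hx')) (fun h0 => by simpa using (hne h0).2)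
      (by simpa using hab)
    obtain ⟨q, hq⟩ := h1
    simp at hq hZl
    exact ⟨r - 1 + q - b.length, by omega⟩

/-- **the walk rule**: two cycles which share the path `U1 ++ y :: U2` and the vertex after it -/
theorem PK.walk_rule (h : PK G k) (hk : 1 ≤ k) {U1 U2 F1 F2 Ql Qs : List V} {y x u : V}
    (hl : IsCyc G (U1 ++ y :: U2 ++ F1 ++ x :: F2 ++ Ql)) (hs : IsCyc G (U1 ++ y :: U2 ++ u :: Qs))
    (hF : (F1 ++ [x]).head? = some u)
    (hdis : ∀ v ∈ F1 ++ [x], v = u ∨ v ∉ U1 ++ y :: U2 ++ u :: Qs)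
    (hl1 : U1.length + Ql.length + F2.length + 2 = k + 1)
    (hl2 : U1.length + Qs.length + F1.length + 2 = k + 1)
    (hne : (F1 ++ x :: F2 ++ Ql).getLast? ≠ (u :: Qs).getLast?) : False := by
  have P1 : IsP G ((y :: U1.reverse) ++ (Ql.reverse ++ F2.reverse ++ [x])) := by
    have h1 : IsCyc G ((U1 ++ [y]) ++ (U2 ++ F1 ++ x :: F2 ++ Ql)) := by simpa using hl
    have h2 := h1.rot.reverse
    exact h2.isP.of_prefix ⟨F1.reverse ++ U2.reverse, by simp⟩
  have P2' : IsP G ((y :: U1.reverse) ++ (Qs.reverse ++ [u])) := by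
    have h1 : IsCyc G ((U1 ++ [y]) ++ (U2 ++ u :: Qs)) := by simpa using hs
    have h2 := h1.rot.reverse
    exact h2.isP.of_prefix ⟨U2.reverse, by simp⟩
  have P2 : IsP G ((y :: U1.reverse) ++ (Qs.reverse ++ (F1 ++ [x]))) := by
    obtain ⟨F, hFe⟩ : ∃ F, F1 ++ [x] = u :: F := by
      cases hE : F1 ++ [x] with
      | nil => simp at hE
      | cons w F =>
        rw [hE] at hF
        simp at hF
        exact ⟨F, by rw [hF]⟩
    rw [hFe] at hdis ⊢
    have hPF : IsP G (u :: F) := by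
      rw [← hFe]
      refine hl.isP.of_infix ⟨U1 ++ y :: U2, F2 ++ Ql, by simp⟩
    have h1 : IsP G (((y :: U1.reverse) ++ Qs.reverse) ++ [u]) := by simpa using P2'
    have h2 := h1.glue hPF ?_
    · simpa using h2
    · intro v hv hv'
      have h3 := hdis v (by simp [hv])
      rcases h3 with h3 | h3
      · subst h3
        exact (isP_cons.1 hPF).1 hv
      · apply h3
        simp only [List.cons_append, List.mem_cons, List.mem_append, List.mem_reverse] at hv' ⊢
        tauto
  have heq := h.uniq P1 P2 (by simp; omega) (by simp; omega) (by simp)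
    (by
      rw [show (y :: U1.reverse) ++ (Ql.reverse ++ F2.reverse ++ [x]) =
        ((y :: U1.reverse) ++ (Ql.reverse ++ F2.reverse)) ++ [x] by simp,
        show (y :: U1.reverse) ++ (Qs.reverse ++ (F1 ++ [x])) =
        ((y :: U1.reverse) ++ (Qs.reverse ++ F1)) ++ [x] by simp, List.getLast?_concat,
        List.getLast?_concat]) hk
  have h4 := congrArg List.head? (List.append_cancel_left heq)
  apply hne
  have e1 : (F1 ++ x :: F2 ++ Ql).getLast? = (Ql.reverse ++ F2.reverse ++ [x]).head? := by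
    rw [← List.head?_reverse]
    simp only [List.reverse_append, List.reverse_cons]
    rw [← List.append_assoc, ← List.append_assoc]
    rw [List.head?_append_of_ne_nil _ (by simp)]
  have e2 : (u :: Qs).getLast? = (Qs.reverse ++ (F1 ++ [x])).head? := by
    rw [← List.head?_reverse, List.reverse_cons]
    by_cases hQ : Qs = []
    · subst hQ
      simpa using hF.symm
    · have hQ' : Qs.reverse ≠ [] := by simpa using hQ
      rw [List.head?_append_of_ne_nil _ hQ', List.head?_append_of_ne_nil _ hQ']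
  rw [e1, e2, h4]

/-- two crossing ears -/
structure Cr (G : SimpleGraph V) (k r : ℕ) (u1 u2 v1 v2 : V) (A B C D m1 m2 : List V) : Prop where
  Z : IsCyc G (u1 :: A ++ u2 :: B ++ v1 :: C ++ v2 :: D)
  Zl : (u1 :: A ++ u2 :: B ++ v1 :: C ++ v2 :: D).length = 2 * r
  p1 : IsP G (u1 :: m1 ++ [v1])
  p2 : IsP G (u2 :: m2 ++ [v2])
  z1 : ∀ x ∈ m1, x ∉ u1 :: A ++ u2 :: B ++ v1 :: C ++ v2 :: D
  z2 : ∀ x ∈ m2, x ∉ u1 :: A ++ u2 :: B ++ v1 :: C ++ v2 :: D
  d : m1.Disjoint m2
  l1 : m1.length + 1 + r ≤ k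
  l2 : m2.length + 1 + r ≤ k
  o1 : Odd (m1.length + (A.length + B.length + 1))
  o2 : Odd (m2.length + (B.length + C.length + 1))

variable {r : ℕ} {u1 u2 v1 v2 : V} {A B C D m1 m2 : List V}

theorem isP_ear_reverse {u v : V} {m : List V} (h : IsP G (u :: m ++ [v])) : IsP G (v :: m.reverse ++ [u]) := by
  simpa using h.reverse

/-- rotation by one -/
theorem Cr.rot (K : Cr G k r u1 u2 v1 v2 A B C D m1 m2) : Cr G k r u2 v1 v2 u1 B C D A m2 m1.reverse := by
  have e1 : u1 :: A ++ u2 :: B ++ v1 :: C ++ v2 :: D = (u1 :: A) ++ (u2 :: B ++ v1 :: C ++ v2 :: D) := by simp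
  have e2 : u2 :: B ++ v1 :: C ++ v2 :: D ++ u1 :: A = (u2 :: B ++ v1 :: C ++ v2 :: D) ++ (u1 :: A) := by simp
  have hm : ∀ x, x ∈ u2 :: B ++ v1 :: C ++ v2 :: D ++ u1 :: A ↔ x ∈ u1 :: A ++ u2 :: B ++ v1 :: C ++ v2 :: D := by
    intro x; rw [e1, e2]; exact List.perm_append_comm.mem_iff
  obtain ⟨q1, hq1⟩ := K.o1
  obtain ⟨q2, hq2⟩ := K.o2
  refine ⟨?_, ?_, K.p2, isP_ear_reverse K.p1, ?_, ?_, ?_, K.l2, by simpa using K.l1, ⟨q2, by omega⟩, ?_⟩
  · rw [e2]
    have := K.Z
    rw [e1] at this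
    exact this.rot
  · rw [← K.Zl]; simp; omega
  · intro x hx hx'; exact K.z2 x hx ((hm x).1 hx')
  · intro x hx hx'; exact K.z1 x (by simpa using hx) ((hm x).1 hx')
  · intro x hx hx'; exact K.d (by simpa using hx') hx
  · have hl := K.Zl
    simp at hl
    refine ⟨m1.length + r - 2 - q1, ?_⟩
    simp
    omega

/-- reflection -/
theorem Cr.mir (K : Cr G k r u1 u2 v1 v2 A B C D m1 m2) :
    Cr G k r u2 u1 v2 v1 A.reverse D.reverse C.reverse B.reverse m2 m1 := by
  have e1 : u1 :: A ++ u2 :: B ++ v1 :: C ++ v2 :: D = (u1 :: A ++ [u2]) ++ (B ++ v1 :: C ++ v2 :: D) := by simp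
  have e2 : u2 :: A.reverse ++ u1 :: D.reverse ++ v2 :: C.reverse ++ v1 :: B.reverse =
      ((B ++ v1 :: C ++ v2 :: D) ++ (u1 :: A ++ [u2])).reverse := by simp
  have hm : ∀ x, x ∈ u2 :: A.reverse ++ u1 :: D.reverse ++ v2 :: C.reverse ++ v1 :: B.reverse ↔
      x ∈ u1 :: A ++ u2 :: B ++ v1 :: C ++ v2 :: D := by
    intro x; rw [e1, e2, List.mem_reverse]; exact List.perm_append_comm.mem_iff
  obtain ⟨q1, hq1⟩ := K.o1
  obtain ⟨q2, hq2⟩ := K.o2
  have hl := K.Zl
  simp at hl
  refine ⟨?_, ?_, K.p2, K.p1, ?_, ?_, K.d.symm, K.l2, K.l1, ?_, ?_⟩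
  · rw [e2]
    have := K.Z
    rw [e1] at this
    exact this.rot.reverse
  · rw [← K.Zl]; simp; omega
  · intro x hx hx'; exact K.z2 x hx ((hm x).1 hx')
  · intro x hx hx'; exact K.z1 x hx ((hm x).1 hx')
  · simp only [List.length_reverse]
    refine ⟨m2.length + r - 2 - q2, by omega⟩
  · simp only [List.length_reverse]
    refine ⟨m1.length + r - 2 - q1, by omega⟩

/-- the second four-cycle of the subdivided `K4` -/
theorem Cr.Y (K : Cr G k r u1 u2 v1 v2 A B C D m1 m2) :
    IsCyc G (u1 :: A ++ u2 :: m2 ++ v2 :: C.reverse ++ v1 :: m1.reverse) := by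
  have hZ := K.Z
  have hl : 4 ≤ (u1 :: A ++ u2 :: B ++ v1 :: C ++ v2 :: D).length := by simp; omega
  -- replace `B` by ... : first cut out the path `v1 .. v2` reversed
  have n1 := hZ.isP.1
  -- path u1 A u2 m2 v2 C.rev v1
  have hU : IsP G (u1 :: A ++ [u2]) := hZ.isP.of_prefix ⟨B ++ v1 :: C ++ v2 :: D, by simp⟩
  have hC : IsP G (v1 :: C ++ [v2]) := hZ.isP.of_infix ⟨u1 :: A ++ u2 :: B, D, by simp⟩
  have hC' : IsP G (v2 :: C.reverse ++ [v1]) := isP_ear_reverse hC
  have hm1' : IsP G (v1 :: m1.reverse ++ [u1]) := isP_ear_reverse K.p1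
  have e0 : u1 :: A ++ u2 :: B ++ v1 :: C ++ v2 :: D = (u1 :: A ++ [u2]) ++ (B ++ (v1 :: C ++ [v2]) ++ D) := by simp
  have n2 := n1
  rw [e0, List.nodup_append'] at n2
  have hdUC : ∀ x, x ∈ u1 :: A ++ [u2] → x ∈ v1 :: C ++ [v2] → False := by
    intro x hx hx'
    exact n2.2.2 hx (by simp only [List.mem_append] at hx' ⊢; exact Or.inl (Or.inr hx'))
  have z1' : ∀ x ∈ m1, x ∉ u1 :: A ++ [u2] ∧ x ∉ v1 :: C ++ [v2] := by
    intro x hx
    have := K.z1 x hx
    rw [e0] at this
    simp only [List.mem_append, not_or] at this ⊢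
    tauto
  have z2' : ∀ x ∈ m2, x ∉ u1 :: A ++ [u2] ∧ x ∉ v1 :: C ++ [v2] := by
    intro x hx
    have := K.z2 x hx
    rw [e0] at this
    simp only [List.mem_append, not_or] at this ⊢
    tauto
  -- glue
  have hP1 : IsP G ((u1 :: A) ++ u2 :: (m2 ++ [v2])) := by
    refine hU.glue (by simpa using K.p2) ?_
    intro x hx hx'
    rcases List.mem_append.1 hx with h1 | h1
    · exact (z2' x h1).1 (by simp only [List.mem_append]; exact Or.inl hx')
    · have : x = v2 := by simpa using h1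
      subst this
      exact hdUC x (by simp only [List.mem_append]; exact Or.inl hx') (by simp)
  have hP2 : IsP G ((u1 :: A ++ u2 :: m2) ++ v2 :: (C.reverse ++ [v1])) := by
    refine IsP.glue (by simpa using hP1) (by simpa using hC') ?_
    intro x hx hx'
    have hx2 : x ∈ v1 :: C ++ [v2] := by simp at hx ⊢; tauto
    have hx3 : x ∈ u1 :: A ++ [u2] ∨ x ∈ m2 := by simp at hx' ⊢; tauto
    rcases hx3 with h1 | h1
    · exact hdUC x h1 hx2
    · exact (z2' x h1).2 hx2
  have hlen2 : 3 ≤ (u1 :: A ++ u2 :: m2 ++ v2 :: (C.reverse ++ [v1])).length := by simp; omega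
  by_cases h0 : m1 = []
  · subst h0
    refine ⟨by simpa using hP2, ?_, by simpa using hlen2⟩
    intro x hx y hy
    have hx' : x = v1 := by
      rw [show u1 :: A ++ u2 :: m2 ++ v2 :: C.reverse ++ v1 :: [].reverse =
        (u1 :: A ++ u2 :: m2 ++ v2 :: C.reverse) ++ [v1] by simp, List.getLast?_concat] at hx
      simpa using hx.symm
    have hy' : y = u1 := by simpa using hy.symm
    subst hx'; subst hy'
    have h1 : IsP G (x :: ([] ++ [y])) := by simpa using hm1'
    exact (isP_cons.1 h1).2.2 y (by simp)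
  · have hm1r : m1.reverse ≠ [] := by simpa using h0
    have h1 : IsP G (v1 :: (m1.reverse ++ [u1])) := by simpa using hm1'
    rw [isP_cons] at h1
    have h2 := isP_concat.1 h1.2.1
    have : IsCyc G ((u1 :: A ++ u2 :: m2 ++ v2 :: (C.reverse ++ [v1])) ++ m1.reverse) := by
      rw [isCyc_append (by simp) hm1r]
      refine ⟨hP2, h2.1, ?_, ?_, ?_, by simp at hlen2 ⊢; omega⟩
      · intro x hx hx'
        rw [List.mem_reverse] at hx'
        have hx3 : x ∈ u1 :: A ++ [u2] ∨ x ∈ m2 ∨ x ∈ v1 :: C ++ [v2] := by simp at hx ⊢; tauto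
        rcases hx3 with h3 | h3 | h3
        · exact (z1' x hx').1 h3
        · exact K.d hx' h3
        · exact (z1' x hx').2 h3
      · intro x hx y hy
        have hx' : x = v1 := by
          rw [show u1 :: A ++ u2 :: m2 ++ v2 :: (C.reverse ++ [v1]) =
            (u1 :: A ++ u2 :: m2 ++ v2 :: C.reverse) ++ [v1] by simp, List.getLast?_concat] at hx
          simpa using hx.symm
        subst hx'
        exact h1.2.2 y (by rw [List.head?_append_of_ne_nil _ hm1r]; exact hy)
      · intro x hx y hy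
        have hy' : y = u1 := by simpa using hy.symm
        subst hy'
        exact h2.2.2 x hx
    simpa using this

theorem Cr.base (K : Cr G k r u1 u2 v1 v2 A B C D m1 m2) (h : PK G k) (hk : 1 ≤ k) {ρ : ℕ}
    (hρ : A.length + C.length + m1.length + m2.length + 4 = 2 * ρ) (hρκ : k + 1 ≤ r + ρ)
    (hAC : C.length ≤ A.length) (h1 : ρ ≤ r → D.length ≤ B.length)
    (h2 : r < ρ → m1.length ≤ m2.length) : False := by
  have hl := K.Zl
  simp at hl
  have hl1 := K.l1
  have hl2 := K.l2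
  have hY := K.Y
  have hnZ := K.Z.isP.1
  have hnY := hY.isP.1
  -- split `u1 :: A`
  obtain ⟨U1, y, U2, hU, hU2⟩ : ∃ U1 y U2, u1 :: A = U1 ++ y :: U2 ∧ U2.length + 1 = r + ρ - k := by
    have hlt : A.length + 1 - (r + ρ - k) < (u1 :: A).length := by simp; omega
    refine ⟨(u1 :: A).take (A.length + 1 - (r + ρ - k)), (u1 :: A)[A.length + 1 - (r + ρ - k)],
      (u1 :: A).drop (A.length + 1 - (r + ρ - k) + 1), ?_, ?_⟩
    · rw [List.getElem_cons_drop, List.take_append_drop]
    · rw [List.length_drop]; simp; omega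
  have hUl := congrArg List.length hU
  simp at hUl
  rcases Nat.lt_or_ge r ρ with hc | hc
  · -- `Y` is longer
    have hm := h2 hc
    obtain ⟨F1, x, F2, hF, hF1⟩ : ∃ F1 x F2, u2 :: m2 = F1 ++ x :: F2 ∧ F1.length = ρ - r := by
      have hlt : ρ - r < (u2 :: m2).length := by simp; omega
      refine ⟨(u2 :: m2).take (ρ - r), (u2 :: m2)[ρ - r], (u2 :: m2).drop (ρ - r + 1), ?_, ?_⟩
      · rw [List.getElem_cons_drop, List.take_append_drop]
      · rw [List.length_take]; simp; omega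
    have hFl := congrArg List.length hF
    simp at hFl
    refine h.walk_rule hk (U1 := U1) (U2 := U2) (y := y) (x := x) (u := u2) (F1 := F1) (F2 := F2)
      (Ql := v2 :: C.reverse ++ v1 :: m1.reverse) (Qs := B ++ v1 :: C ++ v2 :: D) ?_ ?_ ?_ ?_ ?_ ?_ ?_
    · have e : U1 ++ y :: U2 ++ F1 ++ x :: F2 ++ (v2 :: C.reverse ++ v1 :: m1.reverse) =
          (U1 ++ y :: U2) ++ (F1 ++ x :: F2) ++ (v2 :: C.reverse ++ v1 :: m1.reverse) := by simp
      rw [e, ← hU, ← hF]
      simpa using hY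
    · have e : U1 ++ y :: U2 ++ u2 :: (B ++ v1 :: C ++ v2 :: D) =
          (U1 ++ y :: U2) ++ (u2 :: (B ++ v1 :: C ++ v2 :: D)) := by simp
      rw [e, ← hU]
      simpa using K.Z
    · have : (F1 ++ x :: F2).head? = some u2 := by rw [← hF]; rfl
      cases F1 <;> simpa using this
    · intro v hv
      have hv2 : v ∈ u2 :: m2 := by rw [hF]; simp at hv ⊢; tauto
      rcases List.mem_cons.1 hv2 with h3 | h3
      · exact Or.inl h3
      · right
        intro h4
        refine K.z2 v h3 ?_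
        have e : U1 ++ y :: U2 ++ u2 :: (B ++ v1 :: C ++ v2 :: D) =
          (U1 ++ y :: U2) ++ (u2 :: (B ++ v1 :: C ++ v2 :: D)) := by simp
        rw [e, ← hU] at h4
        simpa using h4
    · simp; omega
    · simp; omega
    · -- last vertices
      intro he
      have e1 : (F1 ++ x :: F2 ++ (v2 :: C.reverse ++ v1 :: m1.reverse)).getLast? = (m1 ++ [v1]).head? := by
        rw [← List.append_assoc, List.getLast?_append_of_ne_nil _ (by simp), ← List.head?_reverse]
        simp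
      have e2 : (u2 :: (B ++ v1 :: C ++ v2 :: D)).getLast? = (D.reverse ++ [v2]).head? := by
        rw [show u2 :: (B ++ v1 :: C ++ v2 :: D) = (u2 :: (B ++ v1 :: C)) ++ (v2 :: D) by simp,
          List.getLast?_append_of_ne_nil _ (by simp), ← List.head?_reverse]
        simp
      rw [e1, e2] at he
      obtain ⟨α, L, hL⟩ : ∃ α L, m1 ++ [v1] = α :: L := List.exists_cons_of_ne_nil (by simp)
      obtain ⟨β, L', hL'⟩ : ∃ α L, D.reverse ++ [v2] = α :: L := List.exists_cons_of_ne_nil (by simp)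
      rw [hL, hL'] at he
      have hαβ : α = β := by simpa using he
      have hα : α ∈ m1 ++ [v1] := by rw [hL]; simp
      have hβ : α ∈ D.reverse ++ [v2] := by rw [hL', hαβ]; simp
      have hβ' : α ∈ v2 :: D := by simp at hβ ⊢; tauto
      rcases List.mem_append.1 hα with h3 | h3
      · exact K.z1 α h3 (by simp only [List.mem_append]; exact Or.inr hβ')
      · have h4 : α = v1 := by simpa using h3
        subst h4
        rw [List.nodup_append'] at hnZ
        exact dj hnZ.2.2 (a := α) (by simp) hβ'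
  · -- `Z` is longer
    have hBD := h1 hc
    obtain ⟨F1, x, F2, hF, hF1⟩ : ∃ F1 x F2, u2 :: B = F1 ++ x :: F2 ∧ F1.length = r - ρ := by
      have hlt : r - ρ < (u2 :: B).length := by simp; omega
      refine ⟨(u2 :: B).take (r - ρ), (u2 :: B)[r - ρ], (u2 :: B).drop (r - ρ + 1), ?_, ?_⟩
      · rw [List.getElem_cons_drop, List.take_append_drop]
      · rw [List.length_take]; simp; omega
    have hFl := congrArg List.length hF
    simp at hFl
    refine h.walk_rule hk (U1 := U1) (U2 := U2) (y := y) (x := x) (u := u2) (F1 := F1) (F2 := F2)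
      (Ql := v1 :: C ++ v2 :: D) (Qs := m2 ++ v2 :: C.reverse ++ v1 :: m1.reverse) ?_ ?_ ?_ ?_ ?_ ?_ ?_
    · have e : U1 ++ y :: U2 ++ F1 ++ x :: F2 ++ (v1 :: C ++ v2 :: D) =
          (U1 ++ y :: U2) ++ (F1 ++ x :: F2) ++ (v1 :: C ++ v2 :: D) := by simp
      rw [e, ← hU, ← hF]
      simpa using K.Z
    · have e : U1 ++ y :: U2 ++ u2 :: (m2 ++ v2 :: C.reverse ++ v1 :: m1.reverse) =
          (U1 ++ y :: U2) ++ (u2 :: (m2 ++ v2 :: C.reverse ++ v1 :: m1.reverse)) := by simp
      rw [e, ← hU]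
      simpa using hY
    · have : (F1 ++ x :: F2).head? = some u2 := by rw [← hF]; rfl
      cases F1 <;> simpa using this
    · intro v hv
      have hv2 : v ∈ u2 :: B := by rw [hF]; simp at hv ⊢; tauto
      rcases List.mem_cons.1 hv2 with h3 | h3
      · exact Or.inl h3
      · right
        intro h4
        have e : U1 ++ y :: U2 ++ u2 :: (m2 ++ v2 :: C.reverse ++ v1 :: m1.reverse) =
          (U1 ++ y :: U2) ++ (u2 :: (m2 ++ v2 :: C.reverse ++ v1 :: m1.reverse)) := by simp
        rw [e, ← hU] at h4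
        -- `v ∈ B`
        have e3 : u1 :: A ++ u2 :: B ++ v1 :: C ++ v2 :: D = (u1 :: A ++ [u2]) ++ (B ++ (v1 :: C ++ v2 :: D)) := by simp
        have n3 := hnZ
        rw [e3, List.nodup_append'] at n3
        have n4 := n3.2.1
        rw [List.nodup_append'] at n4
        have b1 : v ∉ u1 :: A ++ [u2] := fun h5 => n3.2.2 h5 (by simp [h3])
        have b2 : v ∉ v1 :: C ++ v2 :: D := fun h5 => n4.2.2 h3 h5
        have b3 : v ∉ m1 := fun h5 => K.z1 v h5 (by rw [e3]; simp [h3])
        have b4 : v ∉ m2 := fun h5 => K.z2 v h5 (by rw [e3]; simp [h3])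
        simp only [List.cons_append, List.mem_cons, List.mem_append, List.mem_reverse, List.not_mem_nil,
          or_false, not_or] at h4 b1 b2
        tauto
    · simp; omega
    · simp; omega
    · intro he
      have e1 : (F1 ++ x :: F2 ++ (v1 :: C ++ v2 :: D)).getLast? = (D.reverse ++ [v2]).head? := by
        rw [← List.append_assoc, List.getLast?_append_of_ne_nil _ (by simp), ← List.head?_reverse]
        simp
      have e2 : (u2 :: (m2 ++ v2 :: C.reverse ++ v1 :: m1.reverse)).getLast? = (m1 ++ [v1]).head? := by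
        rw [show u2 :: (m2 ++ v2 :: C.reverse ++ v1 :: m1.reverse) =
          (u2 :: (m2 ++ v2 :: C.reverse)) ++ (v1 :: m1.reverse) by simp,
          List.getLast?_append_of_ne_nil _ (by simp), ← List.head?_reverse]
        simp
      rw [e1, e2] at he
      obtain ⟨α, L, hL⟩ : ∃ α L, m1 ++ [v1] = α :: L := List.exists_cons_of_ne_nil (by simp)
      obtain ⟨β, L', hL'⟩ : ∃ α L, D.reverse ++ [v2] = α :: L := List.exists_cons_of_ne_nil (by simp)
      rw [hL, hL'] at he
      have hαβ : β = α := by simpa using he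
      have hα : α ∈ m1 ++ [v1] := by rw [hL]; simp
      have hβ : α ∈ D.reverse ++ [v2] := by rw [hL', hαβ]; simp
      have hβ' : α ∈ v2 :: D := by simp at hβ ⊢; tauto
      rcases List.mem_append.1 hα with h3 | h3
      · exact K.z1 α h3 (by simp only [List.mem_append]; exact Or.inr hβ')
      · have h4 : α = v1 := by simpa using h3
        subst h4
        rw [List.nodup_append'] at hnZ
        exact dj hnZ.2.2 (a := α) (by simp) hβ'

theorem Cr.base1 (K : Cr G k r u1 u2 v1 v2 A B C D m1 m2) (h : PK G k) (hk : 1 ≤ k) {ρ : ℕ}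
    (hρ : A.length + C.length + m1.length + m2.length + 4 = 2 * ρ) (hρκ : k + 1 ≤ r + ρ)
    (hAC : C.length ≤ A.length) : False := by
  by_cases h1 : (ρ ≤ r → D.length ≤ B.length) ∧ (r < ρ → m1.length ≤ m2.length)
  · exact K.base h hk hρ hρκ hAC h1.1 h1.2
  · refine K.mir.base h hk (ρ := ρ) (by simp; omega) hρκ (by simpa using hAC) ?_ ?_
    · intro h2
      simp only [List.length_reverse]
      by_contra h3
      exact h1 ⟨fun _ => by omega, fun h4 => by omega⟩
    · intro h2
      by_contra h3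
      exact h1 ⟨fun _ => by omega, fun h4 => by omega⟩

theorem Cr.base2 (K : Cr G k r u1 u2 v1 v2 A B C D m1 m2) (h : PK G k) (hk : 1 ≤ k) {ρ : ℕ}
    (hρ : A.length + C.length + m1.length + m2.length + 4 = 2 * ρ) (hρκ : k + 1 ≤ r + ρ) : False := by
  by_cases hAC : C.length ≤ A.length
  · exact K.base1 h hk hρ hρκ hAC
  · exact K.rot.rot.base1 h hk (ρ := ρ) (by simp; omega) hρκ (by omega)

/-- **no two ears cross** -/
theorem Cr.false (K : Cr G k r u1 u2 v1 v2 A B C D m1 m2) (h : PK G k) (hk : 1 ≤ k)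
    (hr : 2 * k ≤ 3 * r) : False := by
  obtain ⟨q1, hq1⟩ := K.o1
  obtain ⟨q2, hq2⟩ := K.o2
  have hl := K.Zl
  simp at hl
  by_cases hc : k + 1 ≤ r + (q1 + q2 - B.length + 2)
  · exact K.base2 h hk (ρ := q1 + q2 - B.length + 2) (by omega) hc
  · exact K.rot.base2 h hk (ρ := r + m1.length + m2.length + 2 - (q1 + q2 - B.length + 2))
      (by simp; omega) (by omega)

theorem PK.toLE (h : PK G k) (hk : 1 ≤ k) (hrk : r ≤ k) (hr : 2 * k ≤ 3 * r) : LE G k r where
  odd := fun u v a b m hZ hZl hm hmZ hne => h.ear_odd hrk hr hZ hZl hm hmZ hne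
  len := fun u v a b m hZ hZl hm hmZ _ => h.ear_len hrk hZ hZl hm hmZ
  cross := by
    intro u1 u2 v1 v2 A B C D m1 m2 hZ hZl p1 p2 z1 z2 d
    have e1 : u1 :: A ++ u2 :: B ++ v1 :: C ++ v2 :: D = u1 :: (A ++ u2 :: B) ++ v1 :: (C ++ v2 :: D) := by simp
    have e2 : u2 :: (B ++ v1 :: C) ++ v2 :: (D ++ u1 :: A) = (u2 :: B ++ v1 :: C ++ v2 :: D) ++ (u1 :: A) := by simp
    have e3 : u1 :: A ++ u2 :: B ++ v1 :: C ++ v2 :: D = (u1 :: A) ++ (u2 :: B ++ v1 :: C ++ v2 :: D) := by simp
    have hm : ∀ x, x ∈ u2 :: (B ++ v1 :: C) ++ v2 :: (D ++ u1 :: A) ↔ x ∈ u1 :: A ++ u2 :: B ++ v1 :: C ++ v2 :: D := by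
      intro x; rw [e2, e3]; exact List.perm_append_comm.mem_iff
    have hZ2 : IsCyc G (u2 :: (B ++ v1 :: C) ++ v2 :: (D ++ u1 :: A)) := by
      rw [e2]
      have := hZ
      rw [e3] at this
      exact this.rot
    have hZ2l : (u2 :: (B ++ v1 :: C) ++ v2 :: (D ++ u1 :: A)).length = 2 * r := by
      rw [← hZl]; simp; omega
    have z2' : ∀ x ∈ m2, x ∉ u2 :: (B ++ v1 :: C) ++ v2 :: (D ++ u1 :: A) := by
      intro x hx hx'; exact z2 x hx ((hm x).1 hx')
    have l2 := h.ear_len hrk hZ2 hZ2l p2 z2'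
    have o2 := h.ear_odd hrk hr hZ2 hZ2l p2 z2' (by simp)
    have hZ1 := hZ
    have hZ1l := hZl
    have z1' := z1
    rw [e1] at hZ1 hZ1l z1'
    have l1 := h.ear_len hrk hZ1 hZ1l p1 z1'
    have o1 := h.ear_odd hrk hr hZ1 hZ1l p1 z1' (by simp)
    have K : Cr G k r u1 u2 v1 v2 A B C D m1 m2 :=
      ⟨hZ, hZl, p1, p2, z1, z2, d, l1, l2, by simpa [Nat.add_assoc] using o1, by simpa [Nat.add_assoc] using o2⟩
    exact K.false h hk hr

end Pool.Agent.Work.KZ
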