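import Pool.Agent.Work.MP_f0e709_co.T4c
import Pool.Agent.Work.MP_f0e709_co.T3

/-! No even cycle of length between `4k/3` and `2k` in a `P(k)`-graph. -/

set_option autoImplicit false

namespace Pool.Agent.Work.KZ

variable {V : Type*} {G : SimpleGraph V} {k r : ℕ}

theorem PK.end_base (h : PK G k) (hk : 4 ≤ k) (L : LE G k r) (hrk : r ≤ k) (hr : 2 * k ≤ 3 * r) {x : V}
    {c d : List V} (hZ : IsCyc G (x :: c)) (hZl : (x :: c).length = 2 * r) (hD : IsCyc G (x :: d))
    (hDl : (x :: d).length = k + 1) (hhd : c.head? = d.head?) (hlast : c.getLast? ≠ d.getLast?) : False := by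
  obtain ⟨s, M, c', hd, hc, hM, hMl⟩ := L.one_ear h (by omega) hrk hr hZ hZl hD hDl hhd hlast
  have hcl : c.length + 1 = 2 * r := by simpa using hZl
  have hdl : d.length = k := by simpa using hDl
  have hsl : s.length + M.length = k := by rw [← hdl, hd]; simp
  have hcl' : s.length + c'.length + 1 = 2 * r := by rw [← hcl, hc]; simp
  have hc'0 : c' ≠ [] := by
    rintro rfl
    simp at hcl'
    omega
  obtain ⟨c1, l, hc1⟩ : ∃ c1 l, c = c1 ++ [l] := by
    rcases List.eq_nil_or_concat c with h0 | ⟨c1, l, h0⟩
    · exfalso; subst h0; simp at hcl; omega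
    · exact ⟨c1, l, by simpa using h0⟩
  have hxl : G.Adj x l := by
    have := hZ.2.1 l (by rw [hc1, show x :: (c1 ++ [l]) = (x :: c1) ++ [l] by simp, List.getLast?_concat]; rfl)
      x (by simp)
    exact this.symm
  obtain ⟨w, m, hC, hCl⟩ := h.partner_exists (by omega) hxl
  have hCne : c.reverse.getLast? ≠ (l :: (m ++ [w])).getLast? := by
    intro he
    have e1 : (l :: (m ++ [w])).getLast? = some w := by
      rw [show l :: (m ++ [w]) = (l :: m) ++ [w] by simp, List.getLast?_concat]
    rw [List.getLast?_reverse, e1] at he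
    have hdw : d.head? = some w := by rw [← hhd, he]
    obtain ⟨m', l', hd'⟩ : ∃ m' l', d = w :: (m' ++ [l']) := by
      cases hdd : d with
      | nil => rw [hdd] at hdw; simp at hdw
      | cons a d1 =>
        rw [hdd] at hdw
        have ha : a = w := by simpa using hdw
        subst ha
        rcases List.eq_nil_or_concat d1 with h0 | ⟨m', l', h0⟩
        · exfalso; subst h0; rw [hdd] at hdl; simp at hdl; omega
        · exact ⟨m', l', by rw [h0]; simp⟩
    have P1 : Partner G k x w l' := ⟨m', by rw [← hd']; exact hD, by rw [hd'] at hdl; simp at hdl; omega⟩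
    have P2 : Partner G k x l w := ⟨m, hC, hCl⟩
    have heq := h.partner_unique (by omega) P1 P2.symm
    apply hlast
    rw [hc1, hd', heq, List.getLast?_concat, show w :: (m' ++ [l]) = (w :: m') ++ [l] by simp,
      List.getLast?_concat]
  obtain ⟨s', M', c'', he, hcr, hM', hM'l⟩ := L.one_ear h (by omega) hrk hr hZ.cons_reverse
    (by simpa using hZl) hC (by simp; omega) (by rw [hc1]; simp) hCne
  have hs'l : s'.length + M'.length = k := by
    have := congrArg List.length he
    simp at this
    omega
  have hc''l : s'.length + c''.length + 1 = 2 * r := by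
    have := congrArg List.length hcr
    simp at this
    omega
  have hc2 : c = c''.reverse ++ s'.reverse := by
    rw [← List.reverse_reverse c, hcr]; simp
  obtain ⟨t, ht⟩ : c''.reverse <+: s := by
    refine List.prefix_of_prefix_length_le (l₃ := c) ⟨s'.reverse, hc2.symm⟩ ⟨c', hc.symm⟩ ?_
    simp; omega
  obtain ⟨α, β, q1, rfl⟩ : ∃ α β q1, t = α :: β :: q1 := by
    have h1 := congrArg List.length ht
    simp at h1
    match t, h1 with
    | [], h1 => simp at h1; omega
    | [a], h1 => simp at h1; omega
    | a :: b :: q, _ => exact ⟨a, b, q, rfl⟩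
  have hs' : s'.reverse = α :: β :: q1 ++ c' := by
    have h1 : c''.reverse ++ s'.reverse = c''.reverse ++ (α :: β :: q1 ++ c') := by
      rw [← hc2, hc, ← ht]; simp
    exact List.append_cancel_left h1
  have P1 : IsP G ((β :: (q1 ++ M)) ++ x :: (c''.reverse ++ [α])) := by
    have h1 : IsCyc G ((x :: (c''.reverse ++ [α])) ++ (β :: (q1 ++ M))) := by
      have := hD
      rw [hd, ← ht] at this
      simpa using this
    exact h1.rot.isP
  have P2 : IsP G ((β :: (q1 ++ c')) ++ x :: (M'.reverse ++ [α])) := by
    have h1 := hC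
    rw [he] at h1
    have h2 := h1.cons_reverse
    rw [List.reverse_append, hs'] at h2
    have h3 : IsCyc G ((x :: (M'.reverse ++ [α])) ++ (β :: (q1 ++ c'))) := by simpa using h2
    exact h3.rot.isP
  have l1 : c''.length + q1.length + 2 = s.length := by
    have h1 := congrArg List.length ht
    simp at h1
    omega
  have l2 : s'.length = q1.length + c'.length + 2 := by
    have h1 := congrArg List.length hs'
    simp at h1
    omega
  have heq := h.uniq P1 P2 (by simp; omega) (by simp; omega) (by simp)
    (by
      rw [show (β :: (q1 ++ M)) ++ x :: (c''.reverse ++ [α]) = ((β :: (q1 ++ M)) ++ x :: c''.reverse) ++ [α] by simp,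
        show (β :: (q1 ++ c')) ++ x :: (M'.reverse ++ [α]) = ((β :: (q1 ++ c')) ++ x :: M'.reverse) ++ [α] by simp,
        List.getLast?_concat, List.getLast?_concat]) (by omega)
  have n1 := P1.1
  have n2 := P2.1
  rw [List.nodup_append'] at n1 n2
  have h3 := (split_unique heq (fun hx => n1.2.2 hx (by simp)) (fun hx => n2.2.2 hx (by simp))).1
  have h4 : M = c' := by
    have : q1 ++ M = q1 ++ c' := by simpa using h3
    exact List.append_cancel_left this
  obtain ⟨z, hz⟩ := List.exists_mem_of_ne_nil c' hc'0
  exact hM z (by rw [h4]; exact hz) (by rw [hc]; simp [hz])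

/-- **no even cycle of length between `4k/3` and `2k`** -/
theorem PK.no_long_even (h : PK G k) (hk : 4 ≤ k) {Z : List V} (hZ : IsCyc G Z) (hev : Even Z.length)
    (h1 : 4 * k ≤ 3 * Z.length) (h2 : Z.length ≤ 2 * k) : False := by
  obtain ⟨r, hr⟩ := hev
  have L : LE G k r := h.toLE (by omega) (by omega) (by omega)
  obtain ⟨x, c, rfl⟩ : ∃ x c, Z = x :: c := List.exists_cons_of_ne_nil hZ.ne_nil
  have hcl : c.length + 1 = 2 * r := by simp at hr; omega
  obtain ⟨c0, c1, rfl⟩ : ∃ c0 c1, c = c0 :: c1 := by
    cases c with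
    | nil => simp at hcl; omega
    | cons a b => exact ⟨a, b, rfl⟩
  have hxc : G.Adj x c0 := (isP_cons.1 hZ.isP).2.2 c0 (by simp)
  obtain ⟨w, m, hD, hDl⟩ := h.partner_exists (by omega) hxc
  have hZl : (x :: c0 :: c1).length = 2 * r := by simpa using hcl
  have hDl' : (x :: c0 :: (m ++ [w])).length = k + 1 := by simp; omega
  by_cases hlast : (c0 :: c1).getLast? = (c0 :: (m ++ [w])).getLast?
  swap
  · exact h.end_base hk L (by omega) (by omega) hZ hZl hD hDl' (by simp) hlast
  obtain ⟨s, u, v, hc, hd, huv⟩ := common_start (c0 :: c1) (c0 :: (m ++ [w]))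
  have l1 := congrArg List.length hc
  have l2 := congrArg List.length hd
  simp at l1 l2 hcl hDl'
  rcases huv with h0 | h0 | ⟨α, u', β, v', h3, h4, h5⟩
  · subst h0; simp at l1; omega
  · subst h0
    simp only [List.append_nil] at hd
    have hu : u ≠ [] := by
      rintro rfl
      simp at l1 l2
      omega
    have hs : s ≠ [] := by
      rintro rfl; simp at hd
    have n1 := hZ.isP.1
    rw [hc, List.nodup_cons, List.nodup_append'] at n1
    rw [hc, List.getLast?_append_of_ne_nil _ hu, hd] at hlast
    obtain ⟨a, ha⟩ : ∃ a, u.getLast? = some a := by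
      rw [List.getLast?_eq_some_getLast hu]; exact ⟨_, rfl⟩
    exact n1.2.2.2 (List.mem_of_mem_getLast? (by rw [← hlast, ha]; rfl)) (List.mem_of_mem_getLast? (by rw [ha]; rfl))
  · subst h3; subst h4
    have hs : s ≠ [] := by
      rintro rfl
      simp at hc hd
      exact h5 (hc.1.symm.trans hd.1)
    obtain ⟨s0, y, rfl⟩ : ∃ s0 y, s = s0 ++ [y] := by
      rcases List.eq_nil_or_concat s with h0 | ⟨l, b, h0⟩
      · exact absurd h0 hs
      · exact ⟨l, b, by simpa using h0⟩
    have hZ1 : IsCyc G (y :: ((α :: u') ++ x :: s0)) := by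
      have h6 : IsCyc G ((x :: s0) ++ (y :: α :: u')) := by
        have := hZ
        rw [hc] at this
        simpa using this
      simpa using h6.rot
    have hD1 : IsCyc G (y :: ((β :: v') ++ x :: s0)) := by
      have h6 : IsCyc G ((x :: s0) ++ (y :: β :: v')) := by
        have := hD
        rw [hd] at this
        simpa using this
      simpa using h6.rot
    have hZ2 := hZ1.cons_reverse
    have hD2 := hD1.cons_reverse
    refine h.end_base hk L (by omega) (by omega) hZ2 ?_ hD2 ?_ ?_ ?_
    · simp at l1 ⊢; omega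
    · simp at l2 ⊢; omega
    · rw [List.reverse_append, List.reverse_append, List.head?_append_of_ne_nil _ (by simp),
        List.head?_append_of_ne_nil _ (by simp)]
    · rw [List.getLast?_reverse, List.getLast?_reverse]
      simpa using h5

end Pool.Agent.Work.KZ
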